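import Pool.Agent.P.MP_8b7eba_nt.R1.Ode

/-! The addition theorem for the Weierstrass functions. -/

namespace Pool.Agent.P.MP_8b7eba_nt.R1

open Complex Filter Topology MeasureTheory Metric Finset Asymptotics PowerSeries
open scoped Real UpperHalfPlane MatrixGroups ComplexConjugate
open _root_.Pool.Agent.P.MP_8b7eba_nt.Mod (M2 G0 FI L0 om lv xx yy qq UH atI ex mT)
open BSD15 (OO Good cls gch gJ nm cj rho lam Adm B3 B5 No4 Xp XJ Rn)
open MP_9c97e9_nt (Pt pm Is)

namespace AddA

variable (L : PeriodPair)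

theorem cnt : (L.lattice : Set ℂ).Countable := countable_of_Lindelof_of_discrete (X := L.lattice)

theorem conn {s : Set ℂ} (hs : s.Countable) : IsPreconnected sᶜ :=
  (hs.isConnected_compl_of_one_lt_rank (by simp)).2

theorem ev_notMem : ∀ᶠ t in 𝓝[≠] (0 : ℂ), t ∉ L.lattice := by
  filter_upwards [mem_nhdsWithin_of_mem_nhds (L.compl_lattice_sdiff_singleton_mem_nhds 0),
    self_mem_nhdsWithin] with t h h0 hm
  exact h ⟨hm, h0⟩

theorem tend_a : Tendsto (fun t => t ^ 2 * L.weierstrassP t) (𝓝[≠] 0) (𝓝 1) := by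
  have h := (L.analyticAt_weierstrassPExcept 0).continuousAt
  have h1 : ContinuousAt (fun t => t ^ 2 * L.weierstrassPExcept 0 t + 1) 0 := by fun_prop
  have h2 := h1.tendsto.mono_left (nhdsWithin_le_nhds (s := {0}ᶜ))
  simp only [ne_eq, OfNat.ofNat_ne_zero, not_false_eq_true, zero_pow, zero_mul, zero_add] at h2
  refine h2.congr' ?_
  filter_upwards [self_mem_nhdsWithin] with t ht
  have h0 : t ≠ 0 := ht
  rw [← L.weierstrassPExcept_add 0 t]
  simp only [Submodule.coe_zero, sub_zero, ne_eq, OfNat.ofNat_ne_zero, not_false_eq_true, zero_pow,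
    div_zero]
  field_simp

theorem tend_b : Tendsto (fun t => t ^ 3 * L.derivWeierstrassP t) (𝓝[≠] 0) (𝓝 (-2)) := by
  have h := (L.analyticAt_derivWeierstrassPExcept 0).continuousAt
  have h1 : ContinuousAt (fun t => t ^ 3 * L.derivWeierstrassPExcept 0 t - 2) 0 := by fun_prop
  have h2 := h1.tendsto.mono_left (nhdsWithin_le_nhds (s := {0}ᶜ))
  simp only [ne_eq, OfNat.ofNat_ne_zero, not_false_eq_true, zero_pow, zero_mul, zero_sub] at h2
  refine h2.congr' ?_
  filter_upwards [self_mem_nhdsWithin] with t ht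
  have h0 : t ≠ 0 := ht
  rw [← L.derivWeierstrassPExcept_sub 0 t]
  simp only [Submodule.coe_zero, sub_zero]
  field_simp

theorem tend_id : Tendsto (fun t : ℂ => t) (𝓝[≠] 0) (𝓝 0) := tendsto_id.mono_left nhdsWithin_le_nhds

theorem ev_ne {h : ℂ → ℂ} (hh : ContinuousAt h 0) :
    ∀ᶠ t in 𝓝[≠] (0 : ℂ), L.weierstrassP t ≠ h t := by
  have h1 := (tend_a L).sub ((tend_id.pow 2).mul (hh.tendsto.mono_left nhdsWithin_le_nhds))
  filter_upwards [h1.eventually_ne (b₂ := 0) (by simp)] with t ht e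
  exact ht (by rw [e, sub_self])

theorem cnt_eq {U : Set ℂ} {h : ℂ → ℂ} (hU : IsPreconnected U) (h0 : ∀ᶠ t in 𝓝[≠] (0 : ℂ), t ∈ U)
    (hL : U ⊆ (L.lattice : Set ℂ)ᶜ) (hh : AnalyticOnNhd ℂ h U) (hc : ContinuousAt h 0) :
    ({t | L.weierstrassP t = h t} ∩ U).Countable := by
  rcases (L.analyticOnNhd_weierstrassP.mono hL).eqOn_or_eventually_ne_of_preconnected hh hU with
    e | e
  · obtain ⟨t, h1, h2⟩ := (h0.and (ev_ne L hc)).exists
    exact absurd (e h1) h2
  · exact (HereditarilyLindelofSpace.isLindelof _).countable_of_isDiscrete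
      (isDiscrete_of_codiscreteWithin e)

theorem cnt_level (v : ℂ) : ({t | L.weierstrassP t = v} ∩ (L.lattice : Set ℂ)ᶜ).Countable :=
  cnt_eq L (conn (cnt L)) (ev_notMem L) le_rfl analyticOnNhd_const continuousAt_const

variable {L}

theorem dP {z : ℂ} (hz : z ∉ L.lattice) : HasDerivAt L.weierstrassP (L.derivWeierstrassP z) z := by
  rw [← L.deriv_weierstrassP]
  exact (L.analyticOnNhd_weierstrassP z hz).differentiableAt.hasDerivAt

theorem dQ {z : ℂ} (hz : z ∉ L.lattice) :
    HasDerivAt L.derivWeierstrassP (6 * L.weierstrassP z ^ 2 - L.g₂ / 2) z := by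
  have hP := L.analyticOnNhd_weierstrassP
  have hQ := L.analyticOnNhd_derivWeierstrassP
  have hg : AnalyticOnNhd ℂ
      (fun w => deriv L.derivWeierstrassP w - (6 * L.weierstrassP w ^ 2 - L.g₂ / 2))
      (L.lattice : Set ℂ)ᶜ :=
    hQ.deriv.sub ((analyticOnNhd_const.mul (hP.pow 2)).sub analyticOnNhd_const)
  have hfg : ∀ w ∈ (L.lattice : Set ℂ)ᶜ, L.derivWeierstrassP w *
      (deriv L.derivWeierstrassP w - (6 * L.weierstrassP w ^ 2 - L.g₂ / 2)) = 0 := by
    intro w hw
    have h1 := ((hQ w hw).differentiableAt.hasDerivAt).fun_pow 2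
    have h2 := ((((dP hw).fun_pow 3).const_mul 4).fun_sub ((dP hw).const_mul L.g₂)).sub_const L.g₃
    have h3 := h1.unique (h2.congr_of_eventuallyEq (by
      filter_upwards [L.isClosed_lattice.isOpen_compl.mem_nhds hw] with v hv
      exact L.derivWeierstrassP_sq v hv))
    simp only [Nat.cast_ofNat, Nat.add_one_sub_one] at h3
    linear_combination h3 / 2
  rcases hQ.eq_zero_or_eq_zero_of_mul_eq_zero hg hfg (conn (cnt L)) with e | e
  · obtain ⟨t, h1, h2⟩ := ((ev_notMem L).and ((tend_b L).eventually_ne (b₂ := 0) (by simp))).exists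
    exact absurd (by rw [e t h1, mul_zero]) h2
  · rw [← sub_eq_zero.1 (e z hz)]
    exact (hQ z hz).differentiableAt.hasDerivAt

/-- the slope of the chord -/
noncomputable def sl (L : PeriodPair) (a b : ℂ) : ℂ :=
  (L.derivWeierstrassP a - L.derivWeierstrassP b) / (L.weierstrassP a - L.weierstrassP b)

/-- the first coordinate of the sum -/
noncomputable def fX (L : PeriodPair) (a b : ℂ) : ℂ :=
  sl L a b ^ 2 / 4 - L.weierstrassP a - L.weierstrassP b

/-- the second coordinate of the sum -/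
noncomputable def fY (L : PeriodPair) (a b : ℂ) : ℂ :=
  -(L.derivWeierstrassP b + sl L a b * (fX L a b - L.weierstrassP b))

theorem deriv_zero {s t : ℂ} (ht : t ∉ L.lattice) (hs : s - t ∉ L.lattice)
    (hne : L.weierstrassP t ≠ L.weierstrassP (s - t)) :
    HasDerivAt (fun t => fX L t (s - t)) 0 t ∧ HasDerivAt (fun t => fY L t (s - t)) 0 t := by
  have h0 := sub_ne_zero.2 hne
  have e1 := L.derivWeierstrassP_sq t ht
  have e2 := L.derivWeierstrassP_sq (s - t) hs
  have p1 := dP ht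
  have q1 := dQ ht
  have p2 := (dP hs).comp_const_sub s t
  have q2 := (dQ hs).comp_const_sub s t
  have hm : HasDerivAt (fun t => sl L t (s - t))
      (2 * (L.weierstrassP t - L.weierstrassP (s - t))) t := by
    refine ((q1.fun_sub q2).fun_div (p1.fun_sub p2) h0).congr_deriv ?_
    rw [div_eq_iff (pow_ne_zero 2 h0)]
    linear_combination e2 - e1
  have e3 : sl L t (s - t) * (L.weierstrassP t - L.weierstrassP (s - t)) =
      L.derivWeierstrassP t - L.derivWeierstrassP (s - t) := div_mul_cancel₀ _ h0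
  have hX : HasDerivAt (fun t => fX L t (s - t)) 0 t := by
    refine ((((hm.fun_pow 2).div_const 4).fun_sub p1).fun_sub p2).congr_deriv ?_
    simp only [Nat.cast_ofNat, Nat.add_one_sub_one]
    linear_combination e3
  refine ⟨hX, ((q2.fun_add (hm.fun_mul (hX.fun_sub p2))).fun_neg).congr_deriv ?_⟩
  refine mul_left_cancel₀ h0 ?_
  unfold fX
  linear_combination (e2 - e1) / 2 - (sl L t (s - t) *
    (L.weierstrassP t - L.weierstrassP (s - t)) + L.derivWeierstrassP t +
      L.derivWeierstrassP (s - t)) / 2 * e3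

/-- the numerator of the expansion at the pole -/
noncomputable def nu (g₂ g₃ t a b x y : ℂ) : ℂ :=
  (12 * x ^ 2 - g₂) * a * t - 2 * b * y + (y ^ 2 - g₃ - 8 * x ^ 3) * t ^ 3

theorem expand {a b : ℂ} (ha : a ∉ L.lattice) (hne : L.weierstrassP a ≠ L.weierstrassP b) :
    fX L a b = L.weierstrassP b + a * nu L.g₂ L.g₃ a (a ^ 2 * L.weierstrassP a)
      (a ^ 3 * L.derivWeierstrassP a) (L.weierstrassP b) (L.derivWeierstrassP b) /
        (4 * (a ^ 2 * L.weierstrassP a - a ^ 2 * L.weierstrassP b) ^ 2) ∧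
    fY L a b = -(L.derivWeierstrassP b +
      (a ^ 3 * L.derivWeierstrassP a - a ^ 3 * L.derivWeierstrassP b) *
        nu L.g₂ L.g₃ a (a ^ 2 * L.weierstrassP a) (a ^ 3 * L.derivWeierstrassP a)
          (L.weierstrassP b) (L.derivWeierstrassP b) /
        (4 * (a ^ 2 * L.weierstrassP a - a ^ 2 * L.weierstrassP b) ^ 3)) := by
  have h0 := sub_ne_zero.2 hne
  have h1 : a ≠ 0 := fun e => ha (e ▸ L.lattice.zero_mem)
  have e : L.g₃ = 4 * L.weierstrassP a ^ 3 - L.g₂ * L.weierstrassP a -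
      L.derivWeierstrassP a ^ 2 := by linear_combination L.derivWeierstrassP_sq a ha
  unfold fY fX sl nu
  rw [e, ← mul_sub (a ^ 2)]
  constructor
  · field_simp
    ring
  · field_simp
    ring

theorem add_formula {a b : ℂ} (ha : a ∉ L.lattice) (hb : b ∉ L.lattice) (hs : a + b ∉ L.lattice)
    (hne : L.weierstrassP a ≠ L.weierstrassP b) :
    fX L a b = L.weierstrassP (a + b) ∧ fY L a b = L.derivWeierstrassP (a + b) := by
  obtain ⟨s, rfl⟩ : ∃ s, b = s - a := ⟨a + b, by ring⟩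
  rw [add_sub_cancel] at hs ⊢
  have ho := L.isClosed_lattice.isOpen_compl
  set U : Set ℂ := ((L.lattice : Set ℂ) ∪ (fun t => s - t) ⁻¹' L.lattice)ᶜ with hU
  have mU : ∀ t, t ∈ U ↔ t ∉ L.lattice ∧ s - t ∉ L.lattice := fun t => by simp [hU]
  have cU : ((L.lattice : Set ℂ) ∪ (fun t => s - t) ⁻¹' L.lattice).Countable :=
    (cnt L).union ((cnt L).preimage sub_right_injective)
  have oU : IsOpen U :=
    (L.isClosed_lattice.union (L.isClosed_lattice.preimage (by fun_prop))).isOpen_compl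
  have hs0 : s - 0 ∉ L.lattice := by rwa [sub_zero]
  have cP : ContinuousAt (fun t => L.weierstrassP (s - t)) 0 :=
    ((dP hs0).comp_const_sub s 0).continuousAt
  have cQ : ContinuousAt (fun t => L.derivWeierstrassP (s - t)) 0 :=
    ((dQ hs0).comp_const_sub s 0).continuousAt
  have eU : ∀ᶠ t in 𝓝[≠] (0 : ℂ), t ∈ U := by
    have : ∀ᶠ t in 𝓝 (0 : ℂ), s - t ∈ (L.lattice : Set ℂ)ᶜ :=
      (show ContinuousAt (fun t : ℂ => s - t) 0 by fun_prop).eventually (ho.mem_nhds hs0)
    filter_upwards [ev_notMem L, mem_nhdsWithin_of_mem_nhds this] with t h1 h2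
    exact (mU t).2 ⟨h1, h2⟩
  have aP : AnalyticOnNhd ℂ (fun t => L.weierstrassP (s - t)) U := fun t ht =>
    (L.analyticOnNhd_weierstrassP _ ((mU t).1 ht).2).comp (f := fun t => s - t) (by fun_prop)
  have cZ := cnt_eq L (conn cU) eU (fun t ht => ((mU t).1 ht).1) aP cP
  set V : Set ℂ := U ∩ (fun t => L.weierstrassP t - L.weierstrassP (s - t)) ⁻¹' {0}ᶜ with hV
  have mV : ∀ t, t ∈ V ↔ (t ∉ L.lattice ∧ s - t ∉ L.lattice) ∧
      L.weierstrassP t ≠ L.weierstrassP (s - t) := fun t => by simp [hV, mU, sub_eq_zero]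
  have oV : IsOpen V :=
    ((L.analyticOnNhd_weierstrassP.mono (fun t ht => ((mU t).1 ht).1)).sub
      aP).continuousOn.isOpen_inter_preimage oU isOpen_compl_singleton
  have pV : IsPreconnected V := by
    have : V = (((L.lattice : Set ℂ) ∪ (fun t => s - t) ⁻¹' L.lattice) ∪
        ({t | L.weierstrassP t = L.weierstrassP (s - t)} ∩ U))ᶜ := by
      ext t
      simp only [mV, Set.mem_compl_iff, Set.mem_union, Set.mem_inter_iff, mU, SetLike.mem_coe,
        Set.mem_preimage, Set.mem_ofPred_eq]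
      tauto
    rw [this]
    exact conn (cU.union cZ)
  have eV : ∀ᶠ t in 𝓝[≠] (0 : ℂ), t ∈ V := by
    filter_upwards [eU, ev_ne L cP] with t h1 h2
    exact (mV t).2 ⟨(mU t).1 h1, h2⟩
  have hd := fun t (ht : t ∈ V) => deriv_zero ((mV t).1 ht).1.1 ((mV t).1 ht).1.2 ((mV t).1 ht).2
  have key : ∀ (f g : ℂ → ℂ) (c : ℂ), (∀ t ∈ V, HasDerivAt f 0 t) → (∀ t ∈ V, f t = g t) →
      Tendsto g (𝓝[≠] 0) (𝓝 c) → f a = c := by
    intro f g c h1 h2 h3
    refine tendsto_nhds_unique (tendsto_const_nhds.congr' ?_) h3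
    filter_upwards [eV] with t ht
    rw [← h2 t ht]
    exact oV.is_const_of_deriv_eq_zero pV
      (fun t ht => (h1 t ht).differentiableAt.differentiableWithinAt) (fun t ht => (h1 t ht).deriv)
      ((mV a).2 ⟨⟨ha, hb⟩, hne⟩) ht
  have tP := cP.tendsto.mono_left (nhdsWithin_le_nhds (s := {0}ᶜ))
  have tQ := cQ.tendsto.mono_left (nhdsWithin_le_nhds (s := {0}ᶜ))
  rw [sub_zero] at tP tQ
  have tD := (tend_a L).sub ((tend_id.pow 2).mul tP)
  have tN : Tendsto (fun t => nu L.g₂ L.g₃ t (t ^ 2 * L.weierstrassP t)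
      (t ^ 3 * L.derivWeierstrassP t) (L.weierstrassP (s - t)) (L.derivWeierstrassP (s - t)))
      (𝓝[≠] 0) (𝓝 (nu L.g₂ L.g₃ 0 1 (-2) (L.weierstrassP s) (L.derivWeierstrassP s))) :=
    ((((((tP.pow 2).const_mul 12).sub_const _).mul (tend_a L)).mul tend_id).sub
      (((tend_b L).const_mul 2).mul tQ)).add
      ((((tQ.pow 2).sub_const _).sub ((tP.pow 3).const_mul 8)).mul (tend_id.pow 3))
  constructor
  · refine (key _ _ _ (fun t ht => (hd t ht).1)
      (fun t ht => (expand ((mV t).1 ht).1.1 ((mV t).1 ht).2).1)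
      (tP.add ((tend_id.mul tN).div ((tD.pow 2).const_mul 4) (by simp)))).trans ?_
    simp
  · refine (key _ _ _ (fun t ht => (hd t ht).2)
      (fun t ht => (expand ((mV t).1 ht).1.1 ((mV t).1 ht).2).2)
      (tQ.add ((((tend_b L).sub ((tend_id.pow 3).mul tQ)).mul tN).div ((tD.pow 3).const_mul 4)
        (by simp))).neg).trans ?_
    unfold nu
    ring

open Classical in
/-- the uniformisation -/
noncomputable def un (L : PeriodPair) (w : ℂ) : EC :=
  if w ∈ L.lattice then 0 else mkP (4 * L.weierstrassP w + 7 / 3) (8 * L.derivWeierstrassP w)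

theorem un_mem {w : ℂ} (hw : w ∈ L.lattice) : un L w = 0 := if_pos hw

theorem un_is (h2 : L.g₂ = 481 / 12) (h3 : L.g₃ = 4879 / 216) {w : ℂ} (hw : w ∉ L.lattice) :
    Is (un L w) (4 * L.weierstrassP w + 7 / 3) (8 * L.derivWeierstrassP w) := by
  rw [un, if_neg hw]
  refine is_mkP ?_
  have := L.derivWeierstrassP_sq w hw
  rw [h2, h3] at this
  linear_combination 64 * this

theorem un_add_mem (w : ℂ) {l : ℂ} (hl : l ∈ L.lattice) : un L (w + l) = un L w := by
  by_cases hw : w ∈ L.lattice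
  · rw [un_mem hw, un_mem (L.lattice.add_mem hw hl)]
  · rw [un, un, if_neg hw, if_neg (mt (L.lattice.add_mem_iff_left hl).1 hw),
      L.weierstrassP_add_coe w ⟨l, hl⟩, L.derivWeierstrassP_add_coe w ⟨l, hl⟩]

theorem cnt_bad (h2 : L.g₂ = 481 / 12) (h3 : L.g₃ = 4879 / 216) (d : ℂ) :
    {c | un L (d + c) ≠ un L d + un L c}.Countable := by
  by_cases hd : d ∈ L.lattice
  · refine Set.countable_empty.mono fun c hc => hc ?_
    rw [add_comm, un_add_mem c hd, un_mem hd, zero_add]
  refine (((cnt L).preimage (add_left_injective d)).union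
    (cnt_level L (L.weierstrassP d))).mono fun c hc => ?_
  by_contra h
  refine hc ?_
  by_cases h1 : c ∈ L.lattice
  · rw [un_add_mem d h1, un_mem h1, add_zero]
  have h4 : c + d ∉ L.lattice := fun e => h (Or.inl e)
  have h5 : L.weierstrassP c ≠ L.weierstrassP d := fun e => h (Or.inr ⟨e, h1⟩)
  obtain ⟨e1, e2⟩ := add_formula h1 hd h4 h5
  have e3 : sl L c d * (L.weierstrassP c - L.weierstrassP d) =
      L.derivWeierstrassP c - L.derivWeierstrassP d := div_mul_cancel₀ _ (sub_ne_zero.2 h5)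
  have h6 := (un_is h2 h3 hd).add_ne split15 (un_is h2 h3 h1)
    (fun e => h5 (by linear_combination -e / 4)) (m := 2 * sl L c d)
    (x₃ := 4 * L.weierstrassP (c + d) + 7 / 3) (by linear_combination -8 * e3)
    (by rw [← e1, fX]; ring)
  have h7 := un_is h2 h3 h4
  rw [add_comm d c]
  refine h7.unique split15 ?_
  have e4 : 8 * L.derivWeierstrassP (c + d) = -(8 * L.derivWeierstrassP d + 2 * sl L c d *
      (4 * L.weierstrassP (c + d) + 7 / 3 - (4 * L.weierstrassP d + 7 / 3))) := by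
    rw [← e2, fY, e1]
    ring
  rw [e4]
  exact h6

end AddA

theorem exists_hom (L : PeriodPair) (h2 : L.g₂ = 481 / 12) (h3 : L.g₃ = 4879 / 216) :
    ∃ u : ℂ →+ EC, (∀ w ∈ L.lattice, u w = 0) ∧ ∀ w, w ∉ L.lattice →
      Is (u w) (4 * L.weierstrassP w + 7 / 3) (8 * L.derivWeierstrassP w) := by
  refine ⟨AddMonoidHom.mk' (AddA.un L) fun a b => ?_, fun w hw => AddA.un_mem hw,
    fun w hw => AddA.un_is h2 h3 hw⟩
  have hc := ((AddA.cnt_bad h2 h3 (a + b)).union (AddA.cnt_bad h2 h3 b)).union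
    ((AddA.cnt_bad h2 h3 a).preimage (add_right_injective b))
  obtain ⟨c, hc⟩ := (hc.isConnected_compl_of_one_lt_rank (by simp)).nonempty
  simp only [Set.mem_compl_iff, Set.mem_union, Set.mem_ofPred_eq, Set.mem_preimage, not_or,
    not_not] at hc
  obtain ⟨⟨e1, e2⟩, e3⟩ := hc
  rw [← add_assoc, e1, e2, ← add_assoc] at e3
  exact add_right_cancel e3

end Pool.Agent.P.MP_8b7eba_nt.R1
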