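import Pool.Agent.P.MP_8b7eba_nt.R1.Basic

/-! The lattice with prescribed invariants. -/

namespace Pool.Agent.P.MP_8b7eba_nt.R1

open Complex Filter Topology MeasureTheory Metric Finset Asymptotics PowerSeries
open scoped Real UpperHalfPlane MatrixGroups ComplexConjugate
open _root_.Pool.Agent.P.MP_8b7eba_nt.Mod (M2 G0 FI L0 om lv xx yy qq UH atI ex mT)
open BSD15 (OO Good cls gch gJ nm cj rho lam Adm B3 B5 No4 Xp XJ Rn)
open MP_9c97e9_nt (Pt pm Is)

open UpperHalfPlane ModularForm in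
theorem lat_zero {k : ℤ} (hk : 0 < k) (f : ModularForm 𝒮ℒ k) {L : ℂ} (hL : L ≠ 0)
    (ht : Tendsto f atImInfty (𝓝 L)) : ∃ z, f z = 0 := by
  by_contra hne
  push Not at hne
  have hs : ∀ γ : SL(2, ℤ), (fun z => 1 / f z) ∣[0 - k] γ = fun z => 1 / f z := by
    intro γ
    have hγ : (γ : GL (Fin 2) ℝ) ∈ 𝒮ℒ := ⟨γ, rfl⟩
    change ((1 : ℍ → ℂ) / ⇑f) ∣[0 - k] γ = 1 / ⇑f
    rw [div_slash_SL2, is_invariant_one, SL_slash, SlashInvariantForm.slash_action_eqn _ _ hγ]
  let g : ModularForm 𝒮ℒ (0 - k) :=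
    { toFun z := 1 / f z
      slash_action_eq' := fun _ ⟨γ, hγ⟩ => hγ ▸ hs γ
      holo' := (mdifferentiable_const (c := (1 : ℂ))).div f.holo' hne
      bdd_at_cusps' := fun {c} hc => by
        rw [Subgroup.IsArithmetic.isCusp_iff_isCusp_SL2Z] at hc
        rw [OnePoint.isBoundedAt_iff_forall_SL2Z hc]
        intro γ _
        rw [hs γ]
        exact (tendsto_const_nhds.div ht hL).isBigO_one ℝ }
  have h0 := congrFun (ModularFormClass.levelOne_neg_weight_eq_zero (by omega) g) UpperHalfPlane.I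
  exact one_div_ne_zero (hne _) h0

open UpperHalfPlane ModularForm in
theorem lat_tendsto {k : ℕ} (hk : 3 ≤ k) (hk2 : Even k) :
    Tendsto (E hk) atImInfty (𝓝 1) := by
  have hanal := ModularFormClass.analyticAt_cuspFunction_zero (E hk) one_pos
    one_mem_strictPeriods_SL
  have hper := SlashInvariantFormClass.periodic_comp_ofComplex (E hk) one_mem_strictPeriods_SL
  have h1 := EisensteinSeries.E_qExpansion_coeff_zero hk hk2
  rw [qExpansion_coeff_zero one_pos hanal hper, ← cuspFunction_apply_zero one_pos hanal hper] at h1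
  rw [← h1]
  exact (hanal.continuousAt.tendsto.comp (qParam_tendsto_atImInfty one_pos)).congr
    fun τ => SlashInvariantFormClass.eq_cuspFunction (E hk) τ one_mem_strictPeriods_SL one_ne_zero

open ModularForm in
theorem lat_tau {a b : ℂ} (h : b - a ≠ 0) : ∃ τ : ℍ, b * E₄ τ ^ 3 = a * E₆ τ ^ 2 := by
  let F : ModularForm 𝒮ℒ 12 := b • ModularForm.mcast (by decide) (E₄.pow 3) -
    a • ModularForm.mcast (by decide) (E₆.pow 2)
  have hF : ∀ z, F z = b * E₄ z ^ 3 - a * E₆ z ^ 2 := fun z => rfl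
  have ht : Tendsto F UpperHalfPlane.atImInfty (𝓝 (b * 1 ^ 3 - a * 1 ^ 2)) :=
    ((((lat_tendsto _ ⟨2, rfl⟩).pow 3).const_mul b).sub
      (((lat_tendsto _ ⟨3, rfl⟩).pow 2).const_mul a)).congr fun z => (hF z).symm
  obtain ⟨τ, hτ⟩ := lat_zero (by norm_num) F (by simpa using h) ht
  exact ⟨τ, sub_eq_zero.1 ((hF τ).symm.trans hτ)⟩

/-- the lattice spanned by `l τ` and `l` -/
noncomputable def lat_pair (τ : ℍ) (l : ℂ) (hl : l ≠ 0) : PeriodPair where
  ω₁ := l * τ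
  ω₂ := l
  indep := by
    rw [LinearIndependent.pair_iff]
    intro s t h
    have h1 : (s : ℂ) * τ + t = 0 := by
      apply mul_left_cancel₀ hl
      simp only [real_smul] at h
      linear_combination h
    have h2 := congrArg Complex.im h1
    have h3 := congrArg Complex.re h1
    simp only [add_im, mul_im, ofReal_re, ofReal_im, zero_mul, add_zero, zero_im,
      UpperHalfPlane.coe_im] at h2
    have hs : s = 0 := (mul_eq_zero.1 h2).resolve_right τ.im_pos.ne'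
    subst hs
    simpa using h3

open ModularForm in
theorem lat_G (τ : ℍ) (l : ℂ) (hl : l ≠ 0) {k : ℕ} (hk : 3 ≤ k) :
    (lat_pair τ l hl).G k = (l ^ k)⁻¹ * (2 * riemannZeta k * E hk τ) := by
  have h1 := tsum_eisSummand_eq_riemannZeta_mul_eisensteinSeries hk τ
  have h2 : E hk τ = (1 / 2 : ℂ) * eisensteinSeries (N := 1) 0 k τ := rfl
  have h3 : 2 * riemannZeta k * E hk τ = ∑' v : Fin 2 → ℤ, EisensteinSeries.eisSummand k v τ := by
    rw [h1, h2]
    ring
  rw [h3, ← tsum_mul_left, PeriodPair.G,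
    ← (lat_pair τ l hl).latticeEquivProd.toEquiv.symm.tsum_eq, ← (finTwoArrowEquiv ℤ).tsum_eq]
  refine tsum_congr fun v => ?_
  have e : (((lat_pair τ l hl).latticeEquivProd.toEquiv.symm (finTwoArrowEquiv ℤ v) :
      (lat_pair τ l hl).lattice) : ℂ) = l * (v 0 * τ + v 1) := by
    refine ((lat_pair τ l hl).latticeEquiv_symm_apply _).trans ?_
    change (v 0 : ℂ) * (l * τ) + v 1 * l = _
    ring
  rw [e, EisensteinSeries.eisSummand, mul_pow, mul_inv, zpow_neg, zpow_natCast]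

theorem lat_zeta_six : riemannZeta 6 = π ^ 6 / 945 := by
  have h := riemannZeta_two_mul_nat (k := 3) (by norm_num)
  rw [show bernoulli (2 * 3) = 1 / 42 by decide +kernel] at h
  norm_num [Nat.factorial] at h
  rw [h]
  ring

open ModularForm in
theorem exists_lattice : ∃ L : PeriodPair, L.g₂ = 481 / 12 ∧ L.g₃ = 4879 / 216 := by
  obtain ⟨a, ha⟩ : ∃ a : ℂ, a = 481 / 12 := ⟨_, rfl⟩
  obtain ⟨b, hb⟩ : ∃ b : ℂ, b = 4879 / 216 := ⟨_, rfl⟩
  have ha0 : a ≠ 0 := by rw [ha]; norm_num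
  have hb0 : b ≠ 0 := by rw [hb]; norm_num
  obtain ⟨τ, hτ⟩ := lat_tau (a := a ^ 3) (b := 27 * b ^ 2) (by rw [ha, hb]; norm_num)
  have hd := discriminant_ne_zero τ
  rw [discriminant_eq_E₄_cube_sub_E₆_sq] at hd
  have h4 : E₄ τ ≠ 0 := fun h => by
    rw [h] at hτ hd
    have : E₆ τ ^ 2 = 0 := (mul_eq_zero.1 (by rw [← hτ]; ring)).resolve_left (pow_ne_zero 3 ha0)
    exact hd (by rw [this]; ring)
  have h6 : E₆ τ ≠ 0 := fun h => by
    rw [h] at hτ
    exact mul_ne_zero (mul_ne_zero (by norm_num : (27 : ℂ) ≠ 0) (pow_ne_zero 2 hb0)) (pow_ne_zero 3 h4)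
      (by rw [hτ]; ring)
  have hπ : (π : ℂ) ≠ 0 := ofReal_ne_zero.2 Real.pi_ne_zero
  obtain ⟨μ, hμ⟩ : ∃ μ : ℂ, μ = 2 * π ^ 2 * a * E₆ τ / (9 * b * E₄ τ) := ⟨_, rfl⟩
  have hμ0 : μ ≠ 0 := by
    rw [hμ]
    exact div_ne_zero (mul_ne_zero (mul_ne_zero (mul_ne_zero two_ne_zero (pow_ne_zero 2 hπ)) ha0)
      h6) (mul_ne_zero (mul_ne_zero (by norm_num) hb0) h4)
  obtain ⟨l, hl⟩ := IsAlgClosed.exists_pow_nat_eq μ (n := 2) two_pos
  have hl0 : l ≠ 0 := fun h => hμ0 (by rw [← hl, h]; ring)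
  have e2 : a * μ ^ 2 = 4 * π ^ 4 / 3 * E₄ τ := by
    rw [hμ]
    field_simp
    linear_combination (-12) * hτ
  have e3 : b * μ ^ 3 = 8 * π ^ 6 / 27 * E₆ τ := by
    rw [hμ]
    field_simp
    linear_combination (-216) * hτ
  refine ⟨lat_pair τ l hl0, ?_, ?_⟩
  · rw [PeriodPair.g₂, lat_G τ l hl0 (k := 4) (by norm_num), ← ha, show l ^ 4 = μ ^ 2 by
      rw [← hl]; ring, Nat.cast_ofNat, riemannZeta_four]
    field_simp
    linear_combination (-90) * e2
  · rw [PeriodPair.g₃, lat_G τ l hl0 (k := 6) (by norm_num), ← hb, show l ^ 6 = μ ^ 3 by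
      rw [← hl]; ring, Nat.cast_ofNat, lat_zeta_six]
    field_simp
    linear_combination (-945) * e3

end Pool.Agent.P.MP_8b7eba_nt.R1
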