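import Pool.Agent.P.MP_8b7eba_nt.R1.Basic

/-! Automorphisms of the complex numbers. -/

namespace Pool.Agent.P.MP_8b7eba_nt.R1

open Complex Filter Topology MeasureTheory Metric Finset Asymptotics PowerSeries
open scoped Real UpperHalfPlane MatrixGroups ComplexConjugate
open _root_.Pool.Agent.P.MP_8b7eba_nt.Mod (M2 G0 FI L0 om lv xx yy qq UH atI ex mT)
open BSD15 (OO Good cls gch gJ nm cj rho lam Adm B3 B5 No4 Xp XJ Rn)
open MP_9c97e9_nt (Pt pm Is)

theorem Aut_basis {F ι : Type} [Field F] [Algebra F ℂ] {v : ι → ℂ} (hv : IsTranscendenceBasis F v)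
    (e : MvPolynomial ι F ≃+* MvPolynomial ι F) :
    ∃ σ : Aut, ∀ P, σ (MvPolynomial.aeval v P) = MvPolynomial.aeval v (e P) := by
  have := IsAlgClosed.isAlgClosure_of_transcendence_basis v hv
  refine ⟨IsAlgClosure.equivOfEquiv ℂ ℂ (hv.1.aevalEquiv.symm.toRingEquiv.trans
    (e.trans hv.1.aevalEquiv.toRingEquiv)), fun P => ?_⟩
  rw [← hv.1.algebraMap_aevalEquiv, IsAlgClosure.equivOfEquiv_algebraMap,
    ← hv.1.algebraMap_aevalEquiv]
  simp

theorem Aut_alg {F : Type} [Field F] [Algebra F ℂ]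
    (φ : algebraicClosure F ℂ ≃+* algebraicClosure F ℂ) :
    ∃ σ : Aut, ∀ a : algebraicClosure F ℂ, σ a = φ a := by
  obtain ⟨t, ht⟩ := exists_isTranscendenceBasis (algebraicClosure F ℂ) ℂ
  obtain ⟨σ, hσ⟩ := Aut_basis ht (MvPolynomial.mapEquiv t φ)
  refine ⟨σ, fun a => ?_⟩
  simpa using hσ (MvPolynomial.C a)

theorem Aut_ext {F : Type} [Field F] [Algebra F ℂ] (K : IntermediateField F ℂ)
    (hK : K ≤ algebraicClosure F ℂ) (f : K →+* ℂ)
    (h : f.comp (algebraMap F K) = algebraMap F ℂ) : ∃ σ : Aut, ∀ x : K, σ x = f x := by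
  let f' : K →ₐ[F] ℂ := ⟨f, RingHom.congr_fun h⟩
  have hf : ∀ x, f' x ∈ algebraicClosure F ℂ := fun x =>
    mem_algebraicClosure_iff.2 ((IntermediateField.isAlgebraic_iff.2
      (mem_algebraicClosure_iff.1 (hK x.2))).algHom f')
  let g : K →ₐ[F] algebraicClosure F ℂ := f'.codRestrict (algebraicClosure F ℂ).toSubalgebra hf
  let _ : Algebra K (algebraicClosure F ℂ) := (IntermediateField.inclusion hK).toAlgebra
  have : IsScalarTower F K (algebraicClosure F ℂ) := .of_algebraMap_eq fun _ => rfl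
  have : Algebra.IsAlgebraic K (algebraicClosure F ℂ) := Algebra.IsAlgebraic.tower_top (K := F) K
  have : IsAlgClosed (algebraicClosure F ℂ) := IsAlgClosure.isAlgClosed F
  obtain ⟨φ, hφ⟩ := IsAlgClosed.surjective_domRestrict_of_isAlgebraic
    (E := algebraicClosure F ℂ) g
  obtain ⟨σ, hσ⟩ := Aut_alg
    (RingEquiv.ofBijective φ (Algebra.IsAlgebraic.algHom_bijective φ))
  refine ⟨σ, fun x => (hσ ⟨x, hK x.2⟩).trans ?_⟩
  exact congrArg Subtype.val (DFunLike.congr_fun hφ x)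

theorem Aut_fix {F : Type} [Field F] [CharZero F] [Algebra F ℂ] {x : ℂ} (hx : IsAlgebraic F x)
    (h : ∀ σ : Aut, σ x = x) : ∃ q : F, x = algebraMap F ℂ q := by
  have h1 := (InfiniteGalois.mem_bot_iff_fixed (k := F)
    (⟨x, mem_algebraicClosure_iff.2 hx⟩ : algebraicClosure F ℂ)).2 fun φ => by
      obtain ⟨σ, hσ⟩ := Aut_alg φ.toRingEquiv
      exact Subtype.ext ((hσ _).symm.trans (h σ))
  obtain ⟨q, hq⟩ := IntermediateField.mem_bot.1 h1
  exact ⟨q, (congrArg Subtype.val hq).symm⟩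

theorem exists_aut_extend (K : IntermediateField ℚ ℂ) [Algebra.IsAlgebraic ℚ K] (f : K →+* ℂ) :
    ∃ σ : Aut, ∀ x : K, σ x = f x :=
  Aut_ext K (fun x hx => mem_algebraicClosure_iff.2
    ((Algebra.IsAlgebraic.isAlgebraic (R := ℚ) (⟨x, hx⟩ : K)).algHom
      (algebraMap K ℂ).toRatAlgHom)) f (RingHom.ext_rat _ _)

theorem fixed_rat {x : ℂ} (h : ∀ σ : Aut, σ x = x) : ∃ q : ℚ, x = q := by
  by_cases hx : IsAlgebraic ℚ x
  · exact Aut_fix hx h
  · obtain ⟨t, hxt, ht⟩ := exists_isTranscendenceBasis_superset (R := ℚ) (s := {x})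
      (algebraicIndependent_unique_type_iff.2 hx)
    let n : MvPolynomial t ℚ →ₐ[ℚ] MvPolynomial t ℚ :=
      MvPolynomial.aeval fun i => -MvPolynomial.X i
    have hn : n.comp n = AlgHom.id ℚ _ := by
      ext i : 1
      simp [n]
    obtain ⟨σ, hσ⟩ := Aut_basis ht (AlgEquiv.ofAlgHom n n hn hn).toRingEquiv
    have h1 : σ x = -x := by simpa [n] using hσ (MvPolynomial.X ⟨x, hxt rfl⟩)
    refine ⟨0, ?_⟩
    rw [h σ] at h1
    push_cast
    linear_combination h1 / 2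

theorem Aut_flip {y : ℕ → ℂ} (hy : ∀ (σ : Aut) i, σ (y i) = y i ∨ σ (y i) = -y i) (S : Finset ℕ) :
    ∀ z : ℂ, (∀ σ : Aut, σ z = z ∨ σ z = -z) → (∀ U ⊆ S, ∀ q : ℚ, z * ∏ i ∈ U, y i ≠ q) →
      ∃ σ : Aut, σ z = -z ∧ ∀ i ∈ S, σ (y i) = y i := by
  induction S using Finset.induction_on with
  | empty =>
    intro z hz h
    by_contra hc
    obtain ⟨q, hq⟩ := fixed_rat (x := z) fun σ =>
      (hz σ).resolve_right fun e => hc ⟨σ, e, by simp⟩
    exact h ∅ Subset.rfl q (by simpa using hq)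
  | insert j S hj ih =>
    intro z hz h
    obtain ⟨σ, h1, h2⟩ := ih z hz fun U hU => h U (hU.trans (subset_insert j S))
    rcases hy σ j with h3 | h3
    · exact ⟨σ, h1, forall_mem_insert .. |>.2 ⟨h3, h2⟩⟩
    obtain ⟨τ, h4, h5⟩ := ih (z * y j) (fun τ => by
      rw [map_mul]
      rcases hz τ with e | e <;> rcases hy τ j with e' | e' <;> rw [e, e'] <;> simp)
      (fun U hU q => by
        have := h (insert j U) (insert_subset_insert j hU) q
        rwa [prod_insert (fun hc => hj (hU hc)), ← mul_assoc] at this)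
    have h0 : z * y j ≠ 0 := by simpa using h {j} (by simp) 0
    rw [map_mul] at h4
    rcases hz τ with e | e <;> rcases hy τ j with e' | e' <;> rw [e, e'] at h4
    · exact absurd (by linear_combination h4 / 2) h0
    · refine ⟨σ * τ, ?_, forall_mem_insert .. |>.2 ⟨?_, fun i hi => ?_⟩⟩
      · rw [RingAut.mul_apply, e, h1]
      · rw [RingAut.mul_apply, e', map_neg, h3, neg_neg]
      · rw [RingAut.mul_apply, h5 i hi, h2 i hi]
    · exact ⟨τ, e, forall_mem_insert .. |>.2 ⟨e', h5⟩⟩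
    · exact absurd (by linear_combination h4 / 2) h0

theorem Aut_signs {y : ℕ → ℂ} (hy : ∀ (σ : Aut) i, σ (y i) = y i ∨ σ (y i) = -y i) (ε : ℕ → ℤ)
    (S : Finset ℕ) (hε : ∀ i ∈ S, ε i = 1 ∨ ε i = -1)
    (h : ∀ U ⊆ S, U.Nonempty → ∀ q : ℚ, ∏ i ∈ U, y i ≠ q) :
    ∃ σ : Aut, ∀ i ∈ S, σ (y i) = ε i * y i := by
  induction S using Finset.induction_on with
  | empty => exact ⟨1, by simp⟩
  | insert j S hj ih =>
    obtain ⟨σ, h1⟩ := ih (fun i hi => hε i (mem_insert_of_mem hi))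
      fun U hU => h U (hU.trans (subset_insert j S))
    obtain ⟨τ, h2, h3⟩ := Aut_flip hy S (y j) (fun σ => hy σ j) fun U hU q => by
      have := h (insert j U) (insert_subset_insert j hU) (insert_nonempty j U) q
      rwa [prod_insert (fun hc => hj (hU hc))] at this
    by_cases h4 : σ (y j) = ε j * y j
    · exact ⟨σ, forall_mem_insert .. |>.2 ⟨h4, h1⟩⟩
    · refine ⟨σ * τ, forall_mem_insert .. |>.2 ⟨?_, fun i hi => ?_⟩⟩
      · rw [RingAut.mul_apply, h2, map_neg]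
        rcases hy σ j with e | e <;> rcases hε j (mem_insert_self j S) with e' | e' <;>
          rw [e, e'] at h4 ⊢ <;> simp at h4 ⊢
      · rw [RingAut.mul_apply, h3 i hi, h1 i hi]

theorem Aut_prod_sq (U : Finset ℕ) (hU : ∀ p ∈ U, Odd p) :
    Odd (∏ p ∈ U, p) ∧ (∏ p ∈ U, rt p) ^ 2 = st (∏ p ∈ U, p) := by
  induction U using Finset.induction_on with
  | empty => simp [st]
  | insert j U hj ih =>
    obtain ⟨h1, h2⟩ := ih fun p hp => hU p (mem_insert_of_mem hp)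
    have h3 := hU j (mem_insert_self j U)
    rw [prod_insert hj, prod_insert hj, mul_pow, h2, rt_sq, st_mul h3 h1, Int.cast_mul]
    exact ⟨h3.mul h1, rfl⟩

theorem Aut_empty {U : Finset ℕ} (hU : ∀ p ∈ U, p.Prime) {q : ℚ}
    (h : q ^ 2 = st (∏ p ∈ U, p) ∨ q ^ 2 = -st (∏ p ∈ U, p)) : U = ∅ := by
  have h1 : q ^ 2 = ((∏ p ∈ U, p : ℕ) : ℚ) := by
    have h0 : (0 : ℚ) ≤ ((∏ p ∈ U, p : ℕ) : ℚ) := Nat.cast_nonneg _
    have h2 : ((st (∏ p ∈ U, p) : ℤ) : ℚ) ^ 2 = ((∏ p ∈ U, p : ℕ) : ℚ) ^ 2 := by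
      exact_mod_cast st_sq (∏ p ∈ U, p)
    refine (pow_left_inj₀ (sq_nonneg q) h0 two_ne_zero).1 ?_
    rcases h with h | h <;> rw [h, ← h2]
    ring
  obtain ⟨r, hr⟩ := Rat.isSquare_natCast_iff.1 ⟨q, by rw [← h1, sq]⟩
  have h3 : Squarefree (∏ p ∈ U, p) :=
    Finset.squarefree_prod_of_pairwise_isCoprime (fun a ha b hb hab =>
      Nat.coprime_iff_isRelPrime.1 ((Nat.coprime_primes (hU a ha) (hU b hb)).2 hab))
      fun p hp => (hU p hp).squarefree
  rw [Nat.isUnit_iff.1 (h3 r hr.symm.dvd), mul_one] at hr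
  exact eq_empty_of_forall_notMem fun p hp =>
    (hU p hp).one_lt.ne' (Nat.dvd_one.1 (hr ▸ dvd_prod_of_mem (fun p => p) hp))

theorem exists_aut_signs (T : Finset ℕ) (hT : ∀ p ∈ T, p.Prime ∧ p ≠ 2) (ε : ℕ → ℤ)
    (hε : ∀ p ∈ T, ε p = 1 ∨ ε p = -1) {δ : ℤ} (hδ : δ = 1 ∨ δ = -1) :
    ∃ σ : Aut, (∀ p ∈ T, σ (rt p) = ε p * rt p) ∧ σ I = δ * I := by
  have h2 : 2 ∉ T := fun h => (hT 2 h).2 rfl
  obtain ⟨σ, hσ⟩ := Aut_signs (y := fun p => if p = 2 then I else rt p) (fun σ i => by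
      split_ifs
      · exact sq_eq_sq_iff_eq_or_eq_neg.1 (by rw [← map_pow, I_sq, map_neg, map_one])
      · exact aut_rt σ i) (fun p => if p = 2 then δ else ε p) (insert 2 T)
    (forall_mem_insert .. |>.2 ⟨by simpa using hδ, fun p hp => by
      simpa [(hT p hp).2] using hε p hp⟩) fun U hU hne q hq => by
    have hV : ∀ p ∈ U.erase 2, p ∈ T := fun p hp =>
      (mem_insert.1 (hU (mem_of_mem_erase hp))).resolve_left (ne_of_mem_erase hp)
    have h3 := (Aut_prod_sq (U.erase 2) fun p hp =>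
      (hT p (hV p hp)).1.odd_of_ne_two (hT p (hV p hp)).2).2
    have h4 : ∏ p ∈ U.erase 2, (if p = 2 then I else rt p) = ∏ p ∈ U.erase 2, rt p :=
      prod_congr rfl fun p hp => if_neg (ne_of_mem_erase hp)
    by_cases h5 : 2 ∈ U
    · rw [← mul_prod_erase U _ h5, if_pos rfl, h4] at hq
      have h6 : (q : ℂ) ^ 2 = -st (∏ p ∈ U.erase 2, p) := by rw [← hq, mul_pow, h3, I_sq]; ring
      have h7 : q ^ 2 = -st (∏ p ∈ U.erase 2, p) := by exact_mod_cast h6
      rw [Aut_empty (fun p hp => (hT p (hV p hp)).1) (Or.inr h7)] at h7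
      simp [st] at h7
      nlinarith [sq_nonneg q]
    · rw [erase_eq_of_notMem h5] at hV h3 h4
      rw [h4] at hq
      rw [hq] at h3
      exact hne.ne_empty (Aut_empty (fun p hp => (hT p (hV p hp)).1)
        (Or.inl (by exact_mod_cast h3)))
  refine ⟨σ, fun p hp => ?_, by simpa using hσ 2 (mem_insert_self 2 T)⟩
  simpa [(hT p hp).2] using hσ p (mem_insert_of_mem hp)

theorem prod_rt (n : ℕ) [Good n] :
    ∃ ε : ℤ, (ε = 1 ∨ ε = -1) ∧ I * √n = ε * ∏ p ∈ n.primeFactors, rt p := by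
  have hn : Good n := inferInstance
  have h4 := hn.h4
  have h1 := (Aut_prod_sq n.primeFactors fun p hp =>
    Odd.of_dvd_nat (Nat.odd_iff.2 (by omega)) (Nat.dvd_of_mem_primeFactors hp)).2
  rw [Nat.prod_primeFactors_of_squarefree hn.sq, st, if_neg (by omega)] at h1
  have h2 : (I * √n) ^ 2 = (∏ p ∈ n.primeFactors, rt p) ^ 2 := by
    rw [h1, sqrt_neg_sq]; simp
  rcases sq_eq_sq_iff_eq_or_eq_neg.1 h2 with h | h
  · exact ⟨1, Or.inl rfl, by simpa using h⟩
  · exact ⟨-1, Or.inr rfl, by simpa using h⟩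

theorem aut_sqrt {n : ℕ} [Good n] {σ : Aut} {ε : ℕ → ℤ}
    (h : ∀ p ∈ n.primeFactors, σ (rt p) = ε p * rt p) :
    σ (I * √n) = (∏ p ∈ n.primeFactors, ε p : ℤ) * (I * √n) := by
  obtain ⟨e, -, he⟩ := prod_rt n
  rw [he, map_mul, map_intCast, map_prod, prod_congr rfl h, prod_mul_distrib]
  push_cast
  ring

end Pool.Agent.P.MP_8b7eba_nt.R1
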