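import Pool.Agent.P.MP_8b7eba_nt.R1.FormA

/-! Heegner forms and ideal classes. -/

namespace Pool.Agent.P.MP_8b7eba_nt.R1

open Complex Filter Topology MeasureTheory Metric Finset Asymptotics PowerSeries
open scoped Real UpperHalfPlane MatrixGroups ComplexConjugate
open _root_.Pool.Agent.P.MP_8b7eba_nt.Mod (M2 G0 FI L0 om lv xx yy qq UH atI ex mT)
open BSD15 (OO Good cls gch gJ nm cj rho lam Adm B3 B5 No4 Xp XJ Rn)
open MP_9c97e9_nt (Pt pm Is)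

theorem exists_coprime_cmp {Q : QF} {M : ℤ} (hM : M ≠ 0)
    (hQ : ∀ p : ℕ, p.Prime → (p : ℤ) ∣ M → ¬ ((p : ℤ) ∣ Q.A ∧ (p : ℤ) ∣ Q.B ∧ (p : ℤ) ∣ Q.C)) :
    ∃ g : M2, g.det = 1 ∧ IsCoprime (Q.cmp g).A M := by
  classical
  have hpr : ∀ {p : ℕ} {S : Finset ℕ}, p.Prime → (∀ q ∈ S, q.Prime) →
      ((p : ℤ) ∣ ∏ q ∈ S, (q : ℤ) ↔ p ∈ S) := fun {p S} hp hS => by
    refine ⟨fun h => ?_, fun h => Finset.dvd_prod_of_mem _ h⟩
    obtain ⟨q, hq, h⟩ := (Prime.dvd_finsetProd_iff (Nat.prime_iff_prime_int.1 hp) _).1 h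
    rwa [(Nat.prime_dvd_prime_iff_eq hp (hS q hq)).1 (Int.natCast_dvd_natCast.1 h)]
  set S := M.natAbs.primeFactors.filter fun q : ℕ => (q : ℤ) ∣ Q.A ∧ ¬ (q : ℤ) ∣ Q.C with hS
  set T := M.natAbs.primeFactors.filter fun q : ℕ => ¬ (q : ℤ) ∣ Q.A with hT
  have hS' : ∀ q ∈ S, q.Prime := fun q h => Nat.prime_of_mem_primeFactors (Finset.mem_filter.1 h).1
  have hT' : ∀ q ∈ T, q.Prime := fun q h => Nat.prime_of_mem_primeFactors (Finset.mem_filter.1 h).1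
  set x := ∏ q ∈ S, (q : ℤ) with hx
  set y := ∏ q ∈ T, (q : ℤ) with hy
  have hxy : IsCoprime x y := by
    refine Int.isCoprime_iff_gcd_eq_one.2 (Nat.coprime_of_dvd fun p hp h1 h2 => ?_)
    have h3 := (hpr hp hS').1 (Int.natCast_dvd.2 h1)
    have h4 := (hpr hp hT').1 (Int.natCast_dvd.2 h2)
    exact (Finset.mem_filter.1 h4).2 (Finset.mem_filter.1 h3).2.1
  obtain ⟨u, v, huv⟩ := hxy
  refine ⟨⟨x, -v, y, u⟩, by simp only [M2.det]; linear_combination huv, ?_⟩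
  refine Int.isCoprime_iff_gcd_eq_one.2 (Nat.coprime_of_dvd fun p hp h1 h2 => ?_)
  have h1' : (p : ℤ) ∣ Q.A * x ^ 2 + Q.B * x * y + Q.C * y ^ 2 := Int.natCast_dvd.2 h1
  have hp' := Nat.prime_iff_prime_int.1 hp
  have hm : p ∈ M.natAbs.primeFactors :=
    Nat.mem_primeFactors.2 ⟨hp, h2, Int.natAbs_ne_zero.2 hM⟩
  have ex : (p : ℤ) ∣ x ↔ (p : ℤ) ∣ Q.A ∧ ¬ (p : ℤ) ∣ Q.C := by
    rw [hpr hp hS', hS, Finset.mem_filter, and_iff_right hm]
  have ey : (p : ℤ) ∣ y ↔ ¬ (p : ℤ) ∣ Q.A := by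
    rw [hpr hp hT', hT, Finset.mem_filter, and_iff_right hm]
  by_cases hA : (p : ℤ) ∣ Q.A
  · have h3 : ¬ (p : ℤ) ∣ y := fun h => ey.1 h hA
    by_cases hC : (p : ℤ) ∣ Q.C
    · have h4 : (p : ℤ) ∣ Q.B * x * y := by
        have := dvd_sub (dvd_sub h1' (hA.mul_right (x ^ 2))) (hC.mul_right (y ^ 2))
        rwa [show Q.A * x ^ 2 + Q.B * x * y + Q.C * y ^ 2 - Q.A * x ^ 2 - Q.C * y ^ 2 =
          Q.B * x * y by ring] at this
      rcases hp'.dvd_or_dvd h4 with h5 | h5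
      · rcases hp'.dvd_or_dvd h5 with h6 | h6
        · exact hQ p hp (Int.natCast_dvd.2 h2) ⟨hA, h6, hC⟩
        · exact (ex.1 h6).2 hC
      · exact h3 h5
    · have h4 : (p : ℤ) ∣ Q.C * y ^ 2 := by
        have := dvd_sub h1' ((ex.2 ⟨hA, hC⟩).mul_right (Q.A * x + Q.B * y))
        rwa [show Q.A * x ^ 2 + Q.B * x * y + Q.C * y ^ 2 - x * (Q.A * x + Q.B * y) =
          Q.C * y ^ 2 by ring] at this
      rcases hp'.dvd_or_dvd h4 with h5 | h5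
      · exact hC h5
      · exact h3 (hp'.dvd_of_dvd_pow h5)
  · have h4 : (p : ℤ) ∣ Q.A * x ^ 2 := by
      have := dvd_sub h1' ((ey.2 hA).mul_right (Q.B * x + Q.C * y))
      rwa [show Q.A * x ^ 2 + Q.B * x * y + Q.C * y ^ 2 - y * (Q.B * x + Q.C * y) =
        Q.A * x ^ 2 by ring] at this
    rcases hp'.dvd_or_dvd h4 with h5 | h5
    · exact hA h5
    · exact hA (ex.1 (hp'.dvd_of_dvd_pow h5)).1

variable {n : ℕ} [Good n] {ρ : ℤ} {P Q : QF} {g : M2}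

theorem FormB_gen (H : AddSubgroup ℤ) : ∃ a : ℤ, 0 ≤ a ∧ ∀ r, r ∈ H ↔ a ∣ r := by
  obtain ⟨a, rfl⟩ := Int.subgroup_cyclic H
  refine ⟨|a|, abs_nonneg a, fun r => ?_⟩
  rw [AddSubgroup.mem_closure_singleton, abs_dvd]
  exact ⟨fun ⟨k, hk⟩ => ⟨k, by rw [← hk, smul_eq_mul, mul_comm]⟩,
    fun ⟨k, hk⟩ => ⟨k, by rw [hk, smul_eq_mul, mul_comm]⟩⟩

theorem FormB_struct {I : Ideal (OO n)} (hI : I ≠ ⊥) : ∃ (k : ℤ) (Q : QF), k ≠ 0 ∧ Q.disc = -n ∧
    0 < Q.A ∧ I = Ideal.span {(k : OO n)} * Q.idl n := by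
  obtain ⟨m, hm0, hm⟩ := FormB_gen (I.toAddSubgroup.comap (Int.castAddHom (OO n)))
  obtain ⟨k, hk0, hk⟩ := FormB_gen (I.toAddSubgroup.map
    (AddMonoidHom.mk' (fun z : OO n => z.im) fun z w => QuadraticAlgebra.im_add z w))
  replace hm : ∀ r : ℤ, (r : OO n) ∈ I ↔ m ∣ r := hm
  replace hk : ∀ r : ℤ, (∃ z ∈ I, z.im = r) ↔ k ∣ r := hk
  obtain ⟨z, hz, hz0⟩ := Submodule.exists_mem_ne_zero_of_ne_bot hI
  have hm1 : m ≠ 0 := by
    rintro rfl
    have := (hm z.norm).1 (BSD15.qbasic_mul_star z ▸ I.mul_mem_right _ hz)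
    exact hz0 (BSD15.norm_eq_zero'.1 (zero_dvd_iff.1 this))
  obtain ⟨w, hw, hwk⟩ := (hk k).2 dvd_rfl
  obtain ⟨A, hA⟩ := (hk m).1 ⟨_, I.mul_mem_right ⟨0, 1⟩ ((hm m).2 dvd_rfl), by simp⟩
  obtain ⟨b, hb⟩ := (hk (w.re + k)).1 ⟨_, I.mul_mem_right ⟨0, 1⟩ hw, by simp [hwk]⟩
  have hk1 : k ≠ 0 := by
    rintro rfl
    exact hm1 (by rw [hA, zero_mul])
  have hA0 : 0 < A := by
    have h1 : 0 < m := lt_of_le_of_ne hm0 hm1.symm
    have h2 : 0 < k := lt_of_le_of_ne hk0 hk1.symm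
    rw [hA] at h1
    exact (mul_pos_iff_of_pos_left h2).1 h1
  set β : OO n := ⟨b - 1, 1⟩ with hβ
  have hwβ : w = k * β := by
    ext
    · simp [hβ]; linear_combination hb
    · simp [hβ, hwk]
  obtain ⟨C, hC⟩ := (hm (k * β.norm)).1 (by
    have := I.mul_mem_right (star β) hw
    rwa [hwβ, mul_assoc, BSD15.qbasic_mul_star, ← Int.cast_mul] at this)
  have hC' : β.norm = A * C := mul_left_cancel₀ hk1 (by rw [hC, hA, mul_assoc])
  have hD : QF.disc ⟨A, 1 - 2 * b, C⟩ = -n := by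
    have := BSD15.four_mul_norm β
    rw [hC'] at this
    simp only [hβ] at this
    simp only [QF.disc]
    linear_combination -this
  have hb' : QF.bet n ⟨A, 1 - 2 * b, C⟩ = β := by
    ext
    · simp only [QF.bet, hβ]; omega
    · rfl
  refine ⟨k, ⟨A, 1 - 2 * b, C⟩, hk1, hD, hA0, ?_⟩
  ext x
  rw [Ideal.mem_span_singleton_mul]
  constructor
  · intro hx
    obtain ⟨t, ht⟩ := (hk x.im).1 ⟨x, hx, rfl⟩
    have e : x - t * w = ((x.re - t * w.re : ℤ) : OO n) := by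
      ext
      · simp
      · simp [ht, hwk, mul_comm]
    obtain ⟨s, hs⟩ := (hm _).1 (e ▸ I.sub_mem hx (I.mul_mem_left _ hw))
    refine ⟨_, (mem_idl hD).2 ⟨s, t, rfl⟩, ?_⟩
    rw [hs, hA, hwβ] at e
    rw [hb']
    push_cast at e
    linear_combination -e
  · rintro ⟨y, hy, rfl⟩
    obtain ⟨s, t, rfl⟩ := (mem_idl hD).1 hy
    rw [hb', show (k : OO n) * (s * (A : ℤ) + t * β) = s * ((k * A : ℤ) : OO n) + t * (k * β) by
      push_cast; ring, ← hA, ← hwβ]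
    exact I.add_mem (I.mul_mem_left _ ((hm m).2 dvd_rfl)) (I.mul_mem_left _ hw)

theorem exists_form (c : ClassGroup (OO n)) {M : ℤ} (hM : M ≠ 0) :
    ∃ Q : QF, Q.disc = -n ∧ 0 < Q.A ∧ cls (Q.idl n) = c ∧ IsCoprime Q.A M := by
  obtain ⟨I, hI, hc, -⟩ := BSD15.exists_cls_coprime c one_ne_zero
  obtain ⟨k, Q, hk, hD, hA, e⟩ := FormB_struct hI
  have hk' : (Ideal.span {(k : OO n)} : Ideal (OO n)) ≠ ⊥ := by
    rw [Ne, Ideal.span_singleton_eq_bot]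
    intro h
    have := congrArg QuadraticAlgebra.re h
    simp at this
    exact hk this
  have h1 : cls (Q.idl n) = c := by
    rw [← hc, e, BSD15.cls_mul hk' (idl_ne_bot Q), (BSD15.cls_eq_one_iff hk').2 ⟨_, rfl⟩, one_mul]
  have hn := (inferInstance : Good n).gt
  obtain ⟨g, hg, h2⟩ := exists_coprime_cmp (Q := Q) hM fun p hp _ ⟨⟨a, ha⟩, ⟨b, hb⟩, ⟨c, hc⟩⟩ => by
    have h3 : (p * p : ℤ) ∣ n := ⟨4 * a * c - b ^ 2, by
      simp only [QF.disc, ha, hb, hc] at hD; linear_combination hD⟩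
    have h4 := (inferInstance : Good n).sq p (by exact_mod_cast h3)
    exact hp.one_lt.ne' (Nat.isUnit_iff.1 h4)
  refine ⟨Q.cmp g, by rw [QF.disc_cmp, hg, hD]; ring,
    QF.cmp_A_pos hA (by rw [hD]; omega) (by rw [hg]; exact one_ne_zero), ?_, h2⟩
  rw [cls_cmp hD hg, h1]

theorem FormB_lin {τ : ℂ} (hτ : 0 < τ.im) {u v u' v' : ℤ} (h : u + v * τ = u' + v' * τ) :
    u = u' ∧ v = v' := by
  have h1 := congrArg im h
  simp [hτ.ne'] at h1
  rw [h1, add_left_inj] at h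
  exact ⟨by exact_mod_cast h, h1⟩

theorem FormB_eq_of_tau (hP : 0 < P.A) (hQ : 0 < Q.A) (hD : P.disc = Q.disc) (hd : Q.disc < 0)
    (h : P.tau = Q.tau) : P = Q := by
  have h1 := congrArg im h
  have h2 := congrArg re h
  have hP' : (0 : ℝ) < P.A := by exact_mod_cast hP
  have hQ' : (0 : ℝ) < Q.A := by exact_mod_cast hQ
  have h3 : (0 : ℝ) < √(-Q.disc) := Real.sqrt_pos.2 (by exact_mod_cast neg_pos.2 hd)
  simp only [QF.tau, hD] at h1 h2
  have hA : P.A = Q.A := by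
    field_simp at h1
    exact_mod_cast h1.symm
  rw [hA] at h2
  have hB : P.B = Q.B := by
    field_simp at h2
    exact_mod_cast neg_injective h2
  refine QF.ext hA hB (mul_left_cancel₀ (mul_ne_zero four_ne_zero hQ.ne') ?_)
  simp only [QF.disc, hA, hB] at hD
  linear_combination -hD

theorem FormB_rel (hP : P.disc = -n) (hP' : 0 < P.A) (hQ : Q.disc = -n) (hQ' : 0 < Q.A)
    {x y : OO n} (h : Ideal.span {y} * Q.idl n ≤ Ideal.span {x} * P.idl n) :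
    ∃ g : M2, emb n y * Q.A = emb n x * P.A * (g.c * P.tau + g.d) ∧
      emb n y * Q.A * Q.tau = emb n x * P.A * (g.a * P.tau + g.b) := by
  have key : ∀ s t : ℤ, ∃ u v : ℤ,
      emb n y * Q.A * (s + t * Q.tau) = emb n x * P.A * (v * P.tau + u) := fun s t => by
    obtain ⟨z, hz, e⟩ := Ideal.mem_span_singleton_mul.1
      (h (Ideal.mem_span_singleton_mul.2 ⟨_, (mem_idl hQ).2 ⟨s, t, rfl⟩, rfl⟩))
    obtain ⟨u, v, rfl⟩ := (mem_idl hP).1 hz
    have e' := congrArg (embH n) e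
    simp only [map_mul, map_add, map_intCast, embH_apply, emb_bet hP hP', emb_bet hQ hQ'] at e'
    exact ⟨u, v, by linear_combination -e'⟩
  obtain ⟨d, c, h1⟩ := key 1 0
  obtain ⟨b, a, h2⟩ := key 0 1
  exact ⟨⟨a, b, c, d⟩, by simpa using h1, by simpa using h2⟩

theorem exists_SL (hP : P.disc = -n) (hP' : 0 < P.A) (hQ : Q.disc = -n) (hQ' : 0 < Q.A)
    (h : cls (P.idl n) = cls (Q.idl n)) : ∃ g : M2, g.det = 1 ∧ P.cmp g = Q := by
  have hn := (inferInstance : Good n).gt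
  have hPd : P.disc < 0 := by rw [hP]; omega
  have hQd : Q.disc < 0 := by rw [hQ]; omega
  rw [BSD15.qbasic_cls (idl_ne_bot P), BSD15.qbasic_cls (idl_ne_bot Q),
    ClassGroup.mk0_eq_mk0_iff] at h
  obtain ⟨x, y, hx, hy, e⟩ := h
  obtain ⟨g', h1, h2⟩ := FormB_rel hP hP' hQ hQ' e.ge
  obtain ⟨g, h3, h4⟩ := FormB_rel hQ hQ' hP hP' e.le
  have hX : emb n x * P.A ≠ 0 := mul_ne_zero
    (fun h0 => hx (emb_injective n (by rw [h0]; simp [emb]))) (by exact_mod_cast hP'.ne')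
  have hY : emb n y * Q.A ≠ 0 := mul_ne_zero
    (fun h0 => hy (emb_injective n (by rw [h0]; simp [emb]))) (by exact_mod_cast hQ'.ne')
  have hτ := QF.tau_im_pos hP' hPd
  have hσ := QF.tau_im_pos hQ' hQd
  obtain ⟨e1, e2⟩ := FormB_lin hτ (u := (g * g').d) (v := (g * g').c) (u' := 1) (v' := 0)
    (mul_left_cancel₀ hX (by
      simp only [M2.mul_c, M2.mul_d]; push_cast
      linear_combination -h3 - g.d * h1 - g.c * h2))
  obtain ⟨e3, e4⟩ := FormB_lin hτ (u := (g * g').b) (v := (g * g').a) (u' := 0) (v' := 1)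
    (mul_left_cancel₀ hX (by
      simp only [M2.mul_a, M2.mul_b]; push_cast
      linear_combination -h4 - g.b * h1 - g.a * h2))
  have e5 : g.det * g'.det = 1 := by rw [← M2.det_mul, M2.det, e1, e2, e3, e4]; norm_num
  have hg0 : g.det ≠ 0 := left_ne_zero_of_mul_eq_one e5
  have e6 : g.act Q.tau = P.tau := by
    rw [M2.act_eq, div_eq_iff (M2.j_ne hg0 hσ), M2.j]
    refine mul_left_cancel₀ hY ?_
    linear_combination -h4 + P.tau * h3
  have hg : g.det = 1 := by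
    rcases Int.eq_one_or_neg_one_of_mul_eq_one e5 with h5 | h5
    · exact h5
    · have h6 := M2.im_act g Q.tau
      rw [e6, h5] at h6
      have h7 : 0 ≤ Q.tau.im / normSq (g.j Q.tau) := div_nonneg hσ.le (normSq_nonneg _)
      have h8 : ((-1 : ℤ) : ℝ) * Q.tau.im / normSq (g.j Q.tau) =
        -(Q.tau.im / normSq (g.j Q.tau)) := by push_cast; ring
      linarith
  have hg' : 0 < g.det := by rw [hg]; exact one_pos
  have hD' : (P.cmp g).disc = Q.disc := by rw [QF.disc_cmp, hg, hP, hQ]; ring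
  have hA' := QF.cmp_A_pos hP' hPd hg0
  refine ⟨g, hg, FormB_eq_of_tau hA' hQ' hD' hQd ?_⟩
  have e7 := congrArg g.adj.act ((QF.act_tau hP' hPd hg').trans e6.symm)
  have ha : g.adj.det ≠ 0 := by rwa [M2.det_adj]
  rwa [← M2.act_mul ha hg' hσ, ← M2.act_mul ha hg' (QF.tau_im_pos hA' (hD' ▸ hQd)),
    M2.adj_mul_self hg, M2.act_one, M2.act_one] at e7

theorem exists_G0 (hd : HD n ρ) (hP : Hg n ρ P) (hQ : Hg n ρ Q)
    (h : cls (P.idl n) = cls (Q.idl n)) : ∃ g, G0 g ∧ P.cmp g = Q := by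
  obtain ⟨g, hg, e⟩ := exists_SL hP.1.1 hP.2 hQ.1.1 hQ.2 h
  refine ⟨g, ⟨hg, ?_⟩, e⟩
  obtain ⟨⟨h1, ⟨a, h2⟩, ⟨b, h3⟩⟩, -⟩ := hP
  obtain ⟨⟨-, ⟨a', h4⟩, ⟨b', h5⟩⟩, -⟩ := hQ
  obtain ⟨u, v, huv⟩ : IsCoprime (n : ℤ) 15 := Nat.isCoprime_iff_coprime.2 hd.cop
  have hc : IsCoprime (15 : ℤ) P.B := ⟨4 * u * a * P.C + v, -u * P.B, by
    simp only [QF.disc, h2] at h1; linear_combination huv - u * h1⟩
  refine hc.dvd_of_dvd_mul_right ⟨g.d * (a' - a * g.a ^ 2) - g.c * (b' - b - a * g.a * g.b), ?_⟩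
  rw [← e] at h4 h5
  simp only [QF.cmp, QF.ev, M2.det, h2] at h4 h5 hg
  refine mul_left_cancel₀ two_ne_zero ?_
  linear_combination 2 * g.d * h4 - g.c * h5 + g.c * h3 - g.c * P.B * hg

theorem stab (hD : Q.disc = -n) (hg : g.det = 1) (h : Q.cmp g = Q) : g = 1 ∨ g = -1 := by
  have hn := (inferInstance : Good n).gt
  have h4 := (inferInstance : Good n).h4
  have h1 := congrArg QF.A h
  have h2 := congrArg QF.B h
  have h3 := congrArg QF.C h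
  simp only [QF.cmp, QF.ev, M2.det, QF.disc] at h1 h2 h3 hg hD
  have hA : Q.A ≠ 0 := fun h0 => by
    rw [h0] at hD
    nlinarith [sq_nonneg Q.B]
  have e1 : Q.A * (g.d - g.a) = Q.B * g.c := by
    refine mul_left_cancel₀ two_ne_zero ?_
    linear_combination -2 * g.d * h1 + g.c * h2 + (2 * Q.A * g.a + Q.B * g.c) * hg
  have e2 : Q.A * g.b = -Q.C * g.c := by
    refine mul_left_cancel₀ two_ne_zero ?_
    linear_combination g.d * h2 - 2 * g.c * h3 - (2 * Q.A * g.b + Q.B * g.d) * hg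
  have e3 : n * g.c ^ 2 = Q.A ^ 2 * (4 - (g.a + g.d) ^ 2) := by
    linear_combination g.c ^ 2 * hD + (Q.A * (g.d - g.a) + Q.B * g.c) * e1 +
      4 * Q.A * g.c * e2 + 4 * Q.A ^ 2 * hg
  have hA' : (Q.A : ℚ) ≠ 0 := by exact_mod_cast hA
  obtain ⟨w, hw⟩ := BSD15.qring_int (inferInstance : Good n).sq (y := g.c / Q.A)
    (m := 4 - (g.a + g.d) ^ 2) (by
      have : (n : ℚ) * g.c ^ 2 = Q.A ^ 2 * ((4 - (g.a + g.d) ^ 2 : ℤ) : ℚ) := by exact_mod_cast e3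
      field_simp
      linear_combination this)
  have hw' : g.c = w * Q.A := by exact_mod_cast (div_eq_iff hA').1 hw
  have e4 : n * w ^ 2 = 4 - (g.a + g.d) ^ 2 :=
    mul_left_cancel₀ (pow_ne_zero 2 hA) (by rw [← e3, hw']; ring)
  have hw0 : w = 0 := by
    by_contra h0
    have h5 : 0 < w ^ 2 := sq_pos_of_ne_zero h0
    have h7 : (7 : ℤ) ≤ n := by omega
    nlinarith [sq_nonneg (g.a + g.d)]
  have hc : g.c = 0 := by rw [hw', hw0, zero_mul]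
  have hb : g.b = 0 := (mul_eq_zero.1 (by rw [e2, hc, mul_zero])).resolve_left hA
  rw [hc, mul_zero, sub_zero] at hg
  rcases Int.eq_one_or_neg_one_of_mul_eq_one' hg with ⟨ha, hd⟩ | ⟨ha, hd⟩
  · left; ext <;> simp [*]
  · right; ext <;> simp [*]

theorem hq_spec (hd : HD n ρ) (c : ClassGroup (OO n)) :
    Hg n ρ (hq n ρ c) ∧ cls ((hq n ρ c).idl n) = c ∧ IsCoprime ((hq n ρ c).A / 15) (15 * n) := by
  refine Classical.epsilon_spec
    (p := fun Q => Hg n ρ Q ∧ cls (Q.idl n) = c ∧ IsCoprime (Q.A / 15) (15 * n)) ?_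
  have hn := (inferInstance : Good n).gt
  have h4 := (inferInstance : Good n).h4
  obtain ⟨r, hr⟩ := hd.rt
  obtain ⟨⟨m, B, C⟩, hD, hm, hc, hcop⟩ := exists_form (c * (cls (QF.idl n ⟨15, ρ, r⟩))⁻¹)
    (M := 15 * n) (by omega)
  obtain ⟨u, v, huv⟩ := hcop.of_mul_right_left
  simp only [QF.disc] at hD hm hcop huv
  have odd : ∀ x y : ℤ, x ^ 2 + n = 4 * y → x % 2 = 1 := fun x y h => by
    by_contra h0
    obtain ⟨k, rfl⟩ : 2 ∣ x := by omega
    have : (2 * k) ^ 2 = 4 * k ^ 2 := by ring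
    omega
  have h1 := odd ρ (15 * r) (by linear_combination hr)
  have h2 := odd B (m * C) (by linear_combination hD)
  obtain ⟨e, he⟩ : 2 ∣ ρ - B := by omega
  set B' := B + 2 * m * (u * e) with hB'
  have h3 : B' - ρ = 30 * (-(v * e)) := by linear_combination hB' - he + 2 * e * huv
  set C1 := C + u * e * B + m * (u * e) ^ 2 with hC1
  set C2 := r + ρ * -(v * e) + 15 * (v * e) ^ 2 with hC2
  have h5 : B' ^ 2 + n = 4 * m * C1 := by rw [hB', hC1]; linear_combination hD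
  have h6 : B' ^ 2 + n = 60 * C2 := by
    rw [hC2]; linear_combination hr + (B' + ρ - 30 * (v * e)) * h3
  have h7 : QF.disc ⟨15 * m, B', u * C2 + v * C1⟩ = -n := by
    simp only [QF.disc]
    linear_combination u * m * h6 + v * 15 * h5 - (B' ^ 2 + n) * huv
  refine ⟨⟨15 * m, B', u * C2 + v * C1⟩, ⟨⟨h7, dvd_mul_right _ _, ⟨_, h3⟩⟩, by
    dsimp only; omega⟩, ?_, ?_⟩
  · rw [idl_mul h7, BSD15.cls_mul (idl_ne_bot _) (idl_ne_bot _),
      idl_congr (B' := ρ) (C' := r) ⟨_, h3⟩,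
      idl_congr (A := m) (B' := B) (C' := C) ⟨u * e, by rw [hB']; ring⟩, hc, mul_comm,
      inv_mul_cancel_right]
  · dsimp only
    rwa [Int.mul_ediv_cancel_left _ (by norm_num)]

theorem ht_im (hd : HD n ρ) (c : ClassGroup (OO n)) : 0 < (ht n ρ c).im :=
  (hq_spec hd c).1.im_pos

theorem exists_ht (hd : HD n ρ) (hP : Hg n ρ P) :
    ∃ g, G0 g ∧ P.cmp g = hq n ρ (cls (P.idl n)) ∧ g.act (ht n ρ (cls (P.idl n))) = P.tau := by
  obtain ⟨h1, h2, -⟩ := hq_spec hd (cls (P.idl n))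
  obtain ⟨g, hg, e⟩ := exists_G0 hd hP h1 h2.symm
  exact ⟨g, hg, e, by rw [ht, ← e]; exact QF.act_tau hP.2 hP.disc_neg hg.det_pos⟩

end Pool.Agent.P.MP_8b7eba_nt.R1
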