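import Pool.Agent.P.MP_8b7eba_nt.BSD15.Sharp
import Pool.Agent.P.MP_8b7eba_nt.ModFin
import Pool.Agent.P.MP_9c97e9_nt.Grp

/-! Shared definitions for the project R1 (twists of X_0(15) of positive rank). -/

namespace Pool.Agent.P.MP_8b7eba_nt.R1

open Complex MeasureTheory Set Finset
open scoped Real UpperHalfPlane
open _root_.Pool.Agent.P.MP_8b7eba_nt.Mod (M2 G0 FI L0 om lv xx yy qq)
open BSD15 (OO Good cls gch gJ)
open MP_9c97e9_nt (Pt pm Is)

/-! ### Binary quadratic forms -/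

/-- the form `A x² + B x y + C y²` -/
@[ext] structure QF where
  A : ℤ
  B : ℤ
  C : ℤ
deriving DecidableEq

instance : Inhabited QF := ⟨⟨0, 0, 0⟩⟩

instance : Countable QF :=
  Function.Injective.countable (f := fun Q : QF => (Q.A, Q.B, Q.C)) fun P Q h => by
    simp only [Prod.mk.injEq] at h
    exact QF.ext h.1 h.2.1 h.2.2

namespace QF

def disc (Q : QF) : ℤ := Q.B ^ 2 - 4 * Q.A * Q.C

def ev (Q : QF) (x y : ℤ) : ℤ := Q.A * x ^ 2 + Q.B * x * y + Q.C * y ^ 2

/-- the form `Q (a x + b y, c x + d y)` -/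
def cmp (Q : QF) (g : M2) : QF :=
  ⟨Q.ev g.a g.c, 2 * Q.A * g.a * g.b + Q.B * (g.a * g.d + g.b * g.c) + 2 * Q.C * g.c * g.d,
    Q.ev g.b g.d⟩

def pair (P Q : QF) : ℤ := P.B * Q.B - 2 * P.A * Q.C - 2 * Q.A * P.C

/-- the root in the upper half plane of a positive definite form -/
noncomputable def tau (Q : QF) : ℂ := ⟨-Q.B / (2 * Q.A), √(-Q.disc) / (2 * Q.A)⟩

/-- the hyperbolic sine of the signed distance to the geodesic of an indefinite form -/
noncomputable def tt (Q : QF) (z : ℂ) : ℝ :=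
  (Q.A * normSq z + Q.B * z.re + Q.C) / (z.im * √Q.disc)

/-- `(-B + √-n) / 2` -/
def bet (n : ℕ) (Q : QF) : OO n := ⟨-((Q.B + 1) / 2), 1⟩

/-- the ideal `(A, (-B + √-n) / 2)` -/
def idl (n : ℕ) (Q : QF) : Ideal (OO n) := Ideal.span {(Q.A : OO n), Q.bet n}

/-- the genus character at an odd prime `p` dividing the discriminant -/
def chip (p : ℕ) (Q : QF) : ℤ := if (p : ℤ) ∣ Q.A then jacobiSym Q.C p else jacobiSym Q.A p

end QF

/-- the embedding of `OO n` in the complex numbers -/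
noncomputable def emb (n : ℕ) (z : OO n) : ℂ := z.re + z.im * ((1 + I * √n) / 2)

/-- forms of level 15 with discriminant `D` and residue `ρ` -/
def Lv (D ρ : ℤ) (Q : QF) : Prop := Q.disc = D ∧ 15 ∣ Q.A ∧ 30 ∣ Q.B - ρ

instance (D ρ : ℤ) : DecidablePred (Lv D ρ) := fun Q => by unfold Lv; infer_instance

/-- Heegner forms -/
def Hg (n : ℕ) (ρ : ℤ) (Q : QF) : Prop := Lv (-n) ρ Q ∧ 0 < Q.A

instance (n : ℕ) (ρ : ℤ) : DecidablePred (Hg n ρ) := fun Q => by unfold Hg; infer_instance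

/-- admissible Heegner data -/
structure HD (n : ℕ) (ρ : ℤ) : Prop where
  cop : n.Coprime 15
  rt : 60 ∣ ρ ^ 2 + n

/-- a Heegner form in each ideal class -/
noncomputable def hq (n : ℕ) [Good n] (ρ : ℤ) (c : ClassGroup (OO n)) : QF :=
  Classical.epsilon fun Q => Hg n ρ Q ∧ cls (Q.idl n) = c ∧ IsCoprime (Q.A / 15) (15 * n)

/-- the Heegner points in the upper half plane -/
noncomputable def ht (n : ℕ) [Good n] (ρ : ℤ) (c : ClassGroup (OO n)) : ℂ := (hq n ρ c).tau

/-- the discriminant with absolute value `a` -/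
def st (a : ℕ) : ℤ := if a % 4 = 1 then a else -a

/-- the weights given by genus characters -/
def wf (D ρ : ℤ) (b : ℕ) (Q : QF) : ℤ := if Lv D ρ Q then ∏ p ∈ b.primeFactors, Q.chip p else 0

/-- the weights of the cycle from `0` to `1/2` -/
def w4 (Q : QF) : ℤ := if Lv 4 2 Q then (if 2 ∣ Q.A ∧ 2 ∣ Q.C then -1 else 1) else 0

/-- the weights obtained by applying `T₂ - 3` -/
def w2 (b : ℕ) (ρ : ℤ) (Q : QF) : ℤ :=
  if Lv (4 * b) (2 * ρ) Q then 1 + (if 2 ∣ Q.A ∧ 2 ∣ Q.C then jacobiSym 2 b - 3 else 0) else 0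

/-- weighted number of pairs of forms with given mixed discriminant -/
noncomputable def NN (n : ℕ) [Good n] (ρ : ℤ) (J : Finset ℕ) (w : QF → ℤ) (B : ℤ) : ℤ :=
  ∑ c : ClassGroup (OO n), gJ J c * ∑ᶠ Q : QF, if (hq n ρ c).pair Q = B then w Q else 0

/-- the closed form of the number of pairs -/
def cnt (n : ℕ) (B : ℤ) (M : ℕ) : ℤ :=
  BSD15.Rn n M * ∏ p ∈ (Int.gcd B n).primeFactors, (1 + BSD15.Xp n p (15 * M))

/-! ### Green functions of geodesic cycles -/

noncomputable def sn (t : ℝ) : ℝ := SignType.sign t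

noncomputable def GG (s t : ℝ) : ℝ := ∫ v in Ioi (0 : ℝ), v ^ (s - 1) * ((t + v) ^ 2 + 1) ^ (-s)

noncomputable def gg (s t : ℝ) : ℝ := sn t * GG s |t|

noncomputable def ee (s t : ℝ) : ℝ := GG s t + GG s (-t)

noncomputable def VV (w : QF → ℤ) (s : ℝ) (z : ℂ) : ℝ := ∑' Q : QF, w Q * gg s (Q.tt z)

/-- admissible weights -/
structure Wt (D : ℤ) (w : QF → ℤ) : Prop where
  pos : 0 < D
  disc : ∀ Q, w Q ≠ 0 → Q.disc = D
  le : ∀ Q, |w Q| ≤ 1
  inv : ∀ Q g, G0 g → w (Q.cmp g) = w Q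
  ne : ∀ Q, w Q ≠ 0 → Q.ev 1 3 ≠ 0

/-- the signed number of geodesics between `z` and the cusp `1/3` -/
noncomputable def St (w : QF → ℤ) (z : ℂ) : ℝ :=
  ∑ᶠ Q : QF, w Q * ((sn (Q.tt z) - sn (Q.ev 1 3)) / 2)

/-- the signed number of geodesics between the cusps `g (1/3)` and `1/3` -/
noncomputable def jj (w : QF → ℤ) (g : M2) : ℝ :=
  ∑ᶠ Q : QF, w Q * ((sn (Q.ev (g.a + 3 * g.b) (g.c + 3 * g.d)) - sn (Q.ev 1 3)) / 2)

noncomputable def lf (α β : ℚ) (z : ℂ) : ℝ := α * z.re / (4 * L0) + β * z.im / (2 * om)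

/-- the linear form `lf α β` is dual to the cycle `w` -/
def Dual (w : QF → ℤ) (α β : ℚ) : Prop := ∀ g, G0 g → jj w g = lf α β (lv g.a g.c)

/-- at each cusp the weights of the geodesics ending there have bounded partial sums -/
def VB (D : ℤ) (w : QF → ℤ) : Prop :=
  ∃ M : ℤ, ∀ g : M2, g.det = 1 → ∀ k : ℤ, 0 < k → k ^ 2 = D → ∀ a b : ℤ,
    |∑ C ∈ Finset.Ico a b, (w (QF.cmp ⟨0, k, C⟩ g) - w (QF.cmp ⟨0, -k, -C⟩ g))| ≤ M

noncomputable def V1 (w : QF → ℤ) (α β : ℚ) (z : ℂ) : ℝ := π * (St w z - lf α β (FI z))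

/-- the average over a hyperbolic disc -/
noncomputable def av (r : ℝ) (f : ℍ → ℝ) (z : ℍ) : ℝ := ⨍ w in Metric.ball z r, f w

noncomputable def kk (r s : ℝ) : ℝ := av r (fun w => w.im ^ s) UpperHalfPlane.I

/-- rational real numbers -/
def Rq (x : ℝ) : Prop := ∃ q : ℚ, x = q

open Classical in
/-- the Heegner point of discriminant `-a b` twisted by the genus character of `a` -/
noncomputable def YY (a b : ℕ) (ρ : ℤ) : ℂ :=
  if h : Good (a * b) then
    haveI := h
    ∑ c : ClassGroup (OO (a * b)), gJ a.primeFactors c * FI (ht (a * b) ρ c)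
  else 0

/-- the interesting coordinate -/
noncomputable def tY (a b : ℕ) (ρ : ℤ) : ℝ :=
  if a % 4 = 3 then (YY a b ρ).im / (2 * om) else (YY a b ρ).re / (4 * L0)

/-- the other coordinate -/
noncomputable def oY (a b : ℕ) (ρ : ℤ) : ℝ :=
  if a % 4 = 3 then (YY a b ρ).re / (4 * L0) else (YY a b ρ).im / (2 * om)

/-- admissible factorisations -/
structure HF (a b : ℕ) (ρ : ℤ) : Prop where
  good : Good (a * b)
  hd : HD (a * b) ρ
  sign : jacobiSym (-15) a = -1

/-! ### Expansions at infinity -/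

/-- the algebraic integers -/
abbrev Zb : Type := integralClosure ℤ ℂ

/-- `a` lies in the ideal `P` of algebraic integers -/
def InP (P : Ideal Zb) (a : ℂ) : Prop := ∃ z ∈ P, (z : ℂ) = a

/-- `G` has the expansion `q ^ (-N / w) A (q ^ (1 / w))` -/
def QE (w N : ℕ) (A : PowerSeries Zb) (G : ℂ → ℂ) : Prop :=
  ∀ z : ℂ, 0 < z.im →
    HasSum (fun k : ℕ => ((PowerSeries.coeff k A : Zb) : ℂ) * qq (z / w) ^ k) (G z * qq (z / w) ^ N)

/-- integral series as series over the algebraic integers -/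
noncomputable abbrev zs (A : PowerSeries ℤ) : PowerSeries Zb := PowerSeries.map (Int.castRingHom Zb) A

/-- holomorphic and bounded at the cusps other than infinity -/
structure HB (G : ℂ → ℂ) : Prop where
  hol : DifferentiableOn ℂ G Mod.UH
  bd : ∀ g : M2, g.det = 1 → ¬ (15 : ℤ) ∣ g.c → Filter.BoundedAtFilter Mod.atI fun z => G (g.act z)

/-- the second coordinate of an integral model -/
noncomputable def y1 (z : ℂ) : ℂ := -(yy z + xx z) / 2

/-- a function on the quadratic Shimura covering -/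
noncomputable def v1 (z : ℂ) : ℂ :=
  ModularForm.eta z * ModularForm.eta (3 * z) ^ 2 * ModularForm.eta (5 * z) /
    ModularForm.eta (15 * z) ^ 4

/-- a function vanishing to high order at the cusps other than infinity -/
noncomputable def U8 (z : ℂ) : ℂ := (v1 z ^ 2 * xx z) ^ 8

noncomputable def Dl (z : ℂ) : ℂ := ModularForm.eta z ^ 24

/-- the discriminant quotient of an isogeny of degree `p` -/
noncomputable def psi (p : ℕ) (M : M2) (z : ℂ) : ℂ := p ^ 12 * Dl (M.act z) / (M.j z ^ 12 * Dl z)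

/-- the root of unity `e(b / d)` -/
noncomputable def ze (d : ℕ) (b : ℤ) : Zb :=
  ⟨qq (b / d), by
    rcases Nat.eq_zero_or_pos d with rfl | hd
    · simp [qq, isIntegral_one]
    · refine IsIntegral.of_pow hd ?_
      have h : (d : ℂ) ≠ 0 := by exact_mod_cast hd.ne'
      rw [← Mod.qq_nat_mul, mul_div_cancel₀ _ h, qq, mul_comm, exp_int_mul_two_pi_mul_I]
      exact isIntegral_one⟩

/-- functions with integral expansions on the Shimura covering, with character `(· / 5) ^ e` -/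
structure KF (e : ℕ) (f : ℂ → ℂ) : Prop where
  hb : HB f
  inv : ∀ g, G0 g → ∀ z : ℂ, 0 < z.im → f (g.act z) = (jacobiSym g.a 5 : ℂ) ^ e * f z
  exp : ∃ (N : ℕ) (A : PowerSeries ℤ), QE 1 N (zs A) f

/-- both coordinates are algebraic integers -/
def IntPt (z : ℂ) : Prop := IsIntegral ℤ (xx z) ∧ IsIntegral ℤ (y1 z)

/-! ### Points and automorphisms -/

/-- the curve `Y² = X (X + 9) (X - 16)` -/
def W15 : WeierstrassCurve ℤ := ⟨0, -7, 0, -144, 0⟩

noncomputable scoped instance (priority := high) decC : DecidableEq ℂ :=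
  fun a b => Classical.propDecidable (a = b)

abbrev EC : Type := Pt W15 ℂ

abbrev Aut : Type := ℂ ≃+* ℂ

noncomputable def act (σ : Aut) : EC →+ EC := pm W15 (σ : ℂ →+* ℂ)

/-- the point with `X = x` and `2 Y = η` -/
noncomputable def mkP (x η : ℂ) : EC := Classical.epsilon fun P => Is P x η

/-- the modular parametrisation -/
noncomputable def Pz (z : ℂ) : EC := mkP (4 * xx z) (8 * yy z)

/-- the point `(-9, 0)` -/
noncomputable def T2 : EC := mkP (-9) 0

/-- a square root of `st p` -/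
noncomputable def rt (p : ℕ) : ℂ := if p % 4 = 1 then (√p : ℝ) else I * (√p : ℝ)

def OkS (S : Finset ℕ) : Prop := ∀ p ∈ S, p.Prime ∧ p.Coprime 30

def Fx (S : Finset ℕ) (σ : Aut) : Prop := ∀ p ∈ S, σ (rt p) = rt p

def Rh (S : Finset ℕ) (σ : Aut) : Prop := ∀ p ∈ S, σ (rt p) = jacobiSym (-15) p * rt p

/-- points over the genus fields which are anti-invariant up to 4-torsion -/
def InC (R : EC) : Prop :=
  ∃ S, OkS S ∧ (∀ σ, Fx S σ → act σ R = R) ∧ ∀ σ, Rh S σ → 4 • (act σ R + R) = 0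

/-- anti-invariant points over the genus fields which lift to the Shimura covering -/
def InB (R : EC) : Prop :=
  ∃ S, OkS S ∧ (∃ H, H + H = R ∧ ∀ σ, Fx S σ → act σ H - H = 0 ∨ act σ H - H = T2) ∧
    ∀ σ, Rh S σ → act σ R + R = 0

/-- the classes in the genus of `d` -/
noncomputable def gen {n : ℕ} [Good n] (d : ClassGroup (OO n)) : Finset (ClassGroup (OO n)) :=
  univ.filter fun c => ∀ p ∈ n.primeFactors, gch p c = gch p d

/-- the generator `(1 + √-n) / 2` of the ring of integers -/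
noncomputable def omg (n : ℕ) : ℂ := (1 + I * √n) / 2

/-- genus points -/
noncomputable def ZG (n : ℕ) [Good n] (ρ : ℤ) (d : ClassGroup (OO n)) : EC :=
  ∑ c ∈ gen d, Pz (ht n ρ c)

/-- twisted Heegner points -/
noncomputable def PJ (n : ℕ) [Good n] (ρ : ℤ) (J : Finset ℕ) : EC :=
  ∑ c : ClassGroup (OO n), gJ J c • Pz (ht n ρ c)

open Classical in
noncomputable def PY (a b : ℕ) (ρ : ℤ) : EC :=
  if h : Good (a * b) then
    haveI := h
    PJ (a * b) ρ a.primeFactors
  else 0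

/-- 3 and 5 split in `Q(√-n)` -/
def B1 (n : ℕ) : Prop := Squarefree n ∧ n % 4 = 3 ∧ n % 3 = 2 ∧ (n % 5 = 1 ∨ n % 5 = 4)

end Pool.Agent.P.MP_8b7eba_nt.R1
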