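import Pool.Agent.P.MP_8b7eba_nt.R1.GG

/-! The jump of the kernel is close to `π`. -/

namespace Pool.Agent.P.MP_8b7eba_nt.R1

open Complex Filter Topology MeasureTheory Metric Finset Asymptotics PowerSeries
open scoped Real UpperHalfPlane MatrixGroups ComplexConjugate
open _root_.Pool.Agent.P.MP_8b7eba_nt.Mod (M2 G0 FI L0 om lv xx yy qq UH atI ex mT)
open BSD15 (OO Good cls gch gJ nm cj rho lam Adm B3 B5 No4 Xp XJ Rn)
open MP_9c97e9_nt (Pt pm Is)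

noncomputable def EE_h (s u : ℝ) : ℝ := (u ^ 2 + 1) ^ (-s)

noncomputable def EE_phi (v : ℝ) : ℝ := v ^ (-(1 / 2 : ℝ)) / (1 + v)

theorem EE_phi_int : IntegrableOn EE_phi (Set.Ioi 0) := by
  have h := Real.integrableOn_rpowIntegrand₀₁_Ioi (p := 1 / 2) (x := 1) (by norm_num) zero_le_one
  refine h.congr_fun (fun v hv => ?_) measurableSet_Ioi
  have hv' : (0 : ℝ) ≤ v := le_of_lt hv
  show Real.rpowIntegrand₀₁ (1 / 2) v 1 = EE_phi v
  rw [Real.rpowIntegrand₀₁_eq_pow_div (by norm_num) hv' zero_le_one, EE_phi, mul_one, add_comm v]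
  norm_num

theorem EE_phi_nonneg {v : ℝ} (hv : 0 < v) : 0 ≤ EE_phi v := by
  unfold EE_phi
  positivity

theorem EE_pow {d v : ℝ} (h0 : 0 ≤ d) (h1 : d ≤ 1 / 2) (hv : 0 < v) :
    |v ^ d - 1| ≤ 2 * d * (v ^ (-(1 / 2 : ℝ)) * (1 + v)) := by
  have hw : 0 < v ^ (-(1 / 2 : ℝ)) := Real.rpow_pos_of_pos hv _
  have hu : 0 < v ^ (1 / 2 : ℝ) := Real.rpow_pos_of_pos hv _
  have e1 : v ^ (-(1 / 2 : ℝ)) * v = v ^ (1 / 2 : ℝ) := by
    rw [← Real.rpow_add_one hv.ne']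
    norm_num
  have e2 : v ^ (-(1 / 2 : ℝ)) * (1 + v) = v ^ (-(1 / 2 : ℝ)) + v ^ (1 / 2 : ℝ) := by
    rw [mul_add, mul_one, e1]
  rw [e2, abs_le]
  constructor
  · have a1 : d * Real.log v + 1 ≤ v ^ d := by
      rw [Real.rpow_def_of_pos hv, mul_comm (Real.log v)]
      exact Real.add_one_le_exp _
    have a2 := Real.log_le_sub_one_of_pos hw
    rw [Real.log_rpow hv] at a2
    have a3 : -(2 * v ^ (-(1 / 2 : ℝ))) ≤ Real.log v := by linarith
    have a4 := mul_le_mul_of_nonneg_left a3 h0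
    have a5 := mul_nonneg h0 hu.le
    linarith
  · have a1 := rpow_one_add_le_one_add_mul_self (s := v ^ (1 / 2 : ℝ) - 1) (by linarith)
      (p := 2 * d) (by linarith) (by linarith)
    rw [add_sub_cancel, ← Real.rpow_mul hv.le, show 1 / 2 * (2 * d) = d by ring] at a1
    have a5 := mul_nonneg h0 hw.le
    linarith

theorem EE_h_cont (s : ℝ) : Continuous (EE_h s) := by
  unfold EE_h
  exact Continuous.rpow_const (by fun_prop) fun u => Or.inl (by positivity)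

theorem EE_h_nonneg (s u : ℝ) : 0 ≤ EE_h s u := by
  unfold EE_h
  positivity

theorem EE_h_le {s : ℝ} (hs : 1 ≤ s) (u : ℝ) : EE_h s u ≤ (1 + u ^ 2)⁻¹ := by
  unfold EE_h
  rw [add_comm (u ^ 2), ← Real.rpow_neg_one]
  exact Real.rpow_le_rpow_of_exponent_le (by nlinarith [sq_nonneg u]) (by linarith)

theorem EE_h_int {s : ℝ} (hs : 1 ≤ s) : Integrable (EE_h s) := by
  refine integrable_inv_one_add_sq.mono' (EE_h_cont s).aestronglyMeasurable
    (Eventually.of_forall fun u => ?_)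
  rw [Real.norm_eq_abs, abs_of_nonneg (EE_h_nonneg s u)]
  exact EE_h_le hs u

theorem EE_shift {T t v : ℝ} (ht : |t| ≤ T) (hv : 0 < v) :
    (1 + (t + v) ^ 2)⁻¹ ≤ 2 * (1 + T) ^ 2 / (1 + v) ^ 2 := by
  have hT : 0 ≤ T := (abs_nonneg t).trans ht
  have h1 : 1 + v ≤ (1 + T) * (1 + |t + v|) := by
    have a1 := le_abs_self (t + v)
    have a2 := (abs_le.1 ht).1
    have a3 := mul_nonneg hT (abs_nonneg (t + v))
    linarith
  have h2 : (1 + |t + v|) ^ 2 ≤ 2 * (1 + (t + v) ^ 2) := by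
    rw [← sq_abs (t + v)]
    nlinarith [sq_nonneg (1 - |t + v|)]
  have h3 : (1 + v) ^ 2 ≤ ((1 + T) * (1 + |t + v|)) ^ 2 :=
    pow_le_pow_left₀ (by linarith) h1 2
  rw [inv_eq_one_div, div_le_div_iff₀ (by positivity) (by positivity), one_mul]
  have h4 := mul_le_mul_of_nonneg_left h2 (sq_nonneg (1 + T))
  rw [mul_pow] at h3
  linarith

theorem EE_h_lip {s T v : ℝ} (hs : 1 ≤ s) (hs' : s ≤ 3 / 2) (hv : 0 < v) {t t' : ℝ} (ht : |t| ≤ T)
    (ht' : |t'| ≤ T) :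
    |EE_h s (t + v) - EE_h s (t' + v)| ≤ 3 * (2 * (1 + T) ^ 2 / (1 + v) ^ 2) * |t - t'| := by
  have hd : ∀ x ∈ Set.Icc (-T) T, HasDerivWithinAt (fun x => EE_h s (x + v))
      (2 * (x + v) * (-s) * ((x + v) ^ 2 + 1) ^ (-s - 1)) (Set.Icc (-T) T) x := by
    intro x _
    have h1 : HasDerivAt (fun x : ℝ => (x + v) ^ 2 + 1) (2 * (x + v)) x := by
      simpa using (((hasDerivAt_id x).add_const v).fun_pow 2).add_const 1
    exact (h1.rpow_const (p := -s) (Or.inl (by positivity))).hasDerivWithinAt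
  have hb : ∀ x ∈ Set.Icc (-T) T, ‖2 * (x + v) * (-s) * ((x + v) ^ 2 + 1) ^ (-s - 1)‖ ≤
      3 * (2 * (1 + T) ^ 2 / (1 + v) ^ 2) := by
    intro x hx
    have hy : (0 : ℝ) < (x + v) ^ 2 + 1 := by positivity
    have h1 := (EE_h_le hs (x + v)).trans (EE_shift (abs_le.2 hx) hv)
    have h2 : ((x + v) ^ 2 + 1) ^ (-s - 1) = EE_h s (x + v) / ((x + v) ^ 2 + 1) :=
      Real.rpow_sub_one hy.ne' _
    have h3 : |2 * (x + v) * (-s)| ≤ 3 * ((x + v) ^ 2 + 1) := by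
      rw [abs_mul, abs_mul, abs_neg, abs_of_pos (by linarith : 0 < s), abs_two, ← sq_abs (x + v)]
      have := abs_nonneg (x + v)
      nlinarith [sq_nonneg (|x + v| - 1)]
    have h4 := EE_h_nonneg s (x + v)
    rw [Real.norm_eq_abs, abs_mul, h2, abs_of_nonneg (div_nonneg h4 hy.le)]
    refine (mul_le_mul_of_nonneg_right h3 (div_nonneg h4 hy.le)).trans ?_
    rw [mul_assoc, mul_div_cancel₀ _ hy.ne']
    linarith
  exact Convex.norm_image_sub_le_of_norm_hasDerivWithin_le hd hb (convex_Icc _ _) (abs_le.1 ht')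
    (abs_le.1 ht)

theorem EE_h_int' {s : ℝ} (hs : 1 ≤ s) (t : ℝ) : Integrable fun v => EE_h s (t + v) :=
  (EE_h_int hs).comp_add_left t

theorem EE_sum {s : ℝ} (hs : 1 ≤ s) (t : ℝ) :
    (∫ v in Set.Ioi (0 : ℝ), EE_h s (t + v)) + ∫ v in Set.Ioi (0 : ℝ), EE_h s (-t + v) =
      ∫ u, EE_h s u := by
  have h1 := intervalIntegral.integral_Iic_add_Ioi (b := 0) (EE_h_int' hs t).integrableOn
    (EE_h_int' hs t).integrableOn
  have h2 := integral_comp_neg_Ioi 0 fun v => EE_h s (t + v)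
  have h3 : ∀ v : ℝ, EE_h s (t + -v) = EE_h s (-t + v) := by
    intro v
    unfold EE_h
    rw [show (t + -v) ^ 2 = (-t + v) ^ 2 by ring]
  simp only [h3, neg_zero] at h2
  have h4 : ∫ v, EE_h s (t + v) = ∫ u, EE_h s u := integral_add_left_eq_self (EE_h s) t
  rw [h2, ← h4, ← h1, add_comm]

theorem EE_pi : ∃ C : ℝ, 0 ≤ C ∧ ∀ s : ℝ, 1 ≤ s → |(∫ u, EE_h s u) - π| ≤ C * (s - 1) := by
  have hI : Integrable fun x : ℝ => ((1 : ℝ) + ‖x‖ ^ 2) ^ (-(3 / 2 : ℝ) / 2) :=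
    integrable_rpow_neg_one_add_norm_sq (by simp; norm_num)
  refine ⟨4 * ∫ x : ℝ, ((1 : ℝ) + ‖x‖ ^ 2) ^ (-(3 / 2 : ℝ) / 2),
    mul_nonneg (by norm_num) (integral_nonneg fun x => by positivity), fun s hs => ?_⟩
  rw [← integral_univ_inv_one_add_sq, ← integral_sub (EE_h_int hs) integrable_inv_one_add_sq,
    mul_right_comm, ← integral_const_mul, ← Real.norm_eq_abs]
  refine norm_integral_le_of_norm_le (hI.const_mul _) (Eventually.of_forall fun u => ?_)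
  have h1 := EE_h_le hs u
  rw [Real.norm_eq_abs, abs_sub_comm, abs_of_nonneg (sub_nonneg.2 h1), Real.norm_eq_abs, sq_abs]
  unfold EE_h
  rw [add_comm (u ^ 2)]
  have hy : (0 : ℝ) < 1 + u ^ 2 := by positivity
  generalize 1 + u ^ 2 = y at hy
  have e1 : y ^ (-s) = y⁻¹ * y ^ (-(s - 1)) := by
    rw [← Real.rpow_neg_one, ← Real.rpow_add hy]
    congr 1
    ring
  have e2 : y ^ (-(3 / 2 : ℝ) / 2) = y⁻¹ * y ^ (1 / 4 : ℝ) := by
    rw [← Real.rpow_neg_one, ← Real.rpow_add hy]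
    norm_num
  have a1 : -(s - 1) * Real.log y + 1 ≤ y ^ (-(s - 1)) := by
    rw [Real.rpow_def_of_pos hy, mul_comm (Real.log y)]
    exact Real.add_one_le_exp _
  have a2 := Real.log_le_rpow_div hy.le (by norm_num : (0 : ℝ) < 1 / 4)
  have a3 := mul_le_mul_of_nonneg_left a2 (sub_nonneg.2 hs)
  have a4 : 1 - y ^ (-(s - 1)) ≤ 4 * (s - 1) * y ^ (1 / 4 : ℝ) := by linarith
  have a5 := mul_le_mul_of_nonneg_left a4 (inv_pos.2 hy).le
  rw [e1, e2]
  linarith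

theorem EE_D {s : ℝ} (hs : 1 ≤ s) (t : ℝ) :
    IntegrableOn (fun v : ℝ => (v ^ (s - 1) - 1) * EE_h s (t + v)) (Set.Ioi 0) ∧
    GG s t - ∫ v in Set.Ioi (0 : ℝ), EE_h s (t + v) =
      ∫ v in Set.Ioi (0 : ℝ), (v ^ (s - 1) - 1) * EE_h s (t + v) := by
  have h1 := GG_integrable hs t
  have h2 : IntegrableOn (fun v => EE_h s (t + v)) (Set.Ioi 0) := (EE_h_int' hs t).integrableOn
  have e : (fun v : ℝ => (v ^ (s - 1) - 1) * EE_h s (t + v)) =
      fun v : ℝ => v ^ (s - 1) * ((t + v) ^ 2 + 1) ^ (-s) - EE_h s (t + v) := by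
    funext v
    unfold EE_h
    ring
  rw [e]
  exact ⟨h1.sub h2, (integral_sub h1 h2).symm⟩

theorem EE_dom {d K : ℝ} (h0 : 0 ≤ d) (h1 : d ≤ 1 / 2) {f : ℝ → ℝ}
    (hf : ∀ v, 0 < v → |f v| ≤ K / (1 + v) ^ 2) :
    |∫ v in Set.Ioi (0 : ℝ), (v ^ d - 1) * f v| ≤
      2 * d * K * ∫ v in Set.Ioi (0 : ℝ), EE_phi v := by
  rw [← integral_const_mul, ← Real.norm_eq_abs]
  refine norm_integral_le_of_norm_le (EE_phi_int.const_mul _) ?_
  refine (ae_restrict_iff' measurableSet_Ioi).2 (Eventually.of_forall fun v hv => ?_)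
  have hv' : (0 : ℝ) < v := hv
  rw [Real.norm_eq_abs, abs_mul]
  refine (mul_le_mul (EE_pow h0 h1 hv') (hf v hv') (abs_nonneg _) (by positivity)).trans
    (le_of_eq ?_)
  unfold EE_phi
  field_simp

theorem ee_bound (T : ℝ) : ∃ C : ℝ, 0 ≤ C ∧ ∀ s ∈ Set.Icc (1 : ℝ) (3 / 2), ∀ t, |t| ≤ T →
    |ee s t - π| ≤ C * (s - 1) ∧
      ∀ t', |t'| ≤ T → |ee s t - ee s t'| ≤ C * (s - 1) * |t - t'| := by
  obtain ⟨C₀, hC₀, hC⟩ := EE_pi
  obtain ⟨P, hP⟩ : ∃ P, P = ∫ v in Set.Ioi (0 : ℝ), EE_phi v := ⟨_, rfl⟩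
  have hP0 : 0 ≤ P := hP ▸ setIntegral_nonneg measurableSet_Ioi fun v hv => EE_phi_nonneg hv
  obtain ⟨c, hc⟩ : ∃ c, c = 2 * (1 + T) ^ 2 := ⟨_, rfl⟩
  have hc0 : 0 ≤ c := hc ▸ by positivity
  refine ⟨C₀ + 12 * (c * P), by positivity, fun s hs t ht => ?_⟩
  have hd0 : 0 ≤ s - 1 := sub_nonneg.2 hs.1
  have hd1 : s - 1 ≤ 1 / 2 := by linarith [hs.2]
  have b1 : ∀ t, |t| ≤ T →
      |GG s t - ∫ v in Set.Ioi (0 : ℝ), EE_h s (t + v)| ≤ 2 * (c * P * (s - 1)) := by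
    intro t ht
    rw [(EE_D hs.1 t).2]
    refine (EE_dom (K := c) hd0 hd1 fun v hv => ?_).trans (le_of_eq (by rw [← hP]; ring))
    rw [abs_of_nonneg (EE_h_nonneg _ _), hc]
    exact (EE_h_le hs.1 _).trans (EE_shift ht hv)
  have b2 : ∀ t t', |t| ≤ T → |t'| ≤ T →
      |(GG s t - ∫ v in Set.Ioi (0 : ℝ), EE_h s (t + v)) -
        (GG s t' - ∫ v in Set.Ioi (0 : ℝ), EE_h s (t' + v))| ≤
        6 * (c * P * (s - 1) * |t - t'|) := by
    intro t t' ht ht'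
    rw [(EE_D hs.1 t).2, (EE_D hs.1 t').2, ← integral_sub (EE_D hs.1 t).1 (EE_D hs.1 t').1]
    simp only [← mul_sub]
    refine (EE_dom (K := 3 * c * |t - t'|) hd0 hd1 fun v hv => ?_).trans
      (le_of_eq (by rw [← hP]; ring))
    refine (EE_h_lip hs.1 hs.2 hv ht ht').trans (le_of_eq ?_)
    rw [hc]
    ring
  have hn : ∀ t : ℝ, |t| ≤ T → |-t| ≤ T := fun t ht => by rwa [abs_neg]
  have q0 : 0 ≤ c * P * (s - 1) := by positivity
  refine ⟨?_, fun t' ht' => ?_⟩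
  · have a1 := abs_le.1 (b1 t ht)
    have a2 := abs_le.1 (b1 (-t) (hn t ht))
    have a3 := abs_le.1 (hC s hs.1)
    have a4 := EE_sum hs.1 t
    unfold ee
    rw [abs_le]
    constructor <;> linarith [a1.1, a1.2, a2.1, a2.2, a3.1, a3.2]
  · have a1 := abs_le.1 (b2 t t' ht ht')
    have a2 := b2 (-t) (-t') (hn t ht) (hn t' ht')
    rw [show -t - -t' = -(t - t') by ring, abs_neg (t - t')] at a2
    have a2' := abs_le.1 a2
    have a4 := EE_sum hs.1 t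
    have a5 := EE_sum hs.1 t'
    have q1 : 0 ≤ C₀ * (s - 1) * |t - t'| := by positivity
    unfold ee
    rw [abs_le]
    constructor <;> linarith [a1.1, a1.2, a2'.1, a2'.2]

end Pool.Agent.P.MP_8b7eba_nt.R1
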