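import Pool.Agent.P.MP_8b7eba_nt.R1.Geo
import Pool.Agent.P.MP_8b7eba_nt.R1.EE

/-! The error in the mean value property. -/

namespace Pool.Agent.P.MP_8b7eba_nt.R1

open Complex Filter Topology MeasureTheory Metric Finset Asymptotics PowerSeries
open scoped Real UpperHalfPlane MatrixGroups ComplexConjugate
open _root_.Pool.Agent.P.MP_8b7eba_nt.Mod (M2 G0 FI L0 om lv xx yy qq UH atI ex mT)
open BSD15 (OO Good cls gch gJ nm cj rho lam Adm B3 B5 No4 Xp XJ Rn)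
open MP_9c97e9_nt (Pt pm Is)

theorem Err_abel0 {c t : ℤ → ℝ} {F : ℝ → ℝ} {M L T : ℝ} (ht : Monotone t) (a : ℤ)
    (hc : ∀ b, |∑ C ∈ Ico a b, c C| ≤ M)
    (hF : ∀ x y, |x| ≤ T → |y| ≤ T → |F x - F y| ≤ L * |x - y|) (b : ℤ) (hb : a ≤ b) :
    (∀ C ∈ Icc a b, |t C| ≤ T) →
      |∑ C ∈ Ico a (b + 1), c C * F (t C) - (∑ C ∈ Ico a (b + 1), c C) * F (t b)| ≤
        M * L * (t b - t a) := by
  induction b, hb using Int.leInduction with
  | base =>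
    intro _
    have e : Ico a (a + 1) = {a} := by
      ext C
      simp only [mem_Ico, mem_singleton]
      omega
    simp [e]
  | succ b hb ih =>
    intro h
    have h1 := ih fun C hC => h C (by
      simp only [mem_Icc] at hC ⊢
      omega)
    have e : Ico a (b + 1 + 1) = insert (b + 1) (Ico a (b + 1)) := by
      ext C
      simp only [mem_Ico, mem_insert]
      omega
    have hn : b + 1 ∉ Ico a (b + 1) := by simp
    have h2 := hF (t b) (t (b + 1)) (h b (by simp only [mem_Icc]; omega))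
      (h (b + 1) (by simp only [mem_Icc]; omega))
    have h3 : t b ≤ t (b + 1) := ht (by omega)
    rw [abs_sub_comm (t b), abs_of_nonneg (sub_nonneg.2 h3)] at h2
    have h4 := hc (b + 1)
    have h5 : |(∑ C ∈ Ico a (b + 1), c C) * (F (t b) - F (t (b + 1)))| ≤
        M * (L * (t (b + 1) - t b)) := by
      rw [abs_mul]
      exact mul_le_mul h4 h2 (abs_nonneg _) ((abs_nonneg _).trans h4)
    rw [e, sum_insert hn, sum_insert hn]
    have e2 : c (b + 1) * F (t (b + 1)) + ∑ C ∈ Ico a (b + 1), c C * F (t C) -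
        (c (b + 1) + ∑ C ∈ Ico a (b + 1), c C) * F (t (b + 1)) =
        (∑ C ∈ Ico a (b + 1), c C * F (t C) - (∑ C ∈ Ico a (b + 1), c C) * F (t b)) +
          (∑ C ∈ Ico a (b + 1), c C) * (F (t b) - F (t (b + 1))) := by ring
    rw [e2]
    refine (abs_add_le _ _).trans ((add_le_add h1 h5).trans_eq ?_)
    ring

theorem Err_abel {c t : ℤ → ℝ} {F : ℝ → ℝ} {M E L T : ℝ} (hE : 0 ≤ E) (hL : 0 ≤ L) (hT : 0 ≤ T)
    (ht : Monotone t) (hc : ∀ a b, |∑ C ∈ Ico a b, c C| ≤ M) (hF0 : ∀ x, |x| ≤ T → |F x| ≤ E)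
    (hF : ∀ x y, |x| ≤ T → |y| ≤ T → |F x - F y| ≤ L * |x - y|) (a b : ℤ)
    (h : ∀ C ∈ Ico a b, |t C| ≤ T) :
    |∑ C ∈ Ico a b, c C * F (t C)| ≤ M * (E + 2 * L * T) := by
  have hM : 0 ≤ M := (abs_nonneg _).trans (hc 0 0)
  rcases le_or_gt b a with hb | hb
  · rw [Ico_eq_empty_of_le hb, sum_empty, abs_zero]
    positivity
  · obtain ⟨b, rfl⟩ : ∃ b', b = b' + 1 := ⟨b - 1, by ring⟩
    have hb' : a ≤ b := by omega
    have h' : ∀ C ∈ Icc a b, |t C| ≤ T := fun C hC => h C (by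
      simp only [mem_Icc, mem_Ico] at hC ⊢
      omega)
    have h1 := Err_abel0 ht a (hc a) hF b hb' h'
    have h2 := abs_le.1 (h' a (by simp only [mem_Icc]; omega))
    have h3 := h' b (by simp only [mem_Icc]; omega)
    have h4 : |(∑ C ∈ Ico a (b + 1), c C) * F (t b)| ≤ M * E := by
      rw [abs_mul]
      exact mul_le_mul (hc _ _) (hF0 _ h3) (abs_nonneg _) hM
    have h5 : M * L * (t b - t a) ≤ M * L * (2 * T) :=
      mul_le_mul_of_nonneg_left (by linarith [(abs_le.1 h3).2]) (mul_nonneg hM hL)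
    have h6 := abs_add_le (∑ C ∈ Ico a (b + 1), c C * F (t C) -
      (∑ C ∈ Ico a (b + 1), c C) * F (t b)) ((∑ C ∈ Ico a (b + 1), c C) * F (t b))
    rw [sub_add_cancel] at h6
    nlinarith

theorem Err_sn_pos {x : ℝ} (h : 0 < x) : sn x = 1 := by simp [sn, sign_pos h]

theorem Err_sn_neg {x : ℝ} (h : x < 0) : sn x = -1 := by simp [sn, sign_neg h]

theorem Err_sn_zero : sn 0 = 0 := by simp [sn]

theorem Err_sn_eq (α : ℝ) (C : ℤ) :
    sn (α + C) = (if ⌊-α⌋ + 1 ≤ C then 1 else 0) + (if ⌈-α⌉ ≤ C then 1 else 0) - 1 := by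
  have h1 : ⌊-α⌋ + 1 ≤ C ↔ 0 < α + C := by
    rw [Int.add_one_le_iff, Int.floor_lt]
    constructor <;> intro h <;> linarith
  have h2 : ⌈-α⌉ ≤ C ↔ 0 ≤ α + C := by
    rw [Int.ceil_le]
    constructor <;> intro h <;> linarith
  simp only [h1, h2]
  rcases lt_trichotomy (α + C) 0 with h | h | h
  · rw [Err_sn_neg h, if_neg (not_lt.2 h.le), if_neg (not_le.2 h)]
    norm_num
  · rw [h, Err_sn_zero, if_neg (lt_irrefl _), if_pos le_rfl]
    norm_num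
  · rw [Err_sn_pos h, if_pos h, if_pos h.le]
    norm_num

theorem Err_fc (α : ℝ) : ⌈-α⌉ ≤ ⌊-α⌋ + 1 := Int.ceil_le_floor_add_one _

theorem Err_ind (a b C : ℤ) : ((if a ≤ C then 1 else 0) - (if b ≤ C then 1 else 0) : ℝ) =
    (if C ∈ Ico a b then 1 else 0) - (if C ∈ Ico b a then 1 else 0) := by
  simp only [mem_Ico]
  by_cases h1 : a ≤ C <;> by_cases h2 : b ≤ C <;> simp [h1, h2, not_lt.2, not_le.1]

theorem Err_ne1 {α β : ℝ} {C : ℤ} (h : C ∈ Ico (⌊-α⌋ + 1) (⌊-β⌋ + 1)) :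
    sn (α + C) ≠ sn (β + C) := by
  have h1 := Err_fc α
  rw [mem_Ico] at h
  rw [Err_sn_eq, Err_sn_eq, if_pos h.1, if_pos (h1.trans h.1), if_neg (not_le.2 h.2)]
  split_ifs <;> norm_num

theorem Err_ne2 {α β : ℝ} {C : ℤ} (h : C ∈ Ico ⌈-α⌉ ⌈-β⌉) : sn (α + C) ≠ sn (β + C) := by
  have h1 := Err_fc β
  rw [mem_Ico] at h
  rw [Err_sn_eq, Err_sn_eq, if_pos h.1, if_neg (not_le.2 h.2), if_neg (not_le.2 (h.2.trans_le h1))]
  split_ifs <;> norm_num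

theorem Err_vert {c t : ℤ → ℝ} {F : ℝ → ℝ} {M E L T : ℝ} (hE : 0 ≤ E) (hL : 0 ≤ L) (hT : 0 ≤ T)
    (ht : Monotone t) (hc : ∀ a b, |∑ C ∈ Ico a b, c C| ≤ M) (hF0 : ∀ x, |x| ≤ T → |F x| ≤ E)
    (hF : ∀ x y, |x| ≤ T → |y| ≤ T → |F x - F y| ≤ L * |x - y|) (α β : ℝ)
    (h : ∀ C : ℤ, sn (α + C) ≠ sn (β + C) → |t C| ≤ T) :
    ∃ I : Finset ℤ, (∀ C : ℤ, sn (α + C) ≠ sn (β + C) → C ∈ I) ∧
      |∑ C ∈ I, c C * (F (t C) * ((sn (α + C) - sn (β + C)) / 2))| ≤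
        2 * (M * (E + 2 * L * T)) := by
  obtain ⟨I1, e1⟩ : ∃ I1, I1 = Ico (⌊-α⌋ + 1) (⌊-β⌋ + 1) := ⟨_, rfl⟩
  obtain ⟨I2, e2⟩ : ∃ I2, I2 = Ico (⌊-β⌋ + 1) (⌊-α⌋ + 1) := ⟨_, rfl⟩
  obtain ⟨I3, e3⟩ : ∃ I3, I3 = Ico ⌈-α⌉ ⌈-β⌉ := ⟨_, rfl⟩
  obtain ⟨I4, e4⟩ : ∃ I4, I4 = Ico ⌈-β⌉ ⌈-α⌉ := ⟨_, rfl⟩
  have key : ∀ C : ℤ, sn (α + C) - sn (β + C) =
      ((if C ∈ I1 then 1 else 0) - (if C ∈ I2 then 1 else 0)) +
        ((if C ∈ I3 then 1 else 0) - (if C ∈ I4 then 1 else 0)) := fun C => by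
    rw [e1, e2, e3, e4, ← Err_ind, ← Err_ind, Err_sn_eq, Err_sn_eq]
    ring
  refine ⟨I1 ∪ I2 ∪ I3 ∪ I4, fun C hC => ?_, ?_⟩
  · by_contra hn
    simp only [mem_union, not_or] at hn
    apply hC
    rw [← sub_eq_zero, key, if_neg hn.1.1.1, if_neg hn.1.1.2, if_neg hn.1.2, if_neg hn.2]
    norm_num
  · have hs : ∀ J ⊆ I1 ∪ I2 ∪ I3 ∪ I4, ∑ C ∈ I1 ∪ I2 ∪ I3 ∪ I4,
        c C * F (t C) * (if C ∈ J then 1 else 0) = ∑ C ∈ J, c C * F (t C) := fun J hJ => by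
      simp only [mul_ite, mul_one, mul_zero]
      rw [sum_ite_mem, inter_eq_right.2 hJ]
    have e : ∑ C ∈ I1 ∪ I2 ∪ I3 ∪ I4, c C * (F (t C) * ((sn (α + C) - sn (β + C)) / 2)) =
        ((∑ C ∈ I1, c C * F (t C) - ∑ C ∈ I2, c C * F (t C)) +
          (∑ C ∈ I3, c C * F (t C) - ∑ C ∈ I4, c C * F (t C))) / 2 := by
      rw [← hs I1 (fun C hC => by simp [hC]), ← hs I2 (fun C hC => by simp [hC]),
        ← hs I3 (fun C hC => by simp [hC]), ← hs I4 (fun C hC => by simp [hC]),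
        ← sum_sub_distrib, ← sum_sub_distrib, ← sum_add_distrib, sum_div]
      refine sum_congr rfl fun C _ => ?_
      rw [key]
      ring
    have b1 : |∑ C ∈ I1, c C * F (t C)| ≤ M * (E + 2 * L * T) :=
      e1 ▸ Err_abel hE hL hT ht hc hF0 hF _ _ fun C hC => h C (Err_ne1 hC)
    have b2 : |∑ C ∈ I2, c C * F (t C)| ≤ M * (E + 2 * L * T) :=
      e2 ▸ Err_abel hE hL hT ht hc hF0 hF _ _ fun C hC => h C (Err_ne1 hC).symm
    have b3 : |∑ C ∈ I3, c C * F (t C)| ≤ M * (E + 2 * L * T) :=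
      e3 ▸ Err_abel hE hL hT ht hc hF0 hF _ _ fun C hC => h C (Err_ne2 hC)
    have b4 : |∑ C ∈ I4, c C * F (t C)| ≤ M * (E + 2 * L * T) :=
      e4 ▸ Err_abel hE hL hT ht hc hF0 hF _ _ fun C hC => h C (Err_ne2 hC).symm
    rw [e]
    rw [abs_le] at b1 b2 b3 b4 ⊢
    constructor <;> linarith [b1.1, b1.2, b2.1, b2.2, b3.1, b3.2, b4.1, b4.2]

theorem Err_sn_div (x : ℝ) {d : ℝ} (hd : 0 < d) : sn (x / d) = sn x := by
  rcases lt_trichotomy x 0 with h | rfl | h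
  · rw [Err_sn_neg h, Err_sn_neg (div_neg_of_neg_of_pos h hd)]
  · rw [zero_div]
  · rw [Err_sn_pos h, Err_sn_pos (div_pos h hd)]

theorem Err_tt {k : ℤ} (hk : 0 < k) (C : ℤ) (z : ℂ) :
    (⟨0, k, C⟩ : QF).tt z = (k * z.re + C) / (z.im * k) := by
  have h : (0 : ℝ) ≤ k := by exact_mod_cast hk.le
  simp [QF.tt, QF.disc, Real.sqrt_sq h]

theorem Err_tt_neg (k C : ℤ) (z : ℂ) : (⟨0, -k, -C⟩ : QF).tt z = -(⟨0, k, C⟩ : QF).tt z := by
  simp only [QF.tt, QF.disc]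
  simp
  ring

/-- the term of the sum -/
noncomputable def ErrT (w : QF → ℤ) (s : ℝ) (z u : ℂ) (Q : QF) : ℝ :=
  w Q * ((ee s (Q.tt u) - π) * ((sn (Q.tt u) - sn (Q.tt z)) / 2))

theorem Err_ne {w : QF → ℤ} {s : ℝ} {z u : ℂ} {Q : QF} (h : ErrT w s z u Q ≠ 0) :
    w Q ≠ 0 ∧ sn (Q.tt u) ≠ sn (Q.tt z) := by
  constructor
  · intro h0
    apply h
    simp [ErrT, h0]
  · intro h0
    apply h
    simp [ErrT, h0]

theorem Err_vertical {D : ℤ} (hD : 0 < D) {w : QF → ℤ} (hd : ∀ Q, w Q ≠ 0 → Q.disc = D) {M : ℤ}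
    (hM : ∀ k : ℤ, 0 < k → k ^ 2 = D → ∀ a b : ℤ,
      |∑ C ∈ Finset.Ico a b, (w ⟨0, k, C⟩ - w ⟨0, -k, -C⟩)| ≤ M) {r : ℝ} (hr : 0 < r) {s E : ℝ}
    (hE : 0 ≤ E) (he : ∀ t, |t| ≤ Real.sinh r → |ee s t - π| ≤ E ∧
      ∀ t', |t'| ≤ Real.sinh r → |ee s t - ee s t'| ≤ E * |t - t'|) {z u : ℍ} (hu : u ∈ ball z r) :
    |∑ᶠ Q : QF, if Q.A = 0 then ErrT w s z u Q else 0| ≤
      2 * (|(M : ℝ)| * (E + 2 * E * Real.sinh r)) := by
  have hT : 0 ≤ Real.sinh r := Real.sinh_nonneg_iff.2 hr.le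
  have hB : ∀ Q : QF, (if Q.A = 0 then ErrT w s z u Q else 0) ≠ 0 →
      Q.A = 0 ∧ Q.B ^ 2 = D ∧ sn (Q.tt u) ≠ sn (Q.tt z) := fun Q h => by
    by_cases hA : Q.A = 0
    · rw [if_pos hA] at h
      have h1 := hd Q (Err_ne h).1
      rw [QF.disc, hA] at h1
      exact ⟨hA, by linarith, (Err_ne h).2⟩
    · exact absurd (if_neg hA) h
  by_cases hk : ∃ k : ℤ, 0 < k ∧ k ^ 2 = D
  · obtain ⟨k, hk, hkD⟩ := hk
    have hk' : (0 : ℝ) < k := by exact_mod_cast hk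
    have hu0 : 0 < (u : ℂ).im * k := mul_pos u.im_pos hk'
    have hz0 : 0 < (z : ℂ).im * k := mul_pos z.im_pos hk'
    have su : ∀ C : ℤ, sn ((⟨0, k, C⟩ : QF).tt u) = sn (k * (u : ℂ).re + C) := fun C => by
      rw [Err_tt hk, Err_sn_div _ hu0]
    have sz : ∀ C : ℤ, sn ((⟨0, k, C⟩ : QF).tt z) = sn (k * (z : ℂ).re + C) := fun C => by
      rw [Err_tt hk, Err_sn_div _ hz0]
    obtain ⟨I, hI, hb⟩ := Err_vert (c := fun C => (w ⟨0, k, C⟩ : ℝ) - w ⟨0, -k, -C⟩)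
      (t := fun C => (⟨0, k, C⟩ : QF).tt u) (F := fun t => ee s t - π) (M := |(M : ℝ)|) hE hE hT
      (fun a b hab => by
        have h : (a : ℝ) ≤ b := by exact_mod_cast hab
        simp only [Err_tt hk]
        exact div_le_div_of_nonneg_right (by linarith) hu0.le)
      (fun a b => by
        have h : ((|∑ C ∈ Finset.Ico a b, (w ⟨0, k, C⟩ - w ⟨0, -k, -C⟩)| : ℤ) : ℝ) ≤ M := by
          exact_mod_cast hM k hk hkD a b
        push_cast at h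
        exact h.trans (le_abs_self _))
      (fun x hx => (he x hx).1)
      (fun x y hx hy => by
        rw [sub_sub_sub_cancel_right]
        exact (he x hx).2 y hy)
      (k * (u : ℂ).re) (k * (z : ℂ).re)
      (fun C h => by
        rw [← su, ← sz] at h
        refine (tt_le_of_sn ?_ hu h).1
        have h1 : (⟨0, k, C⟩ : QF).disc = k ^ 2 := by simp [QF.disc]
        rw [h1]
        positivity)
    have i1 : Function.Injective fun C : ℤ => (⟨0, k, C⟩ : QF) := fun a b h => by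
      simpa using h
    have i2 : Function.Injective fun C : ℤ => (⟨0, -k, -C⟩ : QF) := fun a b h => by
      simpa using h
    rw [finsum_eq_sum_of_support_subset (s := I.map ⟨_, i1⟩ ∪ I.map ⟨_, i2⟩), sum_union, sum_map,
      sum_map, ← sum_add_distrib]
    · refine le_of_eq_of_le (congrArg _ (sum_congr rfl fun C _ => ?_)) hb
      simp only [Function.Embedding.coeFn_mk, if_true, ErrT]
      rw [Err_tt_neg, Err_tt_neg, ee_neg, sn_neg, sn_neg, su, sz]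
      ring
    · rw [disjoint_left]
      intro Q h1 h2
      obtain ⟨a, -, rfl⟩ := mem_map.1 h1
      obtain ⟨b, -, h⟩ := mem_map.1 h2
      have h3 := congrArg QF.B h
      simp only [Function.Embedding.coeFn_mk] at h3
      omega
    · intro Q hQ
      obtain ⟨h1, h2, h3⟩ := hB Q hQ
      rw [← hkD, sq_eq_sq_iff_eq_or_eq_neg] at h2
      rw [coe_union]
      rcases h2 with h2 | h2
      · have e : Q = ⟨0, k, Q.C⟩ := QF.ext h1 h2 rfl
        refine Or.inl (mem_coe.2 (mem_map.2 ⟨Q.C, hI _ ?_, e.symm⟩))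
        rw [← su, ← sz, ← e]
        exact h3
      · have e : Q = ⟨0, -k, - -Q.C⟩ := QF.ext h1 h2 (neg_neg _).symm
        refine Or.inr (mem_coe.2 (mem_map.2 ⟨-Q.C, hI _ ?_, e.symm⟩))
        rw [e, Err_tt_neg, Err_tt_neg, sn_neg, sn_neg] at h3
        rw [← su, ← sz]
        exact fun h => h3 (congrArg _ h)
  · rw [finsum_eq_zero_of_forall_eq_zero, abs_zero]
    · positivity
    · intro Q
      by_contra h
      obtain ⟨-, h2, -⟩ := hB Q h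
      refine hk ⟨|Q.B|, abs_pos.2 fun h0 => ?_, by rw [sq_abs, h2]⟩
      rw [h0] at h2
      omega

theorem Err_term {D : ℤ} (hD : 0 < D) {w : QF → ℤ} (hd : ∀ Q, w Q ≠ 0 → Q.disc = D)
    (hl : ∀ Q, |w Q| ≤ 1) {r s E : ℝ} (hE : 0 ≤ E)
    (he : ∀ t, |t| ≤ Real.sinh r → |ee s t - π| ≤ E) {z u : ℍ} (hu : u ∈ ball z r) (Q : QF) :
    |ErrT w s z u Q| ≤ E := by
  by_cases h : ErrT w s z u Q = 0
  · rw [h, abs_zero]
    exact hE
  · obtain ⟨h1, h2⟩ := Err_ne h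
    have h3 := he _ (tt_le_of_sn (by rw [hd Q h1]; exact hD) hu h2).1
    have h4 : |(w Q : ℝ)| ≤ 1 := by exact_mod_cast hl Q
    have h5 : |(sn (Q.tt u) - sn (Q.tt z)) / 2| ≤ 1 := by
      have h6 := abs_le.1 (abs_sn_le (Q.tt u))
      have h7 := abs_le.1 (abs_sn_le (Q.tt z))
      rw [abs_le]
      constructor <;> linarith [h6.1, h6.2, h7.1, h7.2]
    rw [ErrT, abs_mul, abs_mul]
    exact (mul_le_of_le_one_left (by positivity) h4).trans
      ((mul_le_of_le_one_right (abs_nonneg _) h5).trans h3)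

theorem Err_strip {Q : QF} (hD : 0 < Q.disc) (hA : Q.A ≠ 0) {r : ℝ} (hr : 0 < r) {z u : ℍ}
    (hu : u ∈ ball z r) (h1 : 1 / 2 ≤ z.im) (h2 : |z.re| ≤ 1 / 2)
    (h : sn (Q.tt u) ≠ sn (Q.tt z)) :
    ∃ v : ℂ, 1 / 2 * Real.exp (-r) ≤ v.im ∧
      |v.re| ≤ 1 / 2 + √Q.disc * Real.exp r * Real.sinh r ∧ sn (Q.tt v) ≠ sn Q.A := by
  have hT : 0 ≤ Real.sinh r := Real.sinh_nonneg_iff.2 hr.le
  by_cases h0 : sn (Q.tt z) = sn Q.A
  · rw [h0] at h
    obtain ⟨b1, -, b3⟩ := mem_ball_bounds hu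
    have b4 : u.im ≤ √Q.disc := im_le_of_sn hD hA u.im_pos h
    have b5 : z.im ≤ √Q.disc * Real.exp r := by
      have b6 := mul_le_mul_of_nonneg_right (b1.trans b4) (Real.exp_pos r).le
      rwa [mul_assoc, ← Real.exp_add, neg_add_cancel, Real.exp_zero, mul_one] at b6
    refine ⟨u, (mul_le_mul_of_nonneg_right h1 (Real.exp_pos _).le).trans b1, ?_, h⟩
    have b7 := abs_add_le z.re (u.re - z.re)
    rw [add_sub_cancel] at b7
    exact b7.trans (add_le_add h2 (b3.trans (mul_le_mul_of_nonneg_right b5 hT)))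
  · refine ⟨z, le_trans ?_ h1, h2.trans (le_add_of_nonneg_right (by positivity)), h0⟩
    exact mul_le_of_le_one_right (by norm_num) (Real.exp_le_one_iff.2 (by linarith))

theorem err_bound {D : ℤ} {w : QF → ℤ} (hw : Wt D w) (hv : VB D w) {r : ℝ} (hr : 0 < r) :
    ∃ C : ℝ, ∀ s ∈ Set.Icc (1 : ℝ) (3 / 2), ∀ z : ℍ, ∀ u ∈ ball z r,
      |∑ᶠ Q : QF, w Q * ((ee s (Q.tt u) - π) * ((sn (Q.tt u) - sn (Q.tt z)) / 2))| ≤
        C * (s - 1) := by
  obtain ⟨M, hM⟩ := hv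
  obtain ⟨C0, hC0, hee⟩ := ee_bound (Real.sinh r)
  have hN := finite_strip hw.pos (δ := 1 / 2 * Real.exp (-r)) (by positivity)
    (1 / 2 + √D * Real.exp r * Real.sinh r)
  refine ⟨hN.toFinset.card * C0 + 2 * (|(M : ℝ)| * (C0 + 2 * C0 * Real.sinh r)),
    fun s hs z u hu => ?_⟩
  obtain ⟨g, hg, v, hv1, hv2, hv3⟩ := exists_fd z z.im_pos
  have hv0 : 0 < v.im := by linarith
  obtain ⟨z', hz'⟩ : ∃ z' : ℍ, (z' : ℂ) = v := ⟨⟨v, hv0⟩, rfl⟩
  obtain ⟨u', hu'⟩ : ∃ u' : ℍ, toSL g hg • u' = u := ⟨(toSL g hg)⁻¹ • u, smul_inv_smul _ _⟩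
  have ez : toSL g hg • z' = z := UpperHalfPlane.ext (by rw [coe_toSL, hz', hv3])
  have hb : u' ∈ ball z' r := by
    rw [← hu', ← ez, mem_ball, dist_smul] at hu
    exact hu
  have hg0 : 0 < g.det := by rw [hg]; exact one_pos
  have hga : g.adj.det = 1 := by
    rw [← hg]
    simp only [M2.det, M2.adj]
    ring
  obtain ⟨w', hw'⟩ : ∃ w' : QF → ℤ, w' = fun Q => w (Q.cmp g.adj) := ⟨_, rfl⟩
  have hd : ∀ Q, w' Q ≠ 0 → Q.disc = D := fun Q h => by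
    rw [hw'] at h
    have h1 := hw.disc _ h
    rwa [QF.disc_cmp, hga, one_pow, one_mul] at h1
  have hl : ∀ Q, |w' Q| ≤ 1 := fun Q => hw' ▸ hw.le _
  have e0 : ∑ᶠ Q : QF, w Q * ((ee s (Q.tt u) - π) * ((sn (Q.tt u) - sn (Q.tt z)) / 2)) =
      ∑ᶠ Q : QF, ErrT w' s z' u' Q := by
    rw [← finsum_comp_equiv (QF.cmpE hg) (f := ErrT w' s z' u')]
    refine finsum_congr fun Q => ?_
    rw [ErrT, QF.cmpE_apply, QF.tt_cmp Q hg0 u'.im_pos, QF.tt_cmp Q hg0 z'.im_pos,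
      ← coe_toSL g hg, ← coe_toSL g hg, hu', ez, hw']
    simp only [QF.cmp_adj hg]
  have hE : 0 ≤ C0 * (s - 1) := mul_nonneg hC0 (sub_nonneg.2 hs.1)
  have hfin : (Function.support (ErrT w' s z' u')).Finite :=
    (finite_ball hw.pos z' r).subset fun Q h => ⟨hd Q (Err_ne h).1, u', hb, (Err_ne h).2⟩
  have e1 : ∑ᶠ Q : QF, ErrT w' s z' u' Q =
      (∑ᶠ Q : QF, if Q.A = 0 then 0 else ErrT w' s z' u' Q) +
        ∑ᶠ Q : QF, if Q.A = 0 then ErrT w' s z' u' Q else 0 := by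
    rw [← finsum_add_distrib]
    · refine finsum_congr fun Q => ?_
      split_ifs <;> simp
    · refine hfin.subset fun Q h h0 => h ?_
      simp [h0]
    · refine hfin.subset fun Q h h0 => h ?_
      simp [h0]
  have b1 : |∑ᶠ Q : QF, if Q.A = 0 then 0 else ErrT w' s z' u' Q| ≤
      hN.toFinset.card * (C0 * (s - 1)) := by
    rw [finsum_eq_sum_of_support_subset (s := hN.toFinset)]
    · refine (abs_sum_le_sum_abs _ _).trans ?_
      rw [← nsmul_eq_mul]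
      refine sum_le_card_nsmul _ _ _ fun Q _ => ?_
      split_ifs
      · rw [abs_zero]
        exact hE
      · exact Err_term hw.pos hd hl hE (fun t ht => (hee s hs t ht).1) hb Q
    · intro Q h
      have hA : Q.A ≠ 0 := fun hA => h (if_pos hA)
      have h1 : ErrT w' s z' u' Q ≠ 0 := fun h0 => h (by simp [h0])
      have h2 := hd Q (Err_ne h1).1
      rw [Set.Finite.coe_toFinset]
      refine ⟨h2, hA, ?_⟩
      rw [← h2]
      refine Err_strip (by rw [h2]; exact hw.pos) hA hr hb ?_ ?_ (Err_ne h1).2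
      · rw [← UpperHalfPlane.coe_im, hz']
        exact hv1
      · rw [← UpperHalfPlane.coe_re, hz']
        exact hv2
  have b2 := Err_vertical hw.pos hd (M := M) (fun k hk hkD a b => by
    rw [hw']
    exact hM g.adj hga k hk hkD a b) hr hE (hee s hs) hb
  rw [e0, e1]
  refine (abs_add_le _ _).trans ((add_le_add b1 b2).trans_eq ?_)
  ring

end Pool.Agent.P.MP_8b7eba_nt.R1
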