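import Pool.Agent.P.MP_8b7eba_nt.R1.AvK

/-! A Harnack type estimate on the modular curve. -/

namespace Pool.Agent.P.MP_8b7eba_nt.R1

open Complex Filter Topology MeasureTheory Metric Finset Asymptotics PowerSeries
open scoped Real UpperHalfPlane MatrixGroups ComplexConjugate
open _root_.Pool.Agent.P.MP_8b7eba_nt.Mod (M2 G0 FI L0 om lv xx yy qq UH atI ex mT)
open BSD15 (OO Good cls gch gJ nm cj rho lam Adm B3 B5 No4 Xp XJ Rn)
open MP_9c97e9_nt (Pt pm Is)

theorem harn_box (z₁ : ℍ) : ∃ D : ℝ, 0 ≤ D ∧ ∀ g : M2, g.det = 1 → ∀ w : ℍ, 1 / 2 ≤ w.im →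
    w.im ≤ 2 → ∃ x : ℍ, dist x z₁ ≤ D ∧ ∃ γ, G0 γ ∧ γ.act x = g.act w := by
  classical
  let φ : M2 → ℝ := fun r =>
    if h : r.det = 1 then dist (toSL r h • UpperHalfPlane.I) z₁ else 0
  have hφ : ∀ r, 0 ≤ φ r := fun r => by
    simp only [φ]; split_ifs
    · exact dist_nonneg
    · exact le_rfl
  refine ⟨4 + ∑ i ∈ Finset.range 24, φ (Mod.reps.getD i 1),
    add_nonneg (by norm_num) (Finset.sum_nonneg fun i _ => hφ _), fun g hg w h1 h2 => ?_⟩
  set k : ℤ := round w.re with hk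
  have hd : (g * mT k).det = 1 := by simp [M2.det_mul, hg]
  obtain ⟨hr, hi, -⟩ := Mod.rep_spec (Mod.prim_of_det hd)
  set r := Mod.rep (g * mT k).c (g * mT k).d with hr'
  set w' : ℍ := toSL (mT (-k)) (Mod.det_mT _) • w with hw'
  have e1 : (w' : ℂ) = w - k := by
    rw [hw', coe_toSL, Mod.act_mT]; push_cast; ring
  refine ⟨toSL r hr • w', ?_, _, Mod.G0_mul_adj_rep hd, ?_⟩
  · have a1 : dist (toSL r hr • w') (toSL r hr • UpperHalfPlane.I) = dist w' UpperHalfPlane.I :=
      dist_smul _ _ _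
    have a2 : dist (toSL r hr • UpperHalfPlane.I) z₁ ≤
        ∑ i ∈ Finset.range 24, φ (Mod.reps.getD i 1) := by
      have := Finset.single_le_sum (f := fun i => φ (Mod.reps.getD i 1)) (fun i _ => hφ _)
        (Finset.mem_range.2 hi)
      refine le_trans (le_of_eq ?_) this
      change _ = φ r
      simp only [φ, dif_pos hr]
    have a3 : dist w' UpperHalfPlane.I ≤ 4 := by
      have him : w'.im = w.im := by
        rw [← UpperHalfPlane.coe_im, e1]; simp
      have hre : |(w' : ℂ).re| ≤ 1 / 2 := by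
        rw [e1]; simpa using abs_sub_round w.re
      have b1 : dist (w' : ℂ) (UpperHalfPlane.I : ℍ) ≤ 2 := by
        rw [Complex.dist_eq]
        refine (Complex.norm_le_abs_re_add_abs_im _).trans ?_
        have c1 : ((w' : ℂ) - (UpperHalfPlane.I : ℍ)).re = (w' : ℂ).re := by simp
        have c2 : ((w' : ℂ) - (UpperHalfPlane.I : ℍ)).im = w.im - 1 := by simp [him]
        rw [c1, c2]
        have : |w.im - 1| ≤ 1 := abs_le.2 ⟨by linarith, by linarith⟩
        linarith
      have b2 : (1 / 2 : ℝ) ≤ √(w'.im * (UpperHalfPlane.I : ℍ).im) := by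
        refine Real.le_sqrt_of_sq_le ?_
        rw [him, UpperHalfPlane.I_im]; linarith
      refine (UpperHalfPlane.dist_le_dist_coe_div_sqrt _ _).trans ?_
      rw [div_le_iff₀ (by linarith)]
      linarith
    linarith [dist_triangle (toSL r hr • w') (toSL r hr • UpperHalfPlane.I) z₁]
  · rw [coe_toSL, ← M2.act_mul (Mod.G0_mul_adj_rep hd).det_pos.ne' (by omega) w'.im_pos, mul_assoc,
      M2.adj_mul_self hr, mul_one, M2.act_mul (by omega) (by simp) w'.im_pos, Mod.act_mT, e1,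
      sub_add_cancel]

theorem harn_height (u : ℍ) : ∃ g : M2, g.det = 1 ∧ ∃ v : ℍ, 1 / 2 ≤ v.im ∧ g.act v = u ∧
    Real.log v.im ≤ |Real.log u.im| := by
  obtain ⟨g, hg, w, h1, -, h2⟩ := exists_fd u u.im_pos
  have hw : 0 < w.im := by linarith
  refine ⟨g, hg, ⟨w, hw⟩, h1, h2, ?_⟩
  have hu : 0 < u.im := u.im_pos
  have e : g.adj.act u = w := by
    rw [← h2, ← M2.act_mul (by simp [hg]) (by omega) hw, M2.adj_mul_self hg, M2.act_one]
  have e2 : w.im = u.im / normSq (g.adj.j u) := by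
    rw [← e, M2.im_act, M2.det_adj, hg]; simp
  have hn : 0 < normSq (g.adj.j u) := normSq_pos.2 (M2.j_ne (by simp [hg]) hu)
  change Real.log w.im ≤ _
  by_cases hc : g.c = 0
  · have ha : g.a ≠ 0 := by
      rintro h; simp [M2.det, hc, h] at hg
    have : 1 ≤ normSq (g.adj.j u) := by
      simp only [M2.j, M2.adj_c, M2.adj_d, hc]
      have : (1 : ℝ) ≤ (g.a : ℝ) * g.a := by
        have : (1 : ℤ) ≤ g.a * g.a := by nlinarith [Int.one_le_abs ha, sq_abs g.a]
        exact_mod_cast this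
      simpa using this
    refine le_trans (Real.log_le_log hw ?_) (le_abs_self _)
    rw [e2, div_le_iff₀ hn]; nlinarith
  · have h3 : u.im ^ 2 ≤ normSq (g.adj.j u) := by
      have a1 : (g.adj.j u).im = -g.c * u.im := by simp [M2.j]
      have a2 : (1 : ℝ) ≤ (g.c : ℝ) ^ 2 := by
        have : (1 : ℤ) ≤ g.c ^ 2 := by nlinarith [Int.one_le_abs hc, sq_abs g.c]
        exact_mod_cast this
      rw [normSq_apply, a1]
      nlinarith [mul_self_nonneg (g.adj.j u).re, sq_nonneg u.im]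
    refine le_trans ?_ (neg_le_abs _)
    rw [← Real.log_inv]
    refine Real.log_le_log hw ?_
    rw [e2, div_le_iff₀ hn, ← div_eq_inv_mul, le_div_iff₀ hu]
    nlinarith

theorem harn_cmp {R : ℝ} (hR : 0 < R) {F : ℍ → ℝ} {x z : ℍ} (hF : IntegrableOn F (ball x R))
    (h0 : ∀ u ∈ ball x R, 0 ≤ F u) (hs : ball z 1 ⊆ ball x R) :
    av 1 F z ≤ (volume (ball UpperHalfPlane.I R)).toReal /
      (volume (ball UpperHalfPlane.I 1)).toReal * av R F x := by
  have p1 : 0 < (volume (ball UpperHalfPlane.I R)).toReal :=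
    ENNReal.toReal_pos (vol_ball_pos hR _).ne' (vol_ball_lt_top _ _).ne
  have p2 : 0 < (volume (ball UpperHalfPlane.I 1)).toReal :=
    ENNReal.toReal_pos (vol_ball_pos one_pos _).ne' (vol_ball_lt_top _ _).ne
  have h1 : ∫ u in ball z 1, F u ≤ ∫ u in ball x R, F u :=
    setIntegral_mono_set hF
      ((ae_restrict_iff' isOpen_ball.measurableSet).2 (Eventually.of_forall h0)) hs.eventuallyLE
  simp only [av, setAverage_eq, smul_eq_mul, measureReal_def]
  rw [vol_ball_eq 1 z UpperHalfPlane.I, vol_ball_eq R x UpperHalfPlane.I, ← mul_assoc,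
    div_mul_eq_mul_div, mul_inv_cancel₀ p1.ne', one_div]
  exact mul_le_mul_of_nonneg_left h1 (inv_pos.2 p2).le

theorem harnack (z₁ z₂ : ℍ) : ∃ R C : ℝ, 0 < R ∧ ∀ (W : ℂ → ℝ) (ε : ℝ), 0 < ε →
    (∀ g, G0 g → ∀ z : ℂ, 0 < z.im → W (g.act z) = W z) →
    (∃ M, ∀ z : ℂ, 0 < z.im → |W z| ≤ M) → (Measurable fun u : ℍ => W u) →
    (∀ z : ℍ, |av 1 (fun u => W u) z - W z| ≤ ε) → (∀ z : ℍ, |av R (fun u => W u) z - W z| ≤ ε) →
    |W z₁ - W z₂| ≤ C * ε := by
  obtain ⟨κ, hκ, hlog⟩ := av_log (r := 1) one_pos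
  obtain ⟨D, hD, hbox⟩ := harn_box z₁
  set R : ℝ := D + dist z₁ z₂ + 2 with hR
  have hd : 0 ≤ dist z₁ z₂ := dist_nonneg
  have hR0 : 0 < R := by linarith
  set L : ℝ := |Real.log z₁.im| + R + D with hL
  set q : ℝ := (volume (ball UpperHalfPlane.I R)).toReal /
      (volume (ball UpperHalfPlane.I 1)).toReal with hq
  have hq0 : 0 ≤ q := div_nonneg ENNReal.toReal_nonneg ENNReal.toReal_nonneg
  refine ⟨R, q * (2 + 2 / κ * (L + Real.log 2)) + 1, hR0, fun W ε hε hinv ⟨M, hM⟩ hm h1 hRav => ?_⟩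
  set c : ℝ := 2 * ε / κ with hc
  have hc0 : 0 < c := by positivity
  have hcκ : c * κ = 2 * ε := by rw [hc]; field_simp
  have hl2 : ∀ w : ℍ, 1 / 2 ≤ w.im → -Real.log 2 ≤ Real.log w.im := fun w hw => by
    rw [← Real.log_inv]
    exact Real.log_le_log (by norm_num) (by linarith)
  set T : Set ℝ := {t | ∃ g : M2, g.det = 1 ∧ ∃ w : ℍ, 1 / 2 ≤ w.im ∧
    t = W (g.act w) - c * Real.log w.im} with hT
  have hbd : BddAbove T := by
    refine ⟨M + c * Real.log 2, ?_⟩
    rintro t ⟨g, hg, w, hw, rfl⟩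
    have a1 := (abs_le.1 (hM _ (M2.im_act_pos (g := g) (by omega) w.im_pos))).2
    have a2 := mul_le_mul_of_nonneg_left (hl2 w hw) hc0.le
    linarith
  have hne : T.Nonempty := ⟨_, 1, M2.det_one, UpperHalfPlane.I, by simp; norm_num, rfl⟩
  set S := sSup T with hS
  have hle : ∀ g : M2, g.det = 1 → ∀ w : ℍ, 1 / 2 ≤ w.im →
      W (g.act w) - c * Real.log w.im ≤ S := fun g hg w hw => le_csSup hbd ⟨g, hg, w, hw, rfl⟩
  obtain ⟨t, ⟨g, hg, w, hw, rfl⟩, ht⟩ := exists_lt_of_lt_csSup hne (show S - ε < S by linarith)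
  have hint : ∀ (z : ℍ) (r : ℝ), IntegrableOn (fun u : ℍ => W u) (ball z r) := fun z r =>
    integrableOn_ball_of_le hm fun u _ => hM _ u.im_pos
  have hw2 : w.im ≤ 2 := by
    by_contra hlt
    push Not at hlt
    have i1 : IntegrableOn (fun u : ℍ => W (toSL g hg • u : ℍ)) (ball w 1) :=
      integrableOn_ball_of_le (hm.comp (continuous_const_smul _).measurable)
        fun u _ => hM _ (toSL g hg • u).im_pos
    have cl : Continuous fun u : ℍ => Real.log u.im :=
      UpperHalfPlane.continuous_im.log fun u => u.im_pos.ne'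
    have i2 : IntegrableOn (fun u : ℍ => c * Real.log u.im) (ball w 1) :=
      integrableOn_ball (continuous_const.mul cl) _ _
    have a1 := av_mono (i1.sub i2) (integrableOn_ball (continuous_const (y := S)) w 1)
      fun u hu => by
        have b1 := (mem_ball_bounds hu).1
        have b2 : (1 / 4 : ℝ) ≤ Real.exp (-1) := by
          rw [Real.exp_neg, ← one_div]
          exact one_div_le_one_div_of_le (Real.exp_pos _) (by linarith [Real.exp_one_lt_d9])
        have b3 := hle g hg u (by nlinarith)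
        simpa [coe_toSL] using b3
    have a2 := av_sub i1 i2
    rw [av_smul (toSL g hg) (fun u => W u), av_mul, hlog] at a2
    rw [av_const one_pos] at a1
    have a3 := (abs_le.1 (h1 (toSL g hg • w))).1
    rw [coe_toSL] at a3
    have a4 : av 1 (fun u : ℍ => W (toSL g hg • u : ℍ) - c * Real.log u.im) w ≤ S := a1
    nlinarith
  obtain ⟨x, hx, γ, hγ, hγx⟩ := hbox g hg w hw hw2
  have hWx : S - ε - c * Real.log 2 ≤ W x := by
    rw [← hinv γ hγ x x.im_pos, hγx]
    have := mul_le_mul_of_nonneg_left (hl2 w hw) hc0.le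
    linarith
  have hup : ∀ u ∈ ball x R, 0 ≤ S + c * L - W u := fun u hu => by
    obtain ⟨g', hg', v, hv, e, hl⟩ := harn_height u
    have a1 := hle g' hg' v hv
    rw [e] at a1
    have a2 := UpperHalfPlane.dist_log_im_le u z₁
    have a3 := dist_triangle u x z₁
    have a4 := mem_ball.1 hu
    rw [Real.dist_eq] at a2
    have a5 := abs_sub_abs_le_abs_sub (Real.log u.im) (Real.log z₁.im)
    have a6 := mul_le_mul_of_nonneg_left (show Real.log v.im ≤ L by linarith) hc0.le
    linarith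
  have hav : ∀ {r : ℝ}, 0 < r → ∀ z : ℍ,
      av r (fun u : ℍ => S + c * L - W u) z = S + c * L - av r (fun u : ℍ => W u) z :=
    fun hr z => by
      rw [av_sub (integrableOn_ball continuous_const _ _) (hint _ _), av_const hr]
  have key : ∀ z : ℍ, dist z x + 1 ≤ R → 0 ≤ S + c * L - W z ∧
      S + c * L - W z ≤ (q * (2 + 2 / κ * (L + Real.log 2)) + 1) * ε := fun z hz => by
    refine ⟨hup z (mem_ball.2 (by linarith)), ?_⟩
    have a1 := harn_cmp hR0 ((integrableOn_ball continuous_const _ _).sub (hint x R)) hup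
      (ball_subset_ball' (x := z) (ε₁ := 1) (by linarith))
    have a2 : av 1 (fun u : ℍ => S + c * L - W u) z ≤
        q * av R (fun u : ℍ => S + c * L - W u) x := a1
    rw [hav one_pos, hav hR0] at a2
    have a3 := (abs_le.1 (hRav x)).1
    have a4 := (abs_le.1 (h1 z)).2
    have a5 : S + c * L - av R (fun u : ℍ => W u) x ≤ (2 + 2 / κ * (L + Real.log 2)) * ε := by
      have : (2 + 2 / κ * (L + Real.log 2)) * ε = 2 * ε + c * L + c * Real.log 2 := by
        rw [hc]; ring
      linarith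
    have a6 := mul_le_mul_of_nonneg_left a5 hq0
    nlinarith
  have k1 := key z₁ (by rw [dist_comm]; linarith)
  have k2 := key z₂ (by linarith [dist_triangle z₂ z₁ x, dist_comm z₁ z₂, dist_comm x z₁])
  exact abs_le.2 ⟨by linarith, by linarith⟩

end Pool.Agent.P.MP_8b7eba_nt.R1
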