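import Pool.Agent.P.MP_8b7eba_nt.R1.Geo

/-! The step function and the limit of the Green functions. -/

namespace Pool.Agent.P.MP_8b7eba_nt.R1

open Complex Filter Topology MeasureTheory Metric Finset Asymptotics PowerSeries
open scoped Real UpperHalfPlane MatrixGroups ComplexConjugate
open _root_.Pool.Agent.P.MP_8b7eba_nt.Mod (M2 G0 FI L0 om lv xx yy qq UH atI ex mT)
open BSD15 (OO Good cls gch gJ nm cj rho lam Adm B3 B5 No4 Xp XJ Rn)
open MP_9c97e9_nt (Pt pm Is)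

variable {D : ℤ} {w : QF → ℤ} {α β : ℚ} {r : ℝ} {z u : ℂ} {g : M2}

theorem stv_fin (hw : Wt D w) (hz : 0 < z.im) :
    Function.HasFiniteSupport fun Q : QF => (w Q : ℝ) * ((sn (Q.tt z) - sn (Q.ev 1 3)) / 2) := by
  refine (finite_cusp hw.pos 1 3 hz).subset fun Q hQ => ?_
  have h1 : w Q ≠ 0 := fun h => hQ (by simp [h])
  exact ⟨hw.disc Q h1, hw.ne Q h1, fun h => hQ (by simp [h])⟩

theorem St_act (hw : Wt D w) (hg : G0 g) (hz : 0 < z.im) :
    St w (g.act z) = St w z + jj w g := by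
  have h1 := stv_fin hw (M2.im_act_pos hg.det_pos hz)
  have h2 : Function.HasFiniteSupport fun Q : QF => (w (QF.cmpE hg.1 Q) : ℝ) *
      ((sn ((QF.cmpE hg.1 Q).tt z) - sn ((QF.cmpE hg.1 Q).ev 1 3)) / 2) :=
    (Set.Finite.preimage (QF.cmpE hg.1).injective.injOn (stv_fin hw hz)).subset fun Q hQ => hQ
  have h3 : St w z = ∑ᶠ Q : QF, (w (QF.cmpE hg.1 Q) : ℝ) *
      ((sn ((QF.cmpE hg.1 Q).tt z) - sn ((QF.cmpE hg.1 Q).ev 1 3)) / 2) :=
    (finsum_comp_equiv (QF.cmpE hg.1)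
      (f := fun Q : QF => (w Q : ℝ) * ((sn (Q.tt z) - sn (Q.ev 1 3)) / 2))).symm
  rw [← sub_eq_iff_eq_add', h3, St, ← finsum_sub_distrib h1 h2, jj]
  refine finsum_congr fun Q => ?_
  rw [QF.cmpE_apply, hw.inv Q g hg, QF.tt_cmp Q hg.det_pos hz, QF.ev_cmp, mul_one, mul_one,
    mul_comm g.b, mul_comm g.d]
  ring

theorem rq_St (w : QF → ℤ) (z : ℂ) : Rq (St w z) :=
  finsum_induction Rq ⟨0, by simp⟩ (fun _ _ => Rq.add) fun Q =>
    (rq_int _).mul (((rq_sn _).sub (rq_sn _)).div ⟨2, by simp⟩)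

theorem St_sub (hw : Wt D w) (hz : 0 < z.im) (hu : 0 < u.im) :
    St w u - St w z = ∑ᶠ Q : QF, w Q * ((sn (Q.tt u) - sn (Q.tt z)) / 2) := by
  rw [St, St, ← finsum_sub_distrib (stv_fin hw hu) (stv_fin hw hz)]
  exact finsum_congr fun Q => by ring

theorem St_meas (hw : Wt D w) : Measurable fun u : ℍ => St w u := by
  have e : (fun u : ℍ => St w u) =
      fun u : ℍ => ∑' Q : QF, (w Q : ℝ) * ((sn (Q.tt u) - sn (Q.ev 1 3)) / 2) :=
    funext fun u => (tsum_eq_finsum (stv_fin hw u.im_pos)).symm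
  rw [e]
  exact Measurable.tsum fun Q =>
    (((sn_meas.comp (tt_cont Q).measurable).sub_const _).div_const _).const_mul _

theorem stv_lf_add (α β : ℚ) (x y : ℂ) : lf α β (x + y) = lf α β x + lf α β y := by
  simp only [lf, add_re, add_im]
  ring

theorem stv_FI_cont : Continuous fun u : ℍ => FI u :=
  Mod.diff_FI.continuousOn.comp_continuous UpperHalfPlane.continuous_coe fun u => u.im_pos

theorem stv_lf_cont (α β : ℚ) : Continuous (lf α β) := by
  unfold lf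
  fun_prop

/-- a bound for the sums of jumps -/
theorem stv_abs_le (hw : Wt D w) {S : Set QF} (hS : S.Finite) {a b : QF → ℝ}
    (h : ∀ Q, w Q ≠ 0 → sn (a Q) ≠ sn (b Q) → Q ∈ S) :
    |∑ᶠ Q : QF, (w Q : ℝ) * ((sn (a Q) - sn (b Q)) / 2)| ≤ hS.toFinset.card := by
  rw [finsum_eq_sum_of_support_subset _ (s := hS.toFinset) fun Q hQ => by
    rw [Finset.mem_coe, Set.Finite.mem_toFinset]
    exact h Q (fun h => hQ (by simp [h])) fun h => hQ (by simp [h])]
  refine (Finset.abs_sum_le_sum_abs _ _).trans ?_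
  refine (Finset.sum_le_card_nsmul _ _ 1 fun Q _ => ?_).trans (by simp)
  have h1 : |(w Q : ℝ)| ≤ 1 := by exact_mod_cast hw.le Q
  have h2 : |(sn (a Q) - sn (b Q)) / 2| ≤ 1 := by
    have := abs_le.1 (abs_sn_le (a Q))
    have := abs_le.1 (abs_sn_le (b Q))
    rw [abs_le]
    constructor <;> linarith
  rw [abs_mul]
  exact mul_le_one₀ h1 (abs_nonneg _) h2

theorem stv_fin_F (hD : 0 < D) : {Q : QF | Q.disc = D ∧
    ∃ z : ℂ, 1 / 2 ≤ z.im ∧ |z.re| ≤ 1 / 2 ∧ sn (Q.tt z) ≠ sn (Q.tt I)}.Finite := by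
  refine ((finite_strip hD (δ := 1 / 2) (by norm_num) (1 / 2)).union
    (((Set.finite_Icc (-D) D).prod (Set.finite_Icc (-D) D)).image
      fun p : ℤ × ℤ => (⟨0, p.1, p.2⟩ : QF))).subset ?_
  rintro ⟨A, B, C⟩ ⟨hQ, z, h1, h2, h3⟩
  by_cases hA : A = 0
  · subst hA
    right
    have hB : B ^ 2 = D := by simpa [QF.disc] using hQ
    have hB1 : -D ≤ B ∧ B ≤ D := by
      constructor <;> nlinarith [sq_nonneg (2 * B - 1), sq_nonneg (2 * B + 1)]
    refine ⟨(B, C), ⟨hB1, ?_⟩, rfl⟩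
    by_contra hC
    apply h3
    have hs : (0 : ℝ) < √((QF.mk 0 B C).disc : ℝ) := Real.sqrt_pos.2 (by
      rw [hQ]; exact_mod_cast hD)
    have hz : 0 < z.im := by linarith
    have hB2 : (-D : ℝ) ≤ B ∧ (B : ℝ) ≤ D := ⟨by exact_mod_cast hB1.1, by exact_mod_cast hB1.2⟩
    have hD' : (0 : ℝ) < D := by exact_mod_cast hD
    have h4 := abs_le.1 h2
    have h5 : -(D : ℝ) ≤ B * z.re ∧ B * z.re ≤ D := by
      constructor <;> nlinarith [hB2.1, hB2.2, h4.1, h4.2]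
    simp only [QF.tt, Int.cast_zero, zero_mul, zero_add, I_re, I_im, mul_zero, one_mul, sn]
    rcases lt_or_ge C (-D) with h6 | h6
    · have h7 : (C : ℝ) < -D := by exact_mod_cast h6
      rw [sign_neg (div_neg_of_neg_of_pos (by linarith) (mul_pos hz hs)),
        sign_neg (div_neg_of_neg_of_pos (by linarith) hs)]
    · have h6' : D < C := by
        by_contra h
        exact hC ⟨h6, not_lt.1 h⟩
      have h7 : (D : ℝ) < C := by exact_mod_cast h6'
      rw [sign_pos (div_pos (by linarith) (mul_pos hz hs)), sign_pos (div_pos (by linarith) hs)]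
  · left
    refine ⟨hQ, hA, ?_⟩
    by_cases h4 : sn ((QF.mk A B C).tt z) = sn ((QF.mk A B C).A : ℝ)
    · exact ⟨I, by norm_num, by norm_num, fun h => h3 (h4.trans h.symm)⟩
    · exact ⟨z, h1, h2, h4⟩

theorem stv_FI_bdd (hg : g.det = 1) :
    ∃ M : ℝ, ∀ z : ℂ, 1 / 2 ≤ z.im → |z.re| ≤ 1 / 2 → ‖FI (g.act z)‖ ≤ M := by
  have hg0 : 0 < g.det := by omega
  have h1 := (Mod.tendsto_lv hg0).norm.eventually (eventually_le_nhds (lt_add_one _))
  rw [eventually_comap] at h1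
  obtain ⟨Y, hY⟩ := eventually_atTop.1 h1
  have hK : IsCompact (Set.Icc (-(1 / 2) : ℝ) (1 / 2) ×ℂ Set.Icc (1 / 2 : ℝ) Y) :=
    isCompact_Icc.reProdIm isCompact_Icc
  have hc : ContinuousOn (fun z => FI (g.act z))
      (Set.Icc (-(1 / 2) : ℝ) (1 / 2) ×ℂ Set.Icc (1 / 2 : ℝ) Y) := by
    intro z hz
    have hz' : 0 < z.im := lt_of_lt_of_le (by norm_num) hz.2.1
    exact ((Mod.hasDerivAt_FI (M2.im_act_pos hg0 hz')).continuousAt.comp
      (M2.hasDerivAt_act hg0.ne' hz').continuousAt).continuousWithinAt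
  obtain ⟨M, hM⟩ := hK.exists_bound_of_continuousOn hc
  refine ⟨max M (‖lv g.a g.c‖ + 1), fun z h2 h3 => ?_⟩
  rcases le_total z.im Y with h4 | h4
  · exact (hM z ⟨abs_le.1 h3, h2, h4⟩).trans (le_max_left _ _)
  · exact (hY _ h4 z rfl).trans (le_max_right _ _)

theorem stv_V1_bdd (hw : Wt D w) (α β : ℚ) (hg : g.det = 1) :
    ∃ M : ℝ, ∀ z : ℂ, 1 / 2 ≤ z.im → |z.re| ≤ 1 / 2 → |V1 w α β (g.act z)| ≤ M := by
  have hg0 : 0 < g.det := by omega
  obtain ⟨M, hM⟩ := stv_FI_bdd hg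
  obtain ⟨M', hM'⟩ := (isCompact_closedBall (0 : ℂ) M).exists_bound_of_continuousOn
    (stv_lf_cont α β).continuousOn
  have hS := (stv_fin_F hw.pos).preimage (QF.cmpE hg).injective.injOn
  refine ⟨π * (hS.toFinset.card + |St w (g.act I)| + M'), fun z h1 h2 => ?_⟩
  have hz : 0 < z.im := by linarith
  have hI : 0 < I.im := by simp
  have h3 := stv_abs_le hw hS (a := fun Q => Q.tt (g.act z)) (b := fun Q => Q.tt (g.act I))
    fun Q hQ h => ⟨by rw [QF.cmpE_apply, QF.disc_cmp, hg, hw.disc Q hQ]; ring, z, h1, h2, by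
      rwa [QF.cmpE_apply, QF.tt_cmp Q hg0 hz, QF.tt_cmp Q hg0 hI]⟩
  rw [← St_sub hw (M2.im_act_pos hg0 hI) (M2.im_act_pos hg0 hz)] at h3
  have h4 := hM' _ (mem_closedBall_zero_iff.2 (hM z h1 h2))
  rw [Real.norm_eq_abs] at h4
  rw [V1, abs_mul, abs_of_pos Real.pi_pos]
  refine mul_le_mul_of_nonneg_left ?_ Real.pi_pos.le
  have h5 := abs_le.1 h3
  have h6 := abs_le.1 h4
  have h7 := le_abs_self (St w (g.act I))
  have h8 := neg_abs_le (St w (g.act I))
  rw [abs_le]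
  constructor <;> linarith

theorem V1_act (hw : Wt D w) (hd : Dual w α β) (hg : G0 g) (hz : 0 < z.im) :
    V1 w α β (g.act z) = V1 w α β z := by
  rw [V1, V1, St_act hw hg hz, Mod.FI_act hg.det_pos (ε := 1)
    (fun z hz => by simpa using (Mod.ff_inv g hg).sl_eq hg.1 hz) hz, one_mul, stv_lf_add, hd g hg]
  ring

theorem V1_meas (hw : Wt D w) (α β : ℚ) : Measurable fun u : ℍ => V1 w α β u :=
  ((St_meas hw).sub ((stv_lf_cont α β).comp stv_FI_cont).measurable).const_mul _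

theorem V1_bdd (hw : Wt D w) (hd : Dual w α β) :
    ∃ M : ℝ, ∀ z : ℂ, 0 < z.im → |V1 w α β z| ≤ M := by
  have h1 : ∀ i : Fin 24, ∃ M : ℝ, ∀ z : ℂ, 1 / 2 ≤ z.im → |z.re| ≤ 1 / 2 →
      |V1 w α β ((Mod.reps.getD i 1).act z)| ≤ M := fun i =>
    stv_V1_bdd hw α β (Mod.perm_spec i i.2).1
  choose M hM using h1
  obtain ⟨B, hB⟩ := (Set.finite_range M).bddAbove
  refine ⟨B, fun z hz => ?_⟩
  obtain ⟨g, hg, u, h1, h2, rfl⟩ := exists_fd z hz
  have h3 := Mod.rep_spec (Mod.prim_of_det hg)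
  have h4 := Mod.G0_mul_adj_rep hg
  have hu : 0 < u.im := by linarith
  have h5 : 0 < (Mod.rep g.c g.d).det := by rw [h3.1]; exact one_pos
  have e : g.act u = (g * (Mod.rep g.c g.d).adj).act ((Mod.rep g.c g.d).act u) := by
    rw [← M2.act_mul h4.det_pos.ne' h5 hu, mul_assoc, M2.adj_mul_self h3.1, mul_one]
  rw [e, V1_act hw hd h4 (M2.im_act_pos h5 hu)]
  exact (hM ⟨_, h3.2.1⟩ u h1 h2).trans (hB ⟨_, rfl⟩)

theorem av_V1 (hw : Wt D w) (α β : ℚ) (hr : 0 < r) (z : ℍ) :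
    av r (fun u => V1 w α β u) z = V1 w α β z +
      av r (fun u => π * ∑ᶠ Q : QF, w Q * ((sn (Q.tt u) - sn (Q.tt z)) / 2)) z := by
  have hS := finite_ball hw.pos z r
  have m1 : Measurable fun u : ℍ =>
      π * ∑ᶠ Q : QF, (w Q : ℝ) * ((sn (Q.tt u) - sn (Q.tt z)) / 2) := by
    have e : (fun u : ℍ => π * ∑ᶠ Q : QF, (w Q : ℝ) * ((sn (Q.tt u) - sn (Q.tt z)) / 2)) =
        fun u : ℍ => π * (St w u - St w z) :=
      funext fun u => by rw [St_sub hw z.im_pos u.im_pos]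
    rw [e]
    exact ((St_meas hw).sub_const _).const_mul _
  have i1 := integrableOn_ball_of_le m1 (z := z) (r := r) (M := π * hS.toFinset.card)
    fun u hu => by
      rw [abs_mul, abs_of_pos Real.pi_pos]
      exact mul_le_mul_of_nonneg_left (stv_abs_le hw hS (a := fun Q => Q.tt u)
        (b := fun Q => Q.tt z) fun Q hQ h => ⟨hw.disc Q hQ, u, hu, h⟩) Real.pi_pos.le
  have c1 : Continuous fun u : ℍ => -π * α / (4 * L0) * (FI u).re :=
    (continuous_re.comp stv_FI_cont).const_mul _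
  have c2 : Continuous fun u : ℍ => -π * β / (2 * om) * (FI u).im :=
    (continuous_im.comp stv_FI_cont).const_mul _
  have e : (fun u : ℍ => V1 w α β u) = fun u : ℍ =>
      (π * St w z + (-π * α / (4 * L0) * (FI u).re + -π * β / (2 * om) * (FI u).im)) +
        π * ∑ᶠ Q : QF, (w Q : ℝ) * ((sn (Q.tt u) - sn (Q.tt z)) / 2) := by
    funext u
    rw [← St_sub hw z.im_pos u.im_pos, V1, lf]
    ring
  have h := av_hol hr Mod.diff_FI z
  have c3 : Continuous fun u : ℍ =>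
      -π * α / (4 * L0) * (FI u).re + -π * β / (2 * om) * (FI u).im := c1.add c2
  have c4 : Continuous fun u : ℍ => π * St w z +
      (-π * α / (4 * L0) * (FI u).re + -π * β / (2 * om) * (FI u).im) := continuous_const.add c3
  rw [e, av_add (integrableOn_ball c4 z r) i1,
    av_add (integrableOn_ball continuous_const z r) (integrableOn_ball c3 z r),
    av_add (integrableOn_ball c1 z r) (integrableOn_ball c2 z r), av_const hr, av_mul, av_mul,
    h.1, h.2, V1, lf]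
  ring

end Pool.Agent.P.MP_8b7eba_nt.R1
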