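import Pool.Agent.P.MP_8b7eba_nt.R1.Bdd
import Pool.Agent.P.MP_8b7eba_nt.R1.Err
import Pool.Agent.P.MP_8b7eba_nt.R1.StV
import Pool.Agent.P.MP_8b7eba_nt.R1.Harn

/-! The limit of the Green functions at `s = 1`. -/

namespace Pool.Agent.P.MP_8b7eba_nt.R1

open Complex Filter Topology MeasureTheory Metric Finset Asymptotics PowerSeries
open scoped Real UpperHalfPlane MatrixGroups ComplexConjugate
open _root_.Pool.Agent.P.MP_8b7eba_nt.Mod (M2 G0 FI L0 om lv xx yy qq UH atI ex mT)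
open BSD15 (OO Good cls gch gJ nm cj rho lam Adm B3 B5 No4 Xp XJ Rn)
open MP_9c97e9_nt (Pt pm Is)

variable {D : ℤ} {w : QF → ℤ} {α β : ℚ}

theorem amain_fin (hw : Wt D w) (z : ℍ) (r : ℝ) : ∃ T : Finset QF, ∀ u ∈ ball z r,
    ∀ f : QF → ℝ, ∑ᶠ Q : QF, (w Q : ℝ) * (f Q * ((sn (Q.tt u) - sn (Q.tt z)) / 2)) =
      ∑ Q ∈ T, (w Q : ℝ) * (f Q * ((sn (Q.tt u) - sn (Q.tt z)) / 2)) := by
  refine ⟨(finite_ball hw.pos z r).toFinset, fun u hu f => ?_⟩
  refine finsum_eq_sum_of_support_subset _ fun Q hQ => ?_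
  rw [Set.Finite.coe_toFinset]
  have hQ' : (w Q : ℝ) * (f Q * ((sn (Q.tt u) - sn (Q.tt z)) / 2)) ≠ 0 := hQ
  refine ⟨hw.disc Q fun h => hQ' (by simp [h]), u, hu, fun h => hQ' (by simp [h])⟩

theorem amain_int (hw : Wt D w) (z : ℍ) (r : ℝ) {φ : ℝ → ℝ} (hφ : Continuous φ) :
    IntegrableOn (fun u : ℍ => ∑ᶠ Q : QF,
      (w Q : ℝ) * (φ (Q.tt u) * ((sn (Q.tt u) - sn (Q.tt z)) / 2))) (ball z r) := by
  obtain ⟨T, hT⟩ := amain_fin hw z r
  have h : IntegrableOn (fun u : ℍ => ∑ Q ∈ T,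
      (w Q : ℝ) * (φ (Q.tt u) * ((sn (Q.tt u) - sn (Q.tt z)) / 2))) (ball z r) := by
    refine integrable_finsetSum _ fun Q _ => Integrable.const_mul ?_ _
    have h1 : IntegrableOn (fun u : ℍ => φ (Q.tt u)) (ball z r) :=
      integrableOn_ball (hφ.comp (tt_cont Q)) z r
    have h2 : Measurable fun u : ℍ => (sn (Q.tt u) - sn (Q.tt z)) / 2 :=
      ((sn_meas.comp (tt_cont Q).measurable).sub_const _).div_const _
    refine Integrable.mul_bdd (c := 1) h1 h2.aestronglyMeasurable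
      (Eventually.of_forall fun u => ?_)
    have a1 := abs_le.1 (abs_sn_le (Q.tt u))
    have a2 := abs_le.1 (abs_sn_le (Q.tt z))
    rw [Real.norm_eq_abs, abs_le]
    constructor <;> linarith [a1.1, a1.2, a2.1, a2.2]
  exact h.congr_fun (fun u hu => (hT u hu fun Q => φ (Q.tt u)).symm) measurableSet_ball

theorem amain_key (hw : Wt D w) (hv : VB D w) (hd : Dual w α β) {r : ℝ} (hr : 0 < r) :
    ∃ C : ℝ, ∀ s ∈ Set.Ioc (1 : ℝ) (3 / 2), ∀ z : ℍ,
      |av r (fun u => VV w s u - V1 w α β u) z -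
        (kk r s * (VV w s z - V1 w α β z) + (kk r s - 1) * V1 w α β z)| ≤ C * (s - 1) := by
  obtain ⟨C, hC⟩ := err_bound hw hv hr
  obtain ⟨M, hM⟩ := V1_bdd hw hd
  refine ⟨C, fun s hs z => ?_⟩
  have hs2 : s ≤ 2 := by linarith [hs.2]
  obtain ⟨M', hM'⟩ := VV_bdd hw hv hs.1 hs2
  have i1 : IntegrableOn (fun u : ℍ => VV w s u) (ball z r) :=
    integrableOn_ball_of_le (VV_meas hw hs.1 hs2) fun u _ => hM' u u.im_pos
  have i2 : IntegrableOn (fun u : ℍ => V1 w α β u) (ball z r) :=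
    integrableOn_ball_of_le (V1_meas hw α β) fun u _ => hM u u.im_pos
  have i3 := amain_int hw z r (ee_cont hs.1.le)
  have i4 : IntegrableOn (fun u : ℍ => π * ∑ᶠ Q : QF,
      (w Q : ℝ) * ((sn (Q.tt u) - sn (Q.tt z)) / 2)) (ball z r) := by
    have := (amain_int hw z r (φ := fun _ => 1) continuous_const).const_mul π
    simp only [one_mul] at this
    exact this
  have e := av_sub i3 i4
  have b := abs_av_le hr (z := z) (M := C * (s - 1)) (f := fun u : ℍ => (∑ᶠ Q : QF,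
      (w Q : ℝ) * (ee s (Q.tt u) * ((sn (Q.tt u) - sn (Q.tt z)) / 2))) - π * ∑ᶠ Q : QF,
      (w Q : ℝ) * ((sn (Q.tt u) - sn (Q.tt z)) / 2)) (by
    intro u hu
    obtain ⟨T, hT⟩ := amain_fin hw z r
    have h1 := hC s ⟨hs.1.le, hs.2⟩ z u hu
    have h2 := hT u hu fun _ => 1
    simp only [one_mul] at h2
    rw [hT u hu fun Q => ee s (Q.tt u) - π] at h1
    rw [hT u hu fun Q => ee s (Q.tt u), h2, Finset.mul_sum, ← Finset.sum_sub_distrib]
    refine le_of_eq_of_le (congrArg _ (Finset.sum_congr rfl fun Q _ => ?_)) h1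
    ring)
  rw [av_sub i1 i2, av_VV hw hr hs.1 hs2, av_V1 hw α β hr]
  rw [e] at b
  refine le_of_eq_of_le (congrArg _ ?_) b
  ring

theorem amain_bdd (hw : Wt D w) (hv : VB D w) (hd : Dual w α β) :
    ∃ S : ℝ, ∀ s ∈ Set.Ioc (1 : ℝ) (3 / 2), ∀ z : ℍ, |VV w s z - V1 w α β z| ≤ S := by
  obtain ⟨C, hC⟩ := amain_key hw hv hd one_pos
  obtain ⟨M, hM⟩ := V1_bdd hw hd
  obtain ⟨κ, K, hκ, hk⟩ := kk_bounds (r := 1) one_pos
  refine ⟨(K * M + C) / κ, fun s hs => ?_⟩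
  have hs2 : s ≤ 2 := by linarith [hs.2]
  have hs1 : 0 < s - 1 := by linarith [hs.1]
  obtain ⟨M', hM'⟩ := VV_bdd hw hv hs.1 hs2
  obtain ⟨k1, k2⟩ := hk s ⟨hs.1.le, hs.2⟩
  have k0 : 0 < kk 1 s - 1 := (mul_pos hκ hs1).trans_le k1
  have hM0 : 0 ≤ M := (abs_nonneg _).trans (hM I (by simp))
  have hb : BddAbove (Set.range fun z : ℍ => |VV w s z - V1 w α β z|) := by
    refine ⟨M' + M, ?_⟩
    rintro _ ⟨z, rfl⟩
    exact (abs_sub _ _).trans (add_le_add (hM' z z.im_pos) (hM z z.im_pos))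
  set S := ⨆ z : ℍ, |VV w s z - V1 w α β z| with hS
  have h1 : ∀ z : ℍ, |VV w s z - V1 w α β z| ≤ S := fun z => le_ciSup hb z
  have h2 : ∀ z : ℍ, |VV w s z - V1 w α β z| ≤ (S + (K * M + C) * (s - 1)) / kk 1 s := by
    intro z
    have a1 := abs_le.1 (hC s hs z)
    have a2 := abs_le.1
      (abs_av_le one_pos (z := z) (f := fun u : ℍ => VV w s u - V1 w α β u) fun u _ => h1 u)
    have a3 : |(kk 1 s - 1) * V1 w α β z| ≤ K * (s - 1) * M := by
      rw [abs_mul, abs_of_pos k0]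
      exact mul_le_mul k2 (hM z z.im_pos) (abs_nonneg _) (k0.le.trans k2)
    have a4 := abs_le.1 a3
    rw [le_div_iff₀ (by linarith), ← abs_of_pos (show 0 < kk 1 s by linarith), ← abs_mul, abs_le]
    constructor <;> linarith [a1.1, a1.2, a2.1, a2.2, a4.1, a4.2]
  have h3 : S ≤ (S + (K * M + C) * (s - 1)) / kk 1 s := ciSup_le h2
  rw [le_div_iff₀ (by linarith)] at h3
  have h0 : 0 ≤ S := (abs_nonneg _).trans (h1 UpperHalfPlane.I)
  have h4 : S * κ * (s - 1) ≤ (K * M + C) * (s - 1) := by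
    have := mul_le_mul_of_nonneg_left k1 h0
    linarith
  have h5 : S ≤ (K * M + C) / κ := by
    rw [le_div_iff₀ hκ]
    exact le_of_mul_le_mul_right h4 hs1
  exact fun z => (h1 z).trans h5

theorem amain_av (hw : Wt D w) (hv : VB D w) (hd : Dual w α β) {r : ℝ} (hr : 0 < r) :
    ∃ C : ℝ, ∀ s ∈ Set.Ioc (1 : ℝ) (3 / 2), ∀ z : ℍ,
      |av r (fun u => VV w s u - V1 w α β u) z - (VV w s z - V1 w α β z)| ≤ C * (s - 1) := by
  obtain ⟨C, hC⟩ := amain_key hw hv hd hr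
  obtain ⟨M, hM⟩ := V1_bdd hw hd
  obtain ⟨S, hS⟩ := amain_bdd hw hv hd
  obtain ⟨κ, K, hκ, hk⟩ := kk_bounds hr
  refine ⟨C + K * S + K * M, fun s hs z => ?_⟩
  have hs1 : 0 < s - 1 := by linarith [hs.1]
  obtain ⟨k1, k2⟩ := hk s ⟨hs.1.le, hs.2⟩
  have k0 : 0 < kk r s - 1 := (mul_pos hκ hs1).trans_le k1
  have a1 := abs_le.1 (hC s hs z)
  have a3 : |(kk r s - 1) * V1 w α β z| ≤ K * (s - 1) * M := by
    rw [abs_mul, abs_of_pos k0]
    exact mul_le_mul k2 (hM z z.im_pos) (abs_nonneg _) (k0.le.trans k2)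
  have a2 : |(kk r s - 1) * (VV w s z - V1 w α β z)| ≤ K * (s - 1) * S := by
    rw [abs_mul, abs_of_pos k0]
    exact mul_le_mul k2 (hS s hs z) (abs_nonneg _) (k0.le.trans k2)
  have a4 := abs_le.1 a3
  have a5 := abs_le.1 a2
  rw [abs_le]
  constructor <;> linarith [a1.1, a1.2, a4.1, a4.2, a5.1, a5.2]

theorem amain (hw : Wt D w) (hv : VB D w) (hd : Dual w α β) {z₁ z₂ : ℂ} (h₁ : 0 < z₁.im)
    (h₂ : 0 < z₂.im) :
    Tendsto (fun s => VV w s z₁ - VV w s z₂) (𝓝[>] 1) (𝓝 (V1 w α β z₁ - V1 w α β z₂)) := by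
  obtain ⟨R, C, hR, hH⟩ := harnack ⟨z₁, h₁⟩ ⟨z₂, h₂⟩
  obtain ⟨C₁, hC₁⟩ := amain_av hw hv hd one_pos
  obtain ⟨C₂, hC₂⟩ := amain_av hw hv hd hR
  obtain ⟨S, hS⟩ := amain_bdd hw hv hd
  have key : ∀ s ∈ Set.Ioc (1 : ℝ) (3 / 2),
      |(VV w s z₁ - V1 w α β z₁) - (VV w s z₂ - V1 w α β z₂)| ≤
        C * ((|C₁| + |C₂| + 1) * (s - 1)) := by
    intro s hs
    have hs2 : s ≤ 2 := by linarith [hs.2]
    have hs1 : 0 < s - 1 := by linarith [hs.1]
    refine hH (fun z => VV w s z - V1 w α β z) _ (by positivity) (fun g hg z hz => ?_)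
      ⟨S, fun z hz => hS s hs ⟨z, hz⟩⟩ ((VV_meas hw hs.1 hs2).sub (V1_meas hw α β))
      (fun z => (hC₁ s hs z).trans ?_) fun z => (hC₂ s hs z).trans ?_
    · simp only [VV_G0 hw s hg hz, V1_act hw hd hg hz]
    · exact mul_le_mul_of_nonneg_right (by linarith [le_abs_self C₁, abs_nonneg C₂]) hs1.le
    · exact mul_le_mul_of_nonneg_right (by linarith [le_abs_self C₂, abs_nonneg C₁]) hs1.le
  have lim : Tendsto (fun s : ℝ => C * ((|C₁| + |C₂| + 1) * (s - 1))) (𝓝[>] 1) (𝓝 0) := by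
    have h : Continuous fun s : ℝ => C * ((|C₁| + |C₂| + 1) * (s - 1)) := by fun_prop
    have := (h.tendsto 1).mono_left (nhdsWithin_le_nhds (s := Set.Ioi 1))
    simpa using this
  rw [tendsto_iff_norm_sub_tendsto_zero]
  refine squeeze_zero' (Eventually.of_forall fun _ => norm_nonneg _) ?_ lim
  filter_upwards [Ioc_mem_nhdsGT (show (1 : ℝ) < 3 / 2 by norm_num)] with s hs
  refine le_of_eq_of_le ?_ (key s hs)
  rw [Real.norm_eq_abs]
  congr 1
  ring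

theorem odd_lim (hw : Wt D w) (hv : VB D w) (hd : Dual w α β) (hm : ∀ Q, w Q.mir = w Q) {z : ℂ}
    (hz : 0 < z.im) : ∃ q : ℚ,
      Tendsto (fun s => VV w s z) (𝓝[>] 1) (𝓝 (π * (q - β * ((FI z).im / (2 * om))))) := by
  have hz' : 0 < (-conj z).im := by simpa using hz
  have h := (amain hw hv hd hz hz').div_const 2
  obtain ⟨q, hq⟩ := ((rq_St w z).sub (rq_St w (-conj z))).div (rq_nat 2)
  refine ⟨q, ?_⟩
  have e : (V1 w α β z - V1 w α β (-conj z)) / 2 =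
      π * (q - β * ((FI z).im / (2 * om))) := by
    rw [← hq]
    simp only [V1, lf, Mod.FI_conj hz, conj_re, conj_im]
    push_cast
    ring
  rw [e] at h
  refine h.congr fun s => ?_
  rw [VV_mir hm]
  ring

theorem sum_lim (hw : Wt D w) (hv : VB D w) (hd : Dual w α β) {ι : Type} (T : Finset ι)
    (c : ι → ℤ) (z : ι → ℂ) (hz : ∀ i ∈ T, 0 < (z i).im) (h0 : ∑ i ∈ T, c i = 0) : ∃ q : ℚ,
      Tendsto (fun s => ∑ i ∈ T, (c i : ℝ) * VV w s (z i)) (𝓝[>] 1)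
        (𝓝 (π * (q - lf α β (∑ i ∈ T, c i * FI (z i))))) := by
  have hI : 0 < (I : ℂ).im := by simp
  have h := tendsto_finsetSum T fun i hi => (amain hw hv hd (hz i hi) hI).const_mul (c i : ℝ)
  obtain ⟨q, hq⟩ := Rq.sum (s := T) fun i _ => (rq_int (c i)).mul (rq_St w (z i))
  refine ⟨q, ?_⟩
  have h0' : ∑ i ∈ T, (c i : ℝ) = 0 := by exact_mod_cast h0
  have e1 : ∀ (f : ι → ℝ) (a : ℝ), ∑ i ∈ T, (c i : ℝ) * (f i - a) = ∑ i ∈ T, (c i : ℝ) * f i := by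
    intro f a
    simp only [mul_sub, Finset.sum_sub_distrib, ← Finset.sum_mul, h0', zero_mul, sub_zero]
  have e2 : lf α β (∑ i ∈ T, c i * FI (z i)) = ∑ i ∈ T, (c i : ℝ) * lf α β (FI (z i)) := by
    simp only [lf, re_sum, im_sum, Finset.mul_sum, Finset.sum_div, ← Finset.sum_add_distrib]
    refine Finset.sum_congr rfl fun i _ => ?_
    simp only [mul_re, mul_im, intCast_re, intCast_im]
    ring
  have e3 : ∑ i ∈ T, (c i : ℝ) * V1 w α β (z i) =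
      π * (q - lf α β (∑ i ∈ T, c i * FI (z i))) := by
    rw [← hq, e2, ← Finset.sum_sub_distrib, Finset.mul_sum]
    refine Finset.sum_congr rfl fun i _ => ?_
    rw [V1]
    ring
  simp only [e1] at h
  rwa [e3] at h

end Pool.Agent.P.MP_8b7eba_nt.R1
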