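import Pool.Agent.P.MP_8b7eba_nt.R1.Basic

/-! A divisor sum identity. -/

namespace Pool.Agent.P.MP_8b7eba_nt.R1

open Complex Filter Topology MeasureTheory Metric Finset Asymptotics PowerSeries
open scoped Real UpperHalfPlane MatrixGroups ComplexConjugate
open _root_.Pool.Agent.P.MP_8b7eba_nt.Mod (M2 G0 FI L0 om lv xx yy qq UH atI ex mT)
open BSD15 (OO Good cls gch gJ nm cj rho lam Adm B3 B5 No4 Xp XJ Rn)
open MP_9c97e9_nt (Pt pm Is)

theorem ari_fac {g : ℕ → ℤ} (hg : BSD15.cfid_CM g) {M : ℕ} (hM : M ≠ 0) :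
    ∑ e ∈ M.divisors, g e =
      ∏ q ∈ M.primeFactors, ∑ j ∈ range (M.factorization q + 1), g q ^ j := by
  have h1 : ∑ e ∈ M.divisors, g e = BSD15.cfid_C g (fun _ => 1) M := by simp [BSD15.cfid_C]
  rw [h1, ← BSD15.cfid_AF_mul, ((BSD15.cfid_AF_mult hg).mul
    (BSD15.cfid_AF_mult BSD15.cfid_CM_one)).multiplicative_factorization _ hM]
  refine Finset.prod_congr rfl fun q hq => ?_
  beta_reduce
  rw [BSD15.cfid_AF_mul,
    BSD15.cfid_C_pow hg BSD15.cfid_CM_one (Nat.prime_of_mem_primeFactors hq)]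
  simp

theorem ari_jac_CM (n : ℕ) : BSD15.cfid_CM fun e => jacobiSym e n :=
  ⟨by simp, fun a b _ _ => by simp only [Nat.cast_mul, jacobiSym.mul_left]⟩

theorem ari_XJ_not {n a q : ℕ} (ha : Squarefree a) (hq : q.Prime) (h : ¬q ∣ a) :
    XJ n a.primeFactors q = jacobiSym q a := by
  rw [BSD15.cfid_jac_sqf _ ha]
  refine prod_congr rfl fun p hp => BSD15.cfid_Xp_of_not_dvd n fun h1 => h ?_
  rw [← (Nat.prime_dvd_prime_iff_eq (Nat.prime_of_mem_primeFactors hp) hq).1 h1]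
  exact Nat.dvd_of_mem_primeFactors hp

theorem ari_XJ_dvd {n a q : ℕ} (ha : Squarefree a) (hq : q ∈ a.primeFactors) :
    XJ n a.primeFactors q = jacobiSym q (n / q) * jacobiSym q (a / q) := by
  have hq' := Nat.prime_of_mem_primeFactors hq
  have h1 : a / q = ∏ p ∈ a.primeFactors.erase q, p := by
    have := mul_prod_erase a.primeFactors (fun p => p) hq
    rw [Nat.prod_primeFactors_of_squarefree ha] at this
    exact Nat.div_eq_of_eq_mul_right hq'.pos this.symm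
  have h2 : ∏ p ∈ a.primeFactors.erase q, Xp n p q = jacobiSym q (a / q) := by
    rw [h1, BSD15.cfid_jac_prod _ _ fun p hp =>
      (Nat.prime_of_mem_primeFactors (mem_of_mem_erase hp)).ne_zero]
    refine prod_congr rfl fun p hp => BSD15.cfid_Xp_of_not_dvd n fun h => ne_of_mem_erase hp ?_
    exact (Nat.prime_dvd_prime_iff_eq (Nat.prime_of_mem_primeFactors (mem_of_mem_erase hp))
      hq').1 h
  rw [XJ, ← mul_prod_erase _ _ hq, h2, BSD15.cfid_Xp_self n hq']

/-- the local analysis at a prime dividing `a` and `M` -/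
theorem ari_loc {p a b₁ b₃ M : ℕ} {f B : ℤ} (hp : p.Prime) (h₁ : Good (p * a * b₁))
    (h₃ : Good (p * a * b₃)) (hM : 60 * (p * M : ℕ) = B ^ 2 + (p * a : ℕ) * b₃ * (b₁ * f) ^ 2)
    (hf : IsCoprime f (p * a : ℕ)) :
    ¬p ∣ M ∧ Xp (p * a * b₁) p (15 * (p * M)) =
      jacobiSym p b₁ * XJ (p * a * b₃) (p * a).primeFactors p := by
  have hp' := Nat.prime_iff_prime_int.1 hp
  have hp0 : (p : ℤ) ≠ 0 := hp'.ne_zero
  have s1 : p.Coprime (a * b₁) := Nat.coprime_of_squarefree_mul (mul_assoc p a b₁ ▸ h₁.sq)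
  have s3 : p.Coprime (a * b₃) := Nat.coprime_of_squarefree_mul (mul_assoc p a b₃ ▸ h₃.sq)
  have hsq : Squarefree (p * a) := h₁.sq.squarefree_of_dvd (dvd_mul_right _ _)
  have ha0 : a ≠ 0 := fun h => by simp [h] at hsq
  have hb1 : b₁ ≠ 0 := fun h => by have := h₁.gt; simp [h] at this
  have hodd : p % 2 = 1 := by
    rcases hp.eq_two_or_odd with rfl | h
    · have := h₁.h4
      rw [mul_assoc] at this
      omega
    · exact h
  push_cast at hM hf
  obtain ⟨C, rfl⟩ : (p : ℤ) ∣ B := by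
    refine hp'.dvd_of_dvd_pow (n := 2) ⟨60 * M - a * b₃ * (b₁ * f) ^ 2, ?_⟩
    linear_combination -hM
  have hM' : (60 * M : ℤ) = p * C ^ 2 + a * b₃ * (b₁ * f) ^ 2 := by
    refine mul_left_cancel₀ hp0 ?_
    linear_combination hM
  have n1 : ¬(p : ℤ) ∣ b₁ * f := fun h => by
    rcases hp'.dvd_or_dvd h with h | h
    · exact (hp.coprime_iff_not_dvd.1 s1) ((Int.natCast_dvd_natCast.1 h).mul_left a)
    · exact hp'.not_isUnit (hf.isUnit_of_dvd' h (dvd_mul_right _ _))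
  have n2 : ¬(p : ℤ) ∣ 60 * M := fun h => by
    rw [hM', dvd_add_right (dvd_mul_right _ _)] at h
    rcases hp'.dvd_or_dvd h with h | h
    · exact (hp.coprime_iff_not_dvd.1 s3) (by exact_mod_cast h)
    · exact n1 (hp'.dvd_of_dvd_pow h)
  have n3 : ¬p ∣ 15 * M := fun h => n2 (by
    have : (p : ℤ) ∣ 15 * M := by exact_mod_cast h
    exact (show (60 * M : ℤ) = 4 * (15 * M) by ring) ▸ this.mul_left 4)
  refine ⟨fun h => n3 (h.mul_left 15), ?_⟩
  have hmem : p ∈ (p * a).primeFactors := Nat.mem_primeFactors.2 ⟨hp, dvd_mul_right _ _, hsq.ne_zero⟩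
  have hmem3 : p ∈ (p * a * b₃).primeFactors :=
    Nat.mem_primeFactors.2 ⟨hp, (dvd_mul_right _ _).mul_right _, h₃.sq.ne_zero⟩
  have e1 : p * a * b₁ / p = a * b₁ := by rw [mul_assoc, Nat.mul_div_cancel_left _ hp.pos]
  have e3 : p * a * b₃ / p = a * b₃ := by rw [mul_assoc, Nat.mul_div_cancel_left _ hp.pos]
  have hrec := BSD15.genus_recip (n := p * a * b₃) hmem3
  rw [e3] at hrec
  have hs : jacobiSym p (a * b₃) ^ 2 = 1 := jacobiSym.sq_one (by rwa [Int.gcd_natCast_natCast])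
  have h2 : (2 : ℤ).gcd p = 1 := BSD15.cfid_gcd hp fun h => by
    have h3 : p ∣ 2 := by exact_mod_cast h
    have := Nat.le_of_dvd two_pos h3
    have := hp.two_le
    omega
  have hj : jacobiSym ((15 * M : ℕ) : ℤ) p = jacobiSym ((a * b₃ : ℕ) : ℤ) p := by
    rw [← mul_one (jacobiSym ((15 * M : ℕ) : ℤ) p), ← jacobiSym.sq_one' h2, ← jacobiSym.mul_left,
      ← mul_one (jacobiSym ((a * b₃ : ℕ) : ℤ) p), ← jacobiSym.sq_one' (BSD15.cfid_gcd hp n1),
      ← jacobiSym.mul_left]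
    refine jacobiSym.mod_left' (Int.modEq_iff_dvd.2 ⟨-C ^ 2, ?_⟩)
    push_cast
    linear_combination -hM'
  rw [show 15 * (p * M) = p * (15 * M) by ring,
    (BSD15.cfid_Xp_CM _ p).2 _ _ hp.ne_zero (fun h => n3 (by rw [h]; exact dvd_zero _)),
    BSD15.cfid_Xp_self _ hp, BSD15.cfid_Xp_of_not_dvd _ n3, ari_XJ_dvd hsq hmem, e1, e3,
    Nat.mul_div_cancel_left _ hp.pos, jacobiSym.mul_right' _ ha0 hb1, hj]
  linear_combination (jacobiSym p a * jacobiSym p b₁) *
    (jacobiSym p (a * b₃) * hrec - jacobiSym ((a * b₃ : ℕ) : ℤ) p * hs)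

theorem cnt_eq {a b₁ b₃ M : ℕ} {f B : ℤ} (h₁ : Good (a * b₁)) (h₃ : Good (a * b₃))
    (h15 : a.Coprime 15) (hM : 60 * M = B ^ 2 + a * b₃ * (b₁ * f) ^ 2) (hB : IsCoprime B b₁)
    (hf : IsCoprime f a) :
    cnt (a * b₁) B M = ∑ e ∈ M.divisors, jacobiSym e b₁ * XJ (a * b₃) a.primeFactors e := by
  rcases eq_or_ne M 0 with rfl | hM0
  · simp [cnt, Rn]
  have hsq : Squarefree a := h₁.sq.squarefree_of_dvd (dvd_mul_right _ _)
  have hb1 : b₁ ≠ 0 := fun h => by have := h₁.gt; simp [h] at this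
  have hG : (Int.gcd B (a * b₁ : ℕ)).primeFactors = M.primeFactors.filter fun p => p ∣ a := by
    ext p
    simp only [Nat.mem_primeFactors, mem_filter]
    constructor
    · rintro ⟨hp, h, -⟩
      have hp' := Nat.prime_iff_prime_int.1 hp
      have h' := Int.natCast_dvd_natCast.2 h
      have hpB : (p : ℤ) ∣ B := h'.trans (Int.gcd_dvd_left _ _)
      have hpa : p ∣ a := by
        have h2 : p ∣ a * b₁ := Int.natCast_dvd_natCast.1 (h'.trans (Int.gcd_dvd_right _ _))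
        refine (hp.dvd_mul.1 h2).resolve_right fun h3 => ?_
        exact hp'.not_isUnit (hB.isUnit_of_dvd' hpB (Int.natCast_dvd_natCast.2 h3))
      refine ⟨⟨hp, ?_, hM0⟩, hpa⟩
      have h4 : (p : ℤ) ∣ 60 * M := by
        rw [hM]
        exact dvd_add (dvd_pow hpB two_ne_zero)
          (((Int.natCast_dvd_natCast.2 hpa).mul_right _).mul_right _)
      have h5 : p ∣ 4 * 15 * M := by exact_mod_cast h4
      have h6 : p.Coprime 4 := by
        refine (hp.coprime_iff_not_dvd).2 fun h7 => ?_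
        have h8 : p = 2 := (Nat.prime_dvd_prime_iff_eq hp Nat.prime_two).1
          (hp.dvd_of_dvd_pow (n := 2) h7)
        obtain ⟨c, hc⟩ := hpa
        have := h₁.h4
        rw [hc, h8, mul_assoc] at this
        omega
      exact (h6.mul_right (h15.coprime_dvd_left hpa)).dvd_mul_left.1 h5
    · rintro ⟨⟨hp, h, -⟩, hpa⟩
      have hp' := Nat.prime_iff_prime_int.1 hp
      have hpB : (p : ℤ) ∣ B := by
        refine hp'.dvd_of_dvd_pow (n := 2) ?_
        have h1 : (p : ℤ) ∣ 60 * M := (Int.natCast_dvd_natCast.2 h).mul_left _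
        rw [hM] at h1
        exact (dvd_add_left (((Int.natCast_dvd_natCast.2 hpa).mul_right _).mul_right _)).1 h1
      refine ⟨hp, Int.natCast_dvd_natCast.1 (Int.dvd_coe_gcd hpB
        (Int.natCast_dvd_natCast.2 (hpa.mul_right _))), fun h0 => ?_⟩
      have := (Int.gcd_eq_zero_iff.1 h0).2
      exact h₁.sq.ne_zero (by exact_mod_cast this)
  have hψ : BSD15.cfid_CM fun e => jacobiSym e b₁ * XJ (a * b₃) a.primeFactors e :=
    (ari_jac_CM b₁).mul (BSD15.cfid_CM_prod _ _ fun p _ => BSD15.cfid_Xp_CM (a * b₃) p)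
  rw [cnt, Rn, hG, ari_fac (ari_jac_CM _) hM0, ari_fac hψ hM0, prod_filter, ← prod_mul_distrib]
  refine prod_congr rfl fun p hpM => ?_
  have hp := Nat.prime_of_mem_primeFactors hpM
  split_ifs with hpa
  · obtain ⟨a', rfl⟩ := hpa
    obtain ⟨M', rfl⟩ := Nat.dvd_of_mem_primeFactors hpM
    obtain ⟨h1, h2⟩ := ari_loc hp h₁ h₃ hM hf
    have h3 : (p * M').factorization p = 1 := by
      rw [Nat.factorization_mul hp.ne_zero (fun h => h1 (by rw [h]; exact dvd_zero _)), Finsupp.add_apply,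
        hp.factorization_self, Nat.factorization_eq_zero_of_not_dvd h1]
    have h4 : jacobiSym p (p * a' * b₁) = 0 := jacobiSym.eq_zero_iff.2 ⟨h₁.sq.ne_zero, by
      rw [Int.gcd_natCast_natCast, Nat.gcd_eq_left ((dvd_mul_right _ _).mul_right _)]
      exact hp.one_lt.ne'⟩
    rw [h3, h2, h4]
    simp [sum_range_succ]
  · rw [mul_one, ari_XJ_not hsq hp hpa, jacobiSym.mul_right' _ hsq.ne_zero hb1, mul_comm]

end Pool.Agent.P.MP_8b7eba_nt.R1
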