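import Pool.Agent.P.MP_8b7eba_nt.R1.Basic

/-! Auxiliary primes. -/

namespace Pool.Agent.P.MP_8b7eba_nt.R1

open Complex Filter Topology MeasureTheory Metric Finset Asymptotics PowerSeries
open scoped Real UpperHalfPlane MatrixGroups ComplexConjugate
open _root_.Pool.Agent.P.MP_8b7eba_nt.Mod (M2 G0 FI L0 om lv xx yy qq UH atI ex mT)
open BSD15 (OO Good cls gch gJ nm cj rho lam Adm B3 B5 No4 Xp XJ Rn)
open MP_9c97e9_nt (Pt pm Is)

theorem AuxP_cop {r : ℕ} (h2 : r % 2 = 1) (h3 : r % 3 ≠ 0) (h5 : r % 5 ≠ 0) : r.Coprime 120 := by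
  have c2 : r.Coprime 2 := (Nat.coprime_two_right).2 (Nat.odd_iff.2 h2)
  have c3 : r.Coprime 3 :=
    Nat.Coprime.symm ((Nat.Prime.coprime_iff_not_dvd Nat.prime_three).2 (by omega))
  have c5 : r.Coprime 5 :=
    Nat.Coprime.symm ((Nat.Prime.coprime_iff_not_dvd Nat.prime_five).2 (by omega))
  exact Nat.Coprime.mul_right (Nat.Coprime.mul_right (c2.pow_right 3) c3) c5

theorem AuxP_gen {n r : ℕ} (h : Adm n) (hr : r.Coprime 120) (ε : ℕ → ℤ)
    (hε : ∀ p ∈ n.primeFactors, ε p = 1 ∨ ε p = -1) :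
    ∃ l : ℕ, l.Prime ∧ n < l ∧ l % 120 = r % 120 ∧ ∀ p ∈ n.primeFactors, jacobiSym l p = ε p := by
  obtain ⟨m2, m3, m5⟩ := BSD15.ind_mod h
  have hn0 : n ≠ 0 := by omega
  have h1 : ∀ p : ℕ, ∃ a : ℕ, p ∈ n.primeFactors → jacobiSym a p = ε p := fun p => by
    by_cases hp : p ∈ n.primeFactors
    · rcases hε p hp with e | e
      · exact ⟨1, fun _ => by simp [e]⟩
      · obtain ⟨a, ha⟩ := BSD15.genus_exists_nonres (Nat.prime_of_mem_primeFactors hp) (by
          rintro rfl
          have := Nat.dvd_of_mem_primeFactors hp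
          omega)
        exact ⟨a, fun _ => by rw [ha, e]⟩
    · exact ⟨0, fun h => absurd h hp⟩
  choose a ha using h1
  obtain ⟨f, hf⟩ := Nat.chineseRemainderOfFinset a id n.primeFactors
    (fun p hp => (Nat.prime_of_mem_primeFactors hp).ne_zero)
    (fun p hp q hq hpq => (Nat.coprime_primes (Nat.prime_of_mem_primeFactors hp)
      (Nat.prime_of_mem_primeFactors hq)).2 hpq)
  have hc := AuxP_cop m2 m3 m5
  obtain ⟨g, g1, g2⟩ := Nat.chineseRemainder hc f r
  have hg : ∀ p ∈ n.primeFactors, jacobiSym g p = ε p := fun p hp => by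
    rw [← ha p hp]
    have e : g ≡ a p [MOD p] := (g1.of_dvd (Nat.dvd_of_mem_primeFactors hp)).trans (hf p hp)
    exact jacobiSym.mod_left' (by exact_mod_cast e)
  have hgn : g.Coprime n := by
    refine Nat.coprime_of_dvd' fun p hp hpg hpn => ?_
    have hp' : p ∈ n.primeFactors := Nat.mem_primeFactors.2 ⟨hp, hpn, hn0⟩
    have e0 : jacobiSym g p = 0 := by
      rw [jacobiSym.mod_left, Int.emod_eq_zero_of_dvd (by exact_mod_cast hpg)]
      exact jacobiSym.zero_left hp.one_lt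
    rcases hε p hp' with e | e <;> rw [hg p hp', e] at e0 <;> simp at e0
  have hg120 : g.Coprime 120 := by
    rw [Nat.Coprime, g2.gcd_eq]
    exact hr
  obtain ⟨l, l1, l2, l3⟩ := Nat.forall_exists_prime_gt_and_modEq n (q := n * 120) (a := g)
    (by positivity) (hgn.mul_right hg120)
  refine ⟨l, l2, l1, (l3.of_mul_left n).trans g2, fun p hp => ?_⟩
  rw [← hg p hp]
  have e : l ≡ g [MOD p] := (l3.of_mul_right 120).of_dvd (Nat.dvd_of_mem_primeFactors hp)
  exact jacobiSym.mod_left' (by exact_mod_cast e)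

theorem AuxP_pm {a p : ℕ} (h : a.Coprime p) :
    jacobiSym (-a) p = 1 ∨ jacobiSym (-a) p = -1 :=
  jacobiSym.eq_one_or_neg_one (by simpa using h)

theorem exists_aux_prime {a b : ℕ} (h : Adm (a * b)) (ha : 1 < a) (h4 : a * b % 4 = 3) :
    ∃ l : ℕ, l.Prime ∧ a * b < l ∧ l % 60 = b % 60 ∧ (b % 4 = 1 → l % 8 = 1) ∧
      jacobiSym (-(a * b)) l = -1 ∧ ∀ p ∈ b.primeFactors, jacobiSym (-(a * l)) p = -1 := by
  obtain ⟨m2, m3, m5⟩ := BSD15.ind_mod (BSD15.ind_adm_dvd h (Dvd.intro_left a rfl))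
  have hab : a.Coprime b := Nat.coprime_of_squarefree_mul h.1
  obtain ⟨q, hq⟩ := Nat.nonempty_primeFactors.2 ha
  have hpm : ∀ p ∈ b.primeFactors, jacobiSym (-a) p = 1 ∨ jacobiSym (-a) p = -1 := fun p hp =>
    AuxP_pm (hab.coprime_dvd_right (Nat.dvd_of_mem_primeFactors hp))
  have hdis : Disjoint a.primeFactors b.primeFactors := hab.disjoint_primeFactors
  have hs : (∏ p ∈ b.primeFactors, -jacobiSym (-a) p) = 1 ∨
      (∏ p ∈ b.primeFactors, -jacobiSym (-a) p) = -1 := by
    refine Finset.prod_induction _ (fun x : ℤ => x = 1 ∨ x = -1) ?_ (Or.inl rfl) fun p hp => ?_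
    · rintro x y (rfl | rfl) (rfl | rfl) <;> simp
    · rcases hpm p hp with e | e <;> simp [e]
  obtain ⟨l, l1, l2, l3, l4⟩ := AuxP_gen (r := if b % 8 = 5 then b + 60 else b) h
    (AuxP_cop (by split_ifs <;> omega) (by split_ifs <;> omega) (by split_ifs <;> omega))
    (fun p => if p ∈ b.primeFactors then -jacobiSym (-a) p else
      if p = q then -∏ p ∈ b.primeFactors, -jacobiSym (-a) p else 1) (fun p _ => by
      split_ifs with h1 h2
      · rcases hpm p h1 with e | e <;> simp [e]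
      · rcases hs with e | e <;> simp [e]
      · exact Or.inl rfl)
  have hpf : (a * b).primeFactors = a.primeFactors ∪ b.primeFactors := hab.primeFactors_mul
  refine ⟨l, l1, l2, by split_ifs at l3 <;> omega, fun _ => by split_ifs at l3 <;> omega, ?_,
    fun p hp => ?_⟩
  · have hodd : Odd l := Nat.odd_iff.2 (by split_ifs at l3 <;> omega)
    have e4 : (-((a : ℤ) * b)) % 4 = 1 := by
      have : ((a : ℤ) * b) % 4 = 3 := by exact_mod_cast h4
      omega
    have en : (-((a : ℤ) * b)).natAbs = a * b := by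
      rw [Int.natAbs_neg, Int.natAbs_mul, Int.natAbs_natCast, Int.natAbs_natCast]
    rw [Mod.jac_recip e4 hodd, en, BSD15.cfid_jac_sqf _ h.1, Finset.prod_congr rfl l4, hpf,
      Finset.prod_union hdis]
    have e1 : ∏ p ∈ a.primeFactors, (if p ∈ b.primeFactors then -jacobiSym (-a) p else
        if p = q then -∏ p ∈ b.primeFactors, -jacobiSym (-a) p else 1) =
        -∏ p ∈ b.primeFactors, -jacobiSym (-a) p := by
      rw [Finset.prod_congr rfl fun p hp => if_neg (Finset.disjoint_left.1 hdis hp),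
        Finset.prod_ite_eq', if_pos hq]
    rw [e1, Finset.prod_congr rfl fun p hp => if_pos hp]
    rcases hs with e | e <;> simp [e]
  · have e := l4 p (hpf ▸ Finset.mem_union_right _ hp)
    rw [if_pos hp] at e
    rw [← neg_mul, jacobiSym.mul_left, e]
    rcases hpm p hp with e | e <;> simp [e]

theorem exists_aux_prime' {b : ℕ} (h : Adm b) : ∃ l : ℕ, l.Prime ∧ b < l ∧ l % 60 = 11 ∧
    ∀ p ∈ b.primeFactors, jacobiSym (-l) p = -1 := by
  have hpm : ∀ p : ℕ, jacobiSym (-1) p = 1 ∨ jacobiSym (-1) p = -1 := fun p => by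
    simpa using AuxP_pm (Nat.coprime_one_left p)
  obtain ⟨l, l1, l2, l3, l4⟩ := AuxP_gen (r := 11) h (by norm_num)
    (fun p => -jacobiSym (-1) p) (fun p _ => by rcases hpm p with e | e <;> simp [e])
  refine ⟨l, l1, l2, by omega, fun p hp => ?_⟩
  rw [neg_eq_neg_one_mul, jacobiSym.mul_left, l4 p hp]
  rcases hpm p with e | e <;> simp [e]

end Pool.Agent.P.MP_8b7eba_nt.R1
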