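import Pool.Agent.P.MP_8b7eba_nt.R1.Basic

/-! Averages over hyperbolic discs. -/

namespace Pool.Agent.P.MP_8b7eba_nt.R1

open Complex Filter Topology MeasureTheory Metric Finset Asymptotics PowerSeries
open scoped Real UpperHalfPlane MatrixGroups ComplexConjugate
open _root_.Pool.Agent.P.MP_8b7eba_nt.Mod (M2 G0 FI L0 om lv xx yy qq UH atI ex mT)
open BSD15 (OO Good cls gch gJ nm cj rho lam Adm B3 B5 No4 Xp XJ Rn)
open MP_9c97e9_nt (Pt pm Is)

variable {r : ℝ}

theorem Av_openPos : Measure.IsOpenPosMeasure (volume : Measure ℍ) := by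
  have : Measure.IsOpenPosMeasure (Measure.comap UpperHalfPlane.coe (volume : Measure ℂ)) :=
    ⟨fun U hU hne => by
      rw [UpperHalfPlane.measurableEmbedding_coe.comap_apply]
      exact (UpperHalfPlane.isOpenEmbedding_coe.isOpenMap U hU).measure_ne_zero _ (hne.image _)⟩
  rw [UpperHalfPlane.volume_def]
  refine Measure.AbsolutelyContinuous.isOpenPosMeasure
    (μ := Measure.comap UpperHalfPlane.coe (volume : Measure ℂ))
    (withDensity_absolutelyContinuous' ?_ (Eventually.of_forall fun z => ?_))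
  · refine (Measurable.coe_nnreal_ennreal (Continuous.measurable ?_)).aemeasurable
    refine .pow (.div₀ continuous_const ?_ ?_) _
    · exact UpperHalfPlane.continuous_im.subtype_mk _
    · exact fun x => NNReal.ne_iff.mp x.im_ne_zero
  · have h : NNReal.mk z.im z.im_pos.le ≠ 0 := NNReal.ne_iff.mp z.im_ne_zero
    exact ENNReal.coe_ne_zero.2 (pow_ne_zero _ (one_div_ne_zero h))

theorem Av_mp (g : SL(2, ℝ)) : MeasurePreserving (fun w : ℍ => g • w) volume volume :=
  measurePreserving_smul (Matrix.SpecialLinearGroup.mapGL ℝ g) (volume : Measure ℍ)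

theorem Av_emb (g : SL(2, ℝ)) : MeasurableEmbedding (fun w : ℍ => g • w) :=
  (IsometryEquiv.constSMul g).toHomeomorph.measurableEmbedding

theorem Av_pre (g : SL(2, ℝ)) (r : ℝ) (z : ℍ) :
    (fun w : ℍ => g • w) ⁻¹' ball (g • z) r = ball z r := by
  rw [preimage_smul_ball, inv_smul_smul]

theorem Av_vol (g : SL(2, ℝ)) (r : ℝ) (z : ℍ) : volume (ball (g • z) r) = volume (ball z r) := by
  rw [← Av_pre g r z, (Av_mp g).measure_preimage measurableSet_ball.nullMeasurableSet]

theorem Av_int {E : Type*} [NormedAddCommGroup E] [NormedSpace ℝ E] (g : SL(2, ℝ)) (f : ℍ → E)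
    (r : ℝ) (z : ℍ) : ∫ w in ball z r, f (g • w) = ∫ w in ball (g • z) r, f w := by
  rw [← (Av_mp g).setIntegral_preimage_emb (Av_emb g) f, Av_pre]

theorem vol_ball_pos (hr : 0 < r) (z : ℍ) : 0 < volume (ball z r) := by
  have := Av_openPos
  exact measure_ball_pos _ z hr

theorem vol_ball_lt_top (r : ℝ) (z : ℍ) : volume (ball z r) < ⊤ :=
  measure_ball_lt_top

theorem vol_ball_eq (r : ℝ) (z w : ℍ) : volume (ball z r) = volume (ball w r) := by
  obtain ⟨g, rfl⟩ := MulAction.exists_smul_eq SL(2, ℝ) w z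
  exact Av_vol g r w

theorem Av_eq (r : ℝ) (f : ℍ → ℝ) (z : ℍ) :
    av r f z = (volume.real (ball z r))⁻¹ * ∫ w in ball z r, f w := by
  rw [av, setAverage_eq, smul_eq_mul]

theorem Av_real_pos (hr : 0 < r) (z : ℍ) : 0 < volume.real (ball z r) :=
  ENNReal.toReal_pos (vol_ball_pos hr z).ne' (vol_ball_lt_top r z).ne

theorem av_smul (g : SL(2, ℝ)) (f : ℍ → ℝ) (r : ℝ) (z : ℍ) :
    av r (fun w => f (g • w)) z = av r f (g • z) := by
  rw [Av_eq, Av_eq, Av_int, Measure.real, Measure.real, Av_vol]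

theorem integrableOn_ball {f : ℍ → ℝ} (hf : Continuous f) (z : ℍ) (r : ℝ) :
    IntegrableOn f (ball z r) :=
  (hf.continuousOn.integrableOn_compact (isCompact_closedBall z r)).mono_set ball_subset_closedBall

theorem integrableOn_ball_of_le {f : ℍ → ℝ} (hf : Measurable f) {z : ℍ} {M : ℝ}
    (h : ∀ w ∈ ball z r, |f w| ≤ M) : IntegrableOn f (ball z r) :=
  Measure.integrableOn_of_bounded (vol_ball_lt_top r z).ne hf.aestronglyMeasurable
    ((ae_restrict_iff' measurableSet_ball).2 (Eventually.of_forall h))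

theorem abs_av_le (hr : 0 < r) {f : ℍ → ℝ} {z : ℍ} {M : ℝ} (h : ∀ w ∈ ball z r, |f w| ≤ M) :
    |av r f z| ≤ M := by
  have h0 := Av_real_pos hr z
  have h1 : ‖∫ w in ball z r, f w‖ ≤ M * volume.real (ball z r) :=
    norm_setIntegral_le_of_norm_le_const (vol_ball_lt_top r z) h
  rw [Av_eq, abs_mul, abs_of_pos (inv_pos.2 h0), inv_mul_le_iff₀ h0, mul_comm]
  exact h1

theorem av_const (hr : 0 < r) (c : ℝ) (z : ℍ) : av r (fun _ => c) z = c :=
  setAverage_const (vol_ball_pos hr z).ne' (vol_ball_lt_top r z).ne c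

theorem av_add {f g : ℍ → ℝ} {z : ℍ} (hf : IntegrableOn f (ball z r))
    (hg : IntegrableOn g (ball z r)) : av r (fun w => f w + g w) z = av r f z + av r g z := by
  rw [Av_eq, Av_eq, Av_eq, integral_add hf hg, mul_add]

theorem av_sub {f g : ℍ → ℝ} {z : ℍ} (hf : IntegrableOn f (ball z r))
    (hg : IntegrableOn g (ball z r)) : av r (fun w => f w - g w) z = av r f z - av r g z := by
  rw [Av_eq, Av_eq, Av_eq, integral_sub hf hg, mul_sub]

theorem av_mul (c : ℝ) (f : ℍ → ℝ) (r : ℝ) (z : ℍ) : av r (fun w => c * f w) z = c * av r f z := by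
  rw [Av_eq, Av_eq, integral_const_mul]
  ring

theorem av_mono {f g : ℍ → ℝ} {z : ℍ} (hf : IntegrableOn f (ball z r))
    (hg : IntegrableOn g (ball z r)) (h : ∀ w ∈ ball z r, f w ≤ g w) : av r f z ≤ av r g z := by
  rw [Av_eq, Av_eq]
  exact mul_le_mul_of_nonneg_left (setIntegral_mono_on hf hg measurableSet_ball h)
    (inv_nonneg.2 measureReal_nonneg)

theorem mem_ball_bounds {z w : ℍ} (h : w ∈ ball z r) :
    z.im * Real.exp (-r) ≤ w.im ∧ w.im ≤ z.im * Real.exp r ∧
      |w.re - z.re| ≤ z.im * Real.sinh r := by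
  have h1 : dist w z < r := h
  have h2 : Real.exp (dist w z) ≤ Real.exp r := Real.exp_le_exp.2 h1.le
  refine ⟨?_, ?_, ?_⟩
  · have h3 := UpperHalfPlane.im_le_im_mul_exp_dist z w
    rw [dist_comm] at h3
    rw [Real.exp_neg, ← div_eq_mul_inv, div_le_iff₀ (Real.exp_pos r)]
    exact h3.trans (mul_le_mul_of_nonneg_left h2 w.im_pos.le)
  · exact (UpperHalfPlane.im_le_im_mul_exp_dist w z).trans
      (mul_le_mul_of_nonneg_left h2 z.im_pos.le)
  · have h3 := UpperHalfPlane.dist_lt_iff_dist_coe_center_lt.1 h1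
    have h4 := Complex.abs_re_le_norm ((w : ℂ) - (z.center r : ℂ))
    rw [← Complex.dist_eq, sub_re, UpperHalfPlane.coe_re, UpperHalfPlane.coe_re,
      UpperHalfPlane.center_re] at h4
    exact h4.trans h3.le

/-- the rotations about `i` -/
noncomputable def Av_rot (t : ℝ) : SL(2, ℝ) :=
  ⟨!![Real.cos (t / 2), Real.sin (t / 2); -Real.sin (t / 2), Real.cos (t / 2)], by
    rw [Matrix.det_fin_two_of]
    linear_combination Real.cos_sq_add_sin_sq (t / 2)⟩

theorem Av_rot_cont : Continuous Av_rot := by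
  refine Continuous.subtype_mk ?_ _
  refine continuous_pi fun i => continuous_pi fun j => ?_
  fin_cases i <;> fin_cases j <;> simp <;> fun_prop

/-- the orbit map of the rotations, extended to the unit disc -/
noncomputable def Av_G (w u : ℂ) : ℂ := I * ((w + I) + u * (w - I)) / ((w + I) - u * (w - I))

theorem Av_lt {w u : ℂ} (hw : 0 < w.im) (hu : ‖u‖ ≤ 1) : normSq (u * (w - I)) < normSq (w + I) := by
  have h1 : normSq u ≤ 1 := by
    rw [Complex.normSq_eq_norm_sq]
    exact pow_le_one₀ (norm_nonneg _) hu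
  have h2 : normSq (w - I) < normSq (w + I) := by
    simp only [normSq_apply, sub_re, add_re, sub_im, add_im, I_re, I_im]
    nlinarith
  rw [map_mul]
  exact lt_of_le_of_lt (mul_le_of_le_one_left (normSq_nonneg _) h1) h2

theorem Av_den {w u : ℂ} (hw : 0 < w.im) (hu : ‖u‖ ≤ 1) : (w + I) - u * (w - I) ≠ 0 := by
  intro h
  have := Av_lt hw hu
  rw [sub_eq_zero.1 h] at this
  exact lt_irrefl _ this

theorem Av_im {w u : ℂ} (hw : 0 < w.im) (hu : ‖u‖ ≤ 1) : 0 < (Av_G w u).im := by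
  have h1 := Av_lt hw hu
  have h2 := normSq_pos.2 (Av_den hw hu)
  unfold Av_G
  generalize w + I = A at *
  generalize u * (w - I) = B at *
  have e : (I * (A + B) / (A - B)).im = (normSq A - normSq B) / normSq (A - B) := by
    rw [div_im, ← sub_div]
    congr 1
    simp only [normSq_apply, mul_im, mul_re, add_re, add_im, sub_re, sub_im, I_re, I_im]
    ring
  rw [e]
  exact div_pos (sub_pos.2 h1) h2

theorem Av_rot_smul (t : ℝ) (w : ℍ) : ((Av_rot t • w : ℍ) : ℂ) = Av_G w (circleMap 0 1 t) := by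
  have h1 : (w : ℂ) + I - circleMap 0 1 t * (w - I) ≠ 0 := Av_den w.im_pos (by simp)
  have h2 : (-(Real.sin (t / 2) : ℂ)) * w + (Real.cos (t / 2) : ℂ) ≠ 0 := by
    have := UpperHalfPlane.denom_ne_zero (Matrix.SpecialLinearGroup.mapGL ℝ (Av_rot t)) w
    rw [← ofReal_neg]
    exact this
  have h3 : circleMap 0 1 t = ((Real.cos (t / 2) : ℂ) + (Real.sin (t / 2) : ℂ) * I) ^ 2 := by
    rw [ofReal_cos, ofReal_sin, ← exp_mul_I, ← Complex.exp_nat_mul, circleMap_zero]
    push_cast
    rw [one_mul]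
    congr 1
    ring
  have h4 : (Real.cos (t / 2) : ℂ) ^ 2 + (Real.sin (t / 2) : ℂ) ^ 2 = 1 := by
    exact_mod_cast Real.cos_sq_add_sin_sq (t / 2)
  have h5 : ((Av_rot t • w : ℍ) : ℂ) = ((Real.cos (t / 2) : ℂ) * w + (Real.sin (t / 2) : ℂ)) /
      ((-(Real.sin (t / 2) : ℂ)) * w + (Real.cos (t / 2) : ℂ)) := by
    rw [UpperHalfPlane.coe_specialLinearGroup_apply]
    simp [Av_rot]
  rw [h5, Av_G, div_eq_div_iff h2 h1, h3]
  generalize (Real.cos (t / 2) : ℂ) = c at *
  generalize (Real.sin (t / 2) : ℂ) = s at *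
  generalize (w : ℂ) = x
  linear_combination (-((c + s * I) * (x - I) * (x + I))) * h4 +
    ((c + s * I) * (x - I) * (x + I) * s ^ 2 + s * ((x + I) - (c + s * I) ^ 2 * (x - I))) * I_sq

theorem Av_rot_I (t : ℝ) : Av_rot t • UpperHalfPlane.I = UpperHalfPlane.I := by
  apply UpperHalfPlane.ext
  rw [Av_rot_smul, Av_G]
  simp

theorem Av_circle {f : ℂ → ℂ} (hf : DifferentiableOn ℂ f UH) (w : ℍ) :
    ∫ t in (0 : ℝ)..2 * π, f (Av_rot t • w : ℍ) = (2 * π : ℝ) • f I := by
  have h1 : DifferentiableOn ℂ (Av_G w) (closedBall 0 1) := by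
    unfold Av_G
    refine DifferentiableOn.div (by fun_prop) (by fun_prop) fun u hu => ?_
    exact Av_den w.im_pos (by simpa using hu)
  have h2 : DifferentiableOn ℂ (fun u => f (Av_G w u)) (closedBall 0 1) :=
    hf.comp h1 fun u hu => Av_im w.im_pos (by simpa using hu)
  have h3 : DiffContOnCl ℂ (fun u => f (Av_G w u)) (ball 0 |1|) := by
    apply DifferentiableOn.diffContOnCl
    rw [abs_one, closure_ball _ one_ne_zero]
    exact h2
  have h4 := h3.circleAverage
  have h5 : Av_G w 0 = I := by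
    have := Av_den (u := 0) w.im_pos (by simp)
    rw [Av_G, div_eq_iff this]
    ring
  rw [Real.circleAverage_def, h5] at h4
  simp only [Av_rot_smul]
  rw [← h4, smul_smul, mul_inv_cancel₀ (by positivity), one_smul]

theorem Av_mean (hr : 0 < r) {f : ℍ → ℝ} (hf : Continuous f) {c : ℝ}
    (h : ∀ w : ℍ, ∫ t in (0 : ℝ)..2 * π, f (Av_rot t • w) = 2 * π * c) :
    av r f UpperHalfPlane.I = c := by
  have h0 := Av_real_pos hr UpperHalfPlane.I
  have hc : Continuous fun p : ℝ × ℍ => f (Av_rot p.1 • p.2) :=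
    hf.comp ((Av_rot_cont.comp continuous_fst).smul continuous_snd)
  have h1 : Integrable (Function.uncurry fun (t : ℝ) (w : ℍ) => f (Av_rot t • w))
      ((volume.restrict (Set.uIoc 0 (2 * π))).prod
        (volume.restrict (ball UpperHalfPlane.I r))) := by
    rw [Measure.prod_restrict]
    exact (hc.continuousOn.integrableOn_compact
      (isCompact_uIcc.prod (isCompact_closedBall UpperHalfPlane.I r))).mono_set
        (Set.prod_mono Set.uIoc_subset_uIcc ball_subset_closedBall)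
  have h2 := intervalIntegral_integral_swap h1
  simp only [Av_int, Av_rot_I, h] at h2
  rw [intervalIntegral.integral_const, setIntegral_const, smul_eq_mul, smul_eq_mul, sub_zero] at h2
  have h3 : (2 * π : ℝ) ≠ 0 := by positivity
  rw [Av_eq, inv_mul_eq_iff_eq_mul₀ h0.ne']
  apply mul_left_cancel₀ h3
  rw [h2]
  ring

theorem Av_hol_I (hr : 0 < r) {f : ℂ → ℂ} (hf : DifferentiableOn ℂ f UH) (L : ℂ →L[ℝ] ℝ) :
    av r (fun w => L (f w)) UpperHalfPlane.I = L (f I) := by
  have hc : Continuous fun w : ℍ => f w :=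
    hf.continuousOn.comp_continuous UpperHalfPlane.continuous_coe fun w => w.im_pos
  refine Av_mean hr (f := fun w => L (f w)) (L.continuous.comp hc) fun w => ?_
  have h1 : IntervalIntegrable (fun t : ℝ => f (Av_rot t • w : ℍ)) volume 0 (2 * π) :=
    (hc.comp (Av_rot_cont.smul continuous_const)).intervalIntegrable _ _
  rw [L.intervalIntegral_comp_comm h1, Av_circle hf, map_smul, smul_eq_mul]

theorem Av_hol (hr : 0 < r) {f : ℂ → ℂ} (hf : DifferentiableOn ℂ f UH) (z : ℍ) (L : ℂ →L[ℝ] ℝ) :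
    av r (fun w => L (f w)) z = L (f z) := by
  have hy : 0 < z.im := z.im_pos
  have e : ∀ w : ℍ, ((z.toSL2R • w : ℍ) : ℂ) = z.im * w + z.re := by
    intro w
    have h1 : ((√z.im : ℝ) : ℂ) ≠ 0 := ofReal_ne_zero.2 (Real.sqrt_pos.2 hy).ne'
    have h2 : ((√z.im : ℝ) : ℂ) ^ 2 = z.im := by
      rw [← ofReal_pow, Real.sq_sqrt hy.le]
    rw [UpperHalfPlane.coe_specialLinearGroup_apply]
    simp only [UpperHalfPlane.coe_toSL2R]
    simp
    field_simp
    rw [h2, mul_comm]
  have hg : DifferentiableOn ℂ (fun u : ℂ => f (z.im * u + z.re)) UH := by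
    refine hf.comp (by fun_prop) fun u hu => ?_
    have hu' : 0 < u.im := hu
    show 0 < ((z.im : ℂ) * u + z.re).im
    simpa using mul_pos hy hu'
  have h1 := Av_hol_I hr hg L
  have h2 := av_smul z.toSL2R (fun w => L (f w)) r UpperHalfPlane.I
  have h3 := e UpperHalfPlane.I
  rw [UpperHalfPlane.toSL2R_smul_I] at h2 h3
  simp only [e] at h2
  rw [← h2, h1, h3, UpperHalfPlane.coe_I]

theorem av_hol (hr : 0 < r) {f : ℂ → ℂ} (hf : DifferentiableOn ℂ f UH) (z : ℍ) :
    av r (fun w => (f w).re) z = (f z).re ∧ av r (fun w => (f w).im) z = (f z).im :=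
  ⟨Av_hol hr hf z reCLM, Av_hol hr hf z imCLM⟩

end Pool.Agent.P.MP_8b7eba_nt.R1
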