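import Pool.Agent.P.MP_8b7eba_nt.R1.Av

/-! Averages of powers and of the logarithm of the height. -/

namespace Pool.Agent.P.MP_8b7eba_nt.R1

open Complex Filter Topology MeasureTheory Metric Finset Asymptotics PowerSeries
open scoped Real UpperHalfPlane MatrixGroups ComplexConjugate
open _root_.Pool.Agent.P.MP_8b7eba_nt.Mod (M2 G0 FI L0 om lv xx yy qq UH atI ex mT)
open BSD15 (OO Good cls gch gJ nm cj rho lam Adm B3 B5 No4 Xp XJ Rn)
open MP_9c97e9_nt (Pt pm Is)

variable {r : ℝ}

theorem AvK_move (z : ℍ) : ∃ h : SL(2, ℝ), h • UpperHalfPlane.I = z ∧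
    ∀ w : ℍ, (h • w).im = z.im * w.im := by
  have hy : 0 < √z.im := Real.sqrt_pos.2 z.im_pos
  have hq : √z.im * √z.im = z.im := Real.mul_self_sqrt z.im_pos.le
  let h : SL(2, ℝ) := ⟨!![√z.im, z.re / √z.im; 0, (√z.im)⁻¹], by
    rw [Matrix.det_fin_two_of, mul_inv_cancel₀ hy.ne']; simp⟩
  have key : ∀ w : ℍ, ((h • w : ℍ) : ℂ) = (z.im : ℂ) * w + z.re := fun w => by
    have hc : ((√z.im : ℝ) : ℂ) ≠ 0 := by exact_mod_cast hy.ne'
    have hq' : ((√z.im : ℝ) : ℂ) * (√z.im : ℝ) = z.im := by exact_mod_cast hq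
    rw [UpperHalfPlane.coe_specialLinearGroup_apply]
    change (((√z.im : ℝ) : ℂ) * w + ((z.re / √z.im : ℝ) : ℂ)) /
      (((0 : ℝ) : ℂ) * w + (((√z.im)⁻¹ : ℝ) : ℂ)) = _
    push_cast
    rw [zero_mul, zero_add, div_inv_eq_mul, add_mul, div_mul_cancel₀ _ hc, mul_right_comm, hq']
  refine ⟨h, UpperHalfPlane.ext ?_, fun w => ?_⟩
  · rw [key]
    apply Complex.ext <;> simp
  · rw [← UpperHalfPlane.coe_im, key]
    simp

theorem AvK_im (hr : 0 < r) : av r (fun w => w.im) UpperHalfPlane.I = 1 := by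
  simpa using (av_hol hr (f := id) differentiableOn_id UpperHalfPlane.I).2

theorem AvK_pos (hr : 0 < r) {f : ℍ → ℝ} (hf : Continuous f) (h0 : ∀ w, 0 ≤ f w)
    (h1 : ∀ w, w.im ≠ 1 → f w ≠ 0) : 0 < av r f UpperHalfPlane.I := by
  have hv : 0 < (volume : Measure ℍ).real (ball UpperHalfPlane.I r) :=
    ENNReal.toReal_pos (vol_ball_pos hr _).ne' (vol_ball_lt_top r _).ne
  rw [av, setAverage_eq, smul_eq_mul]
  refine mul_pos (inv_pos.2 hv) ((setIntegral_pos_iff_support_of_nonneg_ae
    (Eventually.of_forall h0) (integrableOn_ball hf _ r)).2 ?_)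
  let p : ℍ := ⟨⟨0, Real.exp (r / 2)⟩, Real.exp_pos _⟩
  have hp : p.im = Real.exp (r / 2) := rfl
  have h2 : p ∈ Function.support f ∩ ball UpperHalfPlane.I r := by
    refine ⟨h1 p ?_, ?_⟩
    · rw [hp]
      exact (Real.one_lt_exp_iff.2 (half_pos hr)).ne'
    · rw [mem_ball, UpperHalfPlane.dist_of_re_eq (by simp [p, UpperHalfPlane.re]), hp,
        Real.log_exp, UpperHalfPlane.I_im, Real.log_one, Real.dist_eq, sub_zero,
        abs_of_pos (half_pos hr)]
      exact half_lt_self hr
  obtain ⟨e, he, hb⟩ := Metric.isOpen_iff.1 (hf.isOpen_support.inter isOpen_ball) p h2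
  exact (vol_ball_pos he p).trans_le (measure_mono hb)

theorem AvK_cont_log : Continuous (fun w : ℍ => Real.log w.im) :=
  UpperHalfPlane.continuous_im.log fun w => w.im_ne_zero

theorem av_im_rpow (r s : ℝ) (g : SL(2, ℝ)) (z : ℍ) :
    av r (fun w => (g • w).im ^ s) z = kk r s * (g • z).im ^ s := by
  obtain ⟨h, h1, h2⟩ := AvK_move (g • z)
  rw [av_smul g (fun w => w.im ^ s) r z]
  conv_lhs => rw [← h1, ← av_smul h (fun w => w.im ^ s) r]
  have e : (fun w : ℍ => (h • w).im ^ s) = fun w => (g • z).im ^ s * w.im ^ s :=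
    funext fun w => by rw [h2, Real.mul_rpow (g • z).im_pos.le w.im_pos.le]
  rw [e, av_mul, mul_comm, kk]

theorem kk_bounds (hr : 0 < r) : ∃ κ C : ℝ, 0 < κ ∧ ∀ s ∈ Set.Icc (1 : ℝ) (3 / 2),
    κ * (s - 1) ≤ kk r s - 1 ∧ kk r s - 1 ≤ C * (s - 1) := by
  have ci := UpperHalfPlane.continuous_im
  have c1 : Continuous (fun w : ℍ => w.im * Real.log w.im - w.im + 1) :=
    ((ci.mul AvK_cont_log).sub ci).add continuous_const
  have p1 : ∀ w : ℍ, w.im ≠ 1 → 0 < w.im * Real.log w.im - w.im + 1 := fun w hw => by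
    have h1 := Real.log_lt_sub_one_of_pos (inv_pos.2 w.im_pos) (by simpa using hw)
    have h2 := mul_lt_mul_of_pos_left h1 w.im_pos
    rw [Real.log_inv, mul_sub, mul_inv_cancel₀ w.im_ne_zero] at h2
    linarith
  refine ⟨_, r * Real.exp (2 * r), AvK_pos hr c1 (fun w => ?_) (fun w hw => (p1 w hw).ne'),
    fun s hs => ?_⟩
  · by_cases hw : w.im = 1
    · simp [hw]
    · exact (p1 w hw).le
  have cs : Continuous (fun w : ℍ => w.im ^ s) := ci.rpow_const fun w => Or.inl w.im_ne_zero
  have hs1 : 0 ≤ s - 1 := sub_nonneg.2 hs.1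
  have e : ∀ w : ℍ, w.im ^ s = w.im * Real.exp ((s - 1) * Real.log w.im) := fun w => by
    rw [Real.rpow_def_of_pos w.im_pos]
    conv_rhs => rw [← Real.exp_log w.im_pos, ← Real.exp_add, Real.log_exp]
    congr 1
    ring
  constructor
  · have h := av_mono (r := r) (z := UpperHalfPlane.I)
      (f := fun w => (s - 1) * (w.im * Real.log w.im - w.im + 1) + (s * w.im - (s - 1)))
      (g := fun w => w.im ^ s) (integrableOn_ball (by fun_prop) _ r) (integrableOn_ball cs _ r)
      (fun w _ => by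
        have h1 := mul_le_mul_of_nonneg_left
          (Real.add_one_le_exp ((s - 1) * Real.log w.im)) w.im_pos.le
        rw [e]
        linarith)
    rw [av_add (integrableOn_ball (by fun_prop) _ r) (integrableOn_ball (by fun_prop) _ r),
      av_sub (integrableOn_ball (by fun_prop) _ r) (integrableOn_ball (by fun_prop) _ r),
      av_mul, av_mul, AvK_im hr, av_const hr] at h
    rw [kk]
    linarith
  · have h := av_mono (r := r) (z := UpperHalfPlane.I) (f := fun w => w.im ^ s)
      (g := fun w => w.im + r * Real.exp (2 * r) * (s - 1)) (integrableOn_ball cs _ r)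
      (integrableOn_ball (by fun_prop) _ r) (fun w hw => by
        have h1 : Real.log w.im ≤ r := by
          rw [Real.log_le_iff_le_exp w.im_pos]
          simpa using (mem_ball_bounds hw).2.1
        have h2 : w.im ^ s ≤ Real.exp (2 * r) := by
          rw [Real.rpow_def_of_pos w.im_pos, Real.exp_le_exp]
          have := mul_le_mul_of_nonneg_right h1 (zero_le_one.trans hs.1)
          have := hs.2
          nlinarith
        have h3 : 0 < w.im ^ s := Real.rpow_pos_of_pos w.im_pos s
        have h4 := mul_le_mul_of_nonneg_left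
          (Real.add_one_le_exp (-((s - 1) * Real.log w.im))) h3.le
        have h5 : w.im ^ s * Real.exp (-((s - 1) * Real.log w.im)) = w.im := by
          rw [e, mul_assoc, ← Real.exp_add, add_neg_cancel, Real.exp_zero, mul_one]
        have h6 : w.im ^ s * Real.log w.im ≤ Real.exp (2 * r) * r :=
          (mul_le_mul_of_nonneg_left h1 h3.le).trans (mul_le_mul_of_nonneg_right h2 hr.le)
        have h7 := mul_le_mul_of_nonneg_left h6 hs1
        rw [h5] at h4
        linarith)
    rw [av_add (integrableOn_ball ci _ r) (integrableOn_ball (by fun_prop) _ r),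
      AvK_im hr, av_const hr] at h
    rw [kk]
    linarith

theorem av_log (hr : 0 < r) :
    ∃ κ : ℝ, 0 < κ ∧ ∀ z : ℍ, av r (fun w => Real.log w.im) z = Real.log z.im - κ := by
  have ci := UpperHalfPlane.continuous_im
  have cl := AvK_cont_log
  have h := AvK_pos hr (f := fun w => w.im - 1 - Real.log w.im) (by fun_prop)
    (fun w => sub_nonneg.2 (Real.log_le_sub_one_of_pos w.im_pos))
    (fun w hw => (sub_pos.2 (Real.log_lt_sub_one_of_pos w.im_pos hw)).ne')
  refine ⟨_, h, fun z => ?_⟩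
  obtain ⟨g, h1, h2⟩ := AvK_move z
  conv_lhs => rw [← h1, ← av_smul g (fun w => Real.log w.im) r]
  have e : (fun w : ℍ => Real.log (g • w).im) = fun w => Real.log z.im + Real.log w.im :=
    funext fun w => by rw [h2, Real.log_mul z.im_ne_zero w.im_ne_zero]
  rw [e, av_add (integrableOn_ball continuous_const _ r) (integrableOn_ball cl _ r), av_const hr,
    av_sub (integrableOn_ball (by fun_prop) _ r) (integrableOn_ball cl _ r),
    av_sub (integrableOn_ball ci _ r) (integrableOn_ball continuous_const _ r), AvK_im hr,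
    av_const hr]
  ring

end Pool.Agent.P.MP_8b7eba_nt.R1
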