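import Pool.Agent.P.MP_8b7eba_nt.R1.Defs

/-! Elementary facts on forms, points and automorphisms. -/

namespace Pool.Agent.P.MP_8b7eba_nt.R1

open Complex
open scoped Real UpperHalfPlane MatrixGroups ComplexConjugate
open _root_.Pool.Agent.P.MP_8b7eba_nt.Mod (M2 G0 FI L0 om lv xx yy qq)
open BSD15 (OO Good cls gch gJ)
open MP_9c97e9_nt (Pt pm Is Split)

namespace QF

variable (P Q : QF) (g h : M2)

theorem ev_cmp (x y : ℤ) : (Q.cmp g).ev x y = Q.ev (g.a * x + g.b * y) (g.c * x + g.d * y) := by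
  simp only [cmp, ev]; ring

theorem cmp_mul : Q.cmp (g * h) = (Q.cmp g).cmp h := by
  ext <;> simp [cmp, ev] <;> ring

@[simp] theorem cmp_one : Q.cmp 1 = Q := by ext <;> simp [cmp, ev]

@[simp] theorem cmp_neg : Q.cmp (-g) = Q.cmp g := by ext <;> simp [cmp, ev]

theorem disc_cmp : (Q.cmp g).disc = g.det ^ 2 * Q.disc := by
  simp only [cmp, ev, disc, M2.det]; ring

theorem pair_cmp : (P.cmp g).pair (Q.cmp g) = g.det ^ 2 * P.pair Q := by
  simp only [cmp, ev, pair, M2.det]; ring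

theorem pair_comm : P.pair Q = Q.pair P := by simp only [pair]; ring

theorem pair_self : Q.pair Q = Q.disc := by simp only [pair, disc]; ring

theorem four_mul_ev (x y : ℤ) :
    4 * Q.A * Q.ev x y = (2 * Q.A * x + Q.B * y) ^ 2 - Q.disc * y ^ 2 := by
  simp only [ev, disc]; ring

variable {P Q g h}

theorem cmp_adj (hg : g.det = 1) (Q : QF) : (Q.cmp g).cmp g.adj = Q := by
  rw [← cmp_mul, M2.mul_adj hg, cmp_one]

theorem adj_cmp (hg : g.det = 1) (Q : QF) : (Q.cmp g.adj).cmp g = Q := by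
  rw [← cmp_mul, M2.adj_mul_self hg, cmp_one]

/-- the action of a unimodular matrix as a permutation of the forms -/
def cmpE (hg : g.det = 1) : QF ≃ QF where
  toFun Q := Q.cmp g
  invFun Q := Q.cmp g.adj
  left_inv := cmp_adj hg
  right_inv := adj_cmp hg

@[simp] theorem cmpE_apply (hg : g.det = 1) (Q : QF) : cmpE hg Q = Q.cmp g := rfl

theorem ev_pos (hA : 0 < Q.A) (hD : Q.disc < 0) {x y : ℤ} (h : x ≠ 0 ∨ y ≠ 0) : 0 < Q.ev x y := by
  have e := Q.four_mul_ev x y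
  by_cases hy : y = 0
  · have hx := h.resolve_right (not_not.2 hy)
    simp only [ev, hy]; have := sq_pos_of_ne_zero hx; nlinarith
  · have := sq_pos_of_ne_zero hy
    nlinarith [sq_nonneg (2 * Q.A * x + Q.B * y)]

theorem cmp_A_pos (hA : 0 < Q.A) (hD : Q.disc < 0) (hg : g.det ≠ 0) : 0 < (Q.cmp g).A :=
  ev_pos hA hD (Mod.col_ne hg).1

theorem tau_im_pos (hA : 0 < Q.A) (hD : Q.disc < 0) : 0 < Q.tau.im := by
  have h1 : (0 : ℝ) < Q.A := by exact_mod_cast hA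
  have h2 : (0 : ℝ) < -Q.disc := by exact_mod_cast neg_pos.2 hD
  simp only [tau]; positivity

theorem tau_root (hA : 0 < Q.A) (hD : Q.disc < 0) : Q.A * Q.tau ^ 2 + Q.B * Q.tau + Q.C = 0 := by
  have h1 : (Q.A : ℝ) ≠ 0 := by exact_mod_cast hA.ne'
  have h2 : (0 : ℝ) ≤ -Q.disc := by exact_mod_cast (neg_pos.2 hD).le
  have h3 := Real.sq_sqrt h2
  have h4 : (Q.disc : ℝ) = Q.B ^ 2 - 4 * Q.A * Q.C := by simp [disc]
  apply Complex.ext
  · simp [tau, sq]; field_simp; linear_combination -h3 + h4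
  · simp [tau, sq]; field_simp; ring

theorem eq_tau (hA : 0 < Q.A) (hD : Q.disc < 0) {z : ℂ} (hz : 0 < z.im)
    (h : Q.A * z ^ 2 + Q.B * z + Q.C = 0) : z = Q.tau := by
  have h0 := tau_root hA hD
  have h1 : (z - Q.tau) * (Q.A * (z + Q.tau) + Q.B) = 0 := by linear_combination h - h0
  rcases mul_eq_zero.1 h1 with h1 | h1
  · exact sub_eq_zero.1 h1
  · have h2 := congrArg im h1
    have h3 : (0 : ℝ) < Q.A := by exact_mod_cast hA
    have h4 := tau_im_pos hA hD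
    simp at h2
    rcases h2 with h2 | h2
    · exact absurd h2 hA.ne'
    · linarith

theorem act_tau (hA : 0 < Q.A) (hD : Q.disc < 0) (hg : 0 < g.det) :
    g.act (Q.cmp g).tau = Q.tau := by
  have hA' := cmp_A_pos hA hD hg.ne'
  have hD' : (Q.cmp g).disc < 0 := by
    rw [disc_cmp]; exact mul_neg_of_pos_of_neg (by positivity) hD
  have hz := tau_im_pos hA' hD'
  refine eq_tau hA hD (M2.im_act_pos hg hz) ?_
  have h0 := tau_root hA' hD'
  have hj := M2.j_ne hg.ne' hz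
  rw [M2.act_eq]
  field_simp
  simp only [cmp, ev, M2.j] at h0 ⊢
  push_cast at h0
  linear_combination h0

theorem tt_cmp (Q : QF) (hg : 0 < g.det) {z : ℂ} (hz : 0 < z.im) :
    (Q.cmp g).tt z = Q.tt (g.act z) := by
  have hj := M2.j_ne hg.ne' hz
  have hn : normSq (g.j z) ≠ 0 := by simpa using hj
  have hd : (0 : ℝ) < g.det := by exact_mod_cast hg
  have h1 : √((Q.cmp g).disc : ℝ) = g.det * √Q.disc := by
    rw [disc_cmp]; push_cast
    rw [Real.sqrt_mul (sq_nonneg _), Real.sqrt_sq hd.le]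
  have h2 : normSq (g.act z) = normSq (g.a * z + g.b) / normSq (g.j z) := by
    rw [M2.act_eq, map_div₀]
  have h3 : (g.act z).re = ((g.a * z + g.b) * conj (g.j z)).re / normSq (g.j z) := by
    rw [M2.act_eq, div_re]; simp; ring
  simp only [tt]
  rw [h1, h2, h3, M2.im_act]
  by_cases h0 : √(Q.disc : ℝ) = 0
  · simp [h0]
  field_simp
  simp [cmp, ev, M2.j, normSq_apply]
  ring

theorem tt_tau (Q : QF) (hA : 0 < P.A) (hD : P.disc < 0) :
    Q.tt P.tau = -P.pair Q / √(-P.disc * Q.disc) := by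
  have h1 : (0 : ℝ) < P.A := by exact_mod_cast hA
  have h2 : (0 : ℝ) < -P.disc := by exact_mod_cast neg_pos.2 hD
  have h3 := Real.sq_sqrt h2.le
  have h4 : (P.disc : ℝ) = P.B ^ 2 - 4 * P.A * P.C := by simp [disc]
  have h5 := Real.sqrt_pos.2 h2
  rw [Real.sqrt_mul h2.le]
  simp only [tt, tau, normSq_mk, pair]
  by_cases h0 : √(Q.disc : ℝ) = 0
  · simp [h0]
  field_simp
  push_cast
  linear_combination (Q.A : ℝ) * h3 - Q.A * h4

/-- the mirror image of a form -/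
def mir (Q : QF) : QF := ⟨-Q.A, Q.B, -Q.C⟩

@[simp] theorem mir_mir (Q : QF) : Q.mir.mir = Q := by ext <;> simp [mir]

@[simp] theorem disc_mir (Q : QF) : Q.mir.disc = Q.disc := by simp [mir, disc]

theorem tt_mir (Q : QF) (z : ℂ) : Q.mir.tt z = -Q.tt (-conj z) := by
  simp only [tt, disc_mir]
  simp [mir]
  ring

theorem chip_eq {p : ℕ} (hp : p.Prime) (h2 : p ≠ 2) (hD : (p : ℤ) ∣ Q.disc) {x y : ℤ}
    (h : ¬ (p : ℤ) ∣ Q.ev x y) : jacobiSym (Q.ev x y) p = Q.chip p := by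
  have hp' : Prime (p : ℤ) := Nat.prime_iff_prime_int.1 hp
  have cop : ∀ {a : ℤ}, ¬ (p : ℤ) ∣ a → a.gcd p = 1 := fun h => BSD15.cfid_gcd hp h
  unfold chip
  split_ifs with hA
  · have hB : (p : ℤ) ∣ Q.B := hp'.dvd_of_dvd_pow (n := 2) (by
      have : Q.B ^ 2 = Q.disc + Q.A * (4 * Q.C) := by simp only [disc]; ring
      rw [this]; exact dvd_add hD (hA.mul_right _))
    have e : (p : ℤ) ∣ Q.ev x y - Q.C * y ^ 2 := by
      have : Q.ev x y - Q.C * y ^ 2 = Q.A * x ^ 2 + Q.B * (x * y) := by simp only [ev]; ring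
      rw [this]; exact dvd_add (hA.mul_right _) (hB.mul_right _)
    have hy : ¬ (p : ℤ) ∣ y := fun hy => h (by
      have := dvd_add e ((dvd_pow hy two_ne_zero).mul_left Q.C)
      rwa [sub_add_cancel] at this)
    rw [jacobiSym.mod_left' (Int.modEq_iff_dvd.2 e).symm,
      jacobiSym.mul_left, jacobiSym.sq_one' (cop hy), mul_one]
  · have e : (p : ℤ) ∣ (2 * Q.A * x + Q.B * y) ^ 2 - 2 ^ 2 * Q.A * Q.ev x y := by
      have := Q.four_mul_ev x y
      rw [show (2 * Q.A * x + Q.B * y) ^ 2 - 2 ^ 2 * Q.A * Q.ev x y = Q.disc * y ^ 2 by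
        linear_combination -this]
      exact hD.mul_right _
    have h2' : ¬ (p : ℤ) ∣ 2 := fun h => h2 ((Nat.prime_dvd_prime_iff_eq hp Nat.prime_two).1
      (by exact_mod_cast h))
    have hu : ¬ (p : ℤ) ∣ 2 * Q.A * x + Q.B * y := fun hu => by
      have := dvd_sub (dvd_pow hu two_ne_zero) e
      rw [sub_sub_cancel] at this
      rcases hp'.dvd_or_dvd this with h1 | h1
      · rcases hp'.dvd_or_dvd h1 with h1 | h1
        · exact h2' (hp'.dvd_of_dvd_pow h1)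
        · exact hA h1
      · exact h h1
    have e1 := jacobiSym.mod_left' (b := p) (Int.modEq_iff_dvd.2 e)
    rw [jacobiSym.sq_one' (cop hu), jacobiSym.mul_left, jacobiSym.mul_left,
      jacobiSym.sq_one' (cop h2'), one_mul] at e1
    have e2 := jacobiSym.sq_one (cop hA)
    linear_combination jacobiSym Q.A p * e1 - jacobiSym (Q.ev x y) p * e2

theorem chip_cmp {p : ℕ} (hp : p.Prime) (h2 : p ≠ 2) (hD : (p : ℤ) ∣ Q.disc) (hg : g.det = 1) :
    (Q.cmp g).chip p = Q.chip p := by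
  have hD' : (p : ℤ) ∣ (Q.cmp g).disc := by rw [disc_cmp]; exact hD.mul_left _
  by_cases h : ∃ x y, ¬ (p : ℤ) ∣ (Q.cmp g).ev x y
  · obtain ⟨x, y, h⟩ := h
    rw [← chip_eq hp h2 hD' h, ev_cmp] at *
    exact chip_eq hp h2 hD h
  · push Not at h
    have z : ∀ R : QF, (∀ x y, (p : ℤ) ∣ R.ev x y) → R.chip p = 0 := fun R hR => by
      have h1 := hR 1 0
      have h2 := hR 0 1
      simp only [ev] at h1 h2
      rw [chip, if_pos (by simpa using h1)]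
      exact BSD15.cfid_jac_zero hp (by simpa using h2)
    rw [z _ h, z Q fun x y => ?_]
    rw [← adj_cmp hg.symm.symm Q, ← cmp_mul, M2.adj_mul_self hg, ← M2.mul_adj hg, cmp_mul, ev_cmp]
    exact h _ _

end QF

open QF

theorem Lv.cmp {D ρ : ℤ} {Q : QF} {g : M2} (h : Lv D ρ Q) (hg : G0 g) : Lv D ρ (Q.cmp g) := by
  obtain ⟨h1, ⟨a, h2⟩, ⟨b, h3⟩⟩ := h
  obtain ⟨h4, ⟨c, h5⟩⟩ := hg
  refine ⟨by rw [disc_cmp, h4, h1]; ring, ⟨a * g.a ^ 2 + Q.B * g.a * c + Q.C * c * g.c, ?_⟩,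
    ⟨b + a * g.a * g.b + Q.B * g.b * c + Q.C * c * g.d, ?_⟩⟩
  · simp only [QF.cmp, ev, h2]; rw [h5]; ring
  · simp only [QF.cmp, h2, M2.det] at h4 ⊢
    rw [h5] at h4 ⊢
    linear_combination h3 + Q.B * h4

theorem lv_cmp_iff {D ρ : ℤ} {Q : QF} {g : M2} (hg : G0 g) : Lv D ρ (Q.cmp g) ↔ Lv D ρ Q :=
  ⟨fun h => cmp_adj hg.1 Q ▸ h.cmp hg.adj, fun h => h.cmp hg⟩

theorem Hg.disc_neg {n : ℕ} [hn : Good n] {ρ : ℤ} {Q : QF} (h : Hg n ρ Q) : Q.disc < 0 := by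
  rw [h.1.1]; have := hn.gt; omega

theorem Hg.cmp {n : ℕ} [Good n] {ρ : ℤ} {Q : QF} {g : M2} (h : Hg n ρ Q) (hg : G0 g) :
    Hg n ρ (Q.cmp g) := ⟨h.1.cmp hg, cmp_A_pos h.2 h.disc_neg (by rw [hg.1]; exact one_ne_zero)⟩

theorem Hg.im_pos {n : ℕ} [Good n] {ρ : ℤ} {Q : QF} (h : Hg n ρ Q) : 0 < Q.tau.im :=
  tau_im_pos h.2 h.disc_neg

theorem lv_congr {D ρ ρ' : ℤ} (h : 30 ∣ ρ - ρ') : Lv D ρ = Lv D ρ' := by
  funext Q
  unfold Lv
  have : 30 ∣ Q.B - ρ ↔ 30 ∣ Q.B - ρ' := by omega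
  rw [this]

theorem hq_congr (n : ℕ) [Good n] {ρ ρ' : ℤ} (h : 30 ∣ ρ - ρ') : hq n ρ = hq n ρ' := by
  funext c
  simp only [hq, Hg, lv_congr h]

theorem wf_cmp {D ρ : ℤ} {b : ℕ} (hb : Odd b) (hD : (b : ℤ) ∣ D) (Q : QF) {g : M2} (hg : G0 g) :
    wf D ρ b (Q.cmp g) = wf D ρ b Q := by
  unfold wf
  by_cases h : Lv D ρ Q
  · rw [if_pos h, if_pos (h.cmp hg)]
    refine Finset.prod_congr rfl fun p hp => chip_cmp (Nat.prime_of_mem_primeFactors hp) ?_ ?_ hg.1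
    · rintro rfl
      exact (Nat.not_even_iff_odd.2 hb) (even_iff_two_dvd.2 (Nat.dvd_of_mem_primeFactors hp))
    · rw [h.1]; exact (Int.natCast_dvd_natCast.2 (Nat.dvd_of_mem_primeFactors hp)).trans hD
  · rw [if_neg h, if_neg (mt (lv_cmp_iff hg).1 h)]

theorem abs_chip_le (p : ℕ) (Q : QF) : |Q.chip p| ≤ 1 := by
  unfold chip
  split_ifs <;> rcases jacobiSym.trichotomy _ p with h | h | h <;> rw [h] <;> norm_num

theorem abs_wf_le (D ρ : ℤ) (b : ℕ) (Q : QF) : |wf D ρ b Q| ≤ 1 := by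
  unfold wf
  split_ifs
  · rw [Finset.abs_prod]
    exact Finset.prod_le_one (fun _ _ => abs_nonneg _) fun p _ => abs_chip_le p Q
  · norm_num

theorem Lv.ev_ne {D ρ : ℤ} {Q : QF} (h : Lv D ρ Q) (h3 : ¬ 3 ∣ D) (h5 : ¬ 5 ∣ D)
    (hs : ¬ IsSquare D ∨ D = ρ ^ 2) : Q.ev 1 3 ≠ 0 := by
  obtain ⟨h1, h2, h4⟩ := h
  intro h0
  simp only [ev, disc] at h0 h1
  have e : D = (Q.B + 6 * Q.C) ^ 2 := by linear_combination -h1 - 4 * Q.C * h0
  rcases hs with hs | hs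
  · exact hs ⟨_, by rw [e, sq]⟩
  · have : (Q.B + 6 * Q.C - ρ) * (Q.B + 6 * Q.C + ρ) = 0 := by linear_combination hs - e
    rcases mul_eq_zero.1 this with h6 | h6
    · exact h5 (hs ▸ dvd_pow (by omega) two_ne_zero)
    · exact h3 (hs ▸ dvd_pow (by omega) two_ne_zero)

theorem wt_wf {D ρ : ℤ} {b : ℕ} (h0 : 0 < D) (hb : Odd b) (hD : (b : ℤ) ∣ D) (h3 : ¬ 3 ∣ D)
    (h5 : ¬ 5 ∣ D) (hs : ¬ IsSquare D ∨ D = ρ ^ 2) : Wt D (wf D ρ b) := by
  have l : ∀ Q, wf D ρ b Q ≠ 0 → Lv D ρ Q := fun Q h => by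
    by_contra h'; exact h (if_neg h')
  exact ⟨h0, fun Q h => (l Q h).1, abs_wf_le D ρ b, fun Q g hg => wf_cmp hb hD Q hg,
    fun Q h => (l Q h).ev_ne h3 h5 hs⟩

theorem imprim_cmp {Q : QF} {g : M2} (hB : 2 ∣ Q.B) (h : 2 ∣ Q.A ∧ 2 ∣ Q.C) :
    2 ∣ (Q.cmp g).A ∧ 2 ∣ (Q.cmp g).C := by
  have : ∀ x y, 2 ∣ Q.ev x y := fun x y =>
    dvd_add (dvd_add (h.1.mul_right _) ((hB.mul_right _).mul_right _)) (h.2.mul_right _)
  exact ⟨this _ _, this _ _⟩

theorem imprim_cmp_iff {D ρ : ℤ} {Q : QF} {g : M2} (h : Lv D (2 * ρ) Q) (hg : G0 g) :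
    (2 ∣ (Q.cmp g).A ∧ 2 ∣ (Q.cmp g).C) ↔ 2 ∣ Q.A ∧ 2 ∣ Q.C := by
  have h1 := h.2.2
  have h2 := (h.cmp hg).2.2
  exact ⟨fun h' => cmp_adj hg.1 Q ▸ imprim_cmp (by omega) h', imprim_cmp (by omega)⟩

theorem wt_w4 : Wt 4 w4 := by
  have l : ∀ Q, w4 Q ≠ 0 → Lv 4 2 Q := fun Q h => by
    by_contra h'; exact h (if_neg h')
  refine ⟨by norm_num, fun Q h => (l Q h).1, fun Q => ?_, fun Q g hg => ?_,
    fun Q h => (l Q h).ev_ne (by norm_num) (by norm_num) (.inr (by norm_num))⟩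
  · unfold w4; split_ifs <;> norm_num
  · unfold w4
    by_cases h : Lv 4 2 Q
    · rw [if_pos h, if_pos (h.cmp hg)]
      simp only [imprim_cmp_iff (ρ := 1) h hg]
    · rw [if_neg h, if_neg (mt (lv_cmp_iff hg).1 h)]

theorem w2_cmp (b : ℕ) (ρ : ℤ) (Q : QF) {g : M2} (hg : G0 g) : w2 b ρ (Q.cmp g) = w2 b ρ Q := by
  unfold w2
  by_cases h : Lv (4 * b) (2 * ρ) Q
  · rw [if_pos h, if_pos (h.cmp hg)]
    simp only [imprim_cmp_iff h hg]
  · rw [if_neg h, if_neg (mt (lv_cmp_iff hg).1 h)]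

theorem abs_w2_le (b : ℕ) (ρ : ℤ) (Q : QF) : |w2 b ρ Q| ≤ 4 := by
  unfold w2
  split_ifs
  · rcases jacobiSym.trichotomy 2 b with h | h | h <;> rw [h] <;> norm_num
  · norm_num
  · norm_num

/-! ### The discriminants `st a` -/

theorem natAbs_st (a : ℕ) : (st a).natAbs = a := by unfold st; split_ifs <;> simp

theorem st_sq (a : ℕ) : st a ^ 2 = (a : ℤ) ^ 2 := by unfold st; split_ifs <;> ring

theorem st_emod {a : ℕ} (h : Odd a) : st a % 4 = 1 := by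
  have := Nat.odd_iff.1 h
  unfold st; split_ifs <;> omega

theorem st_mul {a b : ℕ} (ha : Odd a) (hb : Odd b) : st (a * b) = st a * st b := by
  have h1 := Nat.odd_iff.1 ha
  have h2 := Nat.odd_iff.1 hb
  have h3 := Nat.mul_mod a b 4
  rcases (show a % 4 = 1 ∨ a % 4 = 3 by omega) with h | h <;>
    rcases (show b % 4 = 1 ∨ b % 4 = 3 by omega) with h' | h' <;>
    rw [h, h'] at h3 <;> simp [st, h, h', h3]

theorem jac_st {a p : ℕ} (ha : Odd a) (hp : Odd p) : jacobiSym (st a) p = jacobiSym p a := by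
  rw [Mod.jac_recip (st_emod ha) hp, natAbs_st]

theorem rt_sq (p : ℕ) : rt p ^ 2 = st p := by
  have h : ((√(p : ℝ) : ℝ) : ℂ) ^ 2 = p := by
    rw [← ofReal_pow, Real.sq_sqrt (Nat.cast_nonneg p)]; simp
  unfold rt st
  split_ifs
  · simpa using h
  · rw [mul_pow, h, I_sq]; simp

theorem rt_ne {p : ℕ} (hp : Odd p) : rt p ≠ 0 := fun h => by
  have h1 := rt_sq p
  have h2 := st_emod hp
  rw [h, zero_pow two_ne_zero, eq_comm, Int.cast_eq_zero] at h1
  omega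

theorem aut_rt (σ : Aut) (p : ℕ) : σ (rt p) = rt p ∨ σ (rt p) = -rt p :=
  sq_eq_sq_iff_eq_or_eq_neg.1 (by rw [← map_pow, rt_sq p, map_intCast])

theorem conj_rt {p : ℕ} (hp : Odd p) : conj (rt p) = jacobiSym (-1) p * rt p := by
  have := Nat.odd_iff.1 hp
  unfold rt
  split_ifs with h
  · rw [jacobiSym.at_neg_one hp, ZMod.χ₄_nat_one_mod_four h]; simp
  · rw [jacobiSym.at_neg_one hp, ZMod.χ₄_nat_three_mod_four (by omega)]; simp

/-! ### The embedding of the quadratic order -/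

theorem sqrt_neg_sq (n : ℕ) : (I * √n) ^ 2 = -(n : ℂ) := by
  rw [mul_pow, ← ofReal_pow, Real.sq_sqrt (Nat.cast_nonneg n), I_sq]; simp

/-- `emb` as a ring homomorphism -/
noncomputable def embH (n : ℕ) [Good n] : OO n →+* ℂ where
  toFun := emb n
  map_one' := by simp [emb, QuadraticAlgebra.re_one, QuadraticAlgebra.im_one]
  map_zero' := by simp [emb]
  map_add' z w := by simp [emb]; ring
  map_mul' z w := by
    have h1 := sqrt_neg_sq n
    have h2 := BSD15.qring_four (n := n)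
    simp only [emb, QuadraticAlgebra.re_mul, QuadraticAlgebra.im_mul]
    have h3 : 4 * ((((n + 1) / 4 : ℕ) : ℤ) : ℂ) = n + 1 := by exact_mod_cast h2
    simp only [Int.cast_add, Int.cast_mul, Int.cast_neg, Int.cast_one]
    linear_combination (-(z.im : ℂ) * w.im / 4) * h1 - (z.im : ℂ) * w.im / 4 * h3

@[simp] theorem embH_apply (n : ℕ) [Good n] (z : OO n) : embH n z = emb n z := rfl

theorem emb_star (n : ℕ) (z : OO n) : emb n (star z) = conj (emb n z) := by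
  simp [emb, map_ofNat]; ring

theorem emb_injective (n : ℕ) [hn : Good n] : Function.Injective (emb n) := fun z w h => by
  have h0 : (0 : ℝ) < √n := Real.sqrt_pos.2 (by have := hn.gt; exact_mod_cast (by omega : 0 < n))
  have h1 := congrArg im h
  have h2 := congrArg re h
  simp [emb, h0.ne'] at h1 h2
  rw [h1] at h2
  exact QuadraticAlgebra.ext (by exact_mod_cast add_right_cancel h2) h1

theorem emb_bet {n : ℕ} [Good n] {Q : QF} (hD : Q.disc = -n) (hA : 0 < Q.A) :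
    emb n (Q.bet n) = Q.A * Q.tau := by
  have h4 := (inferInstance : Good n).h4
  have hB : Q.B % 2 = 1 := by
    by_contra h
    obtain ⟨k, hk⟩ : 2 ∣ Q.B := by omega
    simp only [disc, hk] at hD
    have : (2 * k) ^ 2 - 4 * Q.A * Q.C = 4 * (k ^ 2 - Q.A * Q.C) := by ring
    omega
  have h1 : (2 : ℝ) * (((Q.B + 1) / 2 : ℤ) : ℝ) = Q.B + 1 := by
    exact_mod_cast (by omega : 2 * ((Q.B + 1) / 2) = Q.B + 1)
  have h2 : (Q.A : ℝ) ≠ 0 := by exact_mod_cast hA.ne'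
  apply Complex.ext
  · simp [emb, bet, tau]; field_simp; linear_combination -h1
  · simp [emb, bet, tau, hD]; field_simp

theorem isIntegral_emb (n : ℕ) [Good n] (z : OO n) : IsIntegral ℤ (emb n z) :=
  (Algebra.IsIntegral.isIntegral (R := ℤ) z).map (embH n).toIntAlgHom

/-! ### Points -/

theorem split15 {F : Type} [Field F] [CharZero F] : Split W15 (0 : F) (-9) 16 := by
  constructor <;> norm_num [W15]

theorem is_mkP {x η : ℂ} (h : η ^ 2 = 4 * ((x - 0) * (x - -9) * (x - 16))) : Is (mkP x η) x η :=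
  Classical.epsilon_spec (split15.exists_is h)

theorem eq_mkP {P : EC} {x η : ℂ} (h : Is P x η) : P = mkP x η :=
  h.unique split15 (is_mkP (h.eq split15))

theorem yy_sq {z : ℂ} (hz : 0 < z.im) : yy z ^ 2 = 4 * xx z ^ 3 - 7 * xx z ^ 2 - 36 * xx z := by
  have := Mod.RR_zero hz
  simp only [Mod.RR] at this
  linear_combination this

theorem is_Pz {z : ℂ} (hz : 0 < z.im) : Is (Pz z) (4 * xx z) (8 * yy z) :=
  is_mkP (by linear_combination 64 * yy_sq hz)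

theorem is_T2 : Is T2 (-9) 0 := is_mkP (by norm_num)

theorem T2_add : T2 + T2 = 0 := is_T2.add_eq_zero split15 (by simpa using is_T2)

theorem Pz_act {g : M2} (hg : G0 g) {z : ℂ} (hz : 0 < z.im) : Pz (g.act z) = Pz z := by
  rw [Pz, Mod.xx_inv g hg z hz, Mod.yy_inv hg hz, Pz]

theorem is_act (σ : Aut) {P : EC} {x η : ℂ} (h : Is P x η) : Is (act σ P) (σ x) (σ η) :=
  h.map (σ : ℂ →+* ℂ)

theorem act_mul (σ τ : Aut) (P : EC) : act (σ * τ) P = act σ (act τ P) :=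
  (MP_9c97e9_nt.pm_pm (τ : ℂ →+* ℂ) (σ : ℂ →+* ℂ) P).symm

theorem act_eq_self {σ : Aut} {P : EC} {x η : ℂ} (h : Is P x η) (hx : σ x = x) (hη : σ η = η) :
    act σ P = P := (hx ▸ hη ▸ is_act σ h : Is (act σ P) x η).unique split15 h

@[simp] theorem act_one (P : EC) : act 1 P = P := by
  rcases MP_9c97e9_nt.zero_or_is P with rfl | ⟨x, η, h⟩
  · simp
  · exact act_eq_self h rfl rfl

theorem act_T2 (σ : Aut) : act σ T2 = T2 := act_eq_self is_T2 (by simp [map_ofNat]) (by simp)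

/-- complex conjugation as an automorphism -/
noncomputable def cjA : Aut := starRingAut

@[simp] theorem cjA_apply (z : ℂ) : cjA z = conj z := rfl

/-! ### The action on the upper half plane -/

/-- a unimodular matrix as an element of `SL(2, ℝ)` -/
def toSL (g : M2) (hg : g.det = 1) : SL(2, ℝ) :=
  ⟨!![g.a, g.b; g.c, g.d], by
    rw [Matrix.det_fin_two_of]; exact_mod_cast hg⟩

theorem coe_toSL (g : M2) (hg : g.det = 1) (z : ℍ) : ((toSL g hg • z : ℍ) : ℂ) = g.act z := by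
  rw [UpperHalfPlane.specialLinearGroup_apply]
  simp [toSL, M2.act, Mod.mob]

theorem exists_fd (z : ℂ) (hz : 0 < z.im) :
    ∃ g : M2, g.det = 1 ∧ ∃ w : ℂ, 1 / 2 ≤ w.im ∧ |w.re| ≤ 1 / 2 ∧ g.act w = z := by
  obtain ⟨γ, h⟩ := ModularGroup.exists_smul_mem_fd ⟨z, hz⟩
  have h1 := ModularGroup.three_le_four_mul_im_sq_of_mem_fd h
  have h2 := (γ • (⟨z, hz⟩ : ℍ)).im_pos
  refine ⟨Mod.ofSL γ⁻¹, Mod.det_ofSL _, (γ • (⟨z, hz⟩ : ℍ) : ℍ), ?_, h.2, ?_⟩
  · rw [UpperHalfPlane.coe_im]; nlinarith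
  · rw [← Mod.coe_smul_ofSL, inv_smul_smul]

theorem Rq.add {x y : ℝ} (hx : Rq x) (hy : Rq y) : Rq (x + y) := by
  obtain ⟨p, rfl⟩ := hx; obtain ⟨q, rfl⟩ := hy; exact ⟨p + q, by simp⟩

theorem Rq.mul {x y : ℝ} (hx : Rq x) (hy : Rq y) : Rq (x * y) := by
  obtain ⟨p, rfl⟩ := hx; obtain ⟨q, rfl⟩ := hy; exact ⟨p * q, by simp⟩

theorem Rq.neg {x : ℝ} (hx : Rq x) : Rq (-x) := by
  obtain ⟨p, rfl⟩ := hx; exact ⟨-p, by simp⟩

theorem Rq.sub {x y : ℝ} (hx : Rq x) (hy : Rq y) : Rq (x - y) := by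
  rw [sub_eq_add_neg]; exact hx.add hy.neg

theorem Rq.div {x y : ℝ} (hx : Rq x) (hy : Rq y) : Rq (x / y) := by
  obtain ⟨p, rfl⟩ := hx; obtain ⟨q, rfl⟩ := hy; exact ⟨p / q, by simp⟩

theorem rq_rat (q : ℚ) : Rq q := ⟨q, rfl⟩

theorem rq_int (k : ℤ) : Rq k := ⟨k, by simp⟩

theorem rq_nat (k : ℕ) : Rq k := ⟨k, by simp⟩

theorem Rq.sum {ι : Type*} {s : Finset ι} {f : ι → ℝ} (h : ∀ i ∈ s, Rq (f i)) :
    Rq (∑ i ∈ s, f i) :=
  Finset.sum_induction f Rq (fun _ _ => Rq.add) ⟨0, by simp⟩ h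

theorem rq_sn (t : ℝ) : Rq (sn t) := by
  unfold sn
  rcases lt_trichotomy t 0 with h | rfl | h
  · exact ⟨-1, by simp [sign_neg h]⟩
  · exact ⟨0, by simp⟩
  · exact ⟨1, by simp [sign_pos h]⟩

theorem sn_neg (t : ℝ) : sn (-t) = -sn t := by simp [sn, Left.sign_neg]

theorem gg_neg (s t : ℝ) : gg s (-t) = -gg s t := by simp [gg, sn_neg]

theorem ee_neg (s t : ℝ) : ee s (-t) = ee s t := by simp [ee, add_comm]

theorem YY_eq {n a b : ℕ} [Good n] (h : n = a * b) (ρ : ℤ) :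
    YY a b ρ = ∑ c : ClassGroup (OO n), gJ a.primeFactors c * FI (ht n ρ c) := by
  subst h; rw [YY, dif_pos]

theorem PY_eq {n a b : ℕ} [Good n] (h : n = a * b) (ρ : ℤ) : PY a b ρ = PJ n ρ a.primeFactors := by
  subst h; rw [PY, dif_pos]

/-! ### Roots of unity and ideals of algebraic integers -/

@[simp] theorem coe_ze (d : ℕ) (b : ℤ) : (ze d b : ℂ) = qq (b / d) := rfl

theorem ze_add (d : ℕ) (a b : ℤ) : ze d (a + b) = ze d a * ze d b :=
  Subtype.ext (by simp [add_div, Mod.qq_add])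

@[simp] theorem ze_zero (d : ℕ) : ze d 0 = 1 := Subtype.ext (by simp [qq])

theorem ze_mul_neg (d : ℕ) (a : ℤ) : ze d a * ze d (-a) = 1 := by rw [← ze_add]; simp

theorem isUnit_ze (d : ℕ) (a : ℤ) : IsUnit (ze d a) := IsUnit.of_mul_eq_one _ (ze_mul_neg d a)

theorem ze_pow (d : ℕ) (a : ℤ) (k : ℕ) : ze d a ^ k = ze d (k * a) := by
  induction k with
  | zero => simp
  | succ k ih => rw [pow_succ, ih, ← ze_add]; congr 1; push_cast; ring

theorem ze_pow_self {d : ℕ} (hd : d ≠ 0) (a : ℤ) : ze d a ^ d = 1 := by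
  have h : (d : ℂ) ≠ 0 := by exact_mod_cast hd
  apply Subtype.ext
  rw [SubmonoidClass.coe_pow, coe_ze, ← Mod.qq_nat_mul, mul_div_cancel₀ _ h, qq, mul_comm,
    exp_int_mul_two_pi_mul_I]
  rfl

theorem ze_sub_one_mem {p : ℕ} (hp : p.Prime) {P : Ideal Zb} (hP : P.IsPrime) (h : (p : Zb) ∈ P)
    (a : ℤ) : ze p a - 1 ∈ P := by
  refine hP.mem_of_pow_mem p ?_
  obtain ⟨r, hr⟩ := exists_add_pow_prime_eq hp (ze p a - 1) 1
  rw [sub_add_cancel, ze_pow_self hp.ne_zero, one_pow] at hr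
  have : (ze p a - 1) ^ p = -(p * ((ze p a - 1) * 1 * r)) := by linear_combination -hr
  rw [this]
  exact P.neg_mem (P.mul_mem_right _ h)

namespace InP

variable {P : Ideal Zb} {a b : ℂ}

theorem isIntegral (h : InP P a) : IsIntegral ℤ a := by obtain ⟨z, -, rfl⟩ := h; exact z.2

theorem coe {z : Zb} : InP P z ↔ z ∈ P :=
  ⟨fun ⟨_, h, e⟩ => Subtype.ext e ▸ h, fun h => ⟨z, h, rfl⟩⟩

theorem top : InP ⊤ a ↔ IsIntegral ℤ a := ⟨isIntegral, fun h => ⟨⟨a, h⟩, trivial, rfl⟩⟩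

theorem zero : InP P 0 := ⟨0, P.zero_mem, rfl⟩

theorem add (ha : InP P a) (hb : InP P b) : InP P (a + b) := by
  obtain ⟨z, h, rfl⟩ := ha; obtain ⟨w, h', rfl⟩ := hb; exact ⟨z + w, P.add_mem h h', rfl⟩

theorem neg (ha : InP P a) : InP P (-a) := by
  obtain ⟨z, h, rfl⟩ := ha; exact ⟨-z, P.neg_mem h, rfl⟩

theorem sub (ha : InP P a) (hb : InP P b) : InP P (a - b) := by
  rw [sub_eq_add_neg]; exact ha.add hb.neg

theorem mul_left (ha : IsIntegral ℤ a) (hb : InP P b) : InP P (a * b) := by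
  obtain ⟨w, h', rfl⟩ := hb; exact ⟨⟨a, ha⟩ * w, P.mul_mem_left _ h', rfl⟩

theorem mul_right (ha : InP P a) (hb : IsIntegral ℤ b) : InP P (a * b) := by
  rw [mul_comm]; exact mul_left hb ha

theorem sum {ι : Type*} {s : Finset ι} {f : ι → ℂ} (h : ∀ i ∈ s, InP P (f i)) :
    InP P (∑ i ∈ s, f i) := Finset.sum_induction f (InP P) (fun _ _ => add) zero h

theorem of_mul (hP : P.IsPrime) (ha : IsIntegral ℤ a) (hb : IsIntegral ℤ b) (h : InP P (a * b)) :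
    InP P a ∨ InP P b :=
  (hP.mem_or_mem (x := ⟨a, ha⟩) (y := ⟨b, hb⟩) (coe.1 h)).imp coe.2 coe.2

theorem not_one (hP : P.IsPrime) : ¬ InP P 1 := fun h =>
  hP.ne_top ((Ideal.eq_top_iff_one P).2 (coe.1 h))

end InP

/-- a nonzero algebraic integer lies in no prime ideal above a large prime number -/
theorem exists_not_inP {a : ℂ} (ha : IsIntegral ℤ a) (h0 : a ≠ 0) : ∃ N : ℕ, ∀ p : ℕ, p.Prime →
    N < p → ∀ P : Ideal Zb, P.IsPrime → (p : Zb) ∈ P → ¬ InP P a := by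
  have hne : (⟨a, ha⟩ : Zb) ≠ 0 := fun h => h0 (congrArg Subtype.val h)
  obtain ⟨k, hk, e⟩ := (Algebra.IsAlgebraic.isAlgebraic (R := ℤ) (⟨a, ha⟩ : Zb)).exists_nonzero_dvd
    (mem_nonZeroDivisors_of_ne_zero hne)
  refine ⟨k.natAbs, fun p hp hN P hP h h' => hP.ne_top ?_⟩
  have h1 : (k : Zb) ∈ P := by simpa using P.mem_of_dvd e (InP.coe.1 h')
  have h2 : IsCoprime (p : ℤ) k := by
    rw [Int.isCoprime_iff_gcd_eq_one]
    exact (Nat.coprime_of_lt_prime (Int.natAbs_ne_zero.2 hk) hN hp)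
  obtain ⟨u, v, huv⟩ := h2
  have h3 : (1 : Zb) = u * p + v * k := by exact_mod_cast congrArg (Int.cast (R := Zb)) huv.symm
  rw [Ideal.eq_top_iff_one, h3]
  exact P.add_mem (P.mul_mem_left _ h) (P.mul_mem_left _ h1)

theorem omg_eq (n : ℕ) : omg n = emb n ⟨0, 1⟩ := by simp [omg, emb]

theorem isIntegral_omg (n : ℕ) [Good n] : IsIntegral ℤ (omg n) := omg_eq n ▸ isIntegral_emb n _

theorem fix_omg_iff {n : ℕ} (σ : Aut) : σ (omg n) = omg n ↔ σ (I * √n) = I * √n := by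
  have e : I * √n = 2 * omg n - 1 := by rw [omg]; ring
  refine ⟨fun h => by rw [e]; simp [h, map_ofNat], fun h => ?_⟩
  rw [omg, map_div₀, map_add, h]; simp [map_ofNat]

theorem isIntegral_rt (p : ℕ) : IsIntegral ℤ (rt p) :=
  IsIntegral.of_pow two_pos (by rw [rt_sq]; exact isIntegral_intCast _)

end Pool.Agent.P.MP_8b7eba_nt.R1
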