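import Pool.Agent.P.MP_8b7eba_nt.R1.Vf

/-! The Green functions are bounded. -/

namespace Pool.Agent.P.MP_8b7eba_nt.R1

open Complex Filter Topology MeasureTheory Metric Finset Asymptotics PowerSeries
open scoped Real UpperHalfPlane MatrixGroups ComplexConjugate
open _root_.Pool.Agent.P.MP_8b7eba_nt.Mod (M2 G0 FI L0 om lv xx yy qq UH atI ex mT)
open BSD15 (OO Good cls gch gJ nm cj rho lam Adm B3 B5 No4 Xp XJ Rn)
open MP_9c97e9_nt (Pt pm Is)

theorem bdd_abel0 {c f : ℤ → ℝ} {M : ℝ} {a : ℤ} (hM : ∀ b, |∑ i ∈ Ico a b, c i| ≤ M)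
    (hf : Antitone f) {b : ℤ} (hb : a ≤ b) :
    |∑ i ∈ Ico a b, c i * f i - (∑ i ∈ Ico a b, c i) * f b| ≤ M * (f a - f b) := by
  induction b, hb using Int.leInduction with
  | base => simp
  | succ b hb ih =>
    have h1 := hM (b + 1)
    have h2 : 0 ≤ f b - f (b + 1) := sub_nonneg.2 (hf (by omega))
    rw [← Finset.insert_Ico_right_eq_Ico_add_one hb] at h1 ⊢
    rw [sum_insert right_notMem_Ico] at h1
    rw [sum_insert right_notMem_Ico, sum_insert right_notMem_Ico]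
    have h3 := abs_le.1 ih
    have h4 := abs_le.1 h1
    have h5 := mul_le_mul_of_nonneg_right h4.1 h2
    have h6 := mul_le_mul_of_nonneg_right h4.2 h2
    rw [abs_le]
    constructor <;> nlinarith

theorem bdd_abel {c f : ℤ → ℝ} {M B : ℝ} {a : ℤ} (hM : ∀ b, |∑ i ∈ Ico a b, c i| ≤ M)
    (hf : Antitone f) (hB : ∀ i, |f i| ≤ B) {b : ℤ} (hb : a ≤ b) :
    |∑ i ∈ Ico a b, c i * f i| ≤ 3 * B * M := by
  have h0 : 0 ≤ M := (abs_nonneg _).trans (hM a)
  have h1 := bdd_abel0 hM hf hb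
  have h2 : |(∑ i ∈ Ico a b, c i) * f b| ≤ M * B := by
    rw [abs_mul]
    exact mul_le_mul (hM b) (hB b) (abs_nonneg _) h0
  have h3 : M * (f a - f b) ≤ M * (2 * B) :=
    mul_le_mul_of_nonneg_left (by linarith [abs_le.1 (hB a), abs_le.1 (hB b)]) h0
  have h4 := abs_add_le (∑ i ∈ Ico a b, c i * f i - (∑ i ∈ Ico a b, c i) * f b)
    ((∑ i ∈ Ico a b, c i) * f b)
  rw [sub_add_cancel] at h4
  linarith

theorem bdd_sn_mono : Monotone sn := fun a b h => by
  unfold sn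
  have := SignType.sign.monotone h
  generalize SignType.sign a = x at this
  generalize SignType.sign b = y at this
  cases x <;> cases y <;> first | exact absurd this (by decide) | norm_num

theorem bdd_anti {s : ℝ} (hs : 1 ≤ s) : Antitone fun t => gg s t - GG s 0 * sn t := by
  have h0 : ∀ t, GG s |t| ≤ GG s 0 := fun t =>
    GG_anti hs (Set.mem_Ici.2 le_rfl) (abs_nonneg t) (abs_nonneg t)
  intro a b h
  have ha := h0 a
  have hb := h0 b
  simp only [gg, sn]
  rcases lt_trichotomy a 0 with h1 | rfl | h1 <;> rcases lt_trichotomy b 0 with h2 | rfl | h2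
  · have := GG_anti hs (abs_nonneg b) (abs_nonneg a) (by rw [abs_of_neg h1, abs_of_neg h2]; linarith)
    simp only [sign_neg h1, sign_neg h2, SignType.coe_neg_one]
    linarith
  · simp only [sign_neg h1, sign_zero, SignType.coe_neg_one, SignType.coe_zero]
    linarith
  · simp only [sign_neg h1, sign_pos h2, SignType.coe_neg_one, SignType.coe_one]
    linarith
  · linarith
  · exact le_rfl
  · simp only [sign_zero, sign_pos h2, SignType.coe_zero, SignType.coe_one]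
    linarith
  · linarith
  · linarith
  · have := GG_anti hs (abs_nonneg a) (abs_nonneg b) (by rw [abs_of_pos h1, abs_of_pos h2]; exact h)
    simp only [sign_pos h1, sign_pos h2, SignType.coe_one]
    linarith

theorem bdd_sum {s : ℝ} (hs : 1 ≤ s) (hs' : s ≤ 2) {c t : ℤ → ℝ} {M : ℝ}
    (hM : ∀ a b, |∑ i ∈ Ico a b, c i| ≤ M) (ht : Monotone t)
    (hc : Summable fun i => c i * gg s (t i)) : |∑' i, c i * gg s (t i)| ≤ 36 * M := by
  have h0 : GG s 0 ≤ 4 := by simpa using GG_le hs hs' le_rfl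
  have h1 := GG_nonneg s 0
  have hM0 : 0 ≤ M := (abs_nonneg _).trans (hM 0 0)
  refine le_of_tendsto ((hc.hasSum.comp tendsto_Ico_neg_atTop_atTop).abs) ?_
  filter_upwards [eventually_ge_atTop (0 : ℤ)] with N hN
  have h2 := bdd_abel (hM (-N)) ((bdd_anti hs).comp_monotone ht) (B := 8) (fun i => by
    have h3 := abs_gg_le hs hs' (t i)
    have h4 : (1 + |t i|) ^ (-s) ≤ 1 :=
      Real.rpow_le_one_of_one_le_of_nonpos (by linarith [abs_nonneg (t i)]) (by linarith)
    have h5 : |GG s 0 * sn (t i)| ≤ 4 * 1 := by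
      rw [abs_mul, abs_of_nonneg h1]
      exact mul_le_mul h0 (abs_sn_le _) (abs_nonneg _) (by norm_num)
    exact (abs_sub _ _).trans (by linarith)) (b := N) (by omega)
  have h3 := bdd_abel (hM (-N)) (f := fun i => -sn (t i)) (bdd_sn_mono.comp ht).neg (B := 1)
    (fun i => by rw [abs_neg]; exact abs_sn_le _) (b := N) (by omega)
  have e : ∑ i ∈ Ico (-N) N, c i * gg s (t i) =
      ∑ i ∈ Ico (-N) N, c i * (gg s (t i) - GG s 0 * sn (t i)) -
        GG s 0 * ∑ i ∈ Ico (-N) N, c i * -sn (t i) := by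
    rw [mul_sum, ← sum_sub_distrib]
    exact sum_congr rfl fun i _ => by ring
  have h4 : |GG s 0 * ∑ i ∈ Ico (-N) N, c i * -sn (t i)| ≤ 4 * (3 * 1 * M) := by
    rw [abs_mul, abs_of_nonneg h1]
    exact mul_le_mul h0 h3 (abs_nonneg _) (by norm_num)
  change |∑ i ∈ Ico (-N) N, c i * gg s (t i)| ≤ _
  rw [e]
  exact (abs_sub _ _).trans (by simp only [Function.comp] at h2; linarith)

theorem bdd_vert {D M : ℤ} {w : QF → ℤ} (hD : 0 < D) (h1 : ∀ Q, w Q ≠ 0 → Q.disc = D)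
    (hM : ∀ k : ℤ, 0 < k → k ^ 2 = D → ∀ a b : ℤ,
      |∑ C ∈ Ico a b, (w ⟨0, k, C⟩ - w ⟨0, -k, -C⟩)| ≤ M) {s : ℝ} (hs : 1 ≤ s) (hs' : s ≤ 2)
    {z : ℂ} (hz : 0 < z.im) (hF : Summable fun Q : QF => (w Q : ℝ) * gg s (Q.tt z)) :
    |∑' Q : QF, if Q.A = 0 then (w Q : ℝ) * gg s (Q.tt z) else 0| ≤ 36 * |(M : ℝ)| := by
  have h2 : ∀ Q : QF, Q.A = 0 → w Q ≠ 0 → Q.B ^ 2 = D := fun Q h h' => by
    rw [← h1 Q h', QF.disc, h]
    ring
  by_cases hk : ∃ k : ℤ, 0 < k ∧ k ^ 2 = D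
  swap
  · have e : ∀ Q : QF, (if Q.A = 0 then (w Q : ℝ) * gg s (Q.tt z) else 0) = 0 := fun Q => by
      split_ifs with h
      · have : w Q = 0 := by_contra fun h' => hk ⟨|Q.B|, abs_pos.2 fun h0 => by
          have := h2 Q h h'
          rw [h0] at this
          omega, by rw [sq_abs, h2 Q h h']⟩
        rw [this, Int.cast_zero, zero_mul]
      · rfl
    simp only [e, tsum_zero, abs_zero]
    positivity
  obtain ⟨k, hk, hkD⟩ := hk
  set F : QF → ℝ := fun Q => (w Q : ℝ) * gg s (Q.tt z) with hFd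
  have i1 : Function.Injective fun C : ℤ => (⟨0, k, C⟩ : QF) := fun a b h => congrArg QF.C h
  have i2 : Function.Injective fun C : ℤ => (⟨0, -k, -C⟩ : QF) := fun a b h =>
    neg_injective (congrArg QF.C h)
  have e : ∀ Q : QF, (if Q.A = 0 then F Q else 0) =
      {Q : QF | Q.A = 0 ∧ Q.B = k}.indicator F Q + {Q : QF | Q.A = 0 ∧ Q.B = -k}.indicator F Q := by
    intro Q
    simp only [Set.indicator_apply, Set.mem_ofPred_eq]
    by_cases h : Q.A = 0
    · by_cases h' : w Q = 0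
      · simp [hFd, h']
      · rcases sq_eq_sq_iff_eq_or_eq_neg.1 ((h2 Q h h').trans hkD.symm) with h3 | h3
        · have : k ≠ -k := by omega
          simp [h, h3, this]
        · have : -k ≠ k := by omega
          simp [h, h3, this]
    · simp [h]
  have e1 : ∑' Q, {Q : QF | Q.A = 0 ∧ Q.B = k}.indicator F Q = ∑' C : ℤ, F ⟨0, k, C⟩ := by
    rw [← i1.tsum_eq fun Q hQ => ⟨Q.C, QF.ext (Set.support_indicator_subset hQ).1.symm
      (Set.support_indicator_subset hQ).2.symm rfl⟩]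
    exact tsum_congr fun C => Set.indicator_of_mem (by exact ⟨rfl, rfl⟩) F
  have e2 : ∑' Q, {Q : QF | Q.A = 0 ∧ Q.B = -k}.indicator F Q = ∑' C : ℤ, F ⟨0, -k, -C⟩ := by
    rw [← i2.tsum_eq fun Q hQ => ⟨-Q.C, QF.ext (Set.support_indicator_subset hQ).1.symm
      (Set.support_indicator_subset hQ).2.symm (neg_neg _)⟩]
    exact tsum_congr fun C => Set.indicator_of_mem (by exact ⟨rfl, rfl⟩) F
  have s1 : Summable fun C : ℤ => F ⟨0, k, C⟩ := hF.comp_injective i1
  have s2 : Summable fun C : ℤ => F ⟨0, -k, -C⟩ := hF.comp_injective i2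
  have e3 : ∀ C : ℤ, F ⟨0, k, C⟩ + F ⟨0, -k, -C⟩ =
      ((w ⟨0, k, C⟩ - w ⟨0, -k, -C⟩ : ℤ) : ℝ) * gg s ((k * z.re + C) / (z.im * √(k ^ 2))) := by
    intro C
    have t1 : QF.tt ⟨0, k, C⟩ z = (k * z.re + C) / (z.im * √(k ^ 2)) := by simp [QF.tt, QF.disc]
    have t2 : QF.tt ⟨0, -k, -C⟩ z = -((k * z.re + C) / (z.im * √(k ^ 2))) := by
      simp [QF.tt, QF.disc]
      ring
    simp only [hFd, t1, t2, gg_neg]
    push_cast
    ring
  have s3 := s1.add s2
  change |∑' Q : QF, if Q.A = 0 then F Q else 0| ≤ _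
  rw [tsum_congr e, (hF.indicator _).tsum_add (hF.indicator _), e1, e2, ← s1.tsum_add s2]
  simp only [e3] at s3 ⊢
  refine bdd_sum hs hs' (fun a b => ?_) (fun a b h => ?_) s3
  · exact_mod_cast (hM k hk hkD a b).trans (le_abs_self M)
  · have : (a : ℝ) ≤ b := by exact_mod_cast h
    exact div_le_div_of_nonneg_right (by linarith) (by positivity)

theorem VV_bdd {D : ℤ} {w : QF → ℤ} (hw : Wt D w) (hv : VB D w) {s : ℝ} (hs : 1 < s)
    (hs' : s ≤ 2) : ∃ M : ℝ, ∀ z : ℂ, 0 < z.im → |VV w s z| ≤ M := by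
  obtain ⟨M, hM⟩ := hv
  obtain ⟨C, hC⟩ := nonvert_bound hw.pos hs (δ := 1 / 2) (by norm_num)
  refine ⟨4 * C + 36 * |(M : ℝ)|, fun z hz => ?_⟩
  obtain ⟨g, hg, u, hu, -, rfl⟩ := exists_fd z hz
  have hu0 : 0 < u.im := by linarith
  have hg' : g.adj.det = 1 := by rw [Mod.M2.det_adj, hg]
  have h1 : ∀ Q : QF, w (Q.cmp g.adj) ≠ 0 → Q.disc = D := fun Q h => by
    rw [← hw.disc _ h, QF.disc_cmp, hg', one_pow, one_mul]
  have hF := summable_VV (w := fun Q => w (Q.cmp g.adj)) hw.pos h1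
    (fun Q => (hw.le _).trans (by norm_num)) hs hs' hu0
  have h2 := bdd_vert (w := fun Q => w (Q.cmp g.adj)) hw.pos h1 (hM g.adj hg') hs.le hs' hu0 hF
  rw [VV_act w s hg hu0, VV]
  set F : QF → ℝ := fun Q => (w (Q.cmp g.adj) : ℝ) * gg s (Q.tt u) with hFd
  have s1 : Summable fun Q : QF => if Q.A = 0 then F Q else 0 :=
    (hF.indicator {Q | Q.A = 0}).congr fun Q => by simp [Set.indicator_apply]
  have s2 : Summable fun Q : QF => if Q.A = 0 then 0 else F Q :=
    (hF.indicator {Q | Q.A ≠ 0}).congr fun Q => by simp [Set.indicator_apply]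
  have e : ∑' Q, F Q =
      (∑' Q : QF, if Q.A = 0 then 0 else F Q) + ∑' Q : QF, if Q.A = 0 then F Q else 0 := by
    rw [← s2.tsum_add s1]
    exact tsum_congr fun Q => by split_ifs <;> simp
  have h3 : |∑' Q : QF, if Q.A = 0 then 0 else F Q| ≤ 4 * C := by
    refine (norm_tsum_le_tsum_norm s2.norm).trans (s2.norm.tsum_le_of_sum_le fun T => ?_)
    refine le_trans ?_ (mul_le_mul_of_nonneg_left
      (hC u hu (T.filter fun Q => Q.disc = D ∧ Q.A ≠ 0) fun Q hQ => (mem_filter.1 hQ).2)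
      (by norm_num))
    rw [mul_sum, sum_filter]
    refine sum_le_sum fun Q _ => ?_
    by_cases h : Q.A = 0
    · simp [h]
    · by_cases h' : Q.disc = D
      · rw [if_neg h, if_pos ⟨h', h⟩, Real.norm_eq_abs, abs_mul]
        have h4 : |(w (Q.cmp g.adj) : ℝ)| ≤ 1 := by exact_mod_cast hw.le _
        exact (mul_le_of_le_one_left (abs_nonneg _) h4).trans (abs_gg_le hs.le hs' _)
      · have h4 : w (Q.cmp g.adj) = 0 := by_contra fun h4 => h' (h1 Q h4)
        simp [h, h', hFd, h4]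
  rw [e]
  exact (abs_add_le _ _).trans (add_le_add h3 h2)

end Pool.Agent.P.MP_8b7eba_nt.R1
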