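import Pool.Agent.P.MP_8b7eba_nt.R1.Aut

/-! Points over genus fields. -/

namespace Pool.Agent.P.MP_8b7eba_nt.R1

open Complex Filter Topology MeasureTheory Metric Finset Asymptotics PowerSeries
open scoped Real UpperHalfPlane MatrixGroups ComplexConjugate
open _root_.Pool.Agent.P.MP_8b7eba_nt.Mod (M2 G0 FI L0 om lv xx yy qq UH atI ex mT)
open BSD15 (OO Good cls gch gJ nm cj rho lam Adm B3 B5 No4 Xp XJ Rn)
open MP_9c97e9_nt (Pt pm Is)

variable {R R' : EC}

theorem kum_ok_union {S S' : Finset ℕ} (h : OkS S) (h' : OkS S') : OkS (S ∪ S') := fun p hp =>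
  (Finset.mem_union.1 hp).elim (h p) (h' p)

theorem kum_zsmul_T2 (k : ℤ) : k • T2 = 0 ∨ k • T2 = T2 := by
  rcases Int.even_or_odd' k with ⟨j, rfl | rfl⟩
  · left
    rw [mul_comm, mul_smul, two_zsmul, T2_add, smul_zero]
  · right
    rw [add_smul, mul_comm, mul_smul, two_zsmul, T2_add, smul_zero, zero_add, one_smul]

theorem kum_prop_zsmul {σ : Aut} {H : EC} (h : act σ H - H = 0 ∨ act σ H - H = T2) (k : ℤ) :
    act σ (k • H) - k • H = 0 ∨ act σ (k • H) - k • H = T2 := by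
  rw [map_zsmul, ← smul_sub]
  rcases h with h | h
  · left
    rw [h, smul_zero]
  · rw [h]
    exact kum_zsmul_T2 k

theorem kum_fix_two {σ : Aut} {H : EC} (h : act σ H - H = 0 ∨ act σ H - H = T2) :
    act σ (H + H) = H + H := by
  have e : act σ (H + H) - (H + H) = (act σ H - H) + (act σ H - H) := by
    rw [map_add]
    abel
  rw [← sub_eq_zero, e]
  rcases h with h | h
  · rw [h, add_zero]
  · rw [h, T2_add]

theorem kum_UU (σ : Aut) {e₁ e₂ e₃ : ℂ} (h1 : σ e₁ = e₁) (h2 : σ e₂ = e₂) (h3 : σ e₃ = e₃)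
    (P : EC) : σ (MP_9c97e9_nt.UU e₁ e₂ e₃ P) = MP_9c97e9_nt.UU e₁ e₂ e₃ (act σ P) := by
  have := MP_9c97e9_nt.UU_map (e₁ := e₁) (e₂ := e₂) (e₃ := e₃) (σ : ℂ →+* ℂ) P
  simp only [RingHom.coe_coe, h1, h2, h3] at this
  exact this.symm

theorem kum_contra {σ : Aut} {U s : ℂ} (hs : σ s = -s) (hU : σ U = U) (h : U ^ 2 = s ^ 2) :
    U = 0 := by
  rcases sq_eq_sq_iff_eq_or_eq_neg.1 h with rfl | rfl
  · linear_combination (hs - hU) / 2
  · rw [map_neg, hs] at hU
    linear_combination -hU / 2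

theorem kum_ne_two {T : Finset ℕ} (hT : OkS T) : ∀ p ∈ T, p.Prime ∧ p ≠ 2 := fun p hp =>
  ⟨(hT p hp).1, fun h => by
    have := (hT p hp).2
    rw [h] at this
    norm_num at this⟩

theorem kum_aut_I {T : Finset ℕ} (hT : OkS T) : ∃ σ : Aut, Fx T σ ∧ σ I = -I := by
  obtain ⟨σ, h1, h2⟩ := exists_aut_signs T (kum_ne_two hT) (fun _ => 1) (fun _ _ => .inl rfl)
    (δ := -1) (.inr rfl)
  exact ⟨σ, fun p hp => by simpa using h1 p hp, by simpa using h2⟩

theorem kum_aut_five {T : Finset ℕ} (hT : OkS T) : ∃ σ : Aut, Fx T σ ∧ σ (rt 5) = -rt 5 := by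
  obtain ⟨σ, h1, -⟩ := exists_aut_signs (insert 5 T)
    (fun p hp => (Finset.mem_insert.1 hp).elim (fun h => h ▸ ⟨by norm_num, by norm_num⟩)
      (kum_ne_two hT p))
    (fun p => if p = 5 then -1 else 1) (fun p _ => by split_ifs <;> simp) (δ := 1) (.inl rfl)
  refine ⟨σ, fun p hp => ?_, by simpa using h1 5 (Finset.mem_insert_self _ _)⟩
  have h5 : p ≠ 5 := fun h => by
    have := (hT p hp).2
    rw [h] at this
    norm_num at this
  simpa [h5] using h1 p (Finset.mem_insert_of_mem hp)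

theorem kum_no8 {T : Finset ℕ} (hT : OkS T) {H : EC}
    (hH : ∀ σ, Fx T σ → act σ H - H = 0 ∨ act σ H - H = T2)
    (h8 : (H + H + (H + H)) + (H + H + (H + H)) = 0) : H + H + (H + H) = 0 := by
  have s16 : MP_9c97e9_nt.Split W15 (16 : ℂ) 0 (-9) := split15.swap'.swap
  have s9 : MP_9c97e9_nt.Split W15 (-9 : ℂ) 0 16 := split15.swap
  have a16 : ∀ σ : Aut, σ 16 = 16 := fun σ => map_ofNat σ 16
  have a9 : ∀ σ : Aut, σ (-9) = -9 := fun σ => by rw [map_neg, map_ofNat]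
  rcases MP_9c97e9_nt.two_torsion split15 h8 with h | h | h | h
  · exact h
  · exfalso
    obtain ⟨σ, h1, h2⟩ := kum_aut_I hT
    have e1 := MP_9c97e9_nt.UU_sq s16 h
    have e2 := kum_UU σ (a16 σ) (map_zero σ) (a9 σ) (H + H)
    rw [kum_fix_two (hH σ h1)] at e2
    have e3 := kum_contra (s := 4 * I) (by rw [map_mul, h2, map_ofNat]; ring) e2
      (by rw [← e1, mul_pow, I_sq]; norm_num)
    rw [e3] at e1
    norm_num at e1
  · exfalso
    obtain ⟨σ, h1, h2⟩ := kum_aut_I hT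
    have e1 := MP_9c97e9_nt.UU_sq split15 h
    have e2 := kum_UU σ (map_zero σ) (a9 σ) (a16 σ) (H + H)
    rw [kum_fix_two (hH σ h1)] at e2
    have e3 := kum_contra (s := 3 * I) (by rw [map_mul, h2, map_ofNat]; ring) e2
      (by rw [← e1, mul_pow, I_sq]; norm_num)
    rw [e3] at e1
    norm_num at e1
  · exfalso
    obtain ⟨σ, h1, h2⟩ := kum_aut_five hT
    have h0 : H + H ≠ 0 := fun e => h.ne_zero (by rw [e, add_zero])
    obtain ⟨X, η, hR⟩ := (MP_9c97e9_nt.zero_or_is (H + H)).resolve_left h0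
    have hη : η ≠ 0 := (hR.two_ne split15).1 h.ne_zero
    have e0 := MP_9c97e9_nt.UU_sq s16 h
    rw [sub_self, eq_comm, pow_eq_zero_iff two_ne_zero, hR.UU_eq, div_eq_zero_iff] at e0
    have e4 : (X - 36) * (X + 4) = 0 := by linear_combination e0.resolve_right hη
    have e1 := MP_9c97e9_nt.UU_sq s9 hR
    have e2 := kum_UU σ (a9 σ) (map_zero σ) (a16 σ) H
    have e5 : MP_9c97e9_nt.UU (-9) 0 16 (act σ H) = MP_9c97e9_nt.UU (-9) 0 16 H := by
      rcases hH σ h1 with h3 | h3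
      · rw [sub_eq_zero.1 h3]
      · rw [eq_add_of_sub_eq' h3, MP_9c97e9_nt.UU_add s9 T2_add h0, is_T2.sg_eq]
        simp
    rw [e5] at e2
    have r5 : rt 5 ^ 2 = 5 := by
      rw [rt_sq]
      simp [st]
    rcases mul_eq_zero.1 e4 with e6 | e6
    · have e3 := kum_contra (s := 3 * rt 5) (by rw [map_mul, h2, map_ofNat]; ring) e2
        (by rw [← e1, mul_pow, r5]; linear_combination e6)
      rw [e3] at e1
      have : (45 : ℂ) = 0 := by linear_combination e1 - e6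
      norm_num at this
    · have e3 := kum_contra h2 e2 (by rw [← e1, r5]; linear_combination e6)
      rw [e3] at e1
      have : (5 : ℂ) = 0 := by linear_combination e1 - e6
      norm_num at this

theorem kum_pow {T : Finset ℕ} (hT : OkS T) (k : ℕ) : ∀ H : EC,
    (∀ σ, Fx T σ → act σ H - H = 0 ∨ act σ H - H = T2) → 2 ^ k • H = 0 →
      H + H + (H + H) = 0 := by
  induction k with
  | zero =>
    intro H _ h
    rw [pow_zero, one_smul] at h
    simp [h]
  | succ k ih =>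
    intro H hH h
    refine kum_no8 hT hH (ih (H + H) (fun σ hσ => .inl ?_) ?_)
    · rw [kum_fix_two (hH σ hσ), sub_self]
    · rw [← two_nsmul, ← mul_smul, ← pow_succ, h]

theorem act_two_tors {T : EC} (h : T + T = 0) (σ : Aut) : act σ T = T := by
  rcases MP_9c97e9_nt.two_torsion split15 h with rfl | h1 | h1 | h1
  · exact map_zero _
  · exact act_eq_self h1 (map_zero σ) (map_zero σ)
  · exact act_eq_self h1 (by rw [map_neg, map_ofNat]) (map_zero σ)
  · exact act_eq_self h1 (map_ofNat σ 16) (map_zero σ)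

theorem InC.zero : InC 0 :=
  ⟨∅, fun _ h => absurd h (Finset.notMem_empty _), fun _ _ => map_zero _, fun _ _ => by simp⟩

theorem InC.add (h : InC R) (h' : InC R') : InC (R + R') := by
  obtain ⟨S, h1, h2, h3⟩ := h
  obtain ⟨S', g1, g2, g3⟩ := h'
  refine ⟨S ∪ S', kum_ok_union h1 g1, fun σ hσ => ?_, fun σ hσ => ?_⟩
  · rw [map_add, h2 σ fun p hp => hσ p (Finset.mem_union_left _ hp),
      g2 σ fun p hp => hσ p (Finset.mem_union_right _ hp)]
  · rw [map_add, add_add_add_comm, smul_add, h3 σ fun p hp => hσ p (Finset.mem_union_left _ hp),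
      g3 σ fun p hp => hσ p (Finset.mem_union_right _ hp), add_zero]

theorem InC.zsmul (h : InC R) (k : ℤ) : InC (k • R) := by
  obtain ⟨S, h1, h2, h3⟩ := h
  refine ⟨S, h1, fun σ hσ => ?_, fun σ hσ => ?_⟩
  · rw [map_zsmul, h2 σ hσ]
  · rw [map_zsmul, ← smul_add, smul_comm, h3 σ hσ, smul_zero]

theorem InB.zero : InB 0 :=
  ⟨∅, fun _ h => absurd h (Finset.notMem_empty _), ⟨0, add_zero _, fun _ _ => .inl (by simp)⟩,
    fun _ _ => by simp⟩

theorem InB.add (h : InB R) (h' : InB R') : InB (R + R') := by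
  obtain ⟨S, h1, ⟨H, rfl, h2⟩, h3⟩ := h
  obtain ⟨S', g1, ⟨H', rfl, g2⟩, g3⟩ := h'
  refine ⟨S ∪ S', kum_ok_union h1 g1, ⟨H + H', by abel, fun σ hσ => ?_⟩, fun σ hσ => ?_⟩
  · have e : act σ (H + H') - (H + H') = (act σ H - H) + (act σ H' - H') := by
      rw [map_add]
      abel
    rw [e]
    rcases h2 σ fun p hp => hσ p (Finset.mem_union_left _ hp) with a | a <;>
      rcases g2 σ fun p hp => hσ p (Finset.mem_union_right _ hp) with b | b <;>
      rw [a, b] <;> simp [T2_add]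
  · rw [map_add, add_add_add_comm, h3 σ fun p hp => hσ p (Finset.mem_union_left _ hp),
      g3 σ fun p hp => hσ p (Finset.mem_union_right _ hp), add_zero]

theorem InB.zsmul (h : InB R) (k : ℤ) : InB (k • R) := by
  obtain ⟨S, h1, ⟨H, rfl, h2⟩, h3⟩ := h
  refine ⟨S, h1, ⟨k • H, (smul_add k H H).symm, fun σ hσ => kum_prop_zsmul (h2 σ hσ) k⟩,
    fun σ hσ => ?_⟩
  rw [map_zsmul, ← smul_add, h3 σ hσ, smul_zero]

theorem InB.inC (h : InB R) : InC R := by
  obtain ⟨S, h1, ⟨H, rfl, h2⟩, h3⟩ := h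
  exact ⟨S, h1, fun σ hσ => kum_fix_two (h2 σ hσ), fun σ hσ => by rw [h3 σ hσ, smul_zero]⟩

theorem InC.four (h : InC R) : InB ((4 : ℤ) • R) := by
  obtain ⟨S, h1, h2, h3⟩ := h
  refine ⟨S, h1, ⟨R + R, by abel, fun σ hσ => .inl ?_⟩, fun σ hσ => ?_⟩
  · rw [map_add, h2 σ hσ, sub_self]
  · rw [map_zsmul, ← smul_add, ← h3 σ hσ]
    exact natCast_zsmul _ 4

theorem kum_tors {T : Finset ℕ} (hT : OkS T) {H : EC}
    (hH : ∀ σ, Fx T σ → act σ H - H = 0 ∨ act σ H - H = T2) (ht : IsOfFinAddOrder H) :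
    ∃ m : ℕ, Odd m ∧ (4 * m) • H = 0 := by
  obtain ⟨n, hn, h0⟩ := isOfFinAddOrder_iff_nsmul_eq_zero.1 ht
  obtain ⟨k, m, hm, rfl⟩ := Nat.exists_eq_two_pow_mul_odd hn.ne'
  refine ⟨m, hm, ?_⟩
  have h1 := kum_pow hT k (m • H) (fun σ hσ => by
    simpa only [natCast_zsmul] using kum_prop_zsmul (hH σ hσ) m) (by rw [← mul_smul, h0])
  rw [mul_smul, ← h1]
  abel

end Pool.Agent.P.MP_8b7eba_nt.R1
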