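import Pool.Agent.P.MP_8b7eba_nt.R1.Add
import Pool.Agent.P.MP_8b7eba_nt.R1.Lat
import Pool.Agent.P.MP_8b7eba_nt.BSD15.Euler

/-! The modular parametrisation factors through the complex uniformisation. -/

namespace Pool.Agent.P.MP_8b7eba_nt.R1

open Complex Filter Topology MeasureTheory Metric Finset Asymptotics PowerSeries
open scoped Real UpperHalfPlane MatrixGroups ComplexConjugate
open _root_.Pool.Agent.P.MP_8b7eba_nt.Mod (M2 G0 FI L0 om lv xx yy qq UH atI ex mT)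
open BSD15 (OO Good cls gch gJ nm cj rho lam Adm B3 B5 No4 Xp XJ Rn)
open MP_9c97e9_nt (Pt pm Is)

theorem unif_surj {q : ℂ} (h0 : q ≠ 0) (h1 : ‖q‖ < 1) : ∃ z : ℂ, 0 < z.im ∧ qq z = q :=
  ⟨_, Function.Periodic.im_invQParam_pos_of_norm_lt_one one_pos h1 h0,
    (Mod.qq_eq _).trans (Function.Periodic.qParam_right_inv one_ne_zero h0)⟩

theorem unif_punct : ∀ᶠ q in 𝓝[≠] (0 : ℂ), q ≠ 0 ∧ ‖q‖ < 1 :=
  eventually_mem_nhdsWithin.and (mem_nhdsWithin_of_mem_nhds
    (mem_of_superset (ball_mem_nhds (0 : ℂ) one_pos) fun _ h => mem_ball_zero_iff.1 h))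

/-- the numerator of the modular function -/
noncomputable def unifA (q : ℂ) : ℂ := Mod.Nf q / Mod.Mf q - 7 / 12 * q ^ 2

theorem unif_A_qq (z : ℂ) : unifA (qq z) / qq z ^ 2 = xx z - 7 / 12 := by
  rw [unifA, Mod.xx_eq, sub_div, mul_div_cancel_right₀ _ (pow_ne_zero 2 (Mod.qq_ne z)), div_div,
    mul_comm]

theorem unif_A_ode {q : ℂ} (h0 : q ≠ 0) (h1 : ‖q‖ < 1) :
    deriv (fun q => unifA q / q ^ 2) q ^ 2 = Mod.Ff q ^ 2 *
      (4 * (unifA q / q ^ 2) ^ 3 - 481 / 12 * (unifA q / q ^ 2) - 4879 / 216) := by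
  obtain ⟨z, hz, rfl⟩ := unif_surj h0 h1
  have hb : ball (0 : ℂ) 1 ∈ 𝓝 (qq z) := isOpen_ball.mem_nhds (mem_ball_zero_iff.2 h1)
  have d : DifferentiableAt ℂ (fun q => unifA q / q ^ 2) (qq z) :=
    (((Mod.rep_Nf.1.differentiableAt hb).div (Mod.rep_Mf.1.differentiableAt hb)
      (Mod.Mf_ne hz)).sub (by fun_prop)).div (by fun_prop) (pow_ne_zero _ h0)
  have e1 : HasDerivAt (fun z => xx z - 7 / 12) _ z :=
    (d.hasDerivAt.comp z (Mod.hasDerivAt_qq z)).congr_of_eventuallyEq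
      (.of_forall fun w => (unif_A_qq w).symm)
  have e2 := e1.unique
    ((Mod.diff_xx.differentiableAt (Mod.UH_mem_nhds hz)).hasDerivAt.sub_const (7 / 12))
  have e3 : deriv (fun q => unifA q / q ^ 2) (qq z) = Mod.Ff (qq z) * yy z := by
    have := Mod.two_pi_I_ne
    have := Mod.Ff_ne hz
    rw [yy, ← e2, Mod.ff_eq]
    field_simp
  rw [e3, unif_A_qq]
  linear_combination Mod.Ff (qq z) ^ 2 * yy_sq hz

theorem unif_local (L : PeriodPair) (h2 : L.g₂ = 481 / 12) (h3 : L.g₃ = 4879 / 216) :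
    ∀ᶠ q in 𝓝[≠] (0 : ℂ), unifA q / q ^ 2 = L.weierstrassP (Mod.exists_Phi.choose q) := by
  obtain ⟨p0, p1⟩ := Mod.exists_Phi.choose_spec
  generalize Mod.exists_Phi.choose = Φ at p0 p1 ⊢
  have hb := ball_mem_nhds (0 : ℂ) one_pos
  have F0 : Mod.Ff 0 = 1 := by simpa [Mod.const_FF] using Mod.rep_Ff.apply_zero
  have N0 : Mod.Nf 0 = 1 := by simpa [Mod.const_NN] using Mod.rep_Nf.apply_zero
  have M0 : Mod.Mf 0 = 1 := by simpa [Mod.const_MM] using Mod.rep_Mf.apply_zero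
  have dΦ : DifferentiableOn ℂ Φ (ball 0 1) :=
    fun q hq => (p1 q hq).differentiableAt.differentiableWithinAt
  have aΦ := dΦ.analyticAt hb
  have aψ := ((differentiableOn_dslope hb).2 dΦ).analyticAt hb
  have ψ0 : dslope Φ 0 0 = 1 := by rw [dslope_same, (p1 0 (mem_ball_self one_pos)).deriv, F0]
  have e : ∀ q, Φ q = q * dslope Φ 0 q := fun q => by
    simpa [p0] using (sub_smul_dslope Φ 0 q).symm
  have eb : (fun q => (1 / dslope Φ 0 q ^ 2 + q ^ 2 * L.weierstrassPExcept 0 (Φ q)) / q ^ 2)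
      =ᶠ[𝓝[≠] 0] fun q => L.weierstrassP (Φ q) := by
    filter_upwards [unif_punct] with q hq
    have := hq.1
    rw [← L.weierstrassPExcept_add 0, add_div, mul_div_cancel_left₀ _ (pow_ne_zero 2 this),
      div_div, ← mul_pow, mul_comm _ q, ← e]
    simp [add_comm]
  have nl : ∀ᶠ q in 𝓝[≠] (0 : ℂ), Φ q ∉ L.lattice := by
    filter_upwards [(p1 0 (mem_ball_self one_pos)).eventually_ne (c := 0) (F0 ▸ one_ne_zero),
      mem_nhdsWithin_of_mem_nhds (aΦ.continuousAt.tendsto.eventually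
        (L.compl_lattice_sdiff_singleton_mem_nhds (Φ 0)))] with q h h' hq
    exact h' ⟨hq, by simpa [p0] using h⟩
  have key := pole_unique (a := unifA)
    (b := fun q => 1 / dslope Φ 0 q ^ 2 + q ^ 2 * L.weierstrassPExcept 0 (Φ q)) (φ := Mod.Ff)
    (g₂ := 481 / 12) (g₃ := 4879 / 216)
    ((Mod.rep_Nf.analyticAt.div Mod.rep_Mf.analyticAt (M0 ▸ one_ne_zero)).sub (by fun_prop))
    ((analyticAt_const.div (aψ.pow 2) (pow_ne_zero 2 (ψ0 ▸ one_ne_zero))).add
      ((analyticAt_id.pow 2).mul ((L.analyticAt_weierstrassPExcept 0).comp_of_eq aΦ p0)))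
    Mod.rep_Ff.analyticAt (by simp [unifA, N0, M0]) (by simp [ψ0, -dslope_same]) F0
    (unif_punct.mono fun q h => unif_A_ode h.1 h.2) (by
      filter_upwards [eb, eb.nhdsNE_deriv, nl, unif_punct] with q e1 e2 h h'
      have d := ((L.analyticOnNhd_weierstrassP _ h).differentiableAt.hasDerivAt.comp q
        (p1 q (mem_ball_zero_iff.2 h'.2))).deriv
      rw [e2, e1, show deriv (fun q => L.weierstrassP (Φ q)) q = _ from d, mul_pow,
        L.deriv_weierstrassP, L.derivWeierstrassP_sq _ h, h2, h3, mul_comm])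
  filter_upwards [eb, mem_nhdsWithin_of_mem_nhds key] with q e1 e2
  rw [← e1, show unifA q = _ from e2]

theorem unif_lim (L : PeriodPair) {α : Type} {l : Filter α} [l.NeBot] {F : α → ℂ} {w c : ℂ}
    (hF : Tendsto F l (𝓝 w)) (hne : w ∈ L.lattice → ∀ᶠ a in l, F a ≠ w)
    (hP : Tendsto (fun a => L.weierstrassP (F a)) l (𝓝 c)) :
    w ∉ L.lattice ∧ L.weierstrassP w = c := by
  have h : w ∉ L.lattice := fun hw => by
    have h1 := (hF.sub_const w).pow 2
    have h2 := ((h1.mul ((L.analyticAt_weierstrassPExcept w).continuousAt.tendsto.comp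
      hF)).add_const 1).sub (h1.div_const (w ^ 2))
    have h3 := tendsto_nhds_unique (h1.mul hP) (h2.congr' (by
      filter_upwards [hne hw] with a ha
      have := L.ite_eq_one_sub_sq_mul_weierstrassP w hw (F a)
      rw [if_neg ha] at this
      exact this.symm))
    simp at h3
  exact ⟨h, tendsto_nhds_unique
    ((L.analyticOnNhd_weierstrassP _ h).continuousAt.tendsto.comp hF) hP⟩

theorem unif_global (L : PeriodPair) (h2 : L.g₂ = 481 / 12) (h3 : L.g₃ = 4879 / 216) {z : ℂ}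
    (hz : 0 < z.im) : FI z ∉ L.lattice ∧ L.weierstrassP (FI z) = xx z - 7 / 12 := by
  have hm : MeromorphicOn (fun z => L.weierstrassP (FI z) - (xx z - 7 / 12)) UH := fun w hw =>
    ((L.meromorphic_weierstrassP _).comp_analyticAt
      (Mod.diff_FI.analyticAt (Mod.UH_mem_nhds hw))).sub
        ((Mod.diff_xx.analyticAt (Mod.UH_mem_nhds hw)).sub analyticAt_const).meromorphicAt
  obtain ⟨z₀, h0, h1⟩ := ((Mod.ev_im 0).and (Mod.tendsto_qq.eventually
    (eventually_eventually_nhds.2 (eventually_nhdsWithin_iff.1 (unif_local L h2 h3))))).exists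
  have h4 : ∀ᶠ w in 𝓝[≠] z, L.weierstrassP (FI w) - (xx w - 7 / 12) = 0 := by
    by_contra h
    refine hm.meromorphicOrderAt_ne_top_of_isPreconnected
      (convex_halfSpace_im_gt 0).isPreconnected hz h0 (mt meromorphicOrderAt_eq_top_iff.1 h)
      (meromorphicOrderAt_eq_top_iff.2 (mem_nhdsWithin_of_mem_nhds ?_))
    filter_upwards [(Mod.hasDerivAt_qq z₀).continuousAt.tendsto.eventually h1] with w hw
    rw [← unif_A_qq, hw (Mod.qq_ne w)]
    exact sub_self _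
  have d := Mod.hasDerivAt_FI hz
  refine unif_lim L (l := 𝓝[≠] z) (d.continuousAt.tendsto.mono_left nhdsWithin_le_nhds)
    (fun _ => d.eventually_ne (mul_ne_zero Mod.two_pi_I_ne (Mod.ff_ne hz)))
    ((((Mod.diff_xx.differentiableAt (Mod.UH_mem_nhds hz)).continuousAt.tendsto.mono_left
      nhdsWithin_le_nhds).sub_const _).congr' (h4.mono fun w hw => (sub_eq_zero.1 hw).symm))

theorem unif_yy (L : PeriodPair) (h2 : L.g₂ = 481 / 12) (h3 : L.g₃ = 4879 / 216) {z : ℂ}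
    (hz : 0 < z.im) : L.derivWeierstrassP (FI z) = yy z := by
  have d := ((L.analyticOnNhd_weierstrassP _
    (unif_global L h2 h3 hz).1).differentiableAt.hasDerivAt.comp z (Mod.hasDerivAt_FI hz)).unique
      (((Mod.diff_xx.differentiableAt (Mod.UH_mem_nhds hz)).hasDerivAt.sub_const
        (7 / 12)).congr_of_eventuallyEq (by
          filter_upwards [Mod.UH_mem_nhds hz] with w hw using (unif_global L h2 h3 hw).2))
  rw [yy, ← d, L.deriv_weierstrassP,
    mul_div_cancel_right₀ _ (mul_ne_zero Mod.two_pi_I_ne (Mod.ff_ne hz))]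

theorem unif_rt {k : ℝ} (hk : 0 < k) {r z : ℂ} (h : Mod.Rt r (-I * z)) :
    Mod.Rt ((√k : ℝ) * r) (-I * (k * z)) := by
  have h0 := Real.sqrt_pos.2 hk
  refine ⟨?_, ?_⟩
  · rw [mul_pow, h.1, ← ofReal_pow, Real.sq_sqrt hk.le]; ring
  · rw [im_ofReal_mul, re_ofReal_mul, abs_mul, abs_of_pos h0]
    exact mul_lt_mul_of_pos_left h.2 h0

theorem unif_xx_W {z : ℂ} (hz : 0 < z.im) : xx ((⟨0, -1, 15, 0⟩ : M2).act z) =
    9 * (Mod.Pf 5 (qq z) * Mod.Pf 3 (qq z) ^ 5 / (Mod.Pf 15 (qq z) * Mod.Pf 1 (qq z) ^ 5)) := by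
  have z0 : z ≠ 0 := by rintro rfl; simp at hz
  obtain ⟨r, hr⟩ := Mod.exists_rt (w := -I * z) (by simpa using hz)
  have r0 : r ≠ 0 := by rintro rfl; simpa using hr.2
  have e : (⟨0, -1, 15, 0⟩ : M2).act z = -1 / (15 * z) := by simp [M2.act_eq, M2.j]
  have s1 := Mod.eta_S hz hr
  have s3 := Mod.eta_S (Mod.im3 hz) (unif_rt (k := 3) (by norm_num) hr)
  have s5 := Mod.eta_S (Mod.im5 hz) (unif_rt (k := 5) (by norm_num) hr)
  have s15 := Mod.eta_S (Mod.im15 hz) (unif_rt (k := 15) (by norm_num) hr)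
  obtain ⟨q1, q3, q5, q15⟩ := Mod.four_q z
  have t3 : ((√3 : ℝ) : ℂ) ^ 2 = 3 := by rw [← ofReal_pow, Real.sq_sqrt (by norm_num)]; simp
  have t15 : ((√15 : ℝ) : ℂ) = (√3 : ℝ) * (√5 : ℝ) := by
    rw [← ofReal_mul, ← Real.sqrt_mul (by norm_num)]; norm_num
  have n3 : ((√3 : ℝ) : ℂ) ≠ 0 := by simp
  have n5 : ((√5 : ℝ) : ℂ) ≠ 0 := by simp
  have n1 := Mod.Pf_ne one_pos hz
  have n15 := Mod.Pf_ne (δ := 15) (by norm_num) hz
  have n0 := Complex.exp_ne_zero (2 * π * I * z / 24)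
  rw [xx, e, show 3 * (-1 / (15 * z)) = -1 / (5 * z) by field_simp; norm_num,
    show 5 * (-1 / (15 * z)) = -1 / (3 * z) by field_simp; norm_num,
    show 15 * (-1 / (15 * z)) = -1 / z by field_simp, s1, s3, s5, s15, q1, q3, q5, q15, t15]
  field_simp
  linear_combination (((√3 : ℝ) : ℂ) ^ 2 + 3) * Mod.Pf 5 (qq z) * Mod.Pf 3 (qq z) ^ 5 * t3

theorem unif_tendsto_W : Tendsto (fun z => xx ((⟨0, -1, 15, 0⟩ : M2).act z)) atI (𝓝 9) := by
  have h1 := (Mod.rep_Pf one_pos).tendsto.comp Mod.tendsto_qq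
  have h3 := (Mod.rep_Pf (δ := 3) (by norm_num)).tendsto.comp Mod.tendsto_qq
  have h5 := (Mod.rep_Pf (δ := 5) (by norm_num)).tendsto.comp Mod.tendsto_qq
  have h15 := (Mod.rep_Pf (δ := 15) (by norm_num)).tendsto.comp Mod.tendsto_qq
  rw [Mod.const_of_dvd Mod.PP_one] at h1
  rw [Mod.const_of_dvd Mod.PP_three] at h3
  rw [Mod.const_of_dvd Mod.PP_five] at h5
  rw [Mod.const_of_dvd Mod.PP_fifteen] at h15
  have := ((h5.mul (h3.pow 5)).div (h15.mul (h1.pow 5)) (by simp)).const_mul 9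
  refine Tendsto.congr' ?_ (by simpa using this)
  filter_upwards [Mod.ev_im 0] with z hz using (unif_xx_W hz).symm

theorem exists_unif :
    ∃ u : ℂ →+ EC, (∀ z : ℂ, 0 < z.im → u (FI z) = Pz z) ∧ ∃ η, Is (u L0) 36 η := by
  obtain ⟨L, h2, h3⟩ := exists_lattice
  obtain ⟨u, -, hu⟩ := exists_hom L h2 h3
  refine ⟨u, fun z hz => ?_, 8 * L.derivWeierstrassP L0, ?_⟩
  · obtain ⟨h4, h5⟩ := unif_global L h2 h3 hz
    have := hu _ h4
    rw [h5, unif_yy L h2 h3 hz, show 4 * (xx z - 7 / 12) + 7 / 3 = 4 * xx z by ring] at this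
    exact eq_mkP this
  · have hd : 0 < (⟨0, -1, 15, 0⟩ : M2).det := by decide
    have h4 := Mod.tendsto_lv hd
    rw [show lv _ _ = L0 by simp [lv, Mod.lam_zero]] at h4
    obtain ⟨h5, h6⟩ := unif_lim L h4 (fun h => (Mod.ev_im 0).mono fun z hz e =>
      (unif_global L h2 h3 (M2.im_act_pos hd hz)).1 (e ▸ h))
      ((unif_tendsto_W.sub_const (7 / 12)).congr' ((Mod.ev_im 0).mono fun z hz =>
        (unif_global L h2 h3 (M2.im_act_pos hd hz)).2.symm))
    have := hu _ h5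
    rwa [h6, show (4 * (9 - 7 / 12) + 7 / 3 : ℂ) = 36 by norm_num] at this

/-- the complex uniformisation -/
noncomputable def uu : ℂ →+ EC := exists_unif.choose

/-- the image of the cusp `0` -/
noncomputable def c0 : EC := uu L0

theorem uu_FI {z : ℂ} (hz : 0 < z.im) : uu (FI z) = Pz z := exists_unif.choose_spec.1 z hz

theorem uu_lv {g : M2} (hg : G0 g) : uu (lv g.a g.c) = 0 := by
  have hI : 0 < I.im := by simp
  have h := uu_FI (M2.im_act_pos hg.det_pos hI)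
  rw [Mod.FI_act hg.det_pos (ε := 1) (fun z hz => by
    simpa using (Mod.ff_inv g hg).sl_eq hg.1 hz) hI, one_mul, map_add, uu_FI hI, Pz_act hg hI] at h
  simpa using h

theorem c0_two : c0 + c0 ≠ 0 := by
  obtain ⟨η, h⟩ := exists_unif.choose_spec.2
  refine (Is.two_ne split15 h).2 fun e => ?_
  have := h.eq split15
  rw [e] at this
  norm_num at this

theorem c0_four : 4 • c0 = 0 := by
  have h := uu_lv (g := ⟨8, 1, 15, 2⟩) (by decide)
  rw [Mod.lv_eq, show Mod.nP 8 15 = -4 by decide +kernel,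
    show Mod.nM 8 15 = 0 by decide +kernel] at h
  rw [c0, ← map_nsmul, ← neg_eq_zero, ← map_neg, ← h]
  congr 1
  simp

theorem unif_om : 2 • uu (om * I) = 0 := by
  have h := uu_lv (g := ⟨4, -1, -15, 4⟩) (by decide)
  rw [Mod.lv_eq, show Mod.nP 4 (-15) = 0 by decide +kernel,
    show Mod.nM 4 (-15) = -2 by decide +kernel] at h
  rw [← map_nsmul, ← neg_eq_zero, ← map_neg, ← h]
  congr 1
  simp [mul_assoc]

theorem unif_rat {v : ℂ} (h : IsOfFinAddOrder (uu v)) (q : ℚ) : IsOfFinAddOrder (uu (q * v)) := by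
  refine (IsOfFinAddOrder.of_nsmul ?_ q.den_ne_zero)
  rw [← map_nsmul, show q.den • ((q : ℂ) * v) = q.num • v by
    rw [nsmul_eq_mul, zsmul_eq_mul, ← mul_assoc]
    exact congrArg (· * v) (by exact_mod_cast Rat.den_mul_eq_num q), map_zsmul]
  exact h.zsmul

theorem tors_of_rq {w : ℂ} (h1 : Rq (w.re / L0)) (h2 : Rq (w.im / om)) :
    IsOfFinAddOrder (uu w) := by
  obtain ⟨a, h1⟩ := h1
  obtain ⟨b, h2⟩ := h2
  rw [div_eq_iff Mod.L0_ne] at h1
  rw [div_eq_iff Mod.om_ne] at h2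
  have e : w = a * (L0 : ℂ) + b * (om * I) := by
    apply Complex.ext <;> simp [h1, h2]
  rw [e, map_add]
  exact (unif_rat (isOfFinAddOrder_iff_nsmul_eq_zero.2 ⟨4, by norm_num, c0_four⟩) a).add
    (unif_rat (isOfFinAddOrder_iff_nsmul_eq_zero.2 ⟨2, by norm_num, unif_om⟩) b)

end Pool.Agent.P.MP_8b7eba_nt.R1
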