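import Pool.Agent.P.MP_8b7eba_nt.R1.FormC
import Pool.Agent.P.MP_8b7eba_nt.R1.Unif

/-! Complex conjugation on Heegner points. -/

namespace Pool.Agent.P.MP_8b7eba_nt.R1

open Complex Filter Topology MeasureTheory Metric Finset Asymptotics PowerSeries
open scoped Real UpperHalfPlane MatrixGroups ComplexConjugate
open _root_.Pool.Agent.P.MP_8b7eba_nt.Mod (M2 G0 FI L0 om lv xx yy qq UH atI ex mT)
open BSD15 (OO Good cls gch gJ nm cj rho lam Adm B3 B5 No4 Xp XJ Rn)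
open MP_9c97e9_nt (Pt pm Is)

theorem oth_qq (z : ℂ) : qq (-conj z) = conj (qq z) := by
  simp [qq, ← Complex.exp_conj, map_ofNat]

theorem oth_im {z : ℂ} (hz : 0 < z.im) : 0 < (-conj z).im := by simpa using hz

theorem oth_rep {Φ : ℂ → ℂ} {A : ℤ⟦X⟧} (h : Mod.Rep Φ A) {z : ℂ} (hz : 0 < z.im) :
    Φ (qq (-conj z)) = conj (Φ (qq z)) := by
  refine (h.hasSum (Mod.norm_qq_lt (oth_im hz))).unique
    (((h.hasSum (Mod.norm_qq_lt hz)).star).congr_fun fun n => ?_)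
  simp [oth_qq]

theorem xx_conj {z : ℂ} (hz : 0 < z.im) : xx (-conj z) = conj (xx z) := by
  rw [Mod.xx_eq, Mod.xx_eq, oth_rep Mod.rep_Nf hz, oth_rep Mod.rep_Mf hz, oth_qq]
  simp

theorem oth_yy {z : ℂ} (hz : 0 < z.im) :
    yy z = Mod.Kf (qq z) / (qq z ^ 2 * Mod.Mf (qq z) ^ 2) / (qq z * Mod.Ff (qq z)) := by
  rw [yy, Mod.deriv_xx hz, Mod.ff_eq, mul_div_assoc, mul_div_mul_left _ _ Mod.two_pi_I_ne]

theorem yy_conj {z : ℂ} (hz : 0 < z.im) : yy (-conj z) = conj (yy z) := by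
  rw [oth_yy hz, oth_yy (oth_im hz), oth_rep Mod.rep_Kf hz, oth_rep Mod.rep_Mf hz,
    oth_rep Mod.rep_Ff hz, oth_qq]
  simp

theorem oth_FI_G0 {g : M2} (hg : G0 g) {z : ℂ} (hz : 0 < z.im) :
    FI (g.act z) = FI z + lv g.a g.c := by
  simpa using Mod.FI_act hg.det_pos (ε := 1)
    (fun z hz => by simpa using (Mod.ff_inv g hg).sl_eq hg.1 hz) hz

theorem oth_lv_adj {g : M2} (hg : G0 g) : lv g.adj.a g.adj.c = -lv g.a g.c := by
  have h := Mod.lv_G0 hg (a := g.adj.a) (c := g.adj.c) (Mod.col_ne hg.adj.det_pos.ne').1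
  rw [show g.c * g.adj.a + g.d * g.adj.c = 0 by simp; ring, Mod.lv_zero] at h
  linear_combination -h

theorem oth_FI_W {z : ℂ} (hz : 0 < z.im) : FI ((M2.mk 0 (-1) 15 0).act z) = -FI z + L0 := by
  have h := Mod.FI_act (w := ⟨0, -1, 15, 0⟩) (by decide) (ε := -1)
    (fun z hz => Mod.sl_AL15 (by decide) hz) hz
  have e : lv 0 15 = L0 := by simp [lv, Mod.lam_zero]
  rw [h, e]
  ring

theorem oth_tau {e B C : ℤ} (he : 0 < e) (hC : 0 < C) (hD : B ^ 2 - 60 * e * C < 0) :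
    (M2.mk 0 (-1) 15 0).act (QF.mk (15 * C) B e).tau = -conj (QF.mk (15 * e) B C).tau := by
  have d1 : (QF.mk (15 * C) B e).disc < 0 := by simp only [QF.disc]; linarith
  have d2 : (QF.mk (15 * e) B C).disc < 0 := by simp only [QF.disc]; linarith
  have d3 : (QF.mk (15 * e) (-B) C).disc < 0 := by simp only [QF.disc]; linarith
  have a1 : 0 < (QF.mk (15 * C) B e).A := by simp only; omega
  have a2 : 0 < (QF.mk (15 * e) B C).A := by simp only; omega
  have a3 : 0 < (QF.mk (15 * e) (-B) C).A := by simp only; omega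
  have i1 := QF.tau_im_pos a1 d1
  have r1 := QF.tau_root a1 d1
  have r2 := congrArg conj (QF.tau_root a2 d2)
  have t0 : (QF.mk (15 * C) B e).tau ≠ 0 := fun h => by simp [h] at i1
  rw [QF.eq_tau a3 d3 (M2.im_act_pos (g := ⟨0, -1, 15, 0⟩) (by decide) i1),
    QF.eq_tau a3 d3 (oth_im (QF.tau_im_pos a2 d2))]
  · simp only [map_add, map_mul, map_pow, map_intCast, map_zero] at r2
    push_cast at r2 ⊢
    linear_combination r2
  · generalize (QF.mk (15 * C) B e).tau = t at *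
    simp only [M2.act_eq, M2.j]
    push_cast at r1 ⊢
    field_simp
    linear_combination 15 * r1

theorem conj_heeg {n : ℕ} [Good n] {ρ : ℤ} (hd : HD n ρ) : ∃ ν : ClassGroup (OO n),
    (∀ p ∈ n.primeFactors, gch p ν = jacobiSym 15 p) ∧ ∀ c, ∃ g, G0 g ∧
      conj (FI (ht n ρ c)) + FI (ht n ρ (ν * c⁻¹)) = L0 + lv g.a g.c := by
  obtain ⟨k, hk⟩ := hd.rt
  refine ⟨cls (QF.idl n ⟨15, ρ, k⟩), fun p hp => ?_, fun c => ?_⟩
  · rw [gch_idl hp (by simp only [QF.disc]; linarith), BSD15.Xp_of_not_dvd]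
    · rfl
    · intro h
      exact (Nat.prime_of_mem_primeFactors hp).ne_one
        (Nat.eq_one_of_dvd_coprimes hd.cop (Nat.dvd_of_mem_primeFactors hp) h)
  · obtain ⟨hQ, hc, -⟩ := hq_spec hd c
    have hτ := ht_im hd c
    rw [ht] at hτ ⊢
    generalize hq n ρ c = Q at hQ hc hτ
    obtain ⟨A, B, C⟩ := Q
    have hneg := hQ.disc_neg
    obtain ⟨⟨h1, ⟨e, rfl⟩, h3⟩, h4⟩ := hQ
    simp only [QF.disc] at h1 h3 h4 hneg
    have he : 0 < e := by omega
    have hC : 0 < C := by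
      by_contra h
      nlinarith [mul_nonneg he.le (neg_nonneg.2 (not_lt.1 h)), sq_nonneg B]
    have hD : (QF.mk (15 * C) B e).disc = -n := by simp only [QF.disc]; linarith
    have hP : Hg n ρ ⟨15 * C, B, e⟩ := ⟨⟨hD, dvd_mul_right _ _, h3⟩, by simp only; omega⟩
    have hcl : cls (QF.idl n ⟨15 * C, B, e⟩) = cls (QF.idl n ⟨15, ρ, k⟩) * c⁻¹ := by
      rw [idl_mul hD, BSD15.cls_mul (idl_ne_bot _) (idl_ne_bot _),
        idl_congr (B' := ρ) (C' := k) h3, cls_flip (A := 15 * e) h1, hc]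
    obtain ⟨g, hg, -, h5⟩ := exists_ht hd hP
    rw [hcl] at h5
    refine ⟨g.adj, hg.adj, ?_⟩
    have h6 := oth_FI_W hP.im_pos
    rw [oth_tau he hC (by linarith), Mod.FI_conj hτ, ← h5, oth_FI_G0 hg (ht_im hd _)] at h6
    rw [oth_lv_adj hg]
    linear_combination h6

theorem oth_act_Pz {z : ℂ} (hz : 0 < z.im) : act cjA (Pz z) = uu (conj (FI z)) := by
  rw [← Mod.FI_conj hz, uu_FI (oth_im hz)]
  refine (is_act cjA (is_Pz hz)).unique split15 ?_
  have h := is_Pz (oth_im hz)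
  rw [xx_conj hz, yy_conj hz] at h
  simpa [map_ofNat] using h

theorem conj_Pz {n : ℕ} [Good n] {ρ : ℤ} (hd : HD n ρ) : ∃ ν : ClassGroup (OO n),
    (∀ p ∈ n.primeFactors, gch p ν = jacobiSym 15 p) ∧
      ∀ c, act cjA (Pz (ht n ρ c)) + Pz (ht n ρ (ν * c⁻¹)) = c0 := by
  obtain ⟨ν, h1, h2⟩ := conj_heeg hd
  refine ⟨ν, h1, fun c => ?_⟩
  obtain ⟨g, hg, h3⟩ := h2 c
  rw [oth_act_Pz (ht_im hd c), ← uu_FI (ht_im hd _), ← map_add, h3, map_add, uu_lv hg, add_zero, c0]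

variable {a b b' : ℕ} {ρ ρ' : ℤ}

theorem oth_YY (h : HF a b ρ) :
    ∃ u v : ℤ, YY a b ρ + jacobiSym 15 a * conj (YY a b ρ) = u * L0 + v * om * I := by
  have := h.good
  obtain ⟨ν, h1, h2⟩ := conj_heeg h.hd
  choose g hg h2 using h2
  have hn : a * b ≠ 0 := by have := h.good.gt; omega
  have hJ : a.primeFactors ⊆ (a * b).primeFactors := Nat.primeFactors_mono (dvd_mul_right _ _) hn
  have hν : gJ a.primeFactors ν = jacobiSym 15 a := by
    rw [BSD15.cfid_jac_sqf _ h.jac.2.2.2.1.1, gJ]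
    exact Finset.prod_congr rfl fun p hp => h1 p (hJ hp)
  have hi : ∀ c : ClassGroup (OO (a * b)), gJ a.primeFactors c⁻¹ = gJ a.primeFactors c :=
    fun c => Finset.prod_congr rfl fun p hp => BSD15.gch_inv (hJ hp) c
  refine ⟨jacobiSym 15 a * ∑ c, gJ a.primeFactors c * (1 + Mod.nP (g c).a (g c).c),
    jacobiSym 15 a * ∑ c, gJ a.primeFactors c * Mod.nM (g c).a (g c).c, ?_⟩
  rw [YY_eq rfl, map_sum]
  nth_rw 1 [← Equiv.sum_comp ((Equiv.inv _).trans (Equiv.mulLeft ν))]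
  push_cast
  simp only [Finset.mul_sum, Finset.sum_mul, ← Finset.sum_add_distrib]
  refine Finset.sum_congr rfl fun c _ => ?_
  have h3 := h2 c
  rw [Mod.lv_eq] at h3
  simp only [Equiv.trans_apply, Equiv.inv_apply, Equiv.coe_mulLeft, BSD15.gJ_mul hJ, hν, hi,
    map_mul, map_intCast]
  push_cast
  linear_combination (jacobiSym 15 a : ℂ) * gJ a.primeFactors c * h3

theorem rq_oY (h : HF a b ρ) : Rq (oY a b ρ) := by
  obtain ⟨u, v, e⟩ := oth_YY h
  have ha : Odd a := Nat.coprime_two_right.1 (h.jac.2.2.2.1.2.coprime_dvd_right (by norm_num))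
  have h1 := h.sign
  rw [show (-15 : ℤ) = -1 * 15 by norm_num, jacobiSym.mul_left, jacobiSym.at_neg_one ha] at h1
  have h2 := Nat.odd_iff.1 ha
  have l0 := Mod.L0_ne
  have o0 := Mod.om_ne
  unfold oY
  split_ifs with h4
  · rw [ZMod.χ₄_nat_three_mod_four h4] at h1
    rw [show jacobiSym 15 a = 1 by linarith] at e
    have e1 := congrArg re e
    simp at e1
    refine ⟨u / 8, ?_⟩
    push_cast
    field_simp
    linarith
  · rw [ZMod.χ₄_nat_one_mod_four (by omega)] at h1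
    rw [show jacobiSym 15 a = -1 by linarith] at e
    have e1 := congrArg im e
    simp at e1
    refine ⟨v / 4, ?_⟩
    push_cast
    field_simp
    linarith

theorem uu_YY (h : HF a b ρ) : uu (YY a b ρ) = PY a b ρ := by
  have := h.good
  rw [YY_eq rfl, PY_eq rfl, map_sum, PJ]
  refine Finset.sum_congr rfl fun c _ => ?_
  rw [← zsmul_eq_mul, map_zsmul, uu_FI (ht_im h.hd c)]

theorem tors_of_tY (h : HF a b ρ) (h' : HF a b' ρ') {x y : ℤ}
    (hq : Rq (x * tY a b ρ - y * tY a b' ρ')) :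
    IsOfFinAddOrder (x • PY a b ρ - y • PY a b' ρ') := by
  have ho := ((rq_int x).mul (rq_oY h)).sub ((rq_int y).mul (rq_oY h'))
  have l0 := Mod.L0_ne
  have o0 := Mod.om_ne
  have key : Rq (x * ((YY a b ρ).re / (4 * L0)) - y * ((YY a b' ρ').re / (4 * L0))) ∧
      Rq (x * ((YY a b ρ).im / (2 * om)) - y * ((YY a b' ρ').im / (2 * om))) := by
    unfold oY at ho
    unfold tY at hq
    split_ifs at ho hq
    · exact ⟨ho, hq⟩
    · exact ⟨hq, ho⟩
  rw [← uu_YY h, ← uu_YY h', ← map_zsmul, ← map_zsmul, ← map_sub]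
  refine tors_of_rq ?_ ?_
  · have e : (x • YY a b ρ - y • YY a b' ρ').re / L0 = ((4 : ℕ) : ℝ) *
        (x * ((YY a b ρ).re / (4 * L0)) - y * ((YY a b' ρ').re / (4 * L0))) := by
      simp
      field_simp
    rw [e]
    exact (rq_nat 4).mul key.1
  · have e : (x • YY a b ρ - y • YY a b' ρ').im / om = ((2 : ℕ) : ℝ) *
        (x * ((YY a b ρ).im / (2 * om)) - y * ((YY a b' ρ').im / (2 * om))) := by
      simp
      field_simp
    rw [e]
    exact (rq_nat 2).mul key.2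

end Pool.Agent.P.MP_8b7eba_nt.R1
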