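import Pool.Agent.P.MP_8b7eba_nt.R1.S2
import Pool.Agent.P.MP_8b7eba_nt.R1.Kum
import Pool.Agent.P.MP_8b7eba_nt.R1.Oth

/-! Genus points and the argument of Birch. -/

namespace Pool.Agent.P.MP_8b7eba_nt.R1

open Complex Filter Topology MeasureTheory Metric Finset Asymptotics PowerSeries
open scoped Real UpperHalfPlane MatrixGroups ComplexConjugate
open _root_.Pool.Agent.P.MP_8b7eba_nt.Mod (M2 G0 FI L0 om lv xx yy qq UH atI ex mT)
open BSD15 (OO Good cls gch gJ nm cj rho lam Adm B3 B5 No4 Xp XJ Rn)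
open MP_9c97e9_nt (Pt pm Is)

variable {n : ℕ} [Good n] {ρ : ℤ}

theorem Birch_odd {p : ℕ} (hp : p ∈ n.primeFactors) : Odd p := by
  have h4 := (inferInstance : Good n).h4
  exact Odd.of_dvd_nat (Nat.odd_iff.2 (by omega)) (Nat.dvd_of_mem_primeFactors hp)

theorem Birch_cancel {p : ℕ} (hp : p ∈ n.primeFactors) {a b : ℤ} (h : a * rt p = b * rt p) :
    a = b := by
  exact_mod_cast mul_right_cancel₀ (rt_ne (Birch_odd hp)) h

theorem Birch_fx (hd : HD n ρ) {σ : Aut} (hσ : Fx n.primeFactors σ) :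
    ∃ α : ClassGroup (OO n), (∀ p ∈ n.primeFactors, gch p α = 1) ∧
      ∀ c, act σ (Pz (ht n ρ c)) = Pz (ht n ρ (c * α)) := by
  have h1 : σ (I * √n) = I * √n := by
    have := aut_sqrt (n := n) (σ := σ) (ε := fun _ => 1) (fun p hp => by simpa using hσ p hp)
    simpa using this
  obtain ⟨α, h2, h3⟩ := gal_act hd σ h1
  refine ⟨α, fun p hp => Birch_cancel hp ?_, h2⟩
  rw [← h3 p hp, hσ p hp]
  simp

theorem Birch_cj (σ : Aut) : cjA * (cjA * σ) = σ := by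
  ext z
  change cjA (cjA (σ z)) = σ z
  simp

theorem Birch_neg (hd : HD n ρ) {σ : Aut} (hσ : σ (I * √n) = -(I * √n)) :
    ∃ β : ClassGroup (OO n), (∀ c, act σ (Pz (ht n ρ c)) + Pz (ht n ρ (β * c⁻¹)) = c0) ∧
      ∀ p ∈ n.primeFactors, σ (rt p) = (gch p β * jacobiSym (-15) p : ℤ) * rt p := by
  have h1 : (cjA * σ) (I * √n) = I * √n := by
    change cjA (σ (I * √n)) = _
    rw [hσ]
    simp
  obtain ⟨α, h2, h3⟩ := gal_act hd (cjA * σ) h1
  obtain ⟨ν, h4, h5⟩ := conj_Pz hd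
  refine ⟨ν * α⁻¹, fun c => ?_, fun p hp => ?_⟩
  · have e : ν * α⁻¹ * c⁻¹ = ν * (c * α)⁻¹ := by rw [mul_inv_rev, mul_assoc]
    rw [e, ← h5 (c * α), ← h2, ← act_mul, Birch_cj]
  · have e : σ (rt p) = conj ((cjA * σ) (rt p)) := by
      change _ = conj (cjA (σ (rt p)))
      simp
    have e2 : gch p (ν * α⁻¹) * jacobiSym (-15) p = gch p α * jacobiSym (-1) p := by
      have e3 : jacobiSym (-15) p = jacobiSym (-1) p * jacobiSym 15 p := by
        rw [← jacobiSym.mul_left]; norm_num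
      have e4 := BSD15.gch_sq hp ν
      rw [BSD15.gch_mul hp, BSD15.gch_inv hp, e3, ← h4 p hp]
      linear_combination gch p α * jacobiSym (-1) p * e4
    rw [e, h3 p hp, map_mul, conj_rt (Birch_odd hp), e2]
    simp [mul_assoc]

theorem Birch_rh (hd : HD n ρ) {σ : Aut} (hσ : Rh n.primeFactors σ) :
    ∃ β : ClassGroup (OO n), (∀ p ∈ n.primeFactors, gch p β = 1) ∧
      ∀ c, act σ (Pz (ht n ρ c)) + Pz (ht n ρ (β * c⁻¹)) = c0 := by
  have h1 : σ (I * √n) = -(I * √n) := by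
    rw [aut_sqrt (n := n) (σ := σ) (ε := fun p => jacobiSym (-15) p) hσ, ← BSD15.genus_jac_n,
      hd.jac]
    simp
  obtain ⟨β, h2, h3⟩ := Birch_neg hd h1
  refine ⟨β, fun p hp => ?_, h2⟩
  have h4 := Birch_cancel hp ((h3 p hp).symm.trans (hσ p hp))
  have h5 : jacobiSym (-15) p ≠ 0 := by
    intro h0
    have h6 := hd.jac
    rw [BSD15.genus_jac_n, Finset.prod_eq_zero hp h0] at h6
    norm_num at h6
  exact mul_right_cancel₀ h5 (by rw [h4, one_mul])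

theorem Birch_gJ_one {J : Finset ℕ} (hJ : J ⊆ n.primeFactors) {α : ClassGroup (OO n)}
    (h : ∀ p ∈ n.primeFactors, gch p α = 1) : gJ J α = 1 :=
  Finset.prod_eq_one fun p hp => h p (hJ hp)

theorem Birch_gJ_inv {J : Finset ℕ} (hJ : J ⊆ n.primeFactors) (c : ClassGroup (OO n)) :
    gJ J c⁻¹ = gJ J c :=
  Finset.prod_congr rfl fun _ hp => BSD15.gch_inv (hJ hp) c

theorem Birch_PJ_fix {J : Finset ℕ} (hJ : J ⊆ n.primeFactors) {σ : Aut} {α : ClassGroup (OO n)}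
    (h1 : gJ J α = 1) (h2 : ∀ c, act σ (Pz (ht n ρ c)) = Pz (ht n ρ (c * α))) :
    act σ (PJ n ρ J) = PJ n ρ J := by
  unfold PJ
  rw [map_sum]
  refine Fintype.sum_equiv (Equiv.mulRight α) _ _ fun c => ?_
  rw [map_zsmul, h2, Equiv.coe_mulRight, BSD15.gJ_mul hJ, h1, mul_one]

theorem Birch_PJ_neg {J : Finset ℕ} (hJ : J ⊆ n.primeFactors) {σ : Aut} {β : ClassGroup (OO n)}
    (h1 : gJ J β = 1) (h2 : ∀ c, act σ (Pz (ht n ρ c)) + Pz (ht n ρ (β * c⁻¹)) = c0) :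
    4 • (act σ (PJ n ρ J) + PJ n ρ J) = 0 := by
  have e : PJ n ρ J = ∑ c : ClassGroup (OO n), gJ J c • Pz (ht n ρ (β * c⁻¹)) := by
    unfold PJ
    refine (Fintype.sum_equiv ((Equiv.inv _).trans (Equiv.mulLeft β)) _ _ fun c => ?_).symm
    rw [Equiv.trans_apply, Equiv.inv_apply, Equiv.coe_mulLeft, BSD15.gJ_mul hJ, h1, one_mul,
      Birch_gJ_inv hJ]
  have e2 : act σ (PJ n ρ J) + PJ n ρ J = ∑ c : ClassGroup (OO n), gJ J c • c0 := by
    nth_rewrite 2 [e]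
    unfold PJ
    rw [map_sum, ← Finset.sum_add_distrib]
    exact Finset.sum_congr rfl fun c _ => by rw [map_zsmul, ← smul_add, h2]
  rw [e2, Finset.smul_sum]
  exact Finset.sum_eq_zero fun c _ => by rw [smul_comm, c0_four, smul_zero]

theorem okS_pf (hd : HD n ρ) : OkS n.primeFactors := by
  intro p hp
  refine ⟨Nat.prime_of_mem_primeFactors hp, ?_⟩
  have h1 : p.Coprime 15 := Nat.Coprime.coprime_dvd_left (Nat.dvd_of_mem_primeFactors hp) hd.cop
  have h2 : p.Coprime 2 := (Nat.coprime_two_right).2 (Birch_odd hp)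
  exact Nat.Coprime.mul_right h2 h1

theorem ZG_fix (hd : HD n ρ) (d : ClassGroup (OO n)) {σ : Aut} (hσ : Fx n.primeFactors σ) :
    act σ (ZG n ρ d) = ZG n ρ d := by
  obtain ⟨α, h1, h2⟩ := Birch_fx hd hσ
  unfold ZG
  rw [map_sum]
  simp only [h2]
  exact sum_gen_mul h1 d fun c => Pz (ht n ρ c)

theorem ZG_rh (hd : HD n ρ) (d : ClassGroup (OO n)) {σ : Aut} (hσ : Rh n.primeFactors σ) :
    act σ (ZG n ρ d) + ZG n ρ d = (gen d).card • c0 := by
  obtain ⟨β, h1, h2⟩ := Birch_rh hd hσ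
  have e := sum_gen_inv h1 d fun c => Pz (ht n ρ c)
  unfold ZG
  nth_rewrite 2 [← e]
  rw [map_sum, ← Finset.sum_add_distrib]
  simp only [h2]
  exact Finset.sum_const _

theorem inC_ZG (hd : HD n ρ) (d : ClassGroup (OO n)) : InC (ZG n ρ d) := by
  refine ⟨_, okS_pf hd, fun σ hσ => ZG_fix hd d hσ, fun σ hσ => ?_⟩
  rw [ZG_rh hd d hσ, smul_comm, c0_four, smul_zero]

theorem inC_PJ (hd : HD n ρ) {J : Finset ℕ} (hJ : J ⊆ n.primeFactors) : InC (PJ n ρ J) := by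
  refine ⟨_, okS_pf hd, fun σ hσ => ?_, fun σ hσ => ?_⟩
  · obtain ⟨α, h1, h2⟩ := Birch_fx hd hσ
    exact Birch_PJ_fix hJ (Birch_gJ_one hJ h1) h2
  · obtain ⟨β, h1, h2⟩ := Birch_rh hd hσ
    exact Birch_PJ_neg hJ (Birch_gJ_one hJ h1) h2

theorem inB_ZG_sub (hd : HD n ρ) (d d' : ClassGroup (OO n)) : InB (ZG n ρ d - ZG n ρ d') := by
  refine ⟨_, okS_pf hd, shim hd d d', fun σ hσ => ?_⟩
  have h1 := ZG_rh hd d hσ
  have h2 := ZG_rh hd d' hσ
  rw [card_gen d' d, ← h1] at h2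
  rw [map_sub, sub_add_sub_comm, h2, sub_self]

theorem not_tors (hd : HD n ρ) (h4 : No4 n) {R : EC} (hR : InB R) :
    ¬ IsOfFinAddOrder ((2 : ℤ) • ZG n ρ 1 - R) := by
  obtain ⟨S, hS, ⟨H, rfl, hH⟩, hA⟩ := hR
  intro ht
  have hS' : OkS (n.primeFactors ∪ S) := fun p hp =>
    (Finset.mem_union.1 hp).elim (okS_pf hd p) (hS p)
  have e : (2 : ℤ) • ZG n ρ 1 - (H + H) = 2 • (ZG n ρ 1 - H) := by
    rw [two_zsmul, two_nsmul]; abel
  rw [e] at ht
  have ht' : IsOfFinAddOrder (ZG n ρ 1 - H) := ht.of_nsmul two_ne_zero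
  have hT : -T2 = T2 := neg_eq_of_add_eq_zero_left T2_add
  obtain ⟨m, hm, h0⟩ := kum_tors hS' (H := ZG n ρ 1 - H) (fun σ hσ => by
    have h1 := ZG_fix hd 1 (σ := σ) fun p hp => hσ p (Finset.mem_union_left _ hp)
    have h2 : act σ (ZG n ρ 1 - H) - (ZG n ρ 1 - H) = -(act σ H - H) := by
      rw [map_sub, h1]; abel
    rw [h2]
    rcases hH σ fun p hp => hσ p (Finset.mem_union_right _ hp) with h | h
    · left; rw [h, neg_zero]
    · right; rw [h, hT]) ht'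
  obtain ⟨σ, hσ, -⟩ := exists_aut_signs (n.primeFactors ∪ S)
    (fun p hp => ⟨(hS' p hp).1, by
      rintro rfl
      exact absurd (hS' 2 hp).2 (by norm_num)⟩)
    (fun p => jacobiSym (-15) p)
    (fun p hp => jacobiSym.eq_one_or_neg_one (by
      have h1 : p.Coprime 15 := Nat.Coprime.coprime_dvd_right (by norm_num) (hS' p hp).2
      rw [Int.gcd_eq_natAbs]
      simpa using h1.symm)) (Or.inl rfl)
  have h1 := ZG_rh hd 1 (σ := σ) fun p hp => hσ p (Finset.mem_union_left _ hp)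
  have h2 := hA σ fun p hp => hσ p (Finset.mem_union_right _ hp)
  have h3 : (2 * m) • (ZG n ρ 1 - H) + (2 * m) • (ZG n ρ 1 - H) = 0 := by
    rw [← add_nsmul, ← h0]; congr 1; ring
  have h5 := act_two_tors h3 σ
  have h6 : act σ ((2 * m) • (ZG n ρ 1 - H)) + (2 * m) • (ZG n ρ 1 - H) =
      (2 * m) • (act σ (ZG n ρ 1) + ZG n ρ 1) - m • (act σ (H + H) + (H + H)) := by
    rw [map_nsmul, map_sub, map_add]
    simp only [mul_nsmul', two_nsmul, nsmul_add, nsmul_sub]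
    abel
  rw [h5, h3, h1, h2, smul_zero, sub_zero, smul_smul] at h6
  obtain ⟨k, hk⟩ := hm.mul (odd_card_gen h4 (1 : ClassGroup (OO n)))
  have h7 : 2 * m * (gen (1 : ClassGroup (OO n))).card = k * 4 + 2 := by
    rw [mul_assoc, hk]; ring
  rw [h7, add_nsmul, ← smul_smul, c0_four, smul_zero, zero_add, two_nsmul] at h6
  exact c0_two h6.symm

theorem PJ_anti (hd : HD n ρ) (σ : Aut) :
    (σ (I * √n) = I * √n → act σ (PJ n ρ ∅) = PJ n ρ ∅) ∧
      (σ (I * √n) = -(I * √n) → act σ ((4 : ℤ) • PJ n ρ ∅) = -((4 : ℤ) • PJ n ρ ∅)) := by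
  refine ⟨fun hσ => ?_, fun hσ => ?_⟩
  · obtain ⟨α, h1, -⟩ := gal_act hd σ hσ
    exact Birch_PJ_fix (Finset.empty_subset _) Finset.prod_empty h1
  · obtain ⟨β, h1, -⟩ := Birch_neg hd hσ
    have h2 := Birch_PJ_neg (Finset.empty_subset _) Finset.prod_empty h1
    rw [map_zsmul, eq_neg_iff_add_eq_zero, ← smul_add]
    exact_mod_cast h2

theorem PJ_compl (ρ : ℤ) {J : Finset ℕ} (hJ : J ⊆ n.primeFactors) :
    PJ n ρ (n.primeFactors \ J) = PJ n ρ J := by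
  unfold PJ
  simp only [BSD15.gJ_compl hJ]

omit [Good n] in
theorem birch_prime {l : ℕ} (hl : l.Prime) (h : HF l 1 ρ) : ¬ IsOfFinAddOrder (PY l 1 ρ) := by
  have : Good l := by simpa using h.good
  have hd : HD l ρ := by simpa using h.hd
  have h1 : gen (1 : ClassGroup (OO l)) = Finset.univ := by
    refine Finset.eq_univ_of_forall fun c => mem_gen.2 fun p hp => ?_
    have e1 := BSD15.prod_gch c
    rw [BSD15.gch_one hp]
    rw [hl.primeFactors] at e1 hp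
    rw [Finset.mem_singleton.1 hp]
    simpa using e1
  have h2 : PY l 1 ρ = ZG l ρ 1 := by
    rw [PY_eq (n := l) (mul_one l).symm]
    unfold PJ ZG
    rw [h1]
    exact Finset.sum_congr rfl fun c _ => by rw [gJ, BSD15.prod_gch, one_smul]
  intro ht
  refine not_tors hd (BSD15.no4_prime hl) InB.zero ?_
  rw [sub_zero, ← h2]
  exact ht.zsmul

end Pool.Agent.P.MP_8b7eba_nt.R1
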