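import Pool.Agent.P.MP_8b7eba_nt.R1.FormB

/-! Pairs of forms; forms with square discriminant. -/

namespace Pool.Agent.P.MP_8b7eba_nt.R1

open Complex Filter Topology MeasureTheory Metric Finset Asymptotics PowerSeries
open scoped Real UpperHalfPlane MatrixGroups ComplexConjugate
open _root_.Pool.Agent.P.MP_8b7eba_nt.Mod (M2 G0 FI L0 om lv xx yy qq UH atI ex mT)
open BSD15 (OO Good cls gch gJ nm cj rho lam Adm B3 B5 No4 Xp XJ Rn)
open MP_9c97e9_nt (Pt pm Is)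

theorem pair_finite {P : QF} (hA : 0 < P.A) (hD : P.disc < 0) (D B : ℤ) :
    {Q : QF | Q.disc = D ∧ P.pair Q = B}.Finite := by
  set M := P.A * (P.A * (B ^ 2 - P.disc * D)) with hM
  have key : ∀ x : ℤ, x ^ 2 ≤ M → x ∈ Set.Icc (-M) M := fun x h =>
    abs_le.1 ((Int.natAbs_le_self_sq x).trans h |>.trans' (by rw [Int.natCast_natAbs]))
  refine Set.Finite.of_injOn (f := fun Q : QF => (P.A * Q.B - Q.A * P.B,
      2 * P.A * (P.A * Q.C - Q.A * P.C) - P.B * (P.A * Q.B - Q.A * P.B)))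
    (t := Set.Icc (-M) M ×ˢ Set.Icc (-M) M) ?_ ?_ ((Set.finite_Icc _ _).prod (Set.finite_Icc _ _))
  · rintro Q ⟨h1, h2⟩
    have e : (2 * P.A * (P.A * Q.C - Q.A * P.C) - P.B * (P.A * Q.B - Q.A * P.B)) ^ 2 -
        P.disc * (P.A * Q.B - Q.A * P.B) ^ 2 = M := by
      rw [hM, ← h1, ← h2]
      simp only [QF.disc, QF.pair]
      ring
    have h3 := sq_nonneg (P.A * Q.B - Q.A * P.B)
    have h4 := sq_nonneg (2 * P.A * (P.A * Q.C - Q.A * P.C) - P.B * (P.A * Q.B - Q.A * P.B))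
    exact ⟨key _ (by nlinarith), key _ (by nlinarith)⟩
  · rintro Q ⟨-, h2⟩ Q' ⟨-, h2'⟩ h
    obtain ⟨h3, h4⟩ := Prod.mk.inj h
    simp only [QF.pair] at h2 h2'
    have h5 : Q.A = Q'.A := mul_left_cancel₀ hD.ne (by
      simp only [QF.disc]
      linear_combination P.A * h2 - P.A * h2' + h4)
    have h6 : Q.B = Q'.B := mul_left_cancel₀ hA.ne' (by linear_combination h3 + P.B * h5)
    refine QF.ext h5 h6 (mul_left_cancel₀ (mul_pos two_pos hA).ne' ?_)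
    linear_combination h2' - h2 + P.B * h6 - 2 * P.C * h5

theorem exists_vert {κ : ℤ} (h15 : IsCoprime κ 15) {Q : QF} (hQ : Lv (κ ^ 2) κ Q) :
    ∃ g, G0 g ∧ ∃ C, Q.cmp g = ⟨0, κ, C⟩ := by
  obtain ⟨h1, ⟨a, h2⟩, ⟨b, h3⟩⟩ := hQ
  have hc : IsCoprime (15 : ℤ) (2 * κ) := IsCoprime.mul_right (by norm_num) h15.symm
  have h0 : Q.B + κ ≠ 0 := fun h => by
    have h4 : (15 : ℤ) ∣ 1 := hc.dvd_of_dvd_mul_left ⟨-2 * b, by linear_combination h - h3⟩
    omega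
  obtain ⟨x, y, hxy, hx, hy⟩ := Int.exists_gcd_one (Int.gcd_pos_of_ne_zero_left (-(2 * Q.A)) h0)
  have ht : (((Q.B + κ).gcd (-(2 * Q.A)) : ℕ) : ℤ) ≠ 0 := by
    exact_mod_cast (Int.gcd_pos_of_ne_zero_left _ h0).ne'
  generalize (((Q.B + κ).gcd (-(2 * Q.A)) : ℕ) : ℤ) = t at hx hy ht
  simp only [QF.disc] at h1
  have e1 : 2 * Q.A * x + (Q.B + κ) * y = 0 := by linear_combination y * hx - x * hy
  have e2 : (Q.B - κ) * x + 2 * Q.C * y = 0 := mul_right_cancel₀ ht (by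
    linear_combination h1 - (Q.B - κ) * hx - 2 * Q.C * hy)
  obtain ⟨v, u, huv⟩ := Int.isCoprime_iff_gcd_eq_one.2 hxy
  refine ⟨⟨x, -u, y, v⟩, ⟨?_, hc.dvd_of_dvd_mul_left ⟨-(2 * a * x) - 2 * b * y, ?_⟩⟩, _,
    QF.ext ?_ ?_ rfl⟩
  · simp only [M2.det]
    linear_combination huv
  · simp only
    linear_combination e1 - 2 * x * h2 - y * h3
  · simp only [QF.cmp, QF.ev]
    refine mul_left_cancel₀ two_ne_zero ?_
    linear_combination x * e1 + y * e2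
  · simp only [QF.cmp]
    linear_combination -u * e1 + v * e2 + κ * huv

theorem vert_stab {κ C C' : ℤ} (hκ : κ ≠ 0) {g : M2} (hg : g.det = 1)
    (h : QF.cmp ⟨0, κ, C⟩ g = ⟨0, κ, C'⟩) : ∃ k, (g = mT k ∨ g = -mT k) ∧ C' = C + k * κ := by
  obtain ⟨a, b, c, d⟩ := g
  simp only [QF.cmp, QF.ev, QF.mk.injEq, M2.det] at h hg
  obtain ⟨h1, h2, h3⟩ := h
  have hc : c = 0 := by
    by_contra hc
    have h4 : κ * a + C * c = 0 := mul_left_cancel₀ hc (by linear_combination h1)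
    exact hκ (mul_left_cancel₀ two_ne_zero (by linear_combination 2 * d * h4 - h2 - κ * hg))
  subst hc
  rcases Int.eq_one_or_neg_one_of_mul_eq_one' (show a * d = 1 by linear_combination hg) with
    ⟨rfl, rfl⟩ | ⟨rfl, rfl⟩
  · exact ⟨b, Or.inl rfl, by linear_combination -h3⟩
  · exact ⟨-b, Or.inr (by ext <;> simp [mT]), by linear_combination -h3⟩

theorem formC_neg_one {b : ℕ} (h4 : b % 4 = 1) : jacobiSym (-1) b = 1 := by
  rw [jacobiSym.at_neg_one (Nat.odd_iff.2 (by omega)), ZMod.χ₄_nat_one_mod_four h4]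

theorem formC_prod {D : ℕ} (hs : Squarefree D) (h4 : D % 4 = 1) {Q : QF} (hQ : Q.disc = D) :
    ∏ p ∈ D.primeFactors, Q.chip p = 1 := by
  have h0 : (2 * D : ℤ) ≠ 0 := by omega
  obtain ⟨g, hg, hc⟩ := exists_coprime_cmp (Q := Q) h0 fun p hp _ ⟨h1, h2, h3⟩ => by
    have h5 : (p : ℤ) * p ∣ D := by
      rw [← hQ, QF.disc, sq, mul_assoc]
      exact dvd_sub (mul_dvd_mul h2 h2) ((mul_dvd_mul h1 h3).mul_left _)
    exact hp.not_isUnit (hs p (by exact_mod_cast h5))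
  have hD : (Q.cmp g).disc = D := by rw [QF.disc_cmp, hg, hQ]; ring
  have h1 : ∏ p ∈ D.primeFactors, Q.chip p = jacobiSym (Q.cmp g).A D := by
    rw [BSD15.cfid_jac_sqf _ hs]
    refine Finset.prod_congr rfl fun p hp => ?_
    have hp' := Nat.prime_of_mem_primeFactors hp
    have hd : (p : ℤ) ∣ D := Int.natCast_dvd_natCast.2 (Nat.dvd_of_mem_primeFactors hp)
    rw [← QF.chip_cmp hp' (by rintro rfl; omega) (hQ ▸ hd) hg, QF.chip, if_neg fun h =>
      (Nat.prime_iff_prime_int.1 hp').not_unit (hc.isUnit_of_dvd' h (hd.mul_left _))]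
  generalize Q.cmp g = R at *
  have ho : Odd R.A.natAbs := by
    rw [Int.natAbs_odd, ← Int.isCoprime_two_right]
    exact hc.of_mul_right_left
  have h2 : jacobiSym R.A D = jacobiSym R.A.natAbs D := by
    rcases Int.natAbs_eq R.A with h | h
    · rw [← h]
    · conv_lhs => rw [h, ← neg_one_mul, jacobiSym.mul_left, formC_neg_one h4, one_mul]
  have h3 : IsCoprime R.A R.B := by
    have h5 := hc.of_mul_right_right
    rw [← hD, QF.disc, show R.B ^ 2 - 4 * R.A * R.C = R.B * R.B + R.A * (-4 * R.C) by ring,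
      IsCoprime.add_mul_left_right_iff] at h5
    exact h5.of_mul_right_left
  have h6 := Mod.jac_recip (D := D) (by omega) ho
  rw [Int.natAbs_natCast] at h6
  rw [h1, h2, ← h6, jacobiSym.mod_left' (a₂ := R.B ^ 2), jacobiSym.sq_one']
  · exact (Int.isCoprime_iff_gcd_eq_one.1 h3.symm : R.B.gcd R.A = 1)
  · refine Int.modEq_iff_dvd.2 (Int.natAbs_dvd.2 ⟨4 * R.C, ?_⟩)
    rw [← hD, QF.disc]
    ring

theorem wf_swap {b₁ b₃ : ℕ} (h : Adm (b₁ * b₃)) (h4 : b₁ * b₃ % 4 = 1) (ρ : ℤ) :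
    wf (b₁ * b₃) ρ b₁ = wf (b₁ * b₃) ρ b₃ := by
  funext Q
  unfold wf
  split_ifs with hQ
  · have hc := Nat.coprime_of_squarefree_mul h.1
    have h1 := formC_prod h.1 h4 (Q := Q) (by rw [hQ.1]; push_cast; rfl)
    rw [hc.primeFactors_mul, Finset.prod_union hc.disjoint_primeFactors] at h1
    exact Int.eq_of_mul_eq_one h1
  · rfl

theorem formC_lv (D ρ : ℤ) (Q : QF) : Lv D ρ Q.mir ↔ Lv D ρ Q := by
  unfold Lv
  rw [QF.disc_mir]
  simp [QF.mir]

theorem formC_chip (p : ℕ) (Q : QF) : Q.mir.chip p = jacobiSym (-1) p * Q.chip p := by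
  simp only [QF.chip, QF.mir, dvd_neg]
  split_ifs <;> rw [← jacobiSym.mul_left, neg_one_mul]

theorem wf_mir {b : ℕ} (hb : Squarefree b) (h4 : b % 4 = 1) (D ρ : ℤ) (Q : QF) :
    wf D ρ b Q.mir = wf D ρ b Q := by
  simp only [wf, formC_lv, formC_chip, Finset.prod_mul_distrib]
  rw [← BSD15.cfid_jac_sqf _ hb, formC_neg_one h4, one_mul]

theorem w4_mir (Q : QF) : w4 Q.mir = w4 Q := by
  simp only [w4, formC_lv]
  simp [QF.mir]

theorem wf_congr (D : ℤ) {ρ ρ' : ℤ} (h : 30 ∣ ρ - ρ') (b : ℕ) : wf D ρ b = wf D ρ' b := by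
  funext Q; simp only [wf, lv_congr h]

variable {n : ℕ} [Good n] {ρ : ℤ}

theorem NN_eq (hd : HD n ρ) {w : QF → ℤ} (hw : ∀ Q g, G0 g → w (Q.cmp g) = w Q)
    {P : ClassGroup (OO n) → QF} (hP : ∀ c, Hg n ρ (P c))
    (hi : Function.Injective fun c => cls ((P c).idl n)) (J : Finset ℕ) (B : ℤ) :
    NN n ρ J w B =
      ∑ c, gJ J (cls ((P c).idl n)) * ∑ᶠ Q : QF, if (P c).pair Q = B then w Q else 0 := by
  rw [NN, ← (Finite.injective_iff_bijective.1 hi).sum_comp]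
  refine Finset.sum_congr rfl fun c _ => ?_
  obtain ⟨g, hg, e, -⟩ := exists_ht hd (hP c)
  rw [← e, ← finsum_comp_equiv (QF.cmpE hg.1)]
  simp only [QF.cmpE_apply, QF.pair_cmp, hg.1, one_pow, one_mul, hw _ g hg]

theorem NN_add (hd : HD n ρ) {w w' : QF → ℤ} {D : ℤ} (h1 : ∀ Q, w Q ≠ 0 → Q.disc = D)
    (h2 : ∀ Q, w' Q ≠ 0 → Q.disc = D) (k : ℤ) (J : Finset ℕ) (B : ℤ) :
    NN n ρ J (fun Q => w Q + k * w' Q) B = NN n ρ J w B + k * NN n ρ J w' B := by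
  simp only [NN, Finset.mul_sum, ← Finset.sum_add_distrib]
  refine Finset.sum_congr rfl fun c _ => ?_
  have h0 := (hq_spec hd c).1
  have fin : ∀ {v : QF → ℤ}, (∀ Q, v Q ≠ 0 → Q.disc = D) →
      Function.HasFiniteSupport fun Q : QF => if (hq n ρ c).pair Q = B then v Q else 0 :=
    fun {v} hv => (pair_finite h0.2 h0.disc_neg D B).subset fun Q hQ => by
      by_cases h : (hq n ρ c).pair Q = B
      · exact ⟨hv Q (by simpa [h] using hQ), h⟩
      · simp [h] at hQ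
  have h3 : ∀ Q, k * w' Q ≠ 0 → Q.disc = D := fun Q h => h2 Q (right_ne_zero_of_mul h)
  rw [mul_left_comm, ← mul_add, mul_finsum' _ k (fin h2)]
  simp only [mul_ite, mul_zero]
  rw [← finsum_add_distrib (fin h1) (fin h3)]
  congr 2
  funext Q
  split_ifs <;> simp

omit [Good n] in
theorem formC_res (hd : HD n ρ) : n % 3 = 2 ∧ (n % 5 = 1 ∨ n % 5 = 4) := by
  have key : ∀ p : ℕ, p.Prime → p ∣ 15 → n % p ≠ 0 := fun p hp h1 h2 =>
    hp.ne_one (Nat.eq_one_of_dvd_coprimes hd.cop (Nat.dvd_of_mod_eq_zero h2) h1)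
  have h3 := key 3 (by norm_num) (by norm_num)
  have h5 := key 5 (by norm_num) (by norm_num)
  have h := hd.rt
  have e3 : ρ ^ 2 % 3 = 0 ∨ ρ ^ 2 % 3 = 1 := by
    rcases (show ρ % 3 = 0 ∨ ρ % 3 = 1 ∨ ρ % 3 = 2 by omega) with h | h | h <;>
      simp [sq, Int.mul_emod, h]
  have e5 : ρ ^ 2 % 5 = 0 ∨ ρ ^ 2 % 5 = 1 ∨ ρ ^ 2 % 5 = 4 := by
    rcases (show ρ % 5 = 0 ∨ ρ % 5 = 1 ∨ ρ % 5 = 2 ∨ ρ % 5 = 3 ∨ ρ % 5 = 4 by omega) with
      h | h | h | h | h <;> simp [sq, Int.mul_emod, h]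
  omega

theorem HD.adm (hd : HD n ρ) : Adm n := by
  have h := formC_res hd
  exact BSD15.ind_b5_adm Good.sq Good.h4 (by omega) (by omega)

theorem HD.jac (hd : HD n ρ) : jacobiSym (-15) n = -1 := by
  have h := formC_res hd
  exact (BSD15.ind_jac hd.adm).resolve_right fun h' => by omega

theorem HD.coprime (hd : HD n ρ) : IsCoprime ρ 30 := by
  obtain ⟨k, hk⟩ := hd.rt
  have h : IsCoprime (n : ℤ) 30 := Nat.isCoprime_iff_coprime.2 hd.adm.2
  rw [show (n : ℤ) = ρ * -ρ + 30 * (2 * k) by linear_combination hk,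
    IsCoprime.add_mul_left_left_iff] at h
  exact h.of_mul_left_left

omit [Good n] in
theorem B1.exists_HF (h : B1 n) : ∃ ρ, HF n 1 ρ := by
  obtain ⟨h1, h2, h3, h4⟩ := h
  haveI : Good n := ⟨h1, h2, by omega⟩
  have hc : n.Coprime 15 :=
    (BSD15.ind_b5_adm h1 h2 (by omega) (by omega)).2.coprime_dvd_right (by norm_num)
  obtain ⟨ρ, hd⟩ : ∃ ρ, HD n ρ := by
    rcases h4 with h4 | h4
    · exact ⟨7, hc, by omega⟩
    · exact ⟨1, hc, by omega⟩
  exact ⟨ρ, by rwa [mul_one], by rwa [mul_one], hd.jac⟩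

theorem HF.jac {a b : ℕ} (h : HF a b ρ) :
    jacobiSym (-15) b = 1 ∧ jacobiSym 15 a = jacobiSym 15 b ∧ 1 < a ∧ Adm a ∧ Adm b ∧
      a.Coprime b := by
  haveI := h.good
  have ha := h.hd.adm
  have a0 : a ≠ 0 := ha.left.1.ne_zero
  have b0 : b ≠ 0 := ha.right.1.ne_zero
  have h1 := h.hd.jac
  have hs := h.sign
  rw [jacobiSym.mul_right' _ a0 b0, hs] at h1
  have h2 : jacobiSym (-15) b = 1 := by linarith
  have h3 : jacobiSym (-1) a * jacobiSym (-1) b = -1 := by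
    rw [← jacobiSym.mul_right' _ a0 b0, jacobiSym.at_neg_one (Nat.odd_iff.2 (by
      have := h.good.h4; omega)), ZMod.χ₄_nat_three_mod_four h.good.h4]
  have h4 : jacobiSym (-1) a ^ 2 = 1 := jacobiSym.sq_one (by simp)
  have e : ∀ m : ℕ, jacobiSym 15 m = jacobiSym (-1) m * jacobiSym (-15) m := fun m => by
    rw [← jacobiSym.mul_left]; norm_num
  refine ⟨h2, ?_, ?_, ha.left, ha.right, Nat.coprime_of_squarefree_mul ha.1⟩
  · rw [e, e, hs, h2]
    linear_combination -jacobiSym (-1) a * h3 + jacobiSym (-1) b * h4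
  · by_contra h5
    obtain rfl : a = 1 := by omega
    simp at hs

end Pool.Agent.P.MP_8b7eba_nt.R1
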