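import Pool.Agent.P.MP_8b7eba_nt.R1.CntB
import Pool.Agent.P.MP_8b7eba_nt.R1.FormC

/-! The number of pairs of forms with given mixed discriminant. -/

namespace Pool.Agent.P.MP_8b7eba_nt.R1

open Complex Filter Topology MeasureTheory Metric Finset Asymptotics PowerSeries
open scoped Real UpperHalfPlane MatrixGroups ComplexConjugate
open _root_.Pool.Agent.P.MP_8b7eba_nt.Mod (M2 G0 FI L0 om lv xx yy qq UH atI ex mT)
open BSD15 (OO Good cls gch gJ nm cj rho lam Adm B3 B5 No4 Xp XJ Rn)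
open MP_9c97e9_nt (Pt pm Is)

/-- the element attached to a pair of forms -/
def cntPhi (n : ℕ) (P Q : QF) : OO n :=
  ((P.A * Q.B - Q.A * P.B : ℤ) : OO n) * P.bet n + ((P.A * (P.A * Q.C - Q.A * P.C) : ℤ) : OO n)

theorem cnt_phi_re (n : ℕ) (P Q : QF) : (cntPhi n P Q).re =
    -((P.A * Q.B - Q.A * P.B) * ((P.B + 1) / 2)) + P.A * (P.A * Q.C - Q.A * P.C) := by
  simp only [cntPhi, QF.bet, QuadraticAlgebra.re_add, QuadraticAlgebra.re_mul,
    QuadraticAlgebra.re_intCast, QuadraticAlgebra.im_intCast, Int.cast_id]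
  ring

theorem cnt_phi_im (n : ℕ) (P Q : QF) : (cntPhi n P Q).im = P.A * Q.B - Q.A * P.B := by
  simp only [cntPhi, QF.bet, QuadraticAlgebra.im_add, QuadraticAlgebra.im_mul,
    QuadraticAlgebra.re_intCast, QuadraticAlgebra.im_intCast, Int.cast_id]
  ring

variable {n : ℕ} [Good n] {ρ D ρ₂ : ℤ}

theorem cnt_phi_tr {P : QF} (hD : P.disc = -n) (Q : QF) :
    2 * (cntPhi n P Q).re + (cntPhi n P Q).im = -(P.A * P.pair Q) - Q.A * n := by
  obtain ⟨k, hk⟩ := FormA_odd hD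
  have h1 : (P.B + 1) / 2 = k := by omega
  rw [cnt_phi_re, cnt_phi_im, h1]
  simp only [QF.disc, QF.pair] at hD ⊢
  linear_combination Q.A * hD + (P.A * Q.B - Q.A * P.B) * hk

theorem cnt_phi_norm {P : QF} (hD : P.disc = -n) (Q : QF) :
    4 * (cntPhi n P Q).norm = P.A ^ 2 * (P.pair Q ^ 2 + n * Q.disc) := by
  rw [BSD15.four_mul_norm, cnt_phi_tr hD, cnt_phi_im]
  have h : (n : ℤ) = -P.disc := by rw [hD]; ring
  rw [h]
  simp only [QF.disc, QF.pair]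
  ring

theorem cnt_phi_rho {P : QF} (hD : P.disc = -n) (Q : QF) :
    2 * rho (cntPhi n P Q) = -((P.A : ZMod n) * (P.pair Q : ℤ)) := by
  have h := congrArg (Int.cast (R := ZMod n)) (cnt_phi_tr hD Q)
  have h4 := BSD15.qbasic_four_zmod (n := n)
  push_cast at h
  rw [ZMod.natCast_self] at h
  simp only [rho]
  linear_combination h + (((cntPhi n P Q).im : ℤ) : ZMod n) * h4

theorem cnt_phi_eq {P : QF} (hD : P.disc = -n) (Q : QF) :
    cntPhi n P Q = Q.A * (P.bet n * P.bet n) + Q.B * (P.A * P.bet n) + Q.C * (P.A * P.A) := by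
  rw [FormA_sq hD, cntPhi]
  push_cast
  ring

theorem cnt_mem (hd : HD n ρ) {P : QF} (hP : Hg n ρ P) (z : OO n) :
    z ∈ P.idl n ^ 2 * cj (QF.idl n ⟨15, ρ, (ρ ^ 2 + n) / 60⟩) ↔
      ∃ Q : QF, 15 ∣ Q.A ∧ z = cntPhi n P Q := by
  have _ := hd
  obtain ⟨⟨hD, ⟨e, he⟩, h30⟩, -⟩ := hP
  obtain ⟨A, B, C⟩ := P
  simp only at he h30
  subst he
  have hD1 : QF.disc ⟨15, B, e * C⟩ = -n := by
    simp only [QF.disc] at hD ⊢; linear_combination hD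
  have hD2 : QF.disc ⟨e, B, 15 * C⟩ = -n := by
    simp only [QF.disc] at hD ⊢; linear_combination hD
  have e1 : QF.idl n ⟨15, ρ, (ρ ^ 2 + n) / 60⟩ = QF.idl n ⟨15, B, e * C⟩ :=
    idl_congr (by omega)
  have e2 : QF.idl n ⟨15 * e, B, C⟩ ^ 2 * cj (QF.idl n ⟨15, B, e * C⟩) =
      Ideal.span {((15 : ℤ) : OO n)} * (QF.idl n ⟨15 * e, B, C⟩ * QF.idl n ⟨e, B, 15 * C⟩) := by
    rw [← FormA_mul_cj hD1, sq]
    nth_rewrite 1 [idl_mul hD]
    ring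
  have hb : QF.bet n ⟨e, B, 15 * C⟩ = QF.bet n ⟨15 * e, B, C⟩ := rfl
  have e3 : ∀ w : OO n, w ∈ QF.idl n ⟨15 * e, B, C⟩ * QF.idl n ⟨e, B, 15 * C⟩ ↔
      ∃ a b c : ℤ, w = a * (QF.bet n ⟨15 * e, B, C⟩ * QF.bet n ⟨15 * e, B, C⟩) +
        b * (QF.bet n ⟨15 * e, B, C⟩ * e) + c * (((15 * e : ℤ) : OO n) * e) := by
    intro w
    constructor
    · intro hw
      refine Submodule.mul_induction_on hw ?_ ?_
      · intro x hx y hy
        obtain ⟨x₁, x₂, rfl⟩ := (mem_idl hD).1 hx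
        obtain ⟨y₁, y₂, rfl⟩ := (mem_idl hD2).1 hy
        refine ⟨x₂ * y₂, 15 * x₁ * y₂ + x₂ * y₁, x₁ * y₁, ?_⟩
        rw [hb]
        push_cast
        ring
      · rintro x y ⟨a, b, c, rfl⟩ ⟨a', b', c', rfl⟩
        refine ⟨a + a', b + b', c + c', ?_⟩
        push_cast
        ring
    · rintro ⟨a, b, c, rfl⟩
      have h1 := FormA_A_mem (n := n) ⟨15 * e, B, C⟩
      have h2 := FormA_bet_mem (n := n) ⟨15 * e, B, C⟩
      have h3 := FormA_A_mem (n := n) ⟨e, B, 15 * C⟩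
      have h4 := FormA_bet_mem (n := n) ⟨e, B, 15 * C⟩
      rw [hb] at h4
      exact Ideal.add_mem _ (Ideal.add_mem _ (Ideal.mul_mem_left _ _ (Ideal.mul_mem_mul h2 h4))
        (Ideal.mul_mem_left _ _ (Ideal.mul_mem_mul h2 h3)))
        (Ideal.mul_mem_left _ _ (Ideal.mul_mem_mul h1 h3))
  rw [e1, e2, Ideal.mem_span_singleton_mul]
  constructor
  · rintro ⟨w, hw, rfl⟩
    obtain ⟨a, b, c, rfl⟩ := (e3 w).1 hw
    refine ⟨⟨15 * a, b, c⟩, dvd_mul_right _ _, ?_⟩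
    rw [cnt_phi_eq hD]
    push_cast
    ring
  · rintro ⟨Q, ⟨a, ha⟩, rfl⟩
    refine ⟨_, (e3 _).2 ⟨a, Q.B, Q.C, rfl⟩, ?_⟩
    rw [cnt_phi_eq hD, ha]
    push_cast
    ring

omit [Good n] in
theorem cnt_pair_mod {P Q : QF} (hP : Hg n ρ P) (hQ : 15 ∣ Q.A) : 30 ∣ P.pair Q - ρ * Q.B := by
  obtain ⟨⟨-, ⟨e, he⟩, ⟨t, ht⟩⟩, -⟩ := hP
  obtain ⟨a, ha⟩ := hQ
  refine ⟨t * Q.B - e * Q.C - a * P.C, ?_⟩
  simp only [QF.pair, he, ha]
  linear_combination Q.B * ht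

theorem card_pairs (hd : HD n ρ) {P : QF} (hP : Hg n ρ P) (hc : IsCoprime P.A n) {B : ℤ}
    (hB : 30 ∣ B - ρ * ρ₂) {M : ℕ} (hM : 60 * M = B ^ 2 + n * D) :
    {Q : QF | Lv D ρ₂ Q ∧ P.pair Q = B}.ncard =
      {z : OO n | z ∈ P.idl n ^ 2 * cj (QF.idl n ⟨15, ρ, (ρ ^ 2 + n) / 60⟩) ∧
        z.norm = M * (15 * P.A ^ 2) ∧ 2 * rho z = -(P.A * B)}.ncard := by
  have hD := hP.1.1
  have hA : P.A ≠ 0 := hP.2.ne'
  have hn : (n : ℤ) ≠ 0 := by have := BSD15.qbasic_gt (n := n); omega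
  refine Set.ncard_congr (fun Q _ => cntPhi n P Q) ?_ ?_ ?_
  · rintro Q ⟨hQ, hp⟩
    refine ⟨(cnt_mem hd hP _).2 ⟨Q, hQ.2.1, rfl⟩, ?_, ?_⟩
    · have h := cnt_phi_norm hD Q
      rw [hp, hQ.1, ← hM] at h
      linarith
    · rw [cnt_phi_rho hD, hp]
  · rintro Q Q' ⟨-, hp⟩ ⟨-, hp'⟩ h
    have h1 := cnt_phi_tr hD Q
    have h2 := cnt_phi_tr hD Q'
    rw [h, h2, hp, hp'] at h1
    have h3 : Q.A = Q'.A := mul_right_cancel₀ hn (by linarith)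
    have h4 := cnt_phi_im n P Q
    rw [h, cnt_phi_im, h3] at h4
    have h5 : Q.B = Q'.B := mul_left_cancel₀ hA (by linarith)
    have h6 := cnt_phi_re n P Q
    rw [h, cnt_phi_re, h3, h5] at h6
    have h7 : Q.C = Q'.C := mul_left_cancel₀ hA (mul_left_cancel₀ hA (by linarith))
    exact QF.ext h3 h5 h7
  · rintro z ⟨hz, hN, hr⟩
    obtain ⟨Q₀, h15, rfl⟩ := (cnt_mem hd hP _).1 hz
    rw [cnt_phi_rho hD] at hr
    have h1 : (n : ℤ) ∣ P.A * (P.pair Q₀ - B) :=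
      (ZMod.intCast_zmod_eq_zero_iff_dvd _ n).1 (by push_cast; linear_combination -hr)
    obtain ⟨k, hk⟩ := hc.symm.dvd_of_dvd_mul_left h1
    have hp : P.pair ⟨Q₀.A + k * P.A, Q₀.B + k * P.B, Q₀.C + k * P.C⟩ = B := by
      simp only [QF.pair, QF.disc] at hk hD ⊢
      linear_combination hk + k * hD
    have he : cntPhi n P ⟨Q₀.A + k * P.A, Q₀.B + k * P.B, Q₀.C + k * P.C⟩ = cntPhi n P Q₀ := by
      simp only [cntPhi]
      congr 2
      · congr 1; ring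
      · ring
    have h15' : 15 ∣ Q₀.A + k * P.A := dvd_add h15 (hP.1.2.1.mul_left k)
    refine ⟨⟨Q₀.A + k * P.A, Q₀.B + k * P.B, Q₀.C + k * P.C⟩, ⟨⟨?_, h15', ?_⟩, hp⟩, he⟩
    · have h := cnt_phi_norm hD ⟨Q₀.A + k * P.A, Q₀.B + k * P.B, Q₀.C + k * P.C⟩
      rw [he, hN, hp] at h
      refine mul_left_cancel₀ hn (mul_left_cancel₀ (pow_ne_zero 2 hA) ?_)
      linear_combination -h + P.A ^ 2 * hM
    · have h := cnt_pair_mod (Q := ⟨Q₀.A + k * P.A, Q₀.B + k * P.B, Q₀.C + k * P.C⟩) hP h15'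
      rw [hp] at h
      refine hd.coprime.symm.dvd_of_dvd_mul_left ?_
      have h2 := dvd_sub hB h
      rwa [show B - ρ * ρ₂ - (B - ρ * (Q₀.B + k * P.B)) = ρ * (Q₀.B + k * P.B - ρ₂) by ring] at h2

theorem cnt_finsum {P : QF} (hP : Hg n ρ P) (D ρ₂ B : ℤ) :
    (∑ᶠ Q : QF, if P.pair Q = B then wf D ρ₂ 1 Q else 0) =
      ({Q : QF | Lv D ρ₂ Q ∧ P.pair Q = B}.ncard : ℤ) := by
  have hf : {Q : QF | Lv D ρ₂ Q ∧ P.pair Q = B}.Finite :=
    (pair_finite hP.2 hP.disc_neg D B).subset fun Q h => ⟨h.1.1, h.2⟩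
  rw [finsum_eq_sum_of_support_subset (s := hf.toFinset), Set.ncard_eq_toFinset_card _ hf,
    Finset.sum_congr rfl (g := fun _ => 1)]
  · simp
  · intro Q hQ
    have h := hf.mem_toFinset.1 hQ
    simp [wf, h.1, h.2]
  · intro Q hQ
    rw [Function.mem_support] at hQ
    rw [Finset.mem_coe, hf.mem_toFinset]
    by_cases h1 : P.pair Q = B
    · by_cases h2 : Lv D ρ₂ Q
      · exact ⟨h2, h1⟩
      · simp [wf, h2] at hQ
    · simp [h1] at hQ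

theorem NN_cnt (hd : HD n ρ) (hD : 0 < D) (h2 : 60 ∣ ρ₂ ^ 2 - D) (B : ℤ) :
    NN n ρ ∅ (wf D ρ₂ 1) B =
      if 30 ∣ B - ρ * ρ₂ then cnt n B ((B ^ 2 + n * D) / 60).toNat else 0 := by
  have h0 : NN n ρ ∅ (wf D ρ₂ 1) B =
      ∑ c, ({Q : QF | Lv D ρ₂ Q ∧ (hq n ρ c).pair Q = B}.ncard : ℤ) := by
    refine Finset.sum_congr rfl fun c _ => ?_
    rw [cnt_finsum (hq_spec hd c).1, gJ, Finset.prod_empty, one_mul]
  rw [h0]
  split_ifs with hB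
  · have hn := BSD15.qbasic_gt (n := n)
    have h60 : 60 ∣ B ^ 2 + n * D := by
      obtain ⟨t, ht⟩ := hB
      obtain ⟨r, hr⟩ := hd.rt
      obtain ⟨s, hs⟩ := h2
      refine ⟨t * ρ * ρ₂ + 15 * t ^ 2 + r * ρ₂ ^ 2 - n * s, ?_⟩
      rw [show B = ρ * ρ₂ + 30 * t by linarith]
      linear_combination ρ₂ ^ 2 * hr - n * hs
    have hpos : 0 < B ^ 2 + n * D := by positivity
    obtain ⟨M, hM⟩ : ∃ M : ℕ, 60 * M = B ^ 2 + n * D := ⟨((B ^ 2 + n * D) / 60).toNat, by omega⟩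
    have hM' : ((B ^ 2 + n * D) / 60).toNat = M := by omega
    have hc : ∀ c, IsCoprime (hq n ρ c).A n := fun c => by
      obtain ⟨h1, -, h3⟩ := hq_spec hd c
      obtain ⟨e, he⟩ := h1.1.2.1
      rw [he, Int.mul_ediv_cancel_left _ (by norm_num)] at h3
      rw [he]
      exact IsCoprime.mul_left (Nat.isCoprime_iff_coprime.2 hd.cop.symm) h3.of_mul_right_right
    have hnm : ∀ c, (nm ((hq n ρ c).idl n) : ℤ) = (hq n ρ c).A := fun c => by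
      rw [nm_idl (hq_spec hd c).1.1.1, Int.natAbs_of_nonneg (hq_spec hd c).1.2.le]
    have hF : nm (cj (QF.idl n ⟨15, ρ, (ρ ^ 2 + n) / 60⟩)) = 15 := by
      rw [BSD15.nm_cj, nm_idl]
      · rfl
      · have := hd.rt
        simp only [QF.disc]
        omega
    rw [hM', ← count_flip hF hd.cop (A := fun c => (hq n ρ c).idl n) (fun c =>
      ⟨(hq_spec hd c).2.1, Nat.isCoprime_iff_coprime.1 (by rw [hnm]; exact hc c)⟩)
      (by omega) ⟨D, by linarith⟩]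
    refine Finset.sum_congr rfl fun c _ => ?_
    have hz : (nm ((hq n ρ c).idl n) : ZMod n) = ((hq n ρ c).A : ZMod n) := by
      rw [← hnm c, Int.cast_natCast]
    rw [card_pairs hd (hq_spec hd c).1 (hc c) hB hM, hnm, hz]
  · refine Finset.sum_eq_zero fun c _ => ?_
    rw [Int.natCast_eq_zero, Set.ncard_eq_zero ((pair_finite (hq_spec hd c).1.2
      (hq_spec hd c).1.disc_neg D B).subset fun Q h => ⟨h.1.1, h.2⟩), Set.eq_empty_iff_forall_notMem]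
    rintro Q ⟨hQ, hp⟩
    have h := cnt_pair_mod (hq_spec hd c).1 hQ.2.1
    rw [hp] at h
    refine hB ?_
    have h3 := dvd_add h (hQ.2.2.mul_left ρ)
    rwa [show B - ρ * Q.B + ρ * (Q.B - ρ₂) = B - ρ * ρ₂ by ring] at h3

end Pool.Agent.P.MP_8b7eba_nt.R1
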