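import Pool.Agent.P.MP_8b7eba_nt.R1.Basic

/-! Counting elements with prescribed residue modulo the different. -/

namespace Pool.Agent.P.MP_8b7eba_nt.R1

open Complex Filter Topology MeasureTheory Metric Finset Asymptotics PowerSeries
open scoped Real UpperHalfPlane MatrixGroups ComplexConjugate
open _root_.Pool.Agent.P.MP_8b7eba_nt.Mod (M2 G0 FI L0 om lv xx yy qq UH atI ex mT)
open BSD15 (OO Good cls gch gJ nm cj rho lam Adm B3 B5 No4 Xp XJ Rn)
open MP_9c97e9_nt (Pt pm Is)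

section aux

open BSD15

variable {n : ℕ} [Good n]

/-- the twisted sets -/
def cntBL (σ : ℕ → ℤ) (F A : Ideal (OO n)) (B : ℤ) (M : ℕ) : Set (OO n) :=
  {z | z ∈ grossE (A ^ 2 * F) M ∧
    ∀ p ∈ n.primeFactors, 2 * grossRp p z = σ p * -((nm A : ZMod p) * B)}

theorem cntB_finite (σ : ℕ → ℤ) (F A : Ideal (OO n)) (B : ℤ) (M : ℕ) :
    (cntBL σ F A B M).Finite := (gross_E_finite _ _).subset fun _ h => h.1

theorem cntB_nm (F A : Ideal (OO n)) : nm (A ^ 2 * F) = nm A ^ 2 * nm F := by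
  rw [nm_mul, sq, nm_mul, sq]

theorem cntB_rp_intCast {p : ℕ} (hp : p ∣ n) (k : ℤ) : grossRp p (k : OO n) = k := by
  unfold grossRp
  rw [rho_intCast, ZMod.cast_intCast hp]

theorem cntB_one {F : Ideal (OO n)} (hF : nm F = 15) (A : Ideal (OO n)) (B : ℤ) (M : ℕ) :
    {z : OO n | z ∈ A ^ 2 * F ∧ z.norm = M * (15 * nm A ^ 2) ∧ 2 * rho z = -(nm A * B)} =
      cntBL (fun _ => 1) F A B M := by
  ext z
  have e1 : 2 * rho z = rho (((2 : ℕ) : OO n) * z) := by rw [rho_mul, rho_natCast]; simp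
  have e2 : -((nm A : ZMod n) * B) = rho ((-((nm A : ℤ) * B) : ℤ) : OO n) := by
    rw [rho_intCast]; simp
  simp only [cntBL, grossE, Set.mem_ofPred_eq, cntB_nm, hF, Int.cast_one, one_mul]
  rw [e1, e2, gross_rho_eq_iff, and_assoc]
  refine and_congr_right fun _ => and_congr (by push_cast; rw [mul_comm (15 : ℤ)]) ?_
  refine forall₂_congr fun p hp => ?_
  have hpn := Nat.dvd_of_mem_primeFactors hp
  rw [gross_rp_mul hpn, gross_rp_natCast hpn, cntB_rp_intCast hpn]
  simp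

theorem cntB_flip_le {F A A' D : Ideal (OO n)} {d : ℕ} (hdn : d ∣ n)
    (hD1 : nm D = d) (hD2 : cj D = D) (hD3 : ∀ z ∈ D, (d : ℤ) ∣ 2 * z.re + z.im)
    (hA : (nm A).Coprime n) (hA' : A' ≠ ⊥) (hcA : cls A' * (cls A)⁻¹ * cls D = 1)
    (σ σ' : ℕ → ℤ) (hσ : ∀ p ∈ n.primeFactors, σ' p = (if p ∣ d then -1 else 1) * σ p)
    (B : ℤ) (M : ℕ) : (cntBL σ F A B M).ncard ≤ (cntBL σ' F A' B M).ncard := by
  have hd0 : d ≠ 0 := fun h => gross_n_pos.ne' (Nat.eq_zero_of_zero_dvd (h ▸ hdn))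
  have hA0 := ne_bot_of_coprime hA
  have hD0 : D ≠ ⊥ := fun h => hd0 (hD1 ▸ nm_eq_zero.2 h)
  have hcj : cj A ≠ ⊥ := fun h =>
    hA0 (nm_eq_zero.1 (by rw [← nm_cj, h]; exact nm_eq_zero.2 rfl))
  obtain ⟨z, hz⟩ : ∃ z, A' * cj A * D = Ideal.span {z} := by
    refine (cls_eq_one_iff (mul_ne_zero (mul_ne_zero hA' hcj) hD0)).1 ?_
    rw [cls_mul (mul_ne_zero hA' hcj) hD0, cls_mul hA' hcj, cls_cj, hcA]
  have hDD : D * D = Ideal.span {(d : OO n)} := by
    have := mul_cj D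
    rwa [hD2, hD1] at this
  have hzD : z ∈ D := by
    have : z ∈ A' * cj A * D := hz ▸ Ideal.mem_span_singleton_self z
    exact Ideal.mul_le_right this
  obtain ⟨u, hu⟩ : ∃ u, z * z = d * u := by
    have : z * z ∈ D * D := Ideal.mul_mem_mul hzD hzD
    rw [hDD] at this
    exact Ideal.mem_span_singleton.1 this
  have hdO : (d : OO n) ≠ 0 := gross_natCast_ne_zero hd0
  have hNA : nm A ≠ 0 := fun h => hA0 (nm_eq_zero.1 h)
  have hNA' : nm A' ≠ 0 := fun h => hA' (nm_eq_zero.1 h)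
  have hzn : z.norm = nm A' * nm A * d := by
    rw [← nm_span, ← hz, nm_mul, nm_mul, nm_cj, hD1]; push_cast; ring
  have hdZ : (d : ℤ) ≠ 0 := by exact_mod_cast hd0
  have hNZ : (nm A : ℤ) ≠ 0 := by exact_mod_cast hNA
  have hNZ' : (nm A' : ℤ) ≠ 0 := by exact_mod_cast hNA'
  have hun : u.norm = (nm A' * nm A) ^ 2 := by
    have := congrArg QuadraticAlgebra.norm hu
    rw [map_mul, map_mul, hzn, QuadraticAlgebra.norm_natCast] at this
    apply mul_left_cancel₀ (pow_ne_zero 2 hdZ)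
    rw [← this]; ring
  have hu0 : u ≠ 0 := by
    intro h
    rw [norm_eq_zero'.2 h] at hun
    exact pow_ne_zero 2 (mul_ne_zero hNZ' hNZ) hun.symm
  have hsg : ∀ p ∈ n.primeFactors, grossRp p u =
      ((if p ∣ d then -1 else 1 : ℤ) : ZMod p) * ((nm A' : ZMod p) * nm A) := by
    intro p hp
    have hpn := Nat.dvd_of_mem_primeFactors hp
    have : Fact p.Prime := ⟨Nat.prime_of_mem_primeFactors hp⟩
    have h4 := gross_rp_sq hpn z
    rw [hzn] at h4
    push_cast at h4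
    split_ifs with hpd
    · obtain ⟨k, hk⟩ := hD3 z hzD
      have h1 : (d : OO n) * (u + ((nm A' * nm A : ℕ) : OO n)) = d * (z * (k : OO n)) := by
        have h2 := qbasic_mul_star z
        have h3 := gross_add_star z
        rw [hzn] at h2
        rw [hk] at h3
        push_cast at h2 h3 ⊢
        linear_combination -hu - h2 + z * h3
      have h2 := mul_left_cancel₀ hdO h1
      have h5 : ((d : ℕ) : ZMod p) = 0 := (ZMod.natCast_eq_zero_iff _ _).2 hpd
      rw [h5, mul_zero] at h4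
      have h6 := congrArg (grossRp p) h2
      rw [gross_rp_add hpn, gross_rp_mul hpn, (pow_eq_zero_iff two_ne_zero).1 h4, zero_mul,
        gross_rp_natCast hpn] at h6
      push_cast at h6 ⊢
      linear_combination h6
    · have h1 := congrArg (grossRp p) hu
      rw [gross_rp_mul hpn, gross_rp_mul hpn, gross_rp_natCast hpn] at h1
      have h5 : ((d : ℕ) : ZMod p) ≠ 0 := fun h => hpd ((ZMod.natCast_eq_zero_iff _ _).1 h)
      apply mul_left_cancel₀ h5
      push_cast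
      linear_combination h4 - h1
  have key : ∀ x ∈ cntBL σ F A B M, ∃ y ∈ cntBL σ' F A' B M, u * x = (nm A ^ 2 : ℕ) * y := by
    rintro a ⟨⟨ha, hn⟩, hc⟩
    have e1 : Ideal.span {z} * Ideal.span {z} * (A ^ 2 * F) =
        Ideal.span {(d : OO n) * (nm A ^ 2 : ℕ)} * (A' ^ 2 * F) := by
      rw [← hz, sq (nm A), Nat.cast_mul, ← Ideal.span_singleton_mul_span_singleton,
        ← Ideal.span_singleton_mul_span_singleton, ← hDD, ← mul_cj]
      ring
    have m1 : z * z * a ∈ Ideal.span {z} * Ideal.span {z} * (A ^ 2 * F) :=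
      Ideal.mul_mem_mul (Ideal.mul_mem_mul (Ideal.mem_span_singleton_self _)
        (Ideal.mem_span_singleton_self _)) ha
    rw [e1] at m1
    obtain ⟨a', ha', ea⟩ := gross_exists_div m1
    have ea' : u * a = (nm A ^ 2 : ℕ) * a' := by
      apply mul_left_cancel₀ hdO
      rw [← mul_assoc, ← hu, ea, mul_assoc]
    refine ⟨a', ⟨⟨ha', ?_⟩, ?_⟩, ea'⟩
    · have n1 := congrArg QuadraticAlgebra.norm ea'
      rw [map_mul, map_mul, QuadraticAlgebra.norm_natCast, hun, hn] at n1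
      rw [cntB_nm] at n1 ⊢
      push_cast at n1 ⊢
      apply mul_left_cancel₀ (pow_ne_zero 4 hNZ)
      linear_combination -n1
    · intro p hp
      have hpn := Nat.dvd_of_mem_primeFactors hp
      have hpp := Nat.prime_of_mem_primeFactors hp
      have : Fact p.Prime := ⟨hpp⟩
      have h1 := congrArg (grossRp p) ea'
      rw [gross_rp_mul hpn, gross_rp_mul hpn, gross_rp_natCast hpn, hsg p hp] at h1
      have h5 : (nm A : ZMod p) ≠ 0 := fun h =>
        hpp.one_lt.ne' (Nat.eq_one_of_dvd_coprimes hA ((ZMod.natCast_eq_zero_iff _ _).1 h) hpn)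
      apply mul_left_cancel₀ (pow_ne_zero 2 h5)
      rw [hσ p hp, Int.cast_mul]
      rw [Nat.cast_pow] at h1
      linear_combination -2 * h1 +
        (((if p ∣ d then -1 else 1 : ℤ) : ZMod p) * ((nm A' : ZMod p) * nm A)) * hc p hp
  choose! f hf using key
  refine Set.ncard_le_ncard_of_injOn f (fun x hx => (hf x hx).1) ?_ (cntB_finite _ _ _ _ _)
  intro x hx y hy hxy
  have h1 := (hf x hx).2
  rw [hxy, ← (hf y hy).2] at h1
  exact mul_left_cancel₀ hu0 h1

theorem cntB_sum_flip (F : Ideal (OO n)) {A : ClassGroup (OO n) → Ideal (OO n)}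
    (hA : ∀ c, cls (A c) = c ∧ (nm (A c)).Coprime n) {S : Finset ℕ} (hS : S ⊆ n.primeFactors)
    (B : ℤ) (M : ℕ) : ∑ c, ((cntBL (grossSg S) F (A c) B M).ncard : ℤ) =
      ∑ c, ((cntBL (fun _ => 1) F (A c) B M).ncard : ℤ) := by
  have hn : ∏ p ∈ n.primeFactors, p = n := Nat.prod_primeFactors_of_squarefree Good.sq
  have hdn : (∏ p ∈ S, p) ∣ n := by
    conv_rhs => rw [← hn]
    exact Finset.prod_dvd_prod_of_subset _ _ _ hS
  obtain ⟨D, hD1, hD2, hD3⟩ := exists_ramified (n := n) hdn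
  have hc : (cls D)⁻¹ = cls D := by rw [← cls_cj, hD2]
  have hcc : cls D * cls D = 1 := by
    nth_rewrite 1 [← hc]
    exact inv_mul_cancel _
  have hdv : ∀ p ∈ n.primeFactors, (p ∣ ∏ q ∈ S, q ↔ p ∈ S) := by
    intro p hp
    have hpp := Nat.prime_of_mem_primeFactors hp
    refine ⟨fun h => ?_, fun h => Finset.dvd_prod_of_mem _ h⟩
    obtain ⟨q, hq, hpq⟩ := (Prime.dvd_finsetProd_iff hpp.prime _).1 h
    rwa [(Nat.prime_dvd_prime_iff_eq hpp (Nat.prime_of_mem_primeFactors (hS hq))).1 hpq]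
  rw [← Equiv.sum_comp (Equiv.mulRight (cls D))]
  refine Finset.sum_congr rfl fun s _ => ?_
  simp only [Equiv.coe_mulRight]
  congr 1
  apply le_antisymm
  · refine cntB_flip_le hdn hD1 hD2 hD3 (hA _).2 (ne_bot_of_coprime (hA _).2) ?_ _ _ ?_ B M
    · rw [(hA _).1, (hA _).1, mul_inv, mul_inv_cancel_left, inv_mul_cancel]
    · intro p hp
      simp only [hdv p hp, grossSg]
      split_ifs <;> simp
  · refine cntB_flip_le hdn hD1 hD2 hD3 (hA _).2 (ne_bot_of_coprime (hA _).2) ?_ _ _ ?_ B M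
    · rw [(hA _).1, (hA _).1, mul_comm s, mul_inv_cancel_right, hcc]
    · intro p hp
      simp only [hdv p hp, grossSg, mul_one]

theorem cntB_two_ne {p : ℕ} (hp : p ∈ n.primeFactors) : (2 : ZMod p) ≠ 0 := fun h =>
  gross_p_odd hp ((Nat.prime_dvd_prime_iff_eq (Nat.prime_of_mem_primeFactors hp) Nat.prime_two).1
    ((ZMod.natCast_eq_zero_iff 2 p).1 (by exact_mod_cast h)))

omit [Good n] in
theorem cntB_cong {p : ℕ} (hp : p ∣ n) {B : ℤ} {M : ℕ} (h : (n : ℤ) ∣ 60 * M - B ^ 2) :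
    (B : ZMod p) ^ 2 = 60 * M := by
  have := (ZMod.intCast_zmod_eq_zero_iff_dvd _ p).2 ((Int.natCast_dvd_natCast.2 hp).trans h)
  push_cast at this
  linear_combination -this

open Classical in
theorem cntB_point {N : ℕ} (hN : N.Coprime n) {B : ℤ} {M : ℕ} (h : (n : ℤ) ∣ 60 * M - B ^ 2)
    {z : OO n} (hz : z.norm = M * (N ^ 2 * 15 : ℕ)) :
    ∑ S ∈ n.primeFactors.powerset,
      (if ∀ p ∈ n.primeFactors, 2 * grossRp p z = grossSg S p * -((N : ZMod p) * B)
        then (1 : ℤ) else 0) = grossW n B.natAbs := by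
  have h1 : grossW n B.natAbs = ∏ p ∈ n.primeFactors,
      ((if 2 * grossRp p z = (N : ZMod p) * B then (1 : ℤ) else 0) +
        if 2 * grossRp p z = -((N : ZMod p) * B) then (1 : ℤ) else 0) := by
    unfold grossW
    refine Finset.prod_congr rfl fun p hp => ?_
    have hpn := Nat.dvd_of_mem_primeFactors hp
    have hpp := Nat.prime_of_mem_primeFactors hp
    have : Fact p.Prime := ⟨hpp⟩
    have ea := gross_rp_sq hpn z
    have eb := cntB_cong hpn h
    rw [hz] at ea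
    push_cast at ea
    have hsq : (2 * grossRp p z) ^ 2 = ((N : ZMod p) * B) ^ 2 := by
      linear_combination 4 * ea - (N : ZMod p) ^ 2 * eb
    have hNp : ((N : ℕ) : ZMod p) ≠ 0 := fun h =>
      hpp.one_lt.ne' (Nat.eq_one_of_dvd_coprimes hN ((ZMod.natCast_eq_zero_iff _ _).1 h) hpn)
    by_cases hm : p ∣ B.natAbs
    · have hB : (B : ZMod p) = 0 :=
        (ZMod.intCast_zmod_eq_zero_iff_dvd _ p).2 (Int.natCast_dvd.2 hm)
      rw [hB, mul_zero, zero_pow two_ne_zero, pow_eq_zero_iff two_ne_zero] at hsq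
      simp [hm, hB, hsq]
    · have hB : (B : ZMod p) ≠ 0 := fun h =>
        hm (Int.natCast_dvd.1 ((ZMod.intCast_zmod_eq_zero_iff_dvd _ p).1 h))
      have hne : (N : ZMod p) * B ≠ -((N : ZMod p) * B) := fun h =>
        mul_ne_zero (cntB_two_ne hp) (mul_ne_zero hNp hB) (by linear_combination h)
      rcases sq_eq_sq_iff_eq_or_eq_neg.1 hsq with h | h
      · rw [h, if_neg hm, if_pos rfl, if_neg hne]
      · rw [h, if_neg hm, if_pos rfl, if_neg hne.symm, add_comm]
  rw [h1, Finset.prod_add]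
  refine Finset.sum_congr rfl fun S hS => ?_
  rw [Finset.prod_boole, Finset.prod_boole, ite_zero_mul_ite_zero, mul_one]
  refine if_congr ?_ rfl rfl
  have hS' := Finset.mem_powerset.1 hS
  constructor
  · intro h
    refine ⟨fun p hp => ?_, fun p hp => ?_⟩
    · simpa [grossSg, hp] using h p (hS' hp)
    · have h2 := Finset.mem_sdiff.1 hp
      simpa [grossSg, h2.2] using h p h2.1
  · rintro ⟨h2, h3⟩ p hp
    by_cases hpS : p ∈ S
    · simpa [grossSg, hpS] using h2 p hpS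
    · simpa [grossSg, hpS] using h3 p (Finset.mem_sdiff.2 ⟨hp, hpS⟩)

theorem cntB_sum_S {F A : Ideal (OO n)} (hF : nm F = 15) (hA : (nm A).Coprime n) {B : ℤ} {M : ℕ}
    (h : (n : ℤ) ∣ 60 * M - B ^ 2) :
    ∑ S ∈ n.primeFactors.powerset, ((cntBL (grossSg S) F A B M).ncard : ℤ) =
      grossW n B.natAbs * ((grossE (A ^ 2 * F) M).ncard : ℤ) := by
  classical
  have hT := gross_E_finite (A ^ 2 * F) M
  have h1 : ∀ S, ((cntBL (grossSg S) F A B M).ncard : ℤ) = ∑ z ∈ hT.toFinset,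
      (if ∀ p ∈ n.primeFactors, 2 * grossRp p z = grossSg S p * -((nm A : ZMod p) * B)
        then (1 : ℤ) else 0) := by
    intro S
    rw [Finset.sum_boole, ← Set.ncard_coe_finset]
    congr 2
    ext x
    simp [cntBL]
  simp only [h1]
  rw [Finset.sum_comm, Finset.sum_congr rfl (g := fun _ => grossW n B.natAbs)]
  · rw [Finset.sum_const, Set.ncard_eq_toFinset_card _ hT, nsmul_eq_mul, mul_comm]
  · intro z hz
    have h2 := (hT.mem_toFinset.1 hz).2
    rw [cntB_nm, hF] at h2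
    convert cntB_point hA h h2

open Classical in
theorem cntB_eta {B : ℤ} {M : ℕ} (hM : 0 < M) (h : (n : ℤ) ∣ 60 * M - B ^ 2) :
    grossW n B.natAbs * (if ∀ p ∈ n.primeFactors, Xp n p (15 * M) = 1 then (1 : ℤ) else 0) =
      ∏ p ∈ (Int.gcd B n).primeFactors, (1 + Xp n p (15 * M)) := by
  have hn0 := gross_n_pos (n := n)
  rw [← Finset.prod_boole, grossW, ← Finset.prod_mul_distrib]
  have h1 : (Int.gcd B n).primeFactors = n.primeFactors.filter (fun p => p ∣ B.natAbs) := by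
    ext p
    simp only [Int.gcd, Int.natAbs_natCast, Nat.mem_primeFactors, Finset.mem_filter,
      Nat.dvd_gcd_iff, ne_eq, Nat.gcd_eq_zero_iff, hn0.ne', and_false, not_false_eq_true]
    tauto
  rw [h1, Finset.prod_filter]
  refine Finset.prod_congr rfl fun p hp => ?_
  have hpn := Nat.dvd_of_mem_primeFactors hp
  have hpp := Nat.prime_of_mem_primeFactors hp
  have : Fact p.Prime := ⟨hpp⟩
  have s1 := Xp_sq hp (A := 15 * M) (by omega)
  by_cases hm : p ∣ B.natAbs
  · simp only [hm, if_true]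
    rcases sq_eq_sq_iff_eq_or_eq_neg.1 (s1.trans (one_pow 2).symm) with h | h <;> rw [h] <;>
      norm_num
  · have hB : (B : ZMod p) ≠ 0 := fun h =>
      hm (Int.natCast_dvd.1 ((ZMod.intCast_zmod_eq_zero_iff_dvd _ p).1 h))
    have eb := cntB_cong hpn h
    have h2 : ¬ p ∣ 15 * M := fun h => by
      have h3 := (ZMod.natCast_eq_zero_iff _ _).2 h
      push_cast at h3
      exact pow_ne_zero 2 hB (by linear_combination eb + 4 * h3)
    have cop : ∀ {a : ℤ}, (a : ZMod p) ≠ 0 → a.gcd p = 1 := fun h =>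
      cfid_gcd hpp fun h' => h ((ZMod.intCast_zmod_eq_zero_iff_dvd _ p).2 h')
    have h3 : jacobiSym (2 ^ 2 * ((15 * M : ℕ) : ℤ)) p = jacobiSym (B ^ 2) p :=
      jacobiSym.mod_left' ((ZMod.intCast_eq_intCast_iff' _ _ p).1
        (by push_cast; linear_combination -eb))
    rw [jacobiSym.mul_left, jacobiSym.sq_one' (cop hB),
      jacobiSym.sq_one' (cop (by exact_mod_cast cntB_two_ne hp)), one_mul] at h3
    rw [Xp_of_not_dvd n h2, h3]
    simp [hm]

open Classical in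
theorem cntB_sum_E {F : Ideal (OO n)} (hF : nm F = 15) {A : ClassGroup (OO n) → Ideal (OO n)}
    (hA : ∀ c, cls (A c) = c ∧ (nm (A c)).Coprime n) {M : ℕ} (hM : 0 < M) :
    ∑ c, ((grossE (A c ^ 2 * F) M).ncard : ℤ) = 2 ^ n.primeFactors.card *
      (Rn n M * if ∀ p ∈ n.primeFactors, Xp n p (15 * M) = 1 then (1 : ℤ) else 0) := by
  have hF0 : F ≠ ⊥ := fun h => by rw [nm_eq_zero.2 h] at hF; omega
  have hr : n.primeFactors.card = n.primeFactors.card - 1 + 1 := by
    have := (Nat.nonempty_primeFactors.2 (lt_trans (by norm_num) (Good.gt (n := n)))).card_pos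
    omega
  have h1 : ∀ c, ((grossE (A c ^ 2 * F) M).ncard : ℤ) =
      2 * ∑ I ∈ grossI n M, if cls I * cls F * c ^ 2 = 1 then (1 : ℤ) else 0 := by
    intro c
    have h0 := ne_bot_of_coprime (hA c).2
    rw [gross_E_card (mul_ne_zero (pow_ne_zero 2 h0) hF0) hM, cls_mul (pow_ne_zero 2 h0) hF0, sq,
      cls_mul h0 h0, (hA c).1, ← sq]
    simp only [mul_assoc, mul_comm (cls F)]
  simp only [h1]
  rw [← Finset.mul_sum, Finset.sum_comm, Finset.sum_congr rfl (g := fun _ =>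
    2 ^ (n.primeFactors.card - 1) *
      if ∀ p ∈ n.primeFactors, Xp n p (15 * M) = 1 then (1 : ℤ) else 0)]
  · rw [Finset.sum_const, nsmul_eq_mul, gross_card_I hM]
    conv_rhs => rw [hr, pow_succ]
    ring
  · intro I hI
    have hI1 := (gross_mem_I hM).1 hI
    have hI0 : I ≠ ⊥ := fun h => hM.ne' (hI1 ▸ nm_eq_zero.2 h)
    rw [gross_sq_count, mul_ite, mul_one, mul_zero]
    refine if_congr (forall₂_congr fun p hp => ?_) rfl rfl
    rw [gch_mul hp, gch_cls hp hI0, gch_cls hp hF0, hI1, hF, mul_comm,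
      Xp_mul n (Nat.prime_of_mem_primeFactors hp) (by norm_num) hM.ne']

end aux

theorem count_flip {n : ℕ} [Good n] {F : Ideal (OO n)} (hF : nm F = 15) (h15 : n.Coprime 15)
    {A : ClassGroup (OO n) → Ideal (OO n)} (hA : ∀ c, cls (A c) = c ∧ (nm (A c)).Coprime n)
    {B : ℤ} {M : ℕ} (hM : 0 < M) (h : (n : ℤ) ∣ 60 * M - B ^ 2) :
    ∑ c, ({z : OO n | z ∈ A c ^ 2 * F ∧ z.norm = M * (15 * nm (A c) ^ 2) ∧
      2 * rho z = -(nm (A c) * B)}.ncard : ℤ) = cnt n B M := by
  have _ := h15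
  simp only [cntB_one hF]
  apply mul_left_cancel₀ (pow_ne_zero n.primeFactors.card (two_ne_zero (α := ℤ)))
  have h1 : (2 : ℤ) ^ n.primeFactors.card * ∑ c, ((cntBL (fun _ => 1) F (A c) B M).ncard : ℤ) =
      ∑ S ∈ n.primeFactors.powerset, ∑ c, ((cntBL (BSD15.grossSg S) F (A c) B M).ncard : ℤ) := by
    rw [Finset.sum_congr rfl fun S hS => cntB_sum_flip F hA (Finset.mem_powerset.1 hS) B M,
      Finset.sum_const, Finset.card_powerset, nsmul_eq_mul]
    push_cast; rfl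
  rw [h1, Finset.sum_comm]
  simp only [cntB_sum_S hF (hA _).2 h]
  rw [← Finset.mul_sum, cntB_sum_E hF hA hM, cnt, ← cntB_eta hM h]
  ring

end Pool.Agent.P.MP_8b7eba_nt.R1
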