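import Pool.Agent.P.MP_8b7eba_nt.Dens.Final

/-! The density argument for the classes 11 and 59 modulo 60: sums over the large prime. -/

namespace Pool.Agent.P.MP_8b7eba_nt.Dens.One

open Finset Filter

/-- the residue classes modulo 60 -/
def Bcl (n : ℕ) : Prop := n % 4 = 3 ∧ n % 3 = 2 ∧ (n % 5 = 1 ∨ n % 5 = 4)

instance : DecidablePred Bcl := fun n => by unfold Bcl; infer_instance

/-- the large primes attached to `m` -/
def RR (X C m : ℕ) : Finset ℕ :=
  (range (X + 1)).filter fun p => p.Prime ∧ X < C * m * p ∧ m * p ≤ X ∧ Bcl (m * p)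

noncomputable def WW (X C m d : ℕ) : ℝ :=
  ∑ p ∈ RR X C m, (jacobiSym p d : ℝ) * (Real.log p / p)

noncomputable def SS (g : ℕ → ℝ) (X C Z : ℕ) : ℝ :=
  ∑ m ∈ (QQ (PP Z)).divisors with m ^ 4 ≤ X, ∑ p ∈ RR X C m, Real.log p / p * (g (m * p) / m)

def sgn8 (e : Bool × Bool × Bool) : ℤ :=
  (if e.1 then -1 else 1) * (if e.2.1 then -1 else 1) * 1

/-- the character expansion of the indicator of the classes -/
def FF (n : ℕ) : ℤ := ∑ e : Bool × Bool × Bool, sgn8 e * ch e n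

theorem FF_mod (n : ℕ) : FF (n % 60) = FF n := by
  unfold FF
  simp only [ch_mod]

theorem Bcl_mod (n : ℕ) : Bcl (n % 60) ↔ Bcl n := by
  unfold Bcl
  rw [Nat.mod_mod_of_dvd n (by norm_num : 4 ∣ 60), Nat.mod_mod_of_dvd n (by norm_num : 3 ∣ 60),
    Nat.mod_mod_of_dvd n (by norm_num : 5 ∣ 60)]

theorem FF_close (n : ℕ) : |(if Bcl n then 8 else 0) - FF n| ≤ 8 := by
  have h : ∀ r < 60, |(if Bcl r then 8 else 0) - FF r| ≤ 8 := by decide +kernel
  have := h _ (Nat.mod_lt n (by norm_num))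
  simpa only [FF_mod, Bcl_mod] using this

theorem FF_eq {n : ℕ} (hn : n.Coprime 30) : (if Bcl n then 8 else 0) - FF n = 0 := by
  have h : ∀ r < 60, r % 2 ≠ 0 → r % 3 ≠ 0 → r % 5 ≠ 0 →
      (if Bcl r then 8 else 0) - FF r = 0 := by decide +kernel
  have h2 : ∀ q : ℕ, q.Prime → q ∣ 30 → n % q ≠ 0 := fun q hq h30 h0 =>
    hq.one_lt.ne' (Nat.eq_one_of_dvd_coprimes hn (Nat.dvd_of_mod_eq_zero h0) h30)
  have h3 := h2 2 (by norm_num) (by norm_num)
  have h4 := h2 3 (by norm_num) (by norm_num)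
  have h5 := h2 5 (by norm_num) (by norm_num)
  have := h _ (Nat.mod_lt n (by norm_num)) (by omega) (by omega) (by omega)
  simpa only [FF_mod, Bcl_mod] using this

theorem RR_eq {X C m : ℕ} (hC : 1 ≤ C) (hm : 0 < m) :
    RR X C m = ((Ioc (X / m / C) (X / m)).filter Nat.Prime).filter fun p => Bcl (m * p) := by
  ext p
  simp only [RR, mem_filter, mem_range, mem_Ioc]
  rw [Nat.div_div_eq_div_mul, Nat.div_lt_iff_lt_mul (by positivity), Nat.le_div_iff_mul_le hm,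
    show p * (m * C) = C * m * p by ring, mul_comm p m]
  constructor
  · tauto
  · rintro ⟨⟨⟨h1, h2⟩, h3⟩, h4⟩
    have : p ≤ m * p := Nat.le_mul_of_pos_left _ hm
    exact ⟨by omega, h3, h1, h2, h4⟩

theorem WW_one : ∃ C₁ : ℝ, 0 < C₁ ∧ ∀ X C m : ℕ, 1 ≤ C → 0 < m → m.Coprime 30 → C * m ≤ X →
    |WW X C m 1 - Real.log C / 8| ≤ C₁ := by
  obtain ⟨K, hK, h⟩ := block_ch
  refine ⟨K + 3, by positivity, fun X C m hC hm h30 hX => ?_⟩
  have hy : C ≤ X / m := (Nat.le_div_iff_mul_le hm).2 hX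
  set S := (Ioc (X / m / C) (X / m)).filter Nat.Prime with hS
  have hl0 : ∀ n : ℕ, 0 ≤ Real.log n / n := fun n => by positivity
  have e1 : 8 * WW X C m 1 = ∑ p ∈ S, (FF (m * p) : ℝ) * (Real.log p / p) +
      ∑ p ∈ S, (((if Bcl (m * p) then 8 else 0) - FF (m * p) : ℤ) : ℝ) * (Real.log p / p) := by
    unfold WW
    rw [RR_eq hC hm, sum_filter, mul_sum, ← sum_add_distrib]
    refine sum_congr rfl fun p _ => ?_
    split_ifs <;> simp <;> ring
  have h1 : |∑ p ∈ S, (((if Bcl (m * p) then 8 else 0) - FF (m * p) : ℤ) : ℝ) *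
      (Real.log p / p)| ≤ 24 := by
    refine (abs_sum_le_sum_abs _ _).trans ?_
    have h2 : ∀ p ∈ S, |(((if Bcl (m * p) then 8 else 0) - FF (m * p) : ℤ) : ℝ) *
        (Real.log p / p)| ≤ if p ∈ ({2, 3, 5} : Finset ℕ) then 8 else 0 := fun p hp => by
      have hp' : p.Prime := (mem_filter.1 hp).2
      by_cases h2 : p ∈ ({2, 3, 5} : Finset ℕ)
      · rw [if_pos h2, abs_mul, abs_of_nonneg (hl0 p)]
        have h4 : |(((if Bcl (m * p) then 8 else 0) - FF (m * p) : ℤ) : ℝ)| ≤ 8 := by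
          exact_mod_cast FF_close (m * p)
        calc _ ≤ (8 : ℝ) * 1 := mul_le_mul h4 (log_div_le_one _ (by positivity)) (hl0 p)
               (by norm_num)
          _ = 8 := by norm_num
      · have h3 : (m * p).Coprime 30 := by
          refine Nat.Coprime.mul_left h30 ((Nat.Prime.coprime_iff_not_dvd hp').2 fun hd => h2 ?_)
          have h4 : p ∈ Nat.primeFactors 30 := Nat.mem_primeFactors.2 ⟨hp', hd, by norm_num⟩
          have h5 : Nat.primeFactors 30 = {2, 3, 5} := by decide +kernel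
          rwa [h5] at h4
        rw [if_neg h2, FF_eq h3]
        simp
    refine (sum_le_sum h2).trans ?_
    rw [← sum_filter, sum_const, nsmul_eq_mul]
    have h3 : (S.filter fun p => p ∈ ({2, 3, 5} : Finset ℕ)).card ≤ 3 :=
      (card_le_card fun p hp => (mem_filter.1 hp).2).trans (by decide)
    have h4 : ((S.filter fun p => p ∈ ({2, 3, 5} : Finset ℕ)).card : ℝ) ≤ 3 := by
      exact_mod_cast h3
    linarith
  have e2 : ∑ p ∈ S, (FF (m * p) : ℝ) * (Real.log p / p) - Real.log C =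
      ∑ e : Bool × Bool × Bool, ((sgn8 e * ch e m : ℤ) : ℝ) *
        (∑ p ∈ S, (ch e p : ℝ) * (Real.log p / p) -
          if e = (false, false, false) then Real.log C else 0) := by
    simp only [mul_sub, sum_sub_distrib, mul_ite, mul_zero, sum_ite_eq', mem_univ, if_true]
    congr 1
    · simp only [FF, ch_mul, mul_sum]
      push_cast
      simp only [sum_mul]
      rw [sum_comm]
      refine sum_congr rfl fun e _ => sum_congr rfl fun p _ => by ring
    · simp [sgn8, ch]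
  have h2 : |∑ p ∈ S, (FF (m * p) : ℝ) * (Real.log p / p) - Real.log C| ≤ 8 * K := by
    rw [e2]
    refine (abs_sum_le_sum_abs _ _).trans ((sum_le_sum (g := fun _ => K) fun e _ => ?_).trans ?_)
    · have h3 : |sgn8 e * ch e m| ≤ 1 := by
        have h4 : ∀ e : Bool × Bool × Bool, |sgn8 e| = 1 := by decide
        rw [abs_mul, h4, one_mul]
        exact abs_ch_le e m
      have h4 : |((sgn8 e * ch e m : ℤ) : ℝ)| ≤ 1 := by exact_mod_cast h3
      rw [abs_mul]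
      calc _ ≤ 1 * K := mul_le_mul h4 (h e _ C hC hy) (abs_nonneg _) (by norm_num)
        _ = K := one_mul K
    · simp
  rw [abs_le] at *
  constructor <;> linarith [h1.1, h1.2, h2.1, h2.2]

theorem abs_WW_le : ∃ C₁ : ℝ, 0 < C₁ ∧ ∀ X C m d : ℕ, 1 ≤ C → 0 < m → C * m ≤ X →
    |WW X C m d| ≤ Real.log C + C₁ := by
  obtain ⟨K, hK, h⟩ := block_one
  refine ⟨K + 1, by positivity, fun X C m d hC hm hX => ?_⟩
  have hy : C ≤ X / m := (Nat.le_div_iff_mul_le hm).2 hX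
  have hl0 : ∀ n : ℕ, 0 ≤ Real.log n / n := fun n => by positivity
  have h1 := (abs_le.1 (h _ C hC hy)).2
  unfold WW
  rw [RR_eq hC hm]
  refine (abs_sum_le_sum_abs _ _).trans ((sum_le_sum (g := fun p : ℕ => Real.log p / p)
    fun p _ => ?_).trans ?_)
  · rw [abs_mul, abs_of_nonneg (hl0 p)]
    refine mul_le_of_le_one_left (hl0 p) ?_
    rcases jacobiSym.trichotomy p d with h | h | h <;> simp [h]
  · have := sum_le_sum_of_subset_of_nonneg
      (filter_subset (fun p => Bcl (m * p)) ((Ioc (X / m / C) (X / m)).filter Nat.Prime))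
      (fun n _ _ => hl0 n)
    linarith

noncomputable def pdChi (X C e d r : ℕ) : ℝ :=
  if X < C * (d * e) * r ∧ d * e * r ≤ X ∧ Bcl (d * e * r) then (jacobiSym r d : ℝ) else 0

theorem pd_abs_chi (X C e d r : ℕ) : |pdChi X C e d r| ≤ 1 := by
  unfold pdChi
  split_ifs
  · exact pd_abs_jac r d
  · simp

theorem pd_Bcl (c r : ℕ) : Bcl (c * (r + 60)) ↔ Bcl (c * r) := by
  rw [mul_add]
  generalize c * r = x
  unfold Bcl
  omega

theorem pd_WW (X C e d : ℕ) :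
    WW X C (d * e) d =
      ∑ r ∈ Icc 1 X, (if r.Prime then Real.log r / r else 0) * pdChi X C e d r := by
  unfold WW RR
  rw [sum_filter]
  symm
  apply sum_subset_zero_on_sdiff
  · intro r hr
    rw [mem_Icc] at hr
    rw [mem_range]
    omega
  · intro r hr
    rw [Finset.mem_sdiff, mem_range, mem_Icc] at hr
    have : r = 0 := by omega
    subst this
    simp
  · intro r _
    unfold pdChi
    by_cases hp : r.Prime
    · by_cases h : X < C * (d * e) * r ∧ d * e * r ≤ X ∧ Bcl (d * e * r)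
      · rw [if_pos hp, if_pos h, if_pos ⟨hp, h⟩, mul_comm]
      · rw [if_neg h, mul_zero, if_neg (fun h' => h h'.2)]
    · rw [if_neg hp, zero_mul, if_neg (fun h' => hp h'.1)]

noncomputable def pdK (X C e d₁ d₂ : ℕ) : ℝ :=
  ∑ r ∈ Icc 1 X, pdChi X C e d₁ r * pdChi X C e d₂ r / r

theorem pd_K_diag (X C e d₁ d₂ : ℕ) : |pdK X C e d₁ d₂| ≤ 1 + Real.log X := by
  refine le_trans (abs_sum_le_sum_abs _ _) (le_trans (sum_le_sum ?_) (sum_inv_le X))
  intro r _
  rw [abs_div, abs_mul, Nat.abs_cast]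
  apply div_le_div_of_nonneg_right _ (Nat.cast_nonneg r)
  exact mul_le_one₀ (pd_abs_chi _ _ _ _ _) (abs_nonneg _) (pd_abs_chi _ _ _ _ _)

theorem pd_K_off {X C e d₁ d₂ : ℕ} (hC : 1 ≤ C) {Y : ℝ} (hY : 1 ≤ Y) (hne : d₁ ≠ d₂)
    (s1 : Squarefree (d₁ * e)) (c1 : (d₁ * e).Coprime 30) (b1 : (d₁ * e) ^ 4 ≤ X)
    (s2 : Squarefree (d₂ * e)) (c2 : (d₂ * e).Coprime 30) (b2 : (d₂ * e) ^ 4 ≤ X)
    (hy : Y < d₁) : |pdK X C e d₁ d₂| ≤ 60 * C / Y := by
  obtain ⟨o1, q1, k1, p1, pe⟩ := pd_good s1 c1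
  obtain ⟨o2, q2, k2, p2, -⟩ := pd_good s2 c2
  set A := max (X / (C * (d₁ * e))) (X / (C * (d₂ * e))) with hA
  set B := min (X / (d₁ * e)) (X / (d₂ * e)) with hB
  have m1 : 0 < d₁ * e := Nat.mul_pos p1 pe
  have m2 : 0 < d₂ * e := Nat.mul_pos p2 pe
  have n1 : 0 < C * (d₁ * e) := Nat.mul_pos hC m1
  have n2 : 0 < C * (d₂ * e) := Nat.mul_pos hC m2
  have hAr : ∀ r, A < r ↔ X < C * (d₁ * e) * r ∧ X < C * (d₂ * e) * r := by
    intro r
    rw [hA, max_lt_iff, Nat.div_lt_iff_lt_mul n1, Nat.div_lt_iff_lt_mul n2, mul_comm r, mul_comm r]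
  have hBr : ∀ r, r ≤ B ↔ d₁ * e * r ≤ X ∧ d₂ * e * r ≤ X := by
    intro r
    rw [hB, le_min_iff, Nat.le_div_iff_mul_le m1, Nat.le_div_iff_mul_le m2, mul_comm r, mul_comm r]
  have hBX : B ≤ X := le_trans (min_le_left _ _) (Nat.div_le_self _ _)
  let g : ℕ → ℝ := fun r => if Bcl (d₁ * e * r) ∧ Bcl (d₂ * e * r) then 1 else 0
  have hg : ∀ n, g (n + 60) = g n := by
    intro n
    simp only [g, pd_Bcl]
  have hg1 : ∀ n, |g n| ≤ 1 := by
    intro n
    simp only [g]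
    split_ifs <;> simp
  have key := abs_sum_jac_div (N := 60) (by norm_num) o1 o2 q1 q2 hne k1 k2 g hg hg1 A B
  have e1 : pdK X C e d₁ d₂ =
      ∑ n ∈ Ioc A B, g n * (jacobiSym n d₁ * jacobiSym n d₂ : ℤ) / n := by
    unfold pdK
    symm
    apply sum_subset_zero_on_sdiff
    · intro r hr
      rw [mem_Ioc] at hr
      exact mem_Icc.2 ⟨Nat.succ_le_of_lt (lt_of_le_of_lt (Nat.zero_le _) hr.1), hr.2.trans hBX⟩
    · intro r hr
      rw [Finset.mem_sdiff, mem_Ioc, hAr, hBr] at hr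
      unfold pdChi
      split_ifs with h1 h2
      · exact absurd ⟨⟨h1.1, h2.1⟩, h1.2.1, h2.2.1⟩ hr.2
      · simp
      · simp
      · simp
    · intro r hr
      rw [mem_Ioc, hAr, hBr] at hr
      obtain ⟨⟨u1, u2⟩, v1, v2⟩ := hr
      unfold pdChi
      by_cases w1 : Bcl (d₁ * e * r) <;> by_cases w2 : Bcl (d₂ * e * r) <;>
        simp [g, u1, u2, v1, v2, w1, w2]
  rw [e1]
  refine le_trans key ?_
  have hY0 : 0 < Y := by linarith
  have hA1 : X < C * (d₁ * e) * (A + 1) := ((hAr (A + 1)).1 (Nat.lt_succ_self A)).1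
  have hcube : d₁ * d₁ * d₂ * (d₁ * e) ≤ X := by
    have l1 : d₁ ≤ d₁ * e := Nat.le_mul_of_pos_right _ pe
    have l2 : d₂ ≤ d₂ * e := Nat.le_mul_of_pos_right _ pe
    rcases le_total (d₁ * e) (d₂ * e) with h | h
    · refine le_trans ?_ b2
      calc d₁ * d₁ * d₂ * (d₁ * e) ≤ (d₂ * e) * (d₂ * e) * (d₂ * e) * (d₂ * e) := by
            gcongr <;> omega
        _ = (d₂ * e) ^ 4 := by ring
    · refine le_trans ?_ b1
      calc d₁ * d₁ * d₂ * (d₁ * e) ≤ (d₁ * e) * (d₁ * e) * (d₁ * e) * (d₁ * e) := by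
            gcongr
            omega
        _ = (d₁ * e) ^ 4 := by ring
  have h3 : d₁ * (d₁ * d₂) < C * (A + 1) := by
    have : d₁ * (d₁ * d₂) * (d₁ * e) < C * (A + 1) * (d₁ * e) := by
      calc d₁ * (d₁ * d₂) * (d₁ * e) = d₁ * d₁ * d₂ * (d₁ * e) := by ring
        _ ≤ X := hcube
        _ < C * (d₁ * e) * (A + 1) := hA1
        _ = C * (A + 1) * (d₁ * e) := by ring
    exact lt_of_mul_lt_mul_right this (Nat.zero_le _)
  have h4 : (d₁ : ℝ) * (d₁ * d₂) ≤ C * (A + 1) := by exact_mod_cast h3.le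
  rw [div_le_div_iff₀ (by positivity) hY0]
  have h5 : Y * ((d₁ : ℝ) * d₂) ≤ d₁ * (d₁ * d₂) :=
    mul_le_mul_of_nonneg_right hy.le (by positivity)
  push_cast
  nlinarith

theorem pd_fixed {k C X e : ℕ} (hC : 1 ≤ C) {Y : ℝ} (hY : 1 ≤ Y)
    (hL : 60 * (C : ℝ) ≤ Real.log X) {D : Finset ℕ}
    (hD : ∀ d ∈ D, Squarefree (d * e) ∧ (d * e).Coprime 30 ∧ (d * e) ^ 4 ≤ X ∧ Y < d)
    (hDX : D ⊆ Icc 1 X) {α : ℕ → ℝ}
    (hα : ∀ d, |α d| ≤ ((d * e).divisors.card : ℝ) ^ k / ((d * e : ℕ) : ℝ)) :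
    |∑ d ∈ D, α d * WW X C (d * e) d| ≤
      (e.divisors.card : ℝ) ^ k / e * (1 + Real.log X) ^ (2 ^ (2 * k) + 2 * 2 ^ k + 5) / √Y := by
  set L := 1 + Real.log X with hLd
  set β := (e.divisors.card : ℝ) ^ k / e with hβ
  have hC' : (1 : ℝ) ≤ C := by exact_mod_cast hC
  have hl0 : 0 ≤ Real.log X := by linarith
  have hL2 : 2 ≤ L := by linarith
  have hL1 : 1 ≤ L := by linarith
  have hY0 : 0 < Y := by linarith
  have hβ0 : 0 ≤ β := by positivity
  have hα' : ∀ d, |α d| ≤ β * ((d.divisors.card : ℝ) ^ k / d) := by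
    intro d
    refine le_trans (hα d) ?_
    rw [hβ, div_mul_div_comm, ← mul_pow, Nat.cast_mul, mul_comm (d : ℝ) e,
      mul_comm (e.divisors.card : ℝ)]
    apply div_le_div_of_nonneg_right _ (by positivity)
    exact pow_le_pow_left₀ (Nat.cast_nonneg _) (pd_tau_mul d e) k
  have s1 : ∑ d ∈ D, |α d| ≤ β * L ^ 2 ^ k := by
    refine le_trans (sum_le_sum fun d _ => hα' d) ?_
    rw [← mul_sum]
    apply mul_le_mul_of_nonneg_left _ hβ0
    exact le_trans (sum_le_sum_of_subset_of_nonneg hDX fun _ _ _ => by positivity)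
      (sum_tau_pow k X)
  have s2 : ∑ d ∈ D, α d ^ 2 ≤ β ^ 2 / Y * L ^ 2 ^ (2 * k) := by
    have : ∀ d ∈ D, α d ^ 2 ≤ β ^ 2 / Y * ((d.divisors.card : ℝ) ^ (2 * k) / d) := by
      intro d hd
      have hy := (hD d hd).2.2.2
      have hd0 : (0 : ℝ) < d := by linarith
      rw [← sq_abs]
      refine le_trans (pow_le_pow_left₀ (abs_nonneg _) (hα' d) 2) ?_
      have e1 : (β * ((d.divisors.card : ℝ) ^ k / d)) ^ 2 =
          β ^ 2 / d * ((d.divisors.card : ℝ) ^ (2 * k) / d) := by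
        rw [mul_comm 2 k, pow_mul]
        field_simp
      rw [e1]
      apply mul_le_mul_of_nonneg_right _ (by positivity)
      exact div_le_div_of_nonneg_left (by positivity) hY0 hy.le
    refine le_trans (sum_le_sum this) ?_
    rw [← mul_sum]
    apply mul_le_mul_of_nonneg_left _ (by positivity)
    exact le_trans (sum_le_sum_of_subset_of_nonneg hDX fun _ _ _ => by positivity)
      (sum_tau_pow (2 * k) X)
  let T : ℕ → ℝ := fun r => ∑ d ∈ D, α d * pdChi X C e d r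
  have e0 : ∑ d ∈ D, α d * WW X C (d * e) d =
      ∑ r ∈ Icc 1 X, ((if r.Prime then Real.log r else 0) / √r) * (T r / √r) := by
    simp only [pd_WW, mul_sum, T]
    rw [sum_comm]
    apply sum_congr rfl
    intro r hr
    rw [div_mul_div_comm, Real.mul_self_sqrt (Nat.cast_nonneg r), mul_sum, sum_div]
    apply sum_congr rfl
    intro d _
    split_ifs
    · ring
    · simp
  have cs := sum_mul_sq_le_sq_mul_sq (Icc 1 X)
    (fun r : ℕ => (if r.Prime then Real.log r else 0) / √r) (fun r : ℕ => T r / √r)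
  have c1 : ∑ r ∈ Icc 1 X, ((if r.Prime then Real.log r else 0) / √(r : ℝ)) ^ 2 ≤ L ^ 3 := by
    have : ∀ r ∈ Icc 1 X, ((if r.Prime then Real.log r else 0) / √(r : ℝ)) ^ 2 ≤
        L ^ 2 * (1 / (r : ℝ)) := by
      intro r hr
      rw [mem_Icc] at hr
      have hr1 : (1 : ℝ) ≤ r := by exact_mod_cast hr.1
      have hr2 : (r : ℝ) ≤ X := by exact_mod_cast hr.2
      rw [div_pow, Real.sq_sqrt (Nat.cast_nonneg r), mul_one_div]
      apply div_le_div_of_nonneg_right _ (Nat.cast_nonneg r)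
      split_ifs
      · apply pow_le_pow_left₀ (Real.log_nonneg hr1)
        have := Real.log_le_log (by linarith) hr2
        linarith
      · simp only [ne_eq, OfNat.ofNat_ne_zero, not_false_eq_true, zero_pow]
        positivity
    refine le_trans (sum_le_sum this) ?_
    rw [← mul_sum, pow_succ L 2]
    exact mul_le_mul_of_nonneg_left (sum_inv_le X) (by positivity)
  have c2 : ∑ r ∈ Icc 1 X, (T r / √(r : ℝ)) ^ 2 =
      ∑ d ∈ D, ∑ d' ∈ D, α d * α d' * pdK X C e d d' := by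
    simp only [pdK, mul_sum]
    have : ∀ r ∈ Icc 1 X, (T r / √(r : ℝ)) ^ 2 =
        ∑ d ∈ D, ∑ d' ∈ D, α d * α d' * (pdChi X C e d r * pdChi X C e d' r / r) := by
      intro r _
      rw [div_pow, Real.sq_sqrt (Nat.cast_nonneg r), sq, sum_mul_sum, sum_div]
      apply sum_congr rfl
      intro d _
      rw [sum_div]
      apply sum_congr rfl
      intro d' _
      ring
    rw [sum_congr rfl this, sum_comm]
    apply sum_congr rfl
    intro d _
    rw [sum_comm]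
  have c3 := pd_quad (D := D) (α := α) (K := pdK X C e) (u := L) (v := 60 * C / Y)
    (by positivity) (fun d _ => pd_K_diag X C e d d)
    (fun d hd d' hd' hne => pd_K_off hC hY hne (hD d hd).1 (hD d hd).2.1 (hD d hd).2.2.1
      (hD d' hd').1 (hD d' hd').2.1 (hD d' hd').2.2.1 (hD d hd).2.2.2)
  set N := 2 ^ (2 * k) + 2 * 2 ^ k + 1 with hN
  have c4 : L * ∑ d ∈ D, α d ^ 2 ≤ β ^ 2 / Y * L ^ N := by
    calc L * ∑ d ∈ D, α d ^ 2 ≤ L * (β ^ 2 / Y * L ^ 2 ^ (2 * k)) :=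
          mul_le_mul_of_nonneg_left s2 (by linarith)
      _ = β ^ 2 / Y * L ^ (2 ^ (2 * k) + 1) := by ring
      _ ≤ β ^ 2 / Y * L ^ N :=
          mul_le_mul_of_nonneg_left (pow_le_pow_right₀ hL1 (by omega)) (by positivity)
  have c5 : 60 * C / Y * (∑ d ∈ D, |α d|) ^ 2 ≤ β ^ 2 / Y * L ^ N := by
    calc 60 * C / Y * (∑ d ∈ D, |α d|) ^ 2 ≤ L / Y * (β * L ^ 2 ^ k) ^ 2 := by
          apply mul_le_mul
          · exact div_le_div_of_nonneg_right (by linarith) hY0.le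
          · exact pow_le_pow_left₀ (sum_nonneg fun _ _ => abs_nonneg _) s1 2
          · positivity
          · positivity
      _ = β ^ 2 / Y * L ^ (2 * 2 ^ k + 1) := by ring
      _ ≤ β ^ 2 / Y * L ^ N :=
          mul_le_mul_of_nonneg_left (pow_le_pow_right₀ hL1
            (Nat.succ_le_succ (Nat.le_add_left _ _))) (by positivity)
  have c6 : ∑ r ∈ Icc 1 X, (T r / √(r : ℝ)) ^ 2 ≤ β ^ 2 / Y * L ^ (N + 1) := by
    rw [c2]
    have : 0 ≤ β ^ 2 / Y * L ^ N := by positivity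
    calc _ ≤ 2 * (β ^ 2 / Y * L ^ N) := by linarith
      _ ≤ L * (β ^ 2 / Y * L ^ N) := mul_le_mul_of_nonneg_right hL2 this
      _ = _ := by ring
  rw [e0]
  apply abs_le_of_sq_le_sq' _ (by positivity) |>.elim fun a b => abs_le.2 ⟨a, b⟩
  refine le_trans cs ?_
  calc _ ≤ L ^ 3 * (β ^ 2 / Y * L ^ (N + 1)) :=
        mul_le_mul c1 c6 (sum_nonneg fun _ _ => sq_nonneg _) (by positivity)
    _ = β ^ 2 / Y * L ^ (N + 4) := by ring
    _ ≤ β ^ 2 / Y * L ^ (2 * (N + 4)) :=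
        mul_le_mul_of_nonneg_left (pow_le_pow_right₀ hL1 (by omega)) (by positivity)
    _ = _ := by
        rw [div_pow _ (√Y), Real.sq_sqrt hY0.le, mul_pow, ← pow_mul L, hN]
        ring

theorem pd_bilinear (k C : ℕ) (hC : 1 ≤ C) : ∃ B : ℕ, ∀ᶠ X : ℕ in atTop, ∀ Y : ℝ, 1 ≤ Y →
    ∀ M : Finset ℕ, (∀ m ∈ M, Squarefree m ∧ m.Coprime 30 ∧ m ^ 4 ≤ X) →
    ∀ a : ℕ → ℕ → ℝ, (∀ m d, |a m d| ≤ (m.divisors.card : ℝ) ^ k / m) →
    |∑ m ∈ M, ∑ d ∈ m.divisors.filter (fun d : ℕ => Y < (d : ℝ)), a m d * WW X C m d| ≤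
      Real.log X ^ B / √Y := by
  refine ⟨2 * (2 ^ k + (2 ^ (2 * k) + 2 * 2 ^ k + 5)), ?_⟩
  have hev : ∀ᶠ X : ℕ in atTop, 60 * (C : ℝ) ≤ Real.log X :=
    (Real.tendsto_log_atTop.comp tendsto_natCast_atTop_atTop).eventually_ge_atTop _
  filter_upwards [hev] with X hL Y hY M hM a ha
  have hC' : (1 : ℝ) ≤ C := by exact_mod_cast hC
  have hle : ∀ m ∈ M, 0 < m ∧ m ≤ X := by
    intro m hm
    have h0 := Nat.pos_of_ne_zero (hM m hm).1.ne_zero
    exact ⟨h0, le_trans (Nat.le_self_pow (by norm_num) m) (hM m hm).2.2⟩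
  have e0 : ∑ m ∈ M, ∑ d ∈ m.divisors.filter (fun d : ℕ => Y < (d : ℝ)), a m d * WW X C m d =
      ∑ e ∈ Icc 1 X, ∑ d ∈ (Icc 1 X).filter (fun d : ℕ => d * e ∈ M ∧ Y < (d : ℝ)),
        a (d * e) d * WW X C (d * e) d := by
    rw [sum_sigma', sum_sigma']
    refine sum_bij' (fun x _ => ⟨x.1 / x.2, x.2⟩) (fun x _ => ⟨x.2 * x.1, x.2⟩) ?_ ?_ ?_ ?_ ?_
    · rintro ⟨m, d⟩ h
      simp only [mem_sigma, mem_filter, Nat.mem_divisors, mem_Icc] at h ⊢
      obtain ⟨hm, ⟨hd, -⟩, hy⟩ := h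
      obtain ⟨h0, hX⟩ := hle m hm
      have hdm := Nat.le_of_dvd h0 hd
      have hd0 := Nat.pos_of_dvd_of_pos hd h0
      refine ⟨⟨Nat.div_pos hdm hd0, le_trans (Nat.div_le_self _ _) hX⟩, ⟨hd0, by omega⟩, ?_, hy⟩
      rwa [Nat.mul_div_cancel' hd]
    · rintro ⟨e, d⟩ h
      simp only [mem_sigma, mem_filter, Nat.mem_divisors, mem_Icc] at h ⊢
      obtain ⟨-, -, hm, hy⟩ := h
      exact ⟨hm, ⟨Dvd.intro _ rfl, (hle _ hm).1.ne'⟩, hy⟩
    · rintro ⟨m, d⟩ h
      simp only [mem_sigma, mem_filter, Nat.mem_divisors] at h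
      simp only [Nat.mul_div_cancel' h.2.1.1]
    · rintro ⟨e, d⟩ h
      simp only [mem_sigma, mem_filter, mem_Icc] at h
      simp only [Nat.mul_div_cancel_left e h.2.1.1]
    · rintro ⟨m, d⟩ h
      simp only [mem_sigma, mem_filter, Nat.mem_divisors] at h
      simp only [Nat.mul_div_cancel' h.2.1.1]
  rw [e0]
  set L := 1 + Real.log X with hLd
  set N := 2 ^ (2 * k) + 2 * 2 ^ k + 5 with hN
  have hL0 : 0 ≤ L := by linarith
  have h1 : ∀ e ∈ Icc 1 X,
      |∑ d ∈ (Icc 1 X).filter (fun d : ℕ => d * e ∈ M ∧ Y < (d : ℝ)),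
        a (d * e) d * WW X C (d * e) d| ≤ (e.divisors.card : ℝ) ^ k / e * (L ^ N / √Y) := by
    intro e _
    rw [← mul_div_assoc]
    apply pd_fixed (α := fun d => a (d * e) d) hC hY hL _ (filter_subset _ _) fun d => ha _ d
    intro d hd
    obtain ⟨-, hm, hy⟩ := mem_filter.1 hd
    exact ⟨(hM _ hm).1, (hM _ hm).2.1, (hM _ hm).2.2, hy⟩
  refine le_trans (abs_sum_le_sum_abs _ _) (le_trans (sum_le_sum h1) ?_)
  rw [← sum_mul]
  refine le_trans (mul_le_mul_of_nonneg_right (sum_tau_pow k X) (by positivity)) ?_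
  rw [← mul_div_assoc, ← pow_add, pow_mul]
  apply div_le_div_of_nonneg_right _ (Real.sqrt_nonneg _)
  apply pow_le_pow_left₀ hL0
  nlinarith

end Pool.Agent.P.MP_8b7eba_nt.Dens.One
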