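import Pool.Agent.P.MP_8b7eba_nt.R1.DensA

/-! The density argument for the classes 11 and 59 modulo 60: moments. -/

namespace Pool.Agent.P.MP_8b7eba_nt.Dens.One

open Finset Filter

theorem sk_ident (k : ℕ) {X C Z : ℕ} (hZ : Z ^ 4 ≤ X) (hX : C ^ 2 ≤ X) :
    SS (fun n => (NN n : ℝ) ^ k) X C Z = (1 / 2 ^ k) * ∑ u : II k,
      ∑ m ∈ (QQ (PP Z)).divisors with m ^ 4 ≤ X, ∑ d ∈ m.divisors,
        cc (Ph k) (1 / 2 ^ k) (PP Z) u m d * WW X C m d := by
  unfold SS
  rw [Finset.sum_comm, Finset.mul_sum]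
  refine Finset.sum_congr rfl fun m hm => ?_
  obtain ⟨hm1, hm4⟩ := Finset.mem_filter.1 hm
  have hmd : m ∣ QQ (PP Z) := Nat.dvd_of_mem_divisors hm1
  have key : ∀ p ∈ RR X C m, Real.log p / p * ((NN (m * p) : ℝ) ^ k / m) =
      (1 / 2 ^ k) * ∑ u : II k, ∑ d ∈ m.divisors,
        cc (Ph k) (1 / 2 ^ k) (PP Z) u m d * ((jacobiSym p d : ℝ) * (Real.log p / p)) := by
    intro p hp
    obtain ⟨-, hpp, hlt, -, hB⟩ := Finset.mem_filter.1 hp
    have hpP : p ∉ PP Z := by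
      intro h
      have hpZ : p ≤ Z := (Finset.mem_Icc.1 (Finset.mem_filter.1 h).1).2
      have h1 : X ^ 4 < (C * m * p) ^ 4 := Nat.pow_lt_pow_left hlt (by norm_num)
      have h2 : p ^ 4 ≤ X := (Nat.pow_le_pow_left hpZ 4).trans hZ
      have h3 : (C * m * p) ^ 4 = (C ^ 2) ^ 2 * m ^ 4 * p ^ 4 := by ring
      have h4 : (C ^ 2) ^ 2 * m ^ 4 * p ^ 4 ≤ X ^ 2 * X * X :=
        Nat.mul_le_mul (Nat.mul_le_mul (Nat.pow_le_pow_left hX 2) hm4) h2
      have h5 : X ^ 2 * X * X = X ^ 4 := by ring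
      omega
    rw [mom k (oddPrimes_PP Z) hmd hpp hpP hB.1, mul_left_comm, Finset.mul_sum]
    congr 1
    refine Finset.sum_congr rfl fun u _ => ?_
    rw [Finset.mul_sum]
    refine Finset.sum_congr rfl fun d _ => ?_
    ring
  rw [Finset.sum_congr rfl key, ← Finset.mul_sum, Finset.sum_comm]
  congr 1
  refine Finset.sum_congr rfl fun u _ => ?_
  rw [Finset.sum_comm]
  refine Finset.sum_congr rfl fun d _ => ?_
  rw [WW, Finset.mul_sum]

theorem sk (k : ℕ) : ∃ C₀ : ℝ, 0 < C₀ ∧ ∀ C K : ℕ, 1 ≤ C → 4 ≤ K → ∀ᶠ X : ℕ in atTop,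
    |SS (fun n => (NN n : ℝ) ^ k) X C (ZZ K X) - Real.log C / 8 * mu k * Mass (ZZ K X)| ≤
      C₀ * (1 + Real.log C * Real.exp (-(K : ℝ) / 8)) * Mass (ZZ K X) := by
  obtain ⟨C₁, hC₁, hW1⟩ := WW_one
  obtain ⟨C₂, hC₂, hW2⟩ := abs_WW_le
  obtain ⟨Cs, hCs, hsq⟩ := sec_sq k
  obtain ⟨Cr, hCr, hrk⟩ := rankin
  obtain ⟨c₀, hc₀, hlm⟩ := le_mass
  refine ⟨Fintype.card (II k) * (3 + C₁ * √Cs + √(Cr / c₀ * Cs)), ?_, ?_⟩
  · have : (0 : ℝ) < Fintype.card (II k) := by exact_mod_cast Fintype.card_pos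
    positivity
  intro C K hC hK
  have hK0 : 0 < K := by omega
  have hL : 0 ≤ Real.log C := Real.log_natCast_nonneg _
  obtain ⟨B, hB⟩ := pd_bilinear k C hC
  have hT := sk_tendsto hK0
  have hlog : ∀ᶠ Z : ℕ in atTop, 2 * (K : ℝ) ≤ Real.log Z :=
    (Real.tendsto_log_atTop.comp tendsto_natCast_atTop_atTop).eventually_ge_atTop _
  filter_upwards [hB, hT.eventually hsq, hT.eventually hlog,
    hT.eventually (sec_one k (ε := 1 / (1 + Real.log C)) (by positivity)),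
    hT.eventually (sec_small k (4 * B) (ε := 1 / (Real.log C + C₂)) (by positivity)),
    hT.eventually (eventually_ge_atTop 2), eventually_ge_atTop (C ^ 2)]
    with X hpd hsq hlog hone hsmall hZ2 hXC
  have hXpos : 0 < X := lt_of_lt_of_le (by positivity) hXC
  have hlogX := sk_log_le hK0 hXpos hZ2 hlog
  have hZK := sk_pow_le hK0 X
  generalize ZZ K X = Z at *
  have hZ4 : Z ^ 4 ≤ X := (Nat.pow_le_pow_right (by omega) hK).trans hZK
  have hK4 : (4 : ℝ) ≤ K := by exact_mod_cast hK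
  have hlZ : 1 ≤ Real.log Z := by linarith
  have hY : 1 ≤ Real.log Z ^ (4 * B) := one_le_pow₀ hlZ
  have hMa := one_le_mass Z
  have hsf := QQ_squarefree (oddPrimes_PP Z)
  have hcop := QQ_PP_coprime Z
  have hCm : ∀ m : ℕ, 0 < m → m ^ 4 ≤ X → C * m ≤ X := by
    intro m hm h4
    have h1 : m ^ 2 ≤ X := (Nat.pow_le_pow_right hm (by norm_num)).trans h4
    have h2 : (C * m) ^ 2 ≤ X ^ 2 := by
      rw [mul_pow, sq X]; exact Nat.mul_le_mul hXC h1
    exact (Nat.pow_le_pow_iff_left (by norm_num)).1 h2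
  have hu : ∀ u : II k, |∑ m ∈ (QQ (PP Z)).divisors with m ^ 4 ≤ X, ∑ d ∈ m.divisors,
        cc (Ph k) (1 / 2 ^ k) (PP Z) u m d * WW X C m d - Real.log C / 8 *
        mainC (Ph k) (2 ^ k) (lk (Ph k) u) (fun E => (eta (Ph k) u E : ℝ)) * Mass Z| ≤
      (3 + C₁ * √Cs + √(Cr / c₀ * Cs)) * (1 + Real.log C * Real.exp (-(K : ℝ) / 8)) *
        Mass Z := by
    intro u
    set c := cc (Ph k) (1 / 2 ^ k) (PP Z) u with hc
    rw [Finset.sum_congr rfl fun m hm => sk_split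
      (Nat.pos_of_mem_divisors (Finset.mem_filter.1 hm).1) hY _, Finset.sum_add_distrib,
      Finset.sum_add_distrib]
    have hall : ∑ m ∈ (QQ (PP Z)).divisors, |c m 1| ≤ √Cs * Mass Z := by
      refine (sk_cs _ (fun m hm => Nat.pos_of_mem_divisors hm) (fun m => c m 1)
        (sum_inv_divisors (oddPrimes_PP Z)).le (hsq u)).trans (le_of_eq ?_)
      change √(Mass Z * (Cs * Mass Z)) = _
      rw [show Mass Z * (Cs * Mass Z) = Cs * Mass Z ^ 2 by ring, Real.sqrt_mul hCs.le,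
        Real.sqrt_sq (by linarith)]
    refine sk_final (s1 := ∑ m ∈ (QQ (PP Z)).divisors with m ^ 4 ≤ X, c m 1)
      (s2 := ∑ m ∈ (QQ (PP Z)).divisors with ¬ m ^ 4 ≤ X, c m 1) hL hMa (Real.exp_pos _).le
      (by positivity) (by positivity) ?_ ?_ ?_ ?_ ?_
    · rw [Finset.sum_filter_add_sum_filter_not]
      exact hone u
    · refine (Finset.abs_sum_le_sum_abs _ _).trans ?_
      have hV : (1 : ℝ) ≤ (Z : ℝ) ^ ((K : ℝ) / 4) :=
        Real.one_le_rpow (by exact_mod_cast (by omega : 1 ≤ Z)) (by positivity)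
      have hr := hrk Z hZ2 _ hV
      have hZpos : (0 : ℝ) < Z := by exact_mod_cast (by omega : 0 < Z)
      rw [Real.log_rpow hZpos, mul_div_assoc, div_self (by linarith), mul_one] at hr
      have hsub : (QQ (PP Z)).divisors.filter (fun m => ¬ m ^ 4 ≤ X) ⊆
          (QQ (PP Z)).divisors.filter (fun m : ℕ => (Z : ℝ) ^ ((K : ℝ) / 4) < (m : ℝ)) := by
        intro m hm
        obtain ⟨h1, h2⟩ := Finset.mem_filter.1 hm
        refine Finset.mem_filter.2 ⟨h1, lt_of_pow_lt_pow_left₀ 4 (by positivity) ?_⟩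
        rw [← Real.rpow_natCast, ← Real.rpow_mul hZpos.le]
        rw [show (K : ℝ) / 4 * ((4 : ℕ) : ℝ) = K by push_cast; ring, Real.rpow_natCast]
        exact_mod_cast (by omega : Z ^ K < m ^ 4)
      have hA : ∑ m ∈ (QQ (PP Z)).divisors with ¬ m ^ 4 ≤ X, 1 / (m : ℝ) ≤
          Cr / c₀ * Mass Z * Real.exp (-((K : ℝ) / 4)) := by
        refine (Finset.sum_le_sum_of_subset_of_nonneg hsub fun m _ _ => by positivity).trans
          (hr.trans (mul_le_mul_of_nonneg_right ?_ (Real.exp_pos _).le))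
        rw [div_mul_eq_mul_div, le_div_iff₀ hc₀]
        nlinarith [mul_le_mul_of_nonneg_left (hlm Z) hCr.le]
      have hB' : ∑ m ∈ (QQ (PP Z)).divisors with ¬ m ^ 4 ≤ X, (m : ℝ) * c m 1 ^ 2 ≤
          Cs * Mass Z :=
        (Finset.sum_le_sum_of_subset_of_nonneg (Finset.filter_subset _ _)
          fun m _ _ => by positivity).trans (hsq u)
      refine (sk_cs _ (fun m hm => Nat.pos_of_mem_divisors (Finset.mem_filter.1 hm).1)
        (fun m => c m 1) hA hB').trans (le_of_eq ?_)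
      have he : Real.exp (-((K : ℝ) / 4)) = Real.exp (-(K : ℝ) / 8) ^ 2 := by
        rw [← Real.exp_nat_mul]; congr 1; push_cast; ring
      rw [he, show Cr / c₀ * Mass Z * Real.exp (-(K : ℝ) / 8) ^ 2 * (Cs * Mass Z) =
        Cr / c₀ * Cs * (Real.exp (-(K : ℝ) / 8) * Mass Z) ^ 2 by ring,
        Real.sqrt_mul (by positivity), Real.sqrt_sq (by positivity), mul_assoc]
    · rw [Finset.mul_sum, ← Finset.sum_sub_distrib]
      refine (Finset.abs_sum_le_sum_abs _ _).trans ?_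
      have : ∀ m ∈ (QQ (PP Z)).divisors.filter (fun m => m ^ 4 ≤ X),
          |c m 1 * WW X C m 1 - Real.log C / 8 * c m 1| ≤ C₁ * |c m 1| := by
        intro m hm
        obtain ⟨h1, h2⟩ := Finset.mem_filter.1 hm
        have hm0 := Nat.pos_of_mem_divisors h1
        rw [show c m 1 * WW X C m 1 - Real.log C / 8 * c m 1 =
          (WW X C m 1 - Real.log C / 8) * c m 1 by ring, abs_mul]
        exact mul_le_mul_of_nonneg_right (hW1 X C m hC hm0
          (Nat.Coprime.coprime_dvd_left (Nat.dvd_of_mem_divisors h1) hcop) (hCm m hm0 h2))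
          (abs_nonneg _)
      refine (Finset.sum_le_sum this).trans ?_
      rw [← Finset.mul_sum, mul_assoc]
      refine mul_le_mul_of_nonneg_left (le_trans ?_ hall) hC₁.le
      exact Finset.sum_le_sum_of_subset_of_nonneg (Finset.filter_subset _ _)
        fun m _ _ => abs_nonneg _
    · refine (Finset.abs_sum_le_sum_abs _ _).trans ?_
      have : ∀ m ∈ (QQ (PP Z)).divisors.filter (fun m => m ^ 4 ≤ X),
          |∑ d ∈ m.divisors.filter (fun d : ℕ => 1 < d ∧ (d : ℝ) ≤ Real.log Z ^ (4 * B)),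
            c m d * WW X C m d| ≤ (Real.log C + C₂) *
          ∑ d ∈ m.divisors.filter (fun d : ℕ => 1 < d ∧ (d : ℝ) ≤ Real.log Z ^ (4 * B)),
            |c m d| := by
        intro m hm
        obtain ⟨h1, h2⟩ := Finset.mem_filter.1 hm
        have hm0 := Nat.pos_of_mem_divisors h1
        refine (Finset.abs_sum_le_sum_abs _ _).trans ?_
        rw [Finset.mul_sum]
        refine Finset.sum_le_sum fun d _ => ?_
        rw [abs_mul, mul_comm]
        exact mul_le_mul_of_nonneg_right (hW2 X C m d hC hm0 (hCm m hm0 h2)) (abs_nonneg _)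
      refine (Finset.sum_le_sum this).trans ?_
      rw [← Finset.mul_sum]
      have h3 := (Finset.sum_le_sum_of_subset_of_nonneg
        (Finset.filter_subset (fun m => m ^ 4 ≤ X) _)
        fun m _ _ => Finset.sum_nonneg fun d _ => abs_nonneg (c m d)).trans (hsmall u)
      refine (mul_le_mul_of_nonneg_left h3 (by positivity)).trans (le_of_eq ?_)
      field_simp
    · refine (hpd _ hY _ ?_ c (abs_cc_le k (oddPrimes_PP Z) u)).trans ?_
      · intro m hm
        obtain ⟨h1, h2⟩ := Finset.mem_filter.1 hm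
        have hd := Nat.dvd_of_mem_divisors h1
        exact ⟨hsf.squarefree_of_dvd hd, Nat.Coprime.coprime_dvd_left hd hcop, h2⟩
      · rw [show Real.log Z ^ (4 * B) = ((Real.log Z ^ 2) ^ B) ^ 2 by ring,
          Real.sqrt_sq (by positivity), div_le_one (by positivity)]
        exact pow_le_pow_left₀ (Real.log_natCast_nonneg _) hlogX B
  rw [sk_ident k hZ4 hXC, mu]
  have e : ∀ (T mn : II k → ℝ) (z L Ma : ℝ), z * ∑ u, T u - L / 8 * (z * ∑ u, mn u) * Ma =
      z * ∑ u, (T u - L / 8 * mn u * Ma) := by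
    intro T mn z L Ma
    rw [Finset.sum_sub_distrib, ← Finset.sum_mul, ← Finset.mul_sum]
    ring
  rw [e, abs_mul, abs_of_nonneg (by positivity)]
  refine (mul_le_of_le_one_left (abs_nonneg _) ?_).trans ?_
  · rw [div_le_one (by positivity)]
    exact one_le_pow₀ (by norm_num)
  refine (Finset.abs_sum_le_sum_abs _ _).trans ((Finset.sum_le_sum fun u _ => hu u).trans ?_)
  rw [Finset.sum_const, Finset.card_univ, nsmul_eq_mul]
  exact le_of_eq (by ring)

/-- the large primes exceed the cut-off -/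
theorem ZZ_lt_of_mem_RR {K X C m p : ℕ} (hK : 4 ≤ K) (hX : C ^ 2 ≤ X) (hm : m ^ 4 ≤ X)
    (hp : p ∈ RR X C m) : ZZ K X < p := by
  have h1 : X < C * m * p := (mem_filter.1 hp).2.2.1
  by_contra h
  have h2 : p ≤ ZZ K X := not_lt.1 h
  have hp0 : 0 < p := (mem_filter.1 hp).2.1.pos
  have h3 : p ^ 4 ≤ X :=
    calc p ^ 4 ≤ ZZ K X ^ 4 := Nat.pow_le_pow_left h2 4
      _ ≤ ZZ K X ^ K := Nat.pow_le_pow_right (by omega) hK
      _ ≤ X := ZZ_pow_le (by omega) X
  have h4 : X ^ 4 < (C * m * p) ^ 4 := Nat.pow_lt_pow_left h1 (by norm_num)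
  have h5 : (C * m * p) ^ 4 ≤ X ^ 4 :=
    calc (C * m * p) ^ 4 = (C ^ 2) ^ 2 * (m ^ 4 * p ^ 4) := by ring
      _ ≤ X ^ 2 * (X * X) := Nat.mul_le_mul (Nat.pow_le_pow_left hX 2) (Nat.mul_le_mul hm h3)
      _ = X ^ 4 := by ring
  omega

theorem not_mem_PP_of_mem_RR {K X C m p : ℕ} (hK : 4 ≤ K) (hX : C ^ 2 ≤ X) (hm : m ^ 4 ≤ X)
    (hp : p ∈ RR X C m) : p ∉ PP (ZZ K X) := by
  intro h
  have h1 := (mem_Icc.1 (mem_filter.1 h).1).2
  have h2 := ZZ_lt_of_mem_RR hK hX hm hp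
  omega

theorem SS_add (g h : ℕ → ℝ) (X C Z : ℕ) :
    SS (fun n => g n + h n) X C Z = SS g X C Z + SS h X C Z := by
  unfold SS
  rw [← sum_add_distrib]
  refine sum_congr rfl fun m _ => ?_
  rw [← sum_add_distrib]
  refine sum_congr rfl fun p _ => ?_
  ring

theorem SS_mul (a : ℝ) (g : ℕ → ℝ) (X C Z : ℕ) :
    SS (fun n => a * g n) X C Z = a * SS g X C Z := by
  unfold SS
  rw [mul_sum]
  refine sum_congr rfl fun m _ => ?_
  rw [mul_sum]
  refine sum_congr rfl fun p _ => ?_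
  ring

theorem SS_mono {g h : ℕ → ℝ} {X C Z : ℕ}
    (H : ∀ m, m ∣ QQ (PP Z) → m ^ 4 ≤ X → ∀ p ∈ RR X C m, g (m * p) ≤ h (m * p)) :
    SS g X C Z ≤ SS h X C Z := by
  unfold SS
  refine sum_le_sum fun m hm => sum_le_sum fun p hp => ?_
  have h1 := mem_filter.1 hm
  have h2 : 0 ≤ Real.log p / p := div_nonneg (Real.log_natCast_nonneg p) (Nat.cast_nonneg p)
  exact mul_le_mul_of_nonneg_left
    (div_le_div_of_nonneg_right (H m (Nat.dvd_of_mem_divisors h1.1) h1.2 p hp)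
      (Nat.cast_nonneg m)) h2

theorem fin_lower {K X C : ℕ} (hK : 4 ≤ K) (hX : C ^ 2 ≤ X) {l : ℝ} (hl : 0 < l) :
    1 / 4 * SS (fun n => (NN n : ℝ) ^ 2) X C (ZZ K X) +
      (-(2 + l / 2)) * SS (fun n => (NN n : ℝ) ^ 1) X C (ZZ K X) +
      (4 + 2 * l) * SS (fun n => (NN n : ℝ) ^ 0) X C (ZZ K X) +
      (-(1 / (32 * l))) * SS (fun n => (NN n : ℝ) ^ 3) X C (ZZ K X) ≤
      (1 + l) * SS (fun n => if NN n = 2 then 1 else 0) X C (ZZ K X) := by
  rw [← SS_mul, ← SS_mul, ← SS_mul, ← SS_mul, ← SS_mul, ← SS_add, ← SS_add, ← SS_add]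
  refine SS_mono fun m hm hm4 p hp => ?_
  have hpp : p.Prime := (mem_filter.1 hp).2.1
  have hsq := fin_squarefree hm hpp (not_mem_PP_of_mem_RR hK hX hm4 hp)
  have hm0 : 0 < m := Nat.pos_of_dvd_of_pos hm
    (Nat.pos_of_ne_zero (QQ_squarefree (oddPrimes_PP _)).ne_zero)
  have h1 : 1 < m * p := lt_of_lt_of_le hpp.one_lt (Nat.le_mul_of_pos_left p hm0)
  exact fin_pointwise (two_le_NN h1) (even_NN h1 hsq) hl

theorem fin_upper {K X C : ℕ} (hK : 4 ≤ K) (hX : C ^ 2 ≤ X) (hX0 : 0 < X) :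
    SS (fun n => if NN n = 2 then 1 else 0) X C (ZZ K X) ≤
      C * Real.log X / X *
        ((Icc 1 X).filter fun n => Squarefree n ∧ Bcl n ∧ NN n = 2).card := by
  have hXr : (0 : ℝ) < X := by exact_mod_cast hX0
  have hw : 0 ≤ C * Real.log X / X :=
    div_nonneg (mul_nonneg (Nat.cast_nonneg C) (Real.log_natCast_nonneg X)) hXr.le
  set M := (QQ (PP (ZZ K X))).divisors.filter (fun m => m ^ 4 ≤ X) with hM
  set S := (M.sigma fun m => RR X C m).filter (fun x => NN (x.1 * x.2) = 2) with hS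
  have h1 : SS (fun n => if NN n = 2 then 1 else 0) X C (ZZ K X) ≤
      ∑ m ∈ M, ∑ p ∈ RR X C m, C * Real.log X / X * (if NN (m * p) = 2 then 1 else 0) := by
    unfold SS
    refine sum_le_sum fun m hm => sum_le_sum fun p hp => ?_
    obtain ⟨hpX, hpp, h3, h4, -⟩ := mem_filter.1 hp
    have hm0 : 0 < m := Nat.pos_of_mem_divisors (mem_filter.1 hm).1
    have hmr : (0 : ℝ) < m := by exact_mod_cast hm0
    have hpr : (0 : ℝ) < p := by exact_mod_cast hpp.pos
    by_cases h : NN (m * p) = 2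
    · simp only [h, if_true, mul_one]
      have h5 : Real.log p ≤ Real.log X := Real.log_le_log hpr (by
        have := mem_range.1 hpX
        exact_mod_cast Nat.lt_succ_iff.1 this)
      have h6 : (X : ℝ) ≤ C * m * p := by exact_mod_cast h3.le
      have h7 : 0 ≤ Real.log p := Real.log_natCast_nonneg p
      have h8 : Real.log p / p * (1 / m) = Real.log p / (m * p) := by field_simp
      rw [h8, div_le_div_iff₀ (by positivity) hXr]
      calc Real.log p * X ≤ Real.log X * (C * m * p) :=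
            mul_le_mul h5 h6 hXr.le (h7.trans h5)
        _ = C * Real.log X * (m * p) := by ring
    · simp [h]
  have h2 : ∑ m ∈ M, ∑ p ∈ RR X C m, C * Real.log X / X * (if NN (m * p) = 2 then 1 else 0) =
      C * Real.log X / X * (S.card : ℝ) := by
    rw [sum_sigma', ← mul_sum, hS, card_filter]
    push_cast
    rfl
  have h3 : S.card ≤ ((Icc 1 X).filter fun n => Squarefree n ∧ Bcl n ∧ NN n = 2).card := by
    refine card_le_card_of_injOn (fun x => x.1 * x.2) ?_ ?_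
    · intro x hx
      obtain ⟨hx1, hx2⟩ := mem_filter.1 (mem_coe.1 hx)
      obtain ⟨hm, hp⟩ := mem_sigma.1 hx1
      obtain ⟨hm1, hm4⟩ := mem_filter.1 hm
      obtain ⟨-, hpp, -, h4, h5⟩ := mem_filter.1 hp
      have hsq := fin_squarefree (Nat.dvd_of_mem_divisors hm1) hpp
        (not_mem_PP_of_mem_RR hK hX hm4 hp)
      exact mem_coe.2 (mem_filter.2 ⟨mem_Icc.2 ⟨Nat.pos_of_ne_zero hsq.ne_zero, h4⟩, hsq, h5, hx2⟩)
    · rintro ⟨m, p⟩ hx ⟨m', p'⟩ hy hxy
      obtain ⟨hm, hp⟩ := mem_sigma.1 (mem_filter.1 (mem_coe.1 hx)).1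
      obtain ⟨hm', hp'⟩ := mem_sigma.1 (mem_filter.1 (mem_coe.1 hy)).1
      obtain ⟨hm1, hm4⟩ := mem_filter.1 hm
      obtain ⟨hm1', hm4'⟩ := mem_filter.1 hm'
      have hpp : p.Prime := (mem_filter.1 hp).2.1
      have hpp' : p'.Prime := (mem_filter.1 hp').2.1
      have he : m * p = m' * p' := hxy
      have h6 : p ∣ m' * p' := he ▸ Dvd.intro_left m rfl
      have h7 : p = p' := by
        rcases (Nat.Prime.dvd_mul hpp).1 h6 with h | h
        · exact absurd h (fin_not_dvd (Nat.dvd_of_mem_divisors hm1') hpp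
            (not_mem_PP_of_mem_RR hK hX hm4 hp))
        · exact (Nat.prime_dvd_prime_iff_eq hpp hpp').1 h
      subst h7
      have h8 : m = m' := Nat.eq_of_mul_eq_mul_right hpp.pos he
      subst h8
      rfl
  refine h1.trans (h2.le.trans (mul_le_mul_of_nonneg_left ?_ hw))
  exact_mod_cast h3

theorem fin_main : ∃ K C : ℕ, ∃ l : ℝ, 4 ≤ K ∧ 1 ≤ C ∧ 0 < l ∧ ∀ᶠ X : ℕ in atTop,
    Mass (ZZ K X) ≤ (1 + l) * SS (fun n => if NN n = 2 then 1 else 0) X C (ZZ K X) := by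
  obtain ⟨C0, hC0, H0⟩ := sk 0
  obtain ⟨C1, hC1, H1⟩ := sk 1
  obtain ⟨C2, hC2, H2⟩ := sk 2
  obtain ⟨C3, hC3, H3⟩ := sk 3
  set l : ℝ := 1 + |mu 3| / 16 with hl
  have hl0 : 0 < l := by positivity
  have hi : 0 < 1 / (32 * l) := by positivity
  have hmu : 1 / (32 * l) * mu 3 ≤ 1 / 2 := by
    have h1 : mu 3 ≤ 16 * l := by
      have := le_abs_self (mu 3)
      rw [hl]; linarith
    calc 1 / (32 * l) * mu 3 ≤ 1 / (32 * l) * (16 * l) := mul_le_mul_of_nonneg_left h1 hi.le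
      _ = 1 / 2 := by field_simp; norm_num
  set A : ℝ := 1 / 4 * C2 + (2 + l / 2) * C1 + (4 + 2 * l) * C0 + 1 / (32 * l) * C3 with hA
  have hA0 : 0 < A := by positivity
  obtain ⟨K, hK, hKA⟩ := fin_exists_K A
  obtain ⟨C, hC, hCA⟩ := fin_exists_C (32 * (A + 1))
  refine ⟨K, C, l, hK, hC, hl0, ?_⟩
  filter_upwards [H0 C K hC hK, H1 C K hC hK, H2 C K hC hK, H3 C K hC hK,
    eventually_ge_atTop (C ^ 2)] with X h0 h1 h2 h3 hX
  refine le_trans ?_ (fin_lower hK hX hl0)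
  rw [mu_zero] at h0
  rw [mu_one] at h1
  rw [mu_two] at h2
  have hM : 1 ≤ Mass (ZZ K X) := one_le_mass _
  generalize Mass (ZZ K X) = M at *
  generalize SS (fun n => (NN n : ℝ) ^ 0) X C (ZZ K X) = s0 at *
  generalize SS (fun n => (NN n : ℝ) ^ 1) X C (ZZ K X) = s1 at *
  generalize SS (fun n => (NN n : ℝ) ^ 2) X C (ZZ K X) = s2 at *
  generalize SS (fun n => (NN n : ℝ) ^ 3) X C (ZZ K X) = s3 at *
  generalize Real.log C = L at *
  generalize Real.exp (-(K : ℝ) / 8) = e at *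
  have hL : 0 ≤ L := by linarith
  have hM0 : 0 ≤ M := by linarith
  have g0 := mul_le_mul_of_nonneg_left (abs_le.1 h0).1 (show 0 ≤ 4 + 2 * l by positivity)
  have g1 := mul_le_mul_of_nonneg_left (abs_le.1 h1).2 (show 0 ≤ 2 + l / 2 by positivity)
  have g2 := (abs_le.1 h2).1
  have g3 := mul_le_mul_of_nonneg_left (abs_le.1 h3).2 hi.le
  have g4 : L / 8 * (1 / (32 * l) * mu 3) * M ≤ L / 8 * (1 / 2) * M :=
    mul_le_mul_of_nonneg_right (mul_le_mul_of_nonneg_left hmu (by positivity)) hM0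
  have g5 : L * (A * e) * M ≤ L * (1 / 32) * M :=
    mul_le_mul_of_nonneg_right (mul_le_mul_of_nonneg_left hKA hL) hM0
  have g6 : 32 * (A + 1) * M ≤ L * M := mul_le_mul_of_nonneg_right hCA hM0
  have g7 : A * (1 + L * e) * M = 1 / 4 * (C2 * (1 + L * e) * M) +
      (2 + l / 2) * (C1 * (1 + L * e) * M) + (4 + 2 * l) * (C0 * (1 + L * e) * M) +
      1 / (32 * l) * (C3 * (1 + L * e) * M) := by rw [hA]; ring
  generalize 1 / (32 * l) = i at *
  nlinarith

theorem dens : ∃ c : ℝ, 0 < c ∧ ∀ᶠ X : ℕ in atTop,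
    c * X ≤ ((Icc 1 X).filter fun n => Squarefree n ∧ Bcl n ∧ NN n = 2).card := by
  obtain ⟨K, C, l, hK, hC, hl, H⟩ := fin_main
  obtain ⟨c, hc, Hc⟩ := le_mass
  have hK0 : 0 < K := by omega
  have hKr : (0 : ℝ) < K := by exact_mod_cast hK0
  have hCr : (0 : ℝ) < C := by exact_mod_cast hC
  refine ⟨c / (2 * K * C * (1 + l)), by positivity, ?_⟩
  filter_upwards [H, eventually_ge_atTop (C ^ 2), eventually_ge_atTop 2,
    (tendsto_ZZ hK0).eventually_ge_atTop 2] with X h1 hX hX2 hZ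
  have hXr : (0 : ℝ) < X := by exact_mod_cast (by omega : 0 < X)
  have hlog : 0 < Real.log X := Real.log_pos (by exact_mod_cast (by omega : 1 < X))
  have h2 := fin_upper hK hX (by omega : 0 < X)
  have h3 := log_le_ZZ hK0 hZ
  have h4 := Hc (ZZ K X)
  generalize (((Icc 1 X).filter fun n => Squarefree n ∧ Bcl n ∧ NN n = 2).card : ℝ) = N at *
  have h5 : c * Real.log X ≤ 2 * K * ((1 + l) * (C * Real.log X / X * N)) :=
    calc c * Real.log X ≤ c * (2 * K * Real.log (ZZ K X)) := mul_le_mul_of_nonneg_left h3 hc.le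
      _ = 2 * K * (c * Real.log (ZZ K X)) := by ring
      _ ≤ 2 * K * ((1 + l) * (C * Real.log X / X * N)) :=
          mul_le_mul_of_nonneg_left
            (h4.trans (h1.trans (mul_le_mul_of_nonneg_left h2 (by positivity)))) (by positivity)
  have h6 : 2 * K * ((1 + l) * (C * Real.log X / X * N)) =
      (2 * K * C * (1 + l) * N / X) * Real.log X := by ring
  rw [h6] at h5
  have h7 := le_of_mul_le_mul_right h5 hlog
  rw [le_div_iff₀ hXr] at h7
  rw [div_mul_eq_mul_div, div_le_iff₀ (by positivity)]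
  linarith

end Pool.Agent.P.MP_8b7eba_nt.Dens.One
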