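import Pool.Agent.P.MP_8b7eba_nt.R1.Geo
import Pool.Agent.P.MP_8b7eba_nt.BSD15.Euler

/-! Closed geodesics are dual to a linear form; bounded sums at the cusps. -/

namespace Pool.Agent.P.MP_8b7eba_nt.R1

open Complex Filter Topology MeasureTheory Metric Finset Asymptotics PowerSeries
open scoped Real UpperHalfPlane MatrixGroups ComplexConjugate
open _root_.Pool.Agent.P.MP_8b7eba_nt.Mod (M2 G0 FI L0 om lv xx yy qq UH atI ex mT)
open BSD15 (OO Good cls gch gJ nm cj rho lam Adm B3 B5 No4 Xp XJ Rn)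
open MP_9c97e9_nt (Pt pm Is)

/-- a real modular symbol which computes `jj` gives the dual linear form -/
theorem dual_of_ms {w : QF → ℤ} {ψ : BSD15.V → ℝ} (hψ : BSD15.IsMS fun x => (ψ x : ℂ))
    (hj : ∀ g, G0 g → jj w g = ψ (g.a + 3 * g.b, g.c + 3 * g.d) - ψ (1, 3)) {α β : ℚ}
    (hα : ψ (1, 2) - ψ (0, 1) = -α) (hβ : ψ (0, 1) - ψ (-1, 4) = β) : Dual w α β := by
  intro g hg
  have hd : g.a * g.d - g.b * g.c = 1 := hg.1
  have hp : BSD15.Prim (g.b, g.d) := ⟨-g.c, g.a, by linear_combination hd⟩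
  have h15 : IsCoprime g.d 15 := by
    obtain ⟨c, hc⟩ := hg.2
    exact ⟨g.a, -(g.b * c), by rw [hc] at hd; linear_combination hd⟩
  obtain ⟨u, v, huv⟩ := BSD15.ms_decomp (g.b, g.d) hp h15
  have e1 := huv _ hψ
  have e2 := huv _ BSD15.euler_isMS
  rw [BSD15.euler_msA, BSD15.euler_msB] at e2
  have e3 := Mod.lv_G0 hg (a := 0) (c := 1) (by simp)
  simp only [mul_zero, zero_add, mul_one] at e3
  have e4 : lv g.a g.c = ((-4 * u * L0 : ℝ) : ℂ) + ((2 * v * om : ℝ) : ℂ) * I := by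
    push_cast
    linear_combination e2 - e3
  have e5 := hψ.inv ⟨g.a, g.b, g.c, g.d, hd, hg.2⟩ (1, 3) (0, 1) isCoprime_one_left
    isCoprime_one_right
  simp only [BSD15.Gam.act, mul_zero, zero_add, mul_one, mul_comm _ (3 : ℤ)] at e5
  simp only [BSD15.msA, BSD15.msB] at e1
  have e6 : ψ (g.b, g.d) = ψ (0, 1) + u * (ψ (1, 2) - ψ (0, 1)) + v * (ψ (0, 1) - ψ (-1, 4)) := by
    exact_mod_cast e1
  have e7 : ψ (g.a + 3 * g.b, g.c + 3 * g.d) - ψ (g.b, g.d) = ψ (1, 3) - ψ (0, 1) := by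
    exact_mod_cast e5
  have hL := Mod.L0_ne
  have ho := Mod.om_ne
  rw [hα, hβ] at e6
  rw [hj g hg, lf, e4]
  simp only [add_re, add_im, mul_re, mul_im, ofReal_re, ofReal_im, I_re, I_im, mul_zero, mul_one,
    sub_zero, add_zero, zero_add]
  field_simp
  linear_combination e6 + e7

theorem dualA_ev_ne {Q : QF} (hD : ¬ IsSquare Q.disc) {x y : ℤ} (h : x ≠ 0 ∨ y ≠ 0) :
    Q.ev x y ≠ 0 := by
  intro h0
  have e := Q.four_mul_ev x y
  rw [h0, mul_zero] at e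
  by_cases hy : y = 0
  · have hx := h.resolve_right (not_not.2 hy)
    have hA : Q.A = 0 := by
      simp only [QF.ev, hy, mul_zero, ne_eq, OfNat.ofNat_ne_zero, not_false_eq_true, zero_pow,
        add_zero, mul_eq_zero, pow_eq_zero_iff, hx, or_false] at h0
      exact h0
    exact hD ⟨Q.B, by simp only [QF.disc, hA]; ring⟩
  · have hd : y ^ 2 ∣ (2 * Q.A * x + Q.B * y) ^ 2 := ⟨Q.disc, by linear_combination -e⟩
    obtain ⟨t, ht⟩ := (Int.pow_dvd_pow_iff two_ne_zero).1 hd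
    rw [ht] at e
    refine hD ⟨t, mul_left_cancel₀ (pow_ne_zero 2 hy) ?_⟩
    linear_combination e

/-- the signed number of geodesics between two cusps -/
noncomputable def dualA_dl (w : QF → ℤ) (x y : BSD15.V) : ℝ :=
  ∑ᶠ Q : QF, w Q * ((sn (Q.ev x.1 x.2) - sn (Q.ev y.1 y.2)) / 2)

theorem dualA_fin {D : ℤ} {w : QF → ℤ} (hw : Wt D w) (hD : ¬ IsSquare D) {x y : BSD15.V}
    (hx : x.1 ≠ 0 ∨ x.2 ≠ 0) (hy : y.1 ≠ 0 ∨ y.2 ≠ 0) :
    Function.HasFiniteSupport fun Q : QF =>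
      (w Q : ℝ) * ((sn (Q.ev x.1 x.2) - sn (Q.ev y.1 y.2)) / 2) := by
  refine (finite_cusps hw.pos x.1 x.2 y.1 y.2).subset fun Q hQ => ?_
  have h1 : w Q ≠ 0 := fun h => hQ (by simp [h])
  have h2 := hw.disc Q h1
  refine ⟨h2, dualA_ev_ne (h2 ▸ hD) hx, dualA_ev_ne (h2 ▸ hD) hy, fun h => hQ ?_⟩
  simp [h]

theorem dualA_sub {D : ℤ} {w : QF → ℤ} (hw : Wt D w) (hD : ¬ IsSquare D) {x y z : BSD15.V}
    (hx : x.1 ≠ 0 ∨ x.2 ≠ 0) (hy : y.1 ≠ 0 ∨ y.2 ≠ 0) (hz : z.1 ≠ 0 ∨ z.2 ≠ 0) :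
    dualA_dl w x z - dualA_dl w y z = dualA_dl w x y := by
  unfold dualA_dl
  rw [← finsum_sub_distrib (dualA_fin hw hD hx hz) (dualA_fin hw hD hy hz)]
  exact finsum_congr fun Q => by ring

theorem dualA_inv {D : ℤ} {w : QF → ℤ} (hw : Wt D w) (g : BSD15.Gam) (x y : BSD15.V) :
    dualA_dl w (g.act x) (g.act y) = dualA_dl w x y := by
  have hg : G0 ⟨g.a, g.b, g.c, g.d⟩ := ⟨g.det_eq, g.dvd_c⟩
  unfold dualA_dl
  rw [← finsum_comp_equiv (QF.cmpE hg.1) (f := fun Q : QF =>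
    (w Q : ℝ) * ((sn (Q.ev x.1 x.2) - sn (Q.ev y.1 y.2)) / 2))]
  refine finsum_congr fun Q => ?_
  rw [QF.cmpE_apply, hw.inv Q _ hg, QF.ev_cmp, QF.ev_cmp]
  rfl

theorem dualA_act_ne (g : BSD15.Gam) {x : BSD15.V} (hx : x.1 ≠ 0 ∨ x.2 ≠ 0) :
    (g.act x).1 ≠ 0 ∨ (g.act x).2 ≠ 0 := by
  by_contra h
  push Not at h
  obtain ⟨h1, h2⟩ := h
  simp only [BSD15.Gam.act] at h1 h2
  have hd := g.det_eq
  rcases hx with hx | hx
  · exact hx (by linear_combination g.d * h1 - g.b * h2 - x.1 * hd)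
  · exact hx (by linear_combination g.a * h2 - g.c * h1 - x.2 * hd)

theorem dualA_rq {D : ℤ} {w : QF → ℤ} (hw : Wt D w) (hD : ¬ IsSquare D) {x y : BSD15.V}
    (hx : x.1 ≠ 0 ∨ x.2 ≠ 0) (hy : y.1 ≠ 0 ∨ y.2 ≠ 0) : Rq (dualA_dl w x y) := by
  unfold dualA_dl
  rw [finsum_eq_sum _ (dualA_fin hw hD hx hy)]
  refine Rq.sum fun Q _ => (rq_int _).mul (((rq_sn _).sub (rq_sn _)).div ⟨2, by simp⟩)

theorem exists_dual {D : ℤ} {w : QF → ℤ} (hw : Wt D w) (hD : ¬ IsSquare D) :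
    ∃ α β : ℚ, Dual w α β := by
  have h13 : ((1, 3) : BSD15.V).1 ≠ 0 ∨ ((1, 3) : BSD15.V).2 ≠ 0 := by simp
  have hψ : BSD15.IsMS fun x => (dualA_dl w x (1, 3) : ℂ) := by
    refine ⟨fun x _ => ?_, fun g x y hx hy => ?_⟩
    · have : ∀ Q : QF, Q.ev (-x).1 (-x).2 = Q.ev x.1 x.2 := fun Q => by simp [QF.ev]
      simp only [dualA_dl, this]
    · have hx' := hx.ne_zero_or_ne_zero
      have hy' := hy.ne_zero_or_ne_zero
      rw [← ofReal_sub, ← ofReal_sub, dualA_sub hw hD (dualA_act_ne g hx') (dualA_act_ne g hy') h13,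
        dualA_sub hw hD hx' hy' h13, dualA_inv hw]
  obtain ⟨p, hp⟩ := (dualA_rq hw hD (x := (1, 2)) (by simp) h13).sub
    (dualA_rq hw hD (x := (0, 1)) (by simp) h13)
  obtain ⟨q, hq⟩ := (dualA_rq hw hD (x := (0, 1)) (by simp) h13).sub
    (dualA_rq hw hD (x := (-1, 4)) (by simp) h13)
  refine ⟨-p, q, dual_of_ms hψ (fun g _ => ?_) (by rw [hp]; simp) hq⟩
  have : dualA_dl w (1, 3) (1, 3) = 0 := by simp [dualA_dl]
  rw [this, sub_zero]
  rfl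

theorem vb_nonsq {D : ℤ} (hD : ¬ IsSquare D) (w : QF → ℤ) : VB D w :=
  ⟨0, fun _ _ k _ hk => absurd ⟨k, by rw [← hk, sq]⟩ hD⟩

theorem dualA_range {f : ℤ → ℤ} {K : ℤ} {N : ℕ} (hN : 0 < N) (hf : ∀ x, |f x| ≤ K)
    (h0 : ∀ a : ℤ, ∑ i ∈ range N, f (a + i) = 0) (n : ℕ) :
    ∀ a : ℤ, |∑ i ∈ range n, f (a + i)| ≤ N * K := by
  have hK : 0 ≤ K := (abs_nonneg _).trans (hf 0)
  induction n using Nat.strong_induction_on with
  | _ n ih =>
    intro a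
    rcases le_or_gt n N with h | h
    · refine (abs_sum_le_sum_abs _ _).trans ((sum_le_card_nsmul _ _ K fun i _ => hf _).trans ?_)
      rw [card_range, nsmul_eq_mul]
      exact mul_le_mul_of_nonneg_right (by exact_mod_cast h) hK
    · obtain ⟨m, rfl⟩ := Nat.exists_eq_add_of_le h.le
      rw [sum_range_add, h0, zero_add]
      have := ih m (by omega) (a + N)
      simpa only [Nat.cast_add, add_assoc] using this

theorem dualA_block (f : ℤ → ℤ) (a : ℤ) (m : ℕ) :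
    ∑ i ∈ range (15 * m), f (a + i) = ∑ i ∈ range 15, ∑ j ∈ range m, f (a + i + 15 * j) := by
  induction m with
  | zero => simp
  | succ m ih =>
    rw [Nat.mul_succ, sum_range_add, ih, ← sum_add_distrib]
    refine sum_congr rfl fun i _ => ?_
    rw [sum_range_succ]
    congr 2
    push_cast
    ring

theorem dualA_bound {u v : ℤ → ℤ} {m : ℕ} (hm : 0 < m) (hu : ∀ x, |u x| ≤ 2) (hv : ∀ x, |v x| ≤ 1)
    (hp : ∀ x j, u (x + 15 * j) = u x) (h0 : ∀ c : ℤ, ∑ j ∈ range m, v (c + 15 * j) = 0)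
    (a b : ℤ) : |∑ C ∈ Finset.Ico a b, u C * v C| ≤ (15 * m : ℕ) * 2 := by
  rw [Int.Ico_eq_finset_map, sum_map]
  refine dualA_range (f := fun C => u C * v C) (by omega) (fun x => ?_) (fun c => ?_) _ a
  · rw [abs_mul]
    have := mul_le_mul (hu x) (hv x) (abs_nonneg _) (by norm_num)
    rwa [mul_one] at this
  · rw [dualA_block (fun C => u C * v C)]
    refine sum_eq_zero fun i _ => ?_
    simp only [hp]
    rw [← mul_sum, h0, mul_zero]

theorem dualA_lv (D ρ k C j : ℤ) (g : M2) :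
    Lv D ρ (QF.cmp ⟨0, k, C + 15 * j⟩ g) ↔ Lv D ρ (QF.cmp ⟨0, k, C⟩ g) := by
  have e1 : (QF.cmp ⟨0, k, C + 15 * j⟩ g).disc = (QF.cmp ⟨0, k, C⟩ g).disc := by
    rw [QF.disc_cmp, QF.disc_cmp]; simp [QF.disc]
  have e2 : (QF.cmp ⟨0, k, C + 15 * j⟩ g).A = (QF.cmp ⟨0, k, C⟩ g).A + 15 * (j * g.c ^ 2) := by
    simp only [QF.cmp, QF.ev]; ring
  have e3 : (QF.cmp ⟨0, k, C + 15 * j⟩ g).B = (QF.cmp ⟨0, k, C⟩ g).B + 30 * (j * g.c * g.d) := by
    simp only [QF.cmp, QF.ev]; ring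
  unfold Lv
  rw [e1, e2, e3]
  refine and_congr Iff.rfl (and_congr ?_ ?_) <;> omega

theorem dualA_lv' (D ρ k C j : ℤ) (g : M2) :
    Lv D ρ (QF.cmp ⟨0, k, -(C + 15 * j)⟩ g) ↔ Lv D ρ (QF.cmp ⟨0, k, -C⟩ g) := by
  rw [← dualA_lv D ρ k (-C) (-j) g, show -C + 15 * -j = -(C + 15 * j) by ring]

theorem dualA_jac {b : ℕ} (hb : Adm b) (h1 : 1 < b) (c : ℤ) :
    ∑ j ∈ range b, jacobiSym (c + 15 * j) b = 0 := by
  have hodd : Odd b := (Nat.coprime_two_right).1 (hb.2.coprime_dvd_right (by norm_num))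
  have h15 : Nat.Coprime 15 b := (hb.2.coprime_dvd_right (by norm_num)).symm
  have e := BSD15.jac_perm h15 (fun a : ℕ => jacobiSym (c + a) b) fun a a' h =>
    jacobiSym.mod_left' (Int.ModEq.add_left c (Int.natCast_modEq_iff.2 h))
  simp only [Nat.cast_mul, Nat.cast_ofNat] at e
  rw [e]
  clear e
  have step : ∀ c : ℤ, ∑ a ∈ range b, jacobiSym (c + 1 + a) b =
      ∑ a ∈ range b, jacobiSym (c + a) b := fun c => by
    have e1 := sum_range_succ (fun a : ℕ => jacobiSym (c + a) b) b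
    have e2 := sum_range_succ' (fun a : ℕ => jacobiSym (c + a) b) b
    have e3 : jacobiSym (c + b) b = jacobiSym (c + (0 : ℕ)) b :=
      jacobiSym.mod_left' (by simp)
    have e4 : ∑ a ∈ range b, jacobiSym (c + 1 + a) b =
        ∑ a ∈ range b, jacobiSym (c + (a + 1 : ℕ)) b :=
      sum_congr rfl fun a _ => by congr 1; push_cast; ring
    omega
  induction c using Int.induction_on with
  | zero => simpa using BSD15.sum_jacobi_eq_zero h1 hodd hb.1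
  | succ c ih => rw [step, ih]
  | pred c ih => rw [← step, sub_add_cancel, ih]

theorem dualA_abs_jac (a : ℤ) (b : ℕ) : |jacobiSym a b| ≤ 1 := by
  rcases jacobiSym.trichotomy a b with h | h | h <;> rw [h] <;> norm_num

theorem dualA_wf {b : ℕ} (hb : Adm b) (D ρ : ℤ) {k : ℤ} (hk : (b : ℤ) ∣ k) (C : ℤ) {g : M2}
    (hg : g.det = 1) : wf D ρ b (QF.cmp ⟨0, k, C⟩ g) =
      (if Lv D ρ (QF.cmp ⟨0, k, C⟩ g) then 1 else 0) * jacobiSym C b := by
  unfold wf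
  split_ifs with h
  · rw [one_mul, BSD15.cfid_jac_sqf C hb.1]
    refine prod_congr rfl fun p hp => ?_
    have hpb := Nat.dvd_of_mem_primeFactors hp
    rw [QF.chip_cmp (Nat.prime_of_mem_primeFactors hp) ?_ ?_ hg, QF.chip, if_pos (dvd_zero _)]
    · rintro rfl
      have := Nat.Coprime.eq_one_of_dvd (hb.2.coprime_dvd_left hpb) (by norm_num)
      omega
    · have : (p : ℤ) ∣ k := (Int.natCast_dvd_natCast.2 hpb).trans hk
      simp only [QF.disc, mul_zero, zero_mul, sub_zero]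
      exact dvd_pow this two_ne_zero
  · rw [zero_mul]

theorem vb_sq {b : ℕ} (hb : Adm b) (h1 : 1 < b) (ρ : ℤ) : VB (b ^ 2) (wf (b ^ 2) ρ b) := by
  refine ⟨(15 * b : ℕ) * 2, fun g hg k hk0 hk a a' => ?_⟩
  obtain rfl : k = b := (pow_left_inj₀ hk0.le (Int.natCast_nonneg b) two_ne_zero).1 hk
  have e : ∀ C : ℤ, wf (b ^ 2) ρ b (QF.cmp ⟨0, b, C⟩ g) - wf (b ^ 2) ρ b (QF.cmp ⟨0, -b, -C⟩ g) =
      ((if Lv (b ^ 2) ρ (QF.cmp ⟨0, b, C⟩ g) then 1 else 0) -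
        (if Lv (b ^ 2) ρ (QF.cmp ⟨0, -b, -C⟩ g) then 1 else 0) * jacobiSym (-1) b) *
        jacobiSym C b := fun C => by
    rw [dualA_wf hb _ _ dvd_rfl C hg, dualA_wf hb _ _ (dvd_neg.2 dvd_rfl) (-C) hg,
      ← neg_one_mul C, jacobiSym.mul_left]
    ring
  simp only [e]
  refine dualA_bound (v := fun C => jacobiSym C b) (by omega) (fun x => ?_)
    (fun x => dualA_abs_jac x b) (fun x j => ?_) (dualA_jac hb h1) a a'
  · have := abs_le.1 (dualA_abs_jac (-1) b)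
    rw [abs_le]
    split_ifs <;> omega
  · simp only [dualA_lv, dualA_lv']

theorem dualA_w4 {k : ℤ} (hk : 2 ∣ k) (C : ℤ) {g : M2} (hg : g.det = 1) :
    w4 (QF.cmp ⟨0, k, C⟩ g) =
      (if Lv 4 2 (QF.cmp ⟨0, k, C⟩ g) then 1 else 0) * (if 2 ∣ C then -1 else 1) := by
  have e : (2 ∣ (QF.cmp ⟨0, k, C⟩ g).A ∧ 2 ∣ (QF.cmp ⟨0, k, C⟩ g).C) ↔ 2 ∣ C := by
    refine ⟨fun h => ?_, fun h => imprim_cmp hk ⟨dvd_zero _, h⟩⟩
    have hB : 2 ∣ (QF.cmp ⟨0, k, C⟩ g).B := by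
      obtain ⟨t, rfl⟩ := hk
      exact ⟨t * (g.a * g.d + g.b * g.c) + C * g.c * g.d, by simp only [QF.cmp]; ring⟩
    have := (imprim_cmp (g := g.adj) hB h).2
    rwa [QF.cmp_adj hg] at this
  unfold w4
  simp only [e]
  split_ifs <;> norm_num

theorem vb_w4 : VB 4 w4 := by
  refine ⟨(15 * 2 : ℕ) * 2, fun g hg k hk0 hk a a' => ?_⟩
  obtain rfl : k = 2 := (pow_left_inj₀ hk0.le (by norm_num) two_ne_zero).1 (hk.trans (by norm_num))
  have e : ∀ C : ℤ, w4 (QF.cmp ⟨0, 2, C⟩ g) - w4 (QF.cmp ⟨0, -2, -C⟩ g) =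
      ((if Lv 4 2 (QF.cmp ⟨0, 2, C⟩ g) then 1 else 0) -
        (if Lv 4 2 (QF.cmp ⟨0, -2, -C⟩ g) then 1 else 0)) * (if 2 ∣ C then -1 else 1) := fun C => by
    rw [dualA_w4 dvd_rfl C hg, dualA_w4 (dvd_neg.2 dvd_rfl) (-C) hg]
    simp only [dvd_neg]
    ring
  simp only [e]
  refine dualA_bound (v := fun C => if 2 ∣ C then -1 else 1) (m := 2) (by omega) (fun x => ?_)
    (fun x => ?_) (fun x j => ?_) (fun c => ?_) a a'
  · split_ifs <;> norm_num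
  · split_ifs <;> norm_num
  · simp only [dualA_lv, dualA_lv']
  · simp only [sum_range_succ, range_zero, sum_empty]
    split_ifs <;> omega

end Pool.Agent.P.MP_8b7eba_nt.R1
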