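import Pool.Agent.P.MP_8b7eba_nt.R1.Geo
import Pool.Agent.P.MP_8b7eba_nt.R1.FormC
import Pool.Agent.P.MP_8b7eba_nt.R1.DualA
import Pool.Agent.P.MP_8b7eba_nt.BSD15.PairLam

/-! The linear forms dual to cycles of geodesics between cusps. -/

namespace Pool.Agent.P.MP_8b7eba_nt.R1

open Complex Filter Topology MeasureTheory Metric Finset Asymptotics PowerSeries
open scoped Real UpperHalfPlane MatrixGroups ComplexConjugate
open _root_.Pool.Agent.P.MP_8b7eba_nt.Mod (M2 G0 FI L0 om lv xx yy qq UH atI ex mT)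
open BSD15 (OO Good cls gch gJ nm cj rho lam Adm B3 B5 No4 Xp XJ Rn)
open MP_9c97e9_nt (Pt pm Is)

/-- the inverse of an element of `Gam` as a matrix -/
def dualB_M (h : BSD15.Gam) : M2 := ⟨h.d, -h.b, -h.c, h.a⟩

theorem dualB_G0 (h : BSD15.Gam) : G0 (dualB_M h) :=
  ⟨by have := h.det_eq; simp only [dualB_M, M2.det]; linear_combination this,
    h.dvd_c.neg_right⟩

/-- the vertical forms -/
def dualB_F (e : ℤ) (n c : ℕ) : QF := ⟨0, e * n, -(e * c)⟩

/-- the parametrisation of the forms of square discriminant -/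
def dualB_P (e : ℤ) (n : ℕ) (p : Fin n × BSD15.Gam) : Bool × QF :=
  (decide (0 < p.2.d), (dualB_F e n p.1).cmp (dualB_M p.2))

theorem dualB_d_ne (h : BSD15.Gam) : h.d ≠ 0 := fun h0 => by
  have h1 := h.det_eq
  obtain ⟨c, hc⟩ := h.dvd_c
  rw [h0, hc, mul_zero, zero_sub, mul_left_comm] at h1
  omega

theorem dualB_inj {e : ℤ} (he : e * e = 1) (n : ℕ) : Function.Injective (dualB_P e n) := by
  rintro ⟨c, h⟩ ⟨c', h'⟩ hh
  simp only [dualB_P, Prod.mk.injEq, decide_eq_decide] at hh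
  obtain ⟨h1, h2⟩ := hh
  have hn : (0 : ℤ) < n := by exact_mod_cast c.pos
  have g1 := dualB_G0 h
  have g2 := dualB_G0 h'
  have h3 : (dualB_F e n c).cmp (dualB_M h * (dualB_M h').adj) = dualB_F e n c' := by
    rw [QF.cmp_mul, h2, QF.cmp_adj g2.1]
  have he0 : e ≠ 0 := by rintro rfl; simp at he
  obtain ⟨k, h4, h5⟩ := vert_stab (mul_ne_zero he0 hn.ne') (g1.mul g2.adj).1 h3
  have h6 : (c : ℤ) - c' = k * n := by linear_combination e * h5 - ((c : ℤ) - c' - k * n) * he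
  have l1 : ((c : ℕ) : ℤ) < n := by exact_mod_cast c.2
  have l2 : ((c' : ℕ) : ℤ) < n := by exact_mod_cast c'.2
  have hk : k = 0 := by
    rcases lt_trichotomy k 0 with hk | hk | hk
    · nlinarith [Int.natCast_nonneg (c : ℕ)]
    · exact hk
    · nlinarith [Int.natCast_nonneg (c' : ℕ)]
  subst hk
  have h7 : dualB_M h = dualB_M h * (dualB_M h').adj * dualB_M h' := by
    rw [mul_assoc, M2.adj_mul_self g2.1, mul_one]
  have d1 := dualB_d_ne h
  have d2 := dualB_d_ne h'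
  refine Prod.ext (Fin.ext (by simp only; omega)) ?_
  rcases h4 with h4 | h4 <;> rw [h4] at h7 <;>
    simp only [M2.ext_iff, dualB_M, mT, M2.mul_a, M2.mul_b, M2.mul_c, M2.mul_d, M2.neg_a,
      M2.neg_b, M2.neg_c, M2.neg_d] at h7
  · ext <;> simp only <;> omega
  · omega

theorem dualB_surj {e : ℤ} (he : e * e = 1) {n : ℕ} (hn : 0 < n) (h15 : IsCoprime (e * n) 15)
    (b : Bool) {Q : QF} (hQ : Lv ((e * n) ^ 2) (e * n) Q) : (b, Q) ∈ Set.range (dualB_P e n) := by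
  obtain ⟨g, hg, C, hC⟩ := exists_vert h15 hQ
  have hn' : (0 : ℤ) < n := by exact_mod_cast hn
  have h1 := Int.emod_nonneg (-(e * C)) hn'.ne'
  have h2 := Int.emod_lt_of_pos (-(e * C)) hn'
  have h3 := Int.emod_add_mul_ediv (-(e * C)) n
  obtain ⟨c, hc⟩ := Int.eq_ofNat_of_zero_le h1
  rw [hc] at h2 h3
  generalize -(e * C) / n = t at h3
  have h4 : Q.cmp (g * mT t) = dualB_F e n c := by
    rw [QF.cmp_mul, hC]
    ext <;> simp only [QF.cmp, QF.ev, mT, dualB_F]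
    · ring
    · ring
    · linear_combination e * h3 - C * he
  have h5 := hg.mul (Mod.G0_mT t)
  generalize g * mT t = u at h4 h5
  have key : ∀ u : M2, G0 u → Q.cmp u = dualB_F e n c → b = decide (0 < u.d) →
      (b, Q) ∈ Set.range (dualB_P e n) := fun u h5 h4 hb =>
    ⟨(⟨c, by exact_mod_cast h2⟩, ⟨u.a, u.b, u.c, u.d, h5.1, h5.2⟩), Prod.ext hb.symm (by
      simp only [dualB_P]
      rw [← h4]
      exact QF.cmp_adj h5.1 Q)⟩
  by_cases hb : b = decide (0 < u.d)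
  · exact key u h5 h4 hb
  · refine key (-u) h5.neg (by rw [QF.cmp_neg, h4]) ?_
    have := dualB_d_ne ⟨u.a, u.b, u.c, u.d, h5.1, h5.2⟩
    simp only at this
    cases b <;> simp at hb ⊢ <;> omega

theorem dualB_unfold {e : ℤ} (he : e * e = 1) {n : ℕ} (hn : 0 < n) (h15 : IsCoprime (e * n) 15)
    {f : QF → ℝ} (hf : Function.HasFiniteSupport f)
    (hs : ∀ Q, f Q ≠ 0 → Lv ((e * n) ^ 2) (e * n) Q) :
    ∑ c ∈ range n, ∑ᶠ h : BSD15.Gam, f ((dualB_F e n c).cmp (dualB_M h)) = 2 * ∑ᶠ Q, f Q := by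
  have hi := dualB_inj he n
  have f1 : Function.HasFiniteSupport fun q : Bool × QF => f q.2 :=
    ((Set.finite_univ (α := Bool)).prod hf).subset fun q hq => ⟨trivial, hq⟩
  have f2 : Function.HasFiniteSupport fun p => f (dualB_P e n p).2 := f1.preimage hi.injOn
  have e1 := finsum_mem_range (f := fun q : Bool × QF => f q.2) hi
  rw [finsum_mem_inter_support_eq' _ _ Set.univ fun q hq =>
    ⟨fun _ => trivial, fun _ => dualB_surj he hn h15 q.1 (hs _ hq)⟩, finsum_mem_univ,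
    finsum_curry _ f1, finsum_curry _ f2, finsum_eq_sum_of_fintype, finsum_eq_sum_of_fintype,
    Fintype.sum_bool] at e1
  rw [two_mul, e1, ← Fin.sum_univ_eq_sum_range
    (fun c => ∑ᶠ h : BSD15.Gam, f ((dualB_F e n c).cmp (dualB_M h))) n]
  rfl

theorem dualB_sn (k : ℤ) : sn k = (k.sign : ℤ) := by
  rcases lt_trichotomy k 0 with h | rfl | h
  · have : (k : ℝ) < 0 := by exact_mod_cast h
    simp [sn, sign_neg this, Int.sign_eq_neg_one_of_neg h]
  · simp [sn]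
  · have : (0 : ℝ) < k := by exact_mod_cast h
    simp [sn, sign_pos this, Int.sign_eq_one_of_pos h]

theorem dualB_side {e : ℤ} (he : e * e = 1) {n : ℕ} (hn : 0 < n) (c : ℕ) (h : BSD15.Gam)
    (x : BSD15.V) : BSD15.side (h.act (c, n)) (h.act (1, 0)) x =
      e * (((dualB_F e n c).cmp (dualB_M h)).ev x.1 x.2).sign := by
  have e1 : ((dualB_F e n c).cmp (dualB_M h)).ev x.1 x.2 =
      -e * (BSD15.dt x (h.act (c, n)) * BSD15.dt x (h.act (1, 0))) := by
    rw [QF.ev_cmp]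
    simp only [QF.ev, dualB_F, dualB_M, BSD15.dt, BSD15.Gam.act]
    ring
  have e2 : (BSD15.dt ((c : ℤ), (n : ℤ)) (1, 0)).sign = -1 :=
    Int.sign_eq_neg_one_of_neg (by simp only [BSD15.dt]; omega)
  rw [BSD15.side, BSD15.paircore_dt_act, e1, e2, Int.sign_mul, Int.sign_mul]
  rcases Int.eq_one_or_neg_one_of_mul_eq_one he with rfl | rfl <;> simp

theorem dualB_cross {e : ℤ} (he : e * e = 1) {n : ℕ} (hn : 0 < n) (c : ℕ) (h : BSD15.Gam)
    {x y : BSD15.V} (hx : ((dualB_F e n c).cmp (dualB_M h)).ev x.1 x.2 ≠ 0)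
    (hy : ((dualB_F e n c).cmp (dualB_M h)).ev y.1 y.2 ≠ 0) :
    (sn (((dualB_F e n c).cmp (dualB_M h)).ev x.1 x.2) -
      sn (((dualB_F e n c).cmp (dualB_M h)).ev y.1 y.2)) / 2 =
      -e * BSD15.cross x y (h.act (c, n)) (h.act (1, 0)) := by
  rw [BSD15.cross, dualB_side he hn, dualB_side he hn, dualB_sn, dualB_sn]
  generalize ((dualB_F e n c).cmp (dualB_M h)).ev x.1 x.2 = u at hx
  generalize ((dualB_F e n c).cmp (dualB_M h)).ev y.1 y.2 = v at hy
  rcases Int.eq_one_or_neg_one_of_mul_eq_one he with rfl | rfl <;>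
    rcases hx.lt_or_gt with h1 | h1 <;> rcases hy.lt_or_gt with h2 | h2 <;>
    simp only [Int.sign_eq_neg_one_of_neg, Int.sign_eq_one_of_pos, h1, h2] <;> norm_num

theorem dualB_jj {e : ℤ} (he : e * e = 1) {n : ℕ} (hn : 0 < n) (h15 : IsCoprime (e * n) 15)
    {w : QF → ℤ} {D : ℤ} (hw : Wt D w) (hs : ∀ Q, w Q ≠ 0 → Lv ((e * n) ^ 2) (e * n) Q)
    {g : M2} (hg : G0 g) : jj w g = -e * ∑ c ∈ range n, w (dualB_F e n c) *
      ((BSD15.crossSum (g.a + 3 * g.b, g.c + 3 * g.d) (1, 3) (c, n) (1, 0) : ℝ) / 2) := by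
  have hne : ∀ Q, w Q ≠ 0 → Q.ev (g.a + 3 * g.b) (g.c + 3 * g.d) ≠ 0 := fun Q hQ => by
    have := hw.ne (Q.cmp g) (by rwa [hw.inv Q g hg])
    rwa [QF.ev_cmp, mul_one, mul_one, mul_comm g.b, mul_comm g.d] at this
  have hw0 : ∀ Q, (w Q : ℝ) * ((sn (Q.ev (g.a + 3 * g.b) (g.c + 3 * g.d)) - sn (Q.ev 1 3)) / 2) ≠
      0 → w Q ≠ 0 := fun Q hQ h => hQ (by simp [h])
  have e1 := dualB_unfold he hn h15 (f := fun Q =>
    (w Q : ℝ) * ((sn (Q.ev (g.a + 3 * g.b) (g.c + 3 * g.d)) - sn (Q.ev 1 3)) / 2))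
    ((finite_cusps hw.pos (g.a + 3 * g.b) (g.c + 3 * g.d) 1 3).subset fun Q hQ =>
      ⟨hw.disc Q (hw0 Q hQ), hne Q (hw0 Q hQ), hw.ne Q (hw0 Q hQ), fun h => hQ (by simp [h])⟩)
    fun Q hQ => hs Q (hw0 Q hQ)
  refine mul_left_cancel₀ two_ne_zero ?_
  rw [jj, ← e1, mul_sum, mul_sum]
  refine sum_congr rfl fun c _ => ?_
  have e2 := (Int.castAddHom ℝ).map_finsum
    (BSD15.cross_finite (g.a + 3 * g.b, g.c + 3 * g.d) (1, 3) (c, n) (1, 0))
  simp only [Int.coe_castAddHom] at e2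
  rw [BSD15.crossSum, e2, show ∀ a b s : ℝ, 2 * (a * (b * (s / 2))) = b * a * s by intros; ring,
    mul_finsum]
  refine finsum_congr fun h => ?_
  by_cases h0 : w (dualB_F e n c) = 0
  · simp [hw.inv _ _ (dualB_G0 h), h0]
  · have h1 : w ((dualB_F e n c).cmp (dualB_M h)) ≠ 0 := by rwa [hw.inv _ _ (dualB_G0 h)]
    rw [dualB_cross he hn c h (x := (g.a + 3 * g.b, g.c + 3 * g.d)) (y := (1, 3)) (hne _ h1)
      (hw.ne _ h1), hw.inv _ _ (dualB_G0 h), mul_assoc]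

theorem dualB_II {g : M2} (hg : G0 g) {y : BSD15.V} (hy : Int.gcd y.2 15 = 1) :
    ((BSD15.II (g.a + 3 * g.b, g.c + 3 * g.d) (1, 3) y (1, 0) : ℚ) : ℝ) =
      (BSD15.crossSum (g.a + 3 * g.b, g.c + 3 * g.d) (1, 3) y (1, 0) : ℝ) / 2 := by
  have h1 : Int.gcd ((g.a + 3 * g.b, g.c + 3 * g.d) : BSD15.V).2 15 = 3 := by
    have := BSD15.paircore_gcd_act ⟨g.a, g.b, g.c, g.d, hg.1, hg.2⟩ (1, 3)
    simp only [BSD15.Gam.act, mul_one, mul_comm g.d] at this
    exact this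
  have h2 : Int.gcd ((1, 3) : BSD15.V).2 15 = 3 := by decide
  have h3 : Int.gcd ((1, 0) : BSD15.V).2 15 = 15 := by decide
  have key : ∀ x x' z z' : BSD15.V, Int.gcd x.2 15 ≠ Int.gcd z.2 15 → BSD15.endT x x' z z' = 0 :=
    fun x x' z z' h => BSD15.endT_of_not x' z' fun ⟨k, hk⟩ =>
      h (hk ▸ BSD15.paircore_gcd_act k z)
  rw [BSD15.II, BSD15.endSum, key _ _ _ _ (by omega), key _ _ _ _ (by omega),
    key _ _ _ _ (by omega), key _ _ _ _ (by omega)]
  push_cast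
  ring

theorem dualB_prim {g : M2} (hg : G0 g) : BSD15.Prim (g.a + 3 * g.b, g.c + 3 * g.d) :=
  ⟨g.d, -g.b, by have := hg.1; simp only [M2.det] at this ⊢; linear_combination this⟩

theorem dualB_fam {ι : Type} {s : Finset ι} {c : ι → ℚ} {y₁ y₂ : ι → BSD15.V}
    (h : BSD15.PairlamFam s c y₁ y₂) {w : QF → ℤ} (e : ℚ) (hj : ∀ g, G0 g → jj w g =
      ((e * ∑ i ∈ s, c i * BSD15.II (g.a + 3 * g.b, g.c + 3 * g.d) (1, 3) (y₁ i) (y₂ i) : ℚ) : ℝ)) :
    Dual w (-(e * ∑ i ∈ s, c i * BSD15.II (1, 2) (0, 1) (y₁ i) (y₂ i)))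
      (e * ∑ i ∈ s, c i * BSD15.II (0, 1) (-1, 4) (y₁ i) (y₂ i)) := by
  have p12 : BSD15.Prim (1, 2) := isCoprime_one_left
  have p13 : BSD15.Prim (1, 3) := isCoprime_one_left
  have p01 : BSD15.Prim (0, 1) := isCoprime_one_right
  have p14 : BSD15.Prim (-1, 4) := BSD15.pairlam_prim (by decide)
  refine dual_of_ms (ψ := fun x => ((e * ∑ i ∈ s, c i * BSD15.II x (1, 0) (y₁ i) (y₂ i) : ℚ) : ℝ))
    ⟨fun x hx => ?_, fun g x y hx hy => ?_⟩ (fun g hg => ?_) ?_ ?_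
  · have := h.isMS.neg x hx
    simp only [ofReal_ratCast, Rat.cast_mul, ofReal_mul, this]
  · have := h.isMS.inv g x y hx hy
    simp only [ofReal_ratCast, Rat.cast_mul, ofReal_mul, ← mul_sub, this]
  · rw [hj g hg, ← Rat.cast_sub, ← mul_sub, h.sub (dualB_prim hg) p13]
  · rw [← Rat.cast_sub, ← mul_sub, h.sub p12 p01, Rat.cast_neg, neg_neg]
  · rw [← Rat.cast_sub, ← mul_sub, h.sub p01 p14]

theorem dualB_one : BSD15.PairlamFam (Finset.univ : Finset Unit) (fun _ => 1) (fun _ => (0, 1))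
    (fun _ => (-1, 4)) where
  prim _ _ _ := ⟨BSD15.pairlam_prim (by decide), BSD15.pairlam_prim (by decide), by decide⟩
  closed x₁ x₂ x₃ h₁ h₂ h₃ := by
    rw [BSD15.pairlam_dfct h₁ h₂ h₃ (BSD15.pairlam_prim (x := (0, 1)) (by decide))
      (BSD15.pairlam_prim (x := (-1, 4)) (by decide)) (by decide)]
    simp

theorem dualB_A : BSD15.II (1, 2) (1, 0) (0, 1) (-1, 4) - BSD15.II (0, 1) (1, 0) (0, 1) (-1, 4) =
    -1 := by
  have p12 : BSD15.Prim (1, 2) := isCoprime_one_left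
  have p01 : BSD15.Prim (0, 1) := isCoprime_one_right
  have p14 : BSD15.Prim (-1, 4) := BSD15.pairlam_prim (by decide)
  have e := dualB_one.sub p12 p01
  simp only [Finset.univ_unique, Finset.sum_singleton, one_mul] at e
  rw [e, BSD15.II_antisymm p12 p01 p01 p14, BSD15.II_AB]

theorem dualB_lam {b : ℕ} (hb : Adm b) (h1 : 1 < b) (h4 : b % 4 = 1) :
    ∑ c ∈ range b, (jacobiSym c b : ℚ) * BSD15.II (0, 1) (-1, 4) ((c : ℤ), (b : ℤ)) (1, 0) =
      lam b := by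
  have p01 : BSD15.Prim (0, 1) := isCoprime_one_right
  have p14 : BSD15.Prim (-1, 4) := BSD15.pairlam_prim (by decide)
  have e2 := BSD15.lam_spec h1 hb _ dualB_one.isMS
  rw [if_pos h4, BSD15.msA, ← Rat.cast_sub] at e2
  simp only [Finset.univ_unique, Finset.sum_singleton, one_mul, dualB_A] at e2
  have e4 : ∑ c ∈ range b, (jacobiSym c b : ℚ) *
      BSD15.II ((c : ℤ), (b : ℤ)) (1, 0) (0, 1) (-1, 4) = lam b * -1 := by exact_mod_cast e2
  rw [mul_neg_one, ← neg_eq_iff_eq_neg] at e4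
  rw [← e4, ← Finset.sum_neg_distrib]
  simp only [← mul_neg]
  exact BSD15.pairlam_congr fun c _ hc =>
    BSD15.II_antisymm p01 p14 (BSD15.pairlam_prim_b h1 hc) BSD15.pairlam_inf

theorem dual_sq {b : ℕ} (hb : Adm b) (h1 : 1 < b) : ∃ α β : ℚ,
    Dual (wf (b ^ 2) (st b) b) α β ∧ |if b % 4 = 1 then β else α| = |lam b| := by
  have hodd := BSD15.pairlam_odd hb
  have ho := Nat.odd_iff.1 hodd
  have h15 : b.Coprime 15 := hb.2.coprime_dvd_right (by norm_num)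
  have hc : IsCoprime (b : ℤ) 15 := Nat.isCoprime_iff_coprime.2 h15
  have hn : ∀ p : ℤ, Prime p → p ∣ 15 → ¬ p ∣ (b : ℤ) ^ 2 := fun p hp h h' =>
    hp.not_isUnit (hc.isUnit_of_dvd' (hp.dvd_of_dvd_pow h') h)
  have hw : Wt (b ^ 2) (wf (b ^ 2) (st b) b) := wt_wf (by positivity) hodd
    (dvd_pow_self _ two_ne_zero) (hn 3 Int.prime_three (by norm_num))
    (hn 5 (Int.prime_iff_natAbs_prime.2 (by norm_num)) (by norm_num)) (.inr (st_sq b).symm)
  obtain ⟨e, he, hst, hJ⟩ : ∃ e : ℤ, e * e = 1 ∧ st b = e * b ∧ jacobiSym (-e) b = 1 := by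
    by_cases h4 : b % 4 = 1
    · exact ⟨1, by norm_num, by simp [st, h4], formC_neg_one h4⟩
    · exact ⟨-1, by norm_num, by simp [st, h4], by simp⟩
  have hsq : (b : ℤ) ^ 2 = (e * b) ^ 2 := by rw [← hst, st_sq]
  have hF : ∀ c : ℕ, wf (b ^ 2) (st b) b (dualB_F e b c) = jacobiSym c b := fun c => by
    have := dualA_wf hb (b ^ 2) (st b) (k := e * b) (dvd_mul_left _ _) (-(e * c)) M2.det_one
    rw [QF.cmp_one, if_pos ⟨by rw [hsq]; simp [QF.disc], dvd_zero _, by simp [hst]⟩, one_mul,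
      ← neg_mul, jacobiSym.mul_left, hJ, one_mul] at this
    rw [← this, dualB_F, neg_mul]
  have hab : |(-e : ℚ)| = 1 := by
    rcases Int.eq_one_or_neg_one_of_mul_eq_one he with rfl | rfl <;> simp
  refine ⟨_, _, dualB_fam (BSD15.pairlam_fam hb h1) (-e) fun g hg => ?_, ?_⟩
  · rw [dualB_jj he (by omega) (n := b) ((IsCoprime.mul_left_iff.2 ⟨?_, hc⟩)) hw ?_ hg]
    · push_cast
      congr 1
      refine sum_congr rfl fun c _ => ?_
      rw [hF, dualB_II hg (Int.isCoprime_iff_gcd_eq_one.1 hc)]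
    · exact ⟨e, 0, by simpa using he⟩
    · intro Q hQ
      rw [← hsq, ← hst]
      by_contra h'
      exact hQ (if_neg h')
  · split_ifs with h4
    · rw [abs_mul, hab, one_mul, dualB_lam hb h1 h4, Int.cast_abs]
    · have e2 := BSD15.pair_lam_triv hb (by omega)
      simp only [mul_sub, Finset.sum_sub_distrib] at e2
      rw [(BSD15.pairlam_fam hb h1).sub (x := (1, 2)) (y := (0, 1)) isCoprime_one_left
        isCoprime_one_right] at e2
      rw [abs_neg, abs_mul, hab, one_mul, e2, abs_neg, Int.cast_abs]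

theorem dualB_scale (x y : BSD15.V) :
    BSD15.crossSum x y (0, 2) (1, 0) = BSD15.crossSum x y (0, 1) (1, 0) := by
  refine finsum_congr fun g => ?_
  have h : ∀ z : BSD15.V, BSD15.side (g.act (0, 2)) (g.act (1, 0)) z =
      BSD15.side (g.act (0, 1)) (g.act (1, 0)) z := fun z => by
    have e : BSD15.dt z (g.act (0, 2)) = 2 * BSD15.dt z (g.act (0, 1)) := by
      simp only [BSD15.dt, BSD15.Gam.act]; ring
    simp only [BSD15.side, BSD15.paircore_dt_act, e, Int.sign_mul]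
    simp [BSD15.dt, show Int.sign 2 = 1 from rfl]
  simp only [BSD15.cross, h]

theorem dualB_two : BSD15.PairlamFam (range 2) (fun c => 2 * c - 1)
    (fun c => ((c : ℤ), (c : ℤ) + 1)) (fun _ => (1, 0)) where
  prim c _ _ := ⟨⟨-1, 1, by simp⟩, BSD15.pairlam_inf, by simp only [BSD15.dt]; omega⟩
  closed x₁ x₂ x₃ h₁ h₂ h₃ := by
    have := BSD15.pairlam_dfct h₁ h₂ h₃ (BSD15.pairlam_prim (x := (1, 2)) (by decide))
      (BSD15.pairlam_prim (x := (0, 1)) (by decide)) (by decide)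
    norm_num [sum_range_succ, this]

theorem dual_w4 : ∃ α β : ℚ, Dual w4 α β ∧ |β| = 1 := by
  have p12 : BSD15.Prim (1, 2) := isCoprime_one_left
  have p01 : BSD15.Prim (0, 1) := isCoprime_one_right
  have p14 : BSD15.Prim (-1, 4) := BSD15.pairlam_prim (by decide)
  refine ⟨_, _, dualB_fam dualB_two (-1) fun g hg => ?_, ?_⟩
  · have w0 : w4 (dualB_F 1 2 0) = -1 := by decide
    have w1 : w4 (dualB_F 1 2 1) = 1 := by decide
    have i0 := dualB_II hg (y := (0, 1)) (by decide)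
    have i1 := dualB_II hg (y := (1, 2)) (by decide)
    rw [dualB_jj (e := 1) (n := 2) (by norm_num) two_pos (by norm_num) wt_w4 ?_ hg]
    · norm_num [sum_range_succ, w0, w1, i0, i1, dualB_scale]
    · intro Q hQ
      by_contra h'
      exact hQ (if_neg h')
  · have := dualB_A
    rw [BSD15.II_antisymm p12 BSD15.pairlam_inf p01 p14,
      BSD15.II_antisymm p01 BSD15.pairlam_inf p01 p14] at this
    norm_num [sum_range_succ]
    rw [abs_eq (by norm_num)]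
    right
    linarith

end Pool.Agent.P.MP_8b7eba_nt.R1
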