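import Pool.Agent.P.MP_8b7eba_nt.R1.QE

/-! Expansions of the basic modular functions. -/

namespace Pool.Agent.P.MP_8b7eba_nt.R1

open Complex Filter Topology MeasureTheory Metric Finset Asymptotics PowerSeries
open scoped Real UpperHalfPlane MatrixGroups ComplexConjugate
open _root_.Pool.Agent.P.MP_8b7eba_nt.Mod (M2 G0 FI L0 om lv xx yy qq UH atI ex mT)
open BSD15 (OO Good cls gch gJ nm cj rho lam Adm B3 B5 No4 Xp XJ Rn)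
open MP_9c97e9_nt (Pt pm Is)

open _root_.Pool.Agent.P.MP_8b7eba_nt.Mod (Rep Pf PP MM KK FF Nf Mf Kf Ff)

theorem Exp_inv {Φ : ℂ → ℂ} {A B : ℤ⟦X⟧} (h : Rep Φ A) (hAB : A * B = 1)
    (h0 : ∀ q ∈ ball (0 : ℂ) 1, Φ q ≠ 0) : Rep (fun q => (Φ q)⁻¹) B := by
  have hd : DifferentiableOn ℂ (fun q => (Φ q)⁻¹) (ball 0 1) := h.1.inv h0
  refine ⟨hd, ?_⟩
  have ha := hd.analyticAt (ball_mem_nhds (0 : ℂ) one_pos)
  have hf : ∀ n : ℕ, (n.factorial : ℂ) ≠ 0 := fun n => by exact_mod_cast n.factorial_ne_zero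
  let B' : ℂ⟦X⟧ := PowerSeries.mk fun n => iteratedDeriv n (fun q => (Φ q)⁻¹) 0 / n.factorial
  have e1 : ∀ n, iteratedDeriv n (fun q => (Φ q)⁻¹) 0 = n.factorial * coeff n B' := by
    intro n
    rw [coeff_mk, mul_div_cancel₀ _ (hf n)]
  have e2 : PowerSeries.map (Int.castRingHom ℂ) A * B' = 1 := by
    ext n
    have h1 := iteratedDeriv_mul (n := n) h.analyticAt.contDiffAt ha.contDiffAt
    have h2 : (Φ * fun q => (Φ q)⁻¹) =ᶠ[𝓝 0] fun _ => (1 : ℂ) := by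
      filter_upwards [ball_mem_nhds (0 : ℂ) one_pos] with q hq using mul_inv_cancel₀ (h0 q hq)
    rw [h2.iteratedDeriv_eq, Rep.one.2] at h1
    have h3 : (((coeff n (1 : ℤ⟦X⟧) : ℤ) : ℂ)) = coeff n (1 : ℂ⟦X⟧) := by
      simp [coeff_one]
    apply mul_left_cancel₀ (hf n)
    rw [← h3, h1]
    simp only [h.2, e1, coeff_mul, Finset.Nat.sum_antidiagonal_eq_sum_range_succ_mk,
      Finset.mul_sum, coeff_map, eq_intCast]
    refine Finset.sum_congr rfl fun i hi => ?_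
    rw [Nat.cast_choose _ (by grind)]
    field_simp [Nat.factorial_ne_zero]
  have e3 : B' = PowerSeries.map (Int.castRingHom ℂ) B := by
    have h4 := congrArg (PowerSeries.map (Int.castRingHom ℂ)) hAB
    rw [map_mul, map_one] at h4
    linear_combination PowerSeries.map (Int.castRingHom ℂ) B * e2 - B' * h4
  intro n
  rw [e1, e3, coeff_map, eq_intCast]

theorem Exp_ne {Φ : ℂ → ℂ} {A : ℤ⟦X⟧} (h : Rep Φ A) (hA : constantCoeff A = 1)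
    (h0 : ∀ z : ℂ, 0 < z.im → Φ (qq z) ≠ 0) : ∀ q ∈ ball (0 : ℂ) 1, Φ q ≠ 0 := by
  intro q hq
  rcases eq_or_ne q 0 with rfl | hq0
  · rw [h.apply_zero, hA]
    simp
  · have h1 := Function.Periodic.im_invQParam_pos_of_norm_lt_one one_pos
      (mem_ball_zero_iff.1 hq) hq0
    have h2 := h0 _ h1
    rwa [Mod.qq_eq, Function.Periodic.qParam_right_inv one_ne_zero hq0] at h2

theorem Exp_exists {Φ : ℂ → ℂ} {A : ℤ⟦X⟧} (h : Rep Φ A) (hA : constantCoeff A = 1)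
    (h0 : ∀ z : ℂ, 0 < z.im → Φ (qq z) ≠ 0) :
    ∃ B : ℤ⟦X⟧, A * B = 1 ∧ constantCoeff B = 1 ∧ Rep (fun q => (Φ q)⁻¹) B := by
  obtain ⟨B, hB⟩ := (isUnit_iff_constantCoeff.2 (hA ▸ isUnit_one)).exists_right_inv
  have h2 := congrArg constantCoeff hB
  rw [map_mul, hA, one_mul, map_one] at h2
  exact ⟨B, hB, h2, Exp_inv h hB (Exp_ne h hA h0)⟩

theorem Exp_const (δ : ℕ) : constantCoeff (PP δ) = 1 := by
  rw [← coeff_zero_eq_constantCoeff_apply]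
  simp [PP, Mod.PN]

theorem Exp_qe' {Φ G : ℂ → ℂ} {A : ℤ⟦X⟧} {N : ℕ} {c : ℤ} (hc : c ≠ 0) (h : Rep Φ (C c * A))
    (e : ∀ z : ℂ, 0 < z.im → Φ (qq z) = c * (G z * qq z ^ N)) : QE 1 N (zs A) G := by
  intro z hz
  have hc' : (c : ℂ) ≠ 0 := by exact_mod_cast hc
  have h1 := (h.hasSum (Mod.norm_qq_lt hz)).mul_left (c : ℂ)⁻¹
  rw [e z hz, inv_mul_cancel_left₀ hc'] at h1
  rw [Nat.cast_one, div_one]
  refine h1.congr_fun fun k => ?_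
  rw [coeff_C_mul, coeff_map, eq_intCast, Int.cast_mul, mul_assoc, inv_mul_cancel_left₀ hc']
  simp

theorem Exp_qe {Φ G : ℂ → ℂ} {A : ℤ⟦X⟧} {N : ℕ} (h : Rep Φ A)
    (e : ∀ z : ℂ, 0 < z.im → Φ (qq z) = G z * qq z ^ N) : QE 1 N (zs A) G :=
  Exp_qe' (c := 1) one_ne_zero (by simpa using h) fun z hz => by simpa using e z hz

theorem Exp_x {z : ℂ} (hz : 0 < z.im) : Nf (qq z) * (Mf (qq z))⁻¹ = xx z * qq z ^ 2 := by
  have h1 := Mod.Mf_ne hz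
  have h2 := Mod.qq_ne z
  rw [Mod.xx_eq]
  field_simp

theorem Exp_y {z : ℂ} (hz : 0 < z.im) :
    Kf (qq z) * (Mf (qq z))⁻¹ ^ 2 * (Ff (qq z))⁻¹ = yy z * qq z ^ 3 := by
  have h1 := Mod.Mf_ne hz
  have h2 := Mod.qq_ne z
  have h3 := Mod.Ff_ne hz
  have h6 := Mod.two_pi_I_ne
  rw [yy, Mod.deriv_xx hz, Mod.ff_eq]
  generalize (2 * π * I : ℂ) = t at h6
  field_simp

theorem Exp_v {z : ℂ} (hz : 0 < z.im) :
    Pf 1 (qq z) * Pf 3 (qq z) ^ 2 * Pf 5 (qq z) * (Pf 15 (qq z))⁻¹ ^ 4 = v1 z * qq z ^ 2 := by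
  obtain ⟨h1, h2, h3, h4⟩ := Mod.four_q z
  have h5 := Mod.Pf_ne (δ := 15) (by norm_num) hz
  have h0 : cexp (2 * π * I * z / 24) ≠ 0 := Complex.exp_ne_zero _
  have h6 := Mod.exp24 z
  rw [v1, h1, h2, h3, h4]
  generalize Pf 1 (qq z) = a
  generalize Pf 3 (qq z) = b
  generalize Pf 5 (qq z) = c
  generalize Pf 15 (qq z) = d at h5
  rw [← h6]
  field_simp

theorem exists_xx : ∃ A : ℤ⟦X⟧, constantCoeff A = 1 ∧ QE 1 2 (zs A) xx := by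
  obtain ⟨W, -, hW, rW⟩ := Exp_exists Mod.rep_Mf Mod.const_MM fun z hz => Mod.Mf_ne hz
  exact ⟨Mod.NN * W, by simp [Mod.const_NN, hW], Exp_qe (Mod.rep_Nf.mul rW) fun z hz => Exp_x hz⟩

theorem Exp_two {S T : ℤ⟦X⟧} (h : S ^ 2 = 2 * T) : ∃ A : ℤ⟦X⟧, S = C (-2) * A := by
  have h1 := congrArg (PowerSeries.map (Int.castRingHom (ZMod 2))) h
  have h2 : (2 : (ZMod 2)⟦X⟧) = 0 := by
    rw [← map_ofNat (C (R := ZMod 2)) 2, show (OfNat.ofNat 2 : ZMod 2) = 0 from rfl, map_zero]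
  rw [map_pow, map_mul, map_ofNat, h2, zero_mul] at h1
  have h3 := pow_eq_zero_iff (two_ne_zero) |>.1 h1
  refine ⟨PowerSeries.mk fun n => -(coeff n S / 2), ?_⟩
  ext n
  have h4 := congrArg (coeff n) h3
  rw [coeff_map, eq_intCast, map_zero, ZMod.intCast_zmod_eq_zero_iff_dvd] at h4
  rw [coeff_C_mul, coeff_mk]
  omega

theorem exists_y1 : ∃ A : ℤ⟦X⟧, constantCoeff A = 1 ∧ QE 1 3 (zs A) y1 := by
  obtain ⟨W, hW, cW, rW⟩ := Exp_exists Mod.rep_Mf Mod.const_MM fun z hz => Mod.Mf_ne hz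
  obtain ⟨V, hV, cV, rV⟩ := Exp_exists Mod.rep_Ff Mod.const_FF fun z hz => Mod.Ff_ne hz
  have h3 := Mod.Num_zero
  unfold Mod.Num at h3
  have h4 : (KK * W ^ 2 * V) ^ 2 =
      4 * (Mod.NN * W) ^ 3 - 7 * X ^ 2 * (Mod.NN * W) ^ 2 - 36 * X ^ 4 * (Mod.NN * W) := by
    linear_combination W ^ 4 * V ^ 2 * h3 + (MM * W ^ 4 * (4 * Mod.NN ^ 3 - 7 * X ^ 2 * Mod.NN ^ 2 * MM -
      36 * X ^ 4 * Mod.NN * MM ^ 2) * (FF * V + 1)) * hV + (4 * Mod.NN ^ 3 * W ^ 3 - 7 * X ^ 2 * Mod.NN ^ 2 *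
      W ^ 2 * (MM * W + 1) - 36 * X ^ 4 * Mod.NN * W * ((MM * W) ^ 2 + MM * W + 1)) * hW
  obtain ⟨A, hA⟩ := Exp_two (S := KK * W ^ 2 * V + X * (Mod.NN * W))
    (T := 2 * (Mod.NN * W) ^ 3 - 3 * X ^ 2 * (Mod.NN * W) ^ 2 - 18 * X ^ 4 * (Mod.NN * W) +
      X * (Mod.NN * W) * (KK * W ^ 2 * V)) (by linear_combination h4)
  have cK : constantCoeff KK = -2 := by
    simp [KK, Mod.const_NN, Mod.const_MM, map_ofNat]
  have h5 := congrArg constantCoeff hA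
  simp only [map_add, map_mul, map_pow, cK, cW, cV, constantCoeff_X, constantCoeff_C] at h5
  have r := ((Mod.rep_Kf.mul (rW.pow 2)).mul rV).add (Rep.id'.mul (Mod.rep_Nf.mul rW))
  rw [hA] at r
  refine ⟨A, by omega, Exp_qe' (by norm_num) r fun z hz => ?_⟩
  show Kf (qq z) * (Mf (qq z))⁻¹ ^ 2 * (Ff (qq z))⁻¹ + qq z * (Nf (qq z) * (Mf (qq z))⁻¹) = _
  rw [Exp_x hz, Exp_y hz, y1]
  push_cast
  ring

theorem Exp_v1 : ∃ (A : ℤ⟦X⟧) (Φ : ℂ → ℂ), constantCoeff A = 1 ∧ Rep Φ A ∧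
    ∀ z : ℂ, 0 < z.im → Φ (qq z) = v1 z * qq z ^ 2 := by
  obtain ⟨W, -, cW, rW⟩ := Exp_exists (Mod.rep_Pf (δ := 15) (by norm_num)) (Exp_const 15)
    fun z hz => Mod.Pf_ne (by norm_num) hz
  exact ⟨PP 1 * PP 3 ^ 2 * PP 5 * W ^ 4, _, by simp [Exp_const, cW],
    (((Mod.rep_Pf one_pos).mul ((Mod.rep_Pf (by norm_num)).pow 2)).mul
      (Mod.rep_Pf (by norm_num))).mul (rW.pow 4), fun z hz => Exp_v hz⟩

theorem exists_v1 : ∃ A : ℤ⟦X⟧, constantCoeff A = 1 ∧ QE 1 2 (zs A) v1 := by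
  obtain ⟨A, Φ, h1, h2, h3⟩ := Exp_v1
  exact ⟨A, h1, Exp_qe h2 h3⟩

theorem exists_U8 : ∃ A : ℤ⟦X⟧, QE 1 48 (zs A) U8 := by
  obtain ⟨A, Φ, -, h2, h3⟩ := Exp_v1
  obtain ⟨W, -, -, rW⟩ := Exp_exists Mod.rep_Mf Mod.const_MM fun z hz => Mod.Mf_ne hz
  refine ⟨_, Exp_qe (((h2.pow 2).mul (Mod.rep_Nf.mul rW)).pow 8) fun z hz => ?_⟩
  show (Φ (qq z) ^ 2 * (Nf (qq z) * (Mf (qq z))⁻¹)) ^ 8 = _
  rw [h3 z hz, Exp_x hz, U8]
  ring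

theorem exists_Dl : ∃ A B : ℤ⟦X⟧, QE 1 0 (zs A) Dl ∧ QE 1 1 (zs B) fun z => (Dl z)⁻¹ := by
  obtain ⟨W, -, -, rW⟩ := Exp_exists (Mod.rep_Pf one_pos) (Exp_const 1)
    fun z hz => Mod.Pf_ne one_pos hz
  have e : ∀ z, Dl z = qq z * Pf 1 (qq z) ^ 24 := fun z => by
    rw [Dl, (Mod.four_q z).1, mul_pow, Mod.exp24]
  refine ⟨_, _, Exp_qe (Rep.id'.mul ((Mod.rep_Pf one_pos).pow 24)) fun z _ => ?_,
    Exp_qe (rW.pow 24) fun z _ => ?_⟩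
  · rw [e, pow_zero, mul_one]
  · have h2 := Mod.qq_ne z
    show (Pf 1 (qq z))⁻¹ ^ 24 = (Dl z)⁻¹ * qq z ^ 1
    rw [e, mul_inv, inv_pow, pow_one, mul_right_comm, inv_mul_cancel₀ h2, one_mul]

theorem hb_xx : HB xx := ⟨Mod.diff_xx, fun _ hg hc => Mod.xx_bdd hg hc⟩

theorem Exp_hb_yy : HB yy :=
  ⟨(Mod.diff_xx.deriv Mod.isOpen_UH).div (Mod.diff_ff.const_mul _)
    fun _ hz => mul_ne_zero Mod.two_pi_I_ne (Mod.ff_ne hz), fun _ hg hc => Mod.yy_bdd hg hc⟩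

theorem hb_y1 : HB y1 :=
  ((HB.const (-1 / 2)).mul (Exp_hb_yy.add hb_xx)).congr fun z _ => by
    rw [y1]
    ring

theorem y1_act {g : M2} (hg : G0 g) {z : ℂ} (hz : 0 < z.im) : y1 (g.act z) = y1 z := by
  rw [y1, y1, Mod.yy_inv hg hz, Mod.xx_inv g hg z hz]

theorem y1_eq {z : ℂ} (hz : 0 < z.im) :
    y1 z ^ 2 + xx z * y1 z = xx z ^ 3 - 2 * xx z ^ 2 - 9 * xx z := by
  have h := Mod.RR_zero hz
  rw [Mod.RR] at h
  rw [y1]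
  linear_combination (1 / 4) * h

theorem kf_xx : KF 0 xx := by
  obtain ⟨A, -, h⟩ := exists_xx
  exact ⟨hb_xx, fun g hg z hz => by rw [Mod.xx_inv g hg z hz, pow_zero, one_mul], 2, A, h⟩

theorem kf_y1 : KF 0 y1 := by
  obtain ⟨A, -, h⟩ := exists_y1
  exact ⟨hb_y1, fun g hg z hz => by rw [y1_act hg hz, pow_zero, one_mul], 3, A, h⟩

end Pool.Agent.P.MP_8b7eba_nt.R1
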