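import Pool.Agent.P.MP_8b7eba_nt.R1.QP
import Pool.Agent.P.MP_8b7eba_nt.R1.FormB

/-! Heegner points are integral. -/

namespace Pool.Agent.P.MP_8b7eba_nt.R1

open Complex Filter Topology MeasureTheory Metric Finset Asymptotics PowerSeries
open scoped Real UpperHalfPlane MatrixGroups ComplexConjugate
open _root_.Pool.Agent.P.MP_8b7eba_nt.Mod (M2 G0 FI L0 om lv xx yy qq UH atI ex mT)
open BSD15 (OO Good cls gch gJ nm cj rho lam Adm B3 B5 No4 Xp XJ Rn)
open MP_9c97e9_nt (Pt pm Is)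

/-- indices of the upper triangular representatives -/
def IntR (m : ℕ) : Finset (ℕ × ℕ × ℕ) :=
  (range (m + 1) ×ˢ range (m + 1) ×ˢ range (m + 1)).filter
    fun t => t.1 * t.2.2 = m ∧ t.2.1 < t.2.2

/-- the upper triangular representatives -/
def IntM (t : ℕ × ℕ × ℕ) : M2 := ⟨t.1, t.2.1, 0, t.2.2⟩

theorem Int_mem {m : ℕ} (hm : 0 < m) {t : ℕ × ℕ × ℕ} :
    t ∈ IntR m ↔ t.1 * t.2.2 = m ∧ t.2.1 < t.2.2 := by
  rw [IntR, mem_filter]
  refine ⟨fun h => h.2, fun h => ⟨?_, h⟩⟩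
  have h1 := Nat.le_of_dvd hm ⟨_, h.1.symm⟩
  have h2 := Nat.le_of_dvd hm (Dvd.intro_left _ h.1)
  simp only [mem_product, mem_range]
  omega

theorem Int_det {m : ℕ} (hm : 0 < m) {t : ℕ × ℕ × ℕ} (ht : t ∈ IntR m) : (IntM t).det = m := by
  simp only [IntM, M2.det, mul_zero, sub_zero]
  exact_mod_cast ((Int_mem hm).1 ht).1

theorem Int_exists {m : ℕ} (hm : 0 < m) (h15 : m.Coprime 15) {M : M2} (hM : M.det = m)
    (hc : 15 ∣ M.c) : ∃ t ∈ IntR m, ∃ γ, G0 γ ∧ M = γ * IntM t := by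
  obtain ⟨h, A, B, C, hh, hA, hC, -, hAC, e⟩ := Mod.exists_upper (g := M) (by omega)
  have hr := Int.emod_nonneg B hC.ne'
  have hr' := Int.emod_lt_of_pos B hC
  have h1 : (15 : ℤ) ∣ h.c := by
    have h2 := congrArg M2.c e
    simp only [Mod.M2.mul_c, mul_zero, add_zero] at h2
    have h3 : IsCoprime (15 : ℤ) (A * C) := by
      rw [hAC, hM]; exact (Nat.isCoprime_iff_coprime.2 h15).symm
    exact h3.of_mul_right_left.dvd_of_dvd_mul_right (h2 ▸ hc)
  refine ⟨(A.toNat, (B % C).toNat, C.toNat), (Int_mem hm).2 ⟨?_, by simp only; omega⟩,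
    h * mT (B / C), Mod.G0.mul ⟨hh, h1⟩ (Mod.G0_mT _), ?_⟩
  · zify
    rw [Int.toNat_of_nonneg hA.le, Int.toNat_of_nonneg hC.le, hAC, hM]
  · rw [e, mul_assoc]
    congr 1
    have := Int.emod_add_ediv_mul B C
    ext <;> simp [IntM, mT, hA.le, hC.le, hr, this]

theorem Int_inj {m : ℕ} (hm : 0 < m) {t t' : ℕ × ℕ × ℕ} (ht : t ∈ IntR m) (ht' : t' ∈ IntR m)
    {γ : M2} (hγ : γ.det = 1) (h : IntM t = γ * IntM t') : t = t' := by
  obtain ⟨a, b, d⟩ := t
  obtain ⟨a', b', d'⟩ := t'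
  obtain ⟨h1, h2⟩ := (Int_mem hm).1 ht
  obtain ⟨h1', h2'⟩ := (Int_mem hm).1 ht'
  simp only at h1 h2 h1' h2'
  have ha := congrArg M2.a h
  have hb := congrArg M2.b h
  have hc := congrArg M2.c h
  have hd := congrArg M2.d h
  simp only [IntM, Mod.M2.mul_a, Mod.M2.mul_b, Mod.M2.mul_c, Mod.M2.mul_d, mul_zero,
    add_zero] at ha hb hc hd
  have a0 : 0 < a := Nat.pos_of_ne_zero (by rintro rfl; omega)
  have a0' : 0 < a' := Nat.pos_of_ne_zero (by rintro rfl; omega)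
  have c0 : γ.c = 0 := (mul_eq_zero.1 hc.symm).resolve_right (by omega)
  rw [M2.det, c0, mul_zero, sub_zero] at hγ
  rcases Int.eq_one_or_neg_one_of_mul_eq_one' hγ with ⟨e1, e2⟩ | ⟨e1, e2⟩
  · rw [e1] at ha hb
    rw [e2, c0] at hd
    have e3 : d = d' := by omega
    subst e3
    have e4 : γ.b = 0 := by
      have h3 : (b : ℤ) < d := by exact_mod_cast h2
      have h4 : (b' : ℤ) < d := by exact_mod_cast h2'
      rcases lt_trichotomy γ.b 0 with h | h | h
      · nlinarith [Int.natCast_nonneg b]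
      · exact h
      · nlinarith [Int.natCast_nonneg b']
    rw [e4] at hb
    rw [show a = a' by omega, show b = b' by omega]
  · rw [e1] at ha
    omega

theorem Int_inv {m : ℕ} (hm : 0 < m) (h15 : m.Coprime 15) {g : M2} (hg : G0 g) {z : ℂ}
    (hz : 0 < z.im) : ∏ t ∈ IntR m, (xx (g.act z) - xx ((IntM t).act (g.act z))) =
      ∏ t ∈ IntR m, (xx z - xx ((IntM t).act z)) := by
  have hd : ∀ t ∈ IntR m, 0 < (IntM t).det := fun t ht => by rw [Int_det hm ht]; omega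
  have key : ∀ t ∈ IntR m, ∃ t' ∈ IntR m, ∃ γ, G0 γ ∧ IntM t * g = γ * IntM t' := fun t ht =>
    Int_exists hm h15 (by rw [Mod.M2.det_mul, Int_det hm ht, hg.1, mul_one])
      (by simpa [IntM] using hg.2.mul_left _)
  choose σ hσ γ hγ e using key
  have hinj : ∀ i hi k hk, σ i hi = σ k hk → i = k := by
    intro i hi k hk h
    refine Int_inj hm hi hk (γ := γ i hi * (γ k hk).adj) ((hγ i hi).mul (hγ k hk).adj).1 ?_
    have := e k hk
    rw [← h] at this
    calc IntM i = IntM i * g * g.adj := by rw [mul_assoc, Mod.M2.mul_adj hg.1, mul_one]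
      _ = γ i hi * ((γ k hk).adj * (γ k hk * IntM (σ i hi))) * g.adj := by
        rw [e, ← mul_assoc (γ k hk).adj, Mod.M2.adj_mul_self (hγ k hk).1, one_mul]
      _ = _ := by
        rw [← this, mul_assoc, mul_assoc, mul_assoc, Mod.M2.mul_adj hg.1, mul_one, mul_assoc]
  refine prod_bij σ hσ hinj (fun k hk => ?_) fun i hi => ?_
  · obtain ⟨i, hi, h⟩ := surj_on_of_inj_on_of_card_le σ hσ (fun i k hi hk => hinj i hi k hk)
      le_rfl k hk
    exact ⟨i, hi, h.symm⟩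
  · rw [Mod.xx_inv g hg z hz, ← Mod.M2.act_mul (hd i hi).ne' hg.det_pos hz, e i hi,
      Mod.M2.act_mul (hγ i hi).det_pos.ne' (hd _ (hσ i hi)) hz,
      Mod.xx_inv _ (hγ i hi) _ (Mod.M2.im_act_pos (hd _ (hσ i hi)) hz)]

theorem Int_exp {m : ℕ} (hm : Squarefree m) (h1 : 1 < m) {t : ℕ × ℕ × ℕ} (ht : t ∈ IntR m) :
    ∃ (N : ℕ) (T : Zb⟦X⟧), 0 < N ∧ IsUnit (constantCoeff T) ∧
      QE m N T fun z => xx z - xx ((IntM t).act z) := by
  obtain ⟨a, b, d⟩ := t
  obtain ⟨h2, h3⟩ := (Int_mem (by omega)).1 ht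
  simp only at h2 h3
  have a0 : 0 < a := Nat.pos_of_ne_zero (by rintro rfl; omega)
  obtain ⟨A, hA, hx⟩ := exists_xx
  have q1 := hx.expand_one (w := m) (by omega)
  have q2 := (hx.subst (w := m) (e := a * a) (b : ℤ) a0 (show 0 < d by omega) (by omega)
    (by positivity) (by rw [← h2]; ring)).congr (H := fun z => xx ((IntM (a, b, d)).act z))
    fun z _ => by simp [IntM, M2.act, Mod.mob]
  have c0 : constantCoeff (zs A) = 1 := by
    rw [← coeff_zero_eq_constantCoeff_apply, coeff_map, coeff_zero_eq_constantCoeff_apply, hA,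
      map_one]
  rcases lt_trichotomy m (a * a) with h | h | h
  · have q3 := q1.shift (a * a * 2 - m * 2)
    rw [show m * 2 + (a * a * 2 - m * 2) = a * a * 2 by omega] at q3
    refine ⟨_, _, by omega, ?_, q3.sub q2⟩
    rw [map_sub, map_mul, map_mul, map_pow, constantCoeff_X, zero_pow (by omega), zero_mul,
      zero_sub, constantCoeff_C, constantCoeff_expand, ← coeff_zero_eq_constantCoeff_apply,
      coeff_rescale, coeff_zero_eq_constantCoeff_apply, c0, pow_zero, mul_one, mul_one]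
    exact (isUnit_ze _ _).neg
  · have := Nat.isUnit_iff.1 (hm a ⟨1, by omega⟩)
    subst this
    omega
  · have q3 := q2.shift (m * 2 - a * a * 2)
    rw [show a * a * 2 + (m * 2 - a * a * 2) = m * 2 by omega] at q3
    refine ⟨_, _, by omega, ?_, q1.sub q3⟩
    rw [map_sub, map_mul, map_pow, constantCoeff_X, zero_pow (by omega), zero_mul, sub_zero,
      constantCoeff_expand, c0]
    exact isUnit_one

theorem intPt_of_fix {m : ℕ} (hm : Squarefree m) (h1 : 1 < m) (h15 : m.Coprime 15) {M : M2}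
    (hM : M.det = m) (hc : 15 ∣ M.c) {z : ℂ} (hz : 0 < z.im) (h : M.act z = z) : IntPt z := by
  have m0 : 0 < m := by omega
  have hd : ∀ t ∈ IntR m, 0 < (IntM t).det := fun t ht => by rw [Int_det m0 ht]; omega
  choose! N T hN hT hq using fun t (ht : t ∈ IntR m) => Int_exp hm h1 ht
  obtain ⟨t₀, ht₀, γ, hγ, e⟩ := Int_exists m0 h15 hM hc
  have q := QE.prod m0 (IntR m) hq
  have hi : ∀ g, G0 g → ∀ z : ℂ, 0 < z.im →
      (fun z => ∏ t ∈ IntR m, (xx z - xx ((IntM t).act z))) (g.act z) =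
        (fun z => ∏ t ∈ IntR m, (xx z - xx ((IntM t).act z))) z :=
    fun g hg z hz => Int_inv m0 h15 hg hz
  have hp : ∀ z : ℂ, 0 < z.im → (fun z => ∏ t ∈ IntR m, (xx z - xx ((IntM t).act z))) (z + 1) =
      (fun z => ∏ t ∈ IntR m, (xx z - xx ((IntM t).act z))) z := fun z hz => by
    have := hi _ (Mod.G0_mT 1) z hz
    rwa [Mod.act_mT, Int.cast_one] at this
  have hu : IsUnit (coeff 0 (∏ t ∈ IntR m, T t)) := by
    rw [coeff_zero_eq_constantCoeff_apply, map_prod]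
    exact IsUnit.prod_iff.2 hT
  obtain ⟨k, hk⟩ := q.dvd_of_periodic m0 hp hu.ne_zero
  have k0 : 0 < k := Nat.pos_of_ne_zero (by
    rintro rfl
    have := (sum_eq_zero_iff.1 hk) t₀ ht₀
    have := hN t₀ ht₀
    omega)
  rw [hk] at q
  refine qp_int (HB.prod _ fun t ht => hb_xx.sub (hb_xx.comp (hd t ht) ?_ (by simp [IntM]))) hi
    (q.periodic m0 hp).2 k0 (by rwa [coeff_mk, mul_zero]) hz (prod_eq_zero ht₀ ?_)
  · rw [Int_det m0 ht]
    exact Nat.isCoprime_iff_coprime.2 h15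
  · rw [← Mod.xx_inv γ hγ _ (Mod.M2.im_act_pos (hd _ ht₀) hz),
      ← Mod.M2.act_mul hγ.det_pos.ne' (hd _ ht₀) hz, ← e, h, sub_self]

theorem intPt_ht {n : ℕ} [Good n] {ρ : ℤ} (hd : HD n ρ) (c : ClassGroup (OO n)) :
    IntPt (ht n ρ c) := by
  have hn : Good n := inferInstance
  obtain ⟨hQ, -, -⟩ := hq_spec hd c
  have hz := hQ.im_pos
  have h0 := QF.tau_root hQ.2 hQ.disc_neg
  have hD := hQ.1.1
  have hM : (M2.mk (-(hq n ρ c).B) (-2 * (hq n ρ c).C) (2 * (hq n ρ c).A) (hq n ρ c).B).det =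
      n := by
    simp only [M2.det, QF.disc] at hD ⊢
    linear_combination -hD
  refine intPt_of_fix hn.sq (by have := hn.gt; omega) hd.cop hM (hQ.1.2.1.mul_left _) hz ?_
  rw [ht, Mod.M2.act_eq, div_eq_iff (Mod.M2.j_ne (by have := hn.gt; omega) hz)]
  simp only [M2.j]
  push_cast
  linear_combination -2 * h0

end Pool.Agent.P.MP_8b7eba_nt.R1
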