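import Pool.Agent.P.MP_8b7eba_nt.R1.Exp

/-! The function on the Shimura covering and the discriminant. -/

namespace Pool.Agent.P.MP_8b7eba_nt.R1

open Complex Filter Topology MeasureTheory Metric Finset Asymptotics PowerSeries
open scoped Real UpperHalfPlane MatrixGroups ComplexConjugate
open _root_.Pool.Agent.P.MP_8b7eba_nt.Mod (M2 G0 FI L0 om lv xx yy qq UH atI ex mT)
open BSD15 (OO Good cls gch gJ nm cj rho lam Adm B3 B5 No4 Xp XJ Rn)
open MP_9c97e9_nt (Pt pm Is)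

variable {z : ℂ} {g : M2}

theorem v1_ne (hz : 0 < z.im) : v1 z ≠ 0 :=
  div_ne_zero (mul_ne_zero (mul_ne_zero (Mod.eta_ne hz) (pow_ne_zero _ (Mod.eta_ne (Mod.im3 hz))))
    (Mod.eta_ne (Mod.im5 hz))) (pow_ne_zero _ (Mod.eta_ne (Mod.im15 hz)))

theorem xx_ne (hz : 0 < z.im) : xx z ≠ 0 :=
  div_ne_zero (mul_ne_zero (Mod.eta_ne (Mod.im3 hz)) (pow_ne_zero _ (Mod.eta_ne (Mod.im5 hz))))
    (mul_ne_zero (Mod.eta_ne hz) (pow_ne_zero _ (Mod.eta_ne (Mod.im15 hz))))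

theorem U8_ne (hz : 0 < z.im) : U8 z ≠ 0 :=
  pow_ne_zero _ (mul_ne_zero (pow_ne_zero _ (v1_ne hz)) (xx_ne hz))

theorem Dl_ne (hz : 0 < z.im) : Dl z ≠ 0 := pow_ne_zero _ (Mod.eta_ne hz)

theorem V1_e24_pow (k : ℤ) (n : ℕ) : Mod.e24 k ^ n = Mod.e24 (n * k) := by
  induction n with
  | zero => simp [Mod.e24_zero]
  | succ n ih => rw [pow_succ, ih, ← Mod.e24_add]; congr 1; push_cast; ring

theorem V1_key (k l m n t : ℤ) (h : (24 : ℤ) ∣ k + 2 * l + m - (t + 4 * n)) (r a b c d : ℂ)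
    (hr : r ≠ 0) :
    Mod.e24 k * r * a * (Mod.e24 l * r * b) ^ 2 * (Mod.e24 m * r * c) / (Mod.e24 n * r * d) ^ 4 =
      Mod.e24 t * (a * b ^ 2 * c / d ^ 4) := by
  have h5 := Mod.e24_congr h
  have h2 := V1_e24_pow l 2
  have h4 := V1_e24_pow n 4
  rw [Nat.cast_ofNat] at h2 h4
  rw [Mod.e24_add, Mod.e24_add, Mod.e24_add, ← h2, ← h4] at h5
  have h6 : Mod.e24 n ^ 4 * r ^ 4 ≠ 0 :=
    mul_ne_zero (pow_ne_zero _ (Mod.e24_ne _)) (pow_ne_zero _ hr)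
  rw [← mul_div_assoc, ← mul_div_mul_left (Mod.e24 t * (a * b ^ 2 * c)) _ h6]
  congr 1
  · linear_combination r ^ 4 * a * b ^ 2 * c * h5
  · ring

theorem V1_gens : ∀ g ∈ Mod.gens,
    ((g.a % 5 = 1 ∨ g.a % 5 = 4) ∧
      (24 : ℤ) ∣ Mod.m15 g 1 + 2 * Mod.m15 g 3 + Mod.m15 g 5 - (0 + 4 * Mod.m15 g 15)) ∨
    ((g.a % 5 = 2 ∨ g.a % 5 = 3) ∧
      (24 : ℤ) ∣ Mod.m15 g 1 + 2 * Mod.m15 g 3 + Mod.m15 g 5 - (12 + 4 * Mod.m15 g 15)) := by
  decide +kernel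

theorem V1_jac_mul {h : M2} (hh : G0 h) (g : M2) :
    jacobiSym (g * h).a 5 = jacobiSym g.a 5 * jacobiSym h.a 5 := by
  rw [← jacobiSym.mul_left]
  obtain ⟨k, hk⟩ := hh.2
  refine jacobiSym.mod_left' (Int.ModEq.symm (Int.modEq_iff_dvd.2 ⟨g.b * 3 * k, ?_⟩))
  rw [Mod.M2.mul_a, hk]
  push_cast
  ring

theorem v1_act (hg : G0 g) (hz : 0 < z.im) : v1 (g.act z) = jacobiSym g.a 5 * v1 z := by
  refine Mod.g0_ind (P := fun g => ∀ z : ℂ, 0 < z.im → v1 (g.act z) = jacobiSym g.a 5 * v1 z)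
    ?_ ?_ ?_ ?_ ?_ g hg z hz
  · intro g h h1 h2 h3 h4 z hz
    rw [Mod.M2.act_mul h1.det_pos.ne' h2.det_pos hz, h3 _ (Mod.M2.im_act_pos h2.det_pos hz),
      h4 z hz, V1_jac_mul h2]
    push_cast
    ring
  · intro g h1 h2 z hz
    have h3 := h2 _ (Mod.M2.im_act_pos h1.adj.det_pos hz)
    rw [← Mod.M2.act_mul h1.det_pos.ne' h1.adj.det_pos hz, Mod.M2.mul_adj h1.1,
      Mod.M2.act_one] at h3
    have h4 := V1_jac_mul h1 g.adj
    rw [Mod.M2.adj_mul_self h1.1, Mod.M2.one_a, jacobiSym.one_left] at h4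
    have h5 : (jacobiSym g.adj.a 5 : ℂ) * jacobiSym g.a 5 = 1 := by exact_mod_cast h4.symm
    rw [h3, ← mul_assoc, h5, one_mul]
  · intro z _
    have : jacobiSym (-1 : M2).a 5 = 1 := by
      rw [Mod.M2.neg_a, Mod.M2.one_a]; norm_num
    rw [this, Mod.M2.act_neg, Mod.M2.act_one, Int.cast_one, one_mul]
  · intro z _
    obtain ⟨h1, h2, h3, h4⟩ := Mod.four_T z
    have : jacobiSym (mT 1).a 5 = 1 := jacobiSym.one_left 5
    rw [this, Mod.act_mT, Int.cast_one, one_mul]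
    unfold v1
    rw [h1, h2, h3, h4]
    have := V1_key 1 3 5 15 0 (by norm_num) 1 (ModularForm.eta z) (ModularForm.eta (3 * z))
      (ModularForm.eta (5 * z)) (ModularForm.eta (15 * z)) one_ne_zero
    simpa only [mul_one, Mod.e24_zero, one_mul] using this
  · intro g hg z hz
    obtain ⟨r, hr, -, h1, h2, h3, h4⟩ := Mod.four_eta hg hz
    unfold v1
    rw [h1, h2, h3, h4, jacobiSym.mod_left g.a 5]
    rcases V1_gens g hg with ⟨h5, h6⟩ | ⟨h5, h6⟩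
    · rw [V1_key _ _ _ _ _ h6 _ _ _ _ _ hr, Mod.e24_zero]
      have : jacobiSym (g.a % (5 : ℕ)) 5 = 1 := by
        rw [Nat.cast_ofNat]
        rcases h5 with h | h <;> rw [h] <;> norm_num
      rw [this, Int.cast_one]
    · rw [V1_key _ _ _ _ _ h6 _ _ _ _ _ hr, Mod.e24_twelve]
      have : jacobiSym (g.a % (5 : ℕ)) 5 = -1 := by
        rw [Nat.cast_ofNat]
        rcases h5 with h | h <;> rw [h] <;> norm_num
      rw [this, Int.cast_neg, Int.cast_one]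

theorem jac_G0 (hg : G0 g) : jacobiSym g.a 5 ^ 2 = 1 := by
  obtain ⟨k, hk⟩ := hg.2
  have h := hg.1
  rw [M2.det, hk] at h
  exact jacobiSym.sq_one (Int.isCoprime_iff_gcd_eq_one.1
    ⟨g.d, -(g.b * 3 * k), by push_cast; linear_combination h⟩)

theorem V1_diff : DifferentiableOn ℂ v1 UH :=
  ((Mod.diff_eta.mul ((Mod.diff_eta_mul 3 (by norm_num)).pow 2)).mul
    (Mod.diff_eta_mul 5 (by norm_num))).div ((Mod.diff_eta_mul 15 (by norm_num)).pow 4)
    fun _ hz => pow_ne_zero _ (Mod.eta_ne (Mod.im15 hz))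

theorem V1_theta (hg : g.det = 1) (hc : ¬ (15 : ℤ) ∣ g.c) : (fun z => v1 (g.act z)) =Θ[atI]
    ex (if Int.gcd 5 g.c = 5 then 0 else if Int.gcd 3 g.c = 3 then 1 / 5 else 1 / 15) := by
  apply Mod.theta_of_sq
  have := (((Mod.eta_mul_theta hg 1 one_pos).mul
    ((Mod.eta_mul_theta hg 3 (by norm_num)).pow 2)).mul (Mod.eta_mul_theta hg 5 (by norm_num))).div
      ((Mod.eta_mul_theta hg 15 (by norm_num)).pow 4)
  refine (EventuallyEq.trans_isTheta ?_ this).trans_eventuallyEq (.of_forall fun z => ?_)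
  · filter_upwards [Mod.ev_im 0] with z hz
    have := norm_pos_iff.2 (Mod.M2.j_ne (g := g) (by omega) hz)
    simp [v1]
    field_simp
  · simp only [Mod.ex_pow, div_eq_mul_inv, ← Mod.ex_neg, ← Mod.ex_add]
    have h1 := Int.gcd_dvd_right 15 g.c
    rcases Mod.wd_cases g with h | h | h | h <;> simp [h] <;> norm_num
    rw [h.2.2.1] at h1
    exact absurd h1 hc

theorem V1_theta_xx (hg : g.det = 1) (hc : ¬ (15 : ℤ) ∣ g.c) : (fun z => xx (g.act z)) =Θ[atI]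
    ex (if Int.gcd 5 g.c = 5 then 2 / 3 else 0) := by
  apply Mod.theta_of_sq
  have := ((Mod.eta_mul_theta hg 3 (by norm_num)).mul
    ((Mod.eta_mul_theta hg 5 (by norm_num)).pow 5)).div ((Mod.eta_mul_theta hg 1 one_pos).mul
      ((Mod.eta_mul_theta hg 15 (by norm_num)).pow 5))
  refine (EventuallyEq.trans_isTheta ?_ this).trans_eventuallyEq (.of_forall fun z => ?_)
  · filter_upwards [Mod.ev_im 0] with z hz
    have := norm_pos_iff.2 (Mod.M2.j_ne (g := g) (by omega) hz)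
    simp [xx]
    field_simp
  · simp only [Mod.ex_pow, div_eq_mul_inv, ← Mod.ex_neg, ← Mod.ex_add]
    have h1 := Int.gcd_dvd_right 15 g.c
    rcases Mod.wd_cases g with h | h | h | h <;> simp [h] <;> norm_num
    rw [h.2.2.1] at h1
    exact absurd h1 hc

theorem hb_v1 : HB v1 := by
  refine ⟨V1_diff, fun g hg hc => ?_⟩
  refine ((V1_theta hg hc).1.trans (Mod.ex_isBigO (s := 0) ?_)).congr_right fun z => ?_
  · split_ifs <;> norm_num
  · simp [Mod.ex_zero]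

theorem kf_v1 : KF 1 v1 := by
  obtain ⟨A, -, hA⟩ := exists_v1
  exact ⟨hb_v1, fun g hg z hz => by rw [pow_one]; exact v1_act hg hz, 2, A, hA⟩

theorem U8_act (hg : G0 g) (hz : 0 < z.im) : U8 (g.act z) = U8 z := by
  have h : (jacobiSym g.a 5 : ℂ) ^ 2 = 1 := by exact_mod_cast jac_G0 hg
  unfold U8
  rw [v1_act hg hz, Mod.xx_inv g hg z hz, mul_pow (jacobiSym g.a 5 : ℂ), h, one_mul]

theorem U8_decay (hg : g.det = 1) (hc : ¬ (15 : ℤ) ∣ g.c) :
    (fun z => U8 (g.act z)) =O[atI] ex 1 := by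
  have h := (((V1_theta hg hc).1.pow 2).mul (V1_theta_xx hg hc).1).pow 8
  simp only [Mod.ex_pow, ← Mod.ex_add] at h
  refine h.trans (Mod.ex_isBigO ?_)
  split_ifs <;> norm_num

theorem diff_U8 : DifferentiableOn ℂ U8 UH := ((V1_diff.pow 2).mul Mod.diff_xx).pow 8

theorem diff_Dl : DifferentiableOn ℂ Dl UH := Mod.diff_eta.pow 24

theorem V1_Dl_T (z : ℂ) (n : ℤ) : Dl (z + n) = Dl z := by
  unfold Dl
  rw [Mod.eta_T, mul_pow, V1_e24_pow, Nat.cast_ofNat, Mod.e24_mul24, one_mul]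

theorem V1_Dl_S (hz : 0 < z.im) : Dl (Mod.mS.act z) = Mod.mS.j z ^ 12 * Dl z := by
  obtain ⟨r, hr⟩ := Mod.exists_rt (w := -I * z) (by simpa using hz)
  have h2 : Mod.mS.act z = -1 / z := by simp [Mod.mS, M2.act, Mod.mob]
  have h3 : Mod.mS.j z = z := by simp [Mod.mS, M2.j]
  have h4 : r ^ 24 = z ^ 12 := by
    rw [show r ^ 24 = ((r ^ 2) ^ 4) ^ 3 by ring, hr.1, mul_pow, neg_pow, I_pow_four]
    ring
  unfold Dl
  rw [h2, h3, Mod.eta_S hz hr, mul_pow, h4]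

theorem Dl_act (hg : g.det = 1) (hz : 0 < z.im) : Dl (g.act z) = g.j z ^ 12 * Dl z := by
  refine Mod.sl2_ind (P := fun g => ∀ z : ℂ, 0 < z.im → Dl (g.act z) = g.j z ^ 12 * Dl z)
    ?_ ?_ ?_ g hg z hz
  · intro z _
    rw [Mod.M2.act_one, Mod.M2.j_one, one_pow, one_mul]
  · intro g hg ih z hz
    have h1 : (0 : ℤ) < Mod.mS.det := one_pos
    rw [Mod.M2.act_mul (by omega) h1 hz, Mod.M2.j_mul _ h1.ne' hz, ih _ (Mod.M2.im_act_pos h1 hz),
      V1_Dl_S hz]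
    ring
  · intro g hg
    have h1 : (0 : ℤ) < (mT 1).det := one_pos
    have key : ∀ z : ℂ, 0 < z.im → (Dl ((g * mT 1).act z) = (g * mT 1).j z ^ 12 * Dl z ↔
        Dl (g.act (z + (1 : ℤ))) = g.j (z + (1 : ℤ)) ^ 12 * Dl (z + (1 : ℤ))) := fun z hz => by
      rw [Mod.M2.act_mul (by omega) h1 hz, Mod.M2.j_mul _ h1.ne' hz, Mod.act_mT, Mod.j_mT,
        V1_Dl_T, mul_one]
    constructor
    · intro ih z hz
      exact (key z hz).2 (ih _ (by simpa using hz))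
    · intro ih z hz
      have hz' : 0 < (z - (1 : ℤ)).im := by simpa using hz
      have := (key _ hz').1 (ih _ hz')
      rwa [sub_add_cancel] at this

theorem Dl_theta : Dl =Θ[atI] ex 1 := by
  rw [← isTheta_norm_left]
  refine (EventuallyEq.trans_isTheta (.of_forall fun z => ?_)
    (Mod.eta_theta.pow 24)).trans_eventuallyEq (.of_forall fun z => ?_)
  · exact norm_pow _ _
  · simp only [Mod.ex_pow]
    norm_num

end Pool.Agent.P.MP_8b7eba_nt.R1
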