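import Pool.Agent.P.MP_8b7eba_nt.R1.Sym
import Pool.Agent.P.MP_8b7eba_nt.R1.V1

/-! The Kronecker congruence. -/

namespace Pool.Agent.P.MP_8b7eba_nt.R1

open Complex Filter Topology MeasureTheory Metric Finset Asymptotics PowerSeries
open scoped Real UpperHalfPlane MatrixGroups ComplexConjugate
open _root_.Pool.Agent.P.MP_8b7eba_nt.Mod (M2 G0 FI L0 om lv xx yy qq UH atI ex mT)
open BSD15 (OO Good cls gch gJ nm cj rho lam Adm B3 B5 No4 Xp XJ Rn)
open MP_9c97e9_nt (Pt pm Is)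

variable {p : ℕ} {M : M2} {z : ℂ}

theorem kro_psi_left {γ : M2} (hγ : γ.det = 1) (hM : 0 < M.det) (hz : 0 < z.im) :
    psi p (γ * M) z = psi p M z := by
  have h1 := M2.im_act_pos hM hz
  have h2 := M2.j_ne (g := γ) (by omega) h1
  have h3 := M2.j_ne hM.ne' hz
  have h4 := Dl_ne hz
  rw [psi, psi, M2.act_mul (by omega) hM hz, Dl_act hγ h1, M2.j_mul _ hM.ne' hz]
  field_simp

theorem kro_psi_right {g : M2} (hg : g.det = 1) (hM : 0 < M.det) (hz : 0 < z.im) :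
    psi p M (g.act z) = psi p (M * g) z := by
  rw [psi, psi, M2.act_mul hM.ne' (by omega) hz, M2.j_mul _ (by omega) hz, Dl_act hg hz, mul_pow,
    mul_assoc]

theorem kro_al_c (p i : ℕ) : (Mod.al p i).c = 0 := by unfold Mod.al; split_ifs <;> rfl

theorem kro_sym (hp : p.Prime) (h30 : p.Coprime 30) {P : Ideal Zb} (hP : P.IsRadical)
    (T : M2 → ℂ → ℂ)
    (hl : ∀ γ M : M2, G0 γ → M.det = p → 15 ∣ M.c → ∀ z, 0 < z.im → T (γ * M) z = T M z)
    (hr : ∀ g M : M2, G0 g → M.det = p → ∀ z, 0 < z.im → T M (g.act z) = T (M * g) z)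
    (hb : ∀ M : M2, M.det = p → 15 ∣ M.c → HB (T M))
    (hq : ∀ i, ∃ N A, QE p N A (T (Mod.al p i)) ∧ ∀ k, coeff k A ∈ P)
    (hM : M.det = p) (hc : 15 ∣ M.c) (hz : 0 < z.im) (hx : IntPt z) : InP P (T M z) := by
  have h15 : ¬ p ∣ 15 := fun h => hp.coprime_iff_not_dvd.1 h30 (h.trans (by norm_num))
  have hc0 : ∀ i, 15 ∣ (Mod.al p i).c := fun i => by rw [kro_al_c]; exact dvd_zero _
  obtain ⟨i, hi, γ, hγ, rfl⟩ := Mod.exists_al hp hM hc fun h => absurd h h15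
  rw [hl _ _ hγ (Mod.det_al p i) (hc0 i) z hz]
  refine sym_principle hp.pos (Mod.hI p) (fun i => T (Mod.al p i)) hP
    (fun i _ => hb _ (Mod.det_al p i) (hc0 i)) (fun i _ => hq i) (fun g hg => ?_) hz hx i hi
  have key : ∀ i, ∃ k ∈ Mod.hI p, ∃ γ', G0 γ' ∧ Mod.al p i * g = γ' * Mod.al p k := fun i =>
    Mod.exists_al hp (by rw [M2.det_mul, Mod.det_al, hg.1, mul_one])
      (dvd_add ((hc0 i).mul_right _) (hg.2.mul_left _)) fun h => absurd h h15
  choose σ hσ u hu e using key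
  refine ⟨σ, ((Mod.hI p).finite_toSet.injOn_iff_bijOn_of_mapsTo fun i _ => hσ i).1
    fun i hi k hk h => ?_, fun i _ z hz => ?_⟩
  · refine Mod.al_inj hp hi hk (γ := u i * (u k).adj) ?_
    have := e k
    rw [← h] at this
    calc Mod.al p i = Mod.al p i * g * g.adj := by rw [mul_assoc, M2.mul_adj hg.1, mul_one]
      _ = u i * ((u k).adj * (u k * Mod.al p (σ i))) * g.adj := by
        rw [e, ← mul_assoc (u k).adj, M2.adj_mul_self (hu k).1, one_mul]
      _ = _ := by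
        rw [← this, mul_assoc, mul_assoc, mul_assoc, M2.mul_adj hg.1, mul_one, mul_assoc]
  · rw [hr _ _ hg (Mod.det_al p i) z hz, e, hl _ _ (hu i) (Mod.det_al p _) (hc0 _) z hz]

theorem kro_hb (hM : 0 < M.det) : HB fun z => U8 z * psi p M z := by
  refine ⟨diff_U8.mul (((Mod.diff_act hM diff_Dl).const_mul _).div
    (((M2.differentiable_j M).differentiableOn.pow 12).mul diff_Dl) fun z hz =>
      mul_ne_zero (pow_ne_zero _ (M2.j_ne hM.ne' hz)) (Dl_ne hz)), fun g hg hc => ?_⟩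
  have h0 : 0 < (M * g).det := by rwa [M2.det_mul, hg, mul_one]
  obtain ⟨h, A, B, C, hh, hA, hC, -, -, e⟩ := Mod.exists_upper h0
  have hu : 0 < (M2.mk A B 0 C).det := by simp [M2.det]; positivity
  have h1 : (fun z => Dl ((M2.mk A B 0 C).act z)) =O[atI] fun _ => (1 : ℝ) :=
    ((Dl_theta.1.trans_tendsto (Mod.tendsto_ex one_pos)).comp
      (Mod.tendsto_upper hA hC)).isBigO_one ℝ
  have h2 := ((U8_decay hg hc).mul (h1.mul Dl_theta.inv.1)).const_mul_left ((p : ℂ) ^ 12 / C ^ 12)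
  refine h2.congr' ?_ (.of_forall fun z => ?_)
  · filter_upwards [Mod.ev_im 0] with z hz
    rw [kro_psi_right hg hM hz, e, kro_psi_left hh hu hz, psi]
    simp only [M2.j, Int.cast_zero, zero_mul, zero_add]
    ring
  · simp [(Mod.ex_pos 1 z).ne']

theorem kro_lo (hp : 0 < p) {N i : ℕ} {A : Zb⟦X⟧} {G : ℂ → ℂ} (h : QE 1 N A G) (hi : i < p) :
    QE p N (C (ze p (-(N * i))) * rescale (ze p i) A) fun z => G ((Mod.al p i).act z) := by
  have := h.subst (a := 1) (d := p) (e := 1) (w := p) i one_pos hp hp one_ne_zero rfl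
  rw [one_mul, expand_one_apply] at this
  exact this.congr fun z _ => by simp [Mod.al, hi, M2.act, Mod.mob]

theorem kro_ex (hp : 0 < p) {N : ℕ} {A : Zb⟦X⟧} {G : ℂ → ℂ} (h : QE 1 N A G) (i : ℕ) :
    ∃ N' A', QE p N' A' fun z => G ((Mod.al p i).act z) := by
  by_cases hi : i < p
  · exact ⟨_, _, kro_lo hp h hi⟩
  · exact ⟨_, _, (h.subst (a := p) (d := 1) (e := p * p) (w := p) 0 hp one_pos hp
      (mul_pos hp hp).ne' (mul_one _).symm).congr fun z _ => by simp [Mod.al, hi, M2.act, Mod.mob]⟩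

theorem kro_base (hp : 0 < p) (i : ℕ) : ∃ N A, QE p N A fun z =>
    U8 z * (Dl ((Mod.al p i).act z) * (Dl z)⁻¹) := by
  obtain ⟨A, hA⟩ := exists_U8
  obtain ⟨B, D, hB, hD⟩ := exists_Dl
  obtain ⟨N, E, hE⟩ := kro_ex hp hB i
  exact ⟨_, _, (hA.expand_one hp.ne').mul hp (hE.mul hp (hD.expand_one hp.ne'))⟩

theorem kro_psi_lo (hp : 0 < p) {i : ℕ} (hi : i < p) (z : ℂ) :
    psi p (Mod.al p i) z = Dl ((Mod.al p i).act z) * (Dl z)⁻¹ := by
  have h : (p : ℂ) ^ 12 ≠ 0 := pow_ne_zero _ (by exact_mod_cast hp.ne')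
  have e : (Mod.al p i).j z = p := by simp [Mod.al, hi, M2.j]
  rw [psi, e, mul_div_mul_left _ _ h, div_eq_mul_inv]

theorem kro_psi_hi {i : ℕ} (hi : ¬ i < p) (z : ℂ) :
    psi p (Mod.al p i) z = p ^ 12 * (Dl ((Mod.al p i).act z) * (Dl z)⁻¹) := by
  have e : (Mod.al p i).j z = 1 := by simp [Mod.al, hi, M2.j]
  rw [psi, e, one_pow, one_mul, div_eq_mul_inv, mul_assoc]

theorem kro_int (hp : p.Prime) (h30 : p.Coprime 30) (hM : M.det = p) (hc : 15 ∣ M.c)
    (hz : 0 < z.im) (hx : IntPt z) : IsIntegral ℤ (U8 z * psi p M z) := by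
  have h0 : ∀ M : M2, M.det = p → 0 < M.det := fun M h => by rw [h]; exact_mod_cast hp.pos
  refine InP.top.1 (kro_sym hp h30 (P := ⊤) (fun _ _ => trivial) (fun M z => U8 z * psi p M z)
    (fun γ M hγ h _ z hz => by rw [kro_psi_left hγ.1 (h0 M h) hz])
    (fun g M hg h z hz => by rw [kro_psi_right hg.1 (h0 M h) hz, U8_act hg hz])
    (fun M h _ => kro_hb (h0 M h)) (fun i => ?_) hM hc hz hx)
  obtain ⟨N, A, hA⟩ := kro_base hp.pos i
  by_cases hi : i < p
  · exact ⟨_, _, hA.congr fun z _ => by rw [kro_psi_lo hp.pos hi], fun _ => trivial⟩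
  · exact ⟨_, _, (hA.smul (p ^ 12)).congr fun z _ => by rw [kro_psi_hi hi]; push_cast; ring,
      fun _ => trivial⟩

theorem kro_jac {a b c : ℤ} (h : 15 ∣ c) : jacobiSym (a * b + c) 5 = jacobiSym a 5 * jacobiSym b 5 := by
  rw [← jacobiSym.mul_left]
  exact jacobiSym.mod_left' (by push_cast; omega)

theorem kro_frob (hp : p.Prime) {P : Ideal Zb} (hP : P.IsPrime) (hpP : (p : Zb) ∈ P) (a b : ℤ)
    (A : ℤ⟦X⟧) : PowerSeries.map (Ideal.Quotient.mk P)
      ((C (ze p a) * rescale (ze p b) (zs A)) ^ p - expand p hp.ne_zero (zs A)) = 0 := by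
  have h1 : ∀ a, Ideal.Quotient.mk P (ze p a) = 1 := fun a =>
    (Ideal.Quotient.eq.2 (ze_sub_one_mem hp hP hpP a)).trans (map_one _)
  have : CharP (Zb ⧸ P) p := ringChar.of_eq (CharP.ringChar_of_prime_eq_zero hp
    (by rw [← map_natCast (Ideal.Quotient.mk P)]; exact Ideal.Quotient.eq_zero_iff_mem.2 hpP))
  have : ExpChar (Zb ⧸ P) p := ExpChar.prime hp
  have h2 : PowerSeries.map (Ideal.Quotient.mk P) (rescale (ze p b) (zs A)) =
      PowerSeries.map (Ideal.Quotient.mk P) (zs A) := by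
    ext k; simp [coeff_rescale, h1]
  have h3 : PowerSeries.map (frobenius (Zb ⧸ P) p)
      (expand p hp.ne_zero (PowerSeries.map (Ideal.Quotient.mk P) (zs A))) =
      PowerSeries.map (Ideal.Quotient.mk P) (zs A) ^ p :=
    MvPowerSeries.map_frobenius_expand p hp.ne_zero
  rw [map_sub, map_pow, map_mul, map_C, h1, map_one, one_mul, h2, ← h3, map_expand, map_expand,
    sub_eq_zero]
  congr 1
  ext k
  simp

theorem kro (hp : p.Prime) (h30 : p.Coprime 30) {P : Ideal Zb} (hP : P.IsPrime)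
    (hpP : (p : Zb) ∈ P) {e : ℕ} {f : ℂ → ℂ} (hf : KF e f) (hM : M.det = p) (hc : 15 ∣ M.c)
    (hz : 0 < z.im) (hx : IntPt z) :
    InP P (U8 z * psi p M z * v1 z ^ e *
      (((jacobiSym M.a 5 : ℂ) ^ e * f (M.act z)) ^ p - f z)) := by
  have h0 : ∀ M : M2, M.det = p → 0 < M.det := fun M h => by rw [h]; exact_mod_cast hp.pos
  have hs : ∀ g, G0 g → ((jacobiSym g.a 5 : ℂ) ^ e) ^ 2 = 1 := fun g hg => by
    rw [← pow_mul, mul_comm, pow_mul, ← Int.cast_pow, jac_G0 hg]; simp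
  have hodd : Odd p := (Nat.Coprime.of_dvd_right (by norm_num : 2 ∣ 30) h30).odd_of_right
  refine kro_sym hp h30 hP.isRadical (fun M z => U8 z * psi p M z * v1 z ^ e *
      (((jacobiSym M.a 5 : ℂ) ^ e * f (M.act z)) ^ p - f z))
    (fun γ M hγ h hc z hz => ?_) (fun g M hg h z hz => ?_) (fun M h hc => ?_) (fun i => ?_)
    hM hc hz hx
  · rw [kro_psi_left hγ.1 (h0 M h) hz, M2.act_mul hγ.det_pos.ne' (h0 M h) hz,
      hf.inv _ hγ _ (M2.im_act_pos (h0 M h) hz), M2.mul_a, kro_jac (hc.mul_left _)]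
    congr 3
    push_cast
    linear_combination (jacobiSym M.a 5 : ℂ) ^ e * f (M.act z) * hs γ hγ
  · obtain ⟨k, hk⟩ := hodd
    have h1 : ((jacobiSym g.a 5 : ℂ) ^ e) ^ p = (jacobiSym g.a 5 : ℂ) ^ e := by
      rw [hk, pow_succ, pow_mul, hs g hg, one_pow, one_mul]
    rw [kro_psi_right hg.1 (h0 M h) hz, U8_act hg hz, v1_act hg hz, hf.inv _ hg _ hz,
      M2.act_mul (h0 M h).ne' hg.det_pos hz, M2.mul_a, kro_jac (hg.2.mul_left _)]
    simp only [Int.cast_mul, mul_pow, h1]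
    linear_combination -(U8 z * psi p (M * g) z * v1 z ^ e * f z) * hs g hg
  · refine ((kro_hb (h0 M h)).mul (hb_v1.pow e)).mul
      ((((HB.const _).mul (hf.hb.comp (h0 M h) ?_ hc)).pow p).sub hf.hb)
    rw [h]
    exact Nat.isCoprime_iff_coprime.2 (Nat.Coprime.of_dvd_right (by norm_num : 15 ∣ 30) h30)
  · obtain ⟨N, A, hA⟩ := kro_base hp.pos i
    obtain ⟨B, -, hB⟩ := exists_v1
    obtain ⟨K, D, hD⟩ := hf.exp
    have h1 := hA.mul hp.pos ((hB.expand_one hp.ne_zero).pow hp.pos e)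
    have h2 := hD.expand_one hp.ne_zero
    by_cases hi : i < p
    · refine ⟨_, _, (h1.mul hp.pos (((kro_lo hp.pos hD hi).pow hp.pos p).sub h2)).congr
        fun z _ => ?_, fun k => ?_⟩
      · rw [kro_psi_lo hp.pos hi]
        simp [Mod.al, hi]
      · rw [← Ideal.Quotient.eq_zero_iff_mem, ← coeff_map, map_mul, kro_frob hp hP hpP, mul_zero,
          map_zero]
    · obtain ⟨L, E, hE⟩ := kro_ex hp.pos hD i
      have h3 := ((hE.smul ((jacobiSym (Mod.al p i).a 5 : Zb) ^ e)).pow hp.pos p).shift (p * K)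
      have h4 := h2.shift (p * L)
      rw [add_comm] at h4
      refine ⟨_, _, ((h1.mul hp.pos (h3.sub h4)).smul (p ^ 12)).congr fun z _ => ?_, fun k => ?_⟩
      · rw [kro_psi_hi hi]; push_cast; ring
      · rw [coeff_C_mul]
        exact P.mul_mem_right _ (P.pow_mem_of_mem hpP 12 (by norm_num))

end Pool.Agent.P.MP_8b7eba_nt.R1
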