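import Pool.Agent.P.MP_8b7eba_nt.R1.V1

/-! The equation of the Shimura covering. -/

namespace Pool.Agent.P.MP_8b7eba_nt.R1

open Complex Filter Topology MeasureTheory Metric Finset Asymptotics PowerSeries
open scoped Real UpperHalfPlane MatrixGroups ComplexConjugate
open _root_.Pool.Agent.P.MP_8b7eba_nt.Mod (M2 G0 FI L0 om lv xx yy qq UH atI ex mT)
open BSD15 (OO Good cls gch gJ nm cj rho lam Adm B3 B5 No4 Xp XJ Rn)
open MP_9c97e9_nt (Pt pm Is)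

namespace V2A

open _root_.Pool.Agent.P.MP_8b7eba_nt.Mod

noncomputable def WW : ℤ⟦X⟧ := PP 1 * PP 3 ^ 2 * PP 5

noncomputable def Wf (q : ℂ) : ℂ := Pf 1 q * Pf 3 q ^ 2 * Pf 5 q

noncomputable def Nv : ℤ⟦X⟧ :=
  WW ^ 2 * MM ^ 2 * FF - PP 15 ^ 8 * (Mod.NN ^ 2 * FF + 2 * X * KK + 9 * X ^ 4 * MM ^ 2 * FF)

noncomputable def Nvf (q : ℂ) : ℂ := Wf q ^ 2 * Mf q ^ 2 * Ff q -
  Pf 15 q ^ 8 * (Nf q ^ 2 * Ff q + 2 * q * Kf q + 9 * q ^ 4 * Mf q ^ 2 * Ff q)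

theorem rep_Wf : Rep Wf WW :=
  ((rep_Pf one_pos).mul ((rep_Pf (by norm_num)).pow 2)).mul (rep_Pf (by norm_num))

theorem rep_Nvf : Rep Nvf Nv :=
  (((rep_Wf.pow 2).mul (rep_Mf.pow 2)).mul rep_Ff).sub (((rep_Pf (by norm_num)).pow 8).mul
    ((((rep_Nf.pow 2).mul rep_Ff).add (((Rep.nat 2).mul Rep.id').mul rep_Kf)).add
      ((((Rep.nat 9).mul (Rep.id'.pow 4)).mul (rep_Mf.pow 2)).mul rep_Ff)))

theorem WW_dvd : X ^ 7 ∣ WW - (1 - X - X ^ 2 - 2 * X ^ 3 + 2 * X ^ 4 + 2 * X ^ 5) := by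
  have h0 := mk_X7
  rw [← mk_eq]
  simp only [WW, map_mul, mk_eq.2 PP_one, mk_eq.2 PP_three, mk_eq.2 PP_five, map_sub, map_add,
    map_pow, map_one, map_ofNat]
  generalize Ideal.Quotient.mk (Ideal.span {(X ^ 7 : ℤ⟦X⟧)}) X = e at h0 ⊢
  linear_combination (2 + e - 5 * e ^ 3 - 2 * e ^ 4 - e ^ 7 + 2 * e ^ 8 + 3 * e ^ 9 + e ^ 11
    - e ^ 12 - e ^ 15) * h0

theorem KK_dvd : X ^ 7 ∣ KK - (-2 + 3 * X + 4 * X ^ 2 - X ^ 3 - 23 * X ^ 5 + 6 * X ^ 6) := by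
  have h0 := mk_X7
  have h1 := theta_dvd NN_dvd
  have h2 := theta_dvd MM_dvd
  have e1 : X * d⁄dX ℤ (1 - X ^ 3 - C 5 * X ^ 5 - X ^ 6 : ℤ⟦X⟧) =
      -3 * X ^ 3 - 25 * X ^ 5 - 6 * X ^ 6 := by
    simp only [map_sub, Derivation.leibniz, derivative_pow, derivative_C, derivative_one,
      derivative_X, smul_eq_mul]
    rw [show (C 5 : ℤ⟦X⟧) = 5 from rfl]
    push_cast
    ring
  have e2 : X * d⁄dX ℤ (1 - X - X ^ 2 + X ^ 5 : ℤ⟦X⟧) = -X - 2 * X ^ 2 + 5 * X ^ 5 := by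
    simp only [map_sub, map_add, derivative_pow, derivative_one, derivative_X]
    push_cast
    ring
  rw [e1] at h1
  rw [e2] at h2
  have h3 := NN_dvd
  rw [show (C 5 : ℤ⟦X⟧) = 5 from rfl] at h3
  rw [← mk_eq, KK]
  generalize X * d⁄dX ℤ Mod.NN = A at h1
  generalize X * d⁄dX ℤ MM = B at h2
  simp only [map_mul, mk_eq.2 h1, mk_eq.2 h2, mk_eq.2 h3, mk_eq.2 MM_dvd, map_sub,
    map_add, map_neg, map_pow, map_one, map_ofNat]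
  generalize Ideal.Quotient.mk (Ideal.span {(X ^ 7 : ℤ⟦X⟧)}) X = e at h0 ⊢
  linear_combination (8 + 6 * e + 10 * e ^ 3 + e ^ 4) * h0

theorem Nv_dvd : X ^ 7 ∣ Nv := by
  have h0 := mk_X7
  have h3 := NN_dvd
  rw [show (C 5 : ℤ⟦X⟧) = 5 from rfl] at h3
  rw [← sub_zero Nv, ← mk_eq, Nv]
  simp only [map_mul, mk_eq.2 WW_dvd, mk_eq.2 KK_dvd, mk_eq.2 h3, mk_eq.2 MM_dvd, mk_eq.2 FF_dvd,
    mk_eq.2 PP_fifteen, map_sub, map_add, map_neg, map_pow, map_one, map_ofNat, map_zero]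
  generalize Ideal.Quotient.mk (Ideal.span {(X ^ 7 : ℤ⟦X⟧)}) X = e at h0 ⊢
  linear_combination (-8 + 50 * e + 52 * e ^ 2 - 98 * e ^ 3 - 100 * e ^ 4 + 80 * e ^ 5
    + 220 * e ^ 6 + 76 * e ^ 7 - 180 * e ^ 8 - 204 * e ^ 9 - 28 * e ^ 10 + 130 * e ^ 11
    + 116 * e ^ 12 - 4 * e ^ 13 - 56 * e ^ 14 - 36 * e ^ 15 + 12 * e ^ 17 + 4 * e ^ 18) * h0

theorem v1_eq (z : ℂ) : v1 z = Wf (qq z) / (qq z ^ 2 * Pf 15 (qq z) ^ 4) := by
  obtain ⟨h1, h2, h3, h4⟩ := four_q z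
  have h0 : cexp (2 * π * I * z / 24) ^ 12 ≠ 0 := pow_ne_zero _ (Complex.exp_ne_zero _)
  have e := exp24 z
  rw [v1, h1, h2, h3, h4, Wf, ← mul_div_mul_left (Pf 1 _ * _ * _) _ h0]
  generalize cexp (2 * π * I * z / 24) = t at e ⊢
  generalize Pf 1 (qq z) = a, Pf 3 (qq z) = b, Pf 5 (qq z) = c, Pf 15 (qq z) = d
  rw [← e]
  congr 1 <;> ring

noncomputable def HH (z : ℂ) : ℂ := v1 z ^ 2 - (xx z ^ 2 + 2 * yy z + 9)

theorem HH_eq {z : ℂ} (hz : 0 < z.im) : HH z =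
    Nvf (qq z) / (qq z ^ 4 * (Pf 15 (qq z) ^ 8 * Mf (qq z) ^ 2 * Ff (qq z))) := by
  have h2 := Pf_ne (δ := 15) (by norm_num) hz
  have h3 := Mf_ne hz
  have h4 := qq_ne z
  have h5 := Ff_ne hz
  have h6 := two_pi_I_ne
  rw [HH, v1_eq, yy, deriv_xx hz, ff_eq, xx_eq, Nvf]
  generalize (2 * π * I : ℂ) = t at h6
  field_simp

theorem tendsto_HH : Tendsto HH atI (𝓝 0) := by
  obtain ⟨B, hB⟩ := Nv_dvd
  obtain ⟨Ψ, h1, h2⟩ := Rep.div_X_pow 7 (hB ▸ rep_Nvf)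
  have h3 := rep_Mf.tendsto.comp tendsto_qq
  have h4 := rep_Ff.tendsto.comp tendsto_qq
  have h5 := (rep_Pf (δ := 15) (by norm_num)).tendsto.comp tendsto_qq
  rw [const_MM] at h3
  rw [const_FF] at h4
  rw [const_of_dvd PP_fifteen] at h5
  have := ((tendsto_qq.pow 3).mul (h1.tendsto.comp tendsto_qq)).div
    (((h5.pow 8).mul (h3.pow 2)).mul h4) (by simp)
  rw [zero_pow three_ne_zero, zero_mul, zero_div] at this
  refine this.congr' ?_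
  filter_upwards [ev_im 0] with z hz
  have h4 := qq_ne z
  rw [HH_eq hz, h2]
  simp only [Pi.div_apply, Function.comp]
  field_simp

theorem yy_eq (z : ℂ) : yy z = -2 * y1 z - xx z := by
  rw [y1]
  ring

theorem hb_HH : HB HH :=
  ((hb_v1.pow 2).sub (((hb_xx.pow 2).add ((HB.const 2).mul
    (((HB.const (-2)).mul hb_y1).sub hb_xx))).add (HB.const 9))).congr fun z _ => by
      rw [HH, yy_eq]

theorem HH_inv (g : M2) (hg : G0 g) (z : ℂ) (hz : 0 < z.im) : HH (g.act z) = HH z := by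
  have h : (jacobiSym g.a 5 : ℂ) ^ 2 = 1 := by exact_mod_cast jac_G0 hg
  rw [HH, v1_act hg hz, xx_inv g hg z hz, yy_inv hg hz, mul_pow, h, one_mul, HH]

theorem HH_zero {z : ℂ} (hz : 0 < z.im) : HH z = 0 := by
  obtain ⟨c, hc⟩ := const_of_weight_zero hb_HH.hol HH_inv fun g hg => by
    by_cases h : (15 : ℤ) ∣ g.c
    · refine (tendsto_HH.isBigO_one ℝ).congr' ?_ .rfl
      filter_upwards [ev_im 0] with z hz using (HH_inv g ⟨hg, h⟩ z hz).symm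
    · exact hb_HH.bd g hg h
  have : Tendsto HH atI (𝓝 c) := tendsto_const_nhds.congr' (by
    filter_upwards [ev_im 0] with z hz using (hc z hz).symm)
  rw [hc z hz, tendsto_nhds_unique this tendsto_HH]

end V2A

theorem v1_sq {z : ℂ} (hz : 0 < z.im) : v1 z ^ 2 = xx z ^ 2 + 2 * yy z + 9 :=
  sub_eq_zero.1 (V2A.HH_zero hz)

theorem IntPt.int_v1 {z : ℂ} (hz : 0 < z.im) (h : IntPt z) : IsIntegral ℤ (v1 z) := by
  refine IsIntegral.of_pow two_pos ?_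
  have c : ∀ k : ℤ, IsIntegral ℤ (k : ℂ) := fun k => isIntegral_intCast k
  have := ((h.1.pow 2).add ((c 2).mul (((c (-2)).mul h.2).sub h.1))).add (c 9)
  rw [v1_sq hz, V2A.yy_eq]
  exact_mod_cast this

theorem IntPt.int_U8 {z : ℂ} (hz : 0 < z.im) (h : IntPt z) : IsIntegral ℤ (U8 z) :=
  (((h.int_v1 hz).pow 2).mul h.1).pow 8

end Pool.Agent.P.MP_8b7eba_nt.R1
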