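import Pool.Agent.P.MP_8b7eba_nt.R1.HM
import Pool.Agent.P.MP_8b7eba_nt.R1.Kro
import Pool.Agent.P.MP_8b7eba_nt.R1.Int
import Pool.Agent.P.MP_8b7eba_nt.R1.V2

/-! The Frobenius congruences for Heegner points. -/

namespace Pool.Agent.P.MP_8b7eba_nt.R1

open Complex Filter Topology MeasureTheory Metric Finset Asymptotics PowerSeries
open scoped Real UpperHalfPlane MatrixGroups ComplexConjugate
open _root_.Pool.Agent.P.MP_8b7eba_nt.Mod (M2 G0 FI L0 om lv xx yy qq UH atI ex mT)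
open BSD15 (OO Good cls gch gJ nm cj rho lam Adm B3 B5 No4 Xp XJ Rn)
open MP_9c97e9_nt (Pt pm Is)

theorem FP_prod {ι : Type} {P : Ideal Zb} (hP : P.IsPrime) (s : Finset ι) {f : ι → ℂ}
    (hi : ∀ i, IsIntegral ℤ (f i)) : InP P (∏ i ∈ s, f i) ↔ ∃ i ∈ s, InP P (f i) := by
  have e : ∏ i ∈ s, f i = ((∏ i ∈ s, (⟨f i, hi i⟩ : Zb) : Zb) : ℂ) := by simp
  rw [e, InP.coe, Ideal.IsPrime.prod_mem_iff]
  exact exists_congr fun i => and_congr_right fun _ => (InP.coe (z := ⟨f i, hi i⟩)).symm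

theorem FP_pow {P : Ideal Zb} (hP : P.IsPrime) {a : ℂ} (ha : IsIntegral ℤ a) {k : ℕ}
    (h : InP P (a ^ k)) : InP P a :=
  (InP.coe (z := ⟨a, ha⟩)).2 (hP.mem_of_pow_mem k (InP.coe.1 h))

theorem FP_key {p : ℕ} (hp : p.Prime) (h30 : p.Coprime 30) {P : Ideal Zb} (hP : P.IsPrime)
    (hpP : (p : Zb) ∈ P) {e : ℕ} {f : ℂ → ℂ} (hf : KF e f) {M : M2} (hM : M.det = p)
    (hc : 15 ∣ M.c) {z : ℂ} (hz : 0 < z.im) (hx : IntPt z) (hU : ¬ InP P (U8 z * psi p M z))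
    (hv : ¬ InP P (v1 z)) (i1 : IsIntegral ℤ (f z)) (i2 : IsIntegral ℤ (f (M.act z))) :
    InP P (((jacobiSym M.a 5 : ℂ) ^ e * f (M.act z)) ^ p - f z) := by
  have h1 := kro_int hp h30 hM hc hz hx
  have h2 := hx.int_v1 hz
  refine (InP.of_mul hP (h1.mul (h2.pow e)) (((((isIntegral_intCast _).pow e).mul i2).pow p).sub i1)
    (kro hp h30 hP hpP hf hM hc hz hx)).resolve_left fun h => ?_
  exact (InP.of_mul hP h1 (h2.pow e) h).elim hU fun h3 => hv (FP_pow hP h2 h3)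

theorem FP_chi {p : ℕ} (h30 : p.Coprime 30) {M : M2} (hM : M.det = p) (hc : 15 ∣ M.c) :
    jacobiSym M.a 5 = 1 ∨ jacobiSym M.a 5 = -1 := by
  refine jacobiSym.eq_one_or_neg_one (BSD15.cfid_gcd Nat.prime_five fun h => ?_)
  have h1 : ((5 : ℕ) : ℤ) ∣ p := by
    rw [← hM, M2.det]
    exact dvd_sub (h.mul_right _) (Dvd.dvd.mul_left (dvd_trans (by norm_num) hc) _)
  have h2 := Nat.dvd_gcd (Int.natCast_dvd_natCast.1 h1) (by norm_num : 5 ∣ 30)
  rw [h30] at h2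
  omega

theorem FP_rt {p q : ℕ} (hp : p.Prime) (h2 : Odd p) (hq : Odd q) {P : Ideal Zb} (hP : P.IsPrime)
    (hpP : (p : Zb) ∈ P) : InP P (rt q ^ p - jacobiSym p q * rt q) := by
  have : Fact p.Prime := ⟨hp⟩
  have h1 : (p : ℤ) ∣ st q ^ (p / 2) - jacobiSym p q := by
    rw [← jac_st hq h2, ← jacobiSym.legendreSym.to_jacobiSym, ← ZMod.intCast_zmod_eq_zero_iff_dvd]
    push_cast
    rw [legendreSym.eq_pow, sub_self]
  have e : rt q ^ p - jacobiSym p q * rt q = rt q * ((st q ^ (p / 2) - jacobiSym p q : ℤ) : ℂ) := by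
    have h3 : rt q ^ p = rt q * (rt q ^ 2) ^ (p / 2) := by
      rw [← pow_mul, ← pow_succ', Nat.two_mul_div_two_add_one_of_odd h2]
    rw [h3, rt_sq]
    push_cast
    ring
  rw [e]
  exact InP.mul_left (isIntegral_rt q) ((HM_int hp hP hpP _).2 h1)

theorem frob_data {n : ℕ} [Good n] {ρ : ℤ} (hd : HD n ρ) : ∃ N : ℕ, ∀ p : ℕ, p.Prime → N < p →
    ∀ P : Ideal Zb, P.IsPrime → (p : Zb) ∈ P → InP P (omg n ^ p - omg n) →
    ∃ (α : ClassGroup (OO n)) (s : ClassGroup (OO n) → ℤ),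
      (∀ c, InP P (xx (ht n ρ c) ^ p - xx (ht n ρ (c * α))) ∧
        InP P (y1 (ht n ρ c) ^ p - y1 (ht n ρ (c * α))) ∧ (s c = 1 ∨ s c = -1) ∧
        InP P (v1 (ht n ρ c) ^ p - s c * v1 (ht n ρ (c * α)))) ∧
      (∀ q ∈ n.primeFactors, InP P (rt q ^ p - gch q α * rt q)) ∧
      ((∀ q ∈ n.primeFactors, gch q α = 1) → ∀ d d' : ClassGroup (OO n),
        ∏ c ∈ gen d, s c = ∏ c ∈ gen d', s c) := by
  obtain ⟨N, hN⟩ := hecke_data hd
  have hz := ht_im hd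
  have hx := intPt_ht hd
  choose N1 hN1 using fun c => exists_not_inP ((hx c).int_U8 (hz c)) (U8_ne (hz c))
  choose N2 hN2 using fun c => exists_not_inP ((hx c).int_v1 (hz c)) (v1_ne (hz c))
  refine ⟨N + 30 + ∑ c, N1 c + ∑ c, N2 c, fun p hp hp' P hP hpP h1 => ?_⟩
  have hU : ∀ c, ¬ InP P (U8 (ht n ρ c)) := fun c => hN1 c p hp (by
    have := single_le_sum (f := N1) (fun _ _ => Nat.zero_le _) (mem_univ c)
    omega) P hP hpP
  have hv : ∀ c, ¬ InP P (v1 (ht n ρ c)) := fun c => hN2 c p hp (by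
    have := single_le_sum (f := N2) (fun _ _ => Nat.zero_le _) (mem_univ c)
    omega) P hP hpP
  have h30 : p.Coprime 30 := (Nat.coprime_of_lt_prime (by norm_num) (by omega) hp)
  have hodd : Odd p := hp.odd_of_ne_two (by omega)
  obtain ⟨α, M, hM, hg, ⟨J, hJ, hJ', hJe⟩, hs⟩ := hN p hp (by omega) P hP hpP h1
  have hj : ∀ c, (M c).j (ht n ρ c) ≠ 0 := fun c =>
    M2.j_ne (by rw [(hM c).1]; exact_mod_cast hp.ne_zero) (hz c)
  have e1 : ∏ c, psi p (M c) (ht n ρ c) = J ^ 12 := by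
    have a1 : ∏ c, Dl (ht n ρ (c * α)) = ∏ c, Dl (ht n ρ c) :=
      Equiv.prod_comp (Equiv.mulRight α) fun c => Dl (ht n ρ c)
    have a2 : ∏ c, Dl (ht n ρ c) ≠ 0 := prod_ne_zero_iff.2 fun c _ => Dl_ne (hz c)
    have a3 : ∏ c, (M c).j (ht n ρ c) ≠ 0 := prod_ne_zero_iff.2 fun c _ => hj c
    simp only [psi, (hM _).2.2]
    rw [prod_div_distrib, prod_mul_distrib, prod_mul_distrib, a1, prod_pow, prod_pow, prod_const,
      card_univ, ← hJe]
    field_simp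
  have hi : ∀ c, IsIntegral ℤ (U8 (ht n ρ c) * psi p (M c) (ht n ρ c)) := fun c =>
    kro_int hp h30 (hM c).1 (hM c).2.1 (hz c) (hx c)
  have hU' : ∀ c, ¬ InP P (U8 (ht n ρ c) * psi p (M c) (ht n ρ c)) := fun c h => by
    have a1 := (FP_prod hP univ hi).2 ⟨c, mem_univ c, h⟩
    rw [prod_mul_distrib, e1] at a1
    rcases InP.of_mul hP (IsIntegral.prod _ fun c _ => (hx c).int_U8 (hz c)) (hJ.pow 12) a1 with a | a
    · obtain ⟨d, -, a⟩ := (FP_prod hP univ fun c => (hx c).int_U8 (hz c)).1 a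
      exact hU d a
    · exact hJ' (FP_pow hP hJ a)
  have key : ∀ {e : ℕ} {f : ℂ → ℂ}, KF e f → (∀ c, IsIntegral ℤ (f (ht n ρ c))) → ∀ c,
      InP P (((jacobiSym (M (c * α⁻¹)).a 5 : ℂ) ^ e * f (ht n ρ c)) ^ p - f (ht n ρ (c * α⁻¹))) := by
    intro e f hf h c
    have a1 := (hM (c * α⁻¹)).2.2
    rw [inv_mul_cancel_right] at a1
    have := FP_key hp h30 hP hpP hf (hM _).1 (hM _).2.1 (hz _) (hx _) (hU' (c * α⁻¹)) (hv _) (h _)
      (by rw [a1]; exact h c)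
    rwa [a1] at this
  refine ⟨α⁻¹, fun c => jacobiSym (M (c * α⁻¹)).a 5, fun c => ⟨?_, ?_, ?_, ?_⟩, fun q hq => ?_,
    fun h d d' => ?_⟩
  · simpa using key kf_xx (fun c => (hx c).1) c
  · simpa using key kf_y1 (fun c => (hx c).2) c
  · exact FP_chi h30 (hM _).1 (hM _).2.1
  · have a1 := key kf_v1 (fun c => (hx c).int_v1 (hz c)) c
    rcases FP_chi h30 (hM (c * α⁻¹)).1 (hM _).2.1 with h | h
    · simpa [h] using a1
    · have a2 := a1.neg
      simpa [h, hodd.neg_pow, add_comm] using a2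
  · rw [BSD15.gch_inv hq, hg q hq]
    refine FP_rt hp hodd (Odd.of_dvd_nat ?_ (Nat.dvd_of_mem_primeFactors hq)) hP hpP
    have := (inferInstance : Good n).h4
    exact Nat.odd_iff.2 (by omega)
  · rw [prod_gen_mul h d fun c => jacobiSym (M c).a 5, prod_gen_mul h d' fun c => jacobiSym (M c).a 5]
    exact hs (fun q hq => by rw [← BSD15.gch_inv hq, h q hq]) d d'

end Pool.Agent.P.MP_8b7eba_nt.R1
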