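import Pool.Agent.P.MP_8b7eba_nt.R1.Basic

/-! Ideals attached to binary quadratic forms. -/

namespace Pool.Agent.P.MP_8b7eba_nt.R1

open Complex Filter Topology MeasureTheory Metric Finset Asymptotics PowerSeries
open scoped Real UpperHalfPlane MatrixGroups ComplexConjugate
open _root_.Pool.Agent.P.MP_8b7eba_nt.Mod (M2 G0 FI L0 om lv xx yy qq UH atI ex mT)
open BSD15 (OO Good cls gch gJ nm cj rho lam Adm B3 B5 No4 Xp XJ Rn)
open MP_9c97e9_nt (Pt pm Is)

variable {n : ℕ} [Good n] {Q : QF} {g : M2}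

theorem FormA_odd (hD : Q.disc = -n) : ∃ k : ℤ, Q.B = 2 * k - 1 := by
  have h4 := (inferInstance : Good n).h4
  rcases Int.emod_two_eq_zero_or_one Q.B with h | h
  · obtain ⟨k, hk⟩ : 2 ∣ Q.B := by omega
    simp only [QF.disc, hk] at hD
    have : (2 * k) ^ 2 - 4 * Q.A * Q.C = 4 * (k ^ 2 - Q.A * Q.C) := by ring
    omega
  · exact ⟨(Q.B + 1) / 2, by omega⟩

omit [Good n] in
theorem FormA_bet {k : ℤ} (h : Q.B = 2 * k - 1) : Q.bet n = ⟨-k, 1⟩ := by
  rw [QF.bet, show (Q.B + 1) / 2 = k by omega]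

theorem FormA_A_ne (hD : Q.disc = -n) : Q.A ≠ 0 := fun h => by
  have := (inferInstance : Good n).gt
  simp only [QF.disc, h] at hD
  nlinarith [sq_nonneg Q.B]

theorem FormA_bez {a b c : ℤ} (h : ∀ d : ℤ, d ∣ a → d ∣ b → d ∣ c → d * d ∣ n) :
    ∃ u v w : ℤ, u * a + v * b + w * c = 1 := by
  have hs : Squarefree (n : ℤ) := Int.squarefree_natCast.2 (inferInstance : Good n).sq
  have h1 := hs _ (h (Int.gcd (Int.gcd a b) c)
    ((Int.gcd_dvd_left _ _).trans (Int.gcd_dvd_left _ _))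
    ((Int.gcd_dvd_left _ _).trans (Int.gcd_dvd_right _ _)) (Int.gcd_dvd_right _ _))
  have h2 : ((Int.gcd (Int.gcd a b) c : ℕ) : ℤ) = 1 := by
    rcases Int.isUnit_iff.1 h1 with h | h
    · exact h
    · omega
  rw [Int.gcd_eq_gcd_ab] at h2
  generalize Int.gcdA (Int.gcd a b) c = x at h2
  generalize Int.gcdB (Int.gcd a b) c = y at h2
  rw [Int.gcd_eq_gcd_ab] at h2
  exact ⟨Int.gcdA a b * x, Int.gcdB a b * x, y, by linear_combination h2⟩

theorem bet_norm (hD : Q.disc = -n) : (Q.bet n).norm = Q.A * Q.C := by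
  obtain ⟨k, hk⟩ := FormA_odd hD
  have h := BSD15.four_mul_norm (Q.bet n)
  rw [FormA_bet hk] at h ⊢
  simp only [QF.disc, hk] at hD h
  linarith

theorem bet_add_star (hD : Q.disc = -n) : Q.bet n + star (Q.bet n) = -(Q.B : OO n) := by
  obtain ⟨k, hk⟩ := FormA_odd hD
  rw [FormA_bet hk]
  ext
  · simp only [QuadraticAlgebra.re_add, QuadraticAlgebra.re_star, QuadraticAlgebra.re_neg,
      QuadraticAlgebra.re_intCast, Int.cast_id, hk]
    ring
  · simp

theorem FormA_mul_star (hD : Q.disc = -n) :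
    Q.bet n * star (Q.bet n) = (Q.A : OO n) * (Q.C : OO n) := by
  rw [← QuadraticAlgebra.algebraMap_norm_eq_mul_star, bet_norm hD]
  simp

theorem FormA_sq (hD : Q.disc = -n) :
    Q.bet n * Q.bet n = -(Q.B : OO n) * Q.bet n - (Q.A : OO n) * (Q.C : OO n) := by
  linear_combination Q.bet n * bet_add_star hD - FormA_mul_star hD

omit [Good n] in
theorem FormA_coord (Q : QF) (z : OO n) : ∃ x y : ℤ, z = x + y * Q.bet n :=
  ⟨z.re + z.im * ((Q.B + 1) / 2), z.im, by ext <;> simp [QF.bet]⟩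

omit [Good n] in
theorem FormA_A_mem (Q : QF) : (Q.A : OO n) ∈ Q.idl n := Ideal.subset_span (by simp)

omit [Good n] in
theorem FormA_bet_mem (Q : QF) : Q.bet n ∈ Q.idl n := Ideal.subset_span (by simp)

theorem mem_idl (hD : Q.disc = -n) {z : OO n} :
    z ∈ Q.idl n ↔ ∃ x y : ℤ, z = x * Q.A + y * Q.bet n := by
  rw [QF.idl, Ideal.mem_span_pair]
  refine ⟨fun ⟨r, s, h⟩ => ?_, fun ⟨x, y, h⟩ => ⟨x, y, h.symm⟩⟩
  obtain ⟨r₁, r₂, rfl⟩ := FormA_coord Q r
  obtain ⟨s₁, s₂, rfl⟩ := FormA_coord Q s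
  refine ⟨r₁ - s₂ * Q.C, r₂ * Q.A + s₁ - s₂ * Q.B, ?_⟩
  push_cast
  linear_combination -h + (s₂ : OO n) * FormA_sq hD

theorem FormA_cj (Q : QF) : cj (Q.idl n) = Ideal.span {(Q.A : OO n), star (Q.bet n)} := by
  rw [cj, QF.idl, Ideal.map_span, Set.image_pair, map_intCast]
  rfl

theorem FormA_mul_cj (hD : Q.disc = -n) : Q.idl n * cj (Q.idl n) = Ideal.span {(Q.A : OO n)} := by
  have hA := FormA_A_mem (n := n) Q
  have hb := FormA_bet_mem (n := n) Q
  have hA' : (Q.A : OO n) ∈ cj (Q.idl n) := by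
    rw [FormA_cj]; exact Ideal.subset_span (by simp)
  have hb' : star (Q.bet n) ∈ cj (Q.idl n) := by
    rw [FormA_cj]; exact Ideal.subset_span (by simp)
  apply le_antisymm
  · rw [FormA_cj, QF.idl, Ideal.span_pair_mul_span_pair, Ideal.span_le]
    rintro x (rfl | rfl | rfl | rfl)
    · exact Ideal.mem_span_singleton.2 (dvd_mul_right _ _)
    · exact Ideal.mem_span_singleton.2 (dvd_mul_right _ _)
    · exact Ideal.mem_span_singleton.2 (dvd_mul_left _ _)
    · exact Ideal.mem_span_singleton.2 ⟨_, FormA_mul_star hD⟩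
  · obtain ⟨u, v, w, h⟩ := FormA_bez (n := n) (a := Q.A) (b := Q.B) (c := Q.C)
      fun d ⟨a, ha⟩ ⟨b, hb⟩ ⟨c, hc⟩ => ⟨4 * a * c - b ^ 2, by
        simp only [QF.disc, ha, hb, hc] at hD; linear_combination hD⟩
    have h' : (u : OO n) * Q.A + v * Q.B + w * Q.C = 1 := by
      exact_mod_cast congrArg (Int.cast (R := OO n)) h
    rw [Ideal.span_singleton_le_iff_mem, show (Q.A : OO n) = u * (Q.A * Q.A) -
      v * (Q.A * star (Q.bet n)) - v * (Q.bet n * Q.A) + w * (Q.bet n * star (Q.bet n)) by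
        linear_combination -(Q.A : OO n) * h' + v * Q.A * bet_add_star hD - w * FormA_mul_star hD]
    exact Ideal.add_mem _ (Ideal.sub_mem _ (Ideal.sub_mem _
      (Ideal.mul_mem_left _ _ (Ideal.mul_mem_mul hA hA'))
      (Ideal.mul_mem_left _ _ (Ideal.mul_mem_mul hA hb')))
      (Ideal.mul_mem_left _ _ (Ideal.mul_mem_mul hb hA')))
      (Ideal.mul_mem_left _ _ (Ideal.mul_mem_mul hb hb'))

theorem nm_idl (hD : Q.disc = -n) : nm (Q.idl n) = Q.A.natAbs := by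
  have h := BSD15.nm_span (n := n) (Q.A : OO n)
  rw [← FormA_mul_cj hD, BSD15.nm_mul, BSD15.nm_cj, QuadraticAlgebra.norm_intCast] at h
  have h1 : nm (Q.idl n) * nm (Q.idl n) = Q.A.natAbs * Q.A.natAbs := by
    have := congrArg Int.natAbs h
    simpa [sq, Int.natAbs_mul] using this
  exact Nat.mul_self_inj.1 h1

theorem idl_ne_bot (Q : QF) : Q.idl n ≠ ⊥ := fun h => by
  have h1 := FormA_bet_mem (n := n) Q
  rw [h, Ideal.mem_bot] at h1
  simpa [QF.bet] using congrArg QuadraticAlgebra.im h1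

theorem idl_congr {A B B' C C' : ℤ} (h : 2 * A ∣ B - B') :
    QF.idl n ⟨A, B, C⟩ = QF.idl n ⟨A, B', C'⟩ := by
  obtain ⟨t, ht⟩ := h
  have e : QF.bet n ⟨A, B, C⟩ = QF.bet n ⟨A, B', C'⟩ + (A : OO n) * ((-t : ℤ) : OO n) := by
    rw [← Int.cast_mul]
    ext
    · simp only [QF.bet, QuadraticAlgebra.re_add, QuadraticAlgebra.re_intCast, Int.cast_id,
        mul_neg]
      rw [mul_assoc] at ht
      omega
    · simp [QF.bet]
  simp only [QF.idl]
  rw [e, Ideal.span_pair_add_left_mul]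

theorem idl_mul {A₁ A₂ B C : ℤ} (hD : QF.disc ⟨A₁ * A₂, B, C⟩ = -n) :
    QF.idl n ⟨A₁ * A₂, B, C⟩ = QF.idl n ⟨A₁, B, A₂ * C⟩ * QF.idl n ⟨A₂, B, A₁ * C⟩ := by
  have hs := FormA_sq hD
  have hA := FormA_A_mem (n := n) ⟨A₁ * A₂, B, C⟩
  have hb := FormA_bet_mem (n := n) ⟨A₁ * A₂, B, C⟩
  have h1 := FormA_A_mem (n := n) ⟨A₁, B, A₂ * C⟩
  have h2 := FormA_A_mem (n := n) ⟨A₂, B, A₁ * C⟩
  have b1 : QF.bet n ⟨A₁ * A₂, B, C⟩ ∈ _ := FormA_bet_mem (n := n) ⟨A₁, B, A₂ * C⟩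
  have b2 : QF.bet n ⟨A₁ * A₂, B, C⟩ ∈ _ := FormA_bet_mem (n := n) ⟨A₂, B, A₁ * C⟩
  simp only [Int.cast_mul] at hs hA h1 h2
  apply le_antisymm
  · obtain ⟨u, v, w, h⟩ := FormA_bez (n := n) (a := A₁) (b := A₂) (c := B)
      fun d ⟨a, ha⟩ ⟨b, hb⟩ ⟨c, hc⟩ => ⟨4 * a * b * C - c ^ 2, by
        simp only [QF.disc, ha, hb, hc] at hD; linear_combination hD⟩
    have h' : (u : OO n) * A₁ + v * A₂ + w * B = 1 := by
      exact_mod_cast congrArg (Int.cast (R := OO n)) h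
    rw [QF.idl, Ideal.span_le]
    rintro x (rfl | rfl)
    · simp only [Int.cast_mul]
      exact Ideal.mul_mem_mul h1 h2
    · generalize QF.bet n ⟨A₁ * A₂, B, C⟩ = b at hs b1 b2
      rw [show b = u * (A₁ * b) + v * (b * A₂) - w * (b * b) - w * C * (A₁ * A₂) by
        linear_combination -b * h' + w * hs]
      exact Ideal.sub_mem _ (Ideal.sub_mem _ (Ideal.add_mem _
        (Ideal.mul_mem_left _ _ (Ideal.mul_mem_mul h1 b2))
        (Ideal.mul_mem_left _ _ (Ideal.mul_mem_mul b1 h2)))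
        (Ideal.mul_mem_left _ _ (Ideal.mul_mem_mul b1 b2)))
        (Ideal.mul_mem_left _ _ (Ideal.mul_mem_mul h1 h2))
  · rw [QF.idl, QF.idl, Ideal.span_pair_mul_span_pair, Ideal.span_le]
    rintro x (rfl | rfl | rfl | rfl)
    · exact hA
    · exact Ideal.mul_mem_left _ _ hb
    · exact Ideal.mul_mem_right _ _ hb
    · exact Ideal.mul_mem_left _ _ hb

theorem FormA_two_bet (hD : Q.disc = -n) : 2 * Q.bet n = -(Q.B : OO n) + ⟨-1, 2⟩ := by
  obtain ⟨k, hk⟩ := FormA_odd hD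
  rw [FormA_bet hk, two_mul]
  ext
  · simp only [QuadraticAlgebra.re_add, QuadraticAlgebra.re_neg, QuadraticAlgebra.re_intCast,
      Int.cast_id, hk]
    ring
  · simp

theorem idl_cmp (hD : Q.disc = -n) (hg : g.det = 1) :
    Ideal.span {(g.c : OO n) * (Q.cmp g).bet n + (g.d : OO n) * ((Q.cmp g).A : OO n)} * Q.idl n =
      Ideal.span {(Q.A : OO n)} * (Q.cmp g).idl n := by
  have hD' : (Q.cmp g).disc = -n := by rw [QF.disc_cmp, hg, hD]; ring
  have h2 := FormA_two_bet hD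
  have h2' := FormA_two_bet hD'
  have hs := FormA_sq hD
  have hd : (g.a : OO n) * g.d - g.b * g.c = 1 := by
    exact_mod_cast congrArg (Int.cast (R := OO n)) hg
  have hA : ((Q.cmp g).A : OO n) = Q.A * g.a ^ 2 + Q.B * g.a * g.c + Q.C * g.c ^ 2 := by
    simp [QF.cmp, QF.ev]
  have hB : ((Q.cmp g).B : OO n) =
      2 * Q.A * g.a * g.b + Q.B * (g.a * g.d + g.b * g.c) + 2 * Q.C * g.c * g.d := by
    simp [QF.cmp]
  simp only [QF.idl]
  generalize Q.bet n = b at h2 hs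
  generalize (Q.cmp g).bet n = b' at h2'
  generalize ((Q.cmp g).A : OO n) = A' at hA
  have key : (g.c * b' + g.d * A') * b = Q.A * (g.a * b' + g.b * A') := by
    refine mul_left_cancel₀ (a := (2 : OO n)) two_ne_zero ?_
    have e : 2 * b' = 2 * b + Q.B - (Q.cmp g).B := by linear_combination h2' - h2
    rw [hB] at e
    rw [hA]
    linear_combination (g.c * b - Q.A * g.a) * e + 2 * g.c * hs +
      ((2 * Q.A * g.a + Q.B * g.c) * b + Q.A * (Q.B * g.a + 2 * Q.C * g.c)) * hd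
  have e : Ideal.span {g.c * b' + g.d * A', g.a * b' + g.b * A'} = Ideal.span {A', b'} := by
    apply le_antisymm
    · rw [Ideal.span_le]
      rintro x (rfl | rfl)
      · exact Ideal.mem_span_pair.2 ⟨g.d, g.c, by ring⟩
      · exact Ideal.mem_span_pair.2 ⟨g.b, g.a, by ring⟩
    · rw [Ideal.span_le]
      rintro x (rfl | rfl)
      · exact Ideal.mem_span_pair.2 ⟨g.a, -g.c, by linear_combination x * hd⟩
      · exact Ideal.mem_span_pair.2 ⟨-g.b, g.d, by linear_combination x * hd⟩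
  rw [← e, Ideal.span_mul_span', Ideal.span_mul_span', Set.singleton_mul, Set.singleton_mul,
    Set.image_pair, Set.image_pair, key, mul_comm]

theorem FormA_cls_span {z : OO n} (h : Ideal.span {z} ≠ ⊥) : cls (Ideal.span {z}) = 1 :=
  (BSD15.cls_eq_one_iff h).2 ⟨z, rfl⟩

theorem cls_cmp (hD : Q.disc = -n) (hg : g.det = 1) : cls ((Q.cmp g).idl n) = cls (Q.idl n) := by
  have h := idl_cmp hD hg
  have hA : Ideal.span {(Q.A : OO n)} ≠ ⊥ := by
    rw [Ne, Ideal.span_singleton_eq_bot, Int.cast_eq_zero]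
    exact FormA_A_ne hD
  have hm : Ideal.span {(g.c : OO n) * (Q.cmp g).bet n + (g.d : OO n) * ((Q.cmp g).A : OO n)} ≠
      ⊥ := fun e => by
    rw [e, Ideal.bot_mul] at h
    exact mul_ne_zero hA (idl_ne_bot _) h.symm
  have := congrArg cls h
  rw [BSD15.cls_mul hm (idl_ne_bot _), BSD15.cls_mul hA (idl_ne_bot _), FormA_cls_span hm,
    FormA_cls_span hA, one_mul, one_mul] at this
  exact this.symm

theorem cls_flip {A B C : ℤ} (hD : QF.disc ⟨A, B, C⟩ = -n) :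
    cls (QF.idl n ⟨C, B, A⟩) = (cls (QF.idl n ⟨A, B, C⟩))⁻¹ := by
  have hD' : QF.disc ⟨A * C, B, 1⟩ = -n := by
    simp only [QF.disc] at hD ⊢; linear_combination hD
  have h := idl_mul hD'
  rw [mul_one, mul_one] at h
  have h1 : QF.idl n ⟨A * C, B, 1⟩ = Ideal.span {QF.bet n ⟨A * C, B, 1⟩} := by
    have e := FormA_mul_star hD'
    rw [Int.cast_one, mul_one] at e
    rw [QF.idl, ← e]
    exact Ideal.span_pair_eq_span_right_iff_dvd.2 (dvd_mul_right _ _)
  have h2 : cls (QF.idl n ⟨A * C, B, 1⟩) = 1 :=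
    (BSD15.cls_eq_one_iff (idl_ne_bot _)).2 ⟨_, h1⟩
  rw [h, BSD15.cls_mul (idl_ne_bot _) (idl_ne_bot _)] at h2
  exact eq_inv_of_mul_eq_one_right h2

theorem cj_idl (hD : Q.disc = -n) : cj (Q.idl n) = QF.idl n ⟨Q.A, -Q.B, Q.C⟩ := by
  obtain ⟨k, hk⟩ := FormA_odd hD
  have e : star (Q.bet n) = -QF.bet n ⟨Q.A, -Q.B, Q.C⟩ := by
    rw [FormA_bet hk, FormA_bet (k := 1 - k) (by simp only [hk]; ring)]
    ext
    · simp only [QuadraticAlgebra.re_star, QuadraticAlgebra.re_neg]; ring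
    · simp
  rw [FormA_cj, e, Ideal.span_pair_neg, QF.idl]

theorem gch_idl {p : ℕ} (hp : p ∈ n.primeFactors) (hD : Q.disc = -n) :
    gch p (cls (Q.idl n)) = Xp n p Q.A.natAbs := by
  rw [BSD15.gch_cls hp (idl_ne_bot Q), nm_idl hD]

theorem gch_eq_chip {p : ℕ} (hp : p ∈ n.primeFactors) (hD : Q.disc = -n) (hA : 0 < Q.A) :
    gch p (cls (Q.idl n)) = Q.chip p := by
  have hpp := Nat.prime_of_mem_primeFactors hp
  have hd := Nat.dvd_of_mem_primeFactors hp
  have hp' : Prime (p : ℤ) := Nat.prime_iff_prime_int.1 hpp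
  have hp0 : (p : ℤ) ≠ 0 := hp'.ne_zero
  rw [gch_idl hp hD, QF.chip]
  split_ifs with h
  · obtain ⟨a, ha⟩ := h
    obtain ⟨m, hm⟩ := hd
    have hm' : (n : ℤ) = p * m := by exact_mod_cast hm
    have hnp : n / p = m := by rw [hm, Nat.mul_div_cancel_left _ hpp.pos]
    obtain ⟨b, hb⟩ : (p : ℤ) ∣ Q.B := hp'.dvd_of_dvd_pow (n := 2) ⟨4 * a * Q.C - m, by
      simp only [QF.disc, ha, hm'] at hD; linear_combination hD⟩
    have e : (m : ℤ) = 4 * (a * Q.C) - p * b ^ 2 := by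
      refine mul_left_cancel₀ hp0 ?_
      simp only [QF.disc, ha, hb, hm'] at hD
      linear_combination hD
    have ha0 : 0 < a := by
      by_contra h0
      nlinarith [Int.natCast_nonneg p]
    have hpa : ¬ p ∣ a.natAbs := fun h => by
      have h1 : (p : ℤ) ∣ m := e ▸ dvd_sub (((Int.natCast_dvd.2 h).mul_right _).mul_left _)
        (dvd_mul_right _ _)
      exact hpp.not_isUnit ((inferInstance : Good n).sq p
        (hm ▸ mul_dvd_mul_left p (Int.natCast_dvd_natCast.1 h1)))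
    have r := BSD15.genus_recip hp
    have e' : jacobiSym m p = jacobiSym a p * jacobiSym Q.C p := by
      rw [jacobiSym.mod_left' (a₂ := 4 * (a * Q.C)) (Int.modEq_iff_dvd.2 ⟨b ^ 2, by
        rw [e]; ring⟩), jacobiSym.mul_left, jacobiSym.mul_left,
        jacobiSym.at_four (Nat.odd_iff.2 (BSD15.genus_odd ⟨m, hm⟩)), one_mul]
    rw [hnp, e'] at r
    rw [ha, Int.natAbs_mul, Int.natAbs_natCast,
      BSD15.Xp_mul n hpp hpp.ne_zero (Int.natAbs_ne_zero.2 ha0.ne'), BSD15.genus_Xp_self n hpp,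
      BSD15.Xp_of_not_dvd n hpa, Int.natAbs_of_nonneg ha0.le, hnp]
    rcases jacobiSym.trichotomy Q.C p with h | h | h <;> rw [h] at r ⊢ <;> linarith
  · rw [BSD15.Xp_of_not_dvd n (mt Int.natCast_dvd.2 h), Int.natAbs_of_nonneg hA.le]

theorem gJ_idl {J : Finset ℕ} (hJ : J ⊆ n.primeFactors) (hD : Q.disc = -n) :
    gJ J (cls (Q.idl n)) = XJ n J Q.A.natAbs :=
  Finset.prod_congr rfl fun _ hp => gch_idl (hJ hp) hD

end Pool.Agent.P.MP_8b7eba_nt.R1
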