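import Pool.Agent.P.MP_29cb78_nt.C.Dens
import Pool.Agent.P.MP_29cb78_nt.Euler
import Pool.Agent.P.MP_8b7eba_nt.R1.Aut

/-! Frobenius elements of degree one primes generate the Galois group. -/

namespace Pool.Agent.P.MP_8b7eba_nt.R1

open Complex Filter Topology MeasureTheory Metric Finset Asymptotics PowerSeries
open scoped Real UpperHalfPlane MatrixGroups ComplexConjugate
open _root_.Pool.Agent.P.MP_8b7eba_nt.Mod (M2 G0 FI L0 om lv xx yy qq UH atI ex mT)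
open BSD15 (OO Good cls gch gJ nm cj rho lam Adm B3 B5 No4 Xp XJ Rn)
open MP_9c97e9_nt (Pt pm Is)

open NumberField in
/-- integers of a subfield as algebraic integers -/
noncomputable def frob_hom (L : IntermediateField ℚ ℂ) : 𝓞 L →+* Zb :=
  (L.val.toRingHom.comp (algebraMap (𝓞 L) L)).codRestrict (integralClosure ℤ ℂ).toSubring
    fun z => (RingOfIntegers.isIntegral_coe z).map (L.val.toRingHom.toIntAlgHom)

open NumberField in
theorem frob_hom_coe (L : IntermediateField ℚ ℂ) (z : 𝓞 L) :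
    ((frob_hom L z : Zb) : ℂ) = ((z : L) : ℂ) := rfl

open NumberField in
theorem frob_over (L : IntermediateField ℚ ℂ) (Q : Ideal (𝓞 L)) (hQ : Q.IsMaximal) :
    ∃ P : Ideal Zb, P.IsPrime ∧ ∀ z ∈ Q, frob_hom L z ∈ P := by
  let : Algebra (𝓞 L) Zb := (frob_hom L).toAlgebra
  have : Algebra.IsIntegral (𝓞 L) Zb := Algebra.IsIntegral.tower_top (R := ℤ)
  have hk : RingHom.ker (algebraMap (𝓞 L) Zb) ≤ Q := by
    intro z hz
    have h1 : ((z : L) : ℂ) = 0 := by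
      rw [← frob_hom_coe]
      exact congrArg Subtype.val (show frob_hom L z = 0 from hz)
    have h2 : z = 0 := by
      apply RingOfIntegers.ext
      exact_mod_cast h1
    rw [h2]
    exact Q.zero_mem
  obtain ⟨P, hP, hPQ⟩ := Ideal.exists_ideal_over_maximal_of_isIntegral (S := Zb) Q hk
  exact ⟨P, hP.isPrime, fun z hz => by rw [← hPQ] at hz; exact hz⟩

theorem frob_field (S : Finset ℂ) (hS : ∀ x ∈ S, IsIntegral ℤ x) :
    ∃ L : IntermediateField ℚ ℂ, NumberField L ∧ IsGalois ℚ L ∧ ∀ x ∈ S, x ∈ L := by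
  have hS' : ∀ x ∈ S, IsIntegral ℚ x := fun x hx => (hS x hx).tower_top
  let f : Polynomial ℚ := ∏ x ∈ S, minpoly ℚ x
  have hf : f ≠ 0 := Finset.prod_ne_zero_iff.2 fun x hx => minpoly.ne_zero (hS' x hx)
  let L := IntermediateField.adjoin ℚ (f.rootSet ℂ)
  have : f.IsSplittingField ℚ L :=
    IntermediateField.adjoin_rootSet_isSplittingField (IsAlgClosed.splits _)
  have : FiniteDimensional ℚ L := Polynomial.IsSplittingField.finiteDimensional L f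
  have : Normal ℚ L := Normal.of_isSplittingField f
  refine ⟨L, ⟨⟩, ⟨⟩, fun x hx => IntermediateField.subset_adjoin _ _ ?_⟩
  rw [Polynomial.mem_rootSet]
  refine ⟨hf, ?_⟩
  rw [map_prod]
  exact Finset.prod_eq_zero hx (minpoly.aeval ℚ x)

theorem frob_bound {ι : Type} [Finite ι] (a : ι → ℂ) (ha : ∀ i, IsIntegral ℤ (a i)) :
    ∃ N : ℕ, ∀ p : ℕ, p.Prime → N < p → ∀ P : Ideal Zb, P.IsPrime → (p : Zb) ∈ P →
      ∀ i, InP P (a i) → a i = 0 := by
  have h : ∀ i, ∃ N : ℕ, ∀ p : ℕ, p.Prime → N < p → ∀ P : Ideal Zb, P.IsPrime → (p : Zb) ∈ P →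
      InP P (a i) → a i = 0 := by
    intro i
    by_cases h0 : a i = 0
    · exact ⟨0, fun _ _ _ _ _ _ _ => h0⟩
    · obtain ⟨N, hN⟩ := exists_not_inP (ha i) h0
      exact ⟨N, fun p hp hlt P hP hpP hin => (hN p hp hlt P hP hpP hin).elim⟩
  choose N hN using h
  obtain ⟨M, hM⟩ := (Set.finite_range N).bddAbove
  exact ⟨M, fun p hp hlt P hP hpP i =>
    hN i p hp ((hM (Set.mem_range_self i)).trans_lt hlt) P hP hpP⟩

open NumberField in
theorem frob_gen (X Y : Finset ℂ) (hX : ∀ x ∈ X, IsIntegral ℤ x) (hY : ∀ y ∈ Y, IsIntegral ℤ y)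
    (H : Subgroup Aut) (N : ℕ)
    (hfix : ∀ σ : Aut, (∀ x ∈ X, σ x = x) → (∀ y ∈ Y, σ y = y) → σ ∈ H)
    (hF : ∀ p : ℕ, p.Prime → N < p → ∀ P : Ideal Zb, P.IsPrime → (p : Zb) ∈ P → ∀ σ : Aut,
      (∀ y ∈ Y, σ y = y) → (∀ y ∈ Y, InP P (y ^ p - y)) →
      (∀ x ∈ X, ∀ x' ∈ X, InP P (x ^ p - x') → σ x = x') → σ ∈ H)
    (σ : Aut) (hσ : ∀ y ∈ Y, σ y = y) : σ ∈ H := by
  classical
  obtain ⟨L, _, _, hL⟩ := frob_field (X ∪ Y) fun x hx =>
    (Finset.mem_union.1 hx).elim (hX x) (hY x)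
  have hXL : ∀ x ∈ X, x ∈ L := fun x hx => hL x (Finset.mem_union_left _ hx)
  have hYL : ∀ y ∈ Y, y ∈ L := fun y hy => hL y (Finset.mem_union_right _ hy)
  let G1 : Subgroup Gal(L/ℚ) :=
    { carrier := {g | ∀ y : L, (y : ℂ) ∈ Y → g y = y}
      mul_mem' := fun {a b} ha hb y hy => by rw [AlgEquiv.mul_apply, hb y hy, ha y hy]
      one_mem' := fun _ _ => rfl
      inv_mem' := fun {a} ha y hy => by
        conv_lhs => rw [← ha y hy]
        exact a.symm_apply_apply y }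
  let K := IntermediateField.fixedField G1
  have hK : ∀ (g : Gal(L/K)) (y : L), (y : ℂ) ∈ Y → g y = y := fun g y hy =>
    g.commutes ⟨y, fun a => a.2 y hy⟩
  let H1 : Subgroup Gal(L/K) :=
    { carrier := {g | ∃ τ ∈ H, ∀ x : L, τ x = g x}
      mul_mem' := fun {a b} ⟨τ, h1, h2⟩ ⟨τ', h3, h4⟩ =>
        ⟨τ * τ', H.mul_mem h1 h3, fun x => by
          rw [RingAut.mul_apply, h4, h2, AlgEquiv.mul_apply]⟩
      one_mem' := ⟨1, H.one_mem, fun _ => rfl⟩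
      inv_mem' := fun {a} ⟨τ, h1, h2⟩ => ⟨τ⁻¹, H.inv_mem h1, fun x => by
        have h3 := h2 (a⁻¹ x)
        rw [show a (a⁻¹ x) = x from a.apply_symm_apply x] at h3
        rw [← h3]
        exact τ.symm_apply_apply _⟩ }
  have hint : ∀ x : L, IsIntegral ℤ (x : ℂ) → IsIntegral ℤ x := fun x hx =>
    (isIntegral_algHom_iff (L.val.toRingHom.toIntAlgHom) Subtype.val_injective).1 hx
  have hint2 : ∀ x : L, IsIntegral ℤ x → IsIntegral ℤ (x : ℂ) := fun x hx =>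
    hx.map (L.val.toRingHom.toIntAlgHom)
  obtain ⟨M, hM⟩ := frob_bound (ι := Gal(L/K) × X × X)
    (fun i => (i.1 ⟨i.2.1, hXL _ i.2.1.2⟩ : L) - (i.2.2 : ℂ)) fun i =>
      (hint2 _ ((hint _ (hX _ i.2.1.2)).map (i.1 : L →+* L).toIntAlgHom)).sub (hX _ i.2.2.2)
  have htop : H1 = ⊤ := by
    refine MP_29cb78_nt.C.gen (MP_29cb78_nt.C.dens (MP_29cb78_nt.euler MP_29cb78_nt.diri)) K L H1
      (max N M).factorial (Nat.factorial_ne_zero _) fun Q hQ hn hp g hg => ?_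
    set p := Ideal.absNorm (Q.under (𝓞 K)) with hpdef
    have hpQ : (p : 𝓞 L) ∈ Q := by
      have h1 : (p : 𝓞 K) ∈ Q.under (𝓞 K) := Ideal.absNorm_mem _
      rw [Ideal.mem_under] at h1
      simpa using h1
    have hlt : max N M < p := by
      by_contra hle
      obtain ⟨k, hk⟩ := Nat.dvd_factorial hp.pos (not_lt.1 hle)
      refine hn ?_
      rw [hk, Nat.cast_mul]
      exact Q.mul_mem_right _ hpQ
    obtain ⟨P, hP, hPQ⟩ := frob_over L Q hQ
    have hpP : (p : Zb) ∈ P := by simpa using hPQ _ hpQ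
    obtain ⟨τ, hτ⟩ := exists_aut_extend L (L.val.toRingHom.comp (g : L →+* L))
    have hτ' : ∀ x : L, τ x = g x := hτ
    have key : ∀ (x : ℂ) (hx : x ∈ L), IsIntegral ℤ x → InP P (τ x - x ^ p) := by
      intro x hx hi
      obtain ⟨z, rfl⟩ : ∃ z : 𝓞 L, ((z : L) : ℂ) = x := ⟨⟨⟨x, hx⟩, hint ⟨x, hx⟩ hi⟩, rfl⟩
      refine ⟨_, hPQ _ (hg z), ?_⟩
      rw [hτ' z, map_sub, map_pow]
      rfl
    have hy : ∀ y ∈ Y, τ y = y := fun y hy => by
      rw [hτ' ⟨y, hYL y hy⟩, hK g _ hy]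
    refine ⟨τ, hF p hp ((le_max_left _ _).trans_lt hlt) P hP hpP τ hy (fun y hy' => ?_)
      fun x hx x' hx' h => ?_, hτ'⟩
    · have h1 := (key y (hYL y hy') (hY y hy')).neg
      rwa [hy y hy', neg_sub] at h1
    · have h1 := (key x (hXL x hx) (hX x hx)).add h
      rw [sub_add_sub_cancel, hτ' ⟨x, hXL x hx⟩] at h1
      rw [hτ' ⟨x, hXL x hx⟩]
      exact sub_eq_zero.1
        (hM p hp ((le_max_right _ _).trans_lt hlt) P hP hpP (g, ⟨x, hx⟩, ⟨x', hx'⟩) h1)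
  let g0 : Gal(L/ℚ) := ((σ : ℂ →+* ℂ).toRatAlgHom).restrictNormal' L
  have hg0 : ∀ x : L, σ x = g0 x := fun x =>
    (((σ : ℂ →+* ℂ).toRatAlgHom).restrictNormal_commutes L x).symm
  have hg1 : g0 ∈ G1 := fun y hy => Subtype.ext (by rw [← hg0, hσ _ hy])
  let g : Gal(L/K) := { g0.toRingEquiv with commutes' := fun c => c.2 ⟨g0, hg1⟩ }
  obtain ⟨τ, h1, h2⟩ : g ∈ H1 := htop ▸ Subgroup.mem_top g
  have h3 : ∀ x ∈ L, (τ⁻¹ * σ) x = x := fun x hx => by
    have h4 : σ x = τ x := (hg0 ⟨x, hx⟩).trans (h2 ⟨x, hx⟩).symm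
    rw [RingAut.mul_apply, h4]
    exact τ.symm_apply_apply x
  have h5 := H.mul_mem h1 (hfix _ (fun x hx => h3 x (hXL x hx)) fun y hy => h3 y (hYL y hy))
  rwa [mul_inv_cancel_left] at h5

end Pool.Agent.P.MP_8b7eba_nt.R1
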