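import Pool.Agent.P.MP_8b7eba_nt.R1.Basic
import Pool.Agent.P.MP_ab3ecb_nt.Zeta

/-! A number field extension in which almost all primes of degree one split completely is trivial. -/

namespace Pool.Agent.P.MP_8b7eba_nt.R1

open Complex Filter Topology MeasureTheory Metric Finset Asymptotics PowerSeries
open scoped Real UpperHalfPlane MatrixGroups ComplexConjugate
open _root_.Pool.Agent.P.MP_8b7eba_nt.Mod (M2 G0 FI L0 om lv xx yy qq UH atI ex mT)
open BSD15 (OO Good cls gch gJ nm cj rho lam Adm B3 B5 No4 Xp XJ Rn)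
open MP_9c97e9_nt (Pt pm Is)

theorem le_one_of_split (K F : Type) [Field K] [NumberField K] [Field F] [NumberField F] {d N : ℕ}
    (h : ∀ p : ℕ, p.Prime → N < p →
      d * (MP_ab3ecb_nt.idl K p).card ≤ (MP_ab3ecb_nt.idl F p).card) : d ≤ 1 := by
  by_contra hd
  have hd2 : (2 : ℝ) ≤ d := by exact_mod_cast (by omega : 2 ≤ d)
  obtain ⟨C1, hC1⟩ := MP_ab3ecb_nt.ideal_lower K
  obtain ⟨C2, hC2⟩ := MP_ab3ecb_nt.ideal_upper F
  set n := Module.finrank ℤ (NumberField.RingOfIntegers K) with hn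
  have hT : Tendsto (fun s : ℝ => Real.log (1 / (s - 1))) (𝓝[>] 1) atTop := by
    refine Real.tendsto_log_atTop.comp ?_
    simp only [one_div]
    refine tendsto_inv_nhdsGT_zero.comp ?_
    refine tendsto_nhdsWithin_iff.2 ⟨?_, ?_⟩
    · have : Tendsto (fun s : ℝ => s - 1) (𝓝 1) (𝓝 (1 - 1)) := tendsto_id.sub_const 1
      rw [sub_self] at this
      exact this.mono_left nhdsWithin_le_nhds
    · filter_upwards [self_mem_nhdsWithin] with s hs
      exact sub_pos.2 (show 1 < s from hs)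
  obtain ⟨s, ⟨P, hP, h1⟩, h2, h3, h4⟩ := (hC1.and (hC2.and ((hT.eventually_gt_atTop
    (2 * (C1 + n * (N + 1 : ℕ)) + C2)).and self_mem_nhdsWithin))).exists
  have hs : 1 < s := h4
  have h5 := h2 (P.filter fun p => N < p) fun p hp => hP p (mem_filter.1 hp).1
  have h6 : ∑ p ∈ P.filter (fun p => ¬ N < p), ((MP_ab3ecb_nt.idl K p).card : ℝ) * (p : ℝ) ^ (-s) ≤
      n * (N + 1 : ℕ) := by
    have k1 : ∀ p ∈ P.filter (fun p => ¬ N < p),
        ((MP_ab3ecb_nt.idl K p).card : ℝ) * (p : ℝ) ^ (-s) ≤ n := by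
      intro p hp
      have hpp := hP p (mem_filter.1 hp).1
      have k2 : ((MP_ab3ecb_nt.idl K p).card : ℝ) ≤ n := by
        exact_mod_cast MP_ab3ecb_nt.card_idl_le hpp
      have k3 : (p : ℝ) ^ (-s) ≤ 1 :=
        Real.rpow_le_one_of_one_le_of_nonpos (by exact_mod_cast hpp.one_le) (by linarith)
      exact (mul_le_of_le_one_right (Nat.cast_nonneg _) k3).trans k2
    have k4 : (P.filter (fun p => ¬ N < p)).card ≤ N + 1 := by
      rw [← Finset.card_range (N + 1)]
      refine card_le_card fun p hp => mem_range.2 ?_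
      have := (mem_filter.1 hp).2
      omega
    refine (sum_le_card_nsmul _ _ _ k1).trans ?_
    rw [nsmul_eq_mul, mul_comm]
    exact mul_le_mul_of_nonneg_left (by exact_mod_cast k4) (Nat.cast_nonneg _)
  have h7 : 2 * ∑ p ∈ P.filter (fun p => N < p), ((MP_ab3ecb_nt.idl K p).card : ℝ) * (p : ℝ) ^ (-s) ≤
      ∑ p ∈ P.filter (fun p => N < p), ((MP_ab3ecb_nt.idl F p).card : ℝ) * (p : ℝ) ^ (-s) := by
    rw [mul_sum]
    refine sum_le_sum fun p hp => ?_
    have k1 : (d : ℝ) * (MP_ab3ecb_nt.idl K p).card ≤ (MP_ab3ecb_nt.idl F p).card := by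
      exact_mod_cast h p (hP p (mem_filter.1 hp).1) (mem_filter.1 hp).2
    rw [← mul_assoc]
    exact mul_le_mul_of_nonneg_right
      ((mul_le_mul_of_nonneg_right hd2 (Nat.cast_nonneg _)).trans k1) (by positivity)
  rw [← sum_filter_add_sum_filter_not P fun p => N < p] at h1
  linarith

end Pool.Agent.P.MP_8b7eba_nt.R1
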