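import Pool.Agent.P.MP_8b7eba_nt.R1.Basic

/-! The kernel of the Green functions. -/

namespace Pool.Agent.P.MP_8b7eba_nt.R1

open Complex Filter Topology MeasureTheory Metric Finset Asymptotics PowerSeries
open scoped Real UpperHalfPlane MatrixGroups ComplexConjugate
open _root_.Pool.Agent.P.MP_8b7eba_nt.Mod (M2 G0 FI L0 om lv xx yy qq UH atI ex mT)
open BSD15 (OO Good cls gch gJ nm cj rho lam Adm B3 B5 No4 Xp XJ Rn)
open MP_9c97e9_nt (Pt pm Is)

private theorem GG_bd {s T t v : ℝ} (hs : 1 ≤ s) (hT : |t| ≤ T) (hv : 0 < v) :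
    v ^ (s - 1) * ((t + v) ^ 2 + 1) ^ (-s) ≤ (3 * (1 + T) ^ 2) ^ s * (v + 1) ^ (-s - 1) := by
  have hT0 : 0 ≤ T := (abs_nonneg t).trans hT
  have h1 : v ^ (s - 1) ≤ (v + 1) ^ (s - 1) :=
    Real.rpow_le_rpow hv.le (by linarith) (by linarith)
  have hc : 0 < 3 * (1 + T) ^ 2 := by positivity
  have hv1 : 0 < v + 1 := by linarith
  have h2 : (v + 1) ^ 2 / (3 * (1 + T) ^ 2) ≤ (t + v) ^ 2 + 1 := by
    rw [div_le_iff₀ hc]
    have ht := abs_le.1 hT
    have e1 : (1 - t) ^ 2 ≤ (1 + T) ^ 2 := by nlinarith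
    have e2 : 1 ≤ (1 + T) ^ 2 := by nlinarith
    have e3 : (v + 1) ^ 2 ≤ 2 * (t + v) ^ 2 + 2 * (1 - t) ^ 2 := by
      nlinarith [sq_nonneg (t + v - (1 - t))]
    nlinarith [mul_le_mul_of_nonneg_left e2 (sq_nonneg (t + v)), sq_nonneg (t + v)]
  have h3 : ((t + v) ^ 2 + 1) ^ (-s) ≤ ((v + 1) ^ 2 / (3 * (1 + T) ^ 2)) ^ (-s) :=
    Real.rpow_le_rpow_of_nonpos (by positivity) h2 (by linarith)
  refine (mul_le_mul h1 h3 (by positivity) (by positivity)).trans (le_of_eq ?_)
  rw [Real.div_rpow (by positivity) hc.le, Real.rpow_neg hc.le, div_inv_eq_mul,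
    ← Real.rpow_natCast, ← Real.rpow_mul hv1.le, ← mul_assoc, ← Real.rpow_add hv1, mul_comm]
  congr 2
  push_cast
  ring

private theorem GG_meas (s t : ℝ) :
    AEStronglyMeasurable (fun v : ℝ => v ^ (s - 1) * ((t + v) ^ 2 + 1) ^ (-s))
      (volume.restrict (Set.Ioi 0)) :=
  Measurable.aestronglyMeasurable (by fun_prop)

private theorem GG_nn (s t : ℝ) {v : ℝ} (hv : v ∈ Set.Ioi (0 : ℝ)) :
    0 ≤ v ^ (s - 1) * ((t + v) ^ 2 + 1) ^ (-s) :=
  mul_nonneg (Real.rpow_nonneg (le_of_lt hv) _) (Real.rpow_nonneg (by positivity) _)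

private theorem GG_int {s : ℝ} (hs : 1 ≤ s) {m : ℝ} (hm : 0 < m) (C : ℝ) :
    IntegrableOn (fun v : ℝ => C * (v + m) ^ (-s - 1)) (Set.Ioi 0) :=
  (integrableOn_add_rpow_Ioi_of_lt (by linarith) (by linarith)).const_mul C

theorem GG_integrable {s : ℝ} (hs : 1 ≤ s) (t : ℝ) :
    IntegrableOn (fun v : ℝ => v ^ (s - 1) * ((t + v) ^ 2 + 1) ^ (-s)) (Set.Ioi 0) := by
  refine (GG_int hs one_pos ((3 * (1 + |t|) ^ 2) ^ s)).mono' (GG_meas s t) ?_
  refine (ae_restrict_mem measurableSet_Ioi).mono fun v hv => ?_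
  rw [Real.norm_of_nonneg (GG_nn s t hv)]
  exact GG_bd hs le_rfl hv

theorem GG_cont {s : ℝ} (hs : 1 ≤ s) : Continuous (GG s) := by
  refine continuous_iff_continuousAt.2 fun t₀ => ?_
  refine continuousAt_of_dominated (F := fun t v : ℝ => v ^ (s - 1) * ((t + v) ^ 2 + 1) ^ (-s))
    (Eventually.of_forall (GG_meas s)) ?_ (GG_int hs one_pos ((3 * (1 + (|t₀| + 1)) ^ 2) ^ s)) ?_
  · have h : ∀ᶠ t in 𝓝 t₀, |t| < |t₀| + 1 :=
      continuous_abs.continuousAt.eventually (gt_mem_nhds (lt_add_one _))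
    refine h.mono fun t ht => (ae_restrict_mem measurableSet_Ioi).mono fun v hv => ?_
    rw [Real.norm_of_nonneg (GG_nn s t hv)]
    exact GG_bd hs ht.le hv
  · refine Eventually.of_forall fun v => continuousAt_const.mul ?_
    exact ContinuousAt.rpow_const (by fun_prop) (Or.inl (by positivity))

theorem GG_nonneg (s t : ℝ) : 0 ≤ GG s t :=
  setIntegral_nonneg measurableSet_Ioi fun _ hv => GG_nn s t hv

theorem GG_anti {s : ℝ} (hs : 1 ≤ s) : AntitoneOn (GG s) (Set.Ici 0) := by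
  intro a ha b _ hab
  refine setIntegral_mono_on (GG_integrable hs b) (GG_integrable hs a) measurableSet_Ioi
    fun v hv => mul_le_mul_of_nonneg_left ?_ (Real.rpow_nonneg (le_of_lt hv) _)
  have ha' : 0 ≤ a := ha
  have hv' : 0 < v := hv
  exact Real.rpow_le_rpow_of_nonpos (by positivity) (by nlinarith) (by linarith)

theorem GG_le {s t : ℝ} (hs : 1 ≤ s) (hs' : s ≤ 2) (ht : 0 ≤ t) :
    GG s t ≤ 4 * (1 + t) ^ (-s) := by
  have hm : 0 < 1 + t := by linarith
  have h1 : GG s t ≤ ∫ v in Set.Ioi (0 : ℝ), 4 * (v + (1 + t)) ^ (-s - 1) := by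
    refine setIntegral_mono_on (GG_integrable hs t) (GG_int hs hm 4) measurableSet_Ioi
      fun v hv => ?_
    have hv' : 0 < v := hv
    have hw : 0 < v + (1 + t) := by linarith
    have e1 : v ^ (s - 1) ≤ (v + (1 + t)) ^ (s - 1) :=
      Real.rpow_le_rpow hv'.le (by linarith) (by linarith)
    have e2 : ((t + v) ^ 2 + 1) ^ (-s) ≤ ((v + (1 + t)) ^ 2 / 2) ^ (-s) :=
      Real.rpow_le_rpow_of_nonpos (by positivity) (by nlinarith [sq_nonneg (t + v - 1)])
        (by linarith)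
    have e3 : (2 : ℝ) ^ s ≤ 4 := by
      have := Real.rpow_le_rpow_of_exponent_le one_le_two hs'
      rw [Real.rpow_two] at this
      linarith
    refine (mul_le_mul e1 e2 (by positivity) (by positivity)).trans ?_
    rw [Real.div_rpow (by positivity) zero_le_two, Real.rpow_neg zero_le_two, div_inv_eq_mul,
      ← Real.rpow_natCast, ← Real.rpow_mul hw.le, ← mul_assoc, ← Real.rpow_add hw, mul_comm,
      show s - 1 + ((2 : ℕ) : ℝ) * -s = -s - 1 by push_cast; ring]
    exact mul_le_mul_of_nonneg_right e3 (by positivity)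
  refine h1.trans ?_
  have hs0 : 0 < s := by linarith
  have hd : ∀ x ∈ Set.Ici (0 : ℝ), HasDerivAt (fun v : ℝ => (v + (1 + t)) ^ (-s) / (-s))
      ((x + (1 + t)) ^ (-s - 1)) x := fun x hx => by
    have hx' : 0 ≤ x := hx
    refine ((((hasDerivAt_id x).add_const (1 + t)).rpow_const (p := -s)
      (Or.inl (by simp only [id]; positivity))).div_const (-s)).congr_deriv ?_
    simp only [id]
    field_simp
  have hl : Tendsto (fun v : ℝ => (v + (1 + t)) ^ (-s) / (-s)) atTop (𝓝 (0 / (-s))) :=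
    ((tendsto_rpow_neg_atTop hs0).comp
      (tendsto_atTop_add_const_right _ (1 + t) tendsto_id)).div_const _
  rw [MeasureTheory.integral_const_mul, integral_Ioi_of_hasDerivAt_of_tendsto' hd
    (integrableOn_add_rpow_Ioi_of_lt (by linarith) (by linarith)) hl]
  rw [zero_div, zero_sub, zero_add, div_neg, neg_neg]
  exact mul_le_mul_of_nonneg_left (div_le_self (by positivity) hs) (by norm_num)

theorem abs_sn_le (t : ℝ) : |sn t| ≤ 1 := by
  unfold sn
  rcases lt_trichotomy t 0 with h | rfl | h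
  · simp [sign_neg h]
  · simp
  · simp [sign_pos h]

theorem abs_gg_le {s : ℝ} (hs : 1 ≤ s) (hs' : s ≤ 2) (t : ℝ) :
    |gg s t| ≤ 4 * (1 + |t|) ^ (-s) := by
  rw [gg, abs_mul, abs_of_nonneg (GG_nonneg _ _)]
  exact (mul_le_of_le_one_left (GG_nonneg _ _) (abs_sn_le t)).trans (GG_le hs hs' (abs_nonneg t))

theorem gg_eq (s t : ℝ) : gg s t = (GG s t - GG s (-t)) / 2 + ee s t * sn t / 2 := by
  unfold gg ee sn
  rcases lt_trichotomy t 0 with h | rfl | h
  · simp only [sign_neg h, abs_of_neg h, SignType.coe_neg_one]; ring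
  · simp
  · simp only [sign_pos h, abs_of_pos h, SignType.coe_one]; ring

theorem sn_meas : Measurable sn := by
  have : sn = fun t => if 0 < t then 1 else if t < 0 then -1 else 0 := by
    funext t
    unfold sn
    rcases lt_trichotomy t 0 with h | rfl | h
    · simp [sign_neg h, h, h.not_gt]
    · simp
    · simp [h]
  rw [this]
  exact Measurable.ite measurableSet_Ioi measurable_const
    (Measurable.ite measurableSet_Iio measurable_const measurable_const)

theorem gg_meas {s : ℝ} (hs : 1 ≤ s) : Measurable (gg s) :=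
  sn_meas.mul ((GG_cont hs).comp continuous_abs).measurable

theorem ee_cont {s : ℝ} (hs : 1 ≤ s) : Continuous (ee s) :=
  (GG_cont hs).add ((GG_cont hs).comp continuous_neg)

end Pool.Agent.P.MP_8b7eba_nt.R1
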