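import Pool.Agent.P.MP_8b7eba_nt.R1.FP
import Pool.Agent.P.MP_8b7eba_nt.R1.Frob

/-! The Galois action on Heegner points. -/

namespace Pool.Agent.P.MP_8b7eba_nt.R1

open Complex Filter Topology MeasureTheory Metric Finset Asymptotics PowerSeries
open scoped Real UpperHalfPlane MatrixGroups ComplexConjugate
open _root_.Pool.Agent.P.MP_8b7eba_nt.Mod (M2 G0 FI L0 om lv xx yy qq UH atI ex mT)
open BSD15 (OO Good cls gch gJ nm cj rho lam Adm B3 B5 No4 Xp XJ Rn)
open MP_9c97e9_nt (Pt pm Is)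

variable {n : ℕ} [Good n] {ρ : ℤ}

theorem gal_pm {p : ℕ} (hp : p ∈ n.primeFactors) (α : ClassGroup (OO n)) :
    gch p α = 1 ∨ gch p α = -1 :=
  mul_self_eq_one_iff.1 (by rw [← sq]; exact BSD15.gch_sq hp α)

theorem gal_Pz {σ : Aut} {z w : ℂ} (hz : 0 < z.im) (hx : σ (xx z) = xx w)
    (hy : σ (y1 z) = y1 w) : act σ (Pz z) = Pz w := by
  have e : ∀ u, yy u = -2 * y1 u - xx u := fun u => by rw [y1]; ring
  have h := is_act σ (is_Pz hz)
  have e1 : σ (4 * xx z) = 4 * xx w := by rw [map_mul, hx, map_ofNat]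
  have e2 : σ (8 * yy z) = 8 * yy w := by
    rw [e z, e w, map_mul, map_sub, map_mul, hx, hy, map_neg, map_ofNat, map_ofNat]
  rw [e1, e2] at h
  exact eq_mkP h

/-- the automorphisms which translate the Heegner points -/
def galH (n : ℕ) [Good n] (ρ : ℤ) : Subgroup Aut where
  carrier := {σ | ∃ α : ClassGroup (OO n),
    (∀ c, act σ (Pz (ht n ρ c)) = Pz (ht n ρ (c * α))) ∧
      ∀ p ∈ n.primeFactors, σ (rt p) = gch p α * rt p}
  one_mem' := ⟨1, fun c => by rw [act_one, mul_one], fun p hp => by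
    rw [BSD15.gch_one hp, Int.cast_one, one_mul]; rfl⟩
  mul_mem' := by
    rintro σ τ ⟨α, h1, h2⟩ ⟨β, h3, h4⟩
    refine ⟨β * α, fun c => by rw [act_mul, h3, h1, mul_assoc], fun p hp => ?_⟩
    change σ (τ (rt p)) = _
    rw [h4 p hp, map_mul, map_intCast, h2 p hp, BSD15.gch_mul hp, Int.cast_mul, mul_assoc]
  inv_mem' := by
    rintro σ ⟨α, h1, h2⟩
    refine ⟨α⁻¹, fun c => ?_, fun p hp => ?_⟩
    · have h := h1 (c * α⁻¹)
      rw [inv_mul_cancel_right] at h
      rw [← h, ← act_mul, inv_mul_cancel, act_one]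
    · apply σ.injective
      have e : σ (σ⁻¹ (rt p)) = rt p := by
        change (σ * σ⁻¹) (rt p) = rt p
        rw [mul_inv_cancel]; rfl
      rw [e, map_mul, map_intCast, h2 p hp, ← mul_assoc, ← Int.cast_mul, ← BSD15.gch_mul hp,
        inv_mul_cancel, BSD15.gch_one hp, Int.cast_one, one_mul]

theorem gal_act (hd : HD n ρ) (σ : Aut) (hσ : σ (I * √n) = I * √n) :
    ∃ α : ClassGroup (OO n), (∀ c, act σ (Pz (ht n ρ c)) = Pz (ht n ρ (c * α))) ∧
      ∀ p ∈ n.primeFactors, σ (rt p) = gch p α * rt p := by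
  obtain ⟨N, hN⟩ := frob_data hd
  obtain ⟨X, hX⟩ : ∃ X : Finset ℂ, ∀ x, x ∈ X ↔ ((∃ c, xx (ht n ρ c) = x) ∨
      ∃ c, y1 (ht n ρ c) = x) ∨ (∃ q ∈ n.primeFactors, rt q = x) ∨
      ∃ q ∈ n.primeFactors, -rt q = x :=
    ⟨((univ.image fun c => xx (ht n ρ c)) ∪ univ.image fun c => y1 (ht n ρ c)) ∪
      (n.primeFactors.image rt ∪ n.primeFactors.image fun q => -rt q), fun x => by
      simp only [Finset.mem_union, Finset.mem_image, Finset.mem_univ, true_and]⟩
  have m1 : ∀ c, xx (ht n ρ c) ∈ X := fun c => (hX _).2 (.inl (.inl ⟨c, rfl⟩))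
  have m2 : ∀ c, y1 (ht n ρ c) ∈ X := fun c => (hX _).2 (.inl (.inr ⟨c, rfl⟩))
  have m3 : ∀ q ∈ n.primeFactors, rt q ∈ X := fun q hq => (hX _).2 (.inr (.inl ⟨q, hq, rfl⟩))
  have m4 : ∀ q ∈ n.primeFactors, ∀ α : ClassGroup (OO n), gch q α * rt q ∈ X := fun q hq α => by
    rcases gal_pm hq α with h | h <;> rw [h]
    · simpa using m3 q hq
    · exact (hX _).2 (.inr (.inr ⟨q, hq, by simp⟩))
  refine frob_gen X {omg n} ?_ ?_ (galH n ρ) N ?_ ?_ σ ?_
  · intro x hx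
    rcases (hX x).1 hx with (⟨c, rfl⟩ | ⟨c, rfl⟩) | ⟨q, -, rfl⟩ | ⟨q, -, rfl⟩
    · exact (intPt_ht hd c).1
    · exact (intPt_ht hd c).2
    · exact isIntegral_rt q
    · exact (isIntegral_rt q).neg
  · intro y hy
    rw [Finset.mem_singleton.1 hy]
    exact isIntegral_omg n
  · intro τ h _
    refine ⟨1, fun c => ?_, fun p hp => ?_⟩
    · rw [mul_one]
      exact gal_Pz (ht_im hd c) (h _ (m1 c)) (h _ (m2 c))
    · rw [BSD15.gch_one hp, Int.cast_one, one_mul]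
      exact h _ (m3 p hp)
  · intro p hp hNp P hP hpP τ _ hY h
    obtain ⟨α, s, h1, h2, -⟩ := hN p hp hNp P hP hpP (hY _ (Finset.mem_singleton_self _))
    exact ⟨α, fun c => gal_Pz (ht_im hd c) (h _ (m1 c) _ (m1 _) (h1 c).1)
      (h _ (m2 c) _ (m2 _) (h1 c).2.1), fun q hq => h _ (m3 q hq) _ (m4 q hq α) (h2 q hq)⟩
  · intro y hy
    rw [Finset.mem_singleton.1 hy]
    exact (fix_omg_iff σ).2 hσ

/-- the stabiliser of a complex number -/
def galS (W : ℂ) : Subgroup Aut where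
  carrier := {σ | σ W = W}
  one_mem' := rfl
  mul_mem' := by
    intro σ τ h1 h2
    change σ (τ W) = W
    rw [show τ W = W from h2]
    exact h1
  inv_mem' := by
    intro σ h
    apply σ.injective
    change (σ * σ⁻¹) W = σ W
    rw [mul_inv_cancel, show σ W = W from h]
    rfl

theorem gal_odd {q : ℕ} (hq : q ∈ n.primeFactors) : Odd q := by
  have h4 := (inferInstance : Good n).h4
  exact Odd.of_dvd_nat (Nat.odd_iff.2 (by omega)) (Nat.dvd_of_mem_primeFactors hq)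

theorem gal_v1 (hd : HD n ρ) (σ : Aut) (hσ : Fx n.primeFactors σ) (d d' : ClassGroup (OO n)) :
    σ ((∏ c ∈ gen d, v1 (ht n ρ c)) * ∏ c ∈ gen d', v1 (ht n ρ c)) =
      (∏ c ∈ gen d, v1 (ht n ρ c)) * ∏ c ∈ gen d', v1 (ht n ρ c) := by
  obtain ⟨N, hN⟩ := frob_data hd
  have two : IsIntegral ℤ (2 : ℂ) := by simpa using isIntegral_intCast (R := ℤ) (B := ℂ) 2
  choose! M hM using fun q (hq : q ∈ n.primeFactors) =>
    exists_not_inP (two.mul (isIntegral_rt q)) (mul_ne_zero two_ne_zero (rt_ne (gal_odd hq)))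
  obtain ⟨X, hX⟩ : ∃ X : Finset ℂ, ∀ x, x ∈ X ↔ (∃ c, v1 (ht n ρ c) = x) ∨
      ∃ c, -v1 (ht n ρ c) = x :=
    ⟨(univ.image fun c => v1 (ht n ρ c)) ∪ univ.image fun c => -v1 (ht n ρ c), fun x => by
      simp only [Finset.mem_union, Finset.mem_image, Finset.mem_univ, true_and]⟩
  have m1 : ∀ c, v1 (ht n ρ c) ∈ X := fun c => (hX _).2 (.inl ⟨c, rfl⟩)
  have m2 : ∀ c, ∀ s : ℤ, s = 1 ∨ s = -1 → s * v1 (ht n ρ c) ∈ X := fun c s hs => by
    rcases hs with rfl | rfl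
    · simpa using m1 c
    · exact (hX _).2 (.inr ⟨c, by simp⟩)
  have i1 : ∀ c, IsIntegral ℤ (v1 (ht n ρ c)) := fun c =>
    IntPt.int_v1 (ht_im hd c) (intPt_ht hd c)
  have y0 : omg n ∈ insert (omg n) (n.primeFactors.image rt) := Finset.mem_insert_self _ _
  have y2 : ∀ q ∈ n.primeFactors, rt q ∈ insert (omg n) (n.primeFactors.image rt) := fun q hq =>
    Finset.mem_insert_of_mem (Finset.mem_image_of_mem _ hq)
  refine frob_gen X (insert (omg n) (n.primeFactors.image rt)) ?_ ?_ (galS _)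
    (max N (n.primeFactors.sup M)) ?_ ?_ σ ?_
  · intro x hx
    rcases (hX x).1 hx with ⟨c, rfl⟩ | ⟨c, rfl⟩
    · exact i1 c
    · exact (i1 c).neg
  · intro y hy
    rcases Finset.mem_insert.1 hy with rfl | hy
    · exact isIntegral_omg n
    · obtain ⟨q, -, rfl⟩ := Finset.mem_image.1 hy
      exact isIntegral_rt q
  · intro τ h _
    change τ _ = _
    rw [map_mul, map_prod, map_prod]
    simp only [h _ (m1 _)]
  · intro p hp hNp P hP hpP τ _ hY h
    obtain ⟨α, s, h1, h2, h3⟩ := hN p hp (lt_of_le_of_lt (le_max_left _ _) hNp) P hP hpP (hY _ y0)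
    have hα : ∀ q ∈ n.primeFactors, gch q α = 1 := fun q hq => by
      refine (gal_pm hq α).resolve_right fun e => ?_
      have h4 := (h2 q hq).sub (hY _ (y2 q hq))
      rw [e] at h4
      refine hM q hq p hp (lt_of_le_of_lt ((Finset.le_sup hq).trans (le_max_right _ _)) hNp) P hP
        hpP ?_
      convert h4 using 1
      push_cast
      ring
    have e1 : ∀ c, τ (v1 (ht n ρ c)) = s c * v1 (ht n ρ (c * α)) := fun c =>
      h _ (m1 c) _ (m2 _ _ (h1 c).2.2.1) (h1 c).2.2.2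
    have e2 : ∀ d : ClassGroup (OO n), τ (∏ c ∈ gen d, v1 (ht n ρ c)) =
        (∏ c ∈ gen d, s c : ℤ) * ∏ c ∈ gen d, v1 (ht n ρ c) := fun d => by
      rw [map_prod]
      simp only [e1]
      rw [Finset.prod_mul_distrib, prod_gen_mul hα d fun c => v1 (ht n ρ c), Int.cast_prod]
    have e3 : (∏ c ∈ gen d', s c) * ∏ c ∈ gen d', s c = 1 := by
      rw [← Finset.prod_mul_distrib]
      exact Finset.prod_eq_one fun c _ => mul_self_eq_one_iff.2 (h1 c).2.2.1
    change τ _ = _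
    rw [map_mul, e2, e2, h3 hα d d', mul_mul_mul_comm, ← Int.cast_mul, e3, Int.cast_one, one_mul]
  · intro y hy
    rcases Finset.mem_insert.1 hy with rfl | hy
    · refine (fix_omg_iff σ).2 ?_
      simpa using aut_sqrt (σ := σ) (ε := fun _ => 1) fun p hp => by simpa using hσ p hp
    · obtain ⟨q, hq, rfl⟩ := Finset.mem_image.1 hy
      exact hσ q hq

end Pool.Agent.P.MP_8b7eba_nt.R1
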