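import Pool.Agent.P.MP_8b7eba_nt.R1.Basic

/-! Genera of ideal classes. -/

namespace Pool.Agent.P.MP_8b7eba_nt.R1

open Complex Filter Topology MeasureTheory Metric Finset Asymptotics PowerSeries
open scoped Real UpperHalfPlane MatrixGroups ComplexConjugate
open _root_.Pool.Agent.P.MP_8b7eba_nt.Mod (M2 G0 FI L0 om lv xx yy qq UH atI ex mT)
open BSD15 (OO Good cls gch gJ nm cj rho lam Adm B3 B5 No4 Xp XJ Rn)
open MP_9c97e9_nt (Pt pm Is)

variable {n : ℕ} [Good n] {c d α : ClassGroup (OO n)}

theorem mem_gen : c ∈ gen d ↔ ∀ p ∈ n.primeFactors, gch p c = gch p d := by simp [gen]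

theorem GenC_erase {l : ℕ} (hl : l ∈ n.primeFactors) :
    (∀ p ∈ n.primeFactors.erase l, gch p c = gch p d) ↔
      ∀ p ∈ n.primeFactors, gch p c = gch p d := by
  refine ⟨fun h p hp => ?_, fun h p hp => h p (Finset.mem_of_mem_erase hp)⟩
  by_cases e : p = l
  · have h1 := BSD15.prod_gch c
    have h2 := BSD15.prod_gch d
    rw [← Finset.mul_prod_erase _ _ hl] at h1 h2
    rw [Finset.prod_congr rfl h] at h1
    rw [e]
    linear_combination gch l d * h1 - gch l c * h2
  · exact h p (Finset.mem_erase.2 ⟨e, hp⟩)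

theorem GenC_one {l : ℕ} (hl : l ∈ n.primeFactors) :
    (univ.filter fun g : ClassGroup (OO n) => ∀ p ∈ n.primeFactors.erase l \ ∅, gch p g = 1) =
      gen 1 := by
  ext g
  rw [mem_gen, ← GenC_erase hl, Finset.sdiff_empty, Finset.mem_filter]
  simp only [Finset.mem_univ, true_and]
  exact forall₂_congr fun p hp => by rw [BSD15.gch_one (Finset.mem_of_mem_erase hp)]

theorem GenC_had {M : Type} [AddCommGroup M] {l : ℕ} (hl : l ∈ n.primeFactors) {T : Finset ℕ}
    (hT : T ⊆ n.primeFactors.erase l) (f : ClassGroup (OO n) → M) :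
    ∑ J ∈ (n.primeFactors.erase l).powerset with T ⊆ J, ∑ g, gJ J g • f g =
      (2 : ℤ) ^ (n.primeFactors.card - 1 - T.card) •
        ∑ g with (∀ p ∈ n.primeFactors.erase l \ T, gch p g = 1), gJ T g • f g := by
  classical
  rw [Finset.sum_comm, Finset.sum_filter, Finset.smul_sum]
  refine Finset.sum_congr rfl fun c _ => ?_
  have h := BSD15.had_gJ (fun g => if g = c then 1 else 0) hl hT
  simp only [mul_ite, mul_one, mul_zero, Finset.sum_ite_eq', Finset.mem_univ, if_true,
    Finset.mem_filter, true_and] at h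
  rw [← Finset.sum_smul, h]
  split_ifs
  · rw [mul_smul]
  · rw [zero_smul, smul_zero]

theorem gen_mul (d α : ClassGroup (OO n)) : (gen d).map (Equiv.mulRight α).toEmbedding =
    gen (d * α) := by
  ext c
  rw [Finset.mem_map_equiv, mem_gen, mem_gen]
  refine forall₂_congr fun p hp => ?_
  have h1 := BSD15.gch_sq hp α
  rw [Equiv.mulRight_symm_apply, BSD15.gch_mul hp, BSD15.gch_mul hp, BSD15.gch_inv hp]
  constructor
  · intro h
    linear_combination gch p α * h - gch p c * h1
  · intro h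
    linear_combination gch p α * h + gch p d * h1

theorem gen_congr (h : ∀ p ∈ n.primeFactors, gch p c = gch p d) : gen c = gen d := by
  ext x
  rw [mem_gen, mem_gen]
  exact forall₂_congr fun p hp => by rw [h p hp]

theorem card_gen (d d' : ClassGroup (OO n)) : (gen d).card = (gen d').card := by
  have h := congrArg Finset.card (gen_mul d (d⁻¹ * d'))
  rwa [Finset.card_map, mul_inv_cancel_left] at h

theorem odd_card_gen (h : No4 n) (d : ClassGroup (OO n)) : Odd (gen d).card := by
  obtain ⟨l, hl⟩ := BSD15.genus_exists_factor (n := n)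
  rw [card_gen d 1, ← GenC_one hl]
  exact BSD15.odd_card_squares h hl

theorem sum_gen_mul {M : Type} [AddCommMonoid M] (h : ∀ p ∈ n.primeFactors, gch p α = 1)
    (d : ClassGroup (OO n)) (f : ClassGroup (OO n) → M) :
    ∑ c ∈ gen d, f (c * α) = ∑ c ∈ gen d, f c := by
  have e : gen (d * α) = gen d := gen_congr fun p hp => by rw [BSD15.gch_mul hp, h p hp, mul_one]
  conv_rhs => rw [← e, ← gen_mul, Finset.sum_map]
  rfl

theorem prod_gen_mul {M : Type} [CommMonoid M] (h : ∀ p ∈ n.primeFactors, gch p α = 1)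
    (d : ClassGroup (OO n)) (f : ClassGroup (OO n) → M) :
    ∏ c ∈ gen d, f (c * α) = ∏ c ∈ gen d, f c := by
  have e : gen (d * α) = gen d := gen_congr fun p hp => by rw [BSD15.gch_mul hp, h p hp, mul_one]
  conv_rhs => rw [← e, ← gen_mul, Finset.prod_map]
  rfl

theorem sum_gen_inv {M : Type} [AddCommMonoid M] (h : ∀ p ∈ n.primeFactors, gch p α = 1)
    (d : ClassGroup (OO n)) (f : ClassGroup (OO n) → M) :
    ∑ c ∈ gen d, f (α * c⁻¹) = ∑ c ∈ gen d, f c := by
  have e : ∑ c ∈ gen d, f (c⁻¹ * α) = ∑ c ∈ gen d, f (c * α) := by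
    refine Finset.sum_equiv (Equiv.inv _) (fun c => ?_) fun c _ => rfl
    rw [mem_gen, mem_gen]
    exact forall₂_congr fun p hp => by rw [Equiv.inv_apply, BSD15.gch_inv hp]
  rw [← sum_gen_mul h d f, ← e]
  exact Finset.sum_congr rfl fun c _ => by rw [mul_comm]

theorem sum_gJ_all {M : Type} [AddCommGroup M] {l : ℕ} (hl : l ∈ n.primeFactors)
    (f : ClassGroup (OO n) → M) :
    ∑ J ∈ (n.primeFactors.erase l).powerset, ∑ c, gJ J c • f c =
      (2 : ℤ) ^ (n.primeFactors.card - 1) • ∑ c ∈ gen 1, f c := by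
  have h := GenC_had hl (Finset.empty_subset _) f
  rw [GenC_one hl] at h
  simpa [gJ] using h

theorem sum_gJ_mem {M : Type} [AddCommGroup M] {l p : ℕ} (hl : l ∈ n.primeFactors)
    (hp : p ∈ n.primeFactors.erase l) : ∃ d : ClassGroup (OO n), ∀ f : ClassGroup (OO n) → M,
    ∑ J ∈ (n.primeFactors.erase l).powerset with p ∈ J, ∑ c, gJ J c • f c =
      (2 : ℤ) ^ (n.primeFactors.card - 2) • (∑ c ∈ gen 1, f c - ∑ c ∈ gen d, f c) := by
  obtain ⟨hpl, hp'⟩ := Finset.mem_erase.1 hp
  obtain ⟨d, h1, -, h3⟩ := BSD15.exists_two hp' hl hpl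
  refine ⟨d, fun f => ?_⟩
  have h := GenC_had hl (Finset.singleton_subset_iff.2 hp) f
  simp only [Finset.singleton_subset_iff, Finset.card_singleton, gJ, Finset.prod_singleton] at h
  simp only [gJ]
  rw [h, Nat.sub_sub, ← Finset.sum_filter_add_sum_filter_not _ fun c => gch p c = 1,
    Finset.filter_filter, Finset.filter_filter, sub_eq_add_neg, ← Finset.sum_neg_distrib]
  congr 2
  · refine Finset.sum_congr ?_ fun c hc => ?_
    · ext c
      rw [mem_gen, ← GenC_erase hl]
      simp only [Finset.mem_filter, Finset.mem_univ, true_and, Finset.mem_sdiff,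
        Finset.mem_singleton]
      constructor
      · rintro ⟨a, b⟩ q hq'
        rw [BSD15.gch_one (Finset.mem_of_mem_erase hq')]
        by_cases e : q = p
        · rw [e, b]
        · exact a q ⟨hq', e⟩
      · intro a
        exact ⟨fun q hq' => by rw [a q hq'.1, BSD15.gch_one (Finset.mem_of_mem_erase hq'.1)],
          by rw [a p hp, BSD15.gch_one hp']⟩
    · rw [mem_gen.1 hc p hp', BSD15.gch_one hp', one_smul]
  · refine Finset.sum_congr ?_ fun c hc => ?_
    · ext c
      rw [mem_gen, ← GenC_erase hl]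
      simp only [Finset.mem_filter, Finset.mem_univ, true_and, Finset.mem_sdiff,
        Finset.mem_singleton]
      constructor
      · rintro ⟨a, b⟩ q hq'
        by_cases e : q = p
        · rw [e, h1]
          exact (sq_eq_one_iff.1 (BSD15.gch_sq hp' c)).resolve_left b
        · rw [a q ⟨hq', e⟩, h3 q (Finset.mem_of_mem_erase hq') e (Finset.ne_of_mem_erase hq')]
      · intro a
        refine ⟨fun q hq' => ?_, by rw [a p hp, h1]; norm_num⟩
        rw [a q hq'.1, h3 q (Finset.mem_of_mem_erase hq'.1) hq'.2 (Finset.ne_of_mem_erase hq'.1)]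
    · rw [mem_gen.1 hc p hp', h1, neg_one_smul]

end Pool.Agent.P.MP_8b7eba_nt.R1
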