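import Pool.Agent.P.MP_8b7eba_nt.R1.Av
import Pool.Agent.P.MP_8b7eba_nt.R1.GG

/-! Geodesics and hyperbolic discs. -/

namespace Pool.Agent.P.MP_8b7eba_nt.R1

open Complex Filter Topology MeasureTheory Metric Finset Asymptotics PowerSeries
open scoped Real UpperHalfPlane MatrixGroups ComplexConjugate
open _root_.Pool.Agent.P.MP_8b7eba_nt.Mod (M2 G0 FI L0 om lv xx yy qq UH atI ex mT)
open BSD15 (OO Good cls gch gJ nm cj rho lam Adm B3 B5 No4 Xp XJ Rn)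
open MP_9c97e9_nt (Pt pm Is)

variable {Q : QF} {r : ℝ} {D : ℤ}

theorem geo_mul_nonpos {a b : ℝ} (h : sn a ≠ sn b) : a * b ≤ 0 := by
  by_contra h'
  apply h
  rcases pos_and_pos_or_neg_and_neg_of_mul_pos (not_le.1 h') with ⟨h1, h2⟩ | ⟨h1, h2⟩
  · simp [sn, sign_pos h1, sign_pos h2]
  · simp [sn, sign_neg h1, sign_neg h2]

/-- the numerator of `tt` -/
noncomputable def geoN (Q : QF) (z : ℂ) : ℝ := Q.A * (z.re ^ 2 + z.im ^ 2) + Q.B * z.re + Q.C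

theorem geo_tt (Q : QF) (z : ℂ) : Q.tt z = geoN Q z / z.im / √Q.disc := by
  rw [QF.tt, geoN, div_div, normSq_apply, sq, sq]

theorem geo_disc (Q : QF) : (Q.disc : ℝ) = Q.B ^ 2 - 4 * Q.A * Q.C := by simp [QF.disc]

theorem geo_sqrt_pos (hD : 0 < Q.disc) : 0 < √(Q.disc : ℝ) :=
  Real.sqrt_pos.2 (by exact_mod_cast hD)

theorem geo_N_nonpos (hD : 0 < Q.disc) {z : ℂ} (hz : 0 < z.im) {e : ℝ} (h : sn (Q.tt z) ≠ sn e) :
    geoN Q z * e ≤ 0 := by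
  have h1 := geo_mul_nonpos h
  have h2 := geo_sqrt_pos hD
  rw [geo_tt, div_div, div_mul_eq_mul_div, div_le_iff₀ (by positivity), zero_mul] at h1
  exact h1

theorem geo_finite (a b c : ℝ) :
    {Q : QF | |(Q.A : ℝ)| ≤ a ∧ |(Q.B : ℝ)| ≤ b ∧ |(Q.C : ℝ)| ≤ c}.Finite := by
  have key : ∀ a : ℝ, {k : ℤ | |(k : ℝ)| ≤ a}.Finite := fun a =>
    (Set.finite_Icc (-⌈a⌉) ⌈a⌉).subset fun k hk => by
      have h : ((|k| : ℤ) : ℝ) ≤ (⌈a⌉ : ℤ) := by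
        rw [Int.cast_abs]
        exact le_trans hk (Int.le_ceil a)
      exact abs_le.1 (Int.cast_le.1 h)
  refine (((key a).prod ((key b).prod (key c))).preimage
    (f := fun Q : QF => (Q.A, Q.B, Q.C)) fun P _ Q _ h => ?_).subset fun Q h => h
  simp only [Prod.mk.injEq] at h
  exact QF.ext h.1 h.2.1 h.2.2

theorem geo_abs_le {u S : ℝ} (h : u ^ 2 ≤ S) : |u| ≤ S + 1 := by
  rw [← sq_abs] at h
  nlinarith [sq_nonneg (|u| - 1), abs_nonneg u]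

theorem geo_one_le {k : ℤ} (h : k ≠ 0) : 1 ≤ |(k : ℝ)| := by
  exact_mod_cast Int.one_le_abs h

theorem tt_cont (Q : QF) : Continuous fun w : ℍ => Q.tt w := by
  simp only [geo_tt, geoN]
  refine (Continuous.div ?_ ?_ fun w => w.im_pos.ne').div_const _ <;> fun_prop

theorem tt_gram (hD : 0 < Q.disc) (z w : ℍ) :
    Q.tt z ^ 2 + Q.tt w ^ 2 - 2 * Q.tt z * Q.tt w * Real.cosh (dist z w) ≤
      Real.sinh (dist z w) ^ 2 := by
  have hs := geo_sqrt_pos hD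
  have hD' : (0 : ℝ) < Q.disc := by exact_mod_cast hD
  have hq : √(Q.disc : ℝ) ^ 2 = Q.disc := Real.sq_sqrt hD'.le
  have hz : 0 < (z : ℂ).im := z.im_pos
  have hw : 0 < (w : ℂ).im := w.im_pos
  have hc : Real.cosh (dist z w) = 1 + (((z : ℂ).re - (w : ℂ).re) ^ 2 +
      ((z : ℂ).im - (w : ℂ).im) ^ 2) / (2 * (z : ℂ).im * (w : ℂ).im) := by
    rw [UpperHalfPlane.cosh_dist, Complex.dist_eq, Complex.sq_norm, normSq_apply, sub_re, sub_im,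
      sq, sq]
    rfl
  rw [Real.sinh_sq, geo_tt, geo_tt]
  generalize Real.cosh (dist z w) = c at hc ⊢
  have e : (geoN Q z / (z : ℂ).im / √Q.disc) ^ 2 + (geoN Q w / (w : ℂ).im / √Q.disc) ^ 2 -
      2 * (geoN Q z / (z : ℂ).im / √Q.disc) * (geoN Q w / (w : ℂ).im / √Q.disc) * c =
      ((geoN Q z / (z : ℂ).im) ^ 2 + (geoN Q w / (w : ℂ).im) ^ 2 -
        2 * (geoN Q z / (z : ℂ).im) * (geoN Q w / (w : ℂ).im) * c) / √Q.disc ^ 2 := by
    field_simp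
  rw [e, hq, div_le_iff₀ hD', geo_disc, hc, geoN, geoN]
  generalize (z : ℂ).re = x at *
  generalize (z : ℂ).im = y at *
  generalize (w : ℂ).re = u at *
  generalize (w : ℂ).im = v at *
  generalize (Q.A : ℝ) = A
  generalize (Q.B : ℝ) = B
  generalize (Q.C : ℝ) = C
  have h := sq_nonneg ((B * (x ^ 2 + y ^ 2 - (u ^ 2 + v ^ 2)) +
    2 * A * (u * (x ^ 2 + y ^ 2) - x * (u ^ 2 + v ^ 2)) + 2 * C * (x - u)) / (2 * y * v))
  refine sub_nonneg.1 (h.trans_eq ?_)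
  field_simp
  ring

theorem tt_le_of_sn (hD : 0 < Q.disc) {z w : ℍ} (hw : w ∈ ball z r)
    (h : sn (Q.tt w) ≠ sn (Q.tt z)) : |Q.tt w| ≤ Real.sinh r ∧ |Q.tt z| ≤ Real.sinh r := by
  have h1 := tt_gram hD w z
  have h2 := mul_nonpos_of_nonpos_of_nonneg (geo_mul_nonpos h) (Real.cosh_pos (dist w z)).le
  have h3 : Real.sinh (dist w z) ≤ Real.sinh r := Real.sinh_le_sinh.2 (mem_ball.1 hw).le
  have h4 : 0 ≤ Real.sinh (dist w z) := Real.sinh_nonneg_iff.2 dist_nonneg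
  constructor
  · refine (abs_le_of_sq_le_sq ?_ h4).trans h3
    nlinarith [sq_nonneg (Q.tt z)]
  · refine (abs_le_of_sq_le_sq ?_ h4).trans h3
    nlinarith [sq_nonneg (Q.tt w)]

theorem tt_comp (hD : 0 < Q.disc) {z w : ℍ} (hw : w ∈ ball z r) :
    1 + |Q.tt z| ≤ 2 * Real.cosh r * (1 + |Q.tt w|) := by
  have h1 := tt_gram hD w z
  have h0 := mem_ball.1 hw
  have h3 : Real.cosh (dist w z) ≤ Real.cosh r := Real.cosh_le_cosh.2 (by
    rw [abs_of_nonneg dist_nonneg]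
    exact h0.le.trans (le_abs_self r))
  have h4 := Real.one_le_cosh (dist w z)
  rw [Real.sinh_sq] at h1
  generalize Real.cosh (dist w z) = c at *
  generalize Q.tt z = a at *
  generalize Q.tt w = b at *
  have hb := abs_nonneg b
  have h5 : |a - b * c| ≤ c * (1 + |b|) := by
    refine abs_le_of_sq_le_sq ?_ (by positivity)
    have e : (c * (1 + |b|)) ^ 2 = c ^ 2 * (1 + b ^ 2) + 2 * (c ^ 2 * |b|) := by
      rw [← sq_abs b]; ring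
    have : 0 ≤ c ^ 2 * |b| := by positivity
    nlinarith [sq_nonneg b]
  have h6 : |a| ≤ |a - b * c| + |b| * c := by
    have := abs_add_le (a - b * c) (b * c)
    rwa [sub_add_cancel, abs_mul, abs_of_pos (by linarith : 0 < c)] at this
  have h7 : c * (1 + |b|) ≤ Real.cosh r * (1 + |b|) := by gcongr
  nlinarith

theorem finite_tt (hD : 0 < D) {z : ℂ} (hz : 0 < z.im) (T : ℝ) :
    {Q : QF | Q.disc = D ∧ |Q.tt z| ≤ T}.Finite := by
  obtain ⟨P, hP⟩ : ∃ P, P = T * √(D : ℝ) := ⟨_, rfl⟩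
  obtain ⟨S, hS⟩ : ∃ S, S = D + P ^ 2 + 1 := ⟨_, rfl⟩
  obtain ⟨a, ha⟩ : ∃ a, a = (S + P) / (2 * z.im) := ⟨_, rfl⟩
  obtain ⟨b, hb⟩ : ∃ b, b = S + 2 * a * |z.re| := ⟨_, rfl⟩
  refine (geo_finite a b (P * z.im + a * (z.re ^ 2 + z.im ^ 2) + b * |z.re|)).subset ?_
  rintro Q ⟨rfl, hT⟩
  have hs := geo_sqrt_pos hD
  rw [geo_tt, abs_div, abs_of_pos hs, div_le_iff₀ hs, ← hP] at hT
  obtain ⟨p, hp⟩ : ∃ p, p = geoN Q z / z.im := ⟨_, rfl⟩
  rw [← hp] at hT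
  have hN : p * z.im = Q.A * (z.re ^ 2 + z.im ^ 2) + Q.B * z.re + Q.C := by
    rw [hp, div_mul_cancel₀ _ hz.ne', geoN]
  have hp2 : p ^ 2 ≤ P ^ 2 := by
    rw [← sq_abs]
    exact pow_le_pow_left₀ (abs_nonneg _) hT 2
  have e : (2 * Q.A * z.re + Q.B) ^ 2 + (2 * Q.A * z.im - p) ^ 2 = Q.disc + p ^ 2 := by
    rw [geo_disc]
    linear_combination (-4 * Q.A) * hN
  have h1 : |2 * Q.A * z.re + Q.B| ≤ S :=
    hS ▸ geo_abs_le (by nlinarith [sq_nonneg (2 * Q.A * z.im - p)])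
  have h2 : |2 * Q.A * z.im - p| ≤ S :=
    hS ▸ geo_abs_le (by nlinarith [sq_nonneg (2 * Q.A * z.re + Q.B)])
  have hA : |(Q.A : ℝ)| ≤ a := by
    rw [ha, le_div_iff₀ (by positivity)]
    have := abs_add_le (2 * Q.A * z.im - p) p
    rw [sub_add_cancel, abs_mul, abs_mul, abs_of_pos hz, abs_two] at this
    linarith
  have hx := abs_nonneg z.re
  have hB : |(Q.B : ℝ)| ≤ b := by
    have := abs_sub (2 * Q.A * z.re + Q.B) (2 * Q.A * z.re)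
    rw [add_sub_cancel_left, abs_mul, abs_mul, abs_two] at this
    have h3 := mul_le_mul_of_nonneg_right hA hx
    linarith
  refine ⟨hA, hB, ?_⟩
  have e2 : (Q.C : ℝ) = p * z.im - Q.A * (z.re ^ 2 + z.im ^ 2) - Q.B * z.re := by linarith
  have hn : 0 ≤ z.re ^ 2 + z.im ^ 2 := by positivity
  rw [e2]
  refine (abs_sub _ _).trans (add_le_add ((abs_sub _ _).trans (add_le_add ?_ ?_)) ?_)
  · rw [abs_mul, abs_of_pos hz]
    exact mul_le_mul_of_nonneg_right hT hz.le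
  · rw [abs_mul, abs_of_nonneg hn]
    exact mul_le_mul_of_nonneg_right hA hn
  · rw [abs_mul]
    exact mul_le_mul_of_nonneg_right hB hx

theorem finite_ball (hD : 0 < D) (z : ℍ) (r : ℝ) :
    {Q : QF | Q.disc = D ∧ ∃ w ∈ ball z r, sn (Q.tt w) ≠ sn (Q.tt z)}.Finite := by
  refine (finite_tt hD (z := z) z.im_pos (Real.sinh r)).subset ?_
  rintro Q ⟨rfl, w, hw, h⟩
  exact ⟨rfl, (tt_le_of_sn hD hw h).2⟩

theorem geo_strip (hD : 0 < Q.disc) {z : ℂ} (hz : 0 < z.im) (h : sn (Q.tt z) ≠ sn Q.A) :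
    (2 * Q.A * z.re + Q.B) ^ 2 + (2 * Q.A * z.im) ^ 2 ≤ Q.disc := by
  have := geo_N_nonpos hD hz h
  rw [geoN] at this
  rw [geo_disc]
  nlinarith

theorem finite_strip (hD : 0 < D) {δ : ℝ} (hδ : 0 < δ) (K : ℝ) :
    {Q : QF | Q.disc = D ∧ Q.A ≠ 0 ∧
      ∃ z : ℂ, δ ≤ z.im ∧ |z.re| ≤ K ∧ sn (Q.tt z) ≠ sn Q.A}.Finite := by
  obtain ⟨a, ha⟩ : ∃ a, a = ((D : ℝ) + 1) / (2 * δ) := ⟨_, rfl⟩
  obtain ⟨b, hb⟩ : ∃ b, b = D + 1 + 2 * a * K := ⟨_, rfl⟩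
  refine (geo_finite a b (b ^ 2 + D)).subset ?_
  rintro Q ⟨rfl, h0, z, h1, h2, h3⟩
  have hz := hδ.trans_le h1
  have e := geo_strip hD hz h3
  have h4 : |2 * Q.A * z.re + Q.B| ≤ Q.disc + 1 :=
    geo_abs_le (by nlinarith [sq_nonneg (2 * Q.A * z.im)])
  have h5 : |2 * Q.A * z.im| ≤ Q.disc + 1 :=
    geo_abs_le (by nlinarith [sq_nonneg (2 * Q.A * z.re + Q.B)])
  have hA0 := geo_one_le h0
  have hA : |(Q.A : ℝ)| ≤ a := by
    rw [ha, le_div_iff₀ (by positivity)]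
    rw [abs_mul, abs_mul, abs_of_pos hz, abs_two] at h5
    have := mul_le_mul_of_nonneg_left h1 (abs_nonneg (Q.A : ℝ))
    linarith
  have hB : |(Q.B : ℝ)| ≤ b := by
    have := abs_sub (2 * Q.A * z.re + Q.B) (2 * Q.A * z.re)
    rw [add_sub_cancel_left, abs_mul, abs_mul, abs_two] at this
    have h3 := mul_le_mul hA h2 (abs_nonneg _) (by linarith)
    linarith
  refine ⟨hA, hB, ?_⟩
  have h6 : |4 * (Q.A : ℝ) * Q.C| ≤ b ^ 2 + Q.disc := by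
    have e2 : 4 * (Q.A : ℝ) * Q.C = Q.B ^ 2 - Q.disc := by rw [geo_disc]; ring
    have hD' : (0 : ℝ) < Q.disc := by exact_mod_cast hD
    rw [e2]
    refine (abs_sub _ _).trans (add_le_add ?_ (abs_of_pos hD').le)
    rw [abs_pow]
    exact pow_le_pow_left₀ (abs_nonneg _) hB 2
  rw [abs_mul, abs_mul, abs_of_pos (by norm_num : (0 : ℝ) < 4)] at h6
  nlinarith [abs_nonneg (Q.C : ℝ)]

theorem im_le_of_sn (hD : 0 < Q.disc) (hA : Q.A ≠ 0) {z : ℂ} (hz : 0 < z.im)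
    (h : sn (Q.tt z) ≠ sn Q.A) : z.im ≤ √Q.disc := by
  have e := geo_strip hD hz h
  have h1 : 1 ≤ (Q.A : ℝ) ^ 2 := by
    rw [← sq_abs]
    exact one_le_pow₀ (geo_one_le hA)
  refine Real.le_sqrt_of_sq_le ?_
  nlinarith [sq_nonneg (2 * Q.A * z.re + Q.B), sq_nonneg z.im,
    mul_le_mul_of_nonneg_right h1 (sq_nonneg z.im)]

theorem finite_cusp (hD : 0 < D) (x y : ℤ) {z : ℂ} (hz : 0 < z.im) :
    {Q : QF | Q.disc = D ∧ Q.ev x y ≠ 0 ∧ sn (Q.tt z) ≠ sn (Q.ev x y)}.Finite := by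
  obtain ⟨k, hk⟩ : ∃ k : ℝ, k = (x - y * z.re) ^ 2 + (y * z.im) ^ 2 := ⟨_, rfl⟩
  refine (finite_tt hD hz (D * k / z.im / √D)).subset ?_
  rintro Q ⟨rfl, h0, h⟩
  refine ⟨rfl, ?_⟩
  have hs := geo_sqrt_pos hD
  have h1 := geo_N_nonpos hD hz h
  have h2 := geo_one_le h0
  have hD' : (0 : ℝ) < Q.disc := by exact_mod_cast hD
  have hk0 : 0 ≤ k := by rw [hk]; positivity
  have he : ((Q.ev x y : ℤ) : ℝ) = Q.A * x ^ 2 + Q.B * x * y + Q.C * y ^ 2 := by simp [QF.ev]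
  have id : 0 ≤ Q.disc * k ^ 2 + 4 * (geoN Q z * (Q.ev x y : ℤ)) * k -
      4 * (((Q.ev x y : ℤ) : ℝ) * z.im) ^ 2 := by
    refine (sq_nonneg (Q.A * (-2 * z.re * x ^ 2 + 2 * x * y * (z.re ^ 2 + z.im ^ 2)) -
      Q.B * (x ^ 2 - (z.re ^ 2 + z.im ^ 2) * y ^ 2) +
      Q.C * (-2 * x * y + 2 * z.re * y ^ 2))).trans_eq ?_
    rw [he, geo_disc, geoN, hk]
    ring
  have h3 : 0 < (((Q.ev x y : ℤ) : ℝ) * z.im) ^ 2 := by
    have : ((Q.ev x y : ℤ) : ℝ) ≠ 0 := by exact_mod_cast h0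
    positivity
  have hk1 : 0 < k := by
    refine hk0.lt_of_ne fun h => ?_
    rw [← h] at id
    linarith
  rw [geo_tt, abs_div, abs_div, abs_of_pos hs, abs_of_pos hz]
  gcongr
  have h4 : |geoN Q z| * |((Q.ev x y : ℤ) : ℝ)| = -(geoN Q z * (Q.ev x y : ℤ)) := by
    rw [← abs_mul, abs_of_nonpos h1]
  have h5 : 4 * (|geoN Q z| * |((Q.ev x y : ℤ) : ℝ)|) ≤ Q.disc * k := by
    refine le_of_mul_le_mul_right ?_ hk1
    rw [h4]
    nlinarith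
  nlinarith [abs_nonneg (geoN Q z), mul_le_mul_of_nonneg_left h2 (abs_nonneg (geoN Q z))]

theorem finite_cusps (hD : 0 < D) (x y x' y' : ℤ) :
    {Q : QF | Q.disc = D ∧ Q.ev x y ≠ 0 ∧ Q.ev x' y' ≠ 0 ∧
      sn (Q.ev x y) ≠ sn (Q.ev x' y')}.Finite := by
  have hI : 0 < I.im := by simp
  refine ((finite_cusp hD x y hI).union (finite_cusp hD x' y' hI)).subset ?_
  rintro Q ⟨h1, h2, h3, h4⟩
  by_cases h : sn (Q.tt I) = sn (Q.ev x y)
  · exact .inr ⟨h1, h3, h ▸ h4⟩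
  · exact .inl ⟨h1, h2, h⟩

end Pool.Agent.P.MP_8b7eba_nt.R1
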