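import Pool.Agent.P.MP_8b7eba_nt.R1.Unf
import Pool.Agent.P.MP_8b7eba_nt.R1.Cnt
import Pool.Agent.P.MP_8b7eba_nt.R1.Ari

/-! The symmetry of the number of pairs for the cycle from `0` to `1/2`. -/

namespace Pool.Agent.P.MP_8b7eba_nt.R1

open Complex Filter Topology MeasureTheory Metric Finset Asymptotics PowerSeries
open scoped Real UpperHalfPlane MatrixGroups ComplexConjugate
open _root_.Pool.Agent.P.MP_8b7eba_nt.Mod (M2 G0 FI L0 om lv xx yy qq UH atI ex mT)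
open BSD15 (OO Good cls gch gJ nm cj rho lam Adm B3 B5 No4 Xp XJ Rn)
open MP_9c97e9_nt (Pt pm Is)

theorem N4_left {k m : ℕ} (hk : k ≠ 0) (F : ℕ → ℕ → ℤ) :
    ∑ p ∈ (k * m).divisorsAntidiagonal, (if k ∣ p.1 then F p.1 p.2 else 0) =
      ∑ p ∈ m.divisorsAntidiagonal, F (k * p.1) p.2 := by
  rw [← Finset.sum_filter]
  symm
  refine Finset.sum_bij (fun p _ => (k * p.1, p.2)) (fun p hp => ?_) (fun p _ q _ h => ?_)
    (fun q hq => ?_) fun _ _ => rfl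
  · obtain ⟨h1, h2⟩ := Nat.mem_divisorsAntidiagonal.1 hp
    exact mem_filter.2 ⟨Nat.mem_divisorsAntidiagonal.2 ⟨by rw [← h1, mul_assoc], mul_ne_zero hk h2⟩,
      dvd_mul_right _ _⟩
  · obtain ⟨h1, h2⟩ := Prod.mk.inj h
    exact Prod.ext (mul_left_cancel₀ hk h1) h2
  · obtain ⟨h1, d, hd⟩ := mem_filter.1 hq
    obtain ⟨h2, h3⟩ := Nat.mem_divisorsAntidiagonal.1 h1
    refine ⟨(d, q.2), Nat.mem_divisorsAntidiagonal.2 ⟨?_, right_ne_zero_of_mul h3⟩,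
      Prod.ext hd.symm rfl⟩
    rw [hd, mul_assoc] at h2
    exact mul_left_cancel₀ hk h2

theorem N4_swap (m : ℕ) (F : ℕ → ℕ → ℤ) :
    ∑ p ∈ m.divisorsAntidiagonal, F p.1 p.2 = ∑ p ∈ m.divisorsAntidiagonal, F p.2 p.1 := by
  rw [Nat.sum_divisorsAntidiagonal F, Nat.sum_divisorsAntidiagonal' fun i j => F j i]

theorem N4_right {k m : ℕ} (hk : k ≠ 0) (F : ℕ → ℕ → ℤ) :
    ∑ p ∈ (k * m).divisorsAntidiagonal, (if k ∣ p.2 then F p.1 p.2 else 0) =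
      ∑ p ∈ m.divisorsAntidiagonal, F p.1 (k * p.2) := by
  rw [N4_swap _ fun i j => if k ∣ j then F i j else 0, N4_left hk fun i j => F j i,
    N4_swap _ fun i j => F j (k * i)]

theorem N4_par {m : ℕ} {p : ℕ × ℕ} (hp : p ∈ (2 * m).divisorsAntidiagonal) : 2 ∣ p.1 ∨ 2 ∣ p.2 :=
  (Nat.Prime.dvd_mul Nat.prime_two).1 ⟨m, (Nat.mem_divisorsAntidiagonal.1 hp).1⟩

/-- The divisor sum identity. -/
theorem N4_id {χ : ℕ → ℤ} {x y : ℤ} (hχ : ∀ d, d ≠ 0 → χ (2 * d) = x * χ d) (hx : x * x = 1)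
    {m : ℕ} (h1 : ¬ 2 ∣ m → x * y = -1) (h2 : 2 ∣ m → x * y = 1) :
    ∑ p ∈ (4 * m).divisorsAntidiagonal, χ p.1 * ((if 4 ∣ p.2 then -1 else 0) +
      if 2 ∣ p.1 ∧ (p.1 + p.2) % 4 = 2 then 1 else 0) =
      ∑ p ∈ (4 * m).divisorsAntidiagonal, χ p.1 +
        (y - 3) * ∑ p ∈ m.divisorsAntidiagonal, χ p.1 := by
  have ne : ∀ {k : ℕ} {p : ℕ × ℕ}, p ∈ k.divisorsAntidiagonal → p.1 ≠ 0 := fun hp =>
    Nat.left_ne_zero_of_mem_divisorsAntidiagonal hp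
  obtain ⟨S, hS⟩ : ∃ S : ℕ → ℤ, ∀ k, S k = ∑ p ∈ k.divisorsAntidiagonal, χ p.1 := ⟨_, fun _ => rfl⟩
  obtain ⟨O, hO⟩ : ∃ O : ℕ → ℤ, ∀ k, O k = ∑ p ∈ k.divisorsAntidiagonal,
    if 2 ∣ p.1 then 0 else χ p.1 := ⟨_, fun _ => rfl⟩
  obtain ⟨U, hU⟩ : ∃ U : ℕ → ℤ, ∀ k, U k = ∑ p ∈ k.divisorsAntidiagonal,
    if 2 ∣ p.2 then 0 else χ p.1 := ⟨_, fun _ => rfl⟩
  have a1 : ∀ k, O (2 * k) = O k := fun k => by
    rw [hO, hO, ← N4_right (m := k) two_ne_zero fun i _ => if 2 ∣ i then 0 else χ i]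
    refine sum_congr rfl fun p hp => ?_
    rcases N4_par hp with h | h <;> simp [h]
  have a2 : ∀ k, S (2 * k) = O k + x * S k := fun k => by
    rw [← a1, hS, hS, hO, mul_sum, sum_congr rfl fun p hp => (hχ p.1 (ne hp)).symm,
      ← N4_left (m := k) two_ne_zero fun i _ => χ i, ← sum_add_distrib]
    refine sum_congr rfl fun p _ => ?_
    split_ifs <;> simp
  have a3 : S (2 * m) = S m + x * U m := by
    have : x * U m = ∑ p ∈ m.divisorsAntidiagonal, if 2 ∣ p.2 then 0 else χ (2 * p.1) := by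
      rw [hU, mul_sum]
      refine sum_congr rfl fun p hp => ?_
      split_ifs
      · simp
      · exact (hχ _ (ne hp)).symm
    rw [this, hS, hS, ← N4_left (m := m) two_ne_zero fun i j => if 2 ∣ j then 0 else χ i,
      ← N4_right (m := m) two_ne_zero fun i _ => χ i, ← sum_add_distrib]
    refine sum_congr rfl fun p hp => ?_
    rcases N4_par hp with h | h
    · by_cases h' : 2 ∣ p.2 <;> simp [h, h']
    · simp [h]
  have a4 : ∑ p ∈ (4 * m).divisorsAntidiagonal, χ p.1 * (if 4 ∣ p.2 then -1 else 0) = -S m := by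
    rw [hS, ← sum_neg_distrib, ← N4_right (k := 4) (m := m) (by norm_num) fun i _ => -χ i]
    refine sum_congr rfl fun p _ => ?_
    split_ifs <;> simp
  have a5 : ∑ p ∈ (4 * m).divisorsAntidiagonal,
      χ p.1 * (if 2 ∣ p.1 ∧ (p.1 + p.2) % 4 = 2 then 1 else 0) =
      ∑ p ∈ m.divisorsAntidiagonal, if (2 * p.1 + 2 * p.2) % 4 = 2 then x * χ p.1 else 0 := by
    rw [← N4_right (m := m) two_ne_zero fun i j => if (2 * i + j) % 4 = 2 then x * χ i else 0]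
    have : ∑ p ∈ (2 * m).divisorsAntidiagonal,
        (if 2 ∣ p.2 then (if (2 * p.1 + p.2) % 4 = 2 then x * χ p.1 else 0) else 0) =
        ∑ p ∈ (2 * m).divisorsAntidiagonal,
          if (2 * p.1 + p.2) % 4 = 2 then χ (2 * p.1) else 0 := by
      refine sum_congr rfl fun p hp => ?_
      rw [hχ _ (ne hp)]
      split_ifs with h h'
      · rfl
      · rfl
      · omega
      · rfl
    rw [this, ← N4_left (m := 2 * m) two_ne_zero fun i j => if (i + j) % 4 = 2 then χ i else 0,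
      show 4 * m = 2 * (2 * m) by ring]
    refine sum_congr rfl fun p _ => ?_
    by_cases h : 2 ∣ p.1 <;> simp [h]
  have a6 := a2 (2 * m)
  have a7 := a2 m
  rw [a1, show 2 * (2 * m) = 4 * m by ring] at a6
  simp only [mul_add, sum_add_distrib]
  rw [a4, a5, ← hS, ← hS]
  by_cases hm : 2 ∣ m
  · have b1 : ∑ p ∈ m.divisorsAntidiagonal,
        (if (2 * p.1 + 2 * p.2) % 4 = 2 then x * χ p.1 else 0) = x * (O m + U m) := by
      obtain ⟨k, rfl⟩ := hm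
      rw [hO, hU, ← sum_add_distrib, mul_sum]
      refine sum_congr rfl fun p hp => ?_
      have := N4_par hp
      split_ifs <;> first | omega | simp
    have b2 : y = x := by linear_combination x * h2 hm - y * hx
    rw [b1, b2, a6, a3]
    linear_combination (x - 1) * a3 - (x - 1) * a7 + (-S m) * hx
  · have par : ∀ p ∈ m.divisorsAntidiagonal, ¬ 2 ∣ p.1 ∧ ¬ 2 ∣ p.2 := fun p hp => by
      have := (Nat.mem_divisorsAntidiagonal.1 hp).1
      exact ⟨fun h => hm (this ▸ h.mul_right _), fun h => hm (this ▸ h.mul_left _)⟩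
    have b1 : ∑ p ∈ m.divisorsAntidiagonal,
        (if (2 * p.1 + 2 * p.2) % 4 = 2 then x * χ p.1 else 0) = 0 :=
      sum_eq_zero fun p hp => if_neg (by have := par p hp; omega)
    have b2 : y = -x := by linear_combination x * h1 hm - y * hx
    have b3 : O m = S m := by
      rw [hO, hS]
      exact sum_congr rfl fun p hp => if_neg (par p hp).1
    rw [b1, b2, a6, a7, b3]
    linear_combination (-S m) * hx

theorem N4_term {n e e' : ℕ} {ρ B : ℤ} (he : e ≠ 0) (hM : 15 * ((e : ℤ) * e') = B ^ 2 + n)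
    (hρ : 15 ∣ B - ρ) (ho : ¬ 2 ∣ ρ) {B₁ C : ℤ} (hC : B₁ = B + 15 * e * C) :
    (if (60 * e : ℤ) ∣ B₁ ^ 2 + n ∧ 30 ∣ B₁ - ρ ∧ (30 * e : ℤ) ∣ B₁ * 2 - 2 * B then
      w4 ⟨0, 2, (B₁ * 2 - 2 * B) / (30 * e)⟩ else 0) =
      if 2 ∣ C then (if ¬ 2 ∣ B ∧ 4 ∣ (e' : ℤ) then -1 else 0)
      else if ¬ 2 ∣ B + e ∧ 4 ∣ (e' : ℤ) + 2 * B - e then 1 else 0 := by
  have h0 : (e : ℤ) ≠ 0 := by exact_mod_cast he
  have e1 : B₁ * 2 - 2 * B = 30 * e * C := by rw [hC]; ring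
  have e2 : B₁ ^ 2 + n = 15 * e * (e' + 2 * C * B + 15 * e * C ^ 2) := by
    rw [hC]; linear_combination -hM
  have e3 : w4 ⟨0, 2, C⟩ = if 2 ∣ C then -1 else 1 := by simp [w4, Lv, QF.disc]
  rw [e1, e2, Int.mul_ediv_cancel_left _ (mul_ne_zero (by norm_num) h0), e3,
    show (60 * e : ℤ) = 15 * e * 4 by ring, hC]
  simp only [mul_dvd_mul_iff_left (mul_ne_zero (by norm_num : (15 : ℤ) ≠ 0) h0), dvd_mul_right,
    and_true]
  obtain ⟨k, rfl | rfl⟩ := Int.even_or_odd' C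
  · rw [if_pos (dvd_mul_right 2 k), if_pos (dvd_mul_right 2 k),
      show (e' : ℤ) + 2 * (2 * k) * B + 15 * e * (2 * k) ^ 2 = e' + 4 * (k * B + 15 * e * k ^ 2) by
        ring, show B + 15 * e * (2 * k) - ρ = B - ρ + 30 * (e * k) by ring]
    exact if_congr (by omega) rfl rfl
  · rw [if_neg (show ¬ 2 ∣ 2 * k + 1 by omega), if_neg (show ¬ 2 ∣ 2 * k + 1 by omega),
      show (e' : ℤ) + 2 * (2 * k + 1) * B + 15 * e * (2 * k + 1) ^ 2 =
        e' + 2 * B + 15 * e + 4 * (k * B + 15 * e * (k ^ 2 + k)) by ring,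
      show B + 15 * e * (2 * k + 1) - ρ = B - ρ + 15 * e + 30 * (e * k) by ring]
    exact if_congr (by omega) rfl rfl

theorem N4_inner {n e e' : ℕ} {ρ B : ℤ} (he : e ≠ 0) (hM : 15 * ((e : ℤ) * e') = B ^ 2 + n)
    (hρ : 15 ∣ B - ρ) (ho : ¬ 2 ∣ ρ) :
    ∑ B₁ ∈ Finset.Ico (0 : ℤ) (30 * e),
      (if (60 * e : ℤ) ∣ B₁ ^ 2 + n ∧ 30 ∣ B₁ - ρ ∧ (30 * e : ℤ) ∣ B₁ * 2 - 2 * B then
        w4 ⟨0, 2, (B₁ * 2 - 2 * B) / (30 * e)⟩ else 0) =
      (if ¬ 2 ∣ B ∧ 4 ∣ (e' : ℤ) then -1 else 0) +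
        if ¬ 2 ∣ B + e ∧ 4 ∣ (e' : ℤ) + 2 * B - e then 1 else 0 := by
  have h0 : (0 : ℤ) < 15 * e := by positivity
  have h1 := Int.emod_nonneg B h0.ne'
  have h2 := Int.emod_lt_of_pos B h0
  have h3 := Int.emod_add_mul_ediv B (15 * e)
  generalize B % (15 * e) = r at h1 h2 h3
  generalize B / (15 * e) = q at h3
  rw [Finset.sum_eq_add_of_mem r (r + 15 * e) (mem_Ico.2 ⟨h1, by omega⟩)
    (mem_Ico.2 ⟨by omega, by omega⟩) (by omega),
    N4_term he hM hρ ho (C := -q) (by linear_combination h3),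
    N4_term he hM hρ ho (C := 1 - q) (by linear_combination h3)]
  · by_cases hq : 2 ∣ q
    · rw [if_pos (show 2 ∣ -q by omega), if_neg (show ¬ 2 ∣ 1 - q by omega)]
    · rw [if_neg (show ¬ 2 ∣ -q by omega), if_pos (show 2 ∣ 1 - q by omega), add_comm]
  · intro c hc hne
    refine if_neg fun ⟨_, _, t, ht⟩ => ?_
    obtain ⟨h4, h5⟩ := mem_Ico.1 hc
    have h6 : c = r + 15 * e * (q + t) := by linarith
    generalize q + t = u at h6
    rcases (show u ≤ -1 ∨ u = 0 ∨ u = 1 ∨ 2 ≤ u by omega) with h | rfl | rfl | h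
    · nlinarith
    · exact hne.1 (by linarith)
    · exact hne.2 (by linarith)
    · nlinarith

theorem N4_half (n : ℕ) [Good n] (ρ : ℤ) (J : Finset ℕ) {b : ℕ} {ρ₂ : ℤ} (hb : b % 4 = 1)
    (ho : ¬ 2 ∣ ρ₂) (B : ℤ) :
    NN n ρ J (fun Q => if Lv (4 * b) (2 * ρ₂) Q ∧ 2 ∣ Q.A ∧ 2 ∣ Q.C then 1 else 0) (2 * B) =
      NN n ρ J (wf b ρ₂ 1) B := by
  refine sum_congr rfl fun c _ => congrArg _ ?_
  have hi : Function.Injective fun Q : QF => (⟨2 * Q.A, 2 * Q.B, 2 * Q.C⟩ : QF) := fun P Q h => by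
    simp only [QF.mk.injEq] at h
    exact QF.ext (by omega) (by omega) (by omega)
  rw [← finsum_mem_univ, finsum_mem_inter_support_eq' _ _
    (Set.range fun Q : QF => (⟨2 * Q.A, 2 * Q.B, 2 * Q.C⟩ : QF)), finsum_mem_range hi]
  · refine finsum_congr fun Q => if_congr ?_ ?_ rfl
    · have : (hq n ρ c).pair ⟨2 * Q.A, 2 * Q.B, 2 * Q.C⟩ = 2 * (hq n ρ c).pair Q := by
        simp only [QF.pair]; ring
      omega
    · rw [wf, Nat.primeFactors_one, prod_empty]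
      refine if_congr ⟨fun ⟨⟨h1, h2, h3⟩, _⟩ => ?_, fun ⟨h1, h2, h3⟩ => ⟨⟨?_, ?_, ?_⟩, ?_, ?_⟩⟩ rfl rfl
      · simp only [QF.disc] at h1 h2 h3
        have h4 : Q.B ^ 2 - 4 * Q.A * Q.C = b := by linarith
        refine ⟨h4, by omega, ?_⟩
        obtain ⟨k, hk | hk⟩ := Int.even_or_odd' Q.B
        · have : (b : ℤ) = 4 * (k ^ 2 - Q.A * Q.C) := by rw [← h4, hk]; ring
          omega
        · omega
      · simp only [QF.disc] at h1 ⊢
        linarith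
      · exact h2.mul_left 2
      · simp only
        omega
      · exact dvd_mul_right _ _
      · exact dvd_mul_right _ _
  · intro Q hQ
    refine iff_of_true trivial ?_
    rw [Function.mem_support] at hQ
    have h2 : Lv (4 * b) (2 * ρ₂) Q ∧ 2 ∣ Q.A ∧ 2 ∣ Q.C := by
      by_contra h2
      exact hQ (by simp only [if_neg h2, ite_self])
    obtain ⟨⟨-, -, h3⟩, h4, h5⟩ := h2
    exact ⟨⟨Q.A / 2, Q.B / 2, Q.C / 2⟩, QF.ext (by simp only; omega) (by simp only; omega)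
      (by simp only; omega)⟩

theorem N4_odd (n : ℕ) [Good n] (ρ : ℤ) (J : Finset ℕ) (b : ℕ) (ρ₂ : ℤ) {B : ℤ} (hB : ¬ 2 ∣ B) :
    NN n ρ J (w2 b ρ₂) B = 0 := by
  refine sum_eq_zero fun c _ => ?_
  rw [finsum_eq_zero_of_forall_eq_zero, mul_zero]
  intro Q
  split_ifs with h
  · refine if_neg fun h1 => hB ?_
    obtain ⟨k, hk⟩ : 2 ∣ Q.B := by have := h1.2.2; omega
    exact ⟨(hq n ρ c).B * k - (hq n ρ c).A * Q.C - Q.A * (hq n ρ c).C, by
      rw [← h, QF.pair, hk]; ring⟩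
  · rfl

theorem N4_XJ_mul (n a : ℕ) {A B : ℕ} (hA : A ≠ 0) (hB : B ≠ 0) :
    XJ n a.primeFactors (A * B) = XJ n a.primeFactors A * XJ n a.primeFactors B := by
  rw [XJ, XJ, XJ, ← prod_mul_distrib]
  exact prod_congr rfl fun p hp => BSD15.Xp_mul n (Nat.prime_of_mem_primeFactors hp) hA hB

theorem N4_XJ_eq (n : ℕ) {a c : ℕ} (ha : Squarefree a) (h : a.Coprime c) :
    XJ n a.primeFactors c = jacobiSym c a := by
  rw [BSD15.cfid_jac_sqf _ ha]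
  exact prod_congr rfl fun p hp => BSD15.Xp_of_not_dvd n fun h1 =>
    (Nat.prime_of_mem_primeFactors hp).one_lt.ne'
      (Nat.eq_one_of_dvd_coprimes h (Nat.dvd_of_mem_primeFactors hp) h1)

theorem N4_cnt {a b M : ℕ} {f B : ℤ} [ha : Good a] (h₃ : Good (a * b)) (h15 : a.Coprime 15)
    (hM : 60 * M = B ^ 2 + a * b * f ^ 2) (hf : IsCoprime f a) :
    cnt a B M = ∑ p ∈ M.divisorsAntidiagonal, XJ (a * b) a.primeFactors p.1 := by
  have := cnt_eq (a := a) (b₁ := 1) (b₃ := b) (M := M) (f := f) (B := B) (by rwa [mul_one]) h₃ h15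
    (by simpa using hM) (by simpa using isCoprime_one_right) hf
  rw [mul_one] at this
  rw [this, Nat.sum_divisorsAntidiagonal fun i _ => XJ (a * b) a.primeFactors i]
  simp

theorem NN_four {n a b : ℕ} [Good n] [Good a] {ρ ρ₁ ρ₂ : ℤ} (hn : n = a * b) (hd : HD n ρ)
    (hd₁ : HD a ρ₁) (h : 30 ∣ ρ - ρ₁ * ρ₂) (B : ℤ) :
    NN n ρ a.primeFactors w4 B = NN a ρ₁ ∅ (w2 b ρ₂) B := by
  subst hn
  have hG : Good (a * b) := inferInstance
  have n4 := hG.h4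
  have a4 := (inferInstance : Good a).h4
  have b4 : b % 4 = 1 := by
    have := Nat.mul_mod a b 4
    rcases (show b % 4 = 0 ∨ b % 4 = 1 ∨ b % 4 = 2 ∨ b % 4 = 3 by omega) with h | h | h | h <;>
      rw [n4, a4, h] at this <;> omega
  have ao : Odd a := Nat.odd_iff.2 (by omega)
  have o1 : ¬ 2 ∣ ρ := fun ⟨k, hk⟩ => by
    obtain ⟨u, v, huv⟩ := hd.coprime
    have : 2 * (u * k + 15 * v) = 1 := by rw [← huv, hk]; ring
    omega
  have o12 : ¬ 2 ∣ ρ₁ * ρ₂ := by omega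
  have o2 : ¬ 2 ∣ ρ₂ := fun h => o12 (h.mul_left _)
  have a2 : IsCoprime (2 : ℤ) a := ⟨-(a / 2), 1, by omega⟩
  have h60 : (60 : ℤ) ∣ ρ₂ ^ 2 - b := by
    have c1 : IsCoprime (15 : ℤ) a := by exact_mod_cast Nat.isCoprime_iff_coprime.2 hd₁.cop.symm
    have c2 : IsCoprime (60 : ℤ) a := by simpa using (a2.mul_left a2).mul_left c1
    refine c2.dvd_of_dvd_mul_left ?_
    obtain ⟨k, hk⟩ := h
    obtain ⟨u, hu⟩ := hd.rt
    obtain ⟨v, hv⟩ := hd₁.rt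
    push_cast at hu
    exact ⟨v * ρ₂ ^ 2 - u + k * (ρ₁ * ρ₂ + 15 * k), by
      linear_combination ρ₂ ^ 2 * hv - hu + (ρ + ρ₁ * ρ₂ + 30 * k) * hk⟩
  rw [NN_unfold hd (κ := 2) ⟨-7, 1, by norm_num⟩
    (fun Q hQ => by by_contra h'; exact hQ (if_neg (by simpa using h'))) wt_w4.inv
    (Nat.primeFactors_mono (dvd_mul_right a b) (by omega)) B]
  by_cases hB : 2 ∣ B
  swap
  · rw [N4_odd _ _ _ _ _ hB]
    refine sum_eq_zero fun e _ => ?_
    rw [sum_eq_zero, mul_zero]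
    refine fun c _ => if_neg fun ⟨_, _, t, ht⟩ => hB ⟨c - 15 * e * t, by linarith⟩
  obtain ⟨B, rfl⟩ := hB
  have hw : w2 b ρ₂ = fun Q => wf (4 * b) (2 * ρ₂) 1 Q + (jacobiSym 2 b - 3) *
      if Lv (4 * b) (2 * ρ₂) Q ∧ 2 ∣ Q.A ∧ 2 ∣ Q.C then 1 else 0 := by
    funext Q
    rw [w2, wf, Nat.primeFactors_one, prod_empty]
    by_cases h1 : Lv (4 * b) (2 * ρ₂) Q <;> by_cases h2 : 2 ∣ Q.A ∧ 2 ∣ Q.C <;> simp [h1, h2]
  have b0 : (0 : ℤ) < b := by omega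
  rw [hw, NN_add hd₁ (D := 4 * b)
      (fun Q hQ => by by_contra h'; exact hQ (if_neg fun h1 => h' h1.1))
      (fun Q hQ => by by_contra h'; exact hQ (if_neg fun h1 => h' h1.1.1)),
    N4_half _ _ _ b4 o2, NN_cnt hd₁ (by omega) (by
      rw [show (2 * ρ₂) ^ 2 - 4 * (b : ℤ) = 4 * (ρ₂ ^ 2 - b) by ring]
      exact h60.mul_left 4), NN_cnt hd₁ b0 h60,
    show 2 * B - ρ₁ * (2 * ρ₂) = 2 * (B - ρ₁ * ρ₂) by ring]
  by_cases h15 : 15 ∣ B - ρ
  swap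
  · rw [if_neg (by omega), if_neg (by omega), mul_zero, add_zero]
    refine sum_eq_zero fun e _ => ?_
    rw [sum_eq_zero, mul_zero]
    refine fun c _ => if_neg fun ⟨_, h1, t, ht⟩ => h15 ?_
    have : c = B + 15 * (e * t) := by linarith
    omega
  have hn0 : (0 : ℤ) ≤ a * b := by positivity
  obtain ⟨M, hM⟩ : ∃ M : ℕ, 15 * (M : ℤ) = B ^ 2 + a * b := by
    obtain ⟨k, hk⟩ := h15
    obtain ⟨u, hu⟩ := hd.rt
    push_cast at hu
    have h1 : 15 * (4 * u + k * (B + ρ)) = B ^ 2 + a * b := by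
      linear_combination -hu - (B + ρ) * hk
    have h2 : 0 ≤ 4 * u + k * (B + ρ) := by nlinarith [sq_nonneg B]
    exact ⟨_, by rwa [Int.toNat_of_nonneg h2]⟩
  have e1 : (((2 * B) ^ 2 + (a * b : ℕ) * 2 ^ 2) / 60).toNat = M := by
    have : (2 * B) ^ 2 + (a * b : ℕ) * 2 ^ 2 = 60 * (M : ℤ) := by push_cast; linarith
    rw [this, Int.mul_ediv_cancel_left _ (by norm_num), Int.toNat_natCast]
  have e2 : (((2 * B) ^ 2 + a * (4 * b)) / 60).toNat = M := by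
    have : (2 * B) ^ 2 + a * (4 * b) = 60 * (M : ℤ) := by linarith
    rw [this, Int.mul_ediv_cancel_left _ (by norm_num), Int.toNat_natCast]
  have c15 : XJ (a * b) a.primeFactors 15 = 1 := by
    have h1 := hd₁.jac
    rw [N4_XJ_eq _ (inferInstance : Good a).sq hd₁.cop]
    rw [jacobiSym.neg _ ao, ZMod.χ₄_nat_three_mod_four a4] at h1
    simpa using h1
  rw [e1, e2, if_pos (by omega), N4_cnt hG hd₁.cop (f := 2) (by linarith) a2,
    ← Nat.sum_divisorsAntidiagonal fun (e _ : ℕ) => XJ (a * b) a.primeFactors (15 * e) *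
      ∑ B₁ ∈ Finset.Ico (0 : ℤ) (30 * e),
        if (60 * e : ℤ) ∣ B₁ ^ 2 + (a * b : ℕ) ∧ 30 ∣ B₁ - ρ ∧ (30 * e : ℤ) ∣ B₁ * 2 - 2 * B then
          w4 ⟨0, 2, (B₁ * 2 - 2 * B) / (30 * e)⟩ else 0]
  have key : ∀ p ∈ M.divisorsAntidiagonal, p.1 ≠ 0 ∧ (p.1 : ℤ) * p.2 = M := fun p hp =>
    ⟨Nat.left_ne_zero_of_mem_divisorsAntidiagonal hp,
      by exact_mod_cast (Nat.mem_divisorsAntidiagonal.1 hp).1⟩
  rw [sum_congr rfl fun p hp => by
    rw [N4_inner (e' := p.2) (key p hp).1 (by rw [(key p hp).2, hM]; push_cast; rfl) h15 o1,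
      N4_XJ_mul _ _ (by norm_num) (key p hp).1, c15, one_mul]]
  have n4' : ((a : ℤ) * b) % 4 = 3 := by exact_mod_cast n4
  obtain ⟨k, rfl | rfl⟩ := Int.even_or_odd' B
  · rw [if_neg (show ¬ 30 ∣ 2 * k - ρ₁ * ρ₂ by omega), mul_zero, add_zero]
    refine sum_congr rfl fun p hp => ?_
    have h1 : ((p.1 : ℤ) * p.2) % 4 = 1 := by
      have : 15 * (M : ℤ) = 4 * k ^ 2 + a * b := by linarith
      rw [(key p hp).2]
      omega
    have h2 := Int.mul_emod p.1 p.2 4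
    have h3 : (p.1 : ℤ) % 4 = 1 ∧ (p.2 : ℤ) % 4 = 1 ∨ (p.1 : ℤ) % 4 = 3 ∧ (p.2 : ℤ) % 4 = 3 := by
      rcases (show (p.1 : ℤ) % 4 = 0 ∨ (p.1 : ℤ) % 4 = 1 ∨ (p.1 : ℤ) % 4 = 2 ∨ (p.1 : ℤ) % 4 = 3 by
        omega) with h | h | h | h <;> rw [h1, h] at h2 <;> omega
    rw [if_neg (by omega), if_pos (by omega), zero_add, mul_one]
  · obtain ⟨t, ht⟩ : ∃ t, k * (k + 1) = 2 * t := (Int.even_mul_succ_self k).two_dvd
    have h8 : 15 * (M : ℤ) = 8 * t + 1 + a * b := by linarith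
    obtain ⟨m, rfl⟩ : 4 ∣ M := by omega
    have e3 : (((2 * k + 1) ^ 2 + a * b) / 60 : ℤ).toNat = m := by
      have : (2 * k + 1) ^ 2 + a * b = 60 * (m : ℤ) := by push_cast at hM; linarith
      rw [this, Int.mul_ediv_cancel_left _ (by norm_num), Int.toNat_natCast]
    have c2 : XJ (a * b) a.primeFactors 2 = jacobiSym 2 a :=
      N4_XJ_eq _ (inferInstance : Good a).sq (Nat.coprime_two_right.2 ao)
    have hxy : jacobiSym 2 a * jacobiSym 2 b = ZMod.χ₈ ((a * b : ℕ) : ZMod 8) := by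
      rw [← jacobiSym.mul_right' _ (by omega) (by omega),
        jacobiSym.at_two (Nat.odd_iff.2 (by omega))]
    have h8' : 60 * m = 8 * t + 1 + (a * b : ℕ) := by push_cast at h8 ⊢; linarith
    rw [ZMod.χ₈_nat_eq_if_mod_eight] at hxy
    rw [if_pos (show 30 ∣ 2 * k + 1 - ρ₁ * ρ₂ by omega), e3,
      N4_cnt hG hd₁.cop (f := 1) (by push_cast at hM; linarith) isCoprime_one_left,
      ← N4_id (x := jacobiSym 2 a) (fun d hd => by rw [N4_XJ_mul _ _ two_ne_zero hd, c2])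
        (by rw [← sq]; exact jacobiSym.sq_one (Int.isCoprime_iff_gcd_eq_one.1 a2))
        (fun h => by rw [hxy, if_neg (by omega), if_neg (by omega)])
        (fun h => by rw [hxy, if_neg (by omega), if_pos (by omega)])]
    refine sum_congr rfl fun p _ => ?_
    rw [if_congr (show ¬ 2 ∣ 2 * k + 1 ∧ 4 ∣ (p.2 : ℤ) ↔ 4 ∣ p.2 by omega) rfl rfl,
      if_congr (show ¬ 2 ∣ 2 * k + 1 + (p.1 : ℤ) ∧ 4 ∣ (p.2 : ℤ) + 2 * (2 * k + 1) - p.1 ↔
        2 ∣ p.1 ∧ (p.1 + p.2) % 4 = 2 by omega) rfl rfl]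

end Pool.Agent.P.MP_8b7eba_nt.R1
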