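import Pool.Agent.P.MP_8b7eba_nt.R1.Cnt

/-! Closed form of the number of pairs weighted by genus characters. -/

namespace Pool.Agent.P.MP_8b7eba_nt.R1

open Complex Filter Topology MeasureTheory Metric Finset Asymptotics PowerSeries
open scoped Real UpperHalfPlane MatrixGroups ComplexConjugate
open _root_.Pool.Agent.P.MP_8b7eba_nt.Mod (M2 G0 FI L0 om lv xx yy qq UH atI ex mT)
open BSD15 (OO Good cls gch gJ nm cj rho lam Adm B3 B5 No4 Xp XJ Rn)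
open MP_9c97e9_nt (Pt pm Is)

theorem NPr_pair_mod {D D' ρ ρ' : ℤ} {P Q : QF} (hP : Lv D ρ P) (hQ : Lv D' ρ' Q) :
    30 ∣ P.pair Q - ρ * ρ' := by
  obtain ⟨-, ⟨a, ha⟩, ⟨b, hb⟩⟩ := hP
  obtain ⟨-, ⟨a', ha'⟩, ⟨b', hb'⟩⟩ := hQ
  refine ⟨b * Q.B + ρ * b' - a * Q.C - a' * P.C, ?_⟩
  rw [QF.pair, ha, ha']
  linear_combination Q.B * hb + ρ * hb'

theorem NPr_not_two {p : ℕ} (hp : p.Prime) (h2 : p ≠ 2) : ¬ (p : ℤ) ∣ 2 := fun h =>
  h2 ((Nat.prime_dvd_prime_iff_eq hp Nat.prime_two).1 (by exact_mod_cast h))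

theorem NPr_syz {p : ℕ} (hp : p.Prime) (h2 : p ≠ 2) {P Q : QF} (hP : (p : ℤ) ∣ P.disc)
    (hQ : (p : ℤ) ∣ Q.disc) (hA : ¬ (p : ℤ) ∣ P.A) (hB : ¬ (p : ℤ) ∣ P.pair Q) :
    P.chip p * Q.chip p = jacobiSym (-2 * P.pair Q) p := by
  have hp' : Prime (p : ℤ) := Nat.prime_iff_prime_int.1 hp
  have e : (p : ℤ) ∣ Q.ev (-P.B) (2 * P.A) - P.A * (-2 * P.pair Q) := by
    have : Q.ev (-P.B) (2 * P.A) - P.A * (-2 * P.pair Q) = Q.A * P.disc := by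
      simp only [QF.ev, QF.pair, QF.disc]; ring
    rw [this]; exact hP.mul_left _
  have hn : ¬ (p : ℤ) ∣ Q.ev (-P.B) (2 * P.A) := fun h => by
    have h1 := dvd_sub h e
    rw [sub_sub_cancel] at h1
    rcases hp'.dvd_or_dvd h1 with h1 | h1
    · exact hA h1
    · rcases hp'.dvd_or_dvd h1 with h1 | h1
      · exact NPr_not_two hp h2 (dvd_neg.1 h1)
      · exact hB h1
  rw [← QF.chip_eq hp h2 hQ hn, jacobiSym.mod_left' (Int.modEq_iff_dvd.2 e).symm,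
    jacobiSym.mul_left, QF.chip, if_neg hA, ← mul_assoc, ← sq,
    jacobiSym.sq_one (BSD15.cfid_gcd hp hA), one_mul]

theorem NPr_facts {n p : ℕ} [Good n] {ρ : ℤ} (hd : HD n ρ) (hp : p.Prime) (hpn : p ∣ n) :
    p ≠ 2 ∧ IsCoprime (15 : ℤ) p ∧ ∀ c, ¬ (p : ℤ) ∣ (hq n ρ c).A := by
  have h4 := (inferInstance : Good n).h4
  have h15 : IsCoprime (15 : ℤ) p :=
    Nat.isCoprime_iff_coprime.2 (Nat.Coprime.coprime_dvd_left hpn hd.cop).symm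
  refine ⟨by rintro rfl; omega, h15, fun c h => ?_⟩
  obtain ⟨h1, -, h3⟩ := hq_spec hd c
  obtain ⟨k, hk⟩ := h1.1.2.1
  rw [hk, Int.mul_ediv_cancel_left _ (by norm_num)] at h3
  rw [hk] at h
  have h5 : (p : ℤ) ∣ k := h15.symm.dvd_of_dvd_mul_left h
  have h6 : (p : ℤ) ∣ 15 * n := (Int.natCast_dvd_natCast.2 hpn).mul_left _
  exact (Nat.prime_iff_prime_int.1 hp).not_isUnit (h3.isUnit_of_dvd' h5 h6)

theorem NPr_family {n p : ℕ} [Good n] {ρ : ℤ} (hd : HD n ρ) (hp : p.Prime) (hpn : p ∣ n)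
    (c : ClassGroup (OO n)) : ∃ A B C : ℤ, Hg n ρ ⟨A, B, p * C⟩ ∧
      cls (QF.idl n ⟨A, B, p * C⟩) = c ∧ ¬ (p : ℤ) ∣ A ∧ (p : ℤ) ∣ B ∧ ¬ (p : ℤ) ∣ C := by
  have hp' : Prime (p : ℤ) := Nat.prime_iff_prime_int.1 hp
  obtain ⟨h2, -, hA⟩ := NPr_facts hd hp hpn
  obtain ⟨h1, hc, -⟩ := hq_spec hd c
  have h3 : ¬ (p : ℤ) ∣ 2 * (hq n ρ c).A := fun h =>
    (hp'.dvd_or_dvd h).elim (NPr_not_two hp h2) (hA c)
  obtain ⟨u, v, huv⟩ := hp'.irreducible.coprime_iff_not_dvd.2 h3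
  have g1 := h1.cmp (Mod.G0_mT (-(v * (hq n ρ c).B)))
  have g2 := (cls_cmp h1.1.1 (Mod.det_mT (-(v * (hq n ρ c).B)))).trans hc
  have g3 : ((hq n ρ c).cmp (mT (-(v * (hq n ρ c).B)))).A = (hq n ρ c).A := by
    simp [QF.cmp, QF.ev, mT]
  have g4 : (p : ℤ) ∣ ((hq n ρ c).cmp (mT (-(v * (hq n ρ c).B)))).B :=
    ⟨u * (hq n ρ c).B, by simp only [QF.cmp, mT]; linear_combination (-(hq n ρ c).B) * huv⟩
  have g5 := g3 ▸ hA c
  generalize (hq n ρ c).cmp (mT (-(v * (hq n ρ c).B))) = R at g1 g2 g4 g5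
  obtain ⟨A, B, C⟩ := R
  have hD : B ^ 2 - 4 * A * C = -n := g1.1.1
  have hn : (p : ℤ) ∣ n := Int.natCast_dvd_natCast.2 hpn
  have g6 : (p : ℤ) ∣ 2 * (2 * (A * C)) := by
    rw [show 2 * (2 * (A * C)) = B ^ 2 + n by linear_combination -hD]
    exact dvd_add (dvd_pow g4 two_ne_zero) hn
  obtain ⟨C', rfl⟩ := (hp'.dvd_or_dvd ((hp'.dvd_or_dvd ((hp'.dvd_or_dvd g6).resolve_left
    (NPr_not_two hp h2))).resolve_left (NPr_not_two hp h2))).resolve_left g5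
  refine ⟨A, B, C', g1, g2, g5, g4, ?_⟩
  rintro ⟨k, rfl⟩
  obtain ⟨l, hl⟩ : (p : ℤ) ∣ B := g4
  have g7 : ((p * p : ℕ) : ℤ) ∣ n := ⟨4 * A * k - l ^ 2, by
    rw [hl] at hD; push_cast; linear_combination hD⟩
  exact hp.not_isUnit ((inferInstance : Good n).sq p (Int.natCast_dvd_natCast.1 g7))

theorem NPr_chip {p q : ℕ} (hp : p.Prime) (hq' : q.Prime) (hpq : q ≠ p) (A B C : ℤ) :
    QF.chip q ⟨p * A, B, C⟩ = jacobiSym p q * QF.chip q ⟨A, B, p * C⟩ := by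
  have h1 : ¬ (q : ℤ) ∣ p := fun h =>
    hpq ((Nat.prime_dvd_prime_iff_eq hq' hp).1 (Int.natCast_dvd_natCast.1 h))
  simp only [QF.chip]
  by_cases h : (q : ℤ) ∣ A
  · rw [if_pos h, if_pos (h.mul_left _), jacobiSym.mul_left, ← mul_assoc, ← sq,
      jacobiSym.sq_one (BSD15.cfid_gcd hq' h1), one_mul]
  · rw [if_neg h, if_neg fun h2 => ((Nat.prime_iff_prime_int.1 hq').dvd_or_dvd h2).elim h1 h,
      jacobiSym.mul_left]

theorem NPr_wf {p b : ℕ} (hp : p.Prime) (h15 : IsCoprime (15 : ℤ) p) (hb : Squarefree b)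
    (hpb : ¬ p ∣ b) (D ρ A B C : ℤ) :
    wf D ρ b ⟨p * A, B, C⟩ = jacobiSym p b * wf D ρ b ⟨A, B, p * C⟩ := by
  have h : Lv D ρ ⟨p * A, B, C⟩ ↔ Lv D ρ ⟨A, B, p * C⟩ := by
    have e : QF.disc ⟨p * A, B, C⟩ = QF.disc ⟨A, B, p * C⟩ := by simp only [QF.disc]; ring
    simp only [Lv, e]
    exact ⟨fun h => ⟨h.1, h15.dvd_of_dvd_mul_left h.2.1, h.2.2⟩,
      fun h => ⟨h.1, h.2.1.mul_left _, h.2.2⟩⟩
  unfold wf
  by_cases h1 : Lv D ρ ⟨A, B, p * C⟩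
  · rw [if_pos h1, if_pos (h.2 h1), BSD15.cfid_jac_sqf _ hb, ← prod_mul_distrib]
    refine prod_congr rfl fun q hq => NPr_chip hp (Nat.prime_of_mem_primeFactors hq) ?_ A B C
    rintro rfl
    exact hpb (Nat.dvd_of_mem_primeFactors hq)
  · rw [if_neg h1, if_neg (mt h.1 h1), mul_zero]

theorem NPr_finsum (P : QF) (B : ℤ) (w : QF → ℤ) :
    (∑ᶠ Q : QF, if P.pair Q = B then w Q else 0) = ∑ᶠ Q ∈ {Q : QF | P.pair Q = B}, w Q := by
  rw [finsum_mem_def]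
  refine finsum_congr fun Q => ?_
  by_cases h : P.pair Q = B
  · rw [if_pos h, Set.indicator_of_mem (s := {Q : QF | P.pair Q = B}) h]
  · rw [if_neg h, Set.indicator_of_notMem (s := {Q : QF | P.pair Q = B}) h]

theorem NPr_bij {p : ℕ} (hp : p.Prime) (h2 : p ≠ 2) {A B₁ C B k : ℤ} (hA : ¬ (p : ℤ) ∣ A)
    (hB₁ : (p : ℤ) ∣ B₁) (hC : ¬ (p : ℤ) ∣ C) (hB : (p : ℤ) ∣ B) {w : QF → ℤ}
    (hw : ∀ x y z : ℤ, w ⟨p * x, y, z⟩ = k * w ⟨x, y, p * z⟩) :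
    (∑ᶠ Q : QF, if QF.pair ⟨A * p, B₁, C⟩ Q = B then w Q else 0) =
      k * ∑ᶠ Q : QF, if QF.pair ⟨A, B₁, p * C⟩ Q = B then w Q else 0 := by
  have hp' : Prime (p : ℤ) := Nat.prime_iff_prime_int.1 hp
  have hd : ∀ Q : QF, QF.pair ⟨A, B₁, p * C⟩ Q = B → (p : ℤ) ∣ Q.C := by
    intro Q hQ
    have h1 : (p : ℤ) ∣ 2 * (A * Q.C) := by
      rw [show 2 * (A * Q.C) = B₁ * Q.B - p * (2 * Q.A * C) - B by
        rw [← hQ, QF.pair]; ring]
      exact dvd_sub (dvd_sub (hB₁.mul_right _) (dvd_mul_right _ _)) hB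
    exact (hp'.dvd_or_dvd ((hp'.dvd_or_dvd h1).resolve_left (NPr_not_two hp h2))).resolve_left hA
  have hm : ∀ Q : QF, (k * if QF.pair ⟨A, B₁, p * C⟩ Q = B then w Q else 0) =
      if QF.pair ⟨A, B₁, p * C⟩ Q = B then k * w Q else 0 := fun Q => by
    rw [mul_ite, mul_zero]
  rw [mul_finsum, finsum_congr hm, NPr_finsum, NPr_finsum]
  symm
  refine finsum_mem_eq_of_bijOn (fun Q : QF => (⟨p * Q.A, Q.B, Q.C / p⟩ : QF)) ⟨?_, ?_, ?_⟩ ?_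
  · rintro ⟨x, y, z⟩ hQ
    obtain ⟨z, rfl⟩ : (p : ℤ) ∣ z := hd _ hQ
    have h1 : QF.pair ⟨A, B₁, p * C⟩ ⟨x, y, p * z⟩ = B := hQ
    show QF.pair ⟨A * p, B₁, C⟩ ⟨p * x, y, p * z / p⟩ = B
    rw [Int.mul_ediv_cancel_left _ hp'.ne_zero, ← h1]
    simp only [QF.pair]
    ring
  · rintro ⟨x, y, z⟩ hQ ⟨x', y', z'⟩ hQ' e
    obtain ⟨z, rfl⟩ : (p : ℤ) ∣ z := hd _ hQ
    obtain ⟨z', rfl⟩ : (p : ℤ) ∣ z' := hd _ hQ'
    simp only [QF.mk.injEq, Int.mul_ediv_cancel_left _ hp'.ne_zero] at e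
    rw [mul_left_cancel₀ hp'.ne_zero e.1, e.2.1, e.2.2]
  · rintro ⟨x, y, z⟩ hQ
    have h0 : QF.pair ⟨A * p, B₁, C⟩ ⟨x, y, z⟩ = B := hQ
    have h1 : (p : ℤ) ∣ 2 * (x * C) := by
      rw [show 2 * (x * C) = B₁ * y - p * (2 * A * z) - B by rw [← h0, QF.pair]; ring]
      exact dvd_sub (dvd_sub (hB₁.mul_right _) (dvd_mul_right _ _)) hB
    obtain ⟨x, rfl⟩ := (hp'.dvd_or_dvd ((hp'.dvd_or_dvd h1).resolve_left
      (NPr_not_two hp h2))).resolve_right hC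
    refine ⟨⟨x, y, p * z⟩, ?_, ?_⟩
    · show QF.pair ⟨A, B₁, p * C⟩ ⟨x, y, p * z⟩ = B
      rw [← h0]
      simp only [QF.pair]
      ring
    · show (⟨p * x, y, p * z / p⟩ : QF) = _
      rw [Int.mul_ediv_cancel_left _ hp'.ne_zero]
  · rintro ⟨x, y, z⟩ hQ
    obtain ⟨z, rfl⟩ : (p : ℤ) ∣ z := hd _ hQ
    show _ = w ⟨p * x, y, p * z / p⟩
    rw [Int.mul_ediv_cancel_left _ hp'.ne_zero, hw]

theorem NPr_flip {n p : ℕ} [Good n] {ρ : ℤ} (hd : HD n ρ) (hp : p.Prime) (hpn : p ∣ n)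
    {w : QF → ℤ} (hw : ∀ Q g, G0 g → w (Q.cmp g) = w Q) {k B : ℤ}
    (hk : ∀ x y z : ℤ, w ⟨p * x, y, z⟩ = k * w ⟨x, y, p * z⟩) (hB : (p : ℤ) ∣ B) {J : Finset ℕ}
    (hJ : J ⊆ n.primeFactors) : NN n ρ J w B = XJ n J p * k * NN n ρ J w B := by
  have h4 := (inferInstance : Good n).h4
  obtain ⟨h2, -, -⟩ := NPr_facts hd hp hpn
  have hp0 : (0 : ℤ) < p := by exact_mod_cast hp.pos
  choose A B₁ C h1 hc hA hB₁ hC using NPr_family hd hp hpn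
  have hD : ∀ c, B₁ c ^ 2 - 4 * A c * (p * C c) = -n := fun c => (h1 c).1.1
  have hD' : ∀ c, QF.disc ⟨A c * p, B₁ c, C c⟩ = -n := fun c => by
    rw [← hD c, QF.disc]; ring
  have hD'' : ∀ c, QF.disc ⟨p, B₁ c, A c * C c⟩ = -n := fun c => by
    rw [← hD c, QF.disc]; ring
  have h1' : ∀ c, Hg n ρ ⟨A c * p, B₁ c, C c⟩ := fun c =>
    ⟨⟨hD' c, (h1 c).1.2.1.mul_right _, (h1 c).1.2.2⟩, mul_pos (h1 c).2 hp0⟩
  have hπ : ∀ c, QF.idl n ⟨p, B₁ c, A c * C c⟩ = QF.idl n ⟨p, p, 0⟩ := fun c => by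
    refine idl_congr ?_
    obtain ⟨l, hl⟩ := hB₁ c
    obtain ⟨j, hj⟩ : 2 ∣ l - 1 := by
      by_contra h
      obtain ⟨j, hj⟩ : 2 ∣ l := by omega
      have := hD c
      rw [hl, hj, show (p * (2 * j)) ^ 2 - 4 * A c * (p * C c) =
        4 * ((p * j) ^ 2 - A c * (p * C c)) by ring] at this
      omega
    exact ⟨j, by rw [hl]; linear_combination p * hj⟩
  have hc' : ∀ c, cls (QF.idl n ⟨A c * p, B₁ c, C c⟩) = c * cls (QF.idl n ⟨p, p, 0⟩) := fun c => by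
    rw [idl_mul (hD' c), BSD15.cls_mul (idl_ne_bot _) (idl_ne_bot _), hc, hπ]
  have hX : gJ J (cls (QF.idl n ⟨p, p, 0⟩)) = XJ n J p := by
    rw [← hπ 1, gJ_idl hJ (hD'' 1), Int.natAbs_natCast]
  have e1 := NN_eq hd hw (P := fun c => ⟨A c, B₁ c, p * C c⟩) h1
    (fun c c' h => by simpa only [hc] using h) J B
  have e2 := NN_eq hd hw (P := fun c => ⟨A c * p, B₁ c, C c⟩) h1'
    (fun c c' h => by simpa only [hc', mul_left_inj] using h) J B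
  refine e2.trans ?_
  rw [e1, mul_sum]
  refine sum_congr rfl fun c _ => ?_
  rw [hc, hc', BSD15.gJ_mul hJ, hX, NPr_bij hp h2 (hA c) (hB₁ c) (hC c) hB hk]
  ring

theorem NN_pr {n a b₁ b₃ : ℕ} [Good n] {ρ ρ₂ : ℤ} (hn : n = a * b₁) (hd : HD n ρ)
    (hb : Adm (b₁ * b₃)) (h4 : b₁ * b₃ % 4 = 1) (h2 : 60 ∣ ρ₂ ^ 2 - b₁ * b₃)
    (hin : ∀ p ∈ b₁.primeFactors, jacobiSym (-(a * b₃)) p = -1) (B : ℤ) :
    NN n ρ a.primeFactors (wf (b₁ * b₃) ρ₂ b₃) B =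
      if 30 ∣ B - ρ * ρ₂ ∧ IsCoprime B b₁ then
        jacobiSym (-2 * B) b₁ * cnt n B ((B ^ 2 + n * (b₁ * b₃)) / 60).toNat else 0 := by
  have hsq := (inferInstance : Good n).sq
  have hn4 := (inferInstance : Good n).h4
  have hab : a.Coprime b₁ := Nat.coprime_of_squarefree_mul (hn ▸ hsq)
  have hbb : b₁.Coprime b₃ := Nat.coprime_of_squarefree_mul hb.1
  have hn0 : n ≠ 0 := hsq.ne_zero
  have hb1 : b₁ ∣ n := hn ▸ dvd_mul_left _ _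
  have hJ : a.primeFactors ⊆ n.primeFactors :=
    Nat.primeFactors_mono (hn ▸ dvd_mul_right _ _) hn0
  by_cases h30 : 30 ∣ B - ρ * ρ₂
  swap
  · rw [if_neg fun h => h30 h.1]
    refine sum_eq_zero fun c _ => ?_
    rw [finsum_eq_zero_of_forall_eq_zero, mul_zero]
    intro Q
    split_ifs with h
    · exact if_neg fun h' => h30 (h ▸ NPr_pair_mod (hq_spec hd c).1.1 h')
    · rfl
  by_cases hcop : IsCoprime B b₁
  · have hD : (0 : ℤ) < b₁ * b₃ := by exact_mod_cast Nat.pos_of_ne_zero hb.1.ne_zero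
    have h1 := NN_cnt hd hD h2 B
    rw [if_pos h30] at h1
    rw [if_pos ⟨h30, hcop⟩, ← h1, ← wf_swap hb h4, NN, NN, mul_sum]
    refine sum_congr rfl fun c _ => ?_
    obtain ⟨g1, g2, -⟩ := hq_spec hd c
    have hg : gJ a.primeFactors c = ∏ p ∈ b₁.primeFactors, (hq n ρ c).chip p := by
      have e : n.primeFactors \ a.primeFactors = b₁.primeFactors := by
        rw [hn, hab.primeFactors_mul, union_sdiff_cancel_left hab.disjoint_primeFactors]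
      rw [← BSD15.gJ_compl hJ, e, gJ]
      refine prod_congr rfl fun p hp => ?_
      rw [← gch_eq_chip (Nat.primeFactors_mono hb1 hn0 hp) g1.1.1 g1.2, g2]
    rw [hg, gJ, prod_empty, one_mul, mul_finsum, mul_finsum]
    refine finsum_congr fun Q => ?_
    split_ifs with h
    · unfold wf
      split_ifs with h'
      · rw [Nat.primeFactors_one, prod_empty, mul_one, ← prod_mul_distrib,
          BSD15.cfid_jac_sqf _ hb.left.1, ← h]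
        refine prod_congr rfl fun p hp => ?_
        have hp1 := Nat.prime_of_mem_primeFactors hp
        have hp2 := Nat.dvd_of_mem_primeFactors hp
        have hp3 : (p : ℤ) ∣ b₁ := Int.natCast_dvd_natCast.2 hp2
        obtain ⟨f1, -, f2⟩ := NPr_facts hd hp1 (hp2.trans hb1)
        refine NPr_syz hp1 f1 ?_ ?_ (f2 c) fun h3 => ?_
        · rw [g1.1.1, dvd_neg]
          exact Int.natCast_dvd_natCast.2 (hp2.trans hb1)
        · rw [h'.1]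
          exact hp3.mul_right _
        · exact (Nat.prime_iff_prime_int.1 hp1).not_isUnit (hcop.isUnit_of_dvd' (h ▸ h3) hp3)
      · rw [mul_zero, mul_zero]
    · rw [mul_zero, mul_zero]
  · rw [if_neg fun h => hcop h.2]
    obtain ⟨p, hp, hpd⟩ := Nat.exists_prime_and_dvd (mt Int.isCoprime_iff_gcd_eq_one.2 hcop)
    have hpB : (p : ℤ) ∣ B := (Int.natCast_dvd_natCast.2 hpd).trans (Int.gcd_dvd_left _ _)
    have hpb : p ∣ b₁ :=
      Int.natCast_dvd_natCast.1 ((Int.natCast_dvd_natCast.2 hpd).trans (Int.gcd_dvd_right _ _))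
    obtain ⟨f1, f2, -⟩ := NPr_facts hd hp (hpb.trans hb1)
    have ho : Odd (b₁ * b₃) := Nat.odd_iff.2 (by omega)
    have ho3 : Odd b₃ := (Nat.odd_mul.1 ho).2
    have hp3 : ¬ p ∣ b₃ := fun h => hp.one_lt.ne' (Nat.eq_one_of_dvd_coprimes hbb hpb h)
    have hpa : ¬ p ∣ a := fun h => hp.one_lt.ne' (Nat.eq_one_of_dvd_coprimes hab h hpb)
    have h1 := NPr_flip hd hp (hpb.trans hb1) (w := wf (b₁ * b₃) ρ₂ b₃)
      (fun Q g hg => wf_cmp ho3 (dvd_mul_left _ _) Q hg)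
      (NPr_wf hp f2 hb.right.1 hp3 _ _) hpB hJ
    have hsa : Squarefree a := (hn ▸ hsq : Squarefree (a * b₁)).of_mul_left
    have hX : XJ n a.primeFactors p = jacobiSym p a := by
      rw [XJ, BSD15.cfid_jac_sqf _ hsa]
      refine prod_congr rfl fun q hq => BSD15.Xp_of_not_dvd n fun h => hpa ?_
      rw [← (Nat.prime_dvd_prime_iff_eq (Nat.prime_of_mem_primeFactors hq) hp).1 h]
      exact Nat.dvd_of_mem_primeFactors hq
    have h3 : a * b₃ % 4 = 3 := by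
      have o1 := Nat.odd_iff.1 (Nat.odd_mul.1 ho).1
      have o3 := Nat.odd_iff.1 ho3
      rw [hn, Nat.mul_mod] at hn4
      rw [Nat.mul_mod] at h4 ⊢
      rcases (show b₁ % 4 = 1 ∨ b₁ % 4 = 3 by omega) with h | h <;>
        rcases (show b₃ % 4 = 1 ∨ b₃ % 4 = 3 by omega) with h' | h' <;>
        rw [h] at hn4 <;> rw [h, h'] at h4 <;> rw [h'] <;> omega
    have h5 := hin p (Nat.mem_primeFactors.2 ⟨hp, hpb, hb.left.1.ne_zero⟩)
    rw [Mod.jac_recip (by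
      have : ((a * b₃ : ℕ) : ℤ) % 4 = 3 := by exact_mod_cast h3
      push_cast at this
      omega) (hp.odd_of_ne_two f1), Int.natAbs_neg, Int.natAbs_mul, Int.natAbs_natCast,
      Int.natAbs_natCast, jacobiSym.mul_right' _ hsa.ne_zero hb.right.1.ne_zero] at h5
    rw [hX, h5] at h1
    linarith

end Pool.Agent.P.MP_8b7eba_nt.R1
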