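import Pool.Agent.P.MP_8b7eba_nt.R1.Unf

/-! Closed form of the number of pairs for a square discriminant. -/

namespace Pool.Agent.P.MP_8b7eba_nt.R1

open Complex Filter Topology MeasureTheory Metric Finset Asymptotics PowerSeries
open scoped Real UpperHalfPlane MatrixGroups ComplexConjugate
open _root_.Pool.Agent.P.MP_8b7eba_nt.Mod (M2 G0 FI L0 om lv xx yy qq UH atI ex mT)
open BSD15 (OO Good cls gch gJ nm cj rho lam Adm B3 B5 No4 Xp XJ Rn)
open MP_9c97e9_nt (Pt pm Is)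

theorem NSq_wf {b : ℕ} (hb : Squarefree b) (C : ℤ) :
    wf (b ^ 2) (st b) b ⟨0, st b, C⟩ = jacobiSym C b := by
  have h : Lv ((b : ℤ) ^ 2) (st b) ⟨0, st b, C⟩ := by
    refine ⟨?_, dvd_zero _, ?_⟩
    · simp only [QF.disc]
      rw [st_sq]; ring
    · simp
  rw [wf, if_pos h, BSD15.cfid_jac_sqf C hb]
  refine Finset.prod_congr rfl fun p _ => ?_
  simp [QF.chip]

theorem NSq_dvd_st (b : ℕ) : (b : ℤ) ∣ st b := by
  unfold st; split_ifs
  · exact dvd_rfl
  · exact dvd_neg.2 dvd_rfl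

theorem NSq_cop_st {b : ℕ} {m : ℤ} (h : IsCoprime (b : ℤ) m) : IsCoprime (st b) m := by
  unfold st; split_ifs
  · exact h
  · exact h.neg_left

theorem NSq_jac_ne {p : ℕ} (hp : p.Prime) {x y : ℤ} (h : (p : ℤ) ∣ x ^ 2 + y) :
    jacobiSym (-y) p ≠ -1 := by
  have e : jacobiSym (-y) p = jacobiSym (x ^ 2) p := by
    apply jacobiSym.mod_left'
    exact (Int.emod_emod_of_dvd _ dvd_rfl).symm.trans
      ((Int.emod_emod_of_dvd _ dvd_rfl).trans
        (Int.ModEq.symm ((Int.modEq_iff_dvd).2 (by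
          have : -y - x ^ 2 = -(x ^ 2 + y) := by ring
          rw [this]; exact dvd_neg.2 h))))
  have _ := hp
  rw [e, jacobiSym.pow_left]
  have := sq_nonneg (jacobiSym x p)
  omega

theorem NSq_jac_zero {b p : ℕ} (hb : Squarefree b) (hp : p ∈ b.primeFactors) {C : ℤ}
    (h : (p : ℤ) ∣ C) : jacobiSym C b = 0 := by
  rw [BSD15.cfid_jac_sqf C hb]
  exact Finset.prod_eq_zero hp (BSD15.cfid_jac_zero (Nat.prime_of_mem_primeFactors hp) h)

theorem NSq_XJ {n a : ℕ} (ha : Squarefree a) (h15 : a.Coprime 15) {e : ℕ} (he : e ≠ 0) :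
    XJ n a.primeFactors (15 * e) = jacobiSym 15 a * XJ n a.primeFactors e := by
  rw [BSD15.cfid_jac_sqf 15 ha, BSD15.XJ, BSD15.XJ, ← Finset.prod_mul_distrib]
  refine Finset.prod_congr rfl fun p hp => ?_
  have hp' := Nat.prime_of_mem_primeFactors hp
  rw [BSD15.Xp_mul n hp' (by norm_num) he, BSD15.Xp_of_not_dvd]
  · norm_num
  · exact (Nat.Prime.coprime_iff_not_dvd hp').1
      (Nat.Coprime.coprime_dvd_left (Nat.dvd_of_mem_primeFactors hp) h15)

theorem NSq_inner {n b : ℕ} {ρ B κ M e : ℤ} (hκ : (b : ℤ) ∣ κ) (he : 0 < e)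
    (hc : IsCoprime κ (30 * e)) (hc' : IsCoprime (b : ℤ) (30 * e)) (hρ : 30 ∣ B - ρ * κ)
    (hM : B ^ 2 + n * κ ^ 2 = 60 * M) (heM : e ∣ M) :
    (∑ B₁ ∈ Finset.Ico (0 : ℤ) (30 * e),
      if (60 * e : ℤ) ∣ B₁ ^ 2 + n ∧ 30 ∣ B₁ - ρ ∧ (30 * e : ℤ) ∣ B₁ * κ - B then
        jacobiSym ((B₁ * κ - B) / (30 * e)) b else 0) =
      jacobiSym (-2 * B) b * jacobiSym 15 b * jacobiSym e b := by
  have h30 : (0 : ℤ) < 30 * e := by positivity
  obtain ⟨u, v, huv⟩ := hc
  have hc : IsCoprime κ (30 * e) := ⟨u, v, huv⟩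
  have h0 : (30 * e : ℤ) ∣ (u * B) % (30 * e) * κ - B := by
    have e1 := Int.emod_add_mul_ediv (u * B) (30 * e)
    refine ⟨-(u * B / (30 * e)) * κ - v * B, ?_⟩
    linear_combination κ * e1 + B * huv
  rw [Finset.sum_eq_single ((u * B) % (30 * e))]
  · obtain ⟨C, hC⟩ := h0
    obtain ⟨N, hN⟩ := heM
    have c30 : IsCoprime κ 30 := hc.of_mul_right_left
    have c60 : IsCoprime (κ ^ 2) (60 * e) := by
      have c2 : IsCoprime κ 2 := IsCoprime.of_mul_right_left (y := 2) (z := 15) (by simpa using c30)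
      have : (60 * e : ℤ) = 2 * (30 * e) := by ring
      rw [this]
      exact (c2.mul_right hc).pow_left
    rw [if_pos]
    · rw [hC, Int.mul_ediv_cancel_left _ h30.ne']
      have j1 : jacobiSym (30 * e * C) b = jacobiSym (-B) b := by
        apply jacobiSym.mod_left'
        obtain ⟨k, hk⟩ := hκ
        refine Int.ModEq.symm ((Int.modEq_iff_dvd).2 ⟨u * B % (30 * e) * k, ?_⟩)
        rw [← hC, hk]; ring
      have j2 : jacobiSym (30 * e) b ^ 2 = 1 :=
        jacobiSym.sq_one (Int.isCoprime_iff_gcd_eq_one.1 hc'.symm)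
      have j3 : jacobiSym (30 * e) b = jacobiSym 2 b * jacobiSym 15 b * jacobiSym e b := by
        rw [← jacobiSym.mul_left, ← jacobiSym.mul_left]; norm_num
      have j4 : jacobiSym (-2 * B) b = jacobiSym 2 b * jacobiSym (-B) b := by
        rw [← jacobiSym.mul_left]; congr 1; ring
      rw [jacobiSym.mul_left] at j1
      rw [j4, ← j1]
      calc jacobiSym C b = jacobiSym (30 * e) b ^ 2 * jacobiSym C b := by rw [j2, one_mul]
        _ = (jacobiSym 2 b * jacobiSym 15 b * jacobiSym e b) *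
            (jacobiSym (30 * e) b * jacobiSym C b) := by rw [← j3]; ring
        _ = _ := by ring
    · refine ⟨?_, ?_, ⟨C, hC⟩⟩
      · refine c60.symm.dvd_of_dvd_mul_left ⟨N + B * C + 15 * e * C ^ 2, ?_⟩
        have e2 : u * B % (30 * e) * κ = B + 30 * e * C := by linear_combination hC
        calc κ ^ 2 * ((u * B % (30 * e)) ^ 2 + n) = (u * B % (30 * e) * κ) ^ 2 + n * κ ^ 2 := by
              ring
          _ = _ := by rw [e2]; linear_combination hM + 60 * hN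
      · obtain ⟨t, ht⟩ := hρ
        refine c30.symm.dvd_of_dvd_mul_left ⟨e * C + t, ?_⟩
        linear_combination hC + ht
  · intro B₁ hB₁ hne
    rw [if_neg]
    rintro ⟨-, -, h3⟩
    apply hne
    have h4 : (30 * e : ℤ) ∣ B₁ - u * B % (30 * e) := by
      refine hc.symm.dvd_of_dvd_mul_left ?_
      have : κ * (B₁ - u * B % (30 * e)) = (B₁ * κ - B) - (u * B % (30 * e) * κ - B) := by ring
      rw [this]; exact dvd_sub h3 h0
    have h5 := Finset.mem_Ico.1 hB₁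
    have h6 := Int.emod_nonneg (u * B) h30.ne'
    have h7 := Int.emod_lt_of_pos (u * B) h30
    have h8 : B₁ - u * B % (30 * e) = 0 :=
      Int.eq_zero_of_abs_lt_dvd h4 (abs_lt.2 ⟨by omega, by omega⟩)
    omega
  · intro h
    exact absurd (Finset.mem_Ico.2 ⟨Int.emod_nonneg _ h30.ne', Int.emod_lt_of_pos _ h30⟩) h

theorem NN_sq {n a b₁ b₃ : ℕ} [Good n] {ρ : ℤ} (hn : n = a * b₃) (hd : HD n ρ) (hb : Adm b₁)
    (hin : ∀ p ∈ b₁.primeFactors, jacobiSym (-n) p = -1)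
    (h15 : jacobiSym 15 a = jacobiSym 15 b₁) (B : ℤ) :
    NN n ρ a.primeFactors (wf (b₁ ^ 2) (st b₁) b₁) B =
      if 30 ∣ B - ρ * st b₁ ∧ IsCoprime B b₁ then jacobiSym (-2 * B) b₁ *
        ∑ e ∈ ((B ^ 2 + n * b₁ ^ 2) / 60).toNat.divisors,
          jacobiSym (e : ℕ) b₁ * XJ n a.primeFactors e else 0 := by
  have hG : Good n := inferInstance
  have hn0 : n ≠ 0 := hG.sq.ne_zero
  have han : a ∣ n := ⟨b₃, hn⟩
  have hb0 : b₁ ≠ 0 := hb.1.ne_zero
  have c30 : IsCoprime (b₁ : ℤ) 30 := by exact_mod_cast Nat.isCoprime_iff_coprime.2 hb.2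
  have c15 : IsCoprime (b₁ : ℤ) 15 :=
    IsCoprime.of_mul_right_right (y := 2) (z := 15) (by simpa using c30)
  have hodd : Odd b₁ := by
    have h2 : b₁.Coprime 2 := Nat.Coprime.coprime_dvd_right (by norm_num) hb.2
    exact Nat.Coprime.odd_of_right h2
  rw [NN_unfold hd (NSq_cop_st c15) (w := wf (b₁ ^ 2) (st b₁) b₁)
    (fun Q h => by
      rw [st_sq]
      by_contra h'
      exact h (if_neg h'))
    (fun Q g hg => wf_cmp hodd (dvd_pow_self _ two_ne_zero) Q hg)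
    (Nat.primeFactors_mono han hn0) B]
  simp only [NSq_wf hb.1]
  split_ifs with h
  · obtain ⟨h1, h2⟩ := h
    have h60 : (60 : ℤ) ∣ B ^ 2 + n * st b₁ ^ 2 := by
      obtain ⟨t, ht⟩ := h1
      obtain ⟨r, hr⟩ := hd.rt
      refine ⟨15 * t ^ 2 + t * ρ * st b₁ + r * st b₁ ^ 2, ?_⟩
      have : B = ρ * st b₁ + 30 * t := by linear_combination ht
      rw [this]; linear_combination st b₁ ^ 2 * hr
    obtain ⟨M, hM⟩ := h60
    have hM' : B ^ 2 + n * (b₁ : ℤ) ^ 2 = 60 * M := by rw [← st_sq, hM]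
    have hM0 : 0 ≤ M := by
      have : (0 : ℤ) ≤ B ^ 2 + n * (b₁ : ℤ) ^ 2 := by positivity
      omega
    rw [hM, hM', Int.mul_ediv_cancel_left _ (by norm_num), Finset.mul_sum]
    refine Finset.sum_congr rfl fun e he => ?_
    have he0 : e ≠ 0 := (Nat.pos_of_mem_divisors he).ne'
    have heM : (e : ℤ) ∣ M := by
      have := Int.natCast_dvd_natCast.2 (Nat.dvd_of_mem_divisors he)
      rwa [Int.toNat_of_nonneg hM0] at this
    have ce : IsCoprime (b₁ : ℤ) (e : ℤ) := by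
      obtain ⟨N, hN⟩ := heM
      have c1 : IsCoprime (b₁ : ℤ) (B ^ 2 + b₁ * (n * b₁)) := (h2.symm.pow_right).add_mul_left_right _
      have : B ^ 2 + b₁ * (n * b₁) = e * (60 * N) := by linear_combination hM' + 60 * hN
      rw [this] at c1
      exact c1.of_mul_right_left
    rw [NSq_inner (NSq_dvd_st b₁) (by exact_mod_cast Nat.pos_of_ne_zero he0)
      (NSq_cop_st (c30.mul_right ce)) (c30.mul_right ce) h1 hM heM,
      NSq_XJ (hG.sq.squarefree_of_dvd han) (Nat.Coprime.coprime_dvd_left han hd.cop) he0, h15]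
    have j : jacobiSym 15 b₁ ^ 2 = 1 := jacobiSym.sq_one (Int.isCoprime_iff_gcd_eq_one.1 c15.symm)
    linear_combination (jacobiSym (-2 * B) b₁ * jacobiSym e b₁ * XJ n a.primeFactors e) * j
  · refine Finset.sum_eq_zero fun e _ => mul_eq_zero_of_right _ ?_
    refine Finset.sum_eq_zero fun B₁ _ => ?_
    split_ifs with h'
    · obtain ⟨h1, ⟨t, ht⟩, ⟨C, hC⟩⟩ := h'
      have h3 : (30 : ℤ) ∣ B - ρ * st b₁ := ⟨t * st b₁ - e * C, by
        linear_combination st b₁ * ht - hC⟩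
      have h4 : ¬ IsCoprime B (b₁ : ℤ) := fun h4 => h ⟨h3, h4⟩
      rw [Int.isCoprime_iff_gcd_eq_one] at h4
      obtain ⟨p, hp, hpd⟩ := Nat.exists_prime_and_dvd h4
      have hpB : (p : ℤ) ∣ B := (Int.natCast_dvd_natCast.2 hpd).trans (Int.gcd_dvd_left _ _)
      have hpb : (p : ℤ) ∣ b₁ := (Int.natCast_dvd_natCast.2 hpd).trans (Int.gcd_dvd_right _ _)
      have hmem : p ∈ b₁.primeFactors :=
        Nat.mem_primeFactors.2 ⟨hp, Int.natCast_dvd_natCast.1 hpb, hb0⟩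
      have hp' : Prime (p : ℤ) := Nat.prime_iff_prime_int.1 hp
      have h5 : (p : ℤ) ∣ 30 * e * C := by
        rw [← hC]; exact dvd_sub ((hpb.trans (NSq_dvd_st b₁)).mul_left _) hpB
      rcases hp'.dvd_or_dvd h5 with h6 | h6
      · rcases hp'.dvd_or_dvd h6 with h7 | h7
        · exact absurd (c30.isUnit_of_dvd' hpb h7) hp'.not_isUnit
        · exact absurd (hin p hmem) (NSq_jac_ne hp ((h7.mul_left 60).trans h1))
      · rcases eq_or_ne (30 * (e : ℤ)) 0 with h0 | h0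
        · rw [h0, Int.ediv_zero]
          exact NSq_jac_zero hb.1 hmem (dvd_zero _)
        · rw [hC, Int.mul_ediv_cancel_left _ h0]
          exact NSq_jac_zero hb.1 hmem h6
    · rfl

end Pool.Agent.P.MP_8b7eba_nt.R1
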