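import Pool.Agent.P.MP_8b7eba_nt.R1.Vf

/-! The Hecke operator at 2 on Green functions. -/

namespace Pool.Agent.P.MP_8b7eba_nt.R1

open Complex Filter Topology MeasureTheory Metric Finset Asymptotics PowerSeries
open scoped Real UpperHalfPlane MatrixGroups ComplexConjugate
open _root_.Pool.Agent.P.MP_8b7eba_nt.Mod (M2 G0 FI L0 om lv xx yy qq UH atI ex mT)
open BSD15 (OO Good cls gch gJ nm cj rho lam Adm B3 B5 No4 Xp XJ Rn)
open MP_9c97e9_nt (Pt pm Is)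

private theorem T2_key {A C β b J : ℤ} (h : β ^ 2 - A * C = b)
    (hJ : (b % 8 = 1 ∧ J = 1) ∨ (b % 8 = 5 ∧ J = -1)) :
    1 + (if 2 ∣ A ∧ 2 ∣ C then J - 3 else 0) = (if 4 ∣ A then 1 else 0) + (if 4 ∣ C then 1 else 0) +
      (if 4 ∣ A - 2 * β + C then 1 else 0) - 3 * (if 2 ∣ A ∧ 2 ∣ C then 1 else 0) := by
  obtain ⟨a, r, rfl, hr⟩ : ∃ a r, A = 4 * a + r ∧ (r = 0 ∨ r = 1 ∨ r = 2 ∨ r = 3) :=
    ⟨A / 4, A % 4, by omega, by omega⟩
  obtain ⟨c, t, rfl, ht⟩ : ∃ c t, C = 4 * c + t ∧ (t = 0 ∨ t = 1 ∨ t = 2 ∨ t = 3) :=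
    ⟨C / 4, C % 4, by omega, by omega⟩
  obtain ⟨k, u, rfl, hu⟩ : ∃ k u, β = 4 * k + u ∧ (u = 0 ∨ u = 1 ∨ u = 2 ∨ u = 3) :=
    ⟨β / 4, β % 4, by omega, by omega⟩
  have e : b = 8 * (2 * k ^ 2 + k * u - 2 * (a * c)) + u * u - (4 * (a * t) + 4 * (c * r) + r * t) := by
    linear_combination -h
  clear h
  generalize 2 * k ^ 2 + k * u - 2 * (a * c) = X at e
  rcases hr with rfl | rfl | rfl | rfl <;> rcases ht with rfl | rfl | rfl | rfl <;>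
    rcases hu with rfl | rfl | rfl | rfl <;> split_ifs <;> omega

private theorem T2_odd {D ρ : ℤ} {A B C : ℤ} (hD : D % 4 = 1) (hρ : ρ % 2 = 1)
    (h : B ^ 2 - 4 * A * C = D) (h15 : 15 ∣ B - ρ) : 30 ∣ B - ρ := by
  have hB : B % 2 = 1 := by
    by_contra h0
    obtain ⟨k, rfl⟩ : 2 ∣ B := by omega
    have : D = 4 * (k ^ 2 - A * C) := by linear_combination -h
    omega
  omega

private theorem T2_reindex {D ρ : ℤ} {φ : QF → QF} (hφ : Function.Injective φ) (P : QF → Prop)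
    [DecidablePred P] (h1 : ∀ Q, Lv D ρ Q → P (φ Q)) (h2 : ∀ Q, P Q → ∃ R, Lv D ρ R ∧ φ R = Q)
    (s : ℝ) {z z' : ℂ} (h : ∀ Q, (φ Q).tt z = Q.tt z') :
    VV (wf D ρ 1) s z' = VV (fun Q => if P Q then 1 else 0) s z := by
  unfold VV
  rw [← hφ.tsum_eq (f := fun Q => (((if P Q then 1 else 0 : ℤ)) : ℝ) * gg s (Q.tt z))]
  · refine tsum_congr fun Q => ?_
    rw [h, wf]
    by_cases hQ : Lv D ρ Q
    · simp [hQ, h1 Q hQ]
    · rw [if_neg hQ, if_neg]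
      intro hP
      obtain ⟨R, hR, e⟩ := h2 _ hP
      exact hQ (hφ e ▸ hR)
  · intro Q hQ
    by_cases hP : P Q
    · obtain ⟨R, -, e⟩ := h2 _ hP
      exact ⟨R, e⟩
    · simp [hP] at hQ

private theorem T2_half {b ρ : ℤ} {Q : QF} (h : Lv (4 * b) (2 * ρ) Q) :
    ∃ β, Q.B = 2 * β ∧ β ^ 2 - Q.A * Q.C = b ∧ 15 ∣ β - ρ := by
  obtain ⟨h1, -, h3⟩ := h
  obtain ⟨β, hβ⟩ : 2 ∣ Q.B := by omega
  refine ⟨β, hβ, ?_, by omega⟩
  simp only [QF.disc, hβ] at h1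
  linarith

theorem VV_w2 {b : ℕ} {ρ : ℤ} (ho : Odd b) (h : 60 ∣ ρ ^ 2 - b) {s : ℝ} (hs : 1 < s) (hs' : s ≤ 2)
    {z : ℂ} (hz : 0 < z.im) :
    VV (w2 b ρ) s z = VV (wf b ρ 1) s (2 * z) + VV (wf b ρ 1) s (z / 2) +
      VV (wf b ρ 1) s ((z + 1) / 2) - 3 * VV (wf b ρ 1) s z := by
  have ho' := Nat.odd_iff.1 ho
  have hρ : ρ % 2 = 1 := by
    by_contra h0
    obtain ⟨k, rfl⟩ : 2 ∣ ρ := by omega
    rw [show (2 * k) ^ 2 = 4 * k ^ 2 by ring] at h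
    omega
  have hb : (b : ℤ) % 4 = 1 := by
    obtain ⟨k, rfl⟩ : ∃ k, ρ = 2 * k + 1 := ⟨ρ / 2, by omega⟩
    rw [show (2 * k + 1) ^ 2 = 4 * (k ^ 2 + k) + 1 by ring] at h
    omega
  have hJ : ((b : ℤ) % 8 = 1 ∧ jacobiSym 2 b = 1) ∨ ((b : ℤ) % 8 = 5 ∧ jacobiSym 2 b = -1) := by
    rw [jacobiSym.at_two ho, ZMod.χ₈_nat_eq_if_mod_eight]
    split_ifs <;> omega
  have e1 := T2_reindex (D := b) (ρ := ρ) (φ := fun Q => Q.cmp ⟨2, 0, 0, 1⟩) (z := z) (z' := 2 * z)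
    (fun P Q e => by
      simp only [QF.cmp, QF.ev, QF.mk.injEq] at e
      ext <;> omega)
    (fun Q => Lv (4 * b) (2 * ρ) Q ∧ 4 ∣ Q.A)
    (fun Q ⟨h1, h2, h3⟩ => by
      simp only [Lv, QF.cmp, QF.ev, QF.disc] at h1 ⊢
      exact ⟨⟨by linear_combination 4 * h1, by omega, by omega⟩, by omega⟩)
    (fun Q ⟨h1, a, ha⟩ => by
      obtain ⟨β, h2, h3, h4⟩ := T2_half h1
      have h5 := h1.2.1
      have h6 : β ^ 2 - 4 * a * Q.C = b := by rw [ha] at h3; exact h3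
      refine ⟨⟨a, β, Q.C⟩, ⟨h6, by simp only; omega, T2_odd hb hρ h6 h4⟩, ?_⟩
      ext <;> simp only [QF.cmp, QF.ev] <;> omega)
    s (fun Q => by
      rw [QF.tt_cmp Q (by simp [M2.det]) hz]
      simp [M2.act, Mod.mob])
  have e2 := T2_reindex (D := b) (ρ := ρ) (φ := fun Q => Q.cmp ⟨1, 0, 0, 2⟩) (z := z) (z' := z / 2)
    (fun P Q e => by
      simp only [QF.cmp, QF.ev, QF.mk.injEq] at e
      ext <;> omega)
    (fun Q => Lv (4 * b) (2 * ρ) Q ∧ 4 ∣ Q.C)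
    (fun Q ⟨h1, h2, h3⟩ => by
      simp only [Lv, QF.cmp, QF.ev, QF.disc] at h1 ⊢
      exact ⟨⟨by linear_combination 4 * h1, by omega, by omega⟩, by omega⟩)
    (fun Q ⟨h1, a, ha⟩ => by
      obtain ⟨β, h2, h3, h4⟩ := T2_half h1
      have h5 := h1.2.1
      have h6 : β ^ 2 - 4 * Q.A * a = b := by rw [ha] at h3; linear_combination h3
      refine ⟨⟨Q.A, β, a⟩, ⟨h6, h5, T2_odd hb hρ h6 h4⟩, ?_⟩
      ext <;> simp only [QF.cmp, QF.ev] <;> omega)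
    s (fun Q => by
      rw [QF.tt_cmp Q (by simp [M2.det]) hz]
      simp [M2.act, Mod.mob])
  have e3 := T2_reindex (D := b) (ρ := ρ) (φ := fun Q => Q.cmp ⟨1, 1, 0, 2⟩) (z := z)
    (z' := (z + 1) / 2)
    (fun P Q e => by
      simp only [QF.cmp, QF.ev, QF.mk.injEq] at e
      ext <;> omega)
    (fun Q => Lv (4 * b) (2 * ρ) Q ∧ 4 ∣ Q.A - Q.B + Q.C)
    (fun Q ⟨h1, h2, h3⟩ => by
      simp only [Lv, QF.cmp, QF.ev, QF.disc] at h1 ⊢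
      exact ⟨⟨by linear_combination 4 * h1, by omega, by omega⟩, by omega⟩)
    (fun Q ⟨h1, a, ha⟩ => by
      obtain ⟨β, h2, h3, h4⟩ := T2_half h1
      have h5 := h1.2.1
      have h6 : (β - Q.A) ^ 2 - 4 * Q.A * a = b := by
        linear_combination h3 + Q.A * ha + Q.A * h2
      refine ⟨⟨Q.A, β - Q.A, a⟩, ⟨h6, h5, T2_odd hb hρ h6 (by simp only; omega)⟩, ?_⟩
      ext <;> simp only [QF.cmp, QF.ev] <;> omega)
    s (fun Q => by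
      rw [QF.tt_cmp Q (by simp [M2.det]) hz]
      simp [M2.act, Mod.mob])
  have e0 := T2_reindex (D := b) (ρ := ρ) (φ := fun Q => ⟨2 * Q.A, 2 * Q.B, 2 * Q.C⟩) (z := z)
    (z' := z)
    (fun P Q e => by
      simp only [QF.mk.injEq] at e
      ext <;> omega)
    (fun Q => Lv (4 * b) (2 * ρ) Q ∧ 2 ∣ Q.A ∧ 2 ∣ Q.C)
    (fun Q ⟨h1, h2, h3⟩ => by
      simp only [Lv, QF.disc] at h1 ⊢
      exact ⟨⟨by linear_combination 4 * h1, by omega, by omega⟩, by omega, by omega⟩)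
    (fun Q ⟨h1, ⟨a, ha⟩, c, hc⟩ => by
      obtain ⟨β, h2, h3, h4⟩ := T2_half h1
      have h5 := h1.2.1
      have h6 : β ^ 2 - 4 * a * c = b := by rw [ha, hc] at h3; linear_combination h3
      refine ⟨⟨a, β, c⟩, ⟨h6, by simp only; omega, T2_odd hb hρ h6 h4⟩, ?_⟩
      ext <;> simp only <;> omega)
    s (fun Q => by
      have e : ((QF.disc ⟨2 * Q.A, 2 * Q.B, 2 * Q.C⟩ : ℤ) : ℝ) = 2 ^ 2 * Q.disc := by
        simp only [QF.disc]; push_cast; ring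
      simp only [QF.tt]
      rw [e, Real.sqrt_mul (by norm_num), Real.sqrt_sq zero_le_two]
      push_cast
      rw [← mul_div_mul_left (Q.A * normSq z + Q.B * z.re + Q.C) _ (two_ne_zero (α := ℝ))]
      congr 1 <;> ring)
  have hD : (0 : ℤ) < 4 * b := by omega
  have sm : ∀ (R : QF → Prop) [DecidablePred fun Q => Lv (4 * b) (2 * ρ) Q ∧ R Q],
      Summable fun Q : QF => (((if Lv (4 * b) (2 * ρ) Q ∧ R Q then 1 else 0 : ℤ)) : ℝ) *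
        gg s (Q.tt z) := fun R _ =>
    summable_VV (w := fun Q => if Lv (4 * b) (2 * ρ) Q ∧ R Q then 1 else 0) hD
      (fun Q hQ => by
        by_contra h0
        exact hQ (if_neg fun h1 => h0 h1.1.1))
      (fun Q => by split_ifs <;> norm_num) hs hs' hz
  rw [e1, e2, e3, e0]
  unfold VV
  rw [← (sm _).tsum_add (sm _), ← ((sm _).add (sm _)).tsum_add (sm _), ← tsum_mul_left,
    ← (((sm _).add (sm _)).add (sm _)).tsum_sub ((sm _).mul_left 3)]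
  refine tsum_congr fun Q => ?_
  have e : w2 b ρ Q = (if Lv (4 * b) (2 * ρ) Q ∧ 4 ∣ Q.A then 1 else 0) +
      (if Lv (4 * b) (2 * ρ) Q ∧ 4 ∣ Q.C then 1 else 0) +
      (if Lv (4 * b) (2 * ρ) Q ∧ 4 ∣ Q.A - Q.B + Q.C then 1 else 0) -
      3 * (if Lv (4 * b) (2 * ρ) Q ∧ 2 ∣ Q.A ∧ 2 ∣ Q.C then 1 else 0) := by
    unfold w2
    by_cases hQ : Lv (4 * b) (2 * ρ) Q
    · obtain ⟨β, h2, h3, -⟩ := T2_half hQ
      simp only [hQ, true_and, if_true, h2]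
      exact T2_key h3 hJ
    · simp [hQ]
  rw [e]
  push_cast
  ring

end Pool.Agent.P.MP_8b7eba_nt.R1
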