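import Pool.Agent.P.MP_8b7eba_nt.R1.AMain
import Pool.Agent.P.MP_8b7eba_nt.R1.DualA
import Pool.Agent.P.MP_8b7eba_nt.R1.DualB
import Pool.Agent.P.MP_8b7eba_nt.R1.NSq
import Pool.Agent.P.MP_8b7eba_nt.R1.NPr
import Pool.Agent.P.MP_8b7eba_nt.R1.N4
import Pool.Agent.P.MP_8b7eba_nt.R1.T2
import Pool.Agent.P.MP_8b7eba_nt.R1.Oth

/-! Relations between Heegner points of different discriminants. -/

namespace Pool.Agent.P.MP_8b7eba_nt.R1

open Complex Filter Topology MeasureTheory Metric Finset Asymptotics PowerSeries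
open scoped Real UpperHalfPlane MatrixGroups ComplexConjugate
open _root_.Pool.Agent.P.MP_8b7eba_nt.Mod (M2 G0 FI L0 om lv xx yy qq UH atI ex mT)
open BSD15 (OO Good cls gch gJ nm cj rho lam Adm B3 B5 No4 Xp XJ Rn)
open MP_9c97e9_nt (Pt pm Is)

variable {a b b₁ b₃ : ℕ} {ρ ρ₁ ρ₂ ρ₃ D : ℤ} {w : QF → ℤ} {α β : ℚ}

theorem gkz_nonsq {m : ℕ} (hm : Squarefree m) (h1 : 1 < m) : ¬ IsSquare (m : ℤ) := by
  rw [Int.isSquare_natCast_iff]
  rintro ⟨r, hr⟩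
  have := Nat.isUnit_iff.1 (hm r (hr ▸ dvd_rfl))
  rw [this] at hr
  omega

theorem gkz_ndvd {m : ℕ} (hm : Adm m) : Odd m ∧ ¬ (3 : ℤ) ∣ m ∧ ¬ (5 : ℤ) ∣ m := by
  have h : ∀ p : ℕ, p ∣ 30 → p ∣ m → p = 1 := fun p h1 h2 =>
    Nat.dvd_one.1 (hm.2 ▸ Nat.dvd_gcd h2 h1)
  refine ⟨?_, fun h3 => ?_, fun h5 => ?_⟩
  · by_contra h2
    have := h 2 (by norm_num) (even_iff_two_dvd.1 (Nat.not_odd_iff_even.1 h2))
    omega
  · have := h 3 (by norm_num) (by exact_mod_cast h3)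
    omega
  · have := h 5 (by norm_num) (by exact_mod_cast h5)
    omega

theorem gkz_cop {m : ℕ} (hm : Adm m) : IsCoprime (60 : ℤ) m := by
  have h : m.Coprime (30 * 30) := Nat.Coprime.mul_right hm.2 hm.2
  have h' : Nat.Coprime 60 m := (h.coprime_dvd_right (by norm_num)).symm
  exact_mod_cast Nat.isCoprime_iff_coprime.2 h'

theorem gkz_sq {x y : ℤ} (h : 30 ∣ x - y) : 60 ∣ x ^ 2 - y ^ 2 := by
  obtain ⟨k, hk⟩ := h
  exact ⟨k * y + 15 * k ^ 2, by rw [show x = y + 30 * k by linear_combination hk]; ring⟩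

theorem gkz_mod {a b : ℕ} (h : a * b % 4 = 3) :
    (a % 4 = 3 ∧ b % 4 = 1) ∨ (a % 4 = 1 ∧ b % 4 = 3) := by
  rw [Nat.mul_mod] at h
  have ha : a % 4 < 4 := Nat.mod_lt _ (by norm_num)
  have hb : b % 4 < 4 := Nat.mod_lt _ (by norm_num)
  generalize a % 4 = x at *
  generalize b % 4 = y at *
  interval_cases x <;> interval_cases y <;> simp_all

theorem gkz_cmp {n n' : ℕ} [Good n] [Good n'] {ρ' D' : ℤ} {w' : QF → ℤ} {J J' : Finset ℕ}
    (hd : HD n ρ) (hd' : HD n' ρ') (hD : 0 < D) (hD' : 0 < D')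
    (h1 : ∀ Q, w Q ≠ 0 → Q.disc = D) (h2 : ∀ Q, |w Q| ≤ 4)
    (h1' : ∀ Q, w' Q ≠ 0 → Q.disc = D') (h2' : ∀ Q, |w' Q| ≤ 4) (e : (n : ℝ) * D = n' * D')
    (hN : ∀ B, NN n ρ J w B = NN n' ρ' J' w' B) {s : ℝ} (hs : 1 < s) (hs' : s ≤ 2) :
    ∑ c, (gJ J c : ℝ) * VV w s (ht n ρ c) = ∑ c, (gJ J' c : ℝ) * VV w' s (ht n' ρ' c) := by
  have a1 := hasSum_NN hd hD h1 h2 J hs hs'
  have a2 := hasSum_NN hd' hD' h1' h2' J' hs hs'
  simp only [hN, e] at a1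
  exact a1.unique a2

theorem heeg_lim {n : ℕ} [Good n] (hn : n = a * b) (h : HF a b ρ) (hw : Wt D w) (hv : VB D w)
    (hd : Dual w α β) (hm : a % 4 = 3 → ∀ Q, w Q.mir = w Q) : ∃ q : ℚ,
      Tendsto (fun s => ∑ c, (gJ a.primeFactors c : ℝ) * VV w s (ht n ρ c)) (𝓝[>] 1)
        (𝓝 (π * (q - (if a % 4 = 3 then β else α : ℚ) * tY a b ρ))) := by
  have hd' : HD n ρ := hn ▸ h.hd
  obtain ⟨-, -, ha1, -, -, hab⟩ := h.jac
  by_cases h3 : a % 4 = 3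
  · choose q hq using fun c => odd_lim hw hv hd (hm h3) (ht_im hd' c)
    refine ⟨∑ c, gJ a.primeFactors c * q c, ?_⟩
    have := tendsto_finsetSum Finset.univ fun c _ =>
      (hq c).const_mul (gJ a.primeFactors c : ℝ)
    refine this.trans_eq (congrArg 𝓝 ?_)
    rw [if_pos h3, tY, if_pos h3, YY_eq hn, Complex.im_sum]
    push_cast
    rw [Finset.sum_div, Finset.mul_sum, ← Finset.sum_sub_distrib, Finset.mul_sum]
    refine Finset.sum_congr rfl fun c _ => ?_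
    simp only [mul_im, intCast_re, intCast_im, zero_mul, add_zero]
    ring
  · have hb3 : b % 4 = 3 := by
      rcases gkz_mod h.good.h4 with h' | h'
      · exact absurd h'.1 h3
      · exact h'.2
    have hn0 : n ≠ 0 := by
      have := (inferInstance : Good n).gt
      omega
    have h0 : ∑ c : ClassGroup (OO n), gJ a.primeFactors c = 0 := by
      refine BSD15.sum_gJ_eq_zero (Nat.primeFactors_mono (hn ▸ dvd_mul_right a b) hn0) ?_ ?_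
      · rw [Ne, Nat.primeFactors_eq_empty]
        omega
      · intro e
        obtain ⟨p, hp, hpb⟩ := Nat.exists_prime_and_dvd (show b ≠ 1 by omega)
        have h1 : p ∈ n.primeFactors :=
          Nat.mem_primeFactors.2 ⟨hp, hn ▸ hpb.mul_left a, hn0⟩
        rw [← e] at h1
        exact hp.one_lt.ne' (Nat.dvd_one.1
          (hab ▸ Nat.dvd_gcd (Nat.dvd_of_mem_primeFactors h1) hpb))
    obtain ⟨q, hq⟩ := sum_lim hw hv hd Finset.univ (gJ a.primeFactors) (ht n ρ)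
      (fun c _ => ht_im hd' c) h0
    obtain ⟨q', hq'⟩ := rq_oY h
    refine ⟨q - β * q', hq.trans_eq (congrArg 𝓝 ?_)⟩
    rw [← YY_eq hn, if_neg h3, tY, if_neg h3, lf]
    rw [oY, if_neg h3] at hq'
    push_cast
    rw [← hq']
    ring

theorem gkz_half (h₁ : HF a b₁ ρ₁) (h₃ : HF a b₃ ρ₃) (hb : 1 < b₁) (hc : b₁.Coprime b₃)
    (hin : ∀ p ∈ b₁.primeFactors, jacobiSym (-(a * b₃)) p = -1)
    (hρ : 30 ∣ ρ₁ * ρ₂ - ρ₃ * st b₁) (hd : Dual (wf (b₁ * b₃) ρ₂ b₃) α β) :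
    ∃ ε : ℤ, |ε| = |lam b₁| ∧
      Rq (ε * tY a b₃ ρ₃ - (if a % 4 = 3 then β else α : ℚ) * tY a b₁ ρ₁) := by
  have G1 : Good (a * b₁) := h₁.good
  have G3 : Good (a * b₃) := h₃.good
  obtain ⟨-, h15, -, hA, hB1, -⟩ := h₁.jac
  obtain ⟨-, -, -, -, hB3, -⟩ := h₃.jac
  have hB : Adm (b₁ * b₃) :=
    ⟨(Nat.squarefree_mul hc).2 ⟨hB1.1, hB3.1⟩, Nat.Coprime.mul_left hB1.2 hB3.2⟩
  have m1 := gkz_mod G1.h4
  have m3 := gkz_mod G3.h4
  have h4 : b₁ * b₃ % 4 = 1 := by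
    rw [Nat.mul_mod]
    rcases m1 with m1 | m1 <;> rcases m3 with m3 | m3 <;>
      first | omega | rw [m1.2, m3.2]
  have hb3 : 0 < b₃ := Nat.pos_of_ne_zero hB3.1.ne_zero
  have hbb : 1 < b₁ * b₃ := lt_of_lt_of_le hb (Nat.le_mul_of_pos_right _ hb3)
  have r1 := h₁.hd.rt
  have r3 := h₃.hd.rt
  push_cast at r1 r3
  have h2 : 60 ∣ ρ₂ ^ 2 - b₁ * b₃ := by
    have k := gkz_sq hρ
    rw [mul_pow, mul_pow, st_sq] at k
    have hc' := gkz_cop h₁.hd.adm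
    refine hc'.dvd_of_dvd_mul_left ?_
    have e : ((a * b₁ : ℕ) : ℤ) * (ρ₂ ^ 2 - b₁ * b₃) =
        (ρ₁ ^ 2 + a * b₁) * ρ₂ ^ 2 - (ρ₁ ^ 2 * ρ₂ ^ 2 - ρ₃ ^ 2 * (b₁ : ℤ) ^ 2) -
          (ρ₃ ^ 2 + a * b₃) * (b₁ : ℤ) ^ 2 := by
      push_cast
      ring
    rw [e]
    exact dvd_sub (dvd_sub (r1.mul_right _) k) (r3.mul_right _)
  obtain ⟨o1, n31, n51⟩ := gkz_ndvd hB1
  obtain ⟨o3, -, -⟩ := gkz_ndvd hB3
  obtain ⟨-, n3, n5⟩ := gkz_ndvd hB
  have nsq := gkz_nonsq hB.1 hbb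
  push_cast at n3 n5 nsq
  have hb' : (0 : ℤ) < b₁ := by exact_mod_cast zero_lt_one.trans hb
  have hb3' : (0 : ℤ) < b₃ := by exact_mod_cast hb3
  have hw : Wt (b₁ ^ 2) (wf (b₁ ^ 2) (st b₁) b₁) :=
    wt_wf (by positivity) o1 (dvd_pow_self _ two_ne_zero)
      (fun h => n31 (Int.prime_three.dvd_of_dvd_pow h))
      (fun h => n51 ((Int.prime_iff_natAbs_prime.2 (by norm_num)).dvd_of_dvd_pow h))
      (.inr (st_sq b₁).symm)
  have hw' : Wt (b₁ * b₃) (wf (b₁ * b₃) ρ₂ b₃) :=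
    wt_wf (by positivity) o3 (dvd_mul_left _ _) n3 n5 (.inl nsq)
  obtain ⟨α', β', hd', hl⟩ := dual_sq hB1 hb
  obtain ⟨q3, t3⟩ := heeg_lim rfl h₃ hw (vb_sq hB1 hb _) hd' fun h =>
    wf_mir hB1.1 (by omega) _ _
  obtain ⟨q1, t1⟩ := heeg_lim rfl h₁ hw' (vb_nonsq nsq _) hd fun h =>
    wf_mir hB3.1 (by omega) _ _
  have hN : ∀ B, NN (a * b₃) ρ₃ a.primeFactors (wf (b₁ ^ 2) (st b₁) b₁) B =
      NN (a * b₁) ρ₁ a.primeFactors (wf (b₁ * b₃) ρ₂ b₃) B := by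
    intro B
    rw [NN_sq rfl h₃.hd hB1 (by simpa only [Nat.cast_mul] using hin) h15 B,
      NN_pr rfl h₁.hd hB h4 h2 hin B]
    have e1 : 30 ∣ B - ρ₃ * st b₁ ↔ 30 ∣ B - ρ₁ * ρ₂ := by omega
    simp only [e1]
    split_ifs with hh
    · have k := gkz_sq (e1.2 hh.1)
      rw [mul_pow, st_sq] at k
      have e2 : B ^ 2 + ((a * b₁ : ℕ) : ℤ) * (b₁ * b₃) = B ^ 2 + ((a * b₃ : ℕ) : ℤ) * b₁ ^ 2 := by
        push_cast
        ring
      have d : 60 ∣ B ^ 2 + ((a * b₃ : ℕ) : ℤ) * b₁ ^ 2 := by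
        have e : B ^ 2 + ((a * b₃ : ℕ) : ℤ) * b₁ ^ 2 =
            (B ^ 2 - ρ₃ ^ 2 * (b₁ : ℤ) ^ 2) + (ρ₃ ^ 2 + a * b₃) * (b₁ : ℤ) ^ 2 := by
          push_cast
          ring
        rw [e]
        exact dvd_add k (r3.mul_right _)
      have hp : 0 ≤ (B ^ 2 + ((a * b₃ : ℕ) : ℤ) * b₁ ^ 2) / 60 := by positivity
      rw [e2, cnt_eq (f := 1) G1 G3 (hA.2.coprime_dvd_right (by norm_num)) ?_ hh.2
        isCoprime_one_left]
      rw [Int.toNat_of_nonneg hp, Int.mul_ediv_cancel' d]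
      push_cast
      ring
    · rfl
  have ev : (fun s => ∑ c, (gJ a.primeFactors c : ℝ) *
      VV (wf (b₁ ^ 2) (st b₁) b₁) s (ht (a * b₃) ρ₃ c)) =ᶠ[𝓝[>] 1]
      fun s => ∑ c, (gJ a.primeFactors c : ℝ) * VV (wf (b₁ * b₃) ρ₂ b₃) s (ht (a * b₁) ρ₁ c) := by
    filter_upwards [Ioc_mem_nhdsGT (show (1 : ℝ) < 2 by norm_num)] with s hs
    exact gkz_cmp h₃.hd h₁.hd hw.pos hw'.pos hw.disc (fun Q => (hw.le Q).trans (by norm_num))
      hw'.disc (fun Q => (hw'.le Q).trans (by norm_num)) (by push_cast; ring) hN hs.1 hs.2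
  have key := mul_left_cancel₀ Real.pi_ne_zero (tendsto_nhds_unique_of_eventuallyEq t3 t1 ev)
  have e3 : (if a % 4 = 3 then β' else α') = if b₁ % 4 = 1 then β' else α' := by
    rcases m1 with m1 | m1
    · rw [if_pos m1.1, if_pos m1.2]
    · rw [if_neg (by omega), if_neg (by omega)]
  rw [e3] at key
  rw [Int.cast_abs] at hl
  rcases abs_eq_abs.1 hl with hl | hl
  · refine ⟨lam b₁, rfl, q3 - q1, ?_⟩
    rw [hl] at key
    push_cast at key ⊢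
    linear_combination -key
  · refine ⟨-lam b₁, abs_neg _, q3 - q1, ?_⟩
    rw [hl] at key
    push_cast at key ⊢
    linear_combination -key

theorem gkz_hecke {z : ℂ} (hz : 0 < z.im) :
    (FI (2 * z)).im + (FI (z / 2)).im + (FI ((z + 1) / 2)).im = -(FI z).im := by
  have h := Mod.hecke_FI Nat.prime_two hz
  rw [Mod.an_small.2.2.1, if_neg (by norm_num)] at h
  simp only [Finset.sum_range_succ, Finset.sum_range_zero, zero_add, Nat.cast_zero, add_zero,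
    Nat.cast_one, Nat.cast_ofNat] at h
  have := congrArg Complex.im h
  simp only [add_im, Int.cast_neg, Int.cast_one, neg_mul, one_mul, neg_im] at this
  linarith

theorem gkz_four (h : HF a b ρ) (h₁ : HF a 1 ρ₁) (hb : 1 < b) (hρ : 30 ∣ ρ - ρ₁ * ρ₂)
    (hd : Dual (wf b ρ₂ 1) α β) :
    ∃ ε : ℤ, |ε| = 1 ∧ Rq (tY a b ρ - 4 * ε * β * tY a 1 ρ₁) := by
  have G : Good (a * b) := h.good
  have G1 : Good a := by simpa using h₁.good
  have hd₁ : HD a ρ₁ := by simpa using h₁.hd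
  have h3 : a % 4 = 3 := G1.h4
  obtain ⟨-, -, -, hA, hB, -⟩ := h.jac
  obtain ⟨ob, n3, n5⟩ := gkz_ndvd hB
  have nsq := gkz_nonsq hB.1 hb
  have hb' : (0 : ℤ) < b := by exact_mod_cast zero_lt_one.trans hb
  have r := h.hd.rt
  have r1 := hd₁.rt
  push_cast at r
  have h2 : 60 ∣ ρ₂ ^ 2 - b := by
    have k := gkz_sq hρ
    refine (gkz_cop hA).dvd_of_dvd_mul_left ?_
    have e : (a : ℤ) * (ρ₂ ^ 2 - b) =
        (ρ₁ ^ 2 + a) * ρ₂ ^ 2 + (ρ ^ 2 - (ρ₁ * ρ₂) ^ 2) - (ρ ^ 2 + a * b) := by ring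
    rw [e]
    exact dvd_sub (dvd_add (r1.mul_right _) k) r
  have hw : Wt b (wf b ρ₂ 1) := wt_wf hb' odd_one (by simp) n3 n5 (.inl nsq)
  have hv : VB b (wf b ρ₂ 1) := vb_nonsq nsq _
  have hm : ∀ Q, wf b ρ₂ 1 Q.mir = wf b ρ₂ 1 Q := wf_mir squarefree_one rfl _ _
  obtain ⟨α', β', hd', hl⟩ := dual_w4
  obtain ⟨q, t⟩ := heeg_lim rfl h wt_w4 vb_w4 hd' fun _ => w4_mir
  have one : ∀ z : ℂ, 0 < z.im → ∃ q : ℚ, Tendsto (fun s => VV (w2 b ρ₂) s z) (𝓝[>] 1)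
      (𝓝 (π * (q + 4 * β * ((FI z).im / (2 * om))))) := by
    intro z hz
    obtain ⟨q1, t1⟩ := odd_lim hw hv hd hm (z := 2 * z) (by simpa using hz)
    obtain ⟨q2, t2⟩ := odd_lim hw hv hd hm (z := z / 2) (by simpa using hz)
    obtain ⟨q3, t3⟩ := odd_lim hw hv hd hm (z := (z + 1) / 2) (by simpa using hz)
    obtain ⟨q4, t4⟩ := odd_lim hw hv hd hm hz
    refine ⟨q1 + q2 + q3 - 3 * q4, ?_⟩
    have t5 := ((t1.add t2).add t3).sub (t4.const_mul 3)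
    refine (t5.congr' ?_).trans_eq (congrArg 𝓝 ?_)
    · filter_upwards [Ioc_mem_nhdsGT (show (1 : ℝ) < 2 by norm_num)] with s hs
      exact (VV_w2 ob h2 hs.1 hs.2 hz).symm
    · have e := gkz_hecke hz
      push_cast
      linear_combination (-π * β / (2 * om)) * e
  choose q' hq' using fun c => one _ (ht_im hd₁ c)
  have t' := tendsto_finsetSum Finset.univ fun c _ => hq' c
  have ev : (fun s => ∑ c, (gJ a.primeFactors c : ℝ) * VV w4 s (ht (a * b) ρ c)) =ᶠ[𝓝[>] 1]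
      fun s => ∑ c, VV (w2 b ρ₂) s (ht a ρ₁ c) := by
    filter_upwards [Ioc_mem_nhdsGT (show (1 : ℝ) < 2 by norm_num)] with s hs
    have l : ∀ Q, w2 b ρ₂ Q ≠ 0 → Q.disc = 4 * b := fun Q hQ => by
      by_contra h'
      exact hQ (if_neg fun hh => h' hh.1)
    rw [gkz_cmp h.hd hd₁ wt_w4.pos (by positivity) wt_w4.disc
      (fun Q => (wt_w4.le Q).trans (by norm_num)) l (abs_w2_le b ρ₂) (by push_cast; ring)
      (NN_four rfl h.hd hd₁ hρ) hs.1 hs.2]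
    simp [gJ]
  have key := tendsto_nhds_unique_of_eventuallyEq t t' ev
  have e1 : tY a 1 ρ₁ = ∑ c, (FI (ht a ρ₁ c)).im / (2 * om) := by
    rw [tY, if_pos h3, YY_eq (n := a) (mul_one a).symm, Complex.im_sum, Finset.sum_div]
    refine Finset.sum_congr rfl fun c _ => ?_
    rw [gJ, BSD15.prod_gch]
    simp
  rw [← Finset.mul_sum, Finset.sum_add_distrib, ← Finset.mul_sum, ← e1, if_pos h3] at key
  have key' := mul_left_cancel₀ Real.pi_ne_zero key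
  rcases (abs_eq zero_le_one).1 hl with hl | hl
  · refine ⟨-1, by norm_num, q - ∑ c, q' c, ?_⟩
    rw [hl] at key'
    push_cast at key' ⊢
    linear_combination -key'
  · refine ⟨1, by norm_num, ∑ c, q' c - q, ?_⟩
    rw [hl] at key'
    push_cast at key' ⊢
    linear_combination key'

end Pool.Agent.P.MP_8b7eba_nt.R1
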