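import Pool.Agent.P.MP_8b7eba_nt.R1.FormC
import Pool.Agent.P.MP_8b7eba_nt.R1.GenC

/-! Isogenies of prime degree between Heegner points. -/

namespace Pool.Agent.P.MP_8b7eba_nt.R1

open Complex Filter Topology MeasureTheory Metric Finset Asymptotics PowerSeries
open scoped Real UpperHalfPlane MatrixGroups ComplexConjugate
open _root_.Pool.Agent.P.MP_8b7eba_nt.Mod (M2 G0 FI L0 om lv xx yy qq UH atI ex mT)
open BSD15 (OO Good cls gch gJ nm cj rho lam Adm B3 B5 No4 Xp XJ Rn)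
open MP_9c97e9_nt (Pt pm Is)

theorem HM_int {p : ℕ} (hp : p.Prime) {P : Ideal Zb} (hP : P.IsPrime) (h : (p : Zb) ∈ P) (k : ℤ) :
    InP P (k : ℂ) ↔ (p : ℤ) ∣ k := by
  have e : ((k : Zb) : ℂ) = k := by simp
  rw [← e, InP.coe]
  constructor
  · intro h1
    by_contra h0
    obtain ⟨u, v, huv⟩ := (Nat.prime_iff_prime_int.1 hp).coprime_iff_not_dvd.2 h0
    have h3 : (1 : Zb) = u * p + v * k := by exact_mod_cast congrArg (Int.cast (R := Zb)) huv.symm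
    refine hP.ne_top ?_
    rw [Ideal.eq_top_iff_one, h3]
    exact P.add_mem (P.mul_mem_left _ h) (P.mul_mem_left _ h1)
  · rintro ⟨l, rfl⟩
    rw [Int.cast_mul, Int.cast_natCast]
    exact P.mul_mem_right _ h

theorem HM_root' {R : Type} [CommRing R] {p : ℕ} (hp : p.Prime) {P : Ideal R} (hP : P.IsPrime)
    (h : (p : R) ∈ P) {w : R} (h2 : w ^ p - w ∈ P) : ∃ k : ℤ, w - k ∈ P := by
  have : Fact p.Prime := ⟨hp⟩
  let f : R →+* FractionRing (R ⧸ P) :=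
    (algebraMap (R ⧸ P) (FractionRing (R ⧸ P))).comp (Ideal.Quotient.mk P)
  have hf : ∀ z, f z = 0 ↔ z ∈ P := fun z => by
    rw [← Ideal.Quotient.eq_zero_iff_mem]
    exact map_eq_zero_iff _ (IsFractionRing.injective (R ⧸ P) (FractionRing (R ⧸ P)))
  have : CharP (FractionRing (R ⧸ P)) p :=
    (CharP.charP_iff_prime_eq_zero hp).2 (by rw [← map_natCast f, hf]; exact h)
  have h3 : f w ^ p = f w := by
    rw [← hf, map_sub, map_pow] at h2
    exact sub_eq_zero.1 h2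
  obtain ⟨k, hk⟩ := (mem_bot_iff_intCast p _).1
    ((Subfield.mem_bot_iff_pow_eq_self _ p).2 h3)
  refine ⟨k, ?_⟩
  rw [← hf, map_sub, map_intCast, hk, sub_self]

theorem HM_root {p : ℕ} (hp : p.Prime) {P : Ideal Zb} (hP : P.IsPrime) (h : (p : Zb) ∈ P) {w : ℂ}
    (hw : IsIntegral ℤ w) (h1 : InP P (w ^ p - w)) : ∃ k : ℤ, InP P (w - k) := by
  obtain ⟨k, hk⟩ := HM_root' hp hP h (w := ⟨w, hw⟩) (InP.coe.1 h1)
  exact ⟨k, _, hk, by simp⟩

variable {n : ℕ} [Good n] {ρ : ℤ}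

theorem HM_phi {p : ℕ} (hp : p.Prime) {P : Ideal Zb} (hP : P.IsPrime) (h : (p : Zb) ∈ P)
    (h1 : InP P (omg n ^ p - omg n)) :
    ∃ φ : OO n →+* ZMod p, nm (RingHom.ker φ) = p ∧ ∀ z, InP P (emb n z) → φ z = 0 := by
  obtain ⟨k, hk⟩ := HM_root hp hP h (isIntegral_omg n) h1
  have h4 : 4 * ((((n + 1) / 4 : ℕ) : ℤ) : ℂ) = n + 1 := by
    exact_mod_cast BSD15.qring_four (n := n)
  have h5 := sqrt_neg_sq n
  have h6 : InP P ((k * k - k + ((n + 1) / 4 : ℕ) : ℤ) : ℂ) := by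
    have e : ((k * k - k + ((n + 1) / 4 : ℕ) : ℤ) : ℂ) = (1 - k - omg n) * (omg n - k) := by
      simp only [Int.cast_add, Int.cast_sub, Int.cast_mul, omg]
      linear_combination (1 / 4 : ℂ) * h4 + (1 / 4 : ℂ) * h5
    rw [e]
    exact InP.mul_left ((isIntegral_one.sub (isIntegral_intCast k)).sub (isIntegral_omg n)) hk
  have ht : (k : ZMod p) * k = k - (((n + 1) / 4 : ℕ) : ZMod p) := by
    have h7 := (ZMod.intCast_zmod_eq_zero_iff_dvd _ p).2 ((HM_int hp hP h _).1 h6)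
    simp only [Int.cast_add, Int.cast_sub, Int.cast_mul, Int.cast_natCast] at h7
    linear_combination h7
  refine ⟨BSD15.qcount_phi n (k : ZMod p) ht, BSD15.qcount_nm_ker ht, fun z hz => ?_⟩
  have h8 : InP P ((z.re + z.im * k : ℤ) : ℂ) := by
    have e : ((z.re + z.im * k : ℤ) : ℂ) = emb n z - z.im * (omg n - k) := by
      simp only [Int.cast_add, Int.cast_mul, omg, emb]
      ring
    rw [e]
    exact hz.sub (InP.mul_left (isIntegral_intCast _) hk)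
  have h9 := (ZMod.intCast_zmod_eq_zero_iff_dvd _ p).2 ((HM_int hp hP h _).1 h8)
  rw [← RingHom.mem_ker, BSD15.qcount_mem_ker]
  simpa using h9

theorem HM_odd {Q : QF} (hD : Q.disc = -n) : Q.B % 2 = 1 := by
  have h4 := (inferInstance : Good n).h4
  by_contra h
  obtain ⟨k, hk⟩ : 2 ∣ Q.B := by omega
  simp only [QF.disc, hk] at hD
  have : (2 * k) ^ 2 - 4 * Q.A * Q.C = 4 * (k ^ 2 - Q.A * Q.C) := by ring
  omega

theorem HM_psi (hd : HD n ρ) :
    ∃ ψ : OO n →+* ZMod 5, ∀ Q, Hg n ρ Q → ψ (Q.bet n) = 0 := by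
  have h5 : (5 : ZMod 5) = 0 := rfl
  have h1 : (ρ : ZMod 5) ^ 2 + n = 0 := by
    have h2 : ((5 : ℕ) : ℤ) ∣ ρ ^ 2 + n := Dvd.dvd.trans (by norm_num) hd.rt
    have h3 := (ZMod.intCast_zmod_eq_zero_iff_dvd _ 5).2 h2
    simpa using h3
  have h4 := BSD15.qcount_four_k' (n := n) 5
  have ht : (3 * (ρ + 1) : ZMod 5) * (3 * (ρ + 1)) =
      3 * (ρ + 1) - (((n + 1) / 4 : ℕ) : ZMod 5) := by
    linear_combination (-1 : ZMod 5) * h1 - h4 +
      (2 * ρ ^ 2 + 3 * ρ + 1 + (((n + 1) / 4 : ℕ) : ZMod 5)) * h5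
  refine ⟨BSD15.qcount_phi n _ ht, fun Q hQ => ?_⟩
  rw [← RingHom.mem_ker, BSD15.qcount_mem_ker]
  have h6 := HM_odd hQ.1.1
  have h7 : ((5 : ℕ) : ℤ) ∣ -((Q.B + 1) / 2) + 3 * (ρ + 1) := by
    have := hQ.1.2.2
    omega
  have h8 := (ZMod.intCast_zmod_eq_zero_iff_dvd _ 5).2 h7
  simp only [QF.bet]
  simp only [Int.cast_add, Int.cast_mul, Int.cast_one, Int.cast_ofNat] at h8
  rw [Int.cast_one, one_mul]
  exact h8

theorem HM_one (hd : HD n ρ) {p : ℕ} (hp : p.Prime) {φ : OO n →+* ZMod p}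
    (hφ : nm (RingHom.ker φ) = p) {ψ : OO n →+* ZMod 5} (hψ : ∀ Q, Hg n ρ Q → ψ (Q.bet n) = 0)
    (c : ClassGroup (OO n)) (hA : ¬ (p : ℤ) ∣ (hq n ρ c).A) :
    ∃ (M : M2) (μ : OO n), M.det = p ∧ 15 ∣ M.c ∧
      M.act (ht n ρ c) = ht n ρ (c * cls (RingHom.ker φ)) ∧
      emb n μ * M.j (ht n ρ c) = ((hq n ρ (c * cls (RingHom.ker φ))).A / 15 : ℤ) * p ∧
      ψ μ = M.a * ((hq n ρ (c * cls (RingHom.ker φ))).A / 15 : ℤ) ∧
      Ideal.span {μ} * ((hq n ρ c).idl n * RingHom.ker φ) =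
        Ideal.span {(((hq n ρ c).A / 15 : ℤ) : OO n)} * (RingHom.ker φ * cj (RingHom.ker φ)) *
          (hq n ρ (c * cls (RingHom.ker φ))).idl n := by
  have : Fact p.Prime := ⟨hp⟩
  obtain ⟨hQ, hcl, -⟩ := hq_spec hd c
  have him := ht_im hd c
  have htc : ht n ρ c = (hq n ρ c).tau := rfl
  generalize hq n ρ c = Q at hQ hcl hA htc ⊢
  obtain ⟨A, B, C⟩ := Q
  have hA0 : (A : ZMod p) ≠ 0 := fun h => hA ((ZMod.intCast_zmod_eq_zero_iff_dvd _ p).1 h)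
  obtain ⟨k, hk⟩ := ZMod.intCast_surjective (φ (QF.bet n ⟨A, B, C⟩) / (A : ZMod p))
  obtain ⟨⟨hD, h15, h30⟩, hpos⟩ := hQ
  simp only at h15 h30 hpos hA
  have hD1 : QF.disc ⟨A, 2 * A * k + B, A * k ^ 2 + B * k + C⟩ = -n := by
    rw [← hD]
    simp only [QF.disc]
    ring
  have hb : ∀ A' C' : ℤ, φ (QF.bet n ⟨A', 2 * A * k + B, C'⟩) = 0 := by
    intro A' C'
    have e : QF.bet n ⟨A', 2 * A * k + B, C'⟩ = QF.bet n ⟨A, B, C⟩ - ((k * A : ℤ) : OO n) := by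
      refine QuadraticAlgebra.ext ?_ ?_
      · simp only [QF.bet, QuadraticAlgebra.re_sub, QuadraticAlgebra.re_intCast, Int.cast_id]
        have : 2 * A * k = 2 * (k * A) := by ring
        omega
      · simp [QF.bet]
    rw [e, map_sub, map_intCast, Int.cast_mul, hk, div_mul_cancel₀ _ hA0, sub_self]
  obtain ⟨C'', hC⟩ : (p : ℤ) ∣ A * k ^ 2 + B * k + C := by
    have h1 := BSD15.qbasic_mul_star (QF.bet n ⟨A, 2 * A * k + B, A * k ^ 2 + B * k + C⟩)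
    rw [bet_norm hD1] at h1
    have h2 := congrArg φ h1
    rw [map_mul, hb, zero_mul, map_intCast, Int.cast_mul] at h2
    exact (ZMod.intCast_zmod_eq_zero_iff_dvd _ p).1 ((mul_eq_zero.1 h2.symm).resolve_left hA0)
  have hp0 : (0 : ℤ) < p := by exact_mod_cast hp.pos
  have hD2 : QF.disc ⟨A * p, 2 * A * k + B, C''⟩ = -n := by
    rw [← hD1, hC]
    simp only [QF.disc]
    ring
  have hD3 : QF.disc ⟨p, 2 * A * k + B, A * C''⟩ = -n := by
    rw [← hD2]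
    simp only [QF.disc]
    ring
  have hH : Hg n ρ ⟨A * p, 2 * A * k + B, C''⟩ := by
    refine ⟨⟨hD2, h15.mul_right _, ?_⟩, mul_pos hpos hp0⟩
    obtain ⟨a, ha⟩ := h15
    have e : 2 * A * k + B - ρ = 30 * (a * k) + (B - ρ) := by rw [ha]; ring
    show 30 ∣ 2 * A * k + B - ρ
    rw [e]
    exact dvd_add (dvd_mul_right _ _) h30
  have hne : RingHom.ker φ ≠ ⊥ := by
    rw [Ne, ← BSD15.nm_eq_zero, hφ]
    exact hp.ne_zero
  have hI : QF.idl n ⟨p, 2 * A * k + B, A * C''⟩ = RingHom.ker φ := by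
    have h1 : QF.idl n ⟨p, 2 * A * k + B, A * C''⟩ ≤ RingHom.ker φ := by
      rw [QF.idl, Ideal.span_le]
      rintro z (rfl | rfl)
      · simp
      · exact hb _ _
    obtain ⟨K, hK⟩ := Ideal.dvd_iff_le.2 h1
    have h2 := nm_idl hD3
    rw [hK, BSD15.nm_mul, hφ] at h2
    have h3 : nm K = 1 := by
      refine Nat.eq_of_mul_eq_mul_left hp.pos ?_
      simpa using h2
    rw [hK, BSD15.genus_nm_eq_one h3, Ideal.mul_top]
  have hI2 : QF.idl n ⟨A * p, 2 * A * k + B, C''⟩ = QF.idl n ⟨A, B, C⟩ * RingHom.ker φ := by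
    rw [idl_mul hD2, hI, idl_congr (B' := B) (C' := C) ⟨k, by ring⟩]
  have hc2 : cls (QF.idl n ⟨A * p, 2 * A * k + B, C''⟩) = c * cls (RingHom.ker φ) := by
    rw [hI2, BSD15.cls_mul (idl_ne_bot _) hne, hcl]
  obtain ⟨γ, hγ, e1, e2⟩ := exists_ht hd hH
  rw [hc2] at e1 e2
  obtain ⟨hQ', -, -⟩ := hq_spec hd (c * cls (RingHom.ker φ))
  have him' := ht_im hd (c * cls (RingHom.ker φ))
  have htc' : ht n ρ (c * cls (RingHom.ker φ)) = (hq n ρ (c * cls (RingHom.ker φ))).tau := rfl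
  have hcmp := idl_cmp (n := n) hD2 hγ.1
  rw [e1, hI2] at hcmp
  generalize hq n ρ (c * cls (RingHom.ker φ)) = Q' at hQ' htc' hcmp ⊢
  generalize ht n ρ (c * cls (RingHom.ker φ)) = τ' at him' htc' e2 ⊢
  have hTd : M2.det ⟨1, -k, 0, p⟩ = p := by simp [M2.det]
  have hT : M2.act ⟨1, -k, 0, p⟩ (ht n ρ c) = γ.act τ' := by
    rw [e2, htc, M2.act_eq]
    have h1 : (A : ℝ) ≠ 0 := by exact_mod_cast hpos.ne'
    have h2 : (p : ℝ) ≠ 0 := by exact_mod_cast hp.ne_zero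
    have h3 : (p : ℂ) ≠ 0 := by exact_mod_cast hp.ne_zero
    simp only [M2.j, Int.cast_zero, zero_mul, zero_add, Int.cast_natCast]
    rw [div_eq_iff h3]
    apply Complex.ext
    · simp [QF.tau]
      field_simp
    · simp [QF.tau, hD, hD2]
      field_simp
  have hγa : γ.adj.det ≠ 0 := by rw [M2.det_adj, hγ.1]; exact one_ne_zero
  have hj : γ.adj.j (γ.act τ') * γ.j τ' = 1 := by
    rw [← M2.j_mul _ hγ.det_pos.ne' him', M2.adj_mul_self hγ.1, M2.j_one]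
  obtain ⟨a, ha⟩ := h15
  obtain ⟨a', ha'⟩ := hQ'.1.2.1
  obtain ⟨g, hg⟩ := hγ.2
  have ea : A / 15 = a := by omega
  have ea' : Q'.A / 15 = a' := by omega
  refine ⟨γ.adj * ⟨1, -k, 0, p⟩, g * Q'.bet n + γ.d * a', ?_, ?_, ?_, ?_, ?_, ?_⟩
  · rw [M2.det_mul, M2.det_adj, hγ.1, hTd, one_mul]
  · simpa using hγ.2
  · rw [M2.act_mul hγa (by rw [hTd]; exact hp0) him, hT, ← M2.act_mul hγa hγ.det_pos him',
      M2.adj_mul_self hγ.1, M2.act_one]
  · rw [M2.j_mul _ (by rw [hTd]; exact hp0.ne') him, hT, ea', ← embH_apply, map_add, map_mul,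
      map_mul, map_intCast, map_intCast, map_intCast, embH_apply, emb_bet hQ'.1.1 hQ'.2, ← htc',
      ha']
    simp only [M2.j, hg] at hj ⊢
    push_cast at hj ⊢
    linear_combination (a' * p : ℂ) * hj
  · rw [map_add, map_mul, map_mul, hψ Q' hQ', map_intCast, map_intCast, ea']
    simp
  · have h15' : Ideal.span {(15 : OO n)} ≠ ⊥ := by
      rw [Ne, Ideal.span_singleton_eq_bot]
      norm_num
    refine mul_left_cancel₀ h15' ?_
    have e3 : (15 : OO n) * (g * Q'.bet n + γ.d * a') = γ.c * Q'.bet n + γ.d * Q'.A := by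
      rw [hg, ha']
      push_cast
      ring
    have e4 : (15 : OO n) * ((a : OO n) * p) = ((A * p : ℤ) : OO n) := by
      rw [ha]
      push_cast
      ring
    rw [BSD15.mul_cj, hφ, ea, Ideal.span_singleton_mul_span_singleton,
      ← mul_assoc (Ideal.span {(15 : OO n)}), ← mul_assoc (Ideal.span {(15 : OO n)}),
      Ideal.span_singleton_mul_span_singleton, Ideal.span_singleton_mul_span_singleton, e3, e4]
    exact hcmp

theorem HM_prod (hd : HD n ρ) {p : ℕ} {I : Ideal (OO n)} (hI : I ≠ ⊥) {ψ : OO n →+* ZMod 5}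
    {α : ClassGroup (OO n)} {M : ClassGroup (OO n) → M2} {μ : ClassGroup (OO n) → OO n}
    (h1 : ∀ c, emb n (μ c) * (M c).j (ht n ρ c) = ((hq n ρ (c * α)).A / 15 : ℤ) * p)
    (h2 : ∀ c, ψ (μ c) = (M c).a * ((hq n ρ (c * α)).A / 15 : ℤ))
    (h3 : ∀ c, Ideal.span {μ c} * ((hq n ρ c).idl n * I) =
      Ideal.span {(((hq n ρ c).A / 15 : ℤ) : OO n)} * (I * cj I) * (hq n ρ (c * α)).idl n)
    {S : Finset (ClassGroup (OO n))}
    (hS : ∀ {N : Type} [CommMonoid N] (f : ClassGroup (OO n) → N),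
      ∏ c ∈ S, f (c * α) = ∏ c ∈ S, f c) :
    ∃ J : OO n, Ideal.span {J} = cj I ^ S.card ∧
      emb n J * ∏ c ∈ S, (M c).j (ht n ρ c) = p ^ S.card ∧ ψ J = ∏ c ∈ S, ((M c).a : ZMod 5) := by
  have : Fact (Nat.Prime 5) := ⟨by norm_num⟩
  have ha5 : ∀ c, (((hq n ρ c).A / 15 : ℤ) : ZMod 5) ≠ 0 := by
    intro c h
    have h4 := (ZMod.intCast_zmod_eq_zero_iff_dvd _ 5).1 h
    have h5 := (hq_spec hd c).2.2.isUnit_of_dvd' h4 (Dvd.dvd.mul_right (by norm_num) _)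
    rw [Int.isUnit_iff] at h5
    omega
  have ha0 : ∀ c, (hq n ρ c).A / 15 ≠ 0 := fun c h => ha5 c (by rw [h, Int.cast_zero])
  have e1 : Ideal.span {∏ c ∈ S, μ c} =
      Ideal.span {∏ c ∈ S, (((hq n ρ c).A / 15 : ℤ) : OO n)} * cj I ^ S.card := by
    have h4 := Finset.prod_congr (rfl : S = S) fun c _ => h3 c
    simp only [Finset.prod_mul_distrib, Finset.prod_const, Ideal.prod_span_singleton] at h4
    rw [hS fun c => (hq n ρ c).idl n] at h4
    have h5 : (∏ c ∈ S, (hq n ρ c).idl n) * I ^ S.card ≠ 0 :=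
      mul_ne_zero (Finset.prod_ne_zero_iff.2 fun c _ => idl_ne_bot _) (pow_ne_zero _ hI)
    refine mul_right_cancel₀ h5 ?_
    rw [h4]
    ring
  obtain ⟨J, hJ⟩ : (∏ c ∈ S, (((hq n ρ c).A / 15 : ℤ) : OO n)) ∣ ∏ c ∈ S, μ c := by
    refine Ideal.span_singleton_le_span_singleton.1 ?_
    rw [e1]
    exact Ideal.le_of_dvd (dvd_mul_right _ _)
  refine ⟨J, ?_, ?_, ?_⟩
  · have h4 : Ideal.span {∏ c ∈ S, (((hq n ρ c).A / 15 : ℤ) : OO n)} ≠ ⊥ := by
      rw [Ne, Ideal.span_singleton_eq_bot]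
      exact Finset.prod_ne_zero_iff.2 fun c _ => Int.cast_ne_zero.2 (ha0 c)
    refine mul_left_cancel₀ h4 ?_
    rw [← e1, hJ, Ideal.span_singleton_mul_span_singleton]
  · have h4 := Finset.prod_congr (rfl : S = S) fun c _ => h1 c
    simp only [Finset.prod_mul_distrib, Finset.prod_const] at h4
    rw [hS fun c => (((hq n ρ c).A / 15 : ℤ) : ℂ)] at h4
    have h5 := congrArg (embH n) hJ
    simp only [map_prod, map_mul, map_intCast, embH_apply] at h5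
    have h6 : ∏ c ∈ S, (((hq n ρ c).A / 15 : ℤ) : ℂ) ≠ 0 :=
      Finset.prod_ne_zero_iff.2 fun c _ => Int.cast_ne_zero.2 (ha0 c)
    refine mul_left_cancel₀ h6 ?_
    rw [← h4, h5, mul_assoc]
  · have h4 := Finset.prod_congr (rfl : S = S) fun c _ => h2 c
    simp only [Finset.prod_mul_distrib] at h4
    rw [hS fun c => (((hq n ρ c).A / 15 : ℤ) : ZMod 5)] at h4
    have h5 := congrArg ψ hJ
    simp only [map_prod, map_mul, map_intCast] at h5
    have h6 : ∏ c ∈ S, (((hq n ρ c).A / 15 : ℤ) : ZMod 5) ≠ 0 :=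
      Finset.prod_ne_zero_iff.2 fun c _ => ha5 c
    refine mul_left_cancel₀ h6 ?_
    rw [← h5, h4, mul_comm]

theorem HM_not_dvd {p : ℕ} {φ : OO n →+* ZMod p} (hn : ¬ p ∣ n) :
    ¬ RingHom.ker φ ∣ cj (RingHom.ker φ) := by
  intro h
  obtain ⟨k, hk⟩ := ZMod.intCast_surjective (φ ⟨0, 1⟩)
  have h1 : (⟨0, 1⟩ : OO n) - k ∈ RingHom.ker φ := by
    rw [RingHom.mem_ker, map_sub, map_intCast, hk, sub_self]
  have h2 : star ((⟨0, 1⟩ : OO n) - k) ∈ RingHom.ker φ :=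
    Ideal.le_of_dvd h (BSD15.mem_cj.2 (by rwa [star_star]))
  have h3 : BSD15.del n = ((⟨0, 1⟩ : OO n) - k) - star ((⟨0, 1⟩ : OO n) - k) := by
    refine QuadraticAlgebra.ext ?_ ?_ <;> simp [BSD15.del]
  have h4 : φ (BSD15.del n) = 0 := by
    rw [h3]
    exact (RingHom.ker φ).sub_mem h1 h2
  have h5 := congrArg φ (BSD15.del_mul_del (n := n))
  rw [map_mul, h4, zero_mul, map_neg, map_natCast, zero_eq_neg] at h5
  exact hn ((ZMod.natCast_eq_zero_iff _ _).1 h5)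

theorem HM_two : (2 : ZMod 5) ≠ 0 := by decide

theorem HM_jac (S : Finset (ClassGroup (OO n))) (f : ClassGroup (OO n) → ℤ) :
    haveI : Fact (Nat.Prime 5) := ⟨by norm_num⟩
    ∏ c ∈ S, jacobiSym (f c) 5 = quadraticChar (ZMod 5) (∏ c ∈ S, (f c : ZMod 5)) := by
  have : Fact (Nat.Prime 5) := ⟨by norm_num⟩
  rw [map_prod]
  exact Finset.prod_congr rfl fun c _ => (jacobiSym.legendreSym.to_jacobiSym 5 (f c)).symm

theorem hecke_data {n : ℕ} [Good n] {ρ : ℤ} (hd : HD n ρ) : ∃ N : ℕ, ∀ p : ℕ, p.Prime → N < p →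
    ∀ P : Ideal Zb, P.IsPrime → (p : Zb) ∈ P → InP P (omg n ^ p - omg n) →
    ∃ (α : ClassGroup (OO n)) (M : ClassGroup (OO n) → M2),
      (∀ c, (M c).det = p ∧ 15 ∣ (M c).c ∧ (M c).act (ht n ρ c) = ht n ρ (c * α)) ∧
      (∀ q ∈ n.primeFactors, gch q α = jacobiSym p q) ∧
      (∃ J : ℂ, IsIntegral ℤ J ∧ ¬ InP P J ∧
        J * ∏ c, (M c).j (ht n ρ c) = p ^ Fintype.card (ClassGroup (OO n))) ∧
      ((∀ q ∈ n.primeFactors, gch q α = 1) → ∀ d d' : ClassGroup (OO n),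
        ∏ c ∈ gen d, jacobiSym (M c).a 5 = ∏ c ∈ gen d', jacobiSym (M c).a 5) := by
  refine ⟨n + ∑ c, (hq n ρ c).A.natAbs, fun p hp hN P hP hpP h1 => ?_⟩
  have hn0 : 0 < n := by have := (inferInstance : Good n).gt; omega
  have hn : ¬ p ∣ n := fun h => by have := Nat.le_of_dvd hn0 h; omega
  have hA : ∀ c, ¬ (p : ℤ) ∣ (hq n ρ c).A := by
    intro c h
    have h2 := Nat.le_of_dvd (Int.natAbs_pos.2 (hq_spec hd c).1.2.ne') (Int.natCast_dvd.1 h)
    have h3 : (hq n ρ c).A.natAbs ≤ ∑ c, (hq n ρ c).A.natAbs :=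
      Finset.single_le_sum (f := fun c => (hq n ρ c).A.natAbs) (fun _ _ => Nat.zero_le _)
        (Finset.mem_univ c)
    omega
  obtain ⟨φ, hφ, hφP⟩ := HM_phi hp hP hpP h1
  obtain ⟨ψ, hψ⟩ := HM_psi hd
  choose M μ e1 e2 e3 e4 e5 e6 using fun c => HM_one hd hp hφ hψ c (hA c)
  have hne : RingHom.ker φ ≠ ⊥ := by
    rw [Ne, ← BSD15.nm_eq_zero, hφ]
    exact hp.ne_zero
  refine ⟨cls (RingHom.ker φ), M, fun c => ⟨e1 c, e2 c, e3 c⟩, fun q hq' => ?_, ?_, ?_⟩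
  · rw [BSD15.gch_cls hq' hne, hφ, BSD15.Xp_of_not_dvd]
    intro h
    exact hn ((Nat.prime_dvd_prime_iff_eq (Nat.prime_of_mem_primeFactors hq') hp).1 h ▸
      Nat.dvd_of_mem_primeFactors hq')
  · obtain ⟨J, h2, h3, -⟩ := HM_prod hd hne e4 e5 e6 (S := univ)
      fun f => Equiv.prod_comp (Equiv.mulRight _) f
    refine ⟨emb n J, isIntegral_emb n J, fun h => HM_not_dvd (φ := φ) hn ?_, h3⟩
    refine (BSD15.qcount_prime_of_nm hp hφ).dvd_of_dvd_pow (n := (univ : Finset (ClassGroup (OO n))).card) ?_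
    rw [← h2, Ideal.dvd_span_singleton]
    exact hφP J h
  · intro hg d d'
    have : Fact (Nat.Prime 5) := ⟨by norm_num⟩
    obtain ⟨J, h2, -, h3⟩ := HM_prod hd hne e4 e5 e6 (S := gen d) fun f => prod_gen_mul hg d f
    obtain ⟨J', h4, -, h5⟩ := HM_prod hd hne e4 e5 e6 (S := gen d') fun f => prod_gen_mul hg d' f
    rw [HM_jac, HM_jac, ← h3, ← h5]
    rw [card_gen d d', ← h4, Ideal.span_singleton_eq_span_singleton] at h2
    obtain ⟨u, hu⟩ := h2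
    have h6 : (u : OO n).norm = 1 := by
      have h7 := BSD15.nm_span (u : OO n)
      rw [Ideal.span_singleton_eq_top.2 u.isUnit, BSD15.genus_nm_top] at h7
      exact h7.symm
    rcases BSD15.eq_of_norm_one h6 with h | h
    · rw [← hu, h, mul_one]
    · have h8 : quadraticChar (ZMod 5) (-1) = 1 := by
        rw [show (-1 : ZMod 5) = 2 ^ 2 from rfl]
        exact quadraticChar_sq_one' HM_two
      rw [← hu, h, map_mul, map_mul, map_neg, map_one, h8, mul_one]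

end Pool.Agent.P.MP_8b7eba_nt.R1
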