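import Pool.Agent.P.MP_8b7eba_nt.R1.Basic

/-! Valuations of central values when 3 is inert and 5 splits. -/

namespace Pool.Agent.P.MP_8b7eba_nt.R1

open Complex Filter Topology MeasureTheory Metric Finset Asymptotics PowerSeries
open scoped Real UpperHalfPlane MatrixGroups ComplexConjugate
open _root_.Pool.Agent.P.MP_8b7eba_nt.Mod (M2 G0 FI L0 om lv xx yy qq UH atI ex mT)
open BSD15 (OO Good cls gch gJ nm cj rho lam Adm B3 B5 No4 Xp XJ Rn)
open MP_9c97e9_nt (Pt pm Is)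

theorem lam_B3 {b : ℕ} (h : B3 b) : (2 : ℤ) ^ (2 * b.primeFactors.card + 1) ∣ lam b := by
  obtain ⟨P, p1, p2, p3, -⟩ := BSD15.iface3 h
  obtain ⟨hsq, h4, h3, h5⟩ := h
  have ha : Adm b := BSD15.adm_of hsq h4 (by omega) (by omega)
  obtain ⟨l, hl⟩ := Nat.nonempty_primeFactors.2 (show 1 < b by omega)
  have hr : 0 < b.primeFactors.card := Finset.card_pos.2 ⟨l, hl⟩
  have key := BSD15.ind_isolate' (T := (b.primeFactors.erase l).powerset) (P := P) (J₀ := ∅)
    (Finset.empty_mem_powerset _) (d := 2 ^ (b.primeFactors.card - 1)) (by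
      intro J hJ h0
      obtain ⟨j1, j2⟩ := BSD15.ind_ne_of_erase hl (Finset.mem_powerset.1 hJ)
      refine BSD15.ind_sq3 hr (p1 J j1 h0 j2) (BSD15.ind_split ha h4 j1 h0 j2 ?_)
      intro a c a1 b1 a2 b2 _ _ _ _
      exact Or.inr ⟨BSD15.indG_lam a1 a2, BSD15.indG_lam b1 b2⟩) (p3 l hl)
  obtain ⟨w, hw⟩ := key
  rw [← dvd_abs, ← p2, hw]
  refine ⟨w ^ 2, ?_⟩
  rw [show 2 * b.primeFactors.card + 1 = (b.primeFactors.card - 1) * 2 + 3 by omega]
  ring

theorem lam_B3_prime {l : ℕ} (hl : l.Prime) (h : B3 l) : ∃ v : ℤ, Odd v ∧ |lam l| = 8 * v ^ 2 := by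
  classical
  obtain ⟨hsq, h4, h3, h5⟩ := h
  have : Good l := ⟨hsq, h4, by omega⟩
  have hA : Adm l := BSD15.adm_of hsq h4 (by omega) (by omega)
  have hc : l.Coprime 15 := Nat.Coprime.coprime_dvd_right (by norm_num) hA.2
  have h15 := BSD15.jac15_of h4 (Or.inr ⟨h3, h5⟩)
  obtain ⟨F, hF⟩ := BSD15.exists_aux (BSD15.jac_neg15_of h4 h15)
  obtain ⟨τ, hτ⟩ := BSD15.types3 hF hc h5
  let t : ClassGroup (OO l) → ℤ := fun g => if τ g then 1 else 0
  have hr : ∀ x y, ((BSD15.rr F (BSD15.rep x) (BSD15.rep y) 1 : ℤ) =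
      4 * ((1 - t x) * (1 - t y)) + 0 * (t x * (1 - t y) + (1 - t x) * t y) + 4 * (t x * t y)) ∧
      ((BSD15.rr F (BSD15.rep x) (BSD15.rep y) 2 : ℤ) = 4 * ((1 - t x) * (1 - t y)) +
      8 * (t x * (1 - t y) + (1 - t x) * t y) + 4 * (t x * t y)) := by
    intro x y
    obtain ⟨b, c⟩ := hτ x y
    rw [b, c]
    cases a : τ x <;> cases d : τ y <;> simp [t, a, d]
  have e := BSD15.gross_triv hF hA h15
  have e1 := BSD15.sum_kernel (fun _ => 1) t _ _ _ _ fun x y => (hr x y).1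
  have e2 := BSD15.sum_kernel (fun _ => 1) t _ _ _ _ fun x y => (hr x y).2
  simp only [one_mul] at e1 e2
  rw [e1, e2] at e
  have e3 : lam l = 8 * ((∑ _x : ClassGroup (OO l), (1 : ℤ)) - 2 * ∑ g, t g) ^ 2 := by
    linear_combination e
  have ho := BSD15.odd_card_squares (BSD15.no4_prime hl)
    (l := l) (by rw [hl.primeFactors]; exact mem_singleton_self l)
  rw [hl.primeFactors, erase_singleton, Finset.filter_true_of_mem (fun _ _ p hp => by simp at hp)]
    at ho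
  refine ⟨_, Odd.sub_even ?_ (even_two_mul _), by rw [e3, abs_of_nonneg (by positivity)]⟩
  rw [sum_const, nsmul_eq_mul, mul_one]
  exact_mod_cast ho

end Pool.Agent.P.MP_8b7eba_nt.R1
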