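import Pool.Agent.P.MP_8b7eba_nt.R1.Val4A

/-! The central value for an auxiliary prime in which 3 and 5 are inert. -/

namespace Pool.Agent.P.MP_8b7eba_nt.R1

open Complex Filter Topology MeasureTheory Metric Finset Asymptotics PowerSeries
open scoped Real UpperHalfPlane MatrixGroups ComplexConjugate
open _root_.Pool.Agent.P.MP_8b7eba_nt.Mod (M2 G0 FI L0 om lv xx yy qq UH atI ex mT)
open BSD15 (OO Good cls gch gJ nm cj rho lam Adm B3 B5 No4 Xp XJ Rn)
open MP_9c97e9_nt (Pt pm Is)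

theorem val4_nP_act {g : M2} (hg : G0 g) {a c : ℤ} (h : a ≠ 0 ∨ c ≠ 0) :
    Mod.nP (g.a * a + g.b * c) (g.c * a + g.d * c) = Mod.nP a c + Mod.nP g.a g.c := by
  refine (Mod.coeff_eq (b := Mod.nM (g.a * a + g.b * c) (g.c * a + g.d * c))
    (d := Mod.nM a c + Mod.nM g.a g.c) ?_).1
  rw [← Mod.lv_eq, Mod.lv_G0 hg h, Mod.lv_eq, Mod.lv_eq]
  push_cast
  ring

theorem val4_nP_zero (a : ℤ) : Mod.nP a 0 = 0 := by
  refine (Mod.coeff_eq (b := Mod.nM a 0) (d := 0) ?_).1
  rw [← Mod.lv_eq]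
  simp

theorem val4_jac {a b c : ℤ} (h : (15 : ℤ) ∣ c) : jacobiSym (a + b * c) 5 = jacobiSym a 5 := by
  obtain ⟨k, rfl⟩ := h
  refine jacobiSym.mod_left' ?_
  rw [show a + b * (15 * k) = a + ((5 : ℕ) : ℤ) * (3 * b * k) by push_cast; ring,
    Int.add_mul_emod_self_left]

theorem val4_det {g : M2} (hg : G0 g) : jacobiSym g.a 5 * jacobiSym g.d 5 = 1 := by
  have h1 : g.a * g.d = 1 + g.b * g.c := by have := hg.1; unfold M2.det at this; linarith
  rw [← jacobiSym.mul_left, h1, val4_jac hg.2, jacobiSym.one_left]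

theorem val4_G0 : ∀ g, G0 g → jacobiSym g.a 5 = 1 ∧ Mod.nP g.a g.c % 8 = 0 ∨
    jacobiSym g.a 5 = -1 ∧ Mod.nP g.a g.c % 8 = 4 := by
  refine Mod.g0_ind (fun g h hg hh Pg Ph => ?_) (fun g hg Pg => ?_) ?_ ?_ ?_
  · rw [M2.mul_a, M2.mul_c, val4_nP_act hg (Mod.col_ne hh.det_pos.ne').1, val4_jac hh.2,
      jacobiSym.mul_left]
    rcases Pg with ⟨h1, h2⟩ | ⟨h1, h2⟩ <;> rcases Ph with ⟨h3, h4⟩ | ⟨h3, h4⟩ <;>
      rw [h1, h3] <;> omega
  · have h1 := val4_nP_act hg.adj (Mod.col_ne hg.det_pos.ne').1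
    rw [show g.adj.c * g.a + g.adj.d * g.c = 0 by simp; ring, val4_nP_zero] at h1
    have h2 := val4_det hg
    rw [M2.adj_a] at h1 ⊢
    rcases Pg with ⟨h3, h4⟩ | ⟨h3, h4⟩ <;> rw [h3] at h2 <;> omega
  · left
    exact ⟨by simp only [M2.neg_a, M2.one_a]; norm_num, by simp [val4_nP_zero]⟩
  · left
    exact ⟨by simp [mT], by simp [mT, val4_nP_zero]⟩
  · intro g hg
    simp only [Mod.gens, List.mem_cons, List.not_mem_nil, or_false] at hg
    rcases hg with rfl | rfl | rfl | rfl | rfl | rfl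
    · exact .inl ⟨by norm_num, by decide +kernel⟩
    · exact .inr ⟨by norm_num, by decide +kernel⟩
    · exact .inr ⟨by norm_num, by decide +kernel⟩
    · exact .inl ⟨by norm_num, by decide +kernel⟩
    · exact .inl ⟨by norm_num, by decide +kernel⟩
    · exact .inr ⟨by norm_num, by decide +kernel⟩

theorem val4_five {l : ℕ} (hl : l.Prime) (h3 : l % 3 = 2) (h5 : l % 5 = 2 ∨ l % 5 = 3)
    {a : ℕ} (h0 : 0 < a) (ha : a < l) : Mod.nP a l % 8 = 5 := by
  have c1 : l.Coprime (15 * a) := by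
    refine Nat.Coprime.mul_right ?_ (Nat.coprime_of_lt_prime h0.ne' ha hl)
    rw [show 15 = 3 * 5 by rfl]
    refine Nat.Coprime.mul_right ?_ ?_
    · exact ((Nat.Prime.coprime_iff_not_dvd Nat.prime_three).2 (by omega)).symm
    · exact ((Nat.Prime.coprime_iff_not_dvd Nat.prime_five).2 (by omega)).symm
  obtain ⟨x, y, hxy⟩ := Nat.isCoprime_iff_coprime.2 c1
  push_cast at hxy
  have hg : G0 ⟨x, a, 15 * -y, l⟩ :=
    ⟨by simp only [M2.det]; linear_combination hxy, dvd_mul_right _ _⟩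
  have h1 := val4_nP_act hg (a := 0) (c := 1) (.inr one_ne_zero)
  simp only [mul_zero, zero_add, mul_one, show Mod.nP 0 1 = 1 by decide +kernel] at h1
  have h2 := val4_det hg
  have h4 : jacobiSym (l : ℤ) 5 = -1 := by
    rw [jacobiSym.mod_left]
    rcases h5 with h5 | h5
    · rw [show (l : ℤ) % ((5 : ℕ) : ℤ) = 2 by omega]; norm_num
    · rw [show (l : ℤ) % ((5 : ℕ) : ℤ) = 3 by omega]; norm_num
  have h6 := val4_G0 _ hg
  simp only at h2 h6
  rw [h4] at h2
  omega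

theorem lam_mod {l : ℕ} (hl : l.Prime) (h8 : l % 8 = 1) (h3 : l % 3 = 2)
    (h5 : l % 5 = 2 ∨ l % 5 = 3) : lam l % 8 = 4 := by
  have hp0 : (l : ℤ) ≠ 0 := by exact_mod_cast hl.ne_zero
  have hodd : Odd l := Nat.odd_iff.2 (by omega)
  have h15 : ¬ l ∣ 15 := fun h => by
    have := Nat.le_of_dvd (by norm_num) h
    have := hl.one_lt
    interval_cases l <;> omega
  have e : ∀ j : ℕ, Mod.lam (j / l) = Mod.nP j l * L0 + Mod.nM j l * om * I := fun j => by
    rw [← Mod.lv_eq, Mod.lv_of_ne _ hp0]; simp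
  have h1 : ∑ j ∈ range l, Mod.nP j l + 1 = Mod.an l := by
    have h := Mod.hecke_lam hl 0
    simp only [zero_add, e, if_neg h15, mul_zero, Mod.lam_zero] at h
    refine (Mod.coeff_eq (b := ∑ j ∈ range l, Mod.nM j l) (d := 0) ?_).1
    push_cast
    rw [zero_mul, zero_mul, add_zero, ← h, sum_add_distrib, add_mul, sum_mul, sum_mul, sum_mul]
    ring
  have h2 : Mod.nP 0 l = 1 := by
    refine (Mod.coeff_eq (b := Mod.nM 0 l) (d := 0) ?_).1
    simpa [Mod.lam_zero] using (e 0).symm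
  have hA : Adm l := by
    refine ⟨hl.squarefree, ?_⟩
    rw [show 30 = 2 * (3 * 5) by rfl]
    refine Nat.Coprime.mul_right ?_ (Nat.Coprime.mul_right ?_ ?_)
    · exact ((Nat.Prime.coprime_iff_not_dvd Nat.prime_two).2 (by omega)).symm
    · exact ((Nat.Prime.coprime_iff_not_dvd Nat.prime_three).2 (by omega)).symm
    · exact ((Nat.Prime.coprime_iff_not_dvd Nat.prime_five).2 (by omega)).symm
  have h4 : ∑ j ∈ range l, jacobiSym j l * Mod.nP j l = -4 * lam l := by
    have h := BSD15.euler_sum hl.one_lt hA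
    rw [if_pos (by omega), BSD15.euler_msA] at h
    simp only [e, Mod.chi] at h
    refine (Mod.coeff_eq (b := ∑ j ∈ range l, jacobiSym j l * Mod.nM j l) (d := 0) ?_).1
    push_cast
    rw [zero_mul, zero_mul, add_zero, show -4 * (lam l : ℂ) * L0 = lam l * (-4 * L0) by ring, ← h,
      sum_mul, sum_mul, sum_mul, ← sum_add_distrib]
    exact sum_congr rfl fun _ _ => by ring
  have h6 := BSD15.sum_jacobi_eq_zero hl.one_lt hodd hl.squarefree
  have h7 := card_mod hl h8 h3 h5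
  set s : ℕ → ℤ := fun j => (1 - jacobiSym j l) * (Mod.nP j l - 5) / 16 with hs
  have h9 : ∀ j ∈ Ico 1 l, (1 - jacobiSym j l) * (Mod.nP j l - 5) = 16 * s j := fun j hj => by
    rw [mem_Ico] at hj
    have k1 := val4_five hl h3 h5 hj.1 hj.2
    have k2 : (j : ℤ).gcd l = 1 := by
      rw [Int.gcd_natCast_natCast]
      exact (Nat.coprime_of_lt_prime (by omega) hj.2 hl).symm
    simp only [hs]
    rcases jacobiSym.eq_one_or_neg_one k2 with k | k <;> rw [k] <;> omega
  have h10 : ((∑ j ∈ Ico 1 l, s j : ℤ) : ZMod 2) = 0 := by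
    push_cast
    refine sum_involution (fun j _ => l - j) (fun j hj => ?_) (fun j hj _ h => ?_)
      (fun j hj => by simp at hj ⊢; omega) fun j hj => by simp at hj; omega
    · rw [mem_Ico] at hj
      have k1 : s (l - j) = s j := by
        have k2 : ((l - j : ℕ) : ℤ) = -j + 1 * l := by rw [Nat.cast_sub hj.2.le]; ring
        have k3 : jacobiSym (-j + 1 * l) l = jacobiSym j l := by
          rw [jacobiSym.mod_left' (Int.add_mul_emod_self_right (-j) 1 l), jacobiSym.neg _ hodd,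
            ZMod.χ₄_nat_one_mod_four (by omega), one_mul]
        simp only [hs]
        rw [k2, (Mod.nP_add_mul (-j) l 1).1, (Mod.nP_neg _ _).1, k3]
      rw [k1]
      exact CharTwo.add_self_eq_zero _
    · rw [mem_Ico] at hj
      omega
  rw [ZMod.intCast_zmod_eq_zero_iff_dvd] at h10
  have h11 : ∑ j ∈ Ico 1 l, (1 - jacobiSym j l) * (Mod.nP j l - 5) = 16 * ∑ j ∈ Ico 1 l, s j := by
    rw [mul_sum]; exact sum_congr rfl h9
  have h12 : ∑ j ∈ range l, (1 - jacobiSym j l) * (Mod.nP j l - 5) =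
      ∑ j ∈ range l, Mod.nP j l - ∑ j ∈ range l, jacobiSym j l * Mod.nP j l - 5 * l +
        5 * ∑ j ∈ range l, jacobiSym j l := by
    rw [show (5 : ℤ) * l = ∑ _j ∈ range l, 5 by simp [mul_comm], mul_sum, ← sum_sub_distrib,
      ← sum_sub_distrib, ← sum_add_distrib]
    exact sum_congr rfl fun _ _ => by ring
  rw [h4, h6, range_eq_Ico, sum_eq_sum_Ico_succ_bot hl.pos, zero_add, h11, Nat.cast_zero, h2,
    jacobiSym.zero_left hl.one_lt, ← range_eq_Ico] at h12
  push_cast at h10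
  omega

end Pool.Agent.P.MP_8b7eba_nt.R1
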