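import Pool.Agent.P.MP_8b7eba_nt.R1.Rel
import Pool.Agent.P.MP_8b7eba_nt.R1.Val3
import Pool.Agent.P.MP_8b7eba_nt.R1.Val4

/-! The induction. -/

namespace Pool.Agent.P.MP_8b7eba_nt.R1

open Complex Filter Topology MeasureTheory Metric Finset Asymptotics PowerSeries
open scoped Real UpperHalfPlane MatrixGroups ComplexConjugate
open _root_.Pool.Agent.P.MP_8b7eba_nt.Mod (M2 G0 FI L0 om lv xx yy qq UH atI ex mT)
open BSD15 (OO Good cls gch gJ nm cj rho lam Adm B3 B5 No4 Xp XJ Rn)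
open MP_9c97e9_nt (Pt pm Is)

/-- `P` lies in `2 ^ k InB` up to torsion -/
def TB (k : ℕ) (P : EC) : Prop := ∃ R, InB R ∧ IsOfFinAddOrder (P - (2 : ℤ) ^ k • R)

namespace TB

variable {j k : ℕ} {P Q : EC}

theorem of_inB (h : InB P) (k : ℕ) : TB k ((2 : ℤ) ^ k • P) := ⟨P, h, by simp⟩

theorem zero : TB k 0 := ⟨0, InB.zero, by simp⟩

theorem add (h : TB k P) (h' : TB k Q) : TB k (P + Q) := by
  obtain ⟨R, h1, h2⟩ := h
  obtain ⟨R', h3, h4⟩ := h'
  refine ⟨R + R', h1.add h3, ?_⟩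
  convert h2.add h4 using 1
  · rfl
  module

theorem zsmul (h : TB k P) (m : ℤ) : TB k (m • P) := by
  obtain ⟨R, h1, h2⟩ := h
  refine ⟨m • R, h1.zsmul m, ?_⟩
  convert h2.zsmul (i := m) using 1
  module

theorem sub (h : TB k P) (h' : TB k Q) : TB k (P - Q) := by
  convert h.add (h'.zsmul (-1)) using 1
  module

theorem sum {ι : Type} {s : Finset ι} {f : ι → EC} (h : ∀ i ∈ s, TB k (f i)) :
    TB k (∑ i ∈ s, f i) := Finset.sum_induction f (TB k) (fun _ _ => add) zero h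

theorem of_tors (h : TB k Q) (h' : IsOfFinAddOrder (P - Q)) : TB k P := by
  obtain ⟨R, h1, h2⟩ := h
  refine ⟨R, h1, ?_⟩
  convert h'.add h2 using 1
  · rfl
  module

theorem pow (h : TB k P) (j : ℕ) : TB (j + k) ((2 : ℤ) ^ j • P) := by
  obtain ⟨R, h1, h2⟩ := h
  refine ⟨R, h1, ?_⟩
  convert h2.zsmul (i := 2 ^ j) using 1
  rw [pow_add]
  module

theorem of_odd {u : ℤ} (hu : Odd u) (hP : InC P) (h : TB k (u • P)) : TB k P := by
  have hc : IsCoprime u (2 ^ k * 4) := by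
    rw [show (4 : ℤ) = 2 ^ 2 by norm_num, ← pow_add]
    exact (Int.isCoprime_two_right.2 hu).pow_right
  obtain ⟨x, y, e⟩ := hc
  convert (h.zsmul x).add ((of_inB hP.four k).zsmul y) using 1
  simp only [smul_smul, ← add_smul]
  rw [e, one_smul]

end TB

theorem ind_of_zsmul {m : ℤ} (hm : m ≠ 0) {P : EC} (h : IsOfFinAddOrder (m • P)) :
    IsOfFinAddOrder P := by
  obtain ⟨k, h1, h2⟩ := isOfFinAddOrder_iff_zsmul_eq_zero.1 h
  exact isOfFinAddOrder_iff_zsmul_eq_zero.2 ⟨k * m, mul_ne_zero h1 hm, by rw [mul_smul, h2]⟩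

theorem HD.emod {n : ℕ} {ρ : ℤ} (hd : HD n ρ) : n % 3 = 2 ∧ (n % 5 = 1 ∨ n % 5 = 4) := by
  have h3 : n % 3 ≠ 0 := fun h => by
    have := Nat.eq_one_of_dvd_coprimes hd.cop (Nat.dvd_of_mod_eq_zero h) (by norm_num)
    omega
  have h5 : n % 5 ≠ 0 := fun h => by
    have := Nat.eq_one_of_dvd_coprimes hd.cop (Nat.dvd_of_mod_eq_zero h) (by norm_num)
    omega
  have h := hd.rt
  have e : ρ ^ 2 % 15 = (ρ % 15) ^ 2 % 15 := by simp [sq, Int.mul_emod]
  have h1 : 0 ≤ ρ % 15 := by omega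
  have h2 : ρ % 15 < 15 := by omega
  generalize ρ % 15 = r at *
  generalize ρ ^ 2 = s at *
  interval_cases r <;> omega

/-- the expected divisibility of the twisted Heegner points -/
def IndC (a : ℕ) : Prop := ∀ b ρ, 1 < b → HF a b ρ →
  TB (a.primeFactors.card + b.primeFactors.card - 2) (PY a b ρ)

theorem ind_term {n : ℕ} [hn : Good n] {ρ : ℤ} (hd : HD n ρ) {J : Finset ℕ}
    (hJ : J ⊆ n.primeFactors) (h0 : J ≠ ∅) (h1 : J ≠ n.primeFactors)
    (ih : ∀ a : ℕ, a.primeFactors = J ∨ a.primeFactors = n.primeFactors \ J ∧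
      jacobiSym (-15) (∏ p ∈ J, p) = 1 → IndC a) :
    TB (n.primeFactors.card - 2) (PJ n ρ J) := by
  have h := hd.adm
  have h0' : n.primeFactors \ J ≠ ∅ := fun hc =>
    h1 (Finset.Subset.antisymm hJ (Finset.sdiff_eq_empty_iff_subset.1 hc))
  obtain ⟨a1, a2, a3⟩ := BSD15.ind_part h hJ h0
  obtain ⟨-, b2, b3⟩ := BSD15.ind_part h Finset.sdiff_subset h0'
  have hm : n = (∏ p ∈ J, p) * ∏ p ∈ n.primeFactors \ J, p := by
    rw [mul_comm, Finset.prod_sdiff hJ, Nat.prod_primeFactors_of_squarefree h.1]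
  have hc := Finset.card_sdiff_add_card_eq_card hJ
  have hj := hd.jac
  generalize ∏ p ∈ J, p = a at *
  generalize ∏ p ∈ n.primeFactors \ J, p = b at *
  rcases BSD15.ind_jac a1 with hs | ⟨hs, -⟩
  · have := ih a (.inl a3) b ρ b2 ⟨hm ▸ hn, hm ▸ hd, hs⟩
    rwa [PY_eq hm, a3, b3, add_comm, hc] at this
  · have hm' := hm.trans (mul_comm a b)
    have hb : jacobiSym (-15) b = -1 := by
      rw [hm, jacobiSym.mul_right' _ (by omega) (by omega), hs, one_mul] at hj
      exact hj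
    have := ih b (.inr ⟨b3, hs⟩) a ρ a2 ⟨hm' ▸ hn, hm' ▸ hd, hb⟩
    rwa [PY_eq hm', a3, b3, hc, PJ_compl ρ hJ] at this

theorem ind_all {n : ℕ} [hn : Good n] {ρ : ℤ} (hd : HD n ρ)
    (ih : ∀ a : ℕ, a.primeFactors.card < n.primeFactors.card → IndC a) :
    TB (n.primeFactors.card - 1)
      ((2 : ℤ) ^ n.primeFactors.card • ZG n ρ 1 - (2 : ℤ) • PJ n ρ ∅) := by
  obtain ⟨l, hl⟩ := Nat.nonempty_primeFactors.2 (show 1 < n by have := hn.gt; omega)
  have hpos := Finset.card_pos.2 ⟨l, hl⟩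
  have e := sum_gJ_all hl fun c => Pz (ht n ρ c)
  rw [← Finset.add_sum_erase _ _ (Finset.empty_mem_powerset _)] at e
  have key : TB (n.primeFactors.card - 1) (∑ J ∈ (n.primeFactors.erase l).powerset.erase ∅,
      (2 : ℤ) ^ 1 • PJ n ρ J) := TB.sum fun J hJ => by
    obtain ⟨h0, hJ⟩ := Finset.mem_erase.1 hJ
    obtain ⟨h1, h2⟩ := BSD15.ind_ne_of_erase hl (Finset.mem_powerset.1 hJ)
    have c1 := Finset.card_lt_card (Finset.ssubset_iff_subset_ne.2 ⟨h1, h2⟩)
    have c2 := Finset.card_pos.2 (Finset.nonempty_iff_ne_empty.2 h0)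
    have c3 := Finset.card_sdiff_add_card_eq_card h1
    have := (ind_term hd h1 h0 h2 fun a ha => ih a (by
      rcases ha with ha | ⟨ha, -⟩ <;> rw [ha] <;> omega)).pow 1
    rwa [show 1 + (n.primeFactors.card - 2) = n.primeFactors.card - 1 by omega] at this
  convert key using 1
  obtain ⟨t, h⟩ : ∃ t, n.primeFactors.card = t + 1 := ⟨_, (Nat.sub_add_cancel hpos).symm⟩
  rw [h, Nat.add_sub_cancel] at e
  rw [← Finset.smul_sum, h, pow_succ', mul_smul, ZG, ← e]
  simp only [PJ]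
  module

theorem ind_prime {a l : ℕ} {ρ : ℤ} (hl : l.Prime) (h : HF a l ρ)
    (ih : ∀ a' : ℕ, a'.primeFactors.card < a.primeFactors.card → IndC a') :
    TB (a.primeFactors.card - 1) (PY a l ρ) := by
  obtain ⟨-, -, ha1, ha, -, hc⟩ := h.jac
  have := h.good
  have hla : l ∉ a.primeFactors := fun h' =>
    hl.one_lt.ne' (Nat.eq_one_of_dvd_coprimes hc (Nat.dvd_of_mem_primeFactors h') dvd_rfl)
  have e : (a * l).primeFactors = insert l a.primeFactors := by
    rw [hc.primeFactors_mul, hl.primeFactors, Finset.union_comm]; rfl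
  have e1 : (a * l).primeFactors.erase l = a.primeFactors := by rw [e, Finset.erase_insert hla]
  have e2 : (a * l).primeFactors.card = a.primeFactors.card + 1 := by
    rw [e, Finset.card_insert_of_notMem hla]
  obtain ⟨p, hp, hs⟩ : ∃ p ∈ a.primeFactors, jacobiSym (-15) p ≠ 1 := by
    by_contra hc
    push Not at hc
    have := h.sign
    rw [BSD15.cfid_jac_sqf _ ha.1, Finset.prod_eq_one hc] at this
    omega
  have hm : l ∈ (a * l).primeFactors := by rw [e]; exact Finset.mem_insert_self _ _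
  obtain ⟨d, hd⟩ := sum_gJ_mem (M := EC) hm (e1 ▸ hp)
  have hd' := hd fun c => Pz (ht (a * l) ρ c)
  rw [e1, ← Finset.add_sum_erase _ _ (a := a.primeFactors) (by simpa using hp), e2] at hd'
  have key : TB (a.primeFactors.card - 1)
      (∑ J ∈ (a.primeFactors.powerset.filter fun J => p ∈ J).erase a.primeFactors,
        PJ (a * l) ρ J) := TB.sum fun J hJ => by
    obtain ⟨h0, hJ⟩ := Finset.mem_erase.1 hJ
    obtain ⟨h1, h2⟩ := Finset.mem_filter.1 hJ
    rw [Finset.mem_powerset] at h1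
    obtain ⟨h3, h4⟩ := BSD15.ind_ne_of_erase hm (e1 ▸ h1)
    have c1 := Finset.card_lt_card (Finset.ssubset_iff_subset_ne.2 ⟨h1, h0⟩)
    have c3 := Finset.card_sdiff_add_card_eq_card h3
    have := ind_term h.hd h3 (Finset.ne_empty_of_mem h2) h4 fun a' ha' => ih a' (by
      rcases ha' with ha' | ⟨ha', h5⟩
      · rw [ha']; exact c1
      · have : 1 < J.card := by
          by_contra h6
          have h7 : J = {p} := Finset.eq_singleton_iff_unique_mem.2
            ⟨h2, fun q hq => Finset.card_le_one.1 (not_lt.1 h6) q hq p h2⟩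
          rw [h7, Finset.prod_singleton] at h5
          exact hs h5
        rw [ha']; omega)
    rwa [e2] at this
  convert (TB.of_inB (inB_ZG_sub h.hd 1 d) (a.primeFactors.card - 1)).sub key using 1
  rw [PY_eq rfl, ZG, ZG, eq_sub_iff_add_eq]
  exact hd'

theorem ind_hf {a b l : ℕ} {ρ : ℤ} (h : HF a b ρ) (hl : l.Prime) (h1 : a * b < l)
    (h2 : l % 60 = b % 60) : HF a l ρ := by
  obtain ⟨-, -, ha1, ha, hb, -⟩ := h.jac
  have hb0 := (BSD15.ind_mod hb).1
  have hab : a ≤ a * b := Nat.le_mul_of_pos_right a (by omega)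
  have e : a * l % 60 = a * b % 60 := by rw [Nat.mul_mod, h2, ← Nat.mul_mod]
  have h4 := h.good.h4
  have h5 := h.good.gt
  have h6 := h.hd.rt
  have h7 : l ≤ a * l := Nat.le_mul_of_pos_left l (by omega)
  refine ⟨⟨?_, by omega, by omega⟩, ⟨?_, by omega⟩, h.sign⟩
  · rw [Nat.squarefree_mul (Nat.coprime_of_lt_prime (by omega) (by omega) hl).symm]
    exact ⟨ha.1, hl.squarefree⟩
  · have := h.hd.cop
    rw [Nat.Coprime, Nat.gcd_comm, Nat.gcd_rec] at this ⊢
    rwa [show a * l % 15 = a * b % 15 by omega]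

theorem ind_move {a b l v : ℕ} {ρ u : ℤ} (h : HF a b ρ) (hb : 1 < b) (hl : l.Prime)
    (h1 : a * b < l) (h2 : l % 60 = b % 60) (h3 : jacobiSym (-(a * b)) l = -1)
    (h4 : ∀ p ∈ b.primeFactors, jacobiSym (-(a * l)) p = -1) (hu : Odd u)
    (h5 : lam l = 2 ^ v * u) (h6 : (2 : ℤ) ^ (2 * (b.primeFactors.card - 1) + v) ∣ lam b)
    (ih : ∀ a' : ℕ, a'.primeFactors.card < a.primeFactors.card → IndC a') :
    TB (a.primeFactors.card + b.primeFactors.card - 2) (PY a b ρ) := by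
  have h' := ind_hf h hl h1 h2
  have ha1 := h.jac.2.2.1
  have hab : b ≤ a * b := Nat.le_mul_of_pos_left b (by omega)
  obtain ⟨k, hk, ht⟩ := rel1 h' h hl.one_lt hb
    (Nat.coprime_of_lt_prime (by omega) (by omega) hl)
    (fun p hp => by rw [hl.primeFactors, Finset.mem_singleton] at hp; rw [hp]; exact h3) h4
  obtain ⟨k, rfl⟩ : (2 : ℤ) ^ (v + (b.primeFactors.card - 1)) ∣ k := by
    rcases hk with rfl | hk
    · exact dvd_zero _
    refine BSD15.ind_sq ?_
    rw [hk, dvd_abs, h5, show 2 * (v + (b.primeFactors.card - 1)) =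
      v + (2 * (b.primeFactors.card - 1) + v) by ring, pow_add]
    exact mul_dvd_mul (dvd_mul_right _ _) h6
  have c1 := Finset.card_pos.2 (Nat.nonempty_primeFactors.2 ha1)
  have c2 := Finset.card_pos.2 (Nat.nonempty_primeFactors.2 hb)
  have k1 := ((ind_prime hl h' ih).pow (b.primeFactors.card - 1)).zsmul k
  rw [show b.primeFactors.card - 1 + (a.primeFactors.card - 1) =
    a.primeFactors.card + b.primeFactors.card - 2 by omega] at k1
  have := h.good
  refine TB.of_odd hu ?_ (k1.of_tors (ind_of_zsmul (m := 2 ^ v) (by positivity) ?_))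
  · rw [PY_eq rfl]
    exact inC_PJ h.hd (Nat.primeFactors_mono (dvd_mul_right a b) (by positivity))
  · convert ht using 1
    rw [h5, pow_add]
    module

theorem ind_plus {a b : ℕ} {ρ : ℤ} (h : HF a b ρ) (hb : 1 < b) (h4 : b % 4 = 1) (h3 : b % 3 = 1)
    (h5 : b % 5 = 1 ∨ b % 5 = 4)
    (ih : ∀ a' : ℕ, a'.primeFactors.card < a.primeFactors.card → IndC a') :
    TB (a.primeFactors.card + b.primeFactors.card - 2) (PY a b ρ) := by
  obtain ⟨-, -, ha1, ha, hb', -⟩ := h.jac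
  have hB : B1 a := by
    obtain ⟨m3, m5⟩ := h.hd.emod
    have m4 := h.good.h4
    rw [Nat.mul_mod] at m3 m4 m5
    rw [h4] at m4
    rw [h3] at m3
    refine ⟨ha.1, by omega, by omega, ?_⟩
    rcases h5 with h5 | h5 <;> rw [h5] at m5 <;> omega
  obtain ⟨ρ₁, h1⟩ := hB.exists_HF
  obtain ⟨k, hk, ht⟩ := rel2 h h1 hb
  obtain ⟨k, rfl⟩ : (2 : ℤ) ^ (b.primeFactors.card + 1) ∣ k := by
    refine BSD15.ind_sq ?_
    rw [hk, show 2 * (b.primeFactors.card + 1) = 2 + 2 * b.primeFactors.card by ring, pow_add]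
    exact mul_dvd_mul (by norm_num) ((dvd_abs _ _).2 ((BSD15.indG_lam hb' hb).1 h4))
  have : Good a := mul_one a ▸ h1.good
  have hd : HD a ρ₁ := mul_one a ▸ h1.hd
  have e : PY a 1 ρ₁ = PJ a ρ₁ ∅ := by
    rw [PY_eq (mul_one a).symm, ← PJ_compl ρ₁ (Finset.empty_subset _), Finset.sdiff_empty]
  have c1 := Finset.card_pos.2 (Nat.nonempty_primeFactors.2 ha1)
  have c2 := Finset.card_pos.2 (Nat.nonempty_primeFactors.2 hb)
  have k1 := (ind_all hd ih).pow (b.primeFactors.card - 1)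
  have k2 := TB.of_inB (inC_ZG hd 1).four (b.primeFactors.card - 1 + (a.primeFactors.card - 1))
  rw [show a.primeFactors.card + b.primeFactors.card - 2 =
    b.primeFactors.card - 1 + (a.primeFactors.card - 1) by omega]
  refine ((k2.sub (k1.zsmul 2)).zsmul k).of_tors ?_
  convert ht using 2
  obtain ⟨s, hs⟩ : ∃ t, a.primeFactors.card = t + 1 := ⟨_, (Nat.sub_add_cancel c1).symm⟩
  obtain ⟨t, ht⟩ : ∃ t, b.primeFactors.card = t + 1 := ⟨_, (Nat.sub_add_cancel c2).symm⟩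
  simp only [e, hs, ht, Nat.add_sub_cancel, pow_add]
  module

theorem indC_all (a : ℕ) : IndC a := by
  induction hk : a.primeFactors.card using Nat.strong_induction_on generalizing a with
  | _ k ih0 =>
  have ih : ∀ a' : ℕ, a'.primeFactors.card < a.primeFactors.card → IndC a' :=
    fun a' h => ih0 _ (hk ▸ h) a' rfl
  intro b ρ hb h
  obtain ⟨hj, -, ha1, -, hb', -⟩ := h.jac
  obtain ⟨l, hl, h1, h2, h8, h3, h4⟩ := exists_aux_prime (haveI := h.good; h.hd.adm) ha1 h.good.h4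
  have c2 := Finset.card_pos.2 (Nat.nonempty_primeFactors.2 hb)
  have hb2 := (BSD15.ind_mod hb').1
  have hG := BSD15.indG_lam hb' hb
  rcases BSD15.ind_jac hb' with hs | ⟨-, ⟨m3, m5⟩ | ⟨m3, m5⟩⟩
  · omega
  · by_cases m4 : b % 4 = 1
    · exact ind_plus h hb m4 m3 m5 ih
    · obtain ⟨v, hv, e⟩ := lam_B3_prime hl ⟨hl.squarefree, by omega, by omega, by omega⟩
      have h6 := lam_B3 (b := b) ⟨hb'.1, by omega, m3, m5⟩
      rw [show 2 * b.primeFactors.card + 1 = 2 * (b.primeFactors.card - 1) + 3 by omega] at h6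
      rcases abs_cases (lam l) with ⟨h7, -⟩ | ⟨h7, -⟩
      · exact ind_move h hb hl h1 h2 h3 h4 (hv.pow (n := 2)) (by rw [← h7, e]; norm_num) h6 ih
      · exact ind_move h hb hl h1 h2 h3 h4 (hv.pow (n := 2)).neg
          (by linear_combination h7 - e) h6 ih
  · by_cases m4 : b % 4 = 1
    · have e := lam_mod hl (h8 m4) (by omega) (by omega)
      refine ind_move (v := 2) (u := lam l / 4) h hb hl h1 h2 h3 h4
        (Int.odd_iff.2 (by omega)) (by omega) ?_ ih
      rw [show 2 * (b.primeFactors.card - 1) + 2 = 2 * b.primeFactors.card by omega]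
      exact hG.1 m4
    · obtain ⟨v, hv, e⟩ := BSD15.lam_sharp (n := l) ⟨hl.squarefree, by omega, by omega, by omega⟩
        (BSD15.no4_prime hl)
      refine ind_move (v := 1) h hb hl h1 h2 h3 h4 (hv.pow (n := 2))
        (by rw [e, hl.primeFactors]; simp) ?_ ih
      rw [show 2 * (b.primeFactors.card - 1) + 1 = 2 * b.primeFactors.card - 1 by omega]
      exact hG.2 (by omega)

theorem heegner_not_tors {n : ℕ} [Good n] {ρ : ℤ} (hd : HD n ρ) (h4 : No4 n) :
    ¬ IsOfFinAddOrder (PJ n ρ ∅) := fun h => by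
  obtain ⟨R, h1, h2⟩ := ind_all hd fun a _ => indC_all a
  have c1 := Finset.card_pos.2
    (Nat.nonempty_primeFactors.2 (show 1 < n by have := (inferInstance : Good n).gt; omega))
  obtain ⟨s, hs⟩ : ∃ t, n.primeFactors.card = t + 1 := ⟨_, (Nat.sub_add_cancel c1).symm⟩
  refine not_tors hd h4 h1 (ind_of_zsmul (m := 2 ^ s) (by positivity) ?_)
  convert h2.add (h.zsmul (i := 2)) using 1
  · rfl
  simp only [hs, Nat.add_sub_cancel, pow_add]
  module

end Pool.Agent.P.MP_8b7eba_nt.R1
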