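import Pool.Agent.P.MP_8b7eba_nt.R1.Aut

/-! Rational points on the twist. -/

namespace Pool.Agent.P.MP_8b7eba_nt.R1

open Complex Filter Topology MeasureTheory Metric Finset Asymptotics PowerSeries
open scoped Real UpperHalfPlane MatrixGroups ComplexConjugate
open _root_.Pool.Agent.P.MP_8b7eba_nt.Mod (M2 G0 FI L0 om lv xx yy qq UH atI ex mT)
open BSD15 (OO Good cls gch gJ nm cj rho lam Adm B3 B5 No4 Xp XJ Rn)
open MP_9c97e9_nt (Pt pm Is)

theorem Rat_coord {n : ℕ} (hn : 0 < n) {P : EC} (h0 : P ≠ 0)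
    (h1 : ∀ σ : Aut, σ (I * √n) = I * √n → act σ P = P)
    (h2 : ∀ σ : Aut, σ (I * √n) = -(I * √n) → act σ P = -P) :
    ∃ X r : ℚ, Is P X (r * (I * √n)) := by
  obtain ⟨x, η, h⟩ := (MP_9c97e9_nt.zero_or_is P).resolve_left h0
  have hd := sqrt_neg_sq n
  have hn0 : (n : ℂ) ≠ 0 := by exact_mod_cast hn.ne'
  have hd0 : (I * √n : ℂ) ≠ 0 := fun e => by
    rw [e] at hd
    exact hn0 (by linear_combination hd)
  have key : ∀ σ : Aut, σ x = x ∧ σ (η / (I * √n)) = η / (I * √n) := fun σ => by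
    have hs : σ (I * √n) = I * √n ∨ σ (I * √n) = -(I * √n) :=
      sq_eq_sq_iff_eq_or_eq_neg.1 (by rw [← map_pow, hd, map_neg, map_natCast])
    have ha := is_act σ h
    rcases hs with hs | hs
    · rw [h1 σ hs] at ha
      obtain ⟨e1, e2⟩ := ha.inj h
      exact ⟨e1, by rw [map_div₀, e2, hs]⟩
    · rw [h2 σ hs] at ha
      obtain ⟨e1, e2⟩ := ha.inj h.neg
      exact ⟨e1, by rw [map_div₀, e2, hs, neg_div_neg_eq]⟩
  obtain ⟨X, hX⟩ := fixed_rat fun σ => (key σ).1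
  obtain ⟨r, hr⟩ := fixed_rat fun σ => (key σ).2
  refine ⟨X, r, ?_⟩
  rw [← hX, ← hr, div_mul_cancel₀ _ hd0]
  exact h

theorem infinite_of_point {n : ℕ} (hn : 0 < n) {Z : EC} (h0 : ¬ IsOfFinAddOrder Z)
    (h1 : ∀ σ : Aut, σ (I * √n) = I * √n → act σ Z = Z)
    (h2 : ∀ σ : Aut, σ (I * √n) = -(I * √n) → act σ Z = -Z) :
    {q : ℚ × ℚ | q.2 ^ 2 = q.1 ^ 3 + ((-12987 * (n : ℤ) ^ 2 : ℤ) : ℚ) * q.1 +
      ((263466 * (n : ℤ) ^ 3 : ℤ) : ℚ)}.Infinite := by
  have hinj := injective_nsmul_iff_not_isOfFinAddOrder.2 h0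
  have hk : ∀ k : ℕ, ∃ X r : ℚ, Is ((k + 1) • Z) X (r * (I * √n)) := fun k => by
    refine Rat_coord hn (fun e => ?_) (fun σ hσ => ?_) (fun σ hσ => ?_)
    · have : (fun m : ℕ => m • Z) (k + 1) = (fun m : ℕ => m • Z) 0 := by
        simpa only [zero_smul] using e
      exact Nat.succ_ne_zero k (hinj this)
    · rw [map_nsmul, h1 σ hσ]
    · rw [map_nsmul, h2 σ hσ, neg_nsmul]
  choose X r hXr using hk
  have hn0 : (n : ℚ) ≠ 0 := by exact_mod_cast hn.ne'
  refine Set.infinite_of_injective_forall_mem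
    (f := fun k : ℕ => (-n * (9 * X k - 21), 27 * n ^ 2 * r k / 2)) (fun k l e => ?_) fun k => ?_
  · simp only [Prod.mk.injEq] at e
    have e1 : X k = X l := by
      have := mul_left_cancel₀ (neg_ne_zero.2 hn0) e.1
      linarith
    have e2 : r k = r l := by
      have h3 : (27 * (n : ℚ) ^ 2) * r k = (27 * (n : ℚ) ^ 2) * r l := by linarith [e.2]
      exact mul_left_cancel₀ (by positivity) h3
    have h4 := hXr k
    rw [e1, e2] at h4
    exact Nat.succ_injective (hinj (h4.unique split15 (hXr l)))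
  · have h3 := (hXr k).eq split15
    rw [mul_pow, sqrt_neg_sq] at h3
    have h4 : r k ^ 2 * -(n : ℚ) = 4 * ((X k - 0) * (X k - -9) * (X k - 16)) := by
      exact_mod_cast h3
    simp only [Set.mem_ofPred_eq]
    push_cast
    linear_combination (-(729 : ℚ) / 4 * n ^ 3) * h4

end Pool.Agent.P.MP_8b7eba_nt.R1
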