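import Pool.Agent.P.MP_8b7eba_nt.R1.Ind
import Pool.Agent.P.MP_8b7eba_nt.R1.Rat

/-! The main theorem on the twists of positive rank. -/

namespace Pool.Agent.P.MP_8b7eba_nt.R1

open BSD15 (Good lam Adm No4 IsL)

theorem B1.adm {n : ℕ} (h : B1 n) : Adm n :=
  BSD15.ind_b5_adm h.1 h.2.1 (by have := h.2.2.1; omega) (by have := h.2.2.2; omega)

theorem isL_zero {n : ℕ} (h : B1 n) {f : ℂ → ℂ}
    (hf : IsL (-12987 * (n : ℤ) ^ 2) (263466 * (n : ℤ) ^ 3) f) : f 1 = 0 := by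
  obtain ⟨ρ, h1⟩ := h.exists_HF
  have h4 := h.2.1
  obtain ⟨τ, hτ, L, h2, h3, h5⟩ := Mod.exists_L_chi h.adm
  rw [BSD15.euler_sum (by omega) h.adm, BSD15.lam_vanish (by omega) h.adm h1.sign, Int.cast_zero,
    zero_mul] at h5
  have h6 := Mod.isL_twist (D := -n) (by omega) h2 (by simpa using h3)
  rw [neg_sq, show -263466 * (-n : ℤ) ^ 3 = 263466 * n ^ 3 by ring] at h6
  rw [Mod.isL_unique hf h6]
  exact mul_eq_zero_of_left ((mul_eq_zero.1 h5).resolve_left hτ) _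

theorem infinite_points {n : ℕ} (h : B1 n) (h4 : No4 n) :
    {q : ℚ × ℚ | q.2 ^ 2 = q.1 ^ 3 + ((-12987 * (n : ℤ) ^ 2 : ℤ) : ℚ) * q.1 +
      ((263466 * (n : ℤ) ^ 3 : ℤ) : ℚ)}.Infinite := by
  obtain ⟨ρ, h1⟩ := h.exists_HF
  have : Good n := mul_one n ▸ h1.good
  have hd : HD n ρ := mul_one n ▸ h1.hd
  refine infinite_of_point (Z := (4 : ℤ) • PJ n ρ ∅) (by have := this.gt; omega)
    (fun h' => heegner_not_tors hd h4 (ind_of_zsmul (by norm_num) h'))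
    (fun σ hσ => by rw [map_zsmul, (PJ_anti hd σ).1 hσ]) fun σ => (PJ_anti hd σ).2

theorem main {n : ℕ} (h : B1 n) (h4 : No4 n) :
    4 * (-12987 * (n : ℤ) ^ 2) ^ 3 + 27 * (263466 * (n : ℤ) ^ 3) ^ 2 ≠ 0 ∧
    (∃ f : ℂ → ℂ, IsL (-12987 * (n : ℤ) ^ 2) (263466 * (n : ℤ) ^ 3) f) ∧
    (∀ f : ℂ → ℂ, IsL (-12987 * (n : ℤ) ^ 2) (263466 * (n : ℤ) ^ 3) f → f 1 = 0) ∧
    {q : ℚ × ℚ | q.2 ^ 2 = q.1 ^ 3 + ((-12987 * (n : ℤ) ^ 2 : ℤ) : ℚ) * q.1 +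
      ((263466 * (n : ℤ) ^ 3 : ℤ) : ℚ)}.Infinite := by
  have h1 := h.2.1
  have h0 : (n : ℤ) ≠ 0 := by omega
  refine ⟨?_, ?_, fun f => isL_zero h, infinite_points h h4⟩
  · rw [show 4 * (-12987 * (n : ℤ) ^ 2) ^ 3 + 27 * (263466 * (n : ℤ) ^ 3) ^ 2 =
      -6887475360000 * n ^ 6 by ring]
    exact mul_ne_zero (by norm_num) (pow_ne_zero _ h0)
  · obtain ⟨τ, hτ, L, h2, h3, h5⟩ := Mod.exists_L_chi h.adm
    have h6 := Mod.isL_twist (D := -n) (by omega) h2 (by simpa using h3)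
    rw [neg_sq, show -263466 * (-n : ℤ) ^ 3 = 263466 * n ^ 3 by ring] at h6
    exact ⟨_, h6⟩

end Pool.Agent.P.MP_8b7eba_nt.R1
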