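import Pool.Agent.P.MP_8b7eba_nt.R1.Basic

/-! Uniqueness for analytic differential equations. -/

namespace Pool.Agent.P.MP_8b7eba_nt.R1

open Complex Filter Topology MeasureTheory Metric Finset Asymptotics PowerSeries
open scoped Real UpperHalfPlane MatrixGroups ComplexConjugate
open _root_.Pool.Agent.P.MP_8b7eba_nt.Mod (M2 G0 FI L0 om lv xx yy qq UH atI ex mT)
open BSD15 (OO Good cls gch gJ nm cj rho lam Adm B3 B5 No4 Xp XJ Rn)
open MP_9c97e9_nt (Pt pm Is)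

theorem ode_unique {E : Type} [NormedAddCommGroup E] [NormedSpace ℂ E] [CompleteSpace E]
    {f g : ℂ → E} {φ : ℂ → ℂ} {V : E → E} {q₀ : ℂ} (hf : AnalyticAt ℂ f q₀)
    (hg : AnalyticAt ℂ g q₀) (hφ : ContinuousAt φ q₀) (hV : ContDiffAt ℂ 1 V (f q₀))
    (h0 : f q₀ = g q₀) (hf' : ∀ᶠ q in 𝓝[≠] q₀, deriv f q = φ q • V (f q))
    (hg' : ∀ᶠ q in 𝓝[≠] q₀, deriv g q = φ q • V (g q)) : f =ᶠ[𝓝 q₀] g := by
  by_contra hne
  have hh : AnalyticAt ℂ (fun q => f q - g q) q₀ := hf.sub hg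
  have hne' : ¬∀ᶠ q in 𝓝 q₀, f q - g q = 0 := fun h => hne (h.mono fun q hq => sub_eq_zero.1 hq)
  obtain ⟨k, u, hu, hu0, he⟩ := hh.exists_eventuallyEq_pow_smul_nonzero_iff.2 hne'
  obtain ⟨k, rfl⟩ : ∃ j, k = j + 1 := by
    refine Nat.exists_eq_succ_of_ne_zero ?_
    rintro rfl
    have := he.self_of_nhds
    rw [h0, sub_self, pow_zero, one_smul] at this
    exact hu0 this.symm
  obtain ⟨K, T, hT, hK⟩ := hV.exists_lipschitzOnWith
  have m1 : ∀ᶠ q in 𝓝 q₀, f q ∈ T := hf.continuousAt hT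
  have m2 : ∀ᶠ q in 𝓝 q₀, g q ∈ T := hg.continuousAt (h0 ▸ hT)
  have key : ∀ᶠ q in 𝓝[≠] q₀, ‖((k : ℂ) + 1) • u q + (q - q₀) • deriv u q‖ ≤
      ‖φ q‖ * (K * (‖q - q₀‖ * ‖u q‖)) := by
    filter_upwards [hf', hg', self_mem_nhdsWithin, nhdsWithin_le_nhds m1, nhdsWithin_le_nhds m2,
      nhdsWithin_le_nhds he.eventually_nhds, nhdsWithin_le_nhds hf.eventually_analyticAt,
      nhdsWithin_le_nhds hg.eventually_analyticAt, nhdsWithin_le_nhds hu.eventually_analyticAt]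
      with q e1 e2 hq n1 n2 e3 a1 a2 a3
    have hq' : 0 < ‖q - q₀‖ ^ k := pow_pos (norm_pos_iff.2 (sub_ne_zero.2 hq)) k
    have d1 : HasDerivAt (fun z => f z - g z) (φ q • V (f q) - φ q • V (g q)) q := by
      rw [← e1, ← e2]
      exact a1.differentiableAt.hasDerivAt.sub a2.differentiableAt.hasDerivAt
    have d0 : HasDerivAt (fun z : ℂ => (z - q₀) ^ (k + 1)) (((k : ℂ) + 1) * (q - q₀) ^ k) q := by
      simpa using ((hasDerivAt_id' q).sub_const q₀).fun_pow (k + 1)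
    have d2 := (d0.fun_smul a3.differentiableAt.hasDerivAt).congr_of_eventuallyEq e3
    have e4 := d1.unique d2
    have e5 : (q - q₀) ^ k • (((k : ℂ) + 1) • u q + (q - q₀) • deriv u q) =
        φ q • (V (f q) - V (g q)) := by
      rw [smul_sub, e4, smul_add, smul_smul, smul_smul, pow_succ, add_comm, mul_comm ((k : ℂ) + 1)]
    have e6 := congrArg norm e5
    rw [norm_smul, norm_smul, norm_pow] at e6
    have e7 := hK.norm_sub_le n1 n2
    rw [e3.self_of_nhds, norm_smul, norm_pow, pow_succ] at e7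
    refine le_of_mul_le_mul_left ?_ hq'
    rw [e6]
    calc _ ≤ ‖φ q‖ * (K * (‖q - q₀‖ ^ k * ‖q - q₀‖ * ‖u q‖)) :=
          mul_le_mul_of_nonneg_left e7 (norm_nonneg _)
      _ = _ := by ring
  have c1 : ContinuousAt (fun q => ‖((k : ℂ) + 1) • u q + (q - q₀) • deriv u q‖) q₀ :=
    ((hu.continuousAt.const_smul _).add
      ((continuousAt_id.sub continuousAt_const).smul hu.deriv.continuousAt)).norm
  have c2 : ContinuousAt (fun q => ‖φ q‖ * (K * (‖q - q₀‖ * ‖u q‖))) q₀ :=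
    hφ.norm.mul (continuousAt_const.mul
      ((continuousAt_id.sub continuousAt_const).norm.mul hu.continuousAt.norm))
  have h1 := le_of_tendsto_of_tendsto (c1.tendsto.mono_left nhdsWithin_le_nhds)
    (c2.tendsto.mono_left nhdsWithin_le_nhds) key
  simp only [sub_self, zero_smul, add_zero, norm_zero, zero_mul, mul_zero, norm_le_zero_iff,
    smul_eq_zero] at h1
  exact h1.elim (Nat.cast_add_one_ne_zero k) hu0

/-- the vector field of the Weierstrass equation in the chart at infinity -/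
noncomputable def odeV (g₂ g₃ : ℂ) (p : ℂ × ℂ) : ℂ × ℂ :=
  (1 + g₂ / 2 * (p.1 * p.2) + 3 * g₃ / 4 * p.2 ^ 2, 3 * p.1 ^ 2 - g₂ / 4 * p.2 ^ 2)

theorem ode_chart {a φ : ℂ → ℂ} {g₂ g₃ : ℂ} (ha : AnalyticAt ℂ a 0) (hφ : AnalyticAt ℂ φ 0)
    (ha0 : a 0 = 1) (hφ0 : φ 0 = 1)
    (hA : ∀ᶠ q in 𝓝[≠] (0 : ℂ), deriv (fun q => a q / q ^ 2) q ^ 2 =
      φ q ^ 2 * (4 * (a q / q ^ 2) ^ 3 - g₂ * (a q / q ^ 2) - g₃)) :
    ∃ F : ℂ → ℂ × ℂ, AnalyticAt ℂ F 0 ∧ F 0 = 0 ∧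
      (∀ᶠ q in 𝓝[≠] (0 : ℂ), deriv F q = φ q • odeV g₂ g₃ (F q)) ∧
      ∀ᶠ q in 𝓝[≠] (0 : ℂ), (F q).2 ≠ 0 ∧ a q * (F q).2 = q ^ 2 * (F q).1 := by
  set c : ℂ → ℂ := fun q => (q * deriv a q - 2 * a q) / φ q with hc
  have hca : AnalyticAt ℂ c 0 :=
    ((analyticAt_id.mul ha.deriv).sub (analyticAt_const.mul ha)).div hφ (by simp [hφ0])
  have hc0 : c 0 ≠ 0 := by simp [hc, ha0, hφ0]
  have n1 : ∀ᶠ q in 𝓝 (0 : ℂ), c q ≠ 0 := hca.continuousAt.eventually_ne hc0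
  have n2 : ∀ᶠ q in 𝓝 (0 : ℂ), φ q ≠ 0 := hφ.continuousAt.eventually_ne (by simp [hφ0])
  have dX : ∀ᶠ q in 𝓝[≠] (0 : ℂ), HasDerivAt (fun q => a q / q ^ 2) (φ q * (c q / q ^ 3)) q := by
    filter_upwards [self_mem_nhdsWithin, nhdsWithin_le_nhds n2,
      nhdsWithin_le_nhds ha.eventually_analyticAt] with q hq h2 h3
    have hq' : q ≠ 0 := hq
    have := h3.differentiableAt.hasDerivAt.fun_div (hasDerivAt_pow 2 q) (pow_ne_zero 2 hq')
    refine this.congr_deriv ?_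
    simp only [hc]
    field_simp
    norm_num
    ring
  have hY : ∀ᶠ q in 𝓝[≠] (0 : ℂ),
      (c q / q ^ 3) ^ 2 = 4 * (a q / q ^ 2) ^ 3 - g₂ * (a q / q ^ 2) - g₃ := by
    filter_upwards [hA, dX, nhdsWithin_le_nhds n2] with q h1 h2 h3
    rw [h2.deriv, mul_pow] at h1
    exact mul_left_cancel₀ (pow_ne_zero 2 h3) h1
  refine ⟨fun q => (-2 * q * a q / c q, -2 * q ^ 3 / c q),
    (((analyticAt_const.mul analyticAt_id).mul ha).div hca hc0).prod
      ((analyticAt_const.mul (analyticAt_id.pow 3)).div hca hc0), by simp, ?_, ?_⟩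
  · filter_upwards [eventually_eventually_nhdsWithin.2 hY, dX, self_mem_nhdsWithin,
      nhdsWithin_le_nhds n1, nhdsWithin_le_nhds hca.eventually_analyticAt] with q h1 h2 hq h3 h4
    have hq' : q ≠ 0 := hq
    rw [isOpen_compl_singleton.nhdsWithin_eq hq] at h1
    have hn : ∀ᶠ z in 𝓝 q, z ≠ 0 := isOpen_compl_singleton.mem_nhds hq
    have dY : HasDerivAt (fun q => c q / q ^ 3) (deriv (fun q => c q / q ^ 3) q) q :=
      (h4.differentiableAt.fun_div (differentiableAt_pow 3) (pow_ne_zero 3 hq')).hasDerivAt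
    have hy : c q / q ^ 3 ≠ 0 := div_ne_zero h3 (pow_ne_zero 3 hq')
    have e0 := h1.self_of_nhds
    have e1 := ((dY.fun_pow 2).congr_of_eventuallyEq (EventuallyEq.symm h1)).unique
      ((((h2.fun_pow 3).const_mul 4).fun_sub (h2.const_mul g₂)).sub_const g₃)
    have t1 : ∀ z : ℂ, z ≠ 0 → -2 * z * a z / c z = -2 * (a z / z ^ 2) / (c z / z ^ 3) := by
      intro z hz
      by_cases h : c z = 0
      · simp [h]
      · field_simp
    have t2 : ∀ z : ℂ, -2 * z ^ 3 / c z = -2 / (c z / z ^ 3) := by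
      intro z
      exact (div_div_eq_mul_div _ _ _).symm
    have d1 := ((h2.const_mul (-2)).fun_div dY hy).congr_of_eventuallyEq (hn.mono t1)
    have d2 := ((hasDerivAt_const q (-2 : ℂ)).fun_div dY hy).congr_of_eventuallyEq
      (Eventually.of_forall t2)
    rw [(d1.prodMk d2).deriv, t1 q hq', t2 q]
    generalize deriv (fun q => c q / q ^ 3) q = w at e1
    generalize c q / q ^ 3 = y at e0 e1 hy
    generalize a q / q ^ 2 = x at e0 e1
    have e2 : w = φ q * (6 * x ^ 2 - g₂ / 2) := by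
      apply mul_left_cancel₀ hy
      norm_num at e1
      linear_combination (1 / 2) * e1
    rw [e2]
    refine Prod.ext ?_ ?_
    · simp only [odeV, Prod.smul_mk, smul_eq_mul]
      field_simp
      linear_combination (-12 * φ q) * e0
    · simp only [odeV, Prod.smul_mk, smul_eq_mul]
      field_simp
      ring
  · filter_upwards [self_mem_nhdsWithin, nhdsWithin_le_nhds n1] with q hq h1
    have hq' : q ≠ 0 := hq
    exact ⟨div_ne_zero (mul_ne_zero (by norm_num) (pow_ne_zero 3 hq')) h1, by ring⟩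

theorem pole_unique {a b φ : ℂ → ℂ} {g₂ g₃ : ℂ} (ha : AnalyticAt ℂ a 0) (hb : AnalyticAt ℂ b 0)
    (hφ : AnalyticAt ℂ φ 0) (ha0 : a 0 = 1) (hb0 : b 0 = 1) (hφ0 : φ 0 = 1)
    (hA : ∀ᶠ q in 𝓝[≠] (0 : ℂ), deriv (fun q => a q / q ^ 2) q ^ 2 =
      φ q ^ 2 * (4 * (a q / q ^ 2) ^ 3 - g₂ * (a q / q ^ 2) - g₃))
    (hB : ∀ᶠ q in 𝓝[≠] (0 : ℂ), deriv (fun q => b q / q ^ 2) q ^ 2 =
      φ q ^ 2 * (4 * (b q / q ^ 2) ^ 3 - g₂ * (b q / q ^ 2) - g₃)) : a =ᶠ[𝓝 0] b := by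
  obtain ⟨F, hF, hF0, hF1, hF2⟩ := ode_chart ha hφ ha0 hφ0 hA
  obtain ⟨G, hG, hG0, hG1, hG2⟩ := ode_chart hb hφ hb0 hφ0 hB
  have hV : ContDiffAt ℂ 1 (odeV g₂ g₃) (F 0) := by
    unfold odeV
    fun_prop
  have h := ode_unique hF hG hφ.continuousAt hV (hF0.trans hG0.symm) hF1 hG1
  have h1 : ∀ᶠ q in 𝓝[≠] (0 : ℂ), a q = b q := by
    filter_upwards [hF2, hG2, nhdsWithin_le_nhds h] with q e1 e2 e3
    have e4 : F q = G q := e3
    rw [← e4] at e2
    exact mul_right_cancel₀ e1.1 (e1.2.trans e2.2.symm)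
  filter_upwards [eventually_nhdsWithin_iff.1 h1] with q hq
  by_cases h2 : q = 0
  · rw [h2, ha0, hb0]
  · exact hq h2

end Pool.Agent.P.MP_8b7eba_nt.R1
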