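import Pool.Agent.P.MP_8b7eba_nt.R1.Geo
import Pool.Agent.P.MP_8b7eba_nt.R1.AvK

/-! The mean value property for one geodesic. -/

namespace Pool.Agent.P.MP_8b7eba_nt.R1

open Complex Filter Topology MeasureTheory Metric Finset Asymptotics PowerSeries
open scoped Real UpperHalfPlane MatrixGroups ComplexConjugate
open _root_.Pool.Agent.P.MP_8b7eba_nt.Mod (M2 G0 FI L0 om lv xx yy qq UH atI ex mT)
open BSD15 (OO Good cls gch gJ nm cj rho lam Adm B3 B5 No4 Xp XJ Rn)
open MP_9c97e9_nt (Pt pm Is)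

/-- a real matrix of determinant one -/
def oneM (a b c d : ℝ) (h : a * d - b * c = 1) : SL(2, ℝ) :=
  ⟨!![a, b; c, d], by rw [Matrix.det_fin_two_of]; exact h⟩

theorem one_den_pos {a b c d : ℝ} (h : a * d - b * c = 1) (w : ℍ) :
    0 < (c * w.re + d) ^ 2 + (c * w.im) ^ 2 := by
  have hy := w.im_pos
  by_cases hc : c = 0
  · have hd : d ≠ 0 := by rintro rfl; simp [hc] at h
    simp only [hc, zero_mul, zero_add]; positivity
  · positivity

theorem one_smul_re {a b c d : ℝ} (h : a * d - b * c = 1) (w : ℍ) :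
    (oneM a b c d h • w).re = (a * c * (w.re ^ 2 + w.im ^ 2) + (a * d + b * c) * w.re + b * d) /
      ((c * w.re + d) ^ 2 + (c * w.im) ^ 2) := by
  rw [← UpperHalfPlane.coe_re, UpperHalfPlane.coe_specialLinearGroup_apply, div_re]
  simp only [oneM, normSq_apply]
  simp
  rw [← sq, ← sq, ← add_div]
  congr 1
  ring

theorem one_smul_im {a b c d : ℝ} (h : a * d - b * c = 1) (w : ℍ) :
    (oneM a b c d h • w).im = w.im / ((c * w.re + d) ^ 2 + (c * w.im) ^ 2) := by
  rw [← UpperHalfPlane.coe_im, UpperHalfPlane.coe_specialLinearGroup_apply, div_im]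
  simp only [oneM, normSq_apply]
  simp
  rw [← sq, ← sq, ← sub_div]
  congr 1
  linear_combination w.im * h

theorem one_ratio {a b c d : ℝ} (h : a * d - b * c = 1) (w : ℍ) :
    (oneM a b c d h • w).re / (oneM a b c d h • w).im =
      (a * c * (w.re ^ 2 + w.im ^ 2) + (a * d + b * c) * w.re + b * d) / w.im := by
  have h0 := (one_den_pos h w).ne'
  rw [one_smul_re, one_smul_im, div_div_div_cancel_right₀ h0]

theorem one_exists {A B C : ℝ} (h : B ^ 2 - 4 * A * C = 1) : ∃ g : SL(2, ℝ), ∀ w : ℍ,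
    (g • w).re / (g • w).im = (A * (w.re ^ 2 + w.im ^ 2) + B * w.re + C) / w.im := by
  by_cases hA : A = 0
  · subst hA
    have : (B - 1) * (B + 1) = 0 := by linear_combination h
    rcases mul_eq_zero.1 this with h1 | h1
    · obtain rfl : B = 1 := by linarith
      refine ⟨oneM 1 C 0 1 (by ring), fun w => ?_⟩
      rw [one_ratio]; congr 1; ring
    · obtain rfl : B = -1 := by linarith
      refine ⟨oneM 0 (-1) 1 (-C) (by ring), fun w => ?_⟩
      rw [one_ratio]; congr 1; ring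
  · refine ⟨oneM 1 ((B - 1) / (2 * A)) A ((B + 1) / 2) (by field_simp; ring), fun w => ?_⟩
    rw [one_ratio]; congr 1
    field_simp
    linear_combination h

theorem one_tt {Q : QF} (hD : 0 < Q.disc) (e : ℝ) (he : e ^ 2 = 1) : ∃ g : SL(2, ℝ), ∀ w : ℍ,
    (g • w).re / (g • w).im = e * Q.tt w := by
  have h1 : (0 : ℝ) < Q.disc := by exact_mod_cast hD
  have h2 := Real.sqrt_pos.2 h1
  have h3 := Real.sq_sqrt h1.le
  have h4 : (Q.disc : ℝ) = Q.B ^ 2 - 4 * Q.A * Q.C := by simp [QF.disc]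
  obtain ⟨g, hg⟩ := one_exists (A := e * Q.A / √Q.disc) (B := e * Q.B / √Q.disc)
    (C := e * Q.C / √Q.disc) (by
      field_simp
      linear_combination (Q.B ^ 2 - 4 * Q.A * Q.C : ℝ) * he - h3 - h4)
  refine ⟨g, fun w => ?_⟩
  have hy := w.im_pos.ne'
  rw [hg, QF.tt, normSq_apply, UpperHalfPlane.coe_re, UpperHalfPlane.coe_im]
  field_simp

/-- the Poisson-type kernel -/
noncomputable def oneF (s : ℝ) (w : ℍ) (u : ℝ) : ℝ :=
  u ^ (s - 1) * (w.im / ((w.re + u) ^ 2 + w.im ^ 2)) ^ s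

theorem oneF_eq (s : ℝ) (w : ℍ) (u : ℝ) :
    oneF s w u = u ^ (s - 1) * (oneM 0 (-1) 1 u (by ring) • w).im ^ s := by
  rw [one_smul_im, oneF, one_mul, one_mul]

theorem oneF_mul (s : ℝ) (w : ℍ) {v : ℝ} (hv : 0 < v) :
    oneF s w (w.im * v) = w.im⁻¹ * (v ^ (s - 1) * ((w.re / w.im + v) ^ 2 + 1) ^ (-s)) := by
  have hy := w.im_pos
  have hp : 0 < (w.re / w.im + v) ^ 2 + 1 := by positivity
  have e : w.im / ((w.re + w.im * v) ^ 2 + w.im ^ 2) =
      (w.im * ((w.re / w.im + v) ^ 2 + 1))⁻¹ := by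
    field_simp
  rw [oneF, e, Real.mul_rpow hy.le hv.le, Real.inv_rpow (by positivity),
    Real.mul_rpow hy.le hp.le, Real.rpow_neg hp.le, Real.rpow_sub hy, Real.rpow_one]
  have := (Real.rpow_pos_of_pos hy s).ne'
  have := (Real.rpow_pos_of_pos hp s).ne'
  field_simp

theorem oneF_int (s : ℝ) (w : ℍ) : ∫ u in Set.Ioi (0 : ℝ), oneF s w u = GG s (w.re / w.im) := by
  have hy := w.im_pos
  have h := integral_comp_mul_left_Ioi' (oneF s w) 0 hy
  rw [mul_zero] at h
  rw [← h, setIntegral_congr_fun measurableSet_Ioi fun v hv => oneF_mul s w hv,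
    integral_const_mul, smul_eq_mul, ← mul_assoc, mul_inv_cancel₀ hy.ne', one_mul, GG]

theorem oneF_integrable {s : ℝ} (hs : 1 ≤ s) (w : ℍ) : IntegrableOn (oneF s w) (Set.Ioi 0) := by
  have hy := w.im_pos
  have h := integrableOn_Ioi_comp_mul_left_iff (oneF s w) 0 hy
  rw [mul_zero] at h
  rw [← h]
  exact IntegrableOn.congr_fun ((GG_integrable hs (w.re / w.im)).const_mul w.im⁻¹)
    (fun v hv => (oneF_mul s w hv).symm) measurableSet_Ioi

theorem oneF_meas (s : ℝ) : Measurable (Function.uncurry (oneF s)) := by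
  have h1 : Measurable fun p : ℍ × ℝ => p.1.im :=
    UpperHalfPlane.continuous_im.measurable.comp measurable_fst
  have h2 : Measurable fun p : ℍ × ℝ => p.1.re :=
    UpperHalfPlane.continuous_re.measurable.comp measurable_fst
  exact (measurable_snd.pow_const _).mul
    ((h1.div (((h2.add measurable_snd).pow_const 2).add (h1.pow_const 2))).pow_const s)

theorem one_ratio_cont : Continuous fun w : ℍ => w.re / w.im :=
  UpperHalfPlane.continuous_re.div UpperHalfPlane.continuous_im fun w => w.im_pos.ne'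

theorem one_av_GG0 {s : ℝ} (hs : 1 ≤ s) (r : ℝ) (z : ℍ) :
    av r (fun w => GG s (w.re / w.im)) z = kk r s * GG s (z.re / z.im) := by
  have hi : Integrable (Function.uncurry (oneF s))
      ((volume.restrict (ball z r)).prod (volume.restrict (Set.Ioi (0 : ℝ)))) := by
    rw [integrable_prod_iff (oneF_meas s).aestronglyMeasurable]
    refine ⟨ae_of_all _ fun w => oneF_integrable hs w, ?_⟩
    have : (fun w : ℍ => ∫ u in Set.Ioi (0 : ℝ), ‖Function.uncurry (oneF s) (w, u)‖) =
        fun w : ℍ => GG s (w.re / w.im) := by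
      funext w
      rw [← oneF_int]
      refine setIntegral_congr_fun measurableSet_Ioi fun u hu => ?_
      have hu' : 0 < u := hu
      have hy := w.im_pos
      exact Real.norm_of_nonneg (by simp only [Function.uncurry, oneF]; positivity)
    rw [this]
    exact integrableOn_ball ((GG_cont hs).comp one_ratio_cont) z r
  have h1 : ∀ u : ℝ, (volume.real (ball z r))⁻¹ * ∫ w in ball z r, oneF s w u =
      kk r s * oneF s z u := fun u => by
    have h2 := av_mul (u ^ (s - 1)) (fun w => (oneM 0 (-1) 1 u (by ring) • w).im ^ s) r z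
    rw [av_im_rpow, av, setAverage_eq, smul_eq_mul] at h2
    simp only [oneF_eq]
    rw [h2]; ring
  rw [av, setAverage_eq, smul_eq_mul]
  simp only [← oneF_int]
  rw [integral_integral_swap hi, ← integral_const_mul, ← integral_const_mul]
  simp only [h1]

theorem one_av_GG {Q : QF} (hD : 0 < Q.disc) {s : ℝ} (hs : 1 ≤ s) (r : ℝ) (z : ℍ) (e : ℝ)
    (he : e ^ 2 = 1) : av r (fun w => GG s (e * Q.tt w)) z = kk r s * GG s (e * Q.tt z) := by
  obtain ⟨g, hg⟩ := one_tt hD e he
  simp only [← hg]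
  rw [av_smul g (fun w => GG s (w.re / w.im)), one_av_GG0 hs]

theorem av_gg {Q : QF} (hD : 0 < Q.disc) {r s : ℝ} (hr : 0 < r) (hs : 1 ≤ s) (z : ℍ) :
    av r (fun w => gg s (Q.tt w)) z = kk r s * gg s (Q.tt z) +
      av r (fun w => ee s (Q.tt w) * ((sn (Q.tt w) - sn (Q.tt z)) / 2)) z := by
  have h1 := one_av_GG hD hs r z 1 (by norm_num)
  have h2 := one_av_GG hD hs r z (-1) (by norm_num)
  simp only [one_mul, neg_mul] at h1 h2
  have i1 : IntegrableOn (fun w : ℍ => GG s (Q.tt w)) (ball z r) :=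
    integrableOn_ball ((GG_cont hs).comp (tt_cont Q)) z r
  have i2 : IntegrableOn (fun w : ℍ => GG s (-Q.tt w)) (ball z r) :=
    integrableOn_ball ((GG_cont hs).comp (tt_cont Q).neg) z r
  have i3 : IntegrableOn (fun w : ℍ => ee s (Q.tt w) * ((sn (Q.tt w) - sn (Q.tt z)) / 2))
      (ball z r) := by
    refine Integrable.mul_bdd (c := 1) (integrableOn_ball ((ee_cont hs).comp (tt_cont Q)) z r)
      (((sn_meas.comp (tt_cont Q).measurable).sub_const _).div_const 2).aestronglyMeasurable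
      (ae_of_all _ fun w => ?_)
    have := abs_le.1 (abs_sn_le (Q.tt w))
    have := abs_le.1 (abs_sn_le (Q.tt z))
    rw [Real.norm_eq_abs, abs_le]
    constructor <;> linarith
  have e : (fun w : ℍ => gg s (Q.tt w)) = fun w : ℍ =>
      ((1 + sn (Q.tt z)) / 2 * GG s (Q.tt w) + (sn (Q.tt z) - 1) / 2 * GG s (-Q.tt w)) +
        ee s (Q.tt w) * ((sn (Q.tt w) - sn (Q.tt z)) / 2) := by
    funext w
    rw [gg_eq, ee]; ring
  have i4 : IntegrableOn (fun w : ℍ => (1 + sn (Q.tt z)) / 2 * GG s (Q.tt w) +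
      (sn (Q.tt z) - 1) / 2 * GG s (-Q.tt w)) (ball z r) := (i1.const_mul _).add (i2.const_mul _)
  rw [e, av_add i4 i3,
    av_add (i1.const_mul _) (i2.const_mul _), av_mul, av_mul, h1, h2, gg_eq, ee]
  ring

end Pool.Agent.P.MP_8b7eba_nt.R1
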