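import Pool.Agent.P.MP_8b7eba_nt.R1.Basic

/-! Calculus of expansions at infinity. -/

namespace Pool.Agent.P.MP_8b7eba_nt.R1

open Complex Filter Topology MeasureTheory Metric Finset Asymptotics PowerSeries
open scoped Real UpperHalfPlane MatrixGroups ComplexConjugate
open _root_.Pool.Agent.P.MP_8b7eba_nt.Mod (M2 G0 FI L0 om lv xx yy qq UH atI ex mT)
open BSD15 (OO Good cls gch gJ nm cj rho lam Adm B3 B5 No4 Xp XJ Rn)
open MP_9c97e9_nt (Pt pm Is)

theorem QE_shift (A : Zb⟦X⟧) (k : ℕ) {q : ℂ} (hq : q ≠ 0) (s : ℂ) :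
    HasSum (fun n => ((coeff n (X ^ k * A) : Zb) : ℂ) * q ^ n) (s * q ^ k) ↔
      HasSum (fun n => ((coeff n A : Zb) : ℂ) * q ^ n) s := by
  rw [← (add_left_injective k).hasSum_iff,
    ← hasSum_mul_right_iff (a₁ := s) (pow_ne_zero k hq)]
  · refine iff_of_eq (congrArg (fun f => HasSum f (s * q ^ k)) (funext fun n => ?_))
    simp only [Function.comp_apply, coeff_X_pow_mul, pow_add, mul_assoc]
  · intro n hn
    rw [coeff_X_pow_mul', if_neg fun h => hn ⟨n - k, Nat.sub_add_cancel h⟩]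
    simp

theorem QE_expand {e : ℕ} (he : e ≠ 0) (A : Zb⟦X⟧) (q s : ℂ) :
    HasSum (fun n => ((coeff n (expand e he A) : Zb) : ℂ) * q ^ n) s ↔
      HasSum (fun n => ((coeff n A : Zb) : ℂ) * (q ^ e) ^ n) s := by
  rw [← (mul_right_injective₀ he).hasSum_iff]
  · refine iff_of_eq (congrArg (fun f => HasSum f s) (funext fun n => ?_))
    simp only [Function.comp_apply, coeff_expand_mul, pow_mul]
  · intro n hn
    rw [coeff_expand_of_not_dvd _ _ _ fun ⟨m, h⟩ => hn ⟨m, h.symm⟩]
    simp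

theorem QE_unique {w : ℕ} (hw : 0 < w) {c : ℕ → ℂ}
    (h : ∀ z : ℂ, 0 < z.im → HasSum (fun n => c n * qq (z / w) ^ n) 0) (n : ℕ) : c n = 0 := by
  have h0 : (w : ℂ) ≠ 0 := by exact_mod_cast hw.ne'
  refine Mod.coeff_unique (fun z hz => ?_) n
  have := h (w * z) (by simpa using mul_pos (Nat.cast_pos.2 hw) hz)
  rwa [mul_div_cancel_left₀ _ h0] at this

theorem QE_pow {w : ℕ} (hw : w ≠ 0) (z : ℂ) : qq (z / w) ^ w = qq (z / (1 : ℕ)) := by
  have h0 : (w : ℂ) ≠ 0 := by exact_mod_cast hw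
  rw [← Mod.qq_nat_mul, mul_div_cancel₀ _ h0, Nat.cast_one, div_one]

theorem qe_of_rep {Φ : ℂ → ℂ} {A : ℤ⟦X⟧} (h : Mod.Rep Φ A) : QE 1 0 (zs A) fun z => Φ (qq z) := by
  intro z hz
  simpa using h.hasSum (Mod.norm_qq_lt hz)

namespace QE

variable {w N N' : ℕ} {A B : Zb⟦X⟧} {G H : ℂ → ℂ}

theorem congr (h : QE w N A G) (e : ∀ z : ℂ, 0 < z.im → H z = G z) : QE w N A H := by
  intro z hz
  simpa only [e z hz] using h z hz

theorem const (w : ℕ) (c : Zb) : QE w 0 (C c) fun _ => (c : ℂ) := by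
  intro z _
  have := hasSum_single (f := fun k : ℕ => ((coeff k (C c : Zb⟦X⟧) : Zb) : ℂ) * qq (z / w) ^ k) 0
    fun k hk => by simp [coeff_C, hk]
  simpa using this

theorem add (h : QE w N A G) (h' : QE w N B H) : QE w N (A + B) fun z => G z + H z := by
  intro z hz
  simpa [add_mul] using (h z hz).add (h' z hz)

theorem neg (h : QE w N A G) : QE w N (-A) fun z => -G z := by
  intro z hz
  simpa using (h z hz).neg

theorem sub (h : QE w N A G) (h' : QE w N B H) : QE w N (A - B) fun z => G z - H z := by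
  intro z hz
  simpa [sub_mul] using (h z hz).sub (h' z hz)

theorem mul (hw : 0 < w) (h : QE w N A G) (h' : QE w N' B H) :
    QE w (N + N') (A * B) fun z => G z * H z := by
  intro z hz
  have h1 := (h z hz).summable.norm
  have h2 := (h' z hz).summable.norm
  have h3 := (summable_norm_sum_mul_antidiagonal_of_summable_norm h1 h2).of_norm.hasSum
  rw [← tsum_mul_tsum_eq_tsum_sum_antidiagonal_of_summable_norm h1 h2, (h z hz).tsum_eq,
    (h' z hz).tsum_eq, mul_mul_mul_comm, ← pow_add] at h3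
  refine h3.congr_fun fun n => ?_
  rw [coeff_mul, AddSubmonoidClass.coe_finsetSum, Finset.sum_mul]
  refine Finset.sum_congr rfl fun p hp => ?_
  rw [← mem_antidiagonal.1 hp, pow_add, MulMemClass.coe_mul]
  ring

theorem smul (c : Zb) (h : QE w N A G) : QE w N (C c * A) fun z => c * G z := by
  intro z hz
  simpa [coeff_C_mul, mul_assoc] using (h z hz).mul_left (c : ℂ)

theorem pow (hw : 0 < w) (h : QE w N A G) (k : ℕ) : QE w (k * N) (A ^ k) fun z => G z ^ k := by
  induction k with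
  | zero => simpa using const w 1
  | succ k ih => simpa only [pow_succ, add_mul, one_mul] using mul hw ih h

theorem prod (hw : 0 < w) {ι : Type} (s : Finset ι) {M : ι → ℕ} {T : ι → Zb⟦X⟧} {F : ι → ℂ → ℂ}
    (h : ∀ i ∈ s, QE w (M i) (T i) (F i)) :
    QE w (∑ i ∈ s, M i) (∏ i ∈ s, T i) fun z => ∏ i ∈ s, F i z := by
  classical
  induction s using Finset.induction_on with
  | empty => simpa using const w 1
  | insert i s hi ih =>
    simp only [Finset.sum_insert hi, Finset.prod_insert hi]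
    exact mul hw (h i (mem_insert_self _ _)) (ih fun j hj => h j (mem_insert_of_mem hj))

theorem sum {ι : Type} (s : Finset ι) {T : ι → Zb⟦X⟧} {F : ι → ℂ → ℂ}
    (h : ∀ i ∈ s, QE w N (T i) (F i)) : QE w N (∑ i ∈ s, T i) fun z => ∑ i ∈ s, F i z := by
  classical
  induction s using Finset.induction_on with
  | empty =>
    intro z _
    simp
  | insert i s hi ih =>
    simp only [Finset.sum_insert hi]
    exact add (h i (mem_insert_self _ _)) (ih fun j hj => h j (mem_insert_of_mem hj))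

theorem shift (h : QE w N A G) (k : ℕ) : QE w (N + k) (X ^ k * A) G := by
  intro z hz
  rw [pow_add, ← mul_assoc]
  exact (QE_shift A k (Mod.qq_ne _) _).2 (h z hz)

theorem unshift {k : ℕ} (h : QE w (N + k) (X ^ k * A) G) : QE w N A G := by
  intro z hz
  have := h z hz
  rw [pow_add, ← mul_assoc] at this
  exact (QE_shift A k (Mod.qq_ne _) _).1 this

theorem unique (hw : 0 < w) (h : QE w N A G) (h' : QE w N B G) : A = B := by
  ext n
  refine sub_eq_zero.1 (QE_unique hw (c := fun n => ((coeff n A : Zb) : ℂ) - (coeff n B : Zb))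
    (fun z hz => ?_) n)
  simpa [sub_mul] using (h z hz).sub (h' z hz)

theorem subst (h : QE 1 N A G) {a d e : ℕ} (b : ℤ) (ha : 0 < a) (hd : 0 < d) (hw : 0 < w)
    (he : e ≠ 0) (hw' : a * w = e * d) :
    QE w (e * N) (C (ze d (-(N * b))) * expand e he (rescale (ze d b) A))
      fun z => G ((a * z + b) / d) := by
  intro z hz
  have a0 : (0 : ℝ) < a := Nat.cast_pos.2 ha
  have d0 : (0 : ℝ) < d := Nat.cast_pos.2 hd
  have d1 : (d : ℂ) ≠ 0 := by exact_mod_cast hd.ne'
  have w1 : (w : ℂ) ≠ 0 := by exact_mod_cast hw.ne'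
  have hu : 0 < (((a : ℂ) * z + b) / d).im := by
    rw [Complex.div_natCast_im]
    simpa using div_pos (mul_pos a0 hz) d0
  have e1 : (a : ℂ) * w = e * d := by exact_mod_cast hw'
  have e2 : qq (((a : ℂ) * z + b) / d / (1 : ℕ)) = ze d b * qq (z / w) ^ e := by
    rw [coe_ze, ← Mod.qq_nat_mul, ← Mod.qq_add, Nat.cast_one, div_one]
    congr 1
    field_simp
    linear_combination z * e1
  have e3 : (ze d (-(N * b)) : ℂ) * (ze d b : ℂ) ^ N = 1 := by
    have := congrArg Subtype.val (ze_mul_neg d (N * b))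
    rw [← ze_pow] at this
    rw [mul_comm]
    exact this
  have h1 := h _ hu
  rw [e2] at h1
  have h2 : HasSum (fun n => ((coeff n (rescale (ze d b) A) : Zb) : ℂ) * (qq (z / w) ^ e) ^ n) _ :=
    h1.congr_fun fun n => by
      rw [coeff_rescale, MulMemClass.coe_mul, SubmonoidClass.coe_pow, mul_pow]
      ring
  have h3 := ((QE_expand he _ _ _).2 h2).mul_left (ze d (-(N * b)) : ℂ)
  have e4 : (ze d (-(N * b)) : ℂ) * (G ((a * z + b) / d) * (ze d b * qq (z / w) ^ e) ^ N) =
      G ((a * z + b) / d) * qq (z / w) ^ (e * N) := by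
    rw [mul_pow, pow_mul]
    linear_combination G ((a * z + b) / d) * (qq (z / w) ^ e) ^ N * e3
  rw [e4] at h3
  exact h3.congr_fun fun n => by rw [coeff_C_mul, MulMemClass.coe_mul, mul_assoc]

theorem expand_one (h : QE 1 N A G) (hw : w ≠ 0) : QE w (w * N) (expand w hw A) G := by
  intro z hz
  rw [QE_expand, pow_mul, QE_pow hw]
  exact h z hz

theorem periodic (hw : 0 < w) (h : QE w (w * N) A G) (hp : ∀ z : ℂ, 0 < z.im → G (z + 1) = G z) :
    (∀ k, ¬ w ∣ k → coeff k A = 0) ∧ QE 1 N (PowerSeries.mk fun k => coeff (w * k) A) G := by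
  have hz1 := Complex.isPrimitiveRoot_exp w hw.ne'
  have e1 : ∀ z : ℂ, qq ((z + 1) / w) = qq (z / w) * cexp (2 * π * I / w) := fun z => by
    rw [add_div, Mod.qq_add, qq, qq, mul_one_div]
  have h1 : ∀ k, ¬ w ∣ k → coeff k A = 0 := by
    intro k hk
    have h2 := QE_unique hw (c := fun k => ((coeff k A : Zb) : ℂ) * (cexp (2 * π * I / w) ^ k - 1))
      (fun z hz => ?_) k
    · exact Subtype.ext ((mul_eq_zero.1 h2).resolve_right
        fun h3 => hk ((hz1.pow_eq_one_iff_dvd k).1 (sub_eq_zero.1 h3)))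
    · have h3 := h (z + 1) (by simpa using hz)
      rw [hp z hz, e1, mul_pow _ _ (w * N), pow_mul (cexp _), hz1.pow_eq_one, one_pow,
        mul_one] at h3
      have h4 := h3.sub (h z hz)
      rw [sub_self] at h4
      exact h4.congr_fun fun n => by rw [mul_pow]; ring
  refine ⟨h1, fun z hz => ?_⟩
  have e2 : A = expand w hw.ne' (PowerSeries.mk fun k => coeff (w * k) A) := by
    refine PowerSeries.ext fun k => ?_
    by_cases hk : w ∣ k
    · obtain ⟨m, rfl⟩ := hk
      rw [coeff_expand_mul, coeff_mk]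
    · rw [h1 k hk, coeff_expand_of_not_dvd _ _ _ hk]
  have h2 := h z hz
  rw [e2, QE_expand, pow_mul, QE_pow hw.ne'] at h2
  exact h2

theorem dvd_of_periodic (hw : 0 < w) (h : QE w N A G)
    (hp : ∀ z : ℂ, 0 < z.im → G (z + 1) = G z) (h0 : coeff 0 A ≠ 0) : w ∣ N := by
  obtain ⟨k, hk⟩ := Nat.exists_eq_add_of_le (Nat.le_mul_of_pos_left N hw)
  have h1 := h.shift k
  rw [← hk] at h1
  have h2 : w ∣ k := by
    by_contra h3
    have h4 := (h1.periodic hw hp).1 k h3
    rw [coeff_X_pow_mul', if_pos le_rfl, Nat.sub_self] at h4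
    exact h0 h4
  exact (Nat.dvd_add_left h2).1 ⟨N, hk.symm⟩

theorem tendsto (hw : 0 < w) (h : QE w N A G) :
    Tendsto (fun z => G z * qq (z / w) ^ N) atI (𝓝 ((coeff 0 A : Zb) : ℂ)) := by
  have w0 : (0 : ℝ) < w := Nat.cast_pos.2 hw
  have h1 : Tendsto (fun z : ℂ => qq (z / w)) atI (𝓝 0) := by
    refine Mod.tendsto_qq.comp (tendsto_comap_iff.2 ?_)
    exact (Mod.tendsto_im.atTop_div_const w0).congr fun z => (Complex.div_natCast_im z w).symm
  have h2 : ∀ᶠ z in atI, ‖qq (z / w)‖ < ‖qq (I / w)‖ :=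
    h1.norm.eventually (gt_mem_nhds (by simpa using Mod.qq_ne _))
  have h3 := tendsto_tsum_of_dominated_convergence (𝓕 := atI)
    (f := fun z k => ((coeff k A : Zb) : ℂ) * qq (z / w) ^ k)
    (g := fun k => ((coeff k A : Zb) : ℂ) * 0 ^ k) (h I (by simp)).summable.norm
    (fun k => (h1.pow k).const_mul _) (h2.mono fun z hz k => by
      simp only [norm_mul, norm_pow]
      gcongr)
  rw [tsum_eq_single 0 fun k hk => by simp [hk], pow_zero, mul_one] at h3
  refine h3.congr' ?_
  filter_upwards [Mod.ev_im 0] with z hz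
  exact (h z hz).tsum_eq

end QE

namespace HB

variable {G H : ℂ → ℂ}

theorem const (c : ℂ) : HB fun _ => c := by
  exact ⟨differentiableOn_const c, fun _ _ _ => const_boundedAtFilter _ c⟩

theorem add (h : HB G) (h' : HB H) : HB fun z => G z + H z := by
  exact ⟨h.hol.add h'.hol, fun g a b => (h.bd g a b).add (h'.bd g a b)⟩

theorem sub (h : HB G) (h' : HB H) : HB fun z => G z - H z := by
  exact ⟨h.hol.sub h'.hol, fun g a b => IsBigO.sub (h.bd g a b) (h'.bd g a b)⟩

theorem mul (h : HB G) (h' : HB H) : HB fun z => G z * H z := by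
  exact ⟨h.hol.mul h'.hol, fun g a b => (h.bd g a b).mul (h'.bd g a b)⟩

theorem pow (h : HB G) (k : ℕ) : HB fun z => G z ^ k := by
  induction k with
  | zero => simpa using const 1
  | succ k ih => simpa only [pow_succ] using mul ih h

theorem prod {ι : Type} (s : Finset ι) {F : ι → ℂ → ℂ} (h : ∀ i ∈ s, HB (F i)) :
    HB fun z => ∏ i ∈ s, F i z := by
  classical
  induction s using Finset.induction_on with
  | empty => simpa using const 1
  | insert i s hi ih =>
    simp only [Finset.prod_insert hi]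
    exact mul (h i (mem_insert_self _ _)) (ih fun j hj => h j (mem_insert_of_mem hj))

theorem sum {ι : Type} (s : Finset ι) {F : ι → ℂ → ℂ} (h : ∀ i ∈ s, HB (F i)) :
    HB fun z => ∑ i ∈ s, F i z := by
  classical
  induction s using Finset.induction_on with
  | empty => simpa using const 0
  | insert i s hi ih =>
    simp only [Finset.sum_insert hi]
    exact add (h i (mem_insert_self _ _)) (ih fun j hj => h j (mem_insert_of_mem hj))

theorem congr (h : HB G) (e : ∀ z : ℂ, 0 < z.im → H z = G z) : HB H := by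
  refine ⟨h.hol.congr e, fun g a b => IsBigO.congr' (h.bd g a b) ?_ EventuallyEq.rfl⟩
  filter_upwards [Mod.ev_im 0] with z hz
  exact (e _ (Mod.M2.im_act_pos (by omega) hz)).symm

theorem comp (h : HB G) {M : M2} (hM : 0 < M.det) (h15 : IsCoprime M.det 15) (hc : 15 ∣ M.c) :
    HB fun z => G (M.act z) := by
  refine ⟨Mod.diff_act hM h.hol, fun g a b => ?_⟩
  have hd : 0 < (M * g).det := by rwa [Mod.M2.det_mul, a, mul_one]
  obtain ⟨k, A, B, C, hk, hA, hC, -, -, e⟩ := Mod.exists_upper hd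
  have hu : 0 < (M2.mk A B 0 C).det := by simpa [M2.det] using mul_pos hA hC
  have h1 : ¬ (15 : ℤ) ∣ k.c := by
    intro h2
    have h3 := congrArg M2.c e
    simp only [Mod.M2.mul_c, mul_zero, add_zero] at h3
    have h4 : (15 : ℤ) ∣ M.d * g.c := by
      have : M.d * g.c = k.c * A - M.c * g.a := by linear_combination h3
      rw [this]
      exact dvd_sub (h2.mul_right _) (hc.mul_right _)
    have h5 : IsCoprime (15 : ℤ) M.d := by
      obtain ⟨t, ht⟩ := hc
      obtain ⟨u, v, huv⟩ := h15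
      refine ⟨v - u * M.b * t, u * M.a, ?_⟩
      rw [M2.det, ht] at huv
      linear_combination huv
    exact b (h5.dvd_of_dvd_mul_left h4)
  refine IsBigO.congr' (IsBigO.comp_tendsto (h.bd k hk h1) (Mod.tendsto_upper (B := B) hA hC)) ?_
    EventuallyEq.rfl
  filter_upwards [Mod.ev_im 0] with z hz
  simp only [Function.comp_apply]
  rw [← Mod.M2.act_mul (by omega) hu hz, ← e, Mod.M2.act_mul hM.ne' (by omega) hz]

end HB

end Pool.Agent.P.MP_8b7eba_nt.R1
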