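import Pool.Agent.P.MP_8b7eba_nt.R1.Exp

/-! The principle of expansions at infinity. -/

namespace Pool.Agent.P.MP_8b7eba_nt.R1

open Complex Filter Topology MeasureTheory Metric Finset Asymptotics PowerSeries
open scoped Real UpperHalfPlane MatrixGroups ComplexConjugate
open _root_.Pool.Agent.P.MP_8b7eba_nt.Mod (M2 G0 FI L0 om lv xx yy qq UH atI ex mT)
open BSD15 (OO Good cls gch gJ nm cj rho lam Adm B3 B5 No4 Xp XJ Rn)
open MP_9c97e9_nt (Pt pm Is)

variable {G : ℂ → ℂ} {N : ℕ} {A : Zb⟦X⟧} {z : ℂ}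

theorem QP_slash (T : ℂ → ℂ) (γ : SL(2, ℤ)) (τ : ℍ) :
    SlashAction.map (2 : ℤ) γ (fun τ : ℍ => T τ) τ = Mod.sl T (Mod.ofSL γ) τ := by
  rw [ModularForm.SL_slash_apply, Mod.coe_smul_ofSL, Mod.sl, Mod.det_ofSL]
  have : UpperHalfPlane.denom γ τ = (Mod.ofSL γ).j τ := by
    simp [UpperHalfPlane.denom, Mod.ofSL, Mod.M2.j]
  rw [this, zpow_neg, zpow_two, div_eq_mul_inv, sq]
  simp

theorem QP_level_one {T : ℂ → ℂ} (hol : DifferentiableOn ℂ T UH)
    (inv : ∀ g : M2, g.det = 1 → ∀ z : ℂ, 0 < z.im → Mod.sl T g z = T z)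
    (bd : BoundedAtFilter atI T) (hz : 0 < z.im) : T z = 0 := by
  have e : ∀ γ : SL(2, ℤ), SlashAction.map (2 : ℤ) γ (fun τ : ℍ => T τ) = fun τ : ℍ => T τ :=
    fun γ => funext fun τ => by rw [QP_slash, inv _ (Mod.det_ofSL γ) _ τ.im_pos]
  let F : ModularForm 𝒮ℒ 2 :=
    { toFun := fun τ => T τ
      slash_action_eq' := by
        rintro _ ⟨γ, rfl⟩
        exact e γ
      holo' := by
        rw [UpperHalfPlane.mdifferentiable_iff]
        refine hol.congr fun z hz => ?_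
        simp [UpperHalfPlane.ofComplex_apply_of_im_pos hz]
      bdd_at_cusps' := by
        intro c hc
        rw [OnePoint.isBoundedAt_iff_forall_SL2Z hc]
        intro γ _
        rw [e γ]
        exact bd.comp_tendsto UpperHalfPlane.tendsto_coe_atImInfty }
  have h := rank_zero_iff_forall_zero.1 ModularForm.levelOne_weight_two_rank_zero F
  exact congrArg (fun f : ModularForm 𝒮ℒ 2 => f ⟨z, hz⟩) h

theorem QP_perm (s : ℕ → ℕ) (h : (range 24).val.map s = (range 24).val) (F : ℕ → ℂ) :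
    ∑ i ∈ range 24, F (s i) = ∑ i ∈ range 24, F i := by
  unfold Finset.sum
  conv_rhs => rw [← h]
  rw [Multiset.map_map]
  rfl

theorem QP_ind {T : ℂ → ℂ} (hS : ∀ z : ℂ, 0 < z.im → Mod.sl T Mod.mS z = T z)
    (hT : ∀ z : ℂ, 0 < z.im → Mod.sl T (mT 1) z = T z) :
    ∀ g : M2, g.det = 1 → ∀ z : ℂ, 0 < z.im → Mod.sl T g z = T z := by
  have e : ∀ (F : ℂ → ℂ) (z : ℂ), Mod.sl F (mT 1) (z - 1) = F z := fun F z => by
    simp [Mod.sl, Mod.act_mT]
  refine Mod.sl2_ind (fun z _ => by simp [Mod.sl]) (fun g hg ih z hz => ?_)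
    fun g hg => ⟨fun ih z hz => ?_, fun ih z hz => ?_⟩
  · rw [Mod.sl_mul _ (by omega) (by simp) hz, Mod.sl_congr ih (by simp) hz, hS z hz]
  · rw [Mod.sl_mul _ (by omega) (by simp) hz, Mod.sl_congr ih (by simp) hz, hT z hz]
  · have hz' : 0 < (z - 1).im := by simpa using hz
    have h1 := ih _ hz'
    rwa [Mod.sl_mul _ (by omega) (by simp) hz', ← hT _ hz', e, e] at h1

theorem QP_trace {f : ℂ → ℂ} (hf : ∀ γ, G0 γ → Mod.Inv 2 f γ) :
    ∀ g : M2, g.det = 1 → ∀ z : ℂ, 0 < z.im →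
      Mod.sl (fun z => ∑ i ∈ range 24, Mod.sl f (Mod.reps.getD i 1) z) g z =
        ∑ i ∈ range 24, Mod.sl f (Mod.reps.getD i 1) z := by
  have h1 : ∀ g : M2, g.det = 1 → ∀ z : ℂ, 0 < z.im →
      Mod.sl f g z = Mod.sl f (Mod.reps.getD (Mod.idx g.c g.d) 1) z := by
    intro g hg z hz
    have h := (Mod.rep_spec (Mod.prim_of_det hg)).1
    have h2 := Mod.G0_mul_adj_rep hg
    have h3 := Mod.sl_mul f h2.det_pos (n := Mod.rep g.c g.d) (by omega) hz
    rw [mul_assoc, Mod.M2.adj_mul_self h, mul_one,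
      Mod.sl_congr (fun z hz => (hf _ h2).sl_eq h2.1 hz) (by omega) hz] at h3
    exact h3
  have h2 : ∀ (g : M2) (s : ℕ → ℕ), g.det = 1 → (range 24).val.map s = (range 24).val →
      (∀ i < 24, Mod.idx (Mod.reps.getD i 1 * g).c (Mod.reps.getD i 1 * g).d = s i) →
      ∀ z : ℂ, 0 < z.im → Mod.sl (fun z => ∑ i ∈ range 24, Mod.sl f (Mod.reps.getD i 1) z) g z =
        ∑ i ∈ range 24, Mod.sl f (Mod.reps.getD i 1) z := by
    intro g s hg hs hi z hz
    rw [← QP_perm s hs fun i => Mod.sl f (Mod.reps.getD i 1) z, Mod.sl, Finset.mul_sum,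
      Finset.sum_div]
    refine Finset.sum_congr rfl fun i hi' => ?_
    have h3 := (Mod.perm_spec i (mem_range.1 hi')).1
    rw [← hi i (mem_range.1 hi'), ← h1 _ (by rw [Mod.M2.det_mul, h3, hg, mul_one]) z hz,
      Mod.sl_mul f (by omega) (by omega) hz, Mod.sl.eq_def (Mod.sl f _)]
  have hS := h2 Mod.mS (fun i => Mod.sS.getD i 0) rfl (by decide) fun i hi => by
    simpa [Mod.mS] using (Mod.perm_spec i hi).2.1
  have hT := h2 (mT 1) (fun i => Mod.sT.getD i 0) rfl (by decide) fun i hi => by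
    simpa [mT] using (Mod.perm_spec i hi).2.2.1
  exact QP_ind hS hT

theorem no_simple_pole (hb : HB G) (hi : ∀ g, G0 g → ∀ z : ℂ, 0 < z.im → G (g.act z) = G z)
    (h : QE 1 1 A G) : coeff 0 A = 0 := by
  have hf : ∀ γ, G0 γ → Mod.Inv 2 (fun z => G z * Mod.ff z) γ := fun γ hγ z hz => by
    simp only [hi γ hγ z hz, Mod.ff_inv γ hγ z hz]
    ring
  have hd : ∀ i ∈ range 24, (Mod.reps.getD i 1).det = 1 := fun i hi =>
    (Mod.perm_spec i (mem_range.1 hi)).1
  have hc : ∀ i < 24, i ≠ 0 → ¬ (15 : ℤ) ∣ (Mod.reps.getD i 1).c := by decide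
  have lim : Tendsto (fun z => ∑ i ∈ range 24, Mod.sl (fun z => G z * Mod.ff z) (Mod.reps.getD i 1) z)
      atI (𝓝 (∑ i ∈ range 24, if i = 0 then ((coeff 0 A : Zb) : ℂ) else 0)) := by
    refine tendsto_finsetSum _ fun i hi => ?_
    split_ifs with h0
    · have h1 := (h.tendsto one_pos).mul (Mod.rep_Ff.tendsto.comp Mod.tendsto_qq)
      rw [Mod.const_FF, Int.cast_one, mul_one] at h1
      refine h1.congr fun z => ?_
      rw [h0, show Mod.reps.getD 0 1 = 1 from rfl]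
      simp [Mod.sl, Mod.ff_eq, mul_assoc]
    · have h1 := (IsBigO.mul (hb.bd _ (hd i hi) (hc i (mem_range.1 hi) h0))
        (Mod.sl_ff_theta (hd i hi)).1).congr_right fun z => one_mul _
      have h2 : (0 : ℝ) < Mod.wd (Mod.reps.getD i 1) := by exact_mod_cast Mod.wd_pos _
      refine (h1.trans_tendsto (Mod.tendsto_ex (by positivity))).congr fun z => ?_
      simp only [Mod.sl]
      ring
  rw [Finset.sum_ite_eq', if_pos (by simp)] at lim
  have h0 := fun z hz => QP_level_one (z := z) (DifferentiableOn.fun_sum fun i hi =>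
    Mod.diff_sl (hb.hol.mul Mod.diff_ff) (m := Mod.reps.getD i 1) (by rw [hd i hi]; exact one_pos))
    (QP_trace hf) (lim.isBigO_one ℝ) hz
  refine Subtype.ext (tendsto_nhds_unique lim (tendsto_const_nhds.congr' ?_))
  filter_upwards [Mod.ev_im 0] with z hz using (h0 z hz).symm

/-- the monomials in the two coordinates, ordered by the pole order at infinity -/
noncomputable def QP_m (k : ℕ) (z : ℂ) : ℂ :=
  if k % 2 = 0 then xx z ^ (k / 2) else if k = 1 then 0 else xx z ^ ((k - 3) / 2) * y1 z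

theorem QP_m_hb (k : ℕ) : HB (QP_m k) := by
  unfold QP_m
  split_ifs
  exacts [hb_xx.pow _, HB.const 0, (hb_xx.pow _).mul hb_y1]

theorem QP_m_inv (k : ℕ) (g : M2) (hg : G0 g) (z : ℂ) (hz : 0 < z.im) :
    QP_m k (g.act z) = QP_m k z := by
  simp only [QP_m, Mod.xx_inv g hg z hz, y1_act hg hz]

theorem QP_m_exp (k : ℕ) : ∃ B : Zb⟦X⟧, QE 1 k B (QP_m k) ∧ (k ≠ 1 → coeff 0 B = 1) := by
  obtain ⟨x, hx, hx'⟩ := exists_xx
  obtain ⟨y, hy, hy'⟩ := exists_y1
  have e : ∀ {u : ℤ⟦X⟧}, constantCoeff u = 1 → constantCoeff (zs u) = 1 := fun {u} h => by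
    rw [← coeff_zero_eq_constantCoeff_apply, coeff_map, coeff_zero_eq_constantCoeff_apply, h,
      map_one]
  unfold QP_m
  split_ifs with h1 h2
  · refine ⟨zs x ^ (k / 2), ?_, fun _ => by simp [e hx]⟩
    have := hx'.pow one_pos (k / 2)
    rwa [show k / 2 * 2 = k by omega] at this
  · exact ⟨0, fun z _ => by simp, fun h => absurd h2 h⟩
  · refine ⟨zs x ^ ((k - 3) / 2) * zs y, ?_, fun _ => by simp [e hx, e hy]⟩
    have := (hx'.pow one_pos ((k - 3) / 2)).mul one_pos hy'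
    rwa [show (k - 3) / 2 * 2 + 3 = k by omega] at this

theorem QP_m_int (hx : IntPt z) (k : ℕ) : IsIntegral ℤ (QP_m k z) := by
  unfold QP_m
  split_ifs
  exacts [hx.1.pow _, isIntegral_zero, (hx.1.pow _).mul hx.2]

theorem QP_step (J : Ideal Zb) (hb : HB G)
    (hi : ∀ g, G0 g → ∀ z : ℂ, 0 < z.im → G (g.act z) = G z) (h : QE 1 (N + 1) A G)
    (hA : ∀ k, coeff k A ∈ J) : ∃ A' : Zb⟦X⟧, (∀ k, coeff k A' ∈ J) ∧
      QE 1 N A' fun z => G z - (coeff 0 A : Zb) * QP_m (N + 1) z := by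
  obtain ⟨B, hB, hB'⟩ := QP_m_exp (N + 1)
  have h1 : X ^ 1 ∣ A - C (coeff 0 A) * B := by
    rw [pow_one, X_dvd_iff, ← coeff_zero_eq_constantCoeff_apply, map_sub, coeff_C_mul]
    rcases Nat.eq_zero_or_pos N with rfl | hN
    · rw [no_simple_pole hb hi h, zero_mul, sub_zero]
    · rw [hB' (by omega), mul_one, sub_self]
  obtain ⟨A', hA'⟩ := h1
  refine ⟨A', fun k => ?_, QE.unshift (k := 1) (hA' ▸ h.sub (hB.smul _))⟩
  rw [← coeff_X_pow_mul A' 1 k, ← hA', map_sub, coeff_C_mul]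
  exact J.sub_mem (hA _) (J.mul_mem_right _ (hA _))

theorem QP_core (J : Ideal Zb) (W : ℕ → AddSubgroup ℂ) (hz : 0 < z.im) (mono : ∀ k, W k ≤ W (k + 1))
    (hW : ∀ k, ∀ a ∈ J, (a : ℂ) * QP_m k z ∈ W (k + 1)) (N : ℕ) : ∀ {G : ℂ → ℂ} {A : Zb⟦X⟧}, HB G →
      (∀ g, G0 g → ∀ z : ℂ, 0 < z.im → G (g.act z) = G z) → QE 1 N A G → (∀ k, coeff k A ∈ J) →
        G z - (coeff 0 A : Zb) * QP_m N z ∈ W N := by
  induction N with
  | zero =>
    intro G A hb hi h _
    have h1 := h.tendsto one_pos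
    simp only [pow_zero, mul_one] at h1
    obtain ⟨c, hc⟩ := Mod.const_of_weight_zero hb.hol hi fun γ hγ => by
      by_cases h : (15 : ℤ) ∣ γ.c
      · refine (h1.isBigO_one ℝ).congr' ?_ .rfl
        filter_upwards [Mod.ev_im 0] with z hz using (hi γ ⟨hγ, h⟩ z hz).symm
      · exact hb.bd γ hγ h
    have h2 : Tendsto G atI (𝓝 c) := tendsto_const_nhds.congr' (by
      filter_upwards [Mod.ev_im 0] with z hz using (hc z hz).symm)
    rw [hc z hz, tendsto_nhds_unique h2 h1]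
    simp [QP_m]
  | succ N ih =>
    intro G A hb hi h hA
    obtain ⟨A', h1, h2⟩ := QP_step J hb hi h hA
    have h3 := ih (hb.sub ((HB.const _).mul (QP_m_hb _)))
      (fun g hg z hz => by rw [hi g hg z hz, QP_m_inv _ g hg z hz]) h2 h1
    simpa using (W (N + 1)).add_mem (mono N h3) (hW N _ (h1 0))

theorem qp (P : Ideal Zb) (hb : HB G) (hi : ∀ g, G0 g → ∀ z : ℂ, 0 < z.im → G (g.act z) = G z)
    (h : QE 1 N A G) (hA : ∀ k, coeff k A ∈ P) (hz : 0 < z.im) (hx : IntPt z) : InP P (G z) := by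
  let W : AddSubgroup ℂ := ⟨⟨⟨{a | InP P a}, InP.add⟩, InP.zero⟩, InP.neg⟩
  have h1 : ∀ k, ∀ a ∈ P, (a : ℂ) * QP_m k z ∈ W := fun k a ha =>
    (InP.coe.2 ha).mul_right (QP_m_int hx k)
  have h2 := W.add_mem (QP_core P (fun _ => W) hz (fun _ => le_rfl) h1 N hb hi h hA) (h1 N _ (hA 0))
  rwa [sub_add_cancel] at h2

theorem qp_int (hb : HB G) (hi : ∀ g, G0 g → ∀ z : ℂ, 0 < z.im → G (g.act z) = G z)
    (h : QE 1 N A G) (hN : 0 < N) (hA : IsUnit (coeff 0 A)) (hz : 0 < z.im) (h0 : G z = 0) :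
    IntPt z := by
  let F : ℕ → Submodule Zb ℂ := fun k => Submodule.span Zb ((fun j => QP_m j z) '' Set.Iio k)
  have mono : Monotone F := fun a b hab =>
    Submodule.span_mono (Set.image_mono (Set.Iio_subset_Iio hab))
  have mem : ∀ k, QP_m k z ∈ F (k + 1) := fun k => Submodule.subset_span ⟨k, k.lt_succ_self, rfl⟩
  have core : ∀ (M : ℕ) {H : ℂ → ℂ} {B : Zb⟦X⟧}, HB H →
      (∀ g, G0 g → ∀ z : ℂ, 0 < z.im → H (g.act z) = H z) → QE 1 M B H →
        H z - (coeff 0 B : Zb) * QP_m M z ∈ F M := fun M H B h1 h2 h3 =>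
    QP_core ⊤ (fun k => (F k).toAddSubgroup) hz (fun k => mono k.le_succ)
      (fun k a _ => (F (k + 1)).smul_mem a (mem k)) M h1 h2 h3 fun _ => trivial
  have h1 : ∀ j, QP_m (N + (j + 2)) z ∈ F (N + (j + 2)) := fun j => by
    obtain ⟨B, hB, hB'⟩ := QP_m_exp (j + 2)
    have h2 := core _ (hb.mul (QP_m_hb _))
      (fun g hg z hz => by rw [hi g hg z hz, QP_m_inv _ g hg z hz]) (h.mul one_pos hB)
    obtain ⟨u, hu⟩ := hA.exists_left_inv
    have h3 := (F _).smul_mem (-u) h2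
    have h4 : coeff 0 (A * B) = coeff 0 A := by
      rw [coeff_zero_eq_constantCoeff_apply, map_mul, ← coeff_zero_eq_constantCoeff_apply B,
        hB' (by omega), mul_one, coeff_zero_eq_constantCoeff_apply]
    have h5 : (u : ℂ) * (coeff 0 A : Zb) = 1 := congrArg Subtype.val hu
    rw [h0, h4, zero_mul, zero_sub, neg_smul_neg] at h3
    rwa [show u • (((coeff 0 A : Zb) : ℂ) * QP_m (N + (j + 2)) z) = QP_m (N + (j + 2)) z by
      rw [Subalgebra.smul_def, smul_eq_mul, ← mul_assoc, h5, one_mul]] at h3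
  have h2 : ∀ j, F (N + (j + 2)) ≤ F (N + 2) := fun j => by
    induction j with
    | zero => exact le_rfl
    | succ j ih =>
      refine Submodule.span_le.2 ?_
      rintro _ ⟨k, hk, rfl⟩
      rcases (Nat.lt_succ_iff.1 hk).eq_or_lt with rfl | hk
      · exact ih (h1 j)
      · exact ih (Submodule.subset_span ⟨k, hk, rfl⟩)
  have h3 : ∀ k, F k ≤ F (N + 2) := fun k => (mono (by omega)).trans (h2 k)
  have key : ∀ (M : ℕ) {H : ℂ → ℂ} {B : Zb⟦X⟧}, HB H →
      (∀ g, G0 g → ∀ z : ℂ, 0 < z.im → H (g.act z) = H z) → QE 1 M B H → IsIntegral ℤ (H z) := by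
    intro M H B h4 h5 h6
    refine isIntegral_trans (A := Zb) _ (isIntegral_of_smul_mem_submodule (F (N + 2)) ?_
      (Submodule.fg_span ((Set.finite_Iio _).image _)) _ fun n hn => ?_)
    · intro h7
      have h8 := h3 _ (mem 0)
      rw [h7, Submodule.mem_bot] at h8
      simp [QP_m] at h8
    · refine Submodule.span_induction (p := fun n _ => H z • n ∈ F (N + 2)) ?_ (by simp)
        (fun a b _ _ ha hb => ?_) (fun a b _ hb => ?_) hn
      · rintro _ ⟨k, -, rfl⟩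
        obtain ⟨B', hB, -⟩ := QP_m_exp k
        have h7 := core _ (h4.mul (QP_m_hb k))
          (fun g hg z hz => by rw [h5 g hg z hz, QP_m_inv _ g hg z hz]) (h6.mul one_pos hB)
        have h8 := (F (N + 2)).add_mem (h3 _ h7)
          ((F (N + 2)).smul_mem (coeff 0 (B * B')) (h3 _ (mem (M + k))))
        rwa [Subalgebra.smul_def, smul_eq_mul, sub_add_cancel] at h8
      · rw [smul_add]; exact add_mem ha hb
      · rw [smul_comm]; exact Submodule.smul_mem _ _ hb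
  obtain ⟨x, -, hx⟩ := exists_xx
  obtain ⟨y, -, hy⟩ := exists_y1
  exact ⟨key 2 hb_xx Mod.xx_inv hx, key 3 hb_y1 (fun g hg z hz => y1_act hg hz) hy⟩

end Pool.Agent.P.MP_8b7eba_nt.R1
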