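import Pool.Agent.P.MP_8b7eba_nt.R1.Gkz
import Pool.Agent.P.MP_8b7eba_nt.R1.Birch
import Pool.Agent.P.MP_8b7eba_nt.R1.AuxP

/-! Linear relations between Heegner points modulo torsion. -/

namespace Pool.Agent.P.MP_8b7eba_nt.R1

open Complex Filter Topology MeasureTheory Metric Finset Asymptotics PowerSeries
open scoped Real UpperHalfPlane MatrixGroups ComplexConjugate
open _root_.Pool.Agent.P.MP_8b7eba_nt.Mod (M2 G0 FI L0 om lv xx yy qq UH atI ex mT)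
open BSD15 (OO Good cls gch gJ nm cj rho lam Adm B3 B5 No4 Xp XJ Rn)
open MP_9c97e9_nt (Pt pm Is)

variable {a b b₁ b₃ : ℕ} {ρ ρ₁ ρ₃ : ℤ}

theorem Rel_pow4 {x : ℤ} (h : IsCoprime x 30) : 60 ∣ x ^ 4 - 1 := by
  have key : ∀ y : ZMod 60, (∃ u : ZMod 60, (2 * u * y) = 2) → y ^ 4 - 1 = 0 := by decide +kernel
  obtain ⟨u, v, huv⟩ := h
  have h1 : ((x ^ 4 - 1 : ℤ) : ZMod 60) = 0 := by
    push_cast
    refine key _ ⟨u, ?_⟩
    have h2 : ((2 * (u * x + v * 30) : ℤ) : ZMod 60) = ((2 * 1 : ℤ) : ZMod 60) := by rw [huv]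
    push_cast at h2
    have h3 : (60 : ZMod 60) = 0 := rfl
    linear_combination h2 - (v : ZMod 60) * h3
  exact (ZMod.intCast_zmod_eq_zero_iff_dvd _ 60).1 h1

theorem Rel_int {κ : ℚ} {m : ℤ} (h : κ ^ 2 = m) : ∃ k : ℤ, κ = k := by
  have h1 : IsIntegral ℤ κ := IsIntegral.of_pow two_pos (by rw [h]; exact isIntegral_intCast _)
  obtain ⟨k, hk⟩ := IsIntegrallyClosed.isIntegral_iff.1 h1
  exact ⟨k, by rw [← hk]; simp⟩

theorem Rel_zero {t : ℝ} (ht : ¬ Rq t) {c : ℚ} (h : Rq (c * t)) : c = 0 := by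
  by_contra hc
  have h1 : (c : ℝ) ≠ 0 := by exact_mod_cast hc
  have h2 := h.div (rq_rat c)
  rw [mul_div_cancel_left₀ _ h1] at h2
  exact ht h2

theorem Rel_nonsq {m : ℕ} (hm : Squarefree m) (h1 : 1 < m) : ¬ IsSquare (m : ℤ) := by
  rw [Int.isSquare_natCast_iff]
  rintro ⟨r, rfl⟩
  have := Nat.isUnit_iff.1 (hm r dvd_rfl)
  subst this
  omega

theorem Rel_dual {m c : ℕ} (hm : Adm m) (h1 : 1 < m) (hc : c ∣ m) (ρ : ℤ) :
    ∃ α β : ℚ, Dual (wf m ρ c) α β := by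
  have h2 : m.Coprime 30 := hm.2
  have hp : ∀ p : ℕ, p.Prime → p ∣ 30 → ¬ p ∣ m := fun p hp h30 h =>
    hp.one_lt.ne' (Nat.dvd_one.1 (h2 ▸ Nat.dvd_gcd h h30))
  have ho : Odd c := by
    rw [← Nat.not_even_iff_odd, even_iff_two_dvd]
    exact fun h => hp 2 Nat.prime_two (by norm_num) (h.trans hc)
  refine exists_dual (wt_wf (by exact_mod_cast (by omega : 0 < m)) ho
    (Int.natCast_dvd_natCast.2 hc) ?_ ?_ (.inl (Rel_nonsq hm.1 h1))) (Rel_nonsq hm.1 h1)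
  · exact fun h => hp 3 Nat.prime_three (by norm_num) (by exact_mod_cast h)
  · exact fun h => hp 5 Nat.prime_five (by norm_num) (by exact_mod_cast h)

theorem Rel_odd {m : ℕ} (hm : Adm m) : Odd m := by
  have h2 : m.Coprime 30 := hm.2
  rw [← Nat.not_even_iff_odd, even_iff_two_dvd]
  intro h
  have := h2 ▸ Nat.dvd_gcd h (by norm_num : 2 ∣ 30)
  omega

theorem Rel_st (h : HF a b ρ) : 60 ∣ ρ ^ 2 - st a * st b := by
  obtain ⟨-, -, -, ha, hb, -⟩ := h.jac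
  have h4 := h.good.h4
  have h5 := h.hd.rt
  rw [← st_mul (Rel_odd ha) (Rel_odd hb), st, if_neg (by omega), sub_neg_eq_add]
  exact h5

theorem Rel_sign {x y : ℤ} (h : |x| = |y|) : ∃ s : ℤ, s ^ 2 = 1 ∧ y = s * x := by
  rcases abs_eq_abs.1 h with h | h
  · exact ⟨1, by norm_num, by rw [h]; ring⟩
  · exact ⟨-1, by norm_num, by rw [h]; ring⟩

theorem rel1 (h₁ : HF a b₁ ρ₁) (h₃ : HF a b₃ ρ₃) (hb₁ : 1 < b₁) (hb₃ : 1 < b₃)
    (hc : b₁.Coprime b₃) (hi₁ : ∀ p ∈ b₁.primeFactors, jacobiSym (-(a * b₃)) p = -1)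
    (hi₃ : ∀ p ∈ b₃.primeFactors, jacobiSym (-(a * b₁)) p = -1) :
    ∃ k : ℤ, (k = 0 ∨ k ^ 2 = |lam b₁ * lam b₃|) ∧
      IsOfFinAddOrder (lam b₁ • PY a b₃ ρ₃ - k • PY a b₁ ρ₁) := by
  have g₁ := h₁.good
  have g₃ := h₃.good
  obtain ⟨-, -, -, ha, a₁, -⟩ := h₁.jac
  obtain ⟨-, -, -, -, a₃, -⟩ := h₃.jac
  have adm : Adm (b₁ * b₃) := ⟨(Nat.squarefree_mul hc).2 ⟨a₁.1, a₃.1⟩, Nat.Coprime.mul_left a₁.2 a₃.2⟩
  have h4 : b₁ * b₃ % 4 = 1 := by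
    have e1 := g₁.h4
    have e3 := g₃.h4
    have o1 := Nat.odd_iff.1 (Rel_odd ha)
    have o2 := Nat.odd_iff.1 (Rel_odd a₁)
    have o3 := Nat.odd_iff.1 (Rel_odd a₃)
    rw [Nat.mul_mod] at e1 e3 ⊢
    rcases (show a % 4 = 1 ∨ a % 4 = 3 by omega) with h | h <;>
      rcases (show b₁ % 4 = 1 ∨ b₁ % 4 = 3 by omega) with h' | h' <;>
      rcases (show b₃ % 4 = 1 ∨ b₃ % 4 = 3 by omega) with h'' | h'' <;>
      simp_all
  have s₁ := Rel_st h₁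
  have s₃ := Rel_st h₃
  have p₁ := Rel_pow4 h₁.hd.coprime
  have d30 : ∀ x : ℤ, 60 ∣ x → 30 ∣ x := fun x h => (by norm_num : (30 : ℤ) ∣ 60).trans h
  set ρ₂ := ρ₁ ^ 3 * ρ₃ * st b₁ with hρ₂
  have r₁ : 30 ∣ ρ₁ * ρ₂ - ρ₃ * st b₁ := by
    have : ρ₁ * ρ₂ - ρ₃ * st b₁ = (ρ₁ ^ 4 - 1) * (ρ₃ * st b₁) := by rw [hρ₂]; ring
    rw [this]
    exact d30 _ (p₁.mul_right _)
  have r₃ : 30 ∣ ρ₃ * ρ₂ - ρ₁ * st b₃ := by
    have : ρ₃ * ρ₂ - ρ₁ * st b₃ = (ρ₃ ^ 2 - st a * st b₃) * (ρ₁ ^ 3 * st b₁) -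
        (ρ₁ ^ 2 - st a * st b₁) * (ρ₁ ^ 3 * st b₃) + (ρ₁ ^ 4 - 1) * (ρ₁ * st b₃) := by
      rw [hρ₂]; ring
    rw [this]
    exact d30 _ (((s₃.mul_right _).sub (s₁.mul_right _)).add (p₁.mul_right _))
  obtain ⟨α, β, hd⟩ := Rel_dual adm (by nlinarith) (dvd_mul_left b₃ b₁) ρ₂
  rw [Nat.cast_mul] at hd
  have hd' : Dual (wf (b₃ * b₁) ρ₂ b₁) α β := by rw [mul_comm, wf_swap adm h4]; exact hd
  obtain ⟨e₁, he₁, q₁⟩ := gkz_half h₁ h₃ hb₁ hc hi₁ r₁ hd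
  obtain ⟨e₃, he₃, q₃⟩ := gkz_half h₃ h₁ hb₃ hc.symm hi₃ r₃ hd'
  generalize (if a % 4 = 3 then β else α : ℚ) = κ at q₁ q₃
  obtain ⟨s, hs, hl⟩ := Rel_sign he₁
  by_cases ht : Rq (tY a b₁ ρ₁)
  · refine ⟨0, .inl rfl, tors_of_tY h₃ h₁ ?_⟩
    have := (rq_int s).mul (q₁.add ((rq_rat κ).mul ht))
    convert this using 1
    rw [hl]; push_cast; ring
  · have h0 : (e₁ * e₃ - κ ^ 2 : ℚ) = 0 := by
      refine Rel_zero ht ?_
      have := ((rq_int e₁).mul q₃).add ((rq_rat κ).mul q₁)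
      convert this using 1
      push_cast; ring
    obtain ⟨k, rfl⟩ := Rel_int (κ := κ) (m := e₁ * e₃) (by push_cast; linarith)
    have h1 : k ^ 2 = e₁ * e₃ := by
      have : ((k ^ 2 : ℤ) : ℚ) = ((e₁ * e₃ : ℤ) : ℚ) := by push_cast; linarith
      exact_mod_cast this
    refine ⟨s * k, .inr ?_, tors_of_tY h₃ h₁ ?_⟩
    · rw [mul_pow, hs, one_mul, abs_mul, ← he₁, ← he₃, ← abs_mul, ← h1, abs_of_nonneg (sq_nonneg k)]
    · have := (rq_int s).mul q₁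
      convert this using 1
      rw [hl]; push_cast; ring

theorem rel2 (h : HF a b ρ) (h₁ : HF a 1 ρ₁) (hb : 1 < b) :
    ∃ k : ℤ, k ^ 2 = 4 * |lam b| ∧ IsOfFinAddOrder (PY a b ρ - k • PY a 1 ρ₁) := by
  have g := h.good
  have g₁ := h₁.good
  obtain ⟨-, -, -, ha, ab, -⟩ := h.jac
  have a4 : a % 4 = 3 := by simpa using g₁.h4
  have b4 : b % 4 = 1 := by
    have e := g.h4
    have o := Nat.odd_iff.1 (Rel_odd ab)
    rw [Nat.mul_mod, a4] at e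
    rcases (show b % 4 = 1 ∨ b % 4 = 3 by omega) with h' | h'
    · exact h'
    · simp [h'] at e
  have p₁ := Rel_pow4 h₁.hd.coprime
  have d30 : ∀ x : ℤ, 60 ∣ x → 30 ∣ x := fun x h => (by norm_num : (30 : ℤ) ∣ 60).trans h
  set ρ₂ := ρ * ρ₁ ^ 3 with hρ₂
  have r₁ : 30 ∣ ρ - ρ₁ * ρ₂ := by
    have : ρ - ρ₁ * ρ₂ = (ρ₁ ^ 4 - 1) * -ρ := by rw [hρ₂]; ring
    rw [this]
    exact d30 _ (p₁.mul_right _)
  have r₂ : 60 ∣ ρ₂ ^ 2 - b := by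
    have s := h.hd.rt
    have s₁ := h₁.hd.rt
    have : ρ₂ ^ 2 - b = (ρ ^ 2 + ((a * b : ℕ) : ℤ)) * ρ₁ ^ 6 -
        (ρ₁ ^ 2 + ((a * 1 : ℕ) : ℤ)) * (b * ρ₁ ^ 6) + (ρ₁ ^ 4 - 1) * ((ρ₁ ^ 4 + 1) * b) := by
      rw [hρ₂]; push_cast; ring
    rw [this]
    exact ((s.mul_right _).sub (s₁.mul_right _)).add (p₁.mul_right _)
  obtain ⟨α, β, hd⟩ := Rel_dual ab hb (one_dvd b) ρ₂
  obtain ⟨l, hl, hbl, l60, hj⟩ := exists_aux_prime' ab
  have l15 : l.Coprime 15 := by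
    rw [Nat.coprime_comm, Nat.coprime_iff_gcd_eq_one, Nat.gcd_rec, (by omega : l % 15 = 11)]
    norm_num
  have gl : Good (l * 1) := ⟨by simpa using hl.prime.squarefree, by omega, by omega⟩
  have dl : HD (l * 1) 7 := ⟨by simpa using l15, by push_cast; omega⟩
  have jl : jacobiSym (-15) l = -1 := by simpa using dl.jac
  have f₁ : HF l 1 7 := ⟨gl, dl, jl⟩
  have f : HF l b (7 * ρ₂) := by
    refine ⟨⟨(Nat.squarefree_mul (Nat.coprime_of_lt_prime (by omega) hbl hl)).2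
      ⟨hl.prime.squarefree, ab.1⟩, ?_, by nlinarith⟩, ⟨Nat.Coprime.mul_left l15
        (Nat.Coprime.coprime_dvd_right (by norm_num) ab.2), ?_⟩, jl⟩
    · rw [Nat.mul_mod, b4, (by omega : l % 4 = 3)]
    · have : (7 * ρ₂) ^ 2 + ((l * b : ℕ) : ℤ) = (ρ₂ ^ 2 - b) * 49 + (49 + l) * b := by
        push_cast; ring
      rw [this]
      exact (r₂.mul_right _).add (Dvd.dvd.mul_right (by omega) _)
  have irr : ¬ Rq (tY l 1 7) := fun hq => birch_prime hl f₁ (by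
    simpa using tors_of_tY f₁ f₁ (x := 1) (y := 0) (by simpa using hq))
  obtain ⟨e₁, he₁, q₁⟩ := gkz_half (ρ₂ := ρ₂) (α := α) (β := β) f f₁ hb (Nat.coprime_one_right b)
    (by simpa using hj)
    (by
      have : 7 * ρ₂ * ρ₂ - 7 * st b = (ρ₂ ^ 2 - b) * 7 := by rw [st, if_pos b4]; ring
      rw [this]
      exact d30 _ (r₂.mul_right _))
    (by simpa using hd)
  rw [if_pos (by omega)] at q₁
  obtain ⟨e₂, he₂, q₂⟩ := gkz_four f f₁ hb (by simp) hd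
  have h0 : (e₁ - 4 * e₂ * β ^ 2 : ℚ) = 0 := by
    refine Rel_zero irr ?_
    have := q₁.add ((rq_rat β).mul q₂)
    convert this using 1
    push_cast; ring
  have h1 : ((|lam b| : ℤ) : ℚ) = 4 * β ^ 2 := by
    have e2 : |(e₂ : ℚ)| = 1 := by exact_mod_cast he₂
    rw [← he₁, Int.cast_abs, sub_eq_zero.1 h0, abs_mul, abs_mul, e2, abs_of_nonneg (sq_nonneg β)]
    norm_num
  obtain ⟨e, he, q⟩ := gkz_four h h₁ hb r₁ hd
  have e2 : (e : ℚ) ^ 2 = 1 := by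
    have : e ^ 2 = 1 := by rw [← sq_abs, he]; norm_num
    exact_mod_cast this
  have h2 : (4 * e * β : ℚ) ^ 2 = ((4 * |lam b| : ℤ) : ℚ) := by
    rw [Int.cast_mul, h1]; push_cast; linear_combination 16 * β ^ 2 * e2
  obtain ⟨k, hk⟩ := Rel_int h2
  refine ⟨k, by rw [hk] at h2; exact_mod_cast h2, ?_⟩
  have hk' : (4 * e * β : ℝ) = k := by exact_mod_cast hk
  simpa using tors_of_tY h h₁ (x := 1) (y := k) (by rw [← hk']; simpa using q)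

end Pool.Agent.P.MP_8b7eba_nt.R1
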