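import Pool.Agent.P.MP_8b7eba_nt.R1.Gal
import Pool.Agent.P.MP_8b7eba_nt.R1.GenC

/-! Differences of genus points lift to the Shimura covering. -/

namespace Pool.Agent.P.MP_8b7eba_nt.R1

open Complex Filter Topology MeasureTheory Metric Finset Asymptotics PowerSeries
open scoped Real UpperHalfPlane MatrixGroups ComplexConjugate
open _root_.Pool.Agent.P.MP_8b7eba_nt.Mod (M2 G0 FI L0 om lv xx yy qq UH atI ex mT)
open BSD15 (OO Good cls gch gJ nm cj rho lam Adm B3 B5 No4 Xp XJ Rn)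
open MP_9c97e9_nt (Pt pm Is UU sg)

/-- a square root of `X² + 4 η + 144` at the double of `H` -/
noncomputable def s2r (H : EC) : ℂ := UU 0 (-9) 16 H * UU 16 0 (-9) H + 4 * UU (-9) 0 16 H

theorem s2_prod {H : EC} {X η : ℂ} (h2 : Is (H + H) X η) :
    2 * (UU 0 (-9) 16 H * UU (-9) 0 16 H * UU 16 0 (-9) H) = η := by
  rcases MP_9c97e9_nt.zero_or_is H with rfl | ⟨x, η₁, hP⟩
  · exact absurd (add_zero _) h2.ne_zero
  have h0 := (hP.two_ne split15).1 h2.ne_zero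
  have hm := div_mul_cancel₀
    (2 * ((x - 0) * (x - -9) + (x - 0) * (x - 16) + (x - -9) * (x - 16))) h0
  generalize _ / η₁ = m at hm
  have h3 := (h2.inj (hP.add_self split15 h0 hm (x₃ := m ^ 2 / 4 + 7 - 2 * x) (by ring))).2
  have e := hP.eq split15
  have key : η * η₁ ^ 3 = 2 * ((x ^ 2 + 144) * ((x + 9) ^ 2 - 225) * ((x - 16) ^ 2 - 400)) := by
    rw [h3]
    linear_combination (-((m * η₁) ^ 2 + m * η₁ * (2 * (3 * x ^ 2 - 14 * x - 144)) +
      (2 * (3 * x ^ 2 - 14 * x - 144)) ^ 2) / 4 - η₁ ^ 2 * (7 - 3 * x)) * hm -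
      (η₁ ^ 2 + 4 * (x * (x + 9) * (x - 16)) + 2 * (3 * x ^ 2 - 14 * x - 144) * (7 - 3 * x)) * e
  simp only [hP.UU_eq]
  field_simp
  linear_combination -key

theorem s2r_sq {H : EC} {X η : ℂ} (h2 : Is (H + H) X η) : s2r H ^ 2 = X ^ 2 + 4 * η + 144 := by
  have h1 := MP_9c97e9_nt.UU_sq split15 h2
  have h3 := MP_9c97e9_nt.UU_sq split15.swap h2
  have h4 := MP_9c97e9_nt.UU_sq split15.swap'.swap h2
  have h5 := s2_prod h2
  unfold s2r
  linear_combination 4 * h5 - 16 * h3 - UU 16 0 (-9) H ^ 2 * h1 - X * h4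

theorem s2r_add {H T : EC} (hT : T + T = 0) (h2 : H + H ≠ 0) :
    s2r (H + T) = sg (-9 : ℂ) T * s2r H := by
  unfold s2r
  rw [MP_9c97e9_nt.UU_add split15 hT h2, MP_9c97e9_nt.UU_add split15.swap hT h2,
    MP_9c97e9_nt.UU_add split15.swap'.swap hT h2, MP_9c97e9_nt.sg_prod split15.swap' hT]
  push_cast
  ring

theorem s2r_act (σ : Aut) (H : EC) : s2r (act σ H) = σ (s2r H) := by
  have h1 := MP_9c97e9_nt.UU_map (e₁ := 0) (e₂ := -9) (e₃ := 16) (σ : ℂ →+* ℂ) H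
  have h2 := MP_9c97e9_nt.UU_map (e₁ := -9) (e₂ := 0) (e₃ := 16) (σ : ℂ →+* ℂ) H
  have h3 := MP_9c97e9_nt.UU_map (e₁ := 16) (e₂ := 0) (e₃ := -9) (σ : ℂ →+* ℂ) H
  simp only [map_zero, map_neg, map_ofNat, RingHom.coe_coe] at h1 h2 h3
  unfold s2r act
  rw [h1, h2, h3]
  simp [map_ofNat]

theorem s2_half {z : ℂ} (hz : 0 < z.im) : ∃ H : EC, H + H = Pz z ∧ s2r H = 4 * v1 z := by
  obtain ⟨H, hH⟩ := MP_9c97e9_nt.exists_half split15 (Pz z)
  have h1 : Is (H + H) (4 * xx z) (8 * yy z) := hH ▸ is_Pz hz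
  have h2 : s2r H ^ 2 = (4 * v1 z) ^ 2 := by
    rw [s2r_sq h1]
    linear_combination -16 * v1_sq hz
  rcases sq_eq_sq_iff_eq_or_eq_neg.1 h2 with h | h
  · exact ⟨H, hH, h⟩
  · have h3 : Is (mkP 0 0) 0 0 := is_mkP (by norm_num)
    have h4 : mkP 0 0 + mkP 0 0 = 0 := h3.add_eq_zero split15 (by simpa using h3)
    refine ⟨H + mkP 0 0, by rw [add_add_add_comm, hH, h4, add_zero], ?_⟩
    rw [s2r_add h4 h1.ne_zero, h3.sg_ne (by norm_num), h]
    simp

theorem s2_sum {ι : Type} (s : Finset ι) {T : ι → EC} (hT : ∀ i, T i + T i = 0) :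
    ∑ i ∈ s, T i + ∑ i ∈ s, T i = 0 ∧ sg (-9 : ℂ) (∑ i ∈ s, T i) = ∏ i ∈ s, sg (-9 : ℂ) (T i) := by
  classical
  induction s using Finset.induction_on with
  | empty => simp [MP_9c97e9_nt.sg_zero]
  | insert i s hi ih =>
    rw [sum_insert hi, prod_insert hi, add_add_add_comm, hT, ih.1, add_zero,
      MP_9c97e9_nt.sg_add split15.swap (hT i) ih.1, ih.2]
    exact ⟨rfl, rfl⟩

theorem shim {n : ℕ} [Good n] {ρ : ℤ} (hd : HD n ρ) (d d' : ClassGroup (OO n)) :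
    ∃ H : EC, H + H = ZG n ρ d - ZG n ρ d' ∧
      ∀ σ, Fx n.primeFactors σ → act σ H - H = 0 ∨ act σ H - H = T2 := by
  choose H hH hr using fun c : ClassGroup (OO n) => s2_half (ht_im hd c)
  refine ⟨∑ c ∈ gen d, H c - ∑ c ∈ gen d', H c, ?_, fun σ hσ => ?_⟩
  · rw [← add_sub_add_comm, ← sum_add_distrib, ← sum_add_distrib]
    simp only [hH, ZG]
  obtain ⟨α, h1, h2⟩ := gal_act hd σ (by
    simpa using aut_sqrt (ε := fun _ => 1) (σ := σ) (n := n) fun p hp => by simpa using hσ p hp)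
  have hα : ∀ p ∈ n.primeFactors, gch p α = 1 := fun p hp => by
    have h3 := h2 p hp
    have h4 : Odd p := Nat.odd_iff.2 (BSD15.genus_odd (Nat.dvd_of_mem_primeFactors hp))
    rw [hσ p hp] at h3
    have h5 : (gch p α : ℂ) = 1 := mul_right_cancel₀ (rt_ne h4) (by rw [← h3, one_mul])
    exact_mod_cast h5
  obtain ⟨T, hT⟩ : ∃ T : ClassGroup (OO n) → EC, ∀ c, act σ (H c) = H (c * α) + T c :=
    ⟨fun c => act σ (H c) - H (c * α), fun c => by simp⟩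
  have t2 : ∀ c, T c + T c = 0 := fun c => by
    have h3 := h1 c
    rw [← hH, ← hH, map_add, hT, add_add_add_comm] at h3
    exact add_eq_left.1 h3
  have hv : ∀ c, σ (v1 (ht n ρ c)) = sg (-9 : ℂ) (T c) * v1 (ht n ρ (c * α)) := fun c => by
    have h3 := s2r_act σ (H c)
    rw [hT, s2r_add (t2 c) (hH _ ▸ (is_Pz (ht_im hd _)).ne_zero), hr, hr, map_mul,
      map_ofNat] at h3
    linear_combination -h3 / 4
  have hs : ∀ e, act σ (∑ c ∈ gen e, H c) = ∑ c ∈ gen e, H c + ∑ c ∈ gen e, T c := fun e => by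
    rw [map_sum]
    simp only [hT]
    rw [sum_add_distrib, sum_gen_mul hα e H]
  have hp : ∀ e, σ (∏ c ∈ gen e, v1 (ht n ρ c)) =
      (sg (-9 : ℂ) (∑ c ∈ gen e, T c) : ℂ) * ∏ c ∈ gen e, v1 (ht n ρ c) := fun e => by
    rw [map_prod]
    simp only [hv]
    rw [prod_mul_distrib, prod_gen_mul hα e fun c => v1 (ht n ρ c), (s2_sum _ t2).2]
    push_cast
    rfl
  have hne : ∀ e, ∏ c ∈ gen e, v1 (ht n ρ c) ≠ 0 := fun e =>
    prod_ne_zero_iff.2 fun c _ => v1_ne (ht_im hd c)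
  have a1 := (s2_sum (gen d) t2).1
  have a2 := (s2_sum (gen d') t2).1
  have e1 : act σ (∑ c ∈ gen d, H c - ∑ c ∈ gen d', H c) -
      (∑ c ∈ gen d, H c - ∑ c ∈ gen d', H c) = ∑ c ∈ gen d, T c + ∑ c ∈ gen d', T c := by
    rw [map_sub, hs, hs, ← neg_eq_of_add_eq_zero_left a2]
    conv_lhs => rw [neg_eq_of_add_eq_zero_left a2]
    abel
  have e2 : sg (-9 : ℂ) (∑ c ∈ gen d, T c + ∑ c ∈ gen d', T c) = 1 := by
    have h3 := gal_v1 hd σ hσ d d'
    rw [map_mul, hp, hp, mul_mul_mul_comm] at h3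
    have h4 := mul_right_cancel₀ (mul_ne_zero (hne d) (hne d')) (h3.trans (one_mul _).symm)
    rw [MP_9c97e9_nt.sg_add split15.swap a1 a2]
    exact_mod_cast h4
  rw [e1]
  rcases MP_9c97e9_nt.two_torsion split15
    (show (∑ c ∈ gen d, T c + ∑ c ∈ gen d', T c) + (∑ c ∈ gen d, T c + ∑ c ∈ gen d', T c) = 0 by
      rw [add_add_add_comm, a1, a2, add_zero]) with h | h | h | h
  · exact .inl h
  · rw [h.sg_ne (by norm_num)] at e2
    omega
  · exact .inr (h.unique split15 is_T2)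
  · rw [h.sg_ne (by norm_num)] at e2
    omega

end Pool.Agent.P.MP_8b7eba_nt.R1
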