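import Pool.Agent.P.MP_8b7eba_nt.R1.Basic

/-! Convergence of the sums over all geodesics of a given discriminant. -/

namespace Pool.Agent.P.MP_8b7eba_nt.R1

open Complex Filter Topology MeasureTheory Metric Finset Asymptotics PowerSeries
open scoped Real UpperHalfPlane MatrixGroups ComplexConjugate
open _root_.Pool.Agent.P.MP_8b7eba_nt.Mod (M2 G0 FI L0 om lv xx yy qq UH atI ex mT)
open BSD15 (OO Good cls gch gJ nm cj rho lam Adm B3 B5 No4 Xp XJ Rn)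
open MP_9c97e9_nt (Pt pm Is)

theorem Sum_rpow {a b K s : ℝ} (hs : 0 ≤ s) (ha : 0 < a) (hb : 0 < b) (hK : 0 < K)
    (h : a ≤ K * b) : b ^ (-s) ≤ K ^ s * a ^ (-s) := by
  have h1 : (K * b) ^ (-s) ≤ a ^ (-s) := Real.rpow_le_rpow_of_nonpos ha h (by linarith)
  have h2 : K ^ s * (K * b) ^ (-s) = b ^ (-s) := by
    rw [Real.mul_rpow hK.le hb.le, ← mul_assoc, ← Real.rpow_add hK]
    simp
  rw [← h2]
  exact mul_le_mul_of_nonneg_left h1 (Real.rpow_nonneg hK.le _)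

theorem Sum_int {s : ℝ} (hs : 1 < s) : Summable fun k : ℤ => (1 + |(k : ℝ)|) ^ (-s) := by
  have h : Summable fun n : ℕ => (1 + (n : ℝ)) ^ (-s) := by
    have h0 : Summable fun n : ℕ => (n : ℝ) ^ (-s) := Real.summable_nat_rpow.2 (by linarith)
    have h1 := (summable_nat_add_iff 1).2 h0
    refine h1.congr fun n => ?_
    push_cast
    rw [add_comm]
  refine Summable.of_nat_of_neg ?_ ?_
  · refine h.congr fun n => ?_
    simp
  · refine h.congr fun n => ?_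
    simp

theorem Sum_shift {s : ℝ} (hs : 1 < s) :
    ∃ C : ℝ, 0 ≤ C ∧ ∀ (u : ℝ) (S : Finset ℤ), ∑ m ∈ S, (1 + |u + m|) ^ (-s) ≤ C := by
  have hp : ∀ k : ℤ, 0 ≤ (1 + |(k : ℝ)|) ^ (-s) := fun k => Real.rpow_nonneg (by positivity) _
  refine ⟨2 ^ s * ∑' k : ℤ, (1 + |(k : ℝ)|) ^ (-s),
    mul_nonneg (by positivity) (tsum_nonneg hp), fun u S => ?_⟩
  have h1 : ∀ m ∈ S, (1 + |u + m|) ^ (-s) ≤ 2 ^ s * (1 + |((⌊u⌋ + m : ℤ) : ℝ)|) ^ (-s) := by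
    intro m _
    refine Sum_rpow (by linarith) (by positivity) (by positivity) two_pos ?_
    have h2 := Int.floor_le u
    have h3 := Int.lt_floor_add_one u
    have h4 : |((⌊u⌋ + m : ℤ) : ℝ)| ≤ |u + m| + 1 := by
      push_cast
      rw [abs_le]
      constructor
      · have := neg_abs_le (u + m)
        linarith
      · have := le_abs_self (u + m)
        linarith
    have := abs_nonneg (u + m)
    linarith
  refine (Finset.sum_le_sum h1).trans ?_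
  rw [← Finset.mul_sum]
  refine mul_le_mul_of_nonneg_left ?_ (by positivity)
  have h5 := Finset.sum_image (s := S) (g := fun m : ℤ => ⌊u⌋ + m)
    (f := fun k : ℤ => (1 + |(k : ℝ)|) ^ (-s)) fun a _ b _ h => add_left_cancel h
  rw [← h5]
  exact (Sum_int hs).sum_le_tsum _ fun k _ => hp k

theorem Sum_pt {D : ℤ} (hD : 0 < D) {δ : ℝ} (hδ : 0 < δ) :
    ∃ K : ℝ, 0 < K ∧ ∀ z : ℂ, δ ≤ z.im → ∀ Q : QF, Q.disc = D → Q.A ≠ 0 →
      |(Q.A : ℝ)| * (1 + |z.re + Q.B / (2 * Q.A)|) ≤ K * (1 + |Q.tt z|) := by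
  have hD' : (0 : ℝ) < D := by exact_mod_cast hD
  have hr : 0 < √(D : ℝ) := Real.sqrt_pos.2 hD'
  refine ⟨(1 + 1 / δ) * (√(D : ℝ) + D / (4 * δ)), by positivity, fun z hz Q hQ hA => ?_⟩
  have hy : 0 < z.im := hδ.trans_le hz
  have hA' : (Q.A : ℝ) ≠ 0 := by exact_mod_cast hA
  have hA1 : (1 : ℝ) ≤ |(Q.A : ℝ)| := by exact_mod_cast Int.one_le_abs hA
  set v : ℝ := z.re + Q.B / (2 * Q.A) with hv
  have hdisc : (D : ℝ) = Q.B ^ 2 - 4 * Q.A * Q.C := by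
    rw [← hQ, QF.disc]
    push_cast
    ring
  have h1 : (Q.A : ℝ) * (v ^ 2 + z.im ^ 2) = Q.tt z * (z.im * √(D : ℝ)) + D / (4 * Q.A) := by
    rw [QF.tt, hQ, div_mul_cancel₀ _ (by positivity), normSq_apply, hv, hdisc]
    field_simp
    ring
  have h2 : |(Q.A : ℝ)| * (v ^ 2 + z.im ^ 2) ≤ |Q.tt z| * (z.im * √(D : ℝ)) + D / 4 := by
    have h3 : |(Q.A : ℝ)| * (v ^ 2 + z.im ^ 2) = |(Q.A : ℝ) * (v ^ 2 + z.im ^ 2)| := by
      rw [abs_mul, abs_of_nonneg (a := v ^ 2 + z.im ^ 2) (by positivity)]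
    rw [h3, h1]
    refine (abs_add_le _ _).trans (add_le_add ?_ ?_)
    · rw [abs_mul, abs_of_pos (a := z.im * √(D : ℝ)) (by positivity)]
    · rw [abs_div, abs_mul, abs_of_pos hD', abs_of_pos (a := (4 : ℝ)) (by norm_num)]
      exact div_le_div_of_nonneg_left hD'.le (by norm_num) (by linarith)
  have h4 : (1 + |v|) * z.im ≤ (1 + 1 / δ) * (v ^ 2 + z.im ^ 2) := by
    have h5 : |v| * z.im ≤ v ^ 2 + z.im ^ 2 := by
      rw [← sq_abs v]
      nlinarith [sq_nonneg (|v| - z.im), abs_nonneg v]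
    have h6 : z.im ≤ 1 / δ * (v ^ 2 + z.im ^ 2) := by
      rw [one_div, inv_mul_eq_div, le_div_iff₀ hδ]
      nlinarith [sq_nonneg v]
    linarith
  have h7 : (D : ℝ) / 4 ≤ D / (4 * δ) * z.im := by
    rw [div_mul_eq_mul_div, div_le_div_iff₀ (by norm_num) (by positivity)]
    nlinarith [mul_le_mul_of_nonneg_left hz hD'.le]
  have ht := abs_nonneg (Q.tt z)
  have h8 : |Q.tt z| * (z.im * √(D : ℝ)) + D / 4 ≤
      (√(D : ℝ) + D / (4 * δ)) * (1 + |Q.tt z|) * z.im := by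
    have h9 : 0 ≤ √(D : ℝ) * z.im := by positivity
    have h10 : 0 ≤ D / (4 * δ) * |Q.tt z| * z.im := by positivity
    nlinarith
  refine le_of_mul_le_mul_right ?_ hy
  calc |(Q.A : ℝ)| * (1 + |v|) * z.im = |(Q.A : ℝ)| * ((1 + |v|) * z.im) := by ring
    _ ≤ |(Q.A : ℝ)| * ((1 + 1 / δ) * (v ^ 2 + z.im ^ 2)) :=
        mul_le_mul_of_nonneg_left h4 (abs_nonneg _)
    _ = (1 + 1 / δ) * (|(Q.A : ℝ)| * (v ^ 2 + z.im ^ 2)) := by ring
    _ ≤ (1 + 1 / δ) * ((√(D : ℝ) + D / (4 * δ)) * (1 + |Q.tt z|) * z.im) :=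
        mul_le_mul_of_nonneg_left (h2.trans h8) (by positivity)
    _ = _ := by ring

/-- a square root of `D` modulo `A`, if there is one -/
noncomputable def Sum_rt (D A : ℤ) : ℤ := Classical.epsilon fun x => A ∣ x ^ 2 - D

/-- a factorisation of the first coefficient -/
noncomputable def Sum_key (D : ℤ) (Q : QF) : ℤ × ℤ :=
  (Int.gcd Q.A (Q.B - Sum_rt D Q.A), Q.A / Int.gcd Q.A (Q.B - Sum_rt D Q.A))

theorem Sum_key_spec {D : ℤ} {Q : QF} (hQ : Q.disc = D) (hA : Q.A ≠ 0) :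
    Q.A = (Sum_key D Q).1 * (Sum_key D Q).2 ∧ Q.A ∣ Sum_rt D Q.A ^ 2 - D ∧
      (Sum_key D Q).1 ∣ Q.B - Sum_rt D Q.A ∧ (Sum_key D Q).2 ∣ Q.B + Sum_rt D Q.A := by
  have hB : Q.A ∣ Q.B ^ 2 - D := ⟨4 * Q.C, by rw [← hQ, QF.disc]; ring⟩
  have hr : Q.A ∣ Sum_rt D Q.A ^ 2 - D :=
    Classical.epsilon_spec (p := fun x => Q.A ∣ x ^ 2 - D) ⟨Q.B, hB⟩
  refine ⟨(Int.mul_ediv_cancel' (Int.gcd_dvd_left _ _)).symm, hr, Int.gcd_dvd_right _ _, ?_⟩
  set x := Sum_rt D Q.A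
  have hg : 0 < Int.gcd Q.A (Q.B - x) := Int.gcd_pos_of_ne_zero_left _ hA
  have hc : IsCoprime (Q.A / Int.gcd Q.A (Q.B - x)) ((Q.B - x) / Int.gcd Q.A (Q.B - x)) :=
    Int.isCoprime_iff_gcd_eq_one.2 (Int.gcd_div_gcd_div_gcd hg)
  refine hc.dvd_of_dvd_mul_left ?_
  have h1 : Q.A ∣ (Q.B - x) * (Q.B + x) := by
    have := dvd_sub hB hr
    rwa [show Q.B ^ 2 - D - (x ^ 2 - D) = (Q.B - x) * (Q.B + x) by ring] at this
  have hg' : ((Int.gcd Q.A (Q.B - x) : ℕ) : ℤ) ≠ 0 := by exact_mod_cast hg.ne'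
  refine Int.dvd_of_mul_dvd_mul_left hg' ?_
  rw [← mul_assoc, Int.mul_ediv_cancel' (Int.gcd_dvd_left _ _),
    Int.mul_ediv_cancel' (Int.gcd_dvd_right _ _)]
  exact h1

theorem Sum_key_dvd {D : ℤ} {P Q : QF} (hP : P.disc = D) (hP0 : P.A ≠ 0) (hQ : Q.disc = D)
    (hQ0 : Q.A ≠ 0) (h : Sum_key D P = Sum_key D Q) :
    P.A = Q.A ∧ Q.A ∣ 4 * D * (P.B - Q.B) := by
  obtain ⟨p1, -, p3, p4⟩ := Sum_key_spec hP hP0
  obtain ⟨q1, q2, q3, q4⟩ := Sum_key_spec hQ hQ0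
  have hA : P.A = Q.A := by rw [p1, q1, h]
  refine ⟨hA, ?_⟩
  rw [h, hA] at p3 p4
  obtain ⟨a, ha⟩ := p3
  obtain ⟨b, hb⟩ := p4
  obtain ⟨a', ha'⟩ := q3
  obtain ⟨b', hb'⟩ := q4
  obtain ⟨c, hc⟩ := q2
  set e := (Sum_key D Q).1
  set f := (Sum_key D Q).2
  set x := Sum_rt D Q.A
  have t1 : P.B - Q.B = e * (a - a') := by linear_combination ha - ha'
  have t2 : P.B - Q.B = f * (b - b') := by linear_combination hb - hb'
  have t3 : 2 * x * (P.B - Q.B) = Q.A * (b * (a - a') - a * (b - b')) := by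
    rw [q1]
    linear_combination (P.B - Q.B) * hb - (P.B - Q.B) * ha + f * b * t1 - e * a * t2
  exact ⟨2 * x * (b * (a - a') - a * (b - b')) - 4 * c * (P.B - Q.B), by
    linear_combination 2 * x * t3 - 4 * (P.B - Q.B) * hc⟩

theorem nonvert_bound {D : ℤ} (hD : 0 < D) {s δ : ℝ} (hs : 1 < s) (hδ : 0 < δ) :
    ∃ C : ℝ, ∀ z : ℂ, δ ≤ z.im → ∀ T : Finset QF, (∀ Q ∈ T, Q.disc = D ∧ Q.A ≠ 0) →
      ∑ Q ∈ T, (1 + |Q.tt z|) ^ (-s) ≤ C := by
  obtain ⟨C, hC0, hC⟩ := Sum_shift hs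
  obtain ⟨K, hK0, hK⟩ := Sum_pt hD hδ
  have hD' : (0 : ℝ) < D := by exact_mod_cast hD
  have hD1 : (1 : ℝ) ≤ D := by exact_mod_cast hD
  have hz1 : Summable fun n : ℤ => |(n : ℝ)| ^ (-s) := Real.summable_abs_int_rpow hs
  have hp : ∀ n : ℤ, 0 ≤ |(n : ℝ)| ^ (-s) := fun n => Real.rpow_nonneg (abs_nonneg _) _
  have hz2 : Summable fun p : ℤ × ℤ => |(p.1 : ℝ)| ^ (-s) * |(p.2 : ℝ)| ^ (-s) :=
    hz1.mul_of_nonneg hz1 hp hp
  refine ⟨(8 * D * K) ^ s * C * ∑' p : ℤ × ℤ, |(p.1 : ℝ)| ^ (-s) * |(p.2 : ℝ)| ^ (-s),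
    fun z hz T hT => ?_⟩
  rw [← Finset.sum_fiberwise_of_maps_to (t := T.image (Sum_key D)) (g := Sum_key D)
    fun Q hQ => Finset.mem_image_of_mem _ hQ]
  refine le_trans ?_ (mul_le_mul_of_nonneg_left
    (hz2.sum_le_tsum (T.image (Sum_key D)) fun p _ => mul_nonneg (hp _) (hp _)) (by positivity))
  rw [Finset.mul_sum]
  refine Finset.sum_le_sum fun p hpT => ?_
  obtain ⟨Q, hQT, rfl⟩ := Finset.mem_image.1 hpT
  obtain ⟨hQ, hQ0⟩ := hT Q hQT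
  have hA' : (Q.A : ℝ) ≠ 0 := by exact_mod_cast hQ0
  have hApos : 0 < |(Q.A : ℝ)| := abs_pos.2 hA'
  set F := T.filter fun P => Sum_key D P = Sum_key D Q with hF
  have hF' : ∀ P ∈ F, P.disc = D ∧ P.A = Q.A ∧ Q.A * (4 * D * (P.B - Q.B) / Q.A) =
      4 * D * (P.B - Q.B) := by
    intro P hP
    obtain ⟨h1, h2⟩ := Finset.mem_filter.1 hP
    obtain ⟨h3, h4⟩ := Sum_key_dvd (hT P h1).1 (hT P h1).2 hQ hQ0 h2
    exact ⟨(hT P h1).1, h3, Int.mul_ediv_cancel' h4⟩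
  set u : ℝ := 8 * D * (z.re + Q.B / (2 * Q.A)) with hu
  have h1 : ∀ P ∈ F, (1 + |P.tt z|) ^ (-s) ≤ (8 * D * K) ^ s * |(Q.A : ℝ)| ^ (-s) *
      (1 + |u + ((4 * D * (P.B - Q.B) / Q.A : ℤ) : ℝ)|) ^ (-s) := by
    intro P hP
    obtain ⟨h2, h3, h4⟩ := hF' P hP
    rw [mul_assoc, ← Real.mul_rpow (abs_nonneg _) (by positivity)]
    refine Sum_rpow (by linarith) (by positivity) (by positivity) (by positivity) ?_
    have h5 := hK z hz P h2 (h3 ▸ hQ0)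
    rw [h3] at h5
    have h6 : u + ((4 * D * (P.B - Q.B) / Q.A : ℤ) : ℝ) = 8 * D * (z.re + P.B / (2 * Q.A)) := by
      have h7 : (Q.A : ℝ) * ((4 * D * (P.B - Q.B) / Q.A : ℤ) : ℝ) = 4 * D * (P.B - Q.B) := by
        exact_mod_cast h4
      rw [mul_comm, ← eq_div_iff hA'] at h7
      rw [hu, h7]
      field_simp
      ring
    rw [h6, abs_mul, abs_of_pos (a := 8 * (D : ℝ)) (by positivity)]
    have h8 : 1 + 8 * D * |z.re + P.B / (2 * Q.A)| ≤ 8 * D * (1 + |z.re + P.B / (2 * Q.A)|) := by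
      linarith
    calc |(Q.A : ℝ)| * (1 + 8 * D * |z.re + P.B / (2 * Q.A)|)
        ≤ |(Q.A : ℝ)| * (8 * D * (1 + |z.re + P.B / (2 * Q.A)|)) :=
          mul_le_mul_of_nonneg_left h8 hApos.le
      _ = 8 * D * (|(Q.A : ℝ)| * (1 + |z.re + P.B / (2 * Q.A)|)) := by ring
      _ ≤ 8 * D * (K * (1 + |P.tt z|)) := mul_le_mul_of_nonneg_left h5 (by positivity)
      _ = _ := by ring
  refine (Finset.sum_le_sum h1).trans ?_
  rw [← Finset.mul_sum]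
  have h9 := Finset.sum_image (s := F) (g := fun P : QF => 4 * D * (P.B - Q.B) / Q.A)
    (f := fun m : ℤ => (1 + |u + m|) ^ (-s)) (by
      intro P hP P' hP' h
      obtain ⟨a1, a2, a3⟩ := hF' P hP
      obtain ⟨b1, b2, b3⟩ := hF' P' hP'
      have hB : P.B = P'.B := by
        have h' : 4 * D * (P.B - Q.B) / Q.A = 4 * D * (P'.B - Q.B) / Q.A := h
        rw [h', b3] at a3
        have := mul_left_cancel₀ (show 4 * D ≠ 0 by omega) a3
        omega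
      refine QF.ext (a2.trans b2.symm) hB ?_
      rw [← b1, QF.disc, QF.disc, hB, a2, b2] at a1
      exact mul_left_cancel₀ (show 4 * Q.A ≠ 0 by omega) (by linarith))
  rw [← h9]
  have h10 : |(Q.A : ℝ)| ^ (-s) =
      |((Sum_key D Q).1 : ℝ)| ^ (-s) * |((Sum_key D Q).2 : ℝ)| ^ (-s) := by
    rw [← Real.mul_rpow (abs_nonneg _) (abs_nonneg _), ← abs_mul]
    congr 2
    exact_mod_cast (Sum_key_spec hQ hQ0).1
  rw [← h10]
  calc _ ≤ (8 * D * K) ^ s * |(Q.A : ℝ)| ^ (-s) * C :=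
        mul_le_mul_of_nonneg_left (hC _ _) (by positivity)
    _ = _ := by ring

theorem Sum_vert {D : ℤ} (hD : 0 < D) {s : ℝ} (hs : 1 < s) {z : ℂ} (hz : 0 < z.im) :
    ∃ C : ℝ, ∀ T : Finset QF, (∀ Q ∈ T, Q.disc = D ∧ Q.A = 0) →
      ∑ Q ∈ T, (1 + |Q.tt z|) ^ (-s) ≤ C := by
  obtain ⟨C, hC0, hC⟩ := Sum_shift hs
  have hD' : (0 : ℝ) < D := by exact_mod_cast hD
  have hr : 0 < √(D : ℝ) := Real.sqrt_pos.2 hD'
  set K : ℝ := 1 + z.im * √(D : ℝ) with hK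
  have hK0 : 0 < K := by positivity
  refine ⟨∑ _b ∈ Finset.Icc (-D) D, K ^ s * C, fun T hT => ?_⟩
  have hm : ∀ Q ∈ T, Q.B ∈ Finset.Icc (-D) D := by
    intro Q hQ
    obtain ⟨h1, h2⟩ := hT Q hQ
    rw [QF.disc, h2] at h1
    rw [Finset.mem_Icc]
    constructor <;> nlinarith [sq_nonneg (Q.B - 1), sq_nonneg (Q.B + 1)]
  rw [← Finset.sum_fiberwise_of_maps_to hm]
  refine Finset.sum_le_sum fun b _ => ?_
  set F := T.filter fun P => P.B = b with hF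
  have h1 : ∀ P ∈ F, (1 + |P.tt z|) ^ (-s) ≤ K ^ s * (1 + |b * z.re + P.C|) ^ (-s) := by
    intro P hP
    obtain ⟨h2, h3⟩ := Finset.mem_filter.1 hP
    obtain ⟨h4, h5⟩ := hT P h2
    refine Sum_rpow (by linarith) (by positivity) (by positivity) hK0 ?_
    have h6 : b * z.re + P.C = P.tt z * (z.im * √(D : ℝ)) := by
      rw [QF.tt, h4, div_mul_cancel₀ _ (by positivity), h5, h3]
      simp
    rw [h6, abs_mul, abs_of_pos (a := z.im * √(D : ℝ)) (by positivity), hK]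
    have h7 : 0 ≤ z.im * √(D : ℝ) := by positivity
    nlinarith [abs_nonneg (P.tt z)]
  refine (Finset.sum_le_sum h1).trans ?_
  rw [← Finset.mul_sum]
  have h9 := Finset.sum_image (s := F) (g := fun P : QF => P.C)
    (f := fun m : ℤ => (1 + |b * z.re + m|) ^ (-s)) (by
      intro P hP P' hP' h
      obtain ⟨a1, a2⟩ := Finset.mem_filter.1 hP
      obtain ⟨b1, b2⟩ := Finset.mem_filter.1 hP'
      exact QF.ext ((hT P a1).2.trans (hT P' b1).2.symm) (a2.trans b2.symm) h)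
  rw [← h9]
  exact mul_le_mul_of_nonneg_left (hC _ _) (by positivity)

theorem summable_tt {D : ℤ} (hD : 0 < D) {s : ℝ} (hs : 1 < s) {z : ℂ} (hz : 0 < z.im) :
    Summable fun Q : QF => if Q.disc = D then (1 + |Q.tt z|) ^ (-s) else 0 := by
  obtain ⟨C, hC⟩ := nonvert_bound hD hs hz
  obtain ⟨C', hC'⟩ := Sum_vert hD hs hz
  refine summable_of_sum_le (c := C' + C) (fun Q => ?_) fun T => ?_
  · dsimp only
    split_ifs
    · exact Real.rpow_nonneg (by positivity) _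
    · exact le_rfl
  · rw [← Finset.sum_filter, ← Finset.sum_filter_add_sum_filter_not _ fun Q : QF => Q.A = 0]
    refine add_le_add (hC' _ fun Q hQ => ?_) (hC z le_rfl _ fun Q hQ => ?_)
    · simp only [Finset.mem_filter] at hQ
      exact ⟨hQ.1.2, hQ.2⟩
    · simp only [Finset.mem_filter] at hQ
      exact ⟨hQ.1.2, hQ.2⟩

end Pool.Agent.P.MP_8b7eba_nt.R1
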