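import Pool.Agent.P.MP_8b7eba_nt.R1.QP

/-! Symmetric functions of permuted families. -/

namespace Pool.Agent.P.MP_8b7eba_nt.R1

open Complex Filter Topology MeasureTheory Metric Finset Asymptotics PowerSeries
open scoped Real UpperHalfPlane MatrixGroups ComplexConjugate
open _root_.Pool.Agent.P.MP_8b7eba_nt.Mod (M2 G0 FI L0 om lv xx yy qq UH atI ex mT)
open BSD15 (OO Good cls gch gJ nm cj rho lam Adm B3 B5 No4 Xp XJ Rn)
open MP_9c97e9_nt (Pt pm Is)

theorem sym_root {P : Ideal Zb} (hP : P.IsRadical) (s : Multiset ℂ)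
    (h : ∀ k, 0 < k → InP P (s.esymm k)) {x : ℂ} (hx : x ∈ s) : InP P x := by
  have h0 : s.esymm 0 = 1 := by simp [Multiset.esymm]
  have hi : ∀ k, IsIntegral ℤ (s.esymm k) := fun k => by
    rcases Nat.eq_zero_or_pos k with rfl | hk
    · rw [h0]; exact isIntegral_one
    · exact (h k hk).isIntegral
  have hm : ∀ k : ℕ, IsIntegral ℤ ((-1 : ℂ) ^ k) := fun k => isIntegral_one.neg.pow k
  have hc : 0 < s.card := Multiset.card_pos.2 fun e => by simp [e] at hx
  have he : Polynomial.eval x (s.map fun t => Polynomial.X - Polynomial.C t).prod = 0 := by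
    rw [Polynomial.eval_multiset_prod, Multiset.prod_eq_zero]
    simpa using ⟨x, hx, by simp⟩
  have hxi : IsIntegral ℤ x := by
    refine .of_aeval_monic_of_isIntegral_coeff (Polynomial.monic_multisetProd_X_sub_C s) ?_ ?_ ?_
    · rw [Polynomial.natDegree_multiset_prod_X_sub_C_eq_card]; omega
    · rw [he]; exact isIntegral_zero
    · intro k
      rcases le_or_gt k s.card with hk | hk
      · rw [Multiset.prod_X_sub_C_coeff s hk]; exact (hm _).mul (hi _)
      · rw [Polynomial.coeff_eq_zero_of_natDegree_lt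
          (by rwa [Polynomial.natDegree_multiset_prod_X_sub_C_eq_card])]
        exact isIntegral_zero
  rw [Multiset.prod_X_sub_X_eq_sum_esymm, Polynomial.eval_finsetSum, Finset.sum_range_succ'] at he
  simp only [Polynomial.eval_mul, Polynomial.eval_pow, Polynomial.eval_neg, Polynomial.eval_one,
    Polynomial.eval_C, Polynomial.eval_X, h0, pow_zero, one_mul, Nat.sub_zero] at he
  have h1 : InP P (x ^ s.card) := by
    rw [← neg_eq_of_add_eq_zero_right he]
    exact (InP.sum fun k _ =>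
      InP.mul_left (hm _) ((h _ k.succ_pos).mul_right (hxi.pow _))).neg
  exact ⟨⟨x, hxi⟩, hP ⟨s.card, (InP.coe (z := (⟨x, hxi⟩ : Zb) ^ s.card)).1 h1⟩, rfl⟩

theorem sym_mem_iff {P : Ideal Zb} {A : Zb⟦X⟧} :
    (∀ k, coeff k A ∈ P) ↔ A ∈ RingHom.ker (PowerSeries.map (Ideal.Quotient.mk P)) := by
  rw [RingHom.mem_ker, PowerSeries.ext_iff]
  simp [Ideal.Quotient.eq_zero_iff_mem]

theorem sym_principle {w : ℕ} (hw : 0 < w) {ι : Type} (s : Finset ι) (T : ι → ℂ → ℂ)
    {P : Ideal Zb} (hP : P.IsRadical) (hb : ∀ i ∈ s, HB (T i))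
    (hq : ∀ i ∈ s, ∃ N A, QE w N A (T i) ∧ ∀ k, coeff k A ∈ P)
    (hp : ∀ g, G0 g → ∃ e : ι → ι, Set.BijOn e s s ∧
      ∀ i ∈ s, ∀ z : ℂ, 0 < z.im → T i (g.act z) = T (e i) z)
    {z : ℂ} (hz : 0 < z.im) (hx : IntPt z) : ∀ i ∈ s, InP P (T i z) := by
  classical
  choose! N A hA using hq
  set L := ∑ i ∈ s, N i with hL
  have h1 : ∀ i ∈ s, QE w (w * L) (X ^ (w * L - N i) * A i) (T i) := fun i hi => by
    have h2 : N i ≤ w * L :=
      (Finset.single_le_sum (fun _ _ => Nat.zero_le _) hi).trans (Nat.le_mul_of_pos_left L hw)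
    simpa only [Nat.add_sub_cancel' h2] using (hA i hi).1.shift (w * L - N i)
  intro i hi
  refine sym_root hP (s.val.map fun j => T j z) (fun k hk => ?_) (Multiset.mem_map_of_mem _ hi)
  have hinv : ∀ g, G0 g → ∀ z : ℂ, 0 < z.im →
      ∑ t ∈ s.powersetCard k, ∏ j ∈ t, T j (g.act z) = ∑ t ∈ s.powersetCard k, ∏ j ∈ t, T j z := by
    intro g hg z hz
    obtain ⟨e, he, h⟩ := hp g hg
    have h2 : s.val.map e = s.val := by
      rw [← Finset.image_val_of_injOn he.injOn]
      congr 1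
      exact Finset.coe_injective (by rw [Finset.coe_image, he.image_eq])
    rw [← Finset.esymm_map_val, ← Finset.esymm_map_val]
    congr 1
    conv_rhs => rw [← h2, Multiset.map_map]
    exact Multiset.map_congr rfl fun j hj => h j hj z hz
  have h2 : QE w (w * (k * L)) (∑ t ∈ s.powersetCard k, ∏ j ∈ t, X ^ (w * L - N j) * A j)
      fun z => ∑ t ∈ s.powersetCard k, ∏ j ∈ t, T j z := by
    refine QE.sum _ fun t ht => ?_
    have h3 := Finset.mem_powersetCard.1 ht
    have h4 := QE.prod hw t fun j hj => h1 j (h3.1 hj)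
    rwa [Finset.sum_const, h3.2, smul_eq_mul, mul_left_comm] at h4
  have h3 : ∀ m, coeff m (∑ t ∈ s.powersetCard k, ∏ j ∈ t, X ^ (w * L - N j) * A j) ∈ P := by
    rw [sym_mem_iff]
    refine Ideal.sum_mem _ fun t ht => ?_
    have h3 := Finset.mem_powersetCard.1 ht
    obtain ⟨j, hj⟩ := Finset.card_pos.1 (h3.2 ▸ hk)
    exact Ideal.prod_mem _ hj (Ideal.mul_mem_left _ _ (sym_mem_iff.1 (hA j (h3.1 hj)).2))
  have h4 := (h2.periodic hw fun z hz => by
    simpa [Mod.act_mT] using hinv _ (Mod.G0_mT 1) z hz).2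
  rw [Finset.esymm_map_val]
  exact qp P (HB.sum _ fun t ht => HB.prod t fun j hj => hb j ((Finset.mem_powersetCard.1 ht).1 hj))
    hinv h4 (fun m => by rw [coeff_mk]; exact h3 _) hz hx

end Pool.Agent.P.MP_8b7eba_nt.R1
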