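import Pool.Agent.P.MP_8b7eba_nt.R1.FormC

/-! Unfolding the pairs when the second discriminant is a square. -/

namespace Pool.Agent.P.MP_8b7eba_nt.R1

open Complex Filter Topology MeasureTheory Metric Finset Asymptotics PowerSeries
open scoped Real UpperHalfPlane MatrixGroups ComplexConjugate
open _root_.Pool.Agent.P.MP_8b7eba_nt.Mod (M2 G0 FI L0 om lv xx yy qq UH atI ex mT)
open BSD15 (OO Good cls gch gJ nm cj rho lam Adm B3 B5 No4 Xp XJ Rn)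
open MP_9c97e9_nt (Pt pm Is)

/-- the Heegner form with given first two coefficients -/
def unfP (n e : ℕ) (B₁ : ℤ) : QF := ⟨15 * e, B₁, (B₁ ^ 2 + n) / (60 * e)⟩

/-- a matrix moving a Heegner form to the chosen representative -/
noncomputable def unfH (n : ℕ) [Good n] (ρ : ℤ) (P : QF) : M2 :=
  Classical.epsilon fun g => G0 g ∧ P.cmp g = hq n ρ (cls (P.idl n))

theorem unf_H {n : ℕ} [Good n] {ρ : ℤ} (hd : HD n ρ) {P : QF} (hP : Hg n ρ P) :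
    G0 (unfH n ρ P) ∧ P.cmp (unfH n ρ P) = hq n ρ (cls (P.idl n)) := by
  obtain ⟨g, h1, h2, -⟩ := exists_ht hd hP
  exact Classical.epsilon_spec (p := fun g => G0 g ∧ P.cmp g = hq n ρ (cls (P.idl n))) ⟨g, h1, h2⟩

theorem unf_P {n e : ℕ} {ρ B₁ : ℤ} (he : 0 < e) (h1 : (60 * e : ℤ) ∣ B₁ ^ 2 + n)
    (h2 : 30 ∣ B₁ - ρ) : Hg n ρ (unfP n e B₁) := by
  have h3 := Int.mul_ediv_cancel' h1
  refine ⟨⟨?_, ⟨e, rfl⟩, h2⟩, ?_⟩
  · simp only [unfP, QF.disc]; linear_combination -h3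
  · simp only [unfP]; positivity

theorem unf_mT (Q : QF) (k : ℤ) :
    Q.cmp (mT k) = ⟨Q.A, Q.B + 2 * Q.A * k, Q.A * k ^ 2 + Q.B * k + Q.C⟩ := by
  ext <;> simp [QF.cmp, QF.ev, mT]
  ring

theorem NN_unfold {n : ℕ} [Good n] {ρ : ℤ} (hd : HD n ρ) {κ : ℤ} (hκ : IsCoprime κ 15)
    {w : QF → ℤ} (h1 : ∀ Q, w Q ≠ 0 → Lv (κ ^ 2) κ Q) (h2 : ∀ Q g, G0 g → w (Q.cmp g) = w Q)
    {J : Finset ℕ} (hJ : J ⊆ n.primeFactors) (B : ℤ) :
    NN n ρ J w B = ∑ e ∈ ((B ^ 2 + n * κ ^ 2) / 60).toNat.divisors, XJ n J (15 * e) *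
      ∑ B₁ ∈ Finset.Ico (0 : ℤ) (30 * e),
        if (60 * e : ℤ) ∣ B₁ ^ 2 + n ∧ 30 ∣ B₁ - ρ ∧ (30 * e : ℤ) ∣ B₁ * κ - B then
          w ⟨0, κ, (B₁ * κ - B) / (30 * e)⟩ else 0 := by
  classical
  have hκ0 : κ ≠ 0 := by
    rintro rfl
    have := Int.isUnit_iff.1 (isCoprime_zero_left.1 hκ)
    omega
  have hn : 0 < (n : ℤ) := by have := (inferInstance : Good n).gt; omega
  set S : ClassGroup (OO n) → Finset QF := fun c =>
    (pair_finite (hq_spec hd c).1.2 (hq_spec hd c).1.disc_neg (κ ^ 2) B).toFinset with hS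
  have mS : ∀ c Q, Q ∈ S c ↔ Q.disc = κ ^ 2 ∧ (hq n ρ c).pair Q = B := fun c Q => by
    simp [hS]
  have e1 : ∀ c, (∑ᶠ Q : QF, if (hq n ρ c).pair Q = B then w Q else 0) = ∑ Q ∈ S c, w Q := by
    intro c
    rw [finsum_eq_sum_of_support_subset (s := S c)]
    · exact Finset.sum_congr rfl fun Q hQ => if_pos ((mS c Q).1 hQ).2
    · intro Q hQ
      simp only [Function.mem_support, ne_eq, ite_eq_right_iff, Classical.not_imp] at hQ
      exact (mS c Q).2 ⟨(h1 Q hQ.2).1, hQ.1⟩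
  set T : ℕ → Finset ℤ := fun e => (Finset.Ico (0 : ℤ) (30 * e)).filter fun B₁ =>
    (60 * e : ℤ) ∣ B₁ ^ 2 + n ∧ 30 ∣ B₁ - ρ ∧ (30 * e : ℤ) ∣ B₁ * κ - B with hT
  have e2 : ∀ e : ℕ, (∑ B₁ ∈ Finset.Ico (0 : ℤ) (30 * e),
      if (60 * e : ℤ) ∣ B₁ ^ 2 + n ∧ 30 ∣ B₁ - ρ ∧ (30 * e : ℤ) ∣ B₁ * κ - B then
        w ⟨0, κ, (B₁ * κ - B) / (30 * e)⟩ else 0) =
      ∑ B₁ ∈ T e, w ⟨0, κ, (B₁ * κ - B) / (30 * e)⟩ := fun e => (Finset.sum_filter _ _).symm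
  simp only [NN, e1, e2, Finset.mul_sum]
  rw [Finset.sum_sigma', Finset.sum_sigma']
  symm
  have mT' : ∀ {e : ℕ} {B₁ : ℤ}, B₁ ∈ T e → 0 < e ∧ Hg n ρ (unfP n e B₁) ∧ 0 ≤ B₁ ∧ B₁ < 30 * e ∧
      30 * e * ((B₁ * κ - B) / (30 * e)) = B₁ * κ - B := by
    intro e B₁ h
    simp only [hT, Finset.mem_filter, Finset.mem_Ico] at h
    have he : 0 < e := by omega
    exact ⟨he, unf_P he h.2.1 h.2.2.1, h.1.1, h.1.2, Int.mul_ediv_cancel' h.2.2.2⟩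
  have val : ∀ {e : ℕ} {B₁ : ℤ}, B₁ ∈ T e → ∀ V : QF, XJ n J (15 * e) * w V =
      gJ J (cls ((unfP n e B₁).idl n)) * w (V.cmp (unfH n ρ (unfP n e B₁))) := by
    intro e B₁ h V
    obtain ⟨-, hP, -⟩ := mT' h
    rw [h2 _ _ (unf_H hd hP).1, gJ_idl hJ hP.1.1]
    congr 2
  refine Finset.sum_bij_ne_zero (fun y _ _ => ⟨cls ((unfP n y.1 y.2).idl n),
    QF.cmp ⟨0, κ, (y.2 * κ - B) / (30 * y.1)⟩ (unfH n ρ (unfP n y.1 y.2))⟩) ?_ ?_ ?_ ?_
  · rintro ⟨e, B₁⟩ hy -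
    obtain ⟨-, hP, -, -, h5⟩ := mT' (Finset.mem_sigma.1 hy).2
    obtain ⟨g1, g2⟩ := unf_H hd hP
    refine Finset.mem_sigma.2 ⟨Finset.mem_univ _, (mS _ _).2 ⟨?_, ?_⟩⟩
    · simp only [QF.disc_cmp, g1.1]
      simp [QF.disc]
    · dsimp only at h5 ⊢
      rw [← g2, QF.pair_cmp, g1.1]
      simp only [QF.pair, unfP]
      linear_combination -h5
  · rintro ⟨e, B₁⟩ hy - ⟨e', B₁'⟩ hy' - h
    obtain ⟨-, hP, h3, h4, -⟩ := mT' (Finset.mem_sigma.1 hy).2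
    obtain ⟨-, hP', h3', h4', -⟩ := mT' (Finset.mem_sigma.1 hy').2
    obtain ⟨g1, g2⟩ := unf_H hd hP
    obtain ⟨g1', g2'⟩ := unf_H hd hP'
    simp only [Sigma.mk.injEq, heq_eq_eq] at h h3 h4 h3' h4' g1 g2 g1' g2' ⊢
    obtain ⟨hc, hQ⟩ := h
    obtain ⟨k, hk, -⟩ := vert_stab hκ0 (g1.mul g1'.adj).1
      (by rw [QF.cmp_mul, hQ, QF.cmp_adj g1'.1])
    have e3 : (unfP n e B₁).cmp (mT k) = unfP n e' B₁' := by
      have : (unfP n e B₁).cmp (unfH n ρ (unfP n e B₁) * (unfH n ρ (unfP n e' B₁')).adj) =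
          unfP n e' B₁' := by rw [QF.cmp_mul, g2, hc, ← g2', QF.cmp_adj g1'.1]
      rcases hk with hk | hk <;> rw [hk] at this
      · exact this
      · rwa [QF.cmp_neg] at this
    rw [unf_mT] at e3
    have eA := congrArg QF.A e3
    have eB := congrArg QF.B e3
    simp only [unfP] at eA eB
    obtain rfl : e = e' := by omega
    refine ⟨rfl, ?_⟩
    rcases lt_trichotomy k 0 with h | rfl | h
    · nlinarith
    · simpa using eB
    · nlinarith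
  · rintro ⟨c, Q⟩ hx h0
    obtain ⟨-, hB⟩ := (mS _ _).1 (Finset.mem_sigma.1 hx).2
    dsimp only at hB h0
    obtain ⟨g, hg, C, hC⟩ := exists_vert hκ (h1 Q (right_ne_zero_of_mul h0))
    obtain ⟨q1, q2, -⟩ := hq_spec hd c
    have hA := (q1.cmp hg).2
    set k : ℤ := -(((hq n ρ c).cmp g).B / (2 * ((hq n ρ c).cmp g).A)) with hk
    have hg' : G0 (g * mT k) := hg.mul (Mod.G0_mT k)
    have hP := q1.cmp hg'
    have hV : Q.cmp (g * mT k) = ⟨0, κ, κ * k + C⟩ := by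
      rw [QF.cmp_mul, hC, unf_mT]; simp
    have hr : 0 ≤ ((hq n ρ c).cmp (g * mT k)).B ∧
        ((hq n ρ c).cmp (g * mT k)).B < 2 * ((hq n ρ c).cmp (g * mT k)).A := by
      have a1 := Int.emod_nonneg ((hq n ρ c).cmp g).B (by omega : 2 * ((hq n ρ c).cmp g).A ≠ 0)
      have a2 := Int.emod_lt_of_pos ((hq n ρ c).cmp g).B (by omega : 0 < 2 * ((hq n ρ c).cmp g).A)
      have a3 := Int.emod_add_mul_ediv ((hq n ρ c).cmp g).B (2 * ((hq n ρ c).cmp g).A)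
      rw [QF.cmp_mul, unf_mT, hk]
      constructor <;> dsimp only <;> linarith
    have hp : ((hq n ρ c).cmp (g * mT k)).pair ⟨0, κ, κ * k + C⟩ = B := by
      rw [← hV, QF.pair_cmp, hg'.1, hB]; ring
    have hc : cls (((hq n ρ c).cmp (g * mT k)).idl n) = c := by rw [cls_cmp q1.1.1 hg'.1, q2]
    have hs : ∀ h, G0 h → ((hq n ρ c).cmp (g * mT k)).cmp h = hq n ρ c →
        QF.cmp ⟨0, κ, κ * k + C⟩ h = Q := by
      intro h hh e
      rw [← QF.cmp_mul] at e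
      rw [← hV, ← QF.cmp_mul]
      rcases stab q1.1.1 (hg'.mul hh).1 e with e | e <;> rw [e] <;> simp
    generalize (hq n ρ c).cmp (g * mT k) = P at hP hr hp hc hs
    generalize κ * k + C = C' at hp hs
    obtain ⟨A, B₁, C₁⟩ := P
    obtain ⟨⟨p1, ⟨e, p2⟩, p3⟩, p4⟩ := id hP
    simp only [QF.disc, QF.pair] at p1 p2 p3 p4 hr hp
    lift e to ℕ using by omega
    subst p2
    have he : (0 : ℤ) < e := by omega
    have d1 : B₁ ^ 2 + n = 60 * e * C₁ := by linear_combination p1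
    have d2 : B₁ * κ - B = 30 * e * C' := by linear_combination hp
    have d3 : B ^ 2 + n * κ ^ 2 = 60 * (e * (κ ^ 2 * C₁ - C' * B₁ * κ + 15 * e * C' ^ 2)) := by
      have : B = B₁ * κ - 30 * e * C' := by linear_combination -d2
      rw [this]; linear_combination κ ^ 2 * d1
    have d4 : 0 < B ^ 2 + n * κ ^ 2 := by positivity
    have eP : unfP n e B₁ = ⟨15 * e, B₁, C₁⟩ := by
      rw [unfP, d1, Int.mul_ediv_cancel_left _ (by omega)]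
    have eC : (B₁ * κ - B) / (30 * e) = C' := by rw [d2, Int.mul_ediv_cancel_left _ (by omega)]
    have mem : B₁ ∈ T e := by
      simp only [hT, Finset.mem_filter, Finset.mem_Ico]
      exact ⟨⟨hr.1, by omega⟩, ⟨_, d1⟩, p3, ⟨_, d2⟩⟩
    have eQ : QF.cmp ⟨0, κ, C'⟩ (unfH n ρ (unfP n e B₁)) = Q := by
      rw [eP]
      exact hs _ (unf_H hd hP).1 (by rw [(unf_H hd hP).2, hc])
    refine ⟨⟨e, B₁⟩, Finset.mem_sigma.2 ⟨Nat.mem_divisors.2 ⟨?_, ?_⟩, mem⟩, ?_, ?_⟩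
    · rw [← Int.natCast_dvd_natCast, Int.toNat_of_nonneg (by omega), d3,
        Int.mul_ediv_cancel_left _ (by norm_num)]
      exact dvd_mul_right _ _
    · omega
    · dsimp only
      rw [val mem, eC, eQ, eP, hc]
      exact h0
    · dsimp only
      rw [eC, eQ, eP, hc]
  · rintro ⟨e, B₁⟩ hy -
    exact val (Finset.mem_sigma.1 hy).2 _

end Pool.Agent.P.MP_8b7eba_nt.R1
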