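import Pool.Agent.P.MP_8b7eba_nt.R1.Basic

/-! The number of points modulo an auxiliary prime. -/

namespace Pool.Agent.P.MP_8b7eba_nt.R1

open Complex Filter Topology MeasureTheory Metric Finset Asymptotics PowerSeries
open scoped Real UpperHalfPlane MatrixGroups ComplexConjugate
open _root_.Pool.Agent.P.MP_8b7eba_nt.Mod (M2 G0 FI L0 om lv xx yy qq UH atI ex mT)
open BSD15 (OO Good cls gch gJ nm cj rho lam Adm B3 B5 No4 Xp XJ Rn)
open MP_9c97e9_nt (Pt pm Is)

theorem val4A_group {G : Type} [AddCommGroup G] [Finite G]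
    (h2 : Nat.card {x : G // x + x = 0} = 4) (hh : ∀ x : G, x + x = 0 → ∃ y, y + y = x)
    (h8 : ∀ x y z : G, x + x = y → y + y = z → z + z = 0 → z = 0) : Nat.card G % 32 = 16 := by
  let d : G →+ G := AddMonoidHom.id G + AddMonoidHom.id G
  let q : G →+ G := d.comp d
  have k2 : Nat.card d.ker = 4 := h2
  have le : d.ker ≤ q.ker := fun x hx => by
    rw [AddMonoidHom.mem_ker] at hx ⊢
    rw [AddMonoidHom.comp_apply, hx, map_zero]
  have k4 : Nat.card q.ker = 16 := by
    have h := (d.comp q.ker.subtype).ker.card_mul_index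
    have r : (d.comp q.ker.subtype).range = d.ker := by
      ext x
      constructor
      · rintro ⟨y, rfl⟩
        exact y.2
      · intro hx
        obtain ⟨y, rfl⟩ := hh x hx
        exact ⟨⟨y, hx⟩, rfl⟩
    rw [AddSubgroup.index_ker, r, k2, show (d.comp q.ker.subtype).ker = d.ker.addSubgroupOf q.ker
      from rfl, Nat.card_congr (AddSubgroup.addSubgroupOfEquivOfLe le).toEquiv, k2] at h
    exact h.symm
  have h := q.ker.card_mul_index
  rw [AddSubgroup.index_ker, k4] at h
  have ho : ¬ 2 ∣ Nat.card q.range := fun h0 => by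
    obtain ⟨⟨_, x, rfl⟩, hx⟩ := exists_prime_addOrderOf_dvd_card' 2 h0
    have e := addOrderOf_nsmul_eq_zero (⟨q x, x, rfl⟩ : q.range)
    rw [hx, two_nsmul] at e
    have e' : q x = 0 := h8 x _ _ rfl rfl (congrArg Subtype.val e)
    rw [show (⟨q x, x, rfl⟩ : q.range) = 0 from Subtype.ext e', addOrderOf_zero] at hx
    omega
  omega

section
open Classical MP_9c97e9_nt

variable {F : Type} [Field F]

theorem val4A_half {W : WeierstrassCurve ℤ} {e₁ e₂ e₃ x u v w : F} (h : Split W e₁ e₂ e₃)
    {Q : Pt W F} (hQ : Is Q x 0) (hu : u ^ 2 = x - e₁) (hv : v ^ 2 = x - e₂) (hw : w ^ 2 = x - e₃) :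
    ∃ R, R + R = Q := by
  have n1 : u + v ≠ 0 := fun e => h.n12 (by linear_combination hu - hv - (u - v) * e)
  have n2 : u + w ≠ 0 := fun e => h.n13 (by linear_combination hu - hw - (u - w) * e)
  have n3 : v + w ≠ 0 := fun e => h.n23 (by linear_combination hv - hw - (v - w) * e)
  have a1 : x + u * v + u * w + v * w - e₁ = (u + v) * (u + w) := by linear_combination -hu
  have a2 : x + u * v + u * w + v * w - e₂ = (u + v) * (v + w) := by linear_combination -hv
  have a3 : x + u * v + u * w + v * w - e₃ = (u + w) * (v + w) := by linear_combination -hw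
  obtain ⟨R, hR⟩ := h.exists_is (x := x + u * v + u * w + v * w)
    (η := 2 * ((u + v) * (u + w) * (v + w))) (by rw [a1, a2, a3]; ring)
  have h2 := h.two
  obtain ⟨x', η', h3⟩ := (zero_or_is _).resolve_left ((hR.two_ne h).2 (by positivity))
  have h4 : UU e₁ e₂ e₃ R = u := by
    rw [hR.UU_eq, a1, show e₁ - e₂ = v ^ 2 - u ^ 2 by linear_combination hu - hv,
      show e₁ - e₃ = w ^ 2 - u ^ 2 by linear_combination hu - hw]
    field_simp
    ring
  obtain rfl : x' = x := by linear_combination UU_sq h h3 + (UU e₁ e₂ e₃ R + u) * h4 + hu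
  obtain rfl : η' = 0 := by
    have := (h3.eq h).trans (hQ.eq h).symm
    simpa using this
  exact ⟨R, h3.unique h hQ⟩

theorem val4A_root {W : WeierstrassCurve ℤ} {e₁ e₂ e₃ x η : F} (h : Split W e₁ e₂ e₃)
    {R : Pt W F} (hR : Is R x η) (hT : Is (R + R) e₁ 0) :
    (x - e₁) ^ 2 = (e₁ - e₂) * (e₁ - e₃) := by
  have h0 := (hR.two_ne h).1 hT.ne_zero
  have h1 := UU_sq h hT
  rw [sub_self, eq_comm, sq_eq_zero_iff, hR.UU_eq, div_eq_zero_iff] at h1
  exact sub_eq_zero.1 (h1.resolve_right h0)

theorem val4A_nsq {c a s : F} (hc : ¬ IsSquare c) (ha : a ≠ 0) (h : c * a ^ 2 = s ^ 2) : False :=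
  hc ⟨s / a, by field_simp; linear_combination h⟩

theorem val4A_card [Finite (Pt W15 F)] (h : Split W15 (0 : F) (-9) 16) {i r : F} (hi : i ^ 2 = -1)
    (hr : r ^ 2 = 2) (h3 : ¬ IsSquare (3 : F)) (h5 : ¬ IsSquare (5 : F)) :
    Nat.card (Pt W15 F) % 32 = 16 := by
  obtain ⟨A, hA⟩ := h.exists_is (x := 0) (η := 0) (by simp)
  obtain ⟨B, hB⟩ := h.exists_is (x := -9) (η := 0) (by simp)
  obtain ⟨C, hC⟩ := h.exists_is (x := 16) (η := 0) (by simp)
  have n2 := h.two
  have n3 : (3 : F) ≠ 0 := fun e => h3 (e ▸ IsSquare.zero)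
  have ni : i ≠ 0 := fun e => by simp [e] at hi
  have nr : r ≠ 0 := fun e => n2 (by simpa [e] using hr.symm)
  refine val4A_group ?_ (fun T hT => ?_) fun H R T e1 e2 hT => ?_
  · have e : {x : Pt W15 F | x + x = 0} = ({0, A, B, C} : Finset (Pt W15 F)) := by
      ext T
      simp only [Set.mem_ofPred_eq, Finset.coe_insert, Finset.coe_singleton, Set.mem_insert_iff,
        Set.mem_singleton_iff]
      refine ⟨fun hT => (two_torsion h hT).imp_right (Or.imp (·.unique h hA)
        (Or.imp (·.unique h hB) (·.unique h hC))), ?_⟩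
      rintro (rfl | rfl | rfl | rfl)
      · exact add_zero _
      · exact hA.add_eq_zero h (by simpa using hA)
      · exact hB.add_eq_zero h (by simpa using hB)
      · exact hC.add_eq_zero h (by simpa using hC)
    have ab : A ≠ B := fun e => h.n12 (sub_eq_zero.2 (hA.inj (e ▸ hB)).1)
    have ac : A ≠ C := fun e => h.n13 (sub_eq_zero.2 (hA.inj (e ▸ hC)).1)
    have bc : B ≠ C := fun e => h.n23 (sub_eq_zero.2 (hB.inj (e ▸ hC)).1)
    change Nat.card {x : Pt W15 F | x + x = 0} = 4
    rw [e, Nat.card_coe_set_eq, Set.ncard_coe_finset, Finset.card_eq_four]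
    exact ⟨_, _, _, _, hA.ne_zero.symm, hB.ne_zero.symm, hC.ne_zero.symm, ab, ac, bc, rfl⟩
  · rcases two_torsion h hT with rfl | h1 | h1 | h1
    · exact ⟨0, add_zero _⟩
    · exact val4A_half h h1 (u := 0) (v := 3) (w := 4 * i) (by ring) (by ring)
        (by linear_combination 16 * hi)
    · exact val4A_half h h1 (u := 3 * i) (v := 0) (w := 5 * i) (by linear_combination 9 * hi)
        (by ring) (by linear_combination 25 * hi)
    · exact val4A_half h h1 (u := 4) (v := 5) (w := 0) (by ring) (by ring) (by ring)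
  · by_contra h0
    subst e2
    obtain ⟨x, η, hR⟩ := (zero_or_is R).resolve_left fun e => h0 (by simp [e])
    have s1 := UU_sq h (e1 ▸ hR)
    have s2 := UU_sq h.swap (e1 ▸ hR)
    generalize UU (0 : F) (-9) 16 H = s at s1
    generalize UU (-9 : F) 0 16 H = t at s2
    rcases (two_torsion h hT).resolve_left h0 with h1 | h1 | h1
    · have k := val4A_root h hR h1
      have nt : t ≠ 0 := fun e => (hR.two_ne h).1 h0 (by
        have := hR.eq h
        rw [s2, e] at this
        simpa using this)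
      exact val4A_nsq h3 (a := 2 * 2 * t) (s := 24 + x) (by positivity)
        (by linear_combination -48 * s2 - k)
    · have k := val4A_root h.swap hR h1
      rcases mul_eq_zero.1 (show (x - 6) * (x + 24) = 0 by linear_combination k) with e | e
      · exact val4A_nsq h3 nr (s := s) (by linear_combination 3 * hr + s1 - e)
      · exact val4A_nsq h3 (a := 2 * i * r) (s := s) (by positivity)
          (by linear_combination 12 * r ^ 2 * hi - 12 * hr + s1 - e)
    · have k := val4A_root h.swap'.swap hR h1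
      rcases mul_eq_zero.1 (show (x - 36) * (x + 4) = 0 by linear_combination k) with e | e
      · exact val4A_nsq h5 n3 (s := t) (by linear_combination s2 - e)
      · exact val4A_nsq h5 one_ne_zero (s := t) (by linear_combination s2 - e)

theorem val4A_equiv (h : Split W15 (0 : F) (-9) 16) :
    Nonempty (Pt W15 F ≃ Option {q : F × F // q.2 ^ 2 = q.1 ^ 3 - 7 * q.1 ^ 2 - 144 * q.1}) := by
  refine ⟨(WeierstrassCurve.Affine.nonsingularPointEquiv _).trans
    (Equiv.optionCongr (Equiv.subtypeEquivRight fun q => ⟨fun e => ?_, fun e => ?_⟩))⟩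
  · have := (h.equation _ _).1 e.1
    simp only [W15, Int.cast_zero] at this
    exact mul_left_cancel₀ h.four (by linear_combination this)
  · refine h.nonsingular ?_
    simp only [W15, Int.cast_zero]
    linear_combination 4 * e

end

theorem card_mod {l : ℕ} (hl : l.Prime) (h8 : l % 8 = 1) (h3 : l % 3 = 2)
    (h5 : l % 5 = 2 ∨ l % 5 = 3) : (l + 1 - Mod.an l) % 32 = 16 := by
  have := Fact.mk hl
  have hp : 5 < l := by have := hl.one_lt; omega
  have hodd : Odd l := Nat.odd_iff.2 (by omega)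
  have n2 : (2 : ZMod l) ≠ 0 := by simpa using Mod.cast_ne hp (a := 1) (b := 0) (c := 0)
  have n4 : (4 : ZMod l) ≠ 0 := by simpa using Mod.cast_ne hp (a := 2) (b := 0) (c := 0)
  have n9 : (9 : ZMod l) ≠ 0 := by simpa using Mod.cast_ne hp (a := 0) (b := 2) (c := 0)
  have n16 : (16 : ZMod l) ≠ 0 := by simpa using Mod.cast_ne hp (a := 4) (b := 0) (c := 0)
  have n25 : (25 : ZMod l) ≠ 0 := by simpa using Mod.cast_ne hp (a := 0) (b := 0) (c := 2)
  have hS : MP_9c97e9_nt.Split W15 (0 : ZMod l) (-9) 16 :=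
    ⟨n2, by simpa using n9, by simpa using n16, fun e => n25 (by linear_combination -e),
      by simp [W15]; norm_num, by simp [W15]; norm_num, by simp [W15]⟩
  obtain ⟨i, hi⟩ := (ZMod.exists_sq_eq_neg_one_iff (p := l)).2 (by omega)
  obtain ⟨r, hr⟩ := (ZMod.exists_sq_eq_two_iff (p := l) (by omega)).2 (.inl h8)
  have q3 : ¬ IsSquare (3 : ZMod l) := by
    have h : jacobiSym ((3 : ℕ) : ℤ) l = -1 := by
      rw [jacobiSym.quadratic_reciprocity_one_mod_four' (by decide) (by omega), jacobiSym.mod_left,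
        show (l : ℤ) % ((3 : ℕ) : ℤ) = 2 by omega]
      norm_num
    simpa using ZMod.nonsquare_of_jacobiSym_eq_neg_one h
  have q5 : ¬ IsSquare (5 : ZMod l) := by
    have h : jacobiSym ((5 : ℕ) : ℤ) l = -1 := by
      rw [jacobiSym.quadratic_reciprocity_one_mod_four' (by decide) (by omega), jacobiSym.mod_left]
      rcases h5 with h5 | h5
      · rw [show (l : ℤ) % ((5 : ℕ) : ℤ) = 2 by omega]; norm_num
      · rw [show (l : ℤ) % ((5 : ℕ) : ℤ) = 3 by omega]; norm_num
    simpa using ZMod.nonsquare_of_jacobiSym_eq_neg_one h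
  obtain ⟨e⟩ := val4A_equiv hS
  have : Finite (Pt W15 (ZMod l)) := Finite.of_equiv _ e.symm
  have h := val4A_card hS (i := i) (r := r) (by rw [sq, ← hi]) (by rw [sq, ← hr]) q3 q5
  rw [Nat.card_congr e, Finite.card_option] at h
  have h1 := Mod.card_affine (p := l) (by omega) fun x => x ^ 3 - 7 * x ^ 2 - 144 * x
  have h2 : ∑ x : ZMod l, quadraticChar (ZMod l) (x ^ 3 - 7 * x ^ 2 - 144 * x) = Mod.Sp l := by
    rw [Mod.Sp, ← Equiv.sum_comp (Equiv.mulLeft₀ _ n4)]
    refine sum_congr rfl fun t _ => ?_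
    rw [← one_mul (quadraticChar (ZMod l) (4 * t ^ 3 - _ - _)), ← quadraticChar_sq_one' n4,
      ← map_mul]
    congr 1
    simp only [Equiv.mulLeft₀_apply]
    ring
  rw [h2] at h1
  rw [Mod.an_eq_neg_Sp hp]
  omega

end Pool.Agent.P.MP_8b7eba_nt.R1
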