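import Pool.Agent.P.MP_8b7eba_nt.R1.One
import Pool.Agent.P.MP_8b7eba_nt.R1.Sum
import Pool.Agent.P.MP_8b7eba_nt.R1.FormC

/-! The Green functions of geodesic cycles. -/

namespace Pool.Agent.P.MP_8b7eba_nt.R1

open Complex Filter Topology MeasureTheory Metric Finset Asymptotics PowerSeries
open scoped Real UpperHalfPlane MatrixGroups ComplexConjugate
open _root_.Pool.Agent.P.MP_8b7eba_nt.Mod (M2 G0 FI L0 om lv xx yy qq UH atI ex mT)
open BSD15 (OO Good cls gch gJ nm cj rho lam Adm B3 B5 No4 Xp XJ Rn)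
open MP_9c97e9_nt (Pt pm Is)

variable {D : ℤ} {w : QF → ℤ} {s r : ℝ} {z : ℂ} {g : M2}

theorem Vf_bound (h1 : ∀ Q, w Q ≠ 0 → Q.disc = D) (h2 : ∀ Q, |w Q| ≤ 4) {x y c : ℝ} (Q : QF)
    (hc : 0 ≤ c) (hy : 0 ≤ y) (h : Q.disc = D → |x| ≤ c * y) :
    ‖(w Q : ℝ) * x‖ ≤ 4 * c * (if Q.disc = D then y else 0) := by
  by_cases h0 : w Q = 0
  · rw [h0, Int.cast_zero, zero_mul, norm_zero]
    split_ifs <;> positivity
  · have h3 : |(w Q : ℝ)| ≤ 4 := by exact_mod_cast h2 Q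
    rw [if_pos (h1 Q h0), Real.norm_eq_abs, abs_mul, mul_assoc]
    exact mul_le_mul h3 (h (h1 Q h0)) (abs_nonneg _) (by norm_num)

theorem summable_VV (hD : 0 < D) (h1 : ∀ Q, w Q ≠ 0 → Q.disc = D) (h2 : ∀ Q, |w Q| ≤ 4)
    (hs : 1 < s) (hs' : s ≤ 2) (hz : 0 < z.im) :
    Summable fun Q : QF => (w Q : ℝ) * gg s (Q.tt z) :=
  Summable.of_norm_bounded ((summable_tt hD hs hz).mul_left (4 * 4)) fun Q =>
    Vf_bound h1 h2 Q (by norm_num) (by positivity) fun _ => abs_gg_le hs.le hs' _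

theorem VV_act (w : QF → ℤ) (s : ℝ) (hg : g.det = 1) (hz : 0 < z.im) :
    VV w s (g.act z) = VV (fun Q => w (Q.cmp g.adj)) s z := by
  unfold VV
  rw [← (QF.cmpE hg).tsum_eq fun Q => (w (Q.cmp g.adj) : ℝ) * gg s (Q.tt z)]
  refine tsum_congr fun Q => ?_
  rw [QF.cmpE_apply, QF.cmp_adj hg, QF.tt_cmp Q (by rw [hg]; exact one_pos) hz]

theorem VV_G0 (hw : Wt D w) (s : ℝ) (hg : G0 g) (hz : 0 < z.im) :
    VV w s (g.act z) = VV w s z := by
  rw [VV_act w s hg.1 hz]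
  congr 1
  funext Q
  exact hw.inv Q _ hg.adj

theorem Vf_meas (hs : 1 < s) (Q : QF) : Measurable fun u : ℍ => gg s (Q.tt u) :=
  (gg_meas hs.le).comp (tt_cont Q).measurable

theorem VV_meas (hw : Wt D w) (hs : 1 < s) (hs' : s ≤ 2) :
    Measurable fun u : ℍ => VV w s u := by
  have _ := hw
  have _ := hs'
  exact Measurable.tsum fun Q : QF => (Vf_meas hs Q).const_mul (w Q : ℝ)

theorem VV_mir (h : ∀ Q, w Q.mir = w Q) (s : ℝ) (z : ℂ) : VV w s (-conj z) = -VV w s z := by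
  unfold VV
  have hi : Function.Involutive QF.mir := QF.mir_mir
  rw [← tsum_neg, ← hi.toPerm.tsum_eq fun Q => -((w Q : ℝ) * gg s (Q.tt z))]
  refine tsum_congr fun Q => ?_
  rw [Function.Involutive.coe_toPerm, h, QF.tt_mir, gg_neg, mul_neg, neg_neg]

theorem Vf_av_congr {f f' : ℍ → ℝ} {z : ℍ} (h : ∀ u ∈ ball z r, f u = f' u) :
    av r f z = av r f' z :=
  setAverage_congr_fun measurableSet_ball (Eventually.of_forall h)

theorem Vf_av_sum {ι : Type} (T : Finset ι) {f : ι → ℍ → ℝ} {z : ℍ}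
    (h : ∀ i ∈ T, IntegrableOn (f i) (ball z r)) :
    av r (fun u => ∑ i ∈ T, f i u) z = ∑ i ∈ T, av r (f i) z := by
  unfold av
  simp only [setAverage_eq]
  rw [integral_finsetSum T h, Finset.smul_sum]

theorem Vf_ball_le {Q : QF} (hD : 0 < Q.disc) (hs : 1 < s) (hs' : s ≤ 2) {z u : ℍ}
    (hu : u ∈ ball z r) :
    |gg s (Q.tt u)| ≤ 4 * (2 * Real.cosh r) ^ s * (1 + |Q.tt z|) ^ (-s) := by
  have hc : 0 < 2 * Real.cosh r := by have := Real.cosh_pos r; positivity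
  have h1 := tt_comp hD hu
  have h2 : (2 * Real.cosh r * (1 + |Q.tt u|)) ^ (-s) ≤ (1 + |Q.tt z|) ^ (-s) :=
    Real.rpow_le_rpow_of_nonpos (by positivity) h1 (by linarith)
  rw [Real.mul_rpow hc.le (by positivity), Real.rpow_neg hc.le,
    inv_mul_le_iff₀ (Real.rpow_pos_of_pos hc s)] at h2
  refine (abs_gg_le hs.le hs' _).trans ?_
  rw [mul_assoc]
  exact mul_le_mul_of_nonneg_left h2 (by norm_num)

theorem Vf_hasSum (hw : Wt D w) (hs : 1 < s) (hs' : s ≤ 2) (z : ℍ) :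
    HasSum (fun Q : QF => av r (fun u => (w Q : ℝ) * gg s (Q.tt u)) z)
      (av r (fun u => VV w s u) z) := by
  have h2 : ∀ Q, |w Q| ≤ 4 := fun Q => (hw.le Q).trans (by norm_num)
  have hc : 0 ≤ 4 * (2 * Real.cosh r) ^ s := by have := Real.cosh_pos r; positivity
  have hb : ∀ Q : QF, ∀ u ∈ ball z r, ‖(w Q : ℝ) * gg s (Q.tt u)‖ ≤
      4 * (4 * (2 * Real.cosh r) ^ s) * (if Q.disc = D then (1 + |Q.tt z|) ^ (-s) else 0) :=
    fun Q u hu => Vf_bound hw.disc h2 Q hc (by positivity) fun hQ =>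
      Vf_ball_le (hQ ▸ hw.pos) hs hs' hu
  have hi : ∀ Q : QF, IntegrableOn (fun u : ℍ => (w Q : ℝ) * gg s (Q.tt u)) (ball z r) :=
    fun Q => integrableOn_ball_of_le ((Vf_meas hs Q).const_mul _) (hb Q)
  have hsum : Summable fun Q : QF => ∫ u in ball z r, ‖(w Q : ℝ) * gg s (Q.tt u)‖ := by
    refine Summable.of_norm_bounded (((summable_tt hw.pos hs z.im_pos).mul_left
      (4 * (4 * (2 * Real.cosh r) ^ s))).mul_right (volume.real (ball z r))) fun Q => ?_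
    exact norm_setIntegral_le_of_norm_le_const (vol_ball_lt_top r z) fun u hu => by
      rw [norm_norm]; exact hb Q u hu
  have h3 := (hasSum_integral_of_summable_integral_norm hi hsum).const_smul
    (volume.real (ball z r))⁻¹
  unfold av
  simp only [setAverage_eq]
  exact h3

theorem Vf_corr_int (hs : 1 < s) (Q : QF) (z : ℍ) : IntegrableOn
    (fun u : ℍ => ee s (Q.tt u) * ((sn (Q.tt u) - sn (Q.tt z)) / 2)) (ball z r) := by
  have h1 : Continuous fun u : ℍ => ee s (Q.tt u) := (ee_cont hs.le).comp (tt_cont Q)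
  have h2 : Measurable fun u : ℍ => (sn (Q.tt u) - sn (Q.tt z)) / 2 :=
    ((sn_meas.comp (tt_cont Q).measurable).sub_const _).div_const _
  refine Integrable.mono' (integrableOn_ball h1 z r).norm (h1.measurable.mul h2).aestronglyMeasurable
    (Eventually.of_forall fun u => ?_)
  rw [norm_mul]
  refine mul_le_of_le_one_right (norm_nonneg _) ?_
  have a := abs_le.1 (abs_sn_le (Q.tt u))
  have b := abs_le.1 (abs_sn_le (Q.tt z))
  rw [Real.norm_eq_abs, abs_le]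
  constructor <;> linarith [a.1, a.2, b.1, b.2]

theorem av_VV (hw : Wt D w) (hr : 0 < r) (hs : 1 < s) (hs' : s ≤ 2) (z : ℍ) :
    av r (fun u => VV w s u) z = kk r s * VV w s z + av r (fun u =>
      ∑ᶠ Q : QF, w Q * (ee s (Q.tt u) * ((sn (Q.tt u) - sn (Q.tt z)) / 2))) z := by
  have h2 : ∀ Q, |w Q| ≤ 4 := fun Q => (hw.le Q).trans (by norm_num)
  have hT := finite_ball hw.pos z r
  have h0 : ∀ Q ∉ hT.toFinset, ∀ u ∈ ball z r,
      (w Q : ℝ) * (ee s (Q.tt u) * ((sn (Q.tt u) - sn (Q.tt z)) / 2)) = 0 := by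
    intro Q hQ u hu
    by_cases h : w Q = 0
    · rw [h, Int.cast_zero, zero_mul]
    · have : sn (Q.tt u) = sn (Q.tt z) := by
        by_contra h'
        exact hQ (hT.mem_toFinset.2 ⟨hw.disc Q h, u, hu, h'⟩)
      rw [this, sub_self, zero_div, mul_zero, mul_zero]
  have e1 : av r (fun u => ∑ᶠ Q : QF,
      (w Q : ℝ) * (ee s (Q.tt u) * ((sn (Q.tt u) - sn (Q.tt z)) / 2))) z =
      ∑ Q ∈ hT.toFinset,
        av r (fun u => (w Q : ℝ) * (ee s (Q.tt u) * ((sn (Q.tt u) - sn (Q.tt z)) / 2))) z := by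
    rw [← Vf_av_sum _ fun Q _ => (Vf_corr_int hs Q z).const_mul _]
    refine Vf_av_congr fun u hu => finsum_eq_sum_of_support_subset _ fun Q hQ => ?_
    by_contra h
    exact hQ (h0 Q h u hu)
  have s1 : HasSum (fun Q : QF =>
      av r (fun u => (w Q : ℝ) * (ee s (Q.tt u) * ((sn (Q.tt u) - sn (Q.tt z)) / 2))) z)
      (∑ Q ∈ hT.toFinset,
        av r (fun u => (w Q : ℝ) * (ee s (Q.tt u) * ((sn (Q.tt u) - sn (Q.tt z)) / 2))) z) :=
    hasSum_sum_of_ne_finset_zero fun Q hQ => by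
      rw [Vf_av_congr (h0 Q hQ), av_const hr]
  have s2 := ((summable_VV hw.pos hw.disc h2 hs hs' z.im_pos).hasSum.mul_left (kk r s)).add s1
  rw [e1]
  refine (Vf_hasSum hw hs hs' z).unique ?_
  have e2 : (fun Q : QF => av r (fun u => (w Q : ℝ) * gg s (Q.tt u)) z) = fun Q : QF =>
      kk r s * ((w Q : ℝ) * gg s (Q.tt z)) +
        av r (fun u => (w Q : ℝ) * (ee s (Q.tt u) * ((sn (Q.tt u) - sn (Q.tt z)) / 2))) z := by
    funext Q
    rw [av_mul, av_mul]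
    by_cases h : w Q = 0
    · rw [h, Int.cast_zero, zero_mul, zero_mul, zero_mul, mul_zero, add_zero]
    · rw [av_gg (hw.disc Q h ▸ hw.pos) hr hs.le]
      ring
  rw [e2]
  exact s2

theorem Vf_fibre {P : QF} (hA : 0 < P.A) (hP : P.disc < 0) (h1 : ∀ Q, w Q ≠ 0 → Q.disc = D)
    (s : ℝ) (B : ℤ) :
    ∑' Q : P.pair ⁻¹' {B}, (w Q : ℝ) * gg s ((Q : QF).tt P.tau) =
      ((∑ᶠ Q : QF, if P.pair Q = B then w Q else 0 : ℤ) : ℝ) * gg s (-B / √(-P.disc * D)) := by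
  have hT := pair_finite hA hP D B
  have h0 : ∀ Q ∉ hT.toFinset, P.pair Q = B → w Q = 0 := fun Q hQ hB => by
    by_contra h
    exact hQ (hT.mem_toFinset.2 ⟨h1 Q h, hB⟩)
  rw [tsum_subtype (P.pair ⁻¹' {B}) fun Q => (w Q : ℝ) * gg s (Q.tt P.tau),
    tsum_eq_sum (s := hT.toFinset), finsum_eq_sum_of_support_subset (s := hT.toFinset),
    Int.cast_sum, Finset.sum_mul]
  · refine Finset.sum_congr rfl fun Q hQ => ?_
    obtain ⟨h3, h4⟩ := hT.mem_toFinset.1 hQ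
    rw [Set.indicator_of_mem (by exact h4), if_pos h4, QF.tt_tau Q hA hP, h3, h4]
  · intro Q hQ
    by_contra h
    apply hQ
    change (if P.pair Q = B then w Q else 0) = 0
    split_ifs with hB
    · exact h0 Q h hB
    · rfl
  · intro Q hQ
    by_cases hB : P.pair Q = B
    · rw [Set.indicator_of_mem (by exact hB), h0 Q hQ hB, Int.cast_zero, zero_mul]
    · exact Set.indicator_of_notMem (by exact hB) _

theorem hasSum_NN {n : ℕ} [Good n] {ρ : ℤ} (hd : HD n ρ) (hD : 0 < D)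
    (h1 : ∀ Q, w Q ≠ 0 → Q.disc = D) (h2 : ∀ Q, |w Q| ≤ 4) (J : Finset ℕ) (hs : 1 < s)
    (hs' : s ≤ 2) :
    HasSum (fun B : ℤ => (NN n ρ J w B : ℝ) * gg s (-B / √(n * D)))
      (∑ c, (gJ J c : ℝ) * VV w s (ht n ρ c)) := by
  have key : ∀ c : ClassGroup (OO n), HasSum (fun B : ℤ =>
      ((∑ᶠ Q : QF, if (hq n ρ c).pair Q = B then w Q else 0 : ℤ) : ℝ) * gg s (-B / √(n * D)))
      (VV w s (ht n ρ c)) := by
    intro c
    have hg := (hq_spec hd c).1
    have h3 := (summable_VV hD h1 h2 hs hs' (ht_im hd c)).hasSum.tsum_fiberwise (hq n ρ c).pair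
    have e : (fun B : ℤ => ∑' Q : (hq n ρ c).pair ⁻¹' {B},
        (w Q : ℝ) * gg s ((Q : QF).tt (ht n ρ c))) = fun B : ℤ =>
        ((∑ᶠ Q : QF, if (hq n ρ c).pair Q = B then w Q else 0 : ℤ) : ℝ) *
          gg s (-B / √(n * D)) := by
      funext B
      rw [ht, Vf_fibre hg.2 hg.disc_neg h1, hg.1.1]
      simp only [Int.cast_neg, Int.cast_natCast, neg_neg]
    rw [e] at h3
    exact h3
  have h4 := hasSum_sum (s := Finset.univ) fun c _ => (key c).mul_left (gJ J c : ℝ)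
  have e : (fun B : ℤ => (NN n ρ J w B : ℝ) * gg s (-B / √(n * D))) = fun B : ℤ =>
      ∑ c : ClassGroup (OO n), (gJ J c : ℝ) *
        (((∑ᶠ Q : QF, if (hq n ρ c).pair Q = B then w Q else 0 : ℤ) : ℝ) *
          gg s (-B / √(n * D))) := by
    funext B
    rw [NN, Int.cast_sum, Finset.sum_mul]
    refine Finset.sum_congr rfl fun c _ => ?_
    rw [Int.cast_mul, mul_assoc]
  rw [e]
  exact h4

end Pool.Agent.P.MP_8b7eba_nt.R1
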